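import Pool.Agent.H33.HN.FdC
import Pool.Agent.H31.BE.Appr
import Pool.Agent.H31.BE.EntF

/-! # HN.ApF : approximation of the labels by local functions (paper 3.6)

PROOF. `apf`: `appr` (H31.BE.Appr) for `β` and `η`: `k1`, `q1 : ℝ → Fin k1`, `B : Finset G`, `Φ` with `P {β y ≠ Φ (win (lab q1) B y)} ≤ η`. `A := Fin k1 × A0`, `q x := (q1 x, q0 x)`, `pr := Prod.snd`, `β' t := Φ (fun h : ↥B => (t h).1)`, `D' := B`: `(tq q y h).1 = q1 ((h • y) 1) = win (lab q1) B y h`.
`ap_law`: `D1` from `bf_loc`. If `β (h • z.1) = β' (tq q (h • z.1))` for all `h ∈ D1` then the two bags agree (`bgp_fill`, `Bf` is `Lc D1`). The set where this fails has measure at most `D1.card * η` (`h •` preserves `bern G ν`; the set is `{..} ×ˢ univ`; measurability of `{β ≠ β' ∘ tq q}`: `Fm`). For two functions `|P(f = t) - P(f' = t)| ≤ P(f ≠ f')` (as outer measures: `{f = t} ⊆ {f' = t} ∪ {f ≠ f'}`, and the same reversed). -/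

set_option autoImplicit false
set_option synthInstance.maxSize 4000

open MeasureTheory H31.BE

namespace H33.HN

variable {G : Type} [Group G] [DecidableEq G] [Countable G] (ν ζ : Measure ℝ) [IsProbabilityMeasure ν]
  [IsProbabilityMeasure ζ]

omit [DecidableEq G] [Countable G] in
private lemma apF_fm {Λ A : Type} [Finite A] (q : ℝ → A) (hq : Fm q) (D' : Finset G)
    (β' : (G → A) → Λ) (hβ' : Lc D' β') : Fm (fun y : Bsh G => β' (tq q y)) := by
  classical
  have h1 : Fm (fun (y : Bsh G) (h : ↥D') => q ((((h : G)) • y) 1)) := by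
    refine Fm.pi (f := fun (h : ↥D') (y : Bsh G) => q (((h : G) • y) 1)) fun h => ?_
    have hm : Measurable fun y : Bsh G => ((h : G) • y) 1 := measurable_eval ((h : G)⁻¹ * 1)
    exact Fm.comp_measurable hm hq
  have h2 := h1.comp (fun w : ↥D' → A => β' fun h => if hh : h ∈ D' then w ⟨h, hh⟩ else q 0)
  have e : (fun y : Bsh G => β' (tq q y)) = fun y : Bsh G =>
      β' fun h => if hh : h ∈ D' then q ((h • y) 1) else q 0 := by
    funext y
    refine hβ' _ _ fun h hh => ?_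
    rw [dif_pos hh]
    rfl
  rw [e]
  exact h2

omit [DecidableEq G] [Countable G] in
private lemma apF_meas {Λ : Type} [Finite Λ] {β γ : Bsh G → Λ} (hβ : Fm β) (hγ : Fm γ) :
    MeasurableSet {y | β y ≠ γ y} :=
  (hβ.prodMk hγ).preimage {p : Λ × Λ | p.1 ≠ p.2}

private lemma apF_pre {N : Set (Bsh G)} (hN : MeasurableSet N) (h : G) :
    ((bern G ν).prod (bern G ζ)).real {z : Bsh G × Bsh G | h • z.1 ∈ N} = (bern G ν).real N := by
  have e : {z : Bsh G × Bsh G | h • z.1 ∈ N} = ((fun y : Bsh G => h • y) ⁻¹' N) ×ˢ Set.univ := by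
    ext z
    simp
  unfold Measure.real
  rw [e, Measure.prod_prod, measure_univ, mul_one,
    (inv_bern (G := G) ν h).measure_preimage hN.nullMeasurableSet]

private lemma apF_abs {Ω P : Type} [MeasurableSpace Ω] (μ : Measure Ω) [IsFiniteMeasure μ]
    (f f' : Ω → P) (t : P) (Bad : Set Ω) (h : ∀ ω ∉ Bad, f ω = f' ω) :
    |BO.law μ f t - BO.law μ f' t| ≤ μ.real Bad := by
  have h1 : f ⁻¹' {t} ⊆ f' ⁻¹' {t} ∪ Bad := by
    intro ω hω
    by_cases hb : ω ∈ Bad
    · exact Or.inr hb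
    · left
      show f' ω = t
      rw [← h ω hb]
      exact hω
  have h2 : f' ⁻¹' {t} ⊆ f ⁻¹' {t} ∪ Bad := by
    intro ω hω
    by_cases hb : ω ∈ Bad
    · exact Or.inr hb
    · left
      show f ω = t
      rw [h ω hb]
      exact hω
  have h3 := (measureReal_mono h1 (measure_ne_top μ _)).trans (measureReal_union_le _ _)
  have h4 := (measureReal_mono h2 (measure_ne_top μ _)).trans (measureReal_union_le _ _)
  unfold BO.law
  rw [abs_sub_le_iff]
  constructor <;> linarith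

omit [IsProbabilityMeasure ζ] in
theorem apf {Λ A0 : Type} [Finite Λ] [Finite A0] (β : Bsh G → Λ) (hβ : Fm β) (q0 : ℝ → A0) (hq0 : Fm q0) (η : ℝ)
    (hη : 0 < η) :
    ∃ (A : Type) (_ : Finite A) (q : ℝ → A) (_ : Fm q) (pr : A → A0) (_ : ∀ x, pr (q x) = q0 x)
      (D' : Finset G) (β' : (G → A) → Λ), Lc D' β' ∧
        (bern G ν).real {y | β y ≠ β' (tq q y)} ≤ η := by
  obtain ⟨k, q1, hq1, B, Φ, h⟩ := appr ν β hβ η hη
  refine ⟨Fin k × A0, inferInstance, fun x => (q1 x, q0 x), hq1.prodMk hq0, Prod.snd, fun _ => rfl, B,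
    fun t => Φ fun h => (t h).1, ?_, h⟩
  intro t t' htt
  refine congrArg Φ ?_
  funext h
  rw [htt h h.2]

theorem ap_law {S I : Type} [Fintype S] [Fintype I] [DecidableEq S] [DecidableEq I] {r : Rl S I} (g : S → G)
    {P Sh Λ Am : Type} [Finite P] [Fintype Sh] [Finite Λ] [Finite Am] (rc : Sh → (G → Λ) → P) (D : Finset G)
    (hrc : ∀ x, Lc D (rc x)) (qm : ℝ → Am) (hqm : Fm qm) (σ : I → (G → Am) → Sh) (hσ : ∀ i, Lc D (σ i))
    (β : Bsh G → Λ) (hβ : Fm β) : ∃ n : ℕ, ∀ (A : Type) [Finite A] (q : ℝ → A) (_ : Fm q) (D' : Finset G)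
      (β' : (G → A) → Λ) (_ : Lc D' β') (η : ℝ) (_ : (bern G ν).real {y | β y ≠ β' (tq q y)} ≤ η)
      (Φ : Bag r P Λ),
      |BO.law ((bern G ν).prod (bern G ζ)) (bgp g (fun z : Bsh G × Bsh G => β' (tq q z.1))
          (fun i (z : Bsh G × Bsh G) => rc (σ i (tq qm z.2)) (fun h => β' (tq q (h • z.1))))) Φ -
        BO.law ((bern G ν).prod (bern G ζ)) (bgp g (fun z : Bsh G × Bsh G => β z.1)
          (fun i (z : Bsh G × Bsh G) => rc (σ i (tq qm z.2)) (fun h => β (h • z.1)))) Φ| ≤ n * η := by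
  obtain ⟨D1, -, hD1⟩ := bf_loc (r := r) g rc D hrc
  refine ⟨D1.card, fun A _ q hq D' β' hβ' η hη Φ => ?_⟩
  have hγ : Fm (fun y : Bsh G => β' (tq q y)) := apF_fm q hq D' β' hβ'
  set N : Set (Bsh G) := {y | β y ≠ β' (tq q y)} with hN
  have hNm : MeasurableSet N := apF_meas hβ hγ
  set Bad : Set (Bsh G × Bsh G) := ⋃ h ∈ D1, {z : Bsh G × Bsh G | h • z.1 ∈ N} with hBad
  have h1 : ((bern G ν).prod (bern G ζ)).real Bad ≤ D1.card * η := by
    refine (measureReal_biUnion_finset_le D1 _).trans ?_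
    refine (Finset.sum_le_sum fun h _ => (apF_pre ν ζ hNm h).le.trans hη).trans ?_
    rw [Finset.sum_const, nsmul_eq_mul]
  refine (apF_abs _ _ _ Φ Bad fun z hz => ?_).trans h1
  have e1 := bgp_fill (r := r) g rc σ qm (fun y => β' (tq q y)) z
  have e2 := bgp_fill (r := r) g rc σ qm β z
  refine e1.trans (Eq.trans ?_ e2.symm)
  refine hD1 _ _ _ fun h hh => ?_
  by_contra hne
  apply hz
  rw [hBad, Set.mem_iUnion₂]
  exact ⟨h, hh, fun h3 => hne h3.symm⟩

end H33.HN
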