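import Pool.Agent.H33.HN.DefsP

/-! # HN.LgA : words that are trivial in the group act trivially except at few points

PROOF. Copy of H33/BO/LgA. The set of all `f` for which such a `C` exists is a normal subgroup: `C = 0` for `1`; for a product `f g`: if `g v = v` and `f g v ≠ v` then `f v ≠ v`; `f⁻¹ v ≠ v` iff `f v ≠ v`; the bad set of `h f h⁻¹` is the image under `ac X h` of the bad set of `f` (`Set.ncard_image_of_injective`). It contains every `pv (r i)` with `C = 1` (the bad set is contained in `defs r X`). Use `Subgroup.normalClosure_le_normal`. -/

set_option autoImplicit false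
set_option synthInstance.maxSize 4000

open MeasureTheory H31.BE

namespace H33.HN

variable {S I : Type} {r : Rl S I}

theorem lg (f : FreeGroup S) (hf : f ∈ Subgroup.normalClosure (Set.range fun i => pv (r i))) :
    ∃ C : ℕ, ∀ (V : Type) [Finite V] (X : S → Equiv.Perm V),
      {v | ac X f v ≠ v}.ncard ≤ C * (defs r X).ncard := by
  let N : Subgroup (FreeGroup S) :=
    { carrier := {f | ∃ C : ℕ, ∀ (V : Type) [Finite V] (X : S → Equiv.Perm V),
        {v | ac X f v ≠ v}.ncard ≤ C * (defs r X).ncard}
      mul_mem' := by
        rintro a b ⟨Ca, ha⟩ ⟨Cb, hb⟩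
        refine ⟨Ca + Cb, ?_⟩
        intro V _ X
        have hsub : {v | ac X (a * b) v ≠ v} ⊆ {v | ac X a v ≠ v} ∪ {v | ac X b v ≠ v} := by
          intro v hv
          by_contra hcon
          have h1 : ac X a v = v := by
            by_contra h2
            exact hcon (Or.inl h2)
          have h3 : ac X b v = v := by
            by_contra h2
            exact hcon (Or.inr h2)
          apply hv
          rw [map_mul, Equiv.Perm.mul_apply, h3, h1]
        have h1 := (Set.ncard_le_ncard hsub (Set.toFinite _)).trans (Set.ncard_union_le _ _)
        have h2 := ha V X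
        have h3 := hb V X
        rw [Nat.add_mul]
        omega
      one_mem' := by
        refine ⟨0, ?_⟩
        intro V _ X
        have : {v | ac X (1 : FreeGroup S) v ≠ v} = ∅ := by
          ext v
          simp
        rw [this]
        simp
      inv_mem' := by
        rintro a ⟨C, ha⟩
        refine ⟨C, ?_⟩
        intro V _ X
        have : {v | ac X a⁻¹ v ≠ v} = {v | ac X a v ≠ v} := by
          ext v
          rw [Set.mem_ofPred_eq, Set.mem_ofPred_eq, map_inv]
          constructor
          · intro h1 h2
            apply h1
            rw [Equiv.Perm.inv_eq_iff_eq]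
            exact h2.symm
          · intro h1 h2
            apply h1
            rw [Equiv.Perm.inv_eq_iff_eq] at h2
            exact h2.symm
        rw [this]
        exact ha V X }
  have hN : N.Normal := by
    constructor
    rintro a ⟨C, ha⟩ b
    refine ⟨C, ?_⟩
    intro V _ X
    have hset : {v | ac X (b * a * b⁻¹) v ≠ v} = (fun v => ac X b v) '' {v | ac X a v ≠ v} := by
      ext v
      constructor
      · intro hv
        refine ⟨(ac X b)⁻¹ v, ?_, ?_⟩
        · intro h1
          apply hv
          have h2 : ac X a ((ac X b)⁻¹ v) = (ac X b)⁻¹ v := h1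
          rw [map_mul, map_mul, map_inv, Equiv.Perm.mul_apply, Equiv.Perm.mul_apply, h2]
          exact (ac X b).apply_symm_apply v
        · exact (ac X b).apply_symm_apply v
      · rintro ⟨u, hu, rfl⟩
        intro h1
        apply hu
        have h3 : (ac X b)⁻¹ (ac X b u) = u := (ac X b).symm_apply_apply u
        rw [map_mul, map_mul, map_inv, Equiv.Perm.mul_apply, Equiv.Perm.mul_apply, h3] at h1
        exact (ac X b).injective h1
    rw [hset, Set.ncard_image_of_injective _ (ac X b).injective]
    exact ha V X
  have hle : Subgroup.normalClosure (Set.range fun i => pv (r i)) ≤ N := by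
    have := hN
    refine Subgroup.normalClosure_le_normal ?_
    rintro x ⟨i, rfl⟩
    refine ⟨1, ?_⟩
    intro V _ X
    rw [one_mul]
    refine Set.ncard_le_ncard ?_ (Set.toFinite _)
    intro v hv
    exact ⟨i, hv⟩
  exact hle hf

end H33.HN
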