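import Pool.Agent.H33.HN.DefsP
import Pool.Agent.H31.BE.WordsL

/-! # HN.RepA : words for group elements

PROOF. Copy of H33/BO/RepA with `g` instead of `gg W g`. `sym`: by definition of `SS`. `lift_lv`: `lv w = (w.map val).prod`, `lift g (val p) = gv (ll g p)`. `rp_ex`: `exists_word` gives a list of at most `m` letters with product `h`, every letter is `g s` or its inverse; take for `rp h` an element for the least `m` with `h ∈ ball (SS g) m`. `mem_ball`: `lift g f = wprod (kw g f)` (`kw_prod`: `FreeGroup.mk_toWord`, `FreeGroup.lift_mk`), `(kw g f).length = f.norm`. `gen`: `hg.surj`.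
`cv_ex`: every letter of `SS g` is `ll g p` for some `p`. `lv_toWord`: `FreeGroup.mk_toWord` and `FreeGroup.mk L = (L.map val).prod` (induction or `FreeGroup.lift_mk` for `lift of = id`). `fin_norm`: `FreeGroup.toWord` is injective into the lists of length at most `m` over a finite type (`List.finite_length_le`), see H33/BO/BBd. -/

set_option autoImplicit false
set_option synthInstance.maxSize 4000

open MeasureTheory H31.BE

namespace H33.HN

variable {S : Type} [Fintype S] [DecidableEq S] {G : Type} [Group G] [DecidableEq G]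

theorem sym (g : S → G) : ∀ i, ∀ s ∈ SS g i, s⁻¹ ∈ SS g i := by
  intro i s hs
  unfold SS at hs ⊢
  rcases Finset.mem_union.1 hs with h | h
  · obtain ⟨t, _, rfl⟩ := Finset.mem_image.1 h
    exact Finset.mem_union_right _ (Finset.mem_image.2 ⟨t, Finset.mem_univ _, rfl⟩)
  · obtain ⟨t, _, rfl⟩ := Finset.mem_image.1 h
    exact Finset.mem_union_left _ (Finset.mem_image.2 ⟨t, Finset.mem_univ _, (inv_inv _).symm⟩)

theorem lv_cons (p : S × Bool) (w : List (S × Bool)) : lv (p :: w) = val p * lv w := by
  simp [lv]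

private lemma repA_gv (g : S → G) (p : S × Bool) : gv (ll g p) = FreeGroup.lift g (val p) := by
  rcases p with ⟨s, c⟩
  cases c
  · show (g s)⁻¹ = FreeGroup.lift g (val (s, false))
    simp [val]
  · show g s = FreeGroup.lift g (val (s, true))
    simp [val]

theorem lift_lv (g : S → G) (w : List (S × Bool)) : FreeGroup.lift g (lv w) = wprod (w.map (ll g)) := by
  induction w with
  | nil => simp [lv, wprod]
  | cons p w ih =>
    rw [lv_cons, map_mul, ih, ← repA_gv]
    simp [wprod]

private lemma repA_mk (w : List (S × Bool)) : lv w = FreeGroup.mk w := by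
  have h1 : FreeGroup.lift (FreeGroup.of (α := S)) (FreeGroup.mk w) = FreeGroup.mk w := by
    rw [FreeGroup.lift_of_eq_id]
    rfl
  rw [← h1, FreeGroup.lift_mk]
  unfold lv
  congr 1
  refine List.map_congr_left fun p _ => ?_
  rcases p with ⟨s, c⟩
  cases c <;> rfl

theorem lv_toWord (f : FreeGroup S) : lv f.toWord = f := by
  rw [repA_mk, FreeGroup.mk_toWord]

theorem kw_prod (g : S → G) (f : FreeGroup S) : wprod (kw g f) = FreeGroup.lift g f := by
  unfold kw
  rw [← lift_lv, lv_toWord]

theorem kw_len (g : S → G) (f : FreeGroup S) : (kw g f).length = f.norm := by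
  unfold kw
  rw [List.length_map]
  rfl

theorem mem_ball (g : S → G) (f : FreeGroup S) (m : ℕ) (hf : f.norm ≤ m) :
    FreeGroup.lift g f ∈ ball (SS g) m := by
  rw [← kw_prod]
  exact wprod_mem_ball _ (by rw [kw_len]; exact hf)

private lemma repA_letter (g : S → G) (a : H31.BE.Gn (SS g)) : ∃ p : S × Bool, ll g p = a := by
  obtain ⟨i, x, hx⟩ := a
  cases i
  have hx' := hx
  unfold SS at hx'
  rcases Finset.mem_union.1 hx' with h | h
  · obtain ⟨t, _, rfl⟩ := Finset.mem_image.1 h
    exact ⟨(t, true), rfl⟩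
  · obtain ⟨t, _, rfl⟩ := Finset.mem_image.1 h
    exact ⟨(t, false), rfl⟩

private lemma repA_val (p : S × Bool) : (val p).norm ≤ 1 := by
  rcases p with ⟨s, c⟩
  cases c <;> simp [val]

private lemma repA_word (g : S → G) (w : List (H31.BE.Gn (SS g))) :
    ∃ f : FreeGroup S, f.norm ≤ w.length ∧ FreeGroup.lift g f = wprod w := by
  induction w with
  | nil => exact ⟨1, by simp, by simp [wprod]⟩
  | cons a w ih =>
    obtain ⟨f, hf, hf'⟩ := ih
    obtain ⟨p, rfl⟩ := repA_letter g a
    refine ⟨val p * f, ?_, ?_⟩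
    · have h1 := FreeGroup.norm_mul_le (val p) f
      have h2 := repA_val p
      rw [List.length_cons]
      omega
    · rw [map_mul, hf', ← repA_gv]
      simp [wprod]

theorem rp_ex (g : S → G) : ∃ rp : G → FreeGroup S, ∀ m h, h ∈ ball (SS g) m →
    (rp h).norm ≤ m ∧ FreeGroup.lift g (rp h) = h := by
  classical
  have key : ∀ h : G, ∃ f : FreeGroup S, ∀ m, h ∈ ball (SS g) m → f.norm ≤ m ∧ FreeGroup.lift g f = h := by
    intro h
    by_cases hx : ∃ n, h ∈ ball (SS g) n
    · obtain ⟨w, hw, hw'⟩ := exists_word (Nat.find_spec hx)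
      obtain ⟨f, hf, hf'⟩ := repA_word g w
      exact ⟨f, fun m hm => ⟨(hf.trans hw).trans (Nat.find_min' hx hm), hf'.trans hw'⟩⟩
    · exact ⟨1, fun m hm => absurd ⟨m, hm⟩ hx⟩
  choose rp hrp using key
  exact ⟨rp, fun m h hm => hrp h m hm⟩

theorem cv_ex (g : S → G) (w : List (H31.BE.Gn (SS g))) : ∃ w' : List (S × Bool), w'.map (ll g) = w := by
  induction w with
  | nil => exact ⟨[], rfl⟩
  | cons a w ih =>
    obtain ⟨w', hw'⟩ := ih
    obtain ⟨p, hp⟩ := repA_letter g a
    exact ⟨p :: w', by rw [List.map_cons, hp, hw']⟩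

theorem gen {I : Type} {r : Rl S I} (g : S → G) (hg : Pres r g) (h : G) : ∃ m, h ∈ ball (SS g) m := by
  obtain ⟨f, rfl⟩ := hg.surj h
  exact ⟨f.norm, mem_ball g f _ le_rfl⟩

theorem fin_norm (m : ℕ) : {f : FreeGroup S | f.norm ≤ m}.Finite := by
  have h1 : (FreeGroup.toWord '' {f : FreeGroup S | f.norm ≤ m}).Finite := by
    refine (List.finite_length_le (S × Bool) m).subset ?_
    rintro _ ⟨f, hf, rfl⟩
    exact hf
  exact Set.Finite.of_finite_image h1 FreeGroup.toWord_injective.injOn

end H33.HN
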