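import Pool.Agent.H33.HN.DefsP
import Pool.Agent.H33.HN.RepA
import Pool.Agent.H33.HN.LgA

/-! # HN.BbA : number of the bad vertices

PROOF. Copy of H33/BO/BBd. `{f | f.norm ≤ m}` is finite (`fin_norm`). The first part of `BB` is the union over these `f` of the preimages of `Mis` under the permutations `ac X f`. For `f` with `lift g f = 1`: `f ∈ normalClosure ..` (`hg.ker`), `lg` gives `C_f`. `C :=` the sum of all `C_f + 1`.
`bb_mv`: if `ac X f v ∈ BB m'`: first case: `f'` with `ac X f' (ac X f v) ∈ Mis`: `(f' * f).norm ≤ m' + f.norm ≤ m`. Second case: `lift g f' = 1`, `ac X f' (ac X f v) ≠ ac X f v`: the element `f⁻¹ * f' * f` has `lift g = 1`, norm at most `m' + 2 f.norm ≤ m` and `ac X (f⁻¹ * f' * f) v ≠ v`. `bb_mono`: by definition. -/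

set_option autoImplicit false
set_option synthInstance.maxSize 4000

open MeasureTheory H31.BE

namespace H33.HN

variable {S I : Type} [Fintype S] [DecidableEq S] {r : Rl S I} {G : Type} [Group G]

private theorem bbA_word (g : S → G) (hg : Pres r g) (f : FreeGroup S) :
    ∃ C : ℕ, FreeGroup.lift g f = 1 → ∀ (V : Type) [Finite V] (X : S → Equiv.Perm V),
      {v | ac X f v ≠ v}.ncard ≤ C * (defs r X).ncard := by
  by_cases h : FreeGroup.lift g f = 1
  · have h1 : f ∈ Subgroup.normalClosure (Set.range fun i => pv (r i)) := by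
      rw [← hg.ker, MonoidHom.mem_ker, h]
    obtain ⟨C, hC⟩ := lg f h1
    exact ⟨C, fun _ V _ X => hC V X⟩
  · exact ⟨0, fun h' => absurd h' h⟩

theorem bb_bd [DecidableEq G] (g : S → G) (hg : Pres r g) (m : ℕ) :
    ∃ C : ℕ, ∀ (V P Λ : Type) [Finite V] (om : V → Bag r P Λ) (X : S → Equiv.Perm V),
      (BB g om X m).ncard ≤ C * ((Mis om X).ncard + (defs r X).ncard) := by
  classical
  choose Cf hCf using bbA_word g hg
  let F : Finset (FreeGroup S) := (fin_norm (S := S) m).toFinset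
  refine ⟨∑ f ∈ F, (Cf f + 1), fun V P Λ _ om X => ?_⟩
  let T : FreeGroup S → Set V := fun f => {v | ac X f v ∈ Mis om X} ∪
    {v | FreeGroup.lift g f = 1 ∧ ac X f v ≠ v}
  have hsub : BB g om X m ⊆ ⋃ f ∈ F, T f := by
    intro v hv
    rcases hv with ⟨f, hf, h⟩ | ⟨f, hf, h1, h2⟩
    · refine Set.mem_biUnion (x := f) ?_ (Or.inl h)
      simpa [F] using hf
    · refine Set.mem_biUnion (x := f) ?_ (Or.inr ⟨h1, h2⟩)
      simpa [F] using hf
  have hT : ∀ f, (T f).ncard ≤ (Cf f + 1) * ((Mis om X).ncard + (defs r X).ncard) := by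
    intro f
    have h1 : {v | ac X f v ∈ Mis om X}.ncard ≤ (Mis om X).ncard := by
      refine Set.ncard_le_ncard_of_injOn (fun v => ac X f v) (fun v hv => hv) ?_ (Set.toFinite _)
      exact (Equiv.injective _).injOn
    have h2 : {v | FreeGroup.lift g f = 1 ∧ ac X f v ≠ v}.ncard ≤ Cf f * (defs r X).ncard := by
      by_cases h : FreeGroup.lift g f = 1
      · refine le_trans (Set.ncard_le_ncard (fun v hv => ?_) (Set.toFinite _)) (hCf f h V X)
        exact hv.2
      · have : {v | FreeGroup.lift g f = 1 ∧ ac X f v ≠ v} = ∅ := by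
          ext v
          simp [h]
        rw [this]
        simp
    have h3 := Set.ncard_union_le {v | ac X f v ∈ Mis om X}
      {v | FreeGroup.lift g f = 1 ∧ ac X f v ≠ v}
    calc (T f).ncard ≤ _ := h3
      _ ≤ (Mis om X).ncard + Cf f * (defs r X).ncard := add_le_add h1 h2
      _ ≤ _ := by
        have : (Cf f + 1) * ((Mis om X).ncard + (defs r X).ncard) =
          (Mis om X).ncard + Cf f * (defs r X).ncard +
            (Cf f * (Mis om X).ncard + (defs r X).ncard) := by ring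
        rw [this]
        exact Nat.le_add_right _ _
  calc (BB g om X m).ncard ≤ (⋃ f ∈ F, T f).ncard := Set.ncard_le_ncard hsub (Set.toFinite _)
    _ ≤ ∑ f ∈ F, (T f).ncard := F.set_ncard_biUnion_le T
    _ ≤ ∑ f ∈ F, (Cf f + 1) * ((Mis om X).ncard + (defs r X).ncard) :=
      Finset.sum_le_sum fun f _ => hT f
    _ = _ := by rw [Finset.sum_mul]

theorem bb_mv (g : S → G) {V P Λ : Type} (om : V → Bag r P Λ) (X : S → Equiv.Perm V) (m m' : ℕ) (f : FreeGroup S)
    (h : m' + 2 * f.norm ≤ m) (v : V) (hv : v ∉ BB g om X m) : ac X f v ∉ BB g om X m' := by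
  rintro (⟨f', hf', h1⟩ | ⟨f', hf', h1, h2⟩)
  · refine hv (Or.inl ⟨f' * f, ?_, ?_⟩)
    · have h3 := FreeGroup.norm_mul_le f' f
      omega
    · rw [map_mul, Equiv.Perm.mul_apply]
      exact h1
  · refine hv (Or.inr ⟨f⁻¹ * f' * f, ?_, ?_, ?_⟩)
    · have h3 := FreeGroup.norm_mul_le (f⁻¹ * f') f
      have h4 := FreeGroup.norm_mul_le f⁻¹ f'
      rw [FreeGroup.norm_inv_eq] at h4
      omega
    · rw [map_mul, map_mul, h1, mul_one, map_inv, inv_mul_cancel]
    · intro h3
      apply h2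
      rw [map_mul, map_mul, map_inv, Equiv.Perm.mul_apply, Equiv.Perm.mul_apply,
        Equiv.Perm.inv_eq_iff_eq] at h3
      exact h3

theorem bb_mono (g : S → G) {V P Λ : Type} (om : V → Bag r P Λ) (X : S → Equiv.Perm V) (m m' : ℕ)
    (h : m' ≤ m) (v : V) (hv : v ∉ BB g om X m) : v ∉ BB g om X m' := by
  rintro (⟨f', hf', h1⟩ | ⟨f', hf', h1, h2⟩)
  · exact hv (Or.inl ⟨f', hf'.trans h, h1⟩)
  · exact hv (Or.inr ⟨f', hf'.trans h, h1, h2⟩)

theorem bb_mis (g : S → G) {V P Λ : Type} (om : V → Bag r P Λ) (X : S → Equiv.Perm V) (m : ℕ) (f : FreeGroup S)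
    (h : f.norm ≤ m) (v : V) (hv : v ∉ BB g om X m) : ac X f v ∉ Mis om X := by
  exact fun h1 => hv (Or.inl ⟨f, h, h1⟩)

theorem bb_one (g : S → G) {V P Λ : Type} (om : V → Bag r P Λ) (X : S → Equiv.Perm V) (m : ℕ) (f : FreeGroup S)
    (h : f.norm ≤ m) (h1 : FreeGroup.lift g f = 1) (v : V) (hv : v ∉ BB g om X m) : ac X f v = v := by
  by_contra h2
  exact hv (Or.inr ⟨f, h, h1, h2⟩)

end H33.HN
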