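import Pool.Agent.H33.HN.DefsF
import Mathlib.GroupTheory.FreeGroup.CyclicallyReduced

/-! # HN.DefsH : multiple HNN extensions of free groups, the T-structure, the patterns. Definitions only. -/

set_option autoImplicit false
set_option synthInstance.maxSize 4000

open MeasureTheory H31.BE

namespace H33.HN

/-! ## The relators `t_i u_i t_i⁻¹ v_i⁻¹` -/

/-- letters: `inl j` = x_j, `inr i` = t_i -/
abbrev Lh (k m : ℕ) : Type := Fin k ⊕ Fin m

/-- path words in the x_j -/
abbrev Wl (k : ℕ) : Type := List (Fin k × Bool)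

/-- signed x-letters as signed letters -/
def xl {k : ℕ} (m : ℕ) (p : Fin k × Bool) : Lh k m × Bool := (Sum.inl p.1, p.2)

/-- inverse path word -/
def iv {S : Type} (l : List (S × Bool)) : List (S × Bool) := (l.map fun p => (p.1, !p.2)).reverse

/-- the relators `t_i u_i t_i⁻¹ v_i⁻¹` as path words: t⁻¹, then u, then t, then v⁻¹ -/
def rh {k m : ℕ} (U V : Fin m → Wl k) : Rl (Lh k m) (Fin m) := fun i =>
  (Sum.inr i, false) :: ((U i).map (xl m) ++ (Sum.inr i, true) :: (iv (V i)).map (xl m))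

theorem rh_len {k m : ℕ} (U V : Fin m → Wl k) (i : Fin m) :
    (rh U V i).length = (U i).length + (V i).length + 2 := by
  simp [rh, iv]; omega

theorem rh_pos {k m : ℕ} (U V : Fin m → Wl k) (i : Fin m) : 0 < (rh U V i).length := by
  rw [rh_len]; omega

/-- the hypotheses on the words -/
structure Hyp {k m : ℕ} (U V : Fin m → Wl k) : Prop where
  cU : ∀ i, FreeGroup.IsCyclicallyReduced (U i)
  nU : ∀ i, U i ≠ []
  nV : ∀ i, pv (V i) ≠ 1
  pU : ∀ i (w : FreeGroup (Fin k)) (n : ℤ), pv (U i) = w ^ n → n = 1 ∨ n = -1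
  uu : ∀ i j, i ≠ j → ∀ (c : FreeGroup (Fin k)) (a b : ℤ), c * pv (U i) ^ a * c⁻¹ = pv (U j) ^ b → a = 0
  uv : ∀ i j, ∀ (c : FreeGroup (Fin k)) (a b : ℤ), c * pv (U i) ^ a * c⁻¹ = pv (V j) ^ b → a = 0

section positions

variable {k m : ℕ} (U V : Fin m → Wl k)

/-- the lower t-position: the t-edge below the base point -/
def lo (i : Fin m) : Ps (rh U V) := ⟨i, ⟨0, by rw [rh_len]; omega⟩⟩

/-- the switch position: the first letter of u_i -/
def sp (i : Fin m) : Ps (rh U V) := ⟨i, ⟨1, by rw [rh_len]; omega⟩⟩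

/-- the line position: the t-edge below `v_i z` -/
def ln (i : Fin m) : Ps (rh U V) := ⟨i, ⟨(U i).length + 1, by rw [rh_len]; omega⟩⟩

variable {G : Type} [Group G] (g : Lh k m → G)

/-- the free group of the x-letters in `G` -/
def xg : FreeGroup (Fin k) →* G := FreeGroup.lift fun j => g (Sum.inl j)

/-- the element `v_i` -/
def ve (i : Fin m) : G := xg g (pv (V i))

/-- the element from the cell at `z` to the cell of the position `q` at its switch edge -/
def el (i : Fin m) (q : Ps (rh U V)) : G := FreeGroup.lift g (pg (sp U V i) q)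

/-- parent relation of cells for a field of directions -/
def Prx {S I : Type} {r : Rl S I} {G : Type} [Group G] (g : S → G) (td : I → G → Ps r) (c c' : I × G) : Prop :=
  ∃ q, Al (td c.1 c.2) q ∧ c' = (q.1, FreeGroup.lift g (pg (td c.1 c.2) q) * c.2)

/-- products of blocks (switch after more than `L` line moves), from the type `i0` to the type `j` -/
inductive Blc (L : ℕ) (i0 : Fin m) : Fin m → G → Prop
  | one (q : Ps (rh U V)) (a : ℕ) (h : Al (sp U V i0) q) (ha : L < a) :
      Blc L i0 q.1 (el U V g i0 q * ve V g i0 ^ a)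
  | snoc (j : Fin m) (x : G) (q : Ps (rh U V)) (a : ℕ) (hx : Blc L i0 j x) (h : Al (sp U V j) q) (ha : L < a) :
      Blc L i0 q.1 (el U V g j q * ve V g j ^ a * x)

/-! ## The T-structure of a configuration of marks -/

open Classical in
/-- the first `n ≤ N` with `p n` -/
noncomputable def fs (N : ℕ) (p : ℕ → Prop) : Option (Fin (N + 1)) :=
  if h : ∃ n, n ≤ N ∧ p n then some ⟨Nat.find h, Nat.lt_succ_of_le (Nat.find_spec h).1⟩ else none

/-- switchable cells: no marks ahead (up to `N`) and behind (up to `L`), the lines of all other cells at the switch edge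
and the dummy line have a mark within `N` steps -/
def sw (N L : ℕ) (i : Fin m) (t : G → Fin m → Bool) : Prop :=
  (∀ n ≤ N, t (ve V g i ^ n) i ≠ true) ∧ (∀ b ≤ L, t ((ve V g i ^ b)⁻¹) i ≠ true) ∧
  (∀ q : Ps (rh U V), Al (sp U V i) q → ∃ n ≤ N, t (ve V g q.1 ^ n * el U V g i q) q.1 = true) ∧
  ∃ n ≤ N, t (ve V g i ^ n * g (Sum.inr i)) i = true

/-- the line stops: mark or switchable -/
def stp (N L : ℕ) (i : Fin m) (t : G → Fin m → Bool) : Prop := t 1 i = true ∨ sw U V g N L i t

/-- shapes: type, number of line moves, distances of the marks of the parents after a switch -/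
abbrev Sx (N : ℕ) : Type := Σ i : Fin m, Fin (2 * N + 1) × Option ({q : Ps (rh U V) // Al (sp U V i) q} → Fin (N + 1))

open Classical in
/-- the shape of the cell `(i, 1)` -/
noncomputable def sgm (N L : ℕ) (i : Fin m) (t : G → Fin m → Bool) : Sx U V N :=
  match fs (2 * N) (fun n => stp U V g N L i (sf (ve V g i ^ n) t)) with
  | none => ⟨i, 0, none⟩
  | some n => ⟨i, n, if sw U V g N L i (sf (ve V g i ^ (n : ℕ)) t) then
      some (fun q => (fs N (fun a => t (ve V g q.1.1 ^ a * el U V g i q.1 * ve V g i ^ (n : ℕ)) q.1.1 = true)).getD 0)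
      else none⟩

/-- the direction of a shape -/
def dX {N : ℕ} (x : Sx U V N) : Option (Ps (rh U V)) :=
  if (x.2.1 : ℕ) ≠ 0 then some (ln U V x.1) else if x.2.2.isSome then some (sp U V x.1) else none

/-- the height of a shape -/
def hX {N : ℕ} (x : Sx U V N) : ℕ :=
  (x.2.1 : ℕ) + (match x.2.2 with
    | none => 0
    | some f => 1 + Finset.univ.sup fun q => (f q : ℕ))

/-- the shapes of the parents -/
def pX {N : ℕ} (x : Sx U V N) (q : Ps (rh U V)) : Sx U V N :=
  if h0 : (x.2.1 : ℕ) ≠ 0 then ⟨x.1, ⟨(x.2.1 : ℕ) - 1, by have := x.2.1.2; omega⟩, x.2.2⟩ else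
    match x.2.2 with
    | none => ⟨x.1, 0, none⟩
    | some f => if h : Al (sp U V x.1) q then ⟨q.1, ⟨(f ⟨q, h⟩ : ℕ), by have := (f ⟨q, h⟩).2; omega⟩, none⟩
        else ⟨x.1, 0, none⟩

open Classical in
/-- the completed direction of the cell `(i, z)` -/
noncomputable def tdx (N L : ℕ) (t : G → Fin m → Bool) (i : Fin m) (z : G) : Ps (rh U V) :=
  if sw U V g N L i (sf z t) then sp U V i else ln U V i

/-! ## The patterns -/

/-- labels of the corners of a cell -/
abbrev Cl {S I : Type} (r : Rl S I) (Λ : Type) (i : I) : Type := Fin (r i).length → Λ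

/-- labels of the cells of a line segment -/
abbrev Bl {S I : Type} (r : Rl S I) (Λ : Type) (K : ℕ) (i : I) : Type :=
  Cl r Λ i × {l : List (Cl r Λ i) // l.length ≤ K}

/-- patterns: type, labels of the line segment, labels of the line segments of the parents after a switch -/
abbrev PX (Λ : Type) (N : ℕ) : Type :=
  Σ i : Fin m, Bl (rh U V) Λ (2 * N) i × Option ((q : {q : Ps (rh U V) // Al (sp U V i) q}) → Bl (rh U V) Λ N q.1.1)

/-- labels of the corners of the cell `(i, 1)` -/
def own {Λ : Type} (i : Fin m) (t : G → Λ) : Cl (rh U V) Λ i := fun j => t (FreeGroup.lift g (cw ⟨i, j⟩))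

/-- labels of the corners of the cells `(i, v_i), .., (i, v_i^n)` -/
def lsx {Λ : Type} (i : Fin m) : ℕ → (G → Λ) → List (Cl (rh U V) Λ i)
  | 0, _ => []
  | n + 1, t => own U V g i (sf (ve V g i) t) :: lsx i n (sf (ve V g i) t)

theorem lsx_len {Λ : Type} (i : Fin m) (n : ℕ) (t : G → Λ) : (lsx U V g i n t).length = n := by
  induction n generalizing t with
  | zero => rfl
  | succ n ih => simp [lsx, ih]

/-- the pattern of a shape with the labels `t` -/
def rcx {Λ : Type} {N : ℕ} (x : Sx U V N) (t : G → Λ) : PX U V Λ N :=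
  ⟨x.1, (own U V g x.1 t, ⟨lsx U V g x.1 x.2.1 t, by rw [lsx_len]; have := x.2.1.2; omega⟩),
    x.2.2.map fun f q => (own U V g q.1.1 (sf (el U V g x.1 q.1 * ve V g x.1 ^ (x.2.1 : ℕ)) t),
      ⟨lsx U V g q.1.1 (f q) (sf (el U V g x.1 q.1 * ve V g x.1 ^ (x.2.1 : ℕ)) t), by
        rw [lsx_len]; have := (f q).2; omega⟩)⟩

variable {U V}

/-- the shape of a pattern -/
def shx {Λ : Type} {N : ℕ} (p : PX U V Λ N) : Sx U V N :=
  ⟨p.1, ⟨p.2.1.2.1.length, by have := p.2.1.2.2; omega⟩,
    p.2.2.map fun f q => ⟨(f q).2.1.length, by have := (f q).2.2; omega⟩⟩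

/-- the patterns of the parents -/
def parx {Λ : Type} {N : ℕ} (p : PX U V Λ N) (q : Ps (rh U V)) : PX U V Λ N :=
  match h : p.2.1.2.1 with
  | c :: l => ⟨p.1, (c, ⟨l, by have := p.2.1.2.2; rw [h] at this; simp at this; omega⟩), p.2.2⟩
  | [] => match p.2.2 with
    | none => p
    | some f => if h' : Al (sp U V p.1) q then
        ⟨q.1, ((f ⟨q, h'⟩).1, ⟨(f ⟨q, h'⟩).2.1, by have := (f ⟨q, h'⟩).2.2; omega⟩), none⟩ else p

/-- the labels of a pattern -/
def labx {Λ : Type} {N : ℕ} (p : PX U V Λ N) (c : Ps (rh U V)) : Option Λ :=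
  if h : c.1 = p.1 then some (p.2.1.1 (h ▸ c.2)) else none

end positions

/-- twice the Gromov product in a free group -/
def gp {X : Type} [DecidableEq X] (x y : FreeGroup X) : ℤ := (x.norm : ℤ) + y.norm - (x⁻¹ * y).norm

end H33.HN
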