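import Pool.Agent.H33.HN.Defs

/-! # HN.WrdA : path words and corners

PROOF. `pv (l ++ l') = pv l' * pv l`: `List.map_append`, `List.reverse_append`, `List.prod_append`. `ac_nx`: let `c = (i, j)`, `l = (r i).length`. If `j + 1 < l` then `nx c = (i, j + 1)` and `(r i).take (j + 1) = (r i).take j ++ [(r i)[j]]` (`List.take_succ_eq_append_getElem` or similar), so `cw (nx c) = val (lp c, sg c) * cw c` (`pv_concat`).
If `j + 1 = l` then `nx c = (i, 0)`, `cw (nx c) = 1` and `val (lp c, sg c) * cw c = pv ((r i).take l) = pv (r i)`, which fixes `w`. `ac_edge`: cases on `sg c`: `true`: `sc c = c`, `tc c = nx c`, `val (s, true) = of s`; `false`: `sc c = nx c`, `tc c = c`, `val (s, false) = (of s)⁻¹`, so `X s (ac (cw (nx c)) w) = X s (X s)⁻¹ (ac (cw c) w)`.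
`gw_edge`: apply `ac_edge` to the structure `V = G`, `X s = Equiv.mulLeft (g s)`, `w = 1`: `ac X f w = lift g f * w` (two homomorphisms `FreeGroup S →* Equiv.Perm G` that agree on generators), and `lift g (pv (r i)) = 1` (`hg.ker`, `Subgroup.subset_normalClosure`). Norms: `FreeGroup.norm_mul_le`, `FreeGroup.norm_inv_eq`, `norm (val a) = 1` (`FreeGroup.norm_of`), induction on the list; `(r i).length ≤ ml r` by `Finset.le_sup`. -/

set_option autoImplicit false
set_option synthInstance.maxSize 4000

open MeasureTheory H31.BE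

namespace H33.HN

variable {S I : Type} {r : Rl S I}

theorem pv_nil : pv ([] : List (S × Bool)) = 1 := by
  simp [pv]

theorem pv_append (l l' : List (S × Bool)) : pv (l ++ l') = pv l' * pv l := by
  simp only [pv, List.map_append, List.reverse_append, List.prod_append]

theorem pv_concat (l : List (S × Bool)) (a : S × Bool) : pv (l ++ [a]) = val a * pv l := by
  rw [pv_append]
  simp [pv]

theorem nx_fst (c : Ps r) : (nx c).1 = c.1 := by
  rfl

theorem sc_fst (c : Ps r) : (sc c).1 = c.1 := by
  unfold sc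
  split_ifs <;> rfl

theorem tc_fst (c : Ps r) : (tc c).1 = c.1 := by
  unfold tc
  split_ifs <;> rfl

theorem cw_base (hr : ∀ i, 0 < (r i).length) (i : I) : cw (bc hr i) = 1 := by
  show pv ((r i).take 0) = 1
  rw [List.take_zero, pv_nil]

private theorem WrdA_cw (i : I) (j : ℕ) (hj : j < (r i).length) :
    val (lp (r := r) ⟨i, ⟨j, hj⟩⟩, sg (r := r) ⟨i, ⟨j, hj⟩⟩) * cw (r := r) ⟨i, ⟨j, hj⟩⟩ =
      pv ((r i).take (j + 1)) := by
  have hl : (r i).take (j + 1) = (r i).take j ++ [(r i)[j]] := by
    rw [List.take_append_getElem]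
  rw [hl, pv_concat]
  rfl

theorem ac_nx {V : Type} (X : S → Equiv.Perm V) (c : Ps r) (w : V) (h : ac X (pv (r c.1)) w = w) :
    ac X (cw (nx c)) w = ac X (val (lp c, sg c)) (ac X (cw c) w) := by
  obtain ⟨i, j, hj⟩ := c
  rw [← Equiv.Perm.mul_apply, ← map_mul, WrdA_cw]
  by_cases h1 : j + 1 < (r i).length
  · have h2 : cw (nx (r := r) ⟨i, ⟨j, hj⟩⟩) = pv ((r i).take (j + 1)) := by
      show pv ((r i).take ((j + 1) % (r i).length)) = _
      rw [Nat.mod_eq_of_lt h1]
    rw [h2]
  · have h2 : j + 1 = (r i).length := by omega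
    have h3 : cw (nx (r := r) ⟨i, ⟨j, hj⟩⟩) = 1 := by
      show pv ((r i).take ((j + 1) % (r i).length)) = _
      rw [h2, Nat.mod_self, List.take_zero, pv_nil]
    rw [h3, map_one, h2, List.take_length]
    exact h.symm

theorem ac_edge {V : Type} (X : S → Equiv.Perm V) (c : Ps r) (w : V) (h : ac X (pv (r c.1)) w = w) :
    X (lp c) (ac X (cw (sc c)) w) = ac X (cw (tc c)) w := by
  have h1 := ac_nx X c w h
  unfold sc tc
  by_cases hs : sg c = true
  · rw [if_pos hs, if_pos hs, h1, hs]
    have h2 : val (lp c, true) = FreeGroup.of (lp c) := by simp [val]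
    rw [h2]
    simp [ac]
  · rw [if_neg hs, if_neg hs, h1]
    have h3 : sg c = false := by simpa using hs
    have h2 : val (lp c, false) = (FreeGroup.of (lp c))⁻¹ := by simp [val]
    rw [h3, h2]
    simp [ac]

theorem lift_rel {G : Type} [Group G] (g : S → G) (hg : Pres r g) (i : I) : FreeGroup.lift g (pv (r i)) = 1 := by
  have h : pv (r i) ∈ (FreeGroup.lift g).ker := by
    rw [hg.ker]
    exact Subgroup.subset_normalClosure ⟨i, rfl⟩
  exact MonoidHom.mem_ker.1 h

private theorem WrdA_ac {G : Type} [Group G] (g : S → G) (f : FreeGroup S) :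
    ac (fun s => Equiv.mulLeft (g s)) f 1 = FreeGroup.lift g f := by
  have h : ac (fun s => Equiv.mulLeft (g s)) = (MulAction.toPermHom G G).comp (FreeGroup.lift g) := by
    apply FreeGroup.ext_hom
    intro s
    ext x
    simp [ac]
  rw [h]
  simp

theorem gw_edge {G : Type} [Group G] (g : S → G) (hg : Pres r g) (c : Ps r) :
    FreeGroup.lift g (cw (tc c)) = g (lp c) * FreeGroup.lift g (cw (sc c)) := by
  have h := ac_edge (fun s => Equiv.mulLeft (g s)) c (1 : G)
    (by rw [WrdA_ac, lift_rel g hg])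
  rw [WrdA_ac, WrdA_ac] at h
  exact h.symm

private theorem WrdA_val [DecidableEq S] (a : S × Bool) : (val a).norm ≤ 1 := by
  unfold val
  split_ifs
  · rw [FreeGroup.norm_of]
  · rw [FreeGroup.norm_inv_eq, FreeGroup.norm_of]

theorem norm_pv [DecidableEq S] (l : List (S × Bool)) : (pv l).norm ≤ l.length := by
  induction l using List.reverseRecOn with
  | nil => rw [pv_nil, FreeGroup.norm_one]; exact Nat.zero_le _
  | append_singleton l a ih =>
    rw [pv_concat, List.length_append, List.length_singleton]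
    have h1 := FreeGroup.norm_mul_le (val a) (pv l)
    have h2 := WrdA_val a
    omega

theorem norm_cw [DecidableEq S] [Fintype I] (c : Ps r) : (cw c).norm ≤ ml r := by
  have h1 := norm_pv ((r c.1).take c.2.1)
  have h2 : ((r c.1).take c.2.1).length ≤ (r c.1).length := List.length_take_le' _ _
  have h3 : (r c.1).length ≤ ml r := Finset.le_sup (f := fun i => (r i).length) (Finset.mem_univ c.1)
  exact h1.trans (h2.trans h3)

theorem norm_pg [DecidableEq S] [Fintype I] (p q : Ps r) : (pg p q).norm ≤ 2 * ml r := by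
  unfold pg
  have h1 := FreeGroup.norm_mul_le (cw (sc q))⁻¹ (cw (sc p))
  rw [FreeGroup.norm_inv_eq] at h1
  have h2 := norm_cw (sc q)
  have h3 := norm_cw (sc p)
  omega

end H33.HN
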