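import Pool.Agent.H33.HN.HnnA
import Pool.Agent.H33.HN.DefsH
import Pool.Agent.H33.HN.WrdA

/-! # HN.HnnB : the free group of the x-letters, the t-exponent, orders

PROOF. `fr_ord`: free groups are torsion free (`FreeGroup` is torsion free in Mathlib: `FreeGroup.instIsMulTorsionFree`-type, `isOfFinOrder`-lemmas; or: the exponents). `pv_iv`: induction (`pv_append`, `val` of the inverse letter). `pv_xl`: `pv (l.map (xl m)) = FreeGroup.map Sum.inl (pv l)`, so `FreeGroup.lift g (pv (l.map (xl m))) = xg g (pv l)` (both sides are lifts; induction on `l`). `ve_eq`: `lift g (pv (rh U V i)) = 1` (`lift_rel`), and `pv (rh U V i) = (pv V')⁻¹ * of t * pv U' * (of t)⁻¹` (`pv_append`, `pv_iv`).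
`xg_inj`: `hnn_emb` for `K = FreeGroup (Fin k)`, `u i = pv (U i)`, `v i = pv (V i)` (nontrivial: `hy.nV`; `pv (U i) ≠ 1` since a nonempty reduced word is not trivial: `toWord`/`IsReduced.reduce_eq`; here from `hy.pU`? no: `hy.cU`, `hy.nU`: `pv l = 1` for a reduced `l`: `pv l = FreeGroup.mk l.reverse`) and `fr_ord`. The homomorphism `Θ : FreeGroup (Lh k m) → H`, `inl j ↦ ι (of j)`, `inr i ↦ t i` kills `pv (rh U V i)`, so it kills the normal closure: if `xg g f = 1` then `lift g (FreeGroup.map Sum.inl f) = 1`, so `FreeGroup.map Sum.inl f` is in the normal closure (`hg.ker`) and `ι f = Θ (FreeGroup.map Sum.inl f) = 1`, `f = 1`.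
`psi_ex`: the homomorphism `FreeGroup (Lh k m) → Multiplicative ℤ`, `inl j ↦ 1`, `inr i ↦ ofAdd 1` kills the relators; `lift g` is surjective with kernel the normal closure: `QuotientGroup`-type lift, or `MonoidHom.liftOfSurjective` / `(lift g).liftOfRightInverse`. `ve_ord`: `ve ^ n = xg g (pv (V i) ^ n)`. -/

set_option autoImplicit false
set_option synthInstance.maxSize 4000

open MeasureTheory H31.BE

namespace H33.HN

variable {k m : ℕ} {U V : Fin m → Wl k} {G : Type} [Group G] (g : Lh k m → G) (hg : Pres (rh U V) g) (hy : Hyp U V)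

theorem fr_ord {X : Type} (x : FreeGroup X) (hx : x ≠ 1) (n : ℤ) (h : x ^ n = 1) : n = 0 := by
  by_contra hn
  exact hx ((IsMulTorsionFree.zpow_eq_one_iff_left hn).1 h)

private theorem HnnB_val {S : Type} (a : S × Bool) : val a = FreeGroup.mk [a] := by
  obtain ⟨s, b⟩ := a
  unfold val
  cases b
  · rfl
  · rfl

private theorem HnnB_cons {S : Type} (a : S × Bool) (l : List (S × Bool)) :
    pv (a :: l) = pv l * val a := by
  have h := pv_append [a] l
  rw [List.singleton_append] at h
  rw [h]
  congr 1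
  simp [pv]

private theorem HnnB_flip {S : Type} (a : S × Bool) : val (a.1, !a.2) = (val a)⁻¹ := by
  obtain ⟨s, b⟩ := a
  unfold val
  cases b
  · simp
  · simp

theorem pv_mk {S : Type} (l : List (S × Bool)) : pv l = FreeGroup.mk l.reverse := by
  induction l using List.reverseRecOn with
  | nil => rw [pv_nil]; rfl
  | append_singleton l a ih =>
    rw [pv_concat, ih, HnnB_val, FreeGroup.mul_mk, List.reverse_append, List.reverse_singleton]

theorem pv_iv {S : Type} (l : List (S × Bool)) : pv (iv l) = (pv l)⁻¹ := by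
  induction l with
  | nil => simp [iv, pv]
  | cons a l ih =>
    have h : iv (a :: l) = iv l ++ [(a.1, !a.2)] := by
      unfold iv
      rw [List.map_cons, List.reverse_cons]
    rw [h, pv_concat, HnnB_cons, mul_inv_rev, ih, HnnB_flip]

private theorem HnnB_xl {H : Type} [Group H] (g' : Lh k m → H) (a : Fin k × Bool) :
    FreeGroup.lift g' (val (xl m a)) = xg g' (val a) := by
  obtain ⟨j, b⟩ := a
  unfold val xl xg
  cases b
  · simp
  · simp

theorem pv_xl (l : Wl k) : FreeGroup.lift g (pv (l.map (xl m))) = xg g (pv l) := by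
  induction l with
  | nil => rw [List.map_nil, pv_nil, pv_nil, map_one, map_one]
  | cons a l ih => rw [List.map_cons, HnnB_cons, HnnB_cons, map_mul, map_mul, ih, HnnB_xl]

private theorem HnnB_rel {H : Type} [Group H] (g' : Lh k m → H) (i : Fin m) :
    FreeGroup.lift g' (pv (rh U V i)) =
      (xg g' (pv (V i)))⁻¹ * g' (Sum.inr i) * xg g' (pv (U i)) * (g' (Sum.inr i))⁻¹ := by
  have h1 : FreeGroup.lift g' (val ((Sum.inr i, true) : Lh k m × Bool)) = g' (Sum.inr i) := by
    simp [val]
  have h2 : FreeGroup.lift g' (val ((Sum.inr i, false) : Lh k m × Bool)) =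
      (g' (Sum.inr i))⁻¹ := by
    simp [val]
  unfold rh
  rw [HnnB_cons, pv_append, HnnB_cons, map_mul, map_mul, map_mul, h1, h2, pv_xl, pv_xl, pv_iv,
    map_inv]

include hy in
theorem pu_ne (i : Fin m) : pv (U i) ≠ 1 := by
  intro h
  have h1 := hy.pU i 1 0 (by rw [h, zpow_zero])
  omega

include hg in
theorem ve_eq (i : Fin m) : ve V g i = g (Sum.inr i) * xg g (pv (U i)) * (g (Sum.inr i))⁻¹ := by
  have h := lift_rel g hg i
  rw [HnnB_rel, mul_assoc, mul_assoc, inv_mul_eq_one] at h
  show xg g (pv (V i)) = _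
  rw [h, mul_assoc]

private theorem HnnB_inl {H : Type} [Group H] (g' : Lh k m → H) (f : FreeGroup (Fin k)) :
    FreeGroup.lift g' (FreeGroup.map Sum.inl f) = xg g' f := by
  have h : (FreeGroup.lift g').comp (FreeGroup.map Sum.inl) = xg g' := by
    apply FreeGroup.ext_hom
    intro j
    simp [xg]
  rw [← h]
  rfl

private theorem HnnB_ker {H : Type} [Group H] (hg : Pres (rh U V) g) (g' : Lh k m → H)
    (h : ∀ i, FreeGroup.lift g' (pv (rh U V i)) = 1) :
    (FreeGroup.lift g).ker ≤ (FreeGroup.lift g').ker := by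
  rw [hg.ker]
  refine Subgroup.normalClosure_le_normal ?_
  rintro x ⟨i, rfl⟩
  exact MonoidHom.mem_ker.2 (h i)

include hg hy in
theorem xg_inj : Function.Injective (xg g) := by
  obtain ⟨H, hH, ι, t, hι, ht⟩ := hnn_emb (FreeGroup (Fin k)) m (fun i => pv (U i))
    (fun i => pv (V i)) (fun i n h => fr_ord _ (pu_ne hy i) n h) (fun i n h => fr_ord _ (hy.nV i) n h)
  set g' : Lh k m → H := Sum.elim (fun j => ι (FreeGroup.of j)) t with hg'
  have hx : xg g' = ι := by
    apply FreeGroup.ext_hom
    intro j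
    simp [xg, hg']
  have hk := HnnB_ker g hg g' (fun i => by
    rw [HnnB_rel, hx]
    show (ι (pv (V i)))⁻¹ * t i * ι (pv (U i)) * (t i)⁻¹ = 1
    rw [mul_assoc, mul_assoc, inv_mul_eq_one, ← ht i, mul_assoc])
  rw [injective_iff_map_eq_one]
  intro f hf
  have h1 : FreeGroup.map Sum.inl f ∈ (FreeGroup.lift g).ker := by
    rw [MonoidHom.mem_ker, HnnB_inl, hf]
  have h2 := hk h1
  rw [MonoidHom.mem_ker, HnnB_inl, hx] at h2
  exact (injective_iff_map_eq_one ι).1 hι f h2

include hg in
theorem psi_ex : ∃ ψ : G →* Multiplicative ℤ, (∀ j, ψ (g (Sum.inl j)) = 1) ∧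
    ∀ i, ψ (g (Sum.inr i)) = Multiplicative.ofAdd 1 := by
  set g' : Lh k m → Multiplicative ℤ :=
    Sum.elim (fun _ => 1) (fun _ => Multiplicative.ofAdd 1) with hg'
  have hk := HnnB_ker g hg g' (fun i => by
    have hx : ∀ f : FreeGroup (Fin k), xg g' f = 1 := by
      intro f
      have h1 : xg g' = 1 := by
        apply FreeGroup.ext_hom
        intro j
        simp [xg, hg']
      rw [h1]
      rfl
    rw [HnnB_rel, hx, hx, inv_one, one_mul, mul_one, mul_inv_cancel])
  refine ⟨(FreeGroup.lift g).liftOfSurjective hg.surj ⟨FreeGroup.lift g', hk⟩, fun j => ?_,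
    fun i => ?_⟩
  · have h := (FreeGroup.lift g).liftOfRightInverse_comp_apply
      (Function.surjInv hg.surj) (Function.rightInverse_surjInv hg.surj)
      ⟨FreeGroup.lift g', hk⟩ (FreeGroup.of (Sum.inl j))
    rw [FreeGroup.lift_apply_of, FreeGroup.lift_apply_of] at h
    exact h
  · have h := (FreeGroup.lift g).liftOfRightInverse_comp_apply
      (Function.surjInv hg.surj) (Function.rightInverse_surjInv hg.surj)
      ⟨FreeGroup.lift g', hk⟩ (FreeGroup.of (Sum.inr i))
    rw [FreeGroup.lift_apply_of, FreeGroup.lift_apply_of] at h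
    exact h

include hg hy in
theorem ve_ord (i : Fin m) (n : ℤ) (h : ve V g i ^ n = 1) : n = 0 := by
  refine fr_ord (pv (V i)) (hy.nV i) n ?_
  apply xg_inj g hg hy
  rw [map_zpow, map_one]
  exact h

end H33.HN
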