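import Pool.Agent.H33.HN.GrA
import Pool.Agent.H33.HN.HnnB

/-! # HN.GrB : the overlap of two lines is bounded (paper 5.3)

PROOF. All in a free group of finite rank, `|x| = norm`. `x_b := (u' ^ b)⁻¹`, `y_b := h * u ^ b`. `gp x_b x_a = |x_b| + |x_a| - |u' ^ (a - b)| = 2 |x_b|` for `b ≤ a` (`hu'`; `|x_b| = b |u'|`). `gp y_b y_a ≥ (|u^b| - |h|) + (|u^a| - |h|) - |u^(a - b)| = 2 |u^b| - 2 |h| ≥ 2 |y_b| - 4 |h|`. Let `c0 := |u| + |h|`, `ρ := 2 c0 + 4 |h|` or so (any bound computed below). CLAIM: if `gp x_a y_a' ≥ 2 |x_b|`, `b ≤ a`, then there is `b' ≤ a'` with `|u'^b * h * u^b'| ≤ ρ`.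
Choose `b' ≤ a'` with `| |y_b'| - |x_b| | ≤ c0`: if `|x_b| ≤ |h|` take `b' = 0`. Otherwise `|y_0| = |h| < |x_b| ≤ |y_a'|` (`gp x_a y_a' ≤ 2 |y_a'|`) and consecutive `|y_b|` differ by at most `|u|`, so the first `b'` with `|y_b'| ≥ |x_b|` works. `gp x_b y_a' ≥ min (gp x_b x_a) (gp x_a y_a') ≥ 2 |x_b|`; `gp x_b y_b' ≥ min (gp x_b y_a') (gp y_a' y_b') ≥ min (2 |x_b|) (2 |y_b'| - 4 |h|) ≥ 2 |x_b| - 2 c0 - 4 |h|`. So `|x_b⁻¹ y_b'| = |x_b| + |y_b'| - gp ≤ c0 + 2 c0 + 4 |h| =: ρ`, and `x_b⁻¹ y_b' = u'^b h u^b'`.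
The set of the elements of norm `≤ ρ` is finite, with `B` elements (finitely many lists of length `≤ ρ` over `X × Bool`). If `gp x_a y_a' > 2 B |u'|` then `|x_a| ≥ gp / 2 > B |u'|`, so `a > B`, and for all `b ≤ B`: `2 |x_b| = 2 b |u'| ≤ gp x_a y_a'`: the `B + 1` elements `u'^b h u^b'(b)`, `b = 0..B`, have norm `≤ ρ`, two of them are equal: `u'^b h u^c = u'^d h u^e`, `b ≠ d`: `h u^(c - e) h⁻¹ = u'^(d - b)`, so `c - e = 0` by `nc` and `u'^(d - b) = 1`, `d = b` (`fr_ord`, `u' ≠ 1`), a contradiction. So `C := 2 B |u'|`. -/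

set_option autoImplicit false
set_option synthInstance.maxSize 4000

open MeasureTheory H31.BE

namespace H33.HN

private theorem GrB_fin {X : Type} [DecidableEq X] [Finite X] (r : ℕ) :
    {g : FreeGroup X | g.norm ≤ r}.Finite := by
  have h1 : {l : List (X × Bool) | l.length ≤ r}.Finite := List.finite_length_le _ _
  have h2 : (FreeGroup.toWord ⁻¹' {l : List (X × Bool) | l.length ≤ r}).Finite :=
    h1.preimage (FreeGroup.toWord_injective.injOn)
  exact h2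

private theorem GrB_inv {X : Type} [DecidableEq X] (x : FreeGroup X) : x⁻¹.norm = x.norm :=
  FreeGroup.norm_inv_eq

private theorem GrB_xx {X : Type} [DecidableEq X] (u' : FreeGroup X)
    (hu' : ∀ n : ℕ, (u' ^ n).norm = n * u'.norm) (b a : ℕ) (hba : b ≤ a) :
    gp ((u' ^ b)⁻¹) ((u' ^ a)⁻¹) = 2 * ((u' ^ b)⁻¹).norm := by
  have e : ((u' ^ b)⁻¹)⁻¹ * (u' ^ a)⁻¹ = (u' ^ (a - b))⁻¹ := by
    obtain ⟨c, rfl⟩ := Nat.exists_eq_add_of_le hba
    rw [Nat.add_sub_cancel_left, pow_add]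
    group
  obtain ⟨c, rfl⟩ := Nat.exists_eq_add_of_le hba
  unfold gp
  rw [e, GrB_inv, GrB_inv, GrB_inv, hu', hu', hu', Nat.add_sub_cancel_left]
  push_cast
  ring

private theorem GrB_yy {X : Type} [DecidableEq X] (u h : FreeGroup X)
    (hu : ∀ n : ℕ, (u ^ n).norm = n * u.norm) (b a : ℕ) (hba : b ≤ a) :
    (2 * (h * u ^ b).norm - 2 * h.norm : ℤ) ≤ gp (h * u ^ b) (h * u ^ a) := by
  obtain ⟨c, rfl⟩ := Nat.exists_eq_add_of_le hba
  have e : (h * u ^ b)⁻¹ * (h * u ^ (b + c)) = u ^ c := by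
    rw [pow_add]
    group
  have h1 : (h * u ^ b).norm ≤ h.norm + (u ^ b).norm := FreeGroup.norm_mul_le _ _
  have h2 : (u ^ (b + c)).norm ≤ (h⁻¹).norm + (h * u ^ (b + c)).norm := by
    have h3 := FreeGroup.norm_mul_le (h⁻¹) (h * u ^ (b + c))
    rwa [inv_mul_cancel_left] at h3
  rw [GrB_inv] at h2
  rw [hu] at h1 h2
  unfold gp
  rw [e, hu]
  push_cast at h1 h2 ⊢
  have h1' : ((h * u ^ b).norm : ℤ) ≤ h.norm + b * u.norm := by exact_mod_cast h1
  have h2' : ((b : ℤ) + c) * u.norm ≤ h.norm + (h * u ^ (b + c)).norm := by exact_mod_cast h2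
  nlinarith [h1', h2']

private theorem GrB_step {X : Type} [DecidableEq X] (u h : FreeGroup X) (b : ℕ) :
    (h * u ^ (b + 1)).norm ≤ (h * u ^ b).norm + u.norm := by
  have h3 := FreeGroup.norm_mul_le (h * u ^ b) u
  rwa [mul_assoc, ← pow_succ] at h3

private theorem GrB_claim {X : Type} [DecidableEq X] (u u' h : FreeGroup X)
    (hu : ∀ n : ℕ, (u ^ n).norm = n * u.norm) (hu' : ∀ n : ℕ, (u' ^ n).norm = n * u'.norm)
    (a a' b : ℕ) (hba : b ≤ a)
    (hg : (2 * ((u' ^ b)⁻¹).norm : ℤ) ≤ gp ((u' ^ a)⁻¹) (h * u ^ a')) :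
    ∃ b' : ℕ, (u' ^ b * h * u ^ b').norm ≤ 3 * (u.norm + h.norm) + 2 * h.norm := by
  set xb := (u' ^ b)⁻¹ with hxb
  set xa := (u' ^ a)⁻¹ with hxa
  -- the choice of b'
  have hch : ∃ b' : ℕ, b' ≤ a' ∧ xb.norm ≤ (h * u ^ b').norm + (u.norm + h.norm) ∧
      (h * u ^ b').norm ≤ xb.norm + (u.norm + h.norm) := by
    by_cases hc : xb.norm ≤ h.norm
    · refine ⟨0, Nat.zero_le _, ?_, ?_⟩
      · rw [pow_zero, mul_one]
        omega
      · rw [pow_zero, mul_one]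
        omega
    · have hle : (xb.norm : ℤ) ≤ (h * u ^ a').norm := by
        have h4 := gp_le (h * u ^ a') xa
        rw [gp_symm] at h4
        linarith
      have hle' : xb.norm ≤ (h * u ^ a').norm := by exact_mod_cast hle
      have hex : ∃ n, xb.norm ≤ (h * u ^ n).norm := ⟨a', hle'⟩
      classical
      have hs := Nat.find_spec hex
      have hm : Nat.find hex ≤ a' := Nat.find_min' hex hle'
      refine ⟨Nat.find hex, hm, by omega, ?_⟩
      rcases Nat.eq_zero_or_pos (Nat.find hex) with h0 | h0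
      · rw [h0, pow_zero, mul_one]
        omega
      · obtain ⟨k, hk⟩ : ∃ k, Nat.find hex = k + 1 := ⟨Nat.find hex - 1, by omega⟩
        have h5 : ¬ xb.norm ≤ (h * u ^ k).norm := Nat.find_min hex (by omega)
        have h6 := GrB_step u h k
        rw [hk]
        omega
  obtain ⟨b', hb', h7, h8⟩ := hch
  refine ⟨b', ?_⟩
  have e1 : gp xb xa = 2 * xb.norm := GrB_xx u' hu' b a hba
  have e2 := gp_ultra xb xa (h * u ^ a')
  rw [e1] at e2
  have e3 : (2 * xb.norm : ℤ) ≤ gp xb (h * u ^ a') := le_trans (le_min le_rfl hg) e2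
  have e4 := gp_ultra xb (h * u ^ a') (h * u ^ b')
  have e5 := GrB_yy u h hu b' a' hb'
  rw [gp_symm] at e5
  have e6 : (2 * xb.norm - 2 * (u.norm + h.norm) - 2 * h.norm : ℤ) ≤ gp xb (h * u ^ b') := by
    refine le_trans (le_min ?_ ?_) e4
    · have : (0 : ℤ) ≤ u.norm := Int.natCast_nonneg _
      have : (0 : ℤ) ≤ h.norm := Int.natCast_nonneg _
      linarith
    · have h7' : (xb.norm : ℤ) ≤ (h * u ^ b').norm + (u.norm + h.norm) := by exact_mod_cast h7
      linarith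
  unfold gp at e6
  have e7 : xb⁻¹ * (h * u ^ b') = u' ^ b * h * u ^ b' := by
    rw [hxb, inv_inv, mul_assoc]
  rw [e7] at e6
  have h8' : ((h * u ^ b').norm : ℤ) ≤ xb.norm + (u.norm + h.norm) := by exact_mod_cast h8
  have e8 : ((u' ^ b * h * u ^ b').norm : ℤ) ≤ 3 * (u.norm + h.norm) + 2 * h.norm := by linarith
  exact_mod_cast e8

theorem cb {X : Type} [DecidableEq X] [Finite X] (u u' h : FreeGroup X)
    (hu : ∀ n : ℕ, (u ^ n).norm = n * u.norm) (hu' : ∀ n : ℕ, (u' ^ n).norm = n * u'.norm) (h1 : u' ≠ 1)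
    (nc : ∀ a b : ℤ, h * u ^ a * h⁻¹ = u' ^ b → a = 0) :
    ∃ C : ℤ, ∀ a a' : ℕ, gp ((u' ^ a)⁻¹) (h * u ^ a') ≤ C := by
  set r := 3 * (u.norm + h.norm) + 2 * h.norm with hr
  have hfin := GrB_fin (X := X) r
  set S := hfin.toFinset with hS
  refine ⟨2 * S.card * u'.norm, fun a a' => ?_⟩
  by_contra hcon
  push Not at hcon
  have hle := gp_le ((u' ^ a)⁻¹) (h * u ^ a')
  rw [GrB_inv, hu'] at hle
  have hlt : S.card * u'.norm < a * u'.norm := by
    have : ((S.card : ℤ) * u'.norm) < a * u'.norm := by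
      push_cast at hle
      linarith
    exact_mod_cast this
  have hBa : S.card < a := lt_of_mul_lt_mul_right hlt (Nat.zero_le _)
  have hall : ∀ b : ℕ, b ≤ S.card → ∃ b' : ℕ, (u' ^ b * h * u ^ b').norm ≤ r := by
    intro b hb
    refine GrB_claim u u' h hu hu' a a' b (by omega) ?_
    rw [GrB_inv, hu']
    have : (b : ℤ) * u'.norm ≤ S.card * u'.norm :=
      mul_le_mul_of_nonneg_right (by exact_mod_cast hb) (Int.natCast_nonneg _)
    push_cast
    linarith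
  choose f hf using hall
  have hpig : ∃ x ∈ Finset.range (S.card + 1), ∃ y ∈ Finset.range (S.card + 1), x ≠ y ∧
      (if hx : x ≤ S.card then u' ^ x * h * u ^ (f x hx) else 1) =
      (if hy : y ≤ S.card then u' ^ y * h * u ^ (f y hy) else 1) := by
    refine Finset.exists_ne_map_eq_of_card_lt_of_maps_to (t := S) (by rw [Finset.card_range]; omega) ?_
    intro x hx
    have hx' : x ≤ S.card := by
      have := Finset.mem_range.1 hx
      omega
    simp only [hx', dif_pos]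
    exact (hfin.mem_toFinset).2 (hf x hx')
  obtain ⟨b, hb, d, hd, hne, heq⟩ := hpig
  have hb' : b ≤ S.card := by
    have := Finset.mem_range.1 hb
    omega
  have hd' : d ≤ S.card := by
    have := Finset.mem_range.1 hd
    omega
  rw [dif_pos hb', dif_pos hd'] at heq
  set c := f b hb'
  set e := f d hd'
  have key : h * u ^ ((c : ℤ) - e) * h⁻¹ = u' ^ ((d : ℤ) - b) := by
    have k1 : h * u ^ c * (u ^ e)⁻¹ * h⁻¹ = (u' ^ b)⁻¹ * u' ^ d := by
      have k2 : h * u ^ c = (u' ^ b)⁻¹ * (u' ^ d * h * u ^ e) := by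
        rw [← heq]
        group
      rw [k2]
      group
    have k3 : u' ^ ((d : ℤ) - b) = (u' ^ b)⁻¹ * u' ^ d := by
      rw [sub_eq_neg_add, zpow_add, zpow_neg, zpow_natCast, zpow_natCast]
    rw [k3, ← k1, sub_eq_add_neg, zpow_add, zpow_neg, zpow_natCast, zpow_natCast]
    simp only [mul_assoc]
  have hc0 := nc _ _ key
  rw [hc0, zpow_zero, mul_one, mul_inv_cancel] at key
  have := fr_ord u' h1 _ key.symm
  omega

end H33.HN
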