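import Pool.Agent.H33.HN.NcA
import Pool.Agent.H33.HN.GrB

/-! # HN.BlcA : products of blocks are not trivial (paper 5.3)

PROOF. Notation: `u_i := pv (U i)`, `τ := g (inr ·)`. Constants: for every pair `(i, q)` with `Al (sp i) q` of the bottom type (`el_cases`, choose `f_(i,q)`) `cb` for `u := u_i`, `u' := u_(q.1)`, `h := f_(i,q)` (`cy_norm`, `pu_ne`) gives `C_(i,q)`; `F := max |f_(i,q)|`, `C0 := max C_(i,q) + 2 F` (at least 0), `L0 := C0 + F` (natural number). `ψ` from `psi_ex`. CLAIM (induction on `Blc`) for `L ≥ L0`: for `Blc L i0 j x` there is `n : ℕ` with `ψ x = ofAdd (-n)`, and if `n = 0` then there are `y, c : FreeGroup (Fin k)` with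
`x = τ j * xg y * (τ i0)⁻¹`, `gp y c ≥ 2 |c| - C0`, `C0 < |c|` and for all `a`: `gp ((u_j ^ a)⁻¹) c ≤ C0 - 2 F`. Step: `el j q * ve j ^ a`: `ψ = ofAdd 0` for bottom `q`, `ofAdd (-1)` for top `q` (`ψ (xg f) = 1`). If all are bottom: `el j q * ve j ^ a = τ q.1 * xg (f * u_j ^ a) * (τ j)⁻¹` (`ve_eq`), so `y' = c' * y` with `c' := f * u_j ^ a`, `|c'| ≥ a |u_j| - |f| ≥ a - F > C0`. For the first block `y' = c'` (`gp_self`).
Next: `gp c'⁻¹ y ≤ C0`: `c'⁻¹ = (u_j ^ a)⁻¹ * f⁻¹`, `gp c'⁻¹ c ≤ gp ((u_j ^ a)⁻¹) c + 2 |f| ≤ C0` (`gp_lip`), and `min (gp c'⁻¹ y) (gp y c) ≤ gp c'⁻¹ c ≤ C0` (`gp_ultra`) with `gp y c ≥ 2 |c| - C0 > C0`. So `gp y' c' = gp (c' * y) c' = 2 |c'| - gp c'⁻¹ y ≥ 2 |c'| - C0` (`gp_mul`). `gp ((u_(q.1) ^ a')⁻¹) c' ≤ C_(j,q) ≤ C0 - 2 F`. CONCLUSION: if `Blc L i i 1` then `ψ 1 = 1` gives `n = 0`, `1 = τ i * xg y * (τ i)⁻¹`, so `y = 1` (`xg_inj`), `gp 1 c = 0 ≥ 2 |c| - C0 > C0 ≥ 0`, a contradiction. -/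

set_option autoImplicit false
set_option synthInstance.maxSize 4000

open MeasureTheory H31.BE

namespace H33.HN

variable {k m : ℕ} {U V : Fin m → Wl k} {G : Type} [Group G] (g : Lh k m → G) (hg : Pres (rh U V) g) (hy : Hyp U V)

include hg hy in
private theorem BlcA_unif : ∃ F C : ℕ, ∀ (i : Fin m) (q : Ps (rh U V)), Al (sp U V i) q →
    (∃ f : FreeGroup (Fin k), el U V g i q = g (Sum.inr q.1) * xg g f * (g (Sum.inr i))⁻¹ ∧
      f.norm ≤ F ∧ ∀ a a' : ℕ, gp ((pv (U q.1) ^ a)⁻¹) (f * pv (U i) ^ a') ≤ (C : ℤ)) ∨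
    ∃ f : FreeGroup (Fin k), el U V g i q = xg g f * (g (Sum.inr i))⁻¹ := by
  have h1 : ∀ p : Fin m × Ps (rh U V), ∃ FC : ℕ × ℕ, Al (sp U V p.1) p.2 →
      (∃ f : FreeGroup (Fin k), el U V g p.1 p.2 =
          g (Sum.inr p.2.1) * xg g f * (g (Sum.inr p.1))⁻¹ ∧
        f.norm ≤ FC.1 ∧
        ∀ a a' : ℕ, gp ((pv (U p.2.1) ^ a)⁻¹) (f * pv (U p.1) ^ a') ≤ (FC.2 : ℤ)) ∨
      ∃ f : FreeGroup (Fin k), el U V g p.1 p.2 = xg g f * (g (Sum.inr p.1))⁻¹ := by
    rintro ⟨i, q⟩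
    by_cases hq : Al (sp U V i) q
    · rcases el_cases g hg hy i q hq with ⟨f, hf, hnc⟩ | ⟨f, hf⟩
      · obtain ⟨C, hC⟩ := cb (pv (U i)) (pv (U q.1)) f (cy_norm _ (hy.cU i))
          (cy_norm _ (hy.cU q.1)) (pu_ne hy q.1) hnc
        exact ⟨(f.norm, C.toNat), fun _ => Or.inl ⟨f, hf, le_rfl,
          fun a a' => (hC a a').trans (Int.self_le_toNat C)⟩⟩
      · exact ⟨(0, 0), fun _ => Or.inr ⟨f, hf⟩⟩
    · exact ⟨(0, 0), fun h => absurd h hq⟩
  choose FC hFC using h1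
  refine ⟨Finset.univ.sup (fun p => (FC p).1), Finset.univ.sup (fun p => (FC p).2),
    fun i q hq => ?_⟩
  rcases hFC (i, q) hq with ⟨f, hf, hF, hC⟩ | h
  · left
    refine ⟨f, hf, hF.trans (Finset.le_sup (f := fun p => (FC p).1) (Finset.mem_univ (i, q))),
      fun a a' => (hC a a').trans ?_⟩
    exact_mod_cast Finset.le_sup (f := fun p => (FC p).2) (Finset.mem_univ (i, q))
  · right
    exact h

include hg in
private theorem BlcA_ve (j : Fin m) (a : ℕ) : ve V g j ^ a =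
    g (Sum.inr j) * xg g (pv (U j) ^ a) * (g (Sum.inr j))⁻¹ := by
  rw [ve_eq g hg j, conj_pow, map_pow]

include hy in
private theorem BlcA_norm (j : Fin m) (a : ℕ) (f : FreeGroup (Fin k)) :
    (a : ℤ) - f.norm ≤ (f * pv (U j) ^ a).norm := by
  have h1 : 1 ≤ (pv (U j)).norm := by
    rcases Nat.eq_zero_or_pos (pv (U j)).norm with h | h
    · exact absurd (FreeGroup.norm_eq_zero.1 h) (pu_ne hy j)
    · exact h
  have h2 := cy_norm (U j) (hy.cU j) a
  have h3 : (pv (U j) ^ a).norm ≤ f.norm + (f * pv (U j) ^ a).norm := by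
    calc (pv (U j) ^ a).norm = (f⁻¹ * (f * pv (U j) ^ a)).norm := by rw [inv_mul_cancel_left]
      _ ≤ (f⁻¹).norm + (f * pv (U j) ^ a).norm := FreeGroup.norm_mul_le _ _
      _ = _ := by rw [FreeGroup.norm_inv_eq]
  have h4 : a ≤ a * (pv (U j)).norm := Nat.le_mul_of_pos_right a h1
  omega

include hg hy in
theorem blc_ne : ∃ L0 : ℕ, ∀ L, L0 ≤ L → ∀ i : Fin m, ¬ Blc U V g L i i 1 := by
  obtain ⟨F, C, hFC⟩ := BlcA_unif g hg hy
  obtain ⟨ψ, hψ1, hψ2⟩ := psi_ex g hg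
  have hψx : ∀ f : FreeGroup (Fin k), ψ (xg g f) = 1 := by
    intro f
    have h : ψ.comp (xg g) = 1 := by
      ext j
      simp [xg, hψ1]
    have h' := DFunLike.congr_fun h f
    simpa using h'
  refine ⟨C + 2 * F + F, fun L hL i hi => ?_⟩
  have main : ∀ (j : Fin m) (x : G), Blc U V g L i j x → ∃ n : ℕ,
      ψ x = Multiplicative.ofAdd (-(n : ℤ)) ∧ (n = 0 → ∃ y c : FreeGroup (Fin k),
        x = g (Sum.inr j) * xg g y * (g (Sum.inr i))⁻¹ ∧
        2 * (c.norm : ℤ) - (C + 2 * F) ≤ gp y c ∧ (C + 2 * F : ℤ) < c.norm ∧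
        ∀ a : ℕ, gp ((pv (U j) ^ a)⁻¹) c ≤ C) := by
    intro j x hx
    induction hx with
    | one q a h ha =>
      rcases hFC i q h with ⟨f, hf, hF, hC⟩ | ⟨f, hf⟩
      · have hn := BlcA_norm hy i a f
        refine ⟨0, ?_, fun _ => ⟨f * pv (U i) ^ a, f * pv (U i) ^ a, ?_, ?_, ?_, fun a' => hC a' a⟩⟩
        · rw [BlcA_ve g hg, hf]
          simp [hψx, hψ2]
        · rw [BlcA_ve g hg, hf, map_mul]
          group
        · rw [gp_self]
          omega
        · omega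
      · refine ⟨1, ?_, fun h => absurd h one_ne_zero⟩
        rw [BlcA_ve g hg, hf]
        simp [hψx, hψ2]
    | snoc j x q a hx h ha ih =>
      obtain ⟨n, hn1, hn2⟩ := ih
      rcases hFC j q h with ⟨f, hf, hF, hC⟩ | ⟨f, hf⟩
      · have hn := BlcA_norm hy j a f
        refine ⟨n, ?_, fun hn0 => ?_⟩
        · rw [BlcA_ve g hg, hf]
          simp [hψx, hψ2, hn1]
        · obtain ⟨y, c, hxy, hy1, hy2, hy3⟩ := hn2 hn0
          refine ⟨f * pv (U j) ^ a * y, f * pv (U j) ^ a, ?_, ?_, ?_, fun a' => hC a' a⟩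
          · rw [BlcA_ve g hg, hf, hxy, map_mul, map_mul]
            group
          · rw [gp_mul]
            have h1 : gp ((f * pv (U j) ^ a)⁻¹) c ≤ C + 2 * F := by
              rw [mul_inv_rev]
              refine (gp_lip _ _ _).trans ?_
              have := hy3 a
              rw [FreeGroup.norm_inv_eq]
              omega
            have h2 := (gp_ultra ((f * pv (U j) ^ a)⁻¹) y c).trans h1
            rcases min_le_iff.1 h2 with h3 | h3
            · omega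
            · omega
          · omega
      · refine ⟨n + 1, ?_, fun h => absurd h (Nat.succ_ne_zero n)⟩
        rw [BlcA_ve g hg, hf]
        simp only [map_mul, map_inv, hψx, hψ2, hn1, one_mul, mul_one]
        apply Multiplicative.toAdd.injective
        simp
  obtain ⟨n, hn1, hn2⟩ := main i 1 hi
  have hn0 : n = 0 := by
    rw [map_one] at hn1
    have := congrArg Multiplicative.toAdd hn1
    simp at this
    omega
  obtain ⟨y, c, hxy, hy1, hy2, -⟩ := hn2 hn0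
  have h1 : xg g y = 1 := by
    have h2 : g (Sum.inr i) * xg g y = g (Sum.inr i) := by
      have h3 := eq_mul_inv_iff_mul_eq.1 hxy
      rw [one_mul] at h3
      exact h3.symm
    exact mul_eq_left.1 h2
  have h2 : y = 1 := xg_inj g hg hy (by rw [h1, map_one])
  rw [h2] at hy1
  unfold gp at hy1
  rw [inv_one, one_mul, FreeGroup.norm_one] at hy1
  push_cast at hy1
  omega

end H33.HN
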