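import Pool.Agent.H33.HN.DefsF
import Pool.Agent.H31.BE.EntF

/-! # HN.CeA : conditional entropies of local functions of a Bernoulli process

PROOF. `fm_tq`: `y ↦ tq q y g = q ((g • y) 1) = q (y (g⁻¹ * 1))` is `Fm` (`measurable_eval`-type). `fm_lc`: `F (tq q y)` is a function of the finite family `(tq q y g)`, `g ∈ D` (if `A` is empty there is no `y`: `tq q y 1 : A`; see `fm_loc` in H33/BO/FmA). `ce_emp`: `entc f g = ent f` for a constant `g` (the type `↥∅ → A` has one element; `ent_inj`-type lemmas in H31.BE.EntB). `ce_full`: `F (tq q y)` is a function of the coordinates in `J ⊇ D`: `entc_of_fun`.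
`ce_loc`: let `J1 = J ∩ D`, `J2 = J \ D`. `t_J` and `(t_J1, t_J2)` determine each other. `(F, t_J1)` is a function of the coordinates in `D`, `t_J2` of the coordinates in `J2`, disjoint finite sets: independent (`indep_coord`, `indep_disj` or similar in H31.BE.Bern / H33.BO; or `bern_pi`), so `ent (F, t_J1, t_J2) = ent (F, t_J1) + ent t_J2` and `ent (t_J1, t_J2) = ent t_J1 + ent t_J2`.
`ce_data`: `F' = h ∘ F`. For `X = t_g`, `Z = t_J` (`t_(insert g J)` and `(X, Z)` determine each other): the claim is `H(F' | Z) - H(F' | X, Z) ≤ H(F | Z) - H(F | X, Z)`; `H(F | Z) = H(F' | Z) + H(F | F', Z)` (chain rule, `F'` is a function of `F`), `H(F | X, Z) = H(F' | X, Z) + H(F | F', X, Z)` and `H(F | F', X, Z) ≤ H(F | F', Z)` (`entc_anti`). `ce_dec`: `entc_anti`. `ce_one`: `X = t_1 = q (y 1)`, `1 ∉ J`: `H(F | Z) - H(F | X, Z) = H(X | Z) - H(X | F, Z)` (chain rule both ways), `H(X | Z) = H(X) = ent ν q` (independence, `ent_lab`) and `H(X | F, Z) ≤ H(X | F)`.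
`ce_sf`: `F (sf h (tq q y)) = F (tq q (h • y))`, `tq q y g = tq q (h • y) (g * h⁻¹)`; `h •` preserves `bern G ν` (`inv_bern`): `entc` of functions of `h • y` is `entc` of the functions of `y` (`ent_map`-type); the family `(tq q y (g * h⁻¹))`, `g ∈ J` and the family `(tq q y g')`, `g' ∈ J.image (· * h⁻¹)` determine each other (a bijection of the index types). -/

set_option autoImplicit false
set_option synthInstance.maxSize 4000

open MeasureTheory H31.BE

namespace H33.HN

/-! ### Private lemmas -/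

private theorem ceA_fm {G A : Type} [Group G] {q : ℝ → A} (hq : Fm q) (g : G) :
    Fm (fun y : Bsh G => tq q y g) := by
  have h : Measurable (fun y : Bsh G => (g • y) 1) := measurable_pi_apply (X := fun _ : G => ℝ) (g⁻¹ * 1)
  exact Fm.comp_measurable h hq

private theorem ceA_fmJ {G A : Type} [Group G] {q : ℝ → A} (hq : Fm q) (J : Finset G) :
    Fm (fun (y : Bsh G) (g : ↥J) => tq q y g) :=
  Fm.pi (f := fun (g : ↥J) (y : Bsh G) => tq q y g) (fun g => ceA_fm hq (g : G))

private theorem ceA_ext {G A B : Type} [DecidableEq G] (D : Finset G) (F : (G → A) → B) (hF : Lc D F)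
    (t : G → A) (J : Finset G) (hJ : D ⊆ J) (c : ↥J → A) (hc : ∀ g : ↥J, c g = t g) (a0 : A) :
    F t = F (fun w => if h : w ∈ J then c ⟨w, h⟩ else a0) := by
  apply hF
  intro w hw
  simp [hJ hw, hc]

private theorem ceA_ind {G A α : Type} [Group G] [Finite A] [Finite α] {ν : Measure ℝ} [IsProbabilityMeasure ν]
    {q : ℝ → A} (hq : Fm q) (U W : Finset G) (hUW : Disjoint U W) (Φ : (↥U → A) → α) :
    ent (bern G ν) (fun y => (Φ (fun g : ↥U => tq q y g), fun g : ↥W => tq q y g)) =
      ent (bern G ν) (fun y => Φ (fun g : ↥U => tq q y g)) +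
      ent (bern G ν) (fun y => fun g : ↥W => tq q y g) := by
  let _ : MeasurableSpace A := ⊤
  have hqm : Measurable q := by
    intro s _
    exact hq.preimage s
  have h1 : ProbabilityTheory.iIndepFun (fun (g : G) (y : Bsh G) => q (y g)) (bern G ν) :=
    ProbabilityTheory.iIndepFun_infinitePi (P := fun _ : G => ν) (X := fun _ : G => q) (fun _ => hqm)
  have hinj : Function.Injective (fun g : G => g⁻¹ * 1) := by
    intro a b hab
    simpa using hab
  have h2 : ProbabilityTheory.iIndepFun (fun (g : G) (y : Bsh G) => tq q y g) (bern G ν) :=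
    h1.precomp hinj
  have hm : ∀ g : G, Measurable (fun y : Bsh G => tq q y g) := fun g =>
    hqm.comp (measurable_pi_apply (X := fun _ : G => ℝ) (g⁻¹ * 1))
  have h3 := h2.indepFun_finset U W hUW hm
  refine ent_indep_two ((ceA_fmJ hq U).comp Φ) (ceA_fmJ hq W) ?_
  intro a b
  have h4 := h3.measure_inter_preimage_eq_mul (Φ ⁻¹' {a}) {b} (Set.toFinite _).measurableSet
    (Set.toFinite _).measurableSet
  rw [measureReal_def, measureReal_def, measureReal_def, ← ENNReal.toReal_mul]
  exact congrArg ENNReal.toReal h4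

variable {G A : Type} [Group G] [DecidableEq G] [Countable G] [Finite A] (ν : Measure ℝ) [IsProbabilityMeasure ν]
  (q : ℝ → A) (hq : Fm q)

include hq

omit [DecidableEq G] [Countable G] [Finite A] in
theorem fm_tq (g : G) : Fm (fun y : Bsh G => tq q y g) := ceA_fm hq g

theorem fm_lc {B : Type} (D : Finset G) (F : (G → A) → B) (hF : Lc D F) : Fm (fun y : Bsh G => F (tq q y)) := by
  have h2 := (ceA_fmJ hq D).comp (fun c : ↥D → A => F (fun w => if h : w ∈ D then c ⟨w, h⟩ else q 0))
  have h3 : (fun y : Bsh G => F (tq q y)) =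
      fun y : Bsh G => F (fun w => if h : w ∈ D then (fun w' : ↥D => tq q y w') ⟨w, h⟩ else q 0) := by
    funext y
    exact ceA_ext D F hF (tq q y) D (Finset.Subset.refl D) _ (fun _ => rfl) (q 0)
  rw [h3]
  exact h2

theorem ce_emp {B : Type} [Finite B] (D : Finset G) (F : (G → A) → B) (hF : Lc D F) :
    ce ν q F ∅ = ent (bern G ν) (fun y => F (tq q y)) := by
  have hf := fm_lc q hq D F hF
  have e : (fun (y : Bsh G) (g : ↥(∅ : Finset G)) => tq q y g) =
      fun _ => fun g : ↥(∅ : Finset G) => absurd g.2 (Finset.notMem_empty _) := by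
    funext y g
    exact absurd g.2 (Finset.notMem_empty _)
  have h1 : ent (bern G ν) (fun y => (F (tq q y), (fun g : ↥(∅ : Finset G) => tq q y g))) =
      ent (bern G ν) (fun y => F (tq q y)) := by
    have h2 : (fun y : Bsh G => (F (tq q y), (fun g : ↥(∅ : Finset G) => tq q y g))) =
        fun y => (fun b : B => (b, (fun g : ↥(∅ : Finset G) => (absurd g.2 (Finset.notMem_empty _) : A))))
          (F (tq q y)) := by
      funext y
      exact Prod.ext rfl (congrFun e y)
    rw [h2]
    exact ent_inj hf _ (fun a b h => (Prod.mk.inj h).1)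
  unfold ce entc
  rw [h1, e, ent_const, sub_zero]

theorem ce_full {B : Type} [Finite B] (D : Finset G) (F : (G → A) → B) (hF : Lc D F) (J : Finset G) (hJ : D ⊆ J) :
    ce ν q F J = 0 := by
  refine entc_of_fun (ceA_fmJ hq J) (fun c : ↥J → A => F (fun w => if h : w ∈ J then c ⟨w, h⟩ else q 0)) ?_
  refine Filter.Eventually.of_forall fun y => ?_
  exact ceA_ext D F hF (tq q y) J hJ _ (fun _ => rfl) (q 0)

theorem ce_loc {B : Type} [Finite B] (D : Finset G) (F : (G → A) → B) (hF : Lc D F) (J : Finset G) :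
    ce ν q F J = ce ν q F (J ∩ D) := by
  have hf := fm_lc q hq D F hF
  have hd1 : Disjoint D (J \ D) := Finset.disjoint_sdiff
  have hd2 : Disjoint (J ∩ D) (J \ D) := hd1.mono_left Finset.inter_subset_right
  -- the function `(F, t_(J ∩ D))` of the coordinates in `D`
  have i1 := ceA_ind (ν := ν) hq D (J \ D) hd1 (fun c : ↥D → A =>
    (F (fun w => if h : w ∈ D then c ⟨w, h⟩ else q 0),
      (fun g : ↥(J ∩ D) => c ⟨g, Finset.inter_subset_right g.2⟩)))
  have i2 := ceA_ind (ν := ν) hq (J ∩ D) (J \ D) hd2 (fun c => c)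
  have e1 : ∀ y : Bsh G, F (fun w => if h : w ∈ D then (fun g : ↥D => tq q y g) ⟨w, h⟩ else q 0) =
      F (tq q y) := fun y => (ceA_ext D F hF (tq q y) D (Finset.Subset.refl D) _ (fun _ => rfl) (q 0)).symm
  simp only [e1] at i1
  have g1 := ceA_fmJ hq J
  have g2 := ceA_fmJ hq (J ∩ D)
  have g3 := ceA_fmJ hq (J \ D)
  -- `t_J` and the pair `(t_(J ∩ D), t_(J \ D))` determine each other
  have j1 : ent (bern G ν) (fun y => ((F (tq q y), (fun g : ↥(J ∩ D) => tq q y g)),
      (fun g : ↥(J \ D) => tq q y g))) =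
      ent (bern G ν) (fun y => (F (tq q y), (fun g : ↥J => tq q y g))) := by
    refine ent_eq_of_determine ((hf.prodMk g2).prodMk g3) (hf.prodMk g1)
      (fun c => (c.1.1, fun g : ↥J => if h : (g : G) ∈ D then c.1.2 ⟨g, Finset.mem_inter.2 ⟨g.2, h⟩⟩ else
        c.2 ⟨g, Finset.mem_sdiff.2 ⟨g.2, h⟩⟩))
      (fun c => ((c.1, fun g : ↥(J ∩ D) => c.2 ⟨g, Finset.inter_subset_left g.2⟩),
        fun g : ↥(J \ D) => c.2 ⟨g, Finset.sdiff_subset g.2⟩)) ?_ ?_
    · refine Filter.Eventually.of_forall fun y => ?_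
      refine Prod.ext rfl ?_
      funext g
      by_cases h : (g : G) ∈ D
      · simp [h]
      · simp [h]
    · exact Filter.Eventually.of_forall fun y => rfl
  have j2 : ent (bern G ν) (fun y => ((fun g : ↥(J ∩ D) => tq q y g), (fun g : ↥(J \ D) => tq q y g))) =
      ent (bern G ν) (fun y => (fun g : ↥J => tq q y g)) := by
    refine ent_eq_of_determine (g2.prodMk g3) g1
      (fun c => fun g : ↥J => if h : (g : G) ∈ D then c.1 ⟨g, Finset.mem_inter.2 ⟨g.2, h⟩⟩ else
        c.2 ⟨g, Finset.mem_sdiff.2 ⟨g.2, h⟩⟩)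
      (fun c => (fun g : ↥(J ∩ D) => c ⟨g, Finset.inter_subset_left g.2⟩,
        fun g : ↥(J \ D) => c ⟨g, Finset.sdiff_subset g.2⟩)) ?_ ?_
    · refine Filter.Eventually.of_forall fun y => ?_
      funext g
      by_cases h : (g : G) ∈ D
      · simp [h]
      · simp [h]
    · exact Filter.Eventually.of_forall fun y => rfl
  unfold ce entc
  rw [← j1, ← j2, i1, i2]
  ring

theorem ce_dec {B : Type} [Finite B] (D : Finset G) (F : (G → A) → B) (hF : Lc D F) (J : Finset G) (g : G) :
    0 ≤ ce ν q F J - ce ν q F (insert g J) := by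
  have h := entc_anti (P := bern G ν) (fm_lc q hq D F hF) (ceA_fmJ hq (insert g J))
    (fun c : ↥(insert g J) → A => fun i : ↥J => c ⟨i, Finset.mem_insert_of_mem i.2⟩)
  unfold ce
  exact sub_nonneg.2 h

theorem ce_data {B B' : Type} [Finite B] [Finite B'] (D : Finset G) (F : (G → A) → B) (hF : Lc D F) (h : B → B')
    (J : Finset G) (g : G) :
    ce ν q (fun t => h (F t)) J - ce ν q (fun t => h (F t)) (insert g J) ≤
      ce ν q F J - ce ν q F (insert g J) := by
  have hf := fm_lc q hq D F hF
  have hf' : Fm (fun y : Bsh G => h (F (tq q y))) := hf.comp h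
  have key : ∀ K : Finset G, ce ν q F K = ce ν q (fun t => h (F t)) K +
      entc (bern G ν) (fun y => F (tq q y)) (fun y => (h (F (tq q y)), (fun g : ↥K => tq q y g))) := by
    intro K
    have h1 := entc_chain (P := bern G ν) hf hf' (ceA_fmJ hq K)
    have h2 : entc (bern G ν) (fun y => (F (tq q y), h (F (tq q y)))) (fun y => fun g : ↥K => tq q y g) =
        ce ν q F K := by
      unfold ce entc
      congr 1
      exact ent_inj (P := bern G ν) (hf.prodMk (ceA_fmJ hq K))
        (fun p : B × (↥K → A) => ((p.1, h p.1), p.2)) (by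
          rintro ⟨a, b⟩ ⟨a', b'⟩ hab
          simp only [Prod.mk.injEq] at hab
          exact Prod.ext hab.1.1 hab.2)
    rw [← h2, h1]
    rfl
  have h3 := entc_anti (P := bern G ν) hf (hf'.prodMk (ceA_fmJ hq (insert g J)))
    (fun c : B' × (↥(insert g J) → A) => (c.1, fun i : ↥J => c.2 ⟨i, Finset.mem_insert_of_mem i.2⟩))
  rw [key J, key (insert g J)]
  linarith

theorem ce_one {B : Type} [Finite B] (D : Finset G) (F : (G → A) → B) (hF : Lc D F) (J : Finset G) (h1 : (1 : G) ∉ J) :
    ent ν q - entc (bern G ν) (fun y => q (y 1)) (fun y => F (tq q y)) ≤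
      ce ν q F J - ce ν q F (insert 1 J) := by
  have hf := fm_lc q hq D F hF
  have hX : Fm (fun y : Bsh G => q (y 1)) := hq.lab
  have hZ := ceA_fmJ hq J
  have htq : ∀ y : Bsh G, tq q y 1 = q (y 1) := by
    intro y
    unfold tq
    rw [one_smul]
  -- the two chain rules
  have c1 := entc_chain (P := bern G ν) hf hX hZ
  have c2 := entc_chain (P := bern G ν) hX hf hZ
  have h3 : entc (bern G ν) (fun y => (F (tq q y), q (y 1))) (fun y => fun g : ↥J => tq q y g) =
      entc (bern G ν) (fun y => (q (y 1), F (tq q y))) (fun y => fun g : ↥J => tq q y g) := by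
    unfold entc
    congr 1
    exact ent_inj (P := bern G ν) ((hX.prodMk hf).prodMk hZ)
      (fun p : (A × B) × (↥J → A) => ((p.1.2, p.1.1), p.2)) (by
        rintro ⟨⟨a, b⟩, c⟩ ⟨⟨a', b'⟩, c'⟩ hab
        simp only [Prod.mk.injEq] at hab
        exact Prod.ext (Prod.ext hab.1.2 hab.1.1) hab.2)
  -- independence
  have h4 : entc (bern G ν) (fun y : Bsh G => q (y 1)) (fun y => fun g : ↥J => tq q y g) = ent ν q := by
    have i1 := ceA_ind (ν := ν) hq {(1 : G)} J (by simpa using h1) (fun c => c ⟨1, Finset.mem_singleton_self 1⟩)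
    simp only [htq] at i1
    have i2 : ent (bern G ν) (fun y : Bsh G => q (y 1)) = ent ν q := ent_lab ν hq
    unfold entc
    rw [i1, i2]
    ring
  have h5 := entc_anti (P := bern G ν) hX (hf.prodMk hZ) (fun c : B × (↥J → A) => c.1)
  -- the coordinates in `insert 1 J`
  have h6 : ce ν q F (insert 1 J) =
      entc (bern G ν) (fun y => F (tq q y)) (fun y => (q (y 1), (fun g : ↥J => tq q y g))) := by
    unfold ce
    apply le_antisymm
    · have := entc_anti (P := bern G ν) hf (ceA_fmJ hq (insert 1 J))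
        (fun c : ↥(insert 1 J) → A => (c ⟨1, Finset.mem_insert_self 1 J⟩,
          fun i : ↥J => c ⟨i, Finset.mem_insert_of_mem i.2⟩))
      simp only [htq] at this
      exact this
    · have := entc_anti (P := bern G ν) hf (hX.prodMk hZ)
        (fun c : A × (↥J → A) => fun g : ↥(insert (1 : G) J) =>
          if h : (g : G) ∈ J then c.2 ⟨g, h⟩ else c.1)
      refine this.trans (le_of_eq ?_)
      congr 1
      funext y g
      by_cases h : (g : G) ∈ J
      · simp [h]
      · have hg : (g : G) = 1 := (Finset.mem_insert.1 g.2).resolve_right h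
        simp only [h, dif_neg, not_false_eq_true]
        rw [hg, htq]
  rw [h6]
  unfold ce
  linarith

theorem ce_sf {B : Type} [Finite B] (D : Finset G) (F : (G → A) → B) (hF : Lc D F) (h : G) (J : Finset G) :
    ce ν q (fun t => F (sf h t)) J = ce ν q F (J.image (· * h⁻¹)) := by
  have hf := fm_lc q hq D F hF
  have hinv := inv_bern (G := G) ν h
  have e1 : ∀ y : Bsh G, sf h (tq q y) = tq q (h • y) := by
    intro y
    funext g
    unfold sf tq
    rw [mul_smul]
  have e2 : ∀ (y : Bsh G) (g : G), tq q y g = tq q (h • y) (g * h⁻¹) := by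
    intro y g
    unfold tq
    rw [smul_smul, inv_mul_cancel_right]
  have hZ : Fm (fun (y : Bsh G) (g : ↥J) => tq q y ((g : G) * h⁻¹)) :=
    Fm.pi (f := fun (g : ↥J) (y : Bsh G) => tq q y ((g : G) * h⁻¹)) (fun g => ceA_fm hq ((g : G) * h⁻¹))
  have h1 : ce ν q (fun t => F (sf h t)) J =
      entc (bern G ν) (fun y => F (tq q y)) (fun y => fun g : ↥J => tq q y ((g : G) * h⁻¹)) := by
    have a1 := ent_map hinv (hf.prodMk hZ)
    have a2 := ent_map hinv hZ
    unfold ce entc
    rw [← a1, ← a2]
    congr 1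
    · congr 1
      funext y
      refine Prod.ext (congrArg F (e1 y)) ?_
      funext g
      exact e2 y g
    · congr 1
      funext y g
      exact e2 y g
  rw [h1]
  unfold ce
  apply le_antisymm
  · have h2 := entc_anti (P := bern G ν) hf hZ
      (fun c : ↥J → A => fun g : ↥(J.image (· * h⁻¹)) => c ⟨(g : G) * h, by
        obtain ⟨x, hx, hxg⟩ := Finset.mem_image.1 g.2
        rw [← hxg]
        simpa using hx⟩)
    refine h2.trans (le_of_eq ?_)
    congr 1
    funext y g
    simp
  · exact entc_anti (P := bern G ν) hf (ceA_fmJ hq (J.image (· * h⁻¹)))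
      (fun c : ↥(J.image (· * h⁻¹)) → A => fun g : ↥J => c ⟨(g : G) * h⁻¹,
        Finset.mem_image_of_mem _ g.2⟩)

end H33.HN
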