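import Pool.Agent.H33.HN.DefsP
import Pool.Agent.H33.BO.ChC

/-! # HN.ChD : the chain of entropies (paper 4.6)

PROOF. All functions are `Fm`. Chain rule: `ent (om, m) ≤ ent (σ, θ, l, d, x, om, m)` `= ent σ + entc θ σ + entc l (θ, σ) + entc d (..) + entc x (..) + entc om (..) + entc m (..)` (`entc_chain`, `ent_comp_le`), and conditioning on more does not increase the entropy (`entc_anti`, `entc_le_ent`). See H33/BO/ChC. -/

set_option autoImplicit false
set_option synthInstance.maxSize 4000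

open MeasureTheory H31.BE

namespace H33.HN

private theorem ChD_fm {Ω α : Type} [MeasurableSpace Ω] [DiscreteMeasurableSpace Ω] (f : Ω → α) : Fm f :=
  fun _ => MeasurableSet.of_discrete

theorem chD {Ω A Θ L Dd X O M : Type} [Finite Ω] [MeasurableSpace Ω] [DiscreteMeasurableSpace Ω] [Finite A]
    [Finite Θ] [Finite L] [Finite Dd] [Finite X] [Finite O] [Finite M] (Q : Measure Ω) [IsProbabilityMeasure Q]
    (σ : Ω → A) (θ : Ω → Θ) (l : Ω → L) (d : Ω → Dd) (x : Ω → X) (om : Ω → O) (m : Ω → M) :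
    ent Q (fun ω => (om ω, m ω)) ≤ ent Q σ + entc Q θ σ + entc Q l σ + ent Q d +
      entc Q x (fun ω => (σ ω, l ω)) + entc Q om (fun ω => ((l ω, θ ω), (d ω, x ω))) +
      entc Q m (fun ω => (om ω, x ω)) := by
  have f0 : ent Q (fun ω => (θ ω, σ ω)) = ent Q σ + entc Q θ σ := by
    unfold entc
    ring
  have f1 : ent Q (fun ω => (l ω, θ ω, σ ω)) =
      ent Q (fun ω => (θ ω, σ ω)) + entc Q l (fun ω => (θ ω, σ ω)) := by
    unfold entc
    ring
  have f2 : ent Q (fun ω => (d ω, l ω, θ ω, σ ω)) =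
      ent Q (fun ω => (l ω, θ ω, σ ω)) + entc Q d (fun ω => (l ω, θ ω, σ ω)) := by
    unfold entc
    ring
  have f3 : ent Q (fun ω => (x ω, d ω, l ω, θ ω, σ ω)) =
      ent Q (fun ω => (d ω, l ω, θ ω, σ ω)) + entc Q x (fun ω => (d ω, l ω, θ ω, σ ω)) := by
    unfold entc
    ring
  have f4 : ent Q (fun ω => (om ω, x ω, d ω, l ω, θ ω, σ ω)) =
      ent Q (fun ω => (x ω, d ω, l ω, θ ω, σ ω)) +
        entc Q om (fun ω => (x ω, d ω, l ω, θ ω, σ ω)) := by
    unfold entc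
    ring
  have f5 : ent Q (fun ω => (m ω, om ω, x ω, d ω, l ω, θ ω, σ ω)) =
      ent Q (fun ω => (om ω, x ω, d ω, l ω, θ ω, σ ω)) +
        entc Q m (fun ω => (om ω, x ω, d ω, l ω, θ ω, σ ω)) := by
    unfold entc
    ring
  have g1 : entc Q l (fun ω => (θ ω, σ ω)) ≤ entc Q l σ :=
    entc_anti (P := Q) (g := fun ω => (θ ω, σ ω)) (ChD_fm _) (ChD_fm _) (fun p : Θ × A => p.2)
  have g2 : entc Q d (fun ω => (l ω, θ ω, σ ω)) ≤ ent Q d := entc_le_ent (ChD_fm _) (ChD_fm _)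
  have g3 : entc Q x (fun ω => (d ω, l ω, θ ω, σ ω)) ≤ entc Q x (fun ω => (σ ω, l ω)) :=
    entc_anti (P := Q) (g := fun ω => (d ω, l ω, θ ω, σ ω)) (ChD_fm _) (ChD_fm _)
      (fun p : Dd × L × Θ × A => (p.2.2.2, p.2.1))
  have g4 : entc Q om (fun ω => (x ω, d ω, l ω, θ ω, σ ω)) ≤
      entc Q om (fun ω => ((l ω, θ ω), (d ω, x ω))) :=
    entc_anti (P := Q) (g := fun ω => (x ω, d ω, l ω, θ ω, σ ω)) (ChD_fm _) (ChD_fm _)
      (fun p : X × Dd × L × Θ × A => ((p.2.2.1, p.2.2.2.1), (p.2.1, p.1)))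
  have g5 : entc Q m (fun ω => (om ω, x ω, d ω, l ω, θ ω, σ ω)) ≤
      entc Q m (fun ω => (om ω, x ω)) :=
    entc_anti (P := Q) (g := fun ω => (om ω, x ω, d ω, l ω, θ ω, σ ω)) (ChD_fm _) (ChD_fm _)
      (fun p : O × X × Dd × L × Θ × A => (p.1, p.2.1))
  have g6 : ent Q (fun ω => (om ω, m ω)) ≤
      ent Q (fun ω => (m ω, om ω, x ω, d ω, l ω, θ ω, σ ω)) :=
    ent_comp_le (P := Q) (f := fun ω => (m ω, om ω, x ω, d ω, l ω, θ ω, σ ω)) (ChD_fm _)
      (fun p : M × O × X × Dd × L × Θ × A => (p.2.1, p.1))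
  linarith

end H33.HN
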