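import Pool.Agent.H33.HN.DefsP

/-! # HN.Cmp0 : steps and paths around a cell

PROOF. `stp_fun`, `stp_inj`: cases on `sg c`, `iE`, `jE`. `pth_fun`, `pth_inj`: induction on `n` generalizing `c`, `v`. `pth_mono`: induction. `stp_pat`: `sg c = true`: `(v, u) ∈ E (lp c)`, `mE` gives `tgt (lp c) (om u) = src (lp c) (om v)`; the component `⟨c, rfl⟩` is `(om u).1 (tc c) = (om v).1 (sc c)` with `tc c = nx c`, `sc c = c`. `sg c = false`: `(u, v) ∈ E (lp c)`, `tgt (lp c) (om v) = src (lp c) (om u)`: `(om v).1 (tc c) = (om u).1 (sc c)`, `tc c = c`, `sc c = nx c`.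
`pth_pat`: induction on `n`; `nx^[n + 1] c = nx^[n] (nx c)` (`Function.iterate_succ_apply`). `pth_add`: induction on `n`. `pth_or`: induction on `n` generalizing `c`, `v`: if there is no `w` with `Stp E c v w` take `k = 0`; otherwise the induction hypothesis for `nx c`, `w` and `k + 1`. `pth_or'`: induction on `n`: by the hypothesis for `n`, `nx c`: either `Pth E n (nx c) w v`: then if there is `u` with `Stp E c u w` done, otherwise `k = n`; or the same `k`, `w` for `nx c`: `nx^[n - k] (nx c) = nx^[n + 1 - k] c`.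
`rel_fun`, `rel_inj`: cases on `sg p`. -/

set_option autoImplicit false
set_option synthInstance.maxSize 4000

open MeasureTheory H31.BE

namespace H33.HN

variable {S I : Type} [Fintype S] [Fintype I] [DecidableEq S] [DecidableEq I] {r : Rl S I} {V P Λ : Type}

omit [Fintype S] [Fintype I] [DecidableEq S] [DecidableEq I] in
theorem stp_fun (E : S → Set (V × V)) (iE : ∀ s v w w', (v, w) ∈ E s → (v, w') ∈ E s → w = w')
    (jE : ∀ s v v' w, (v, w) ∈ E s → (v', w) ∈ E s → v = v') (c : Ps r) (v u u' : V) (h : Stp E c v u)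
    (h' : Stp E c v u') : u = u' := by
  unfold Stp at h h'
  split_ifs at h h' with hs
  · exact iE _ _ _ _ h h'
  · exact jE _ _ _ _ h h'

omit [Fintype S] [Fintype I] [DecidableEq S] [DecidableEq I] in
theorem stp_inj (E : S → Set (V × V)) (iE : ∀ s v w w', (v, w) ∈ E s → (v, w') ∈ E s → w = w')
    (jE : ∀ s v v' w, (v, w) ∈ E s → (v', w) ∈ E s → v = v') (c : Ps r) (v v' u : V) (h : Stp E c v u)
    (h' : Stp E c v' u) : v = v' := by
  unfold Stp at h h'
  split_ifs at h h' with hs
  · exact jE _ _ _ _ h h'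
  · exact iE _ _ _ _ h h'

omit [Fintype S] [Fintype I] [DecidableEq S] [DecidableEq I] in
theorem pth_fun (E : S → Set (V × V)) (iE : ∀ s v w w', (v, w) ∈ E s → (v, w') ∈ E s → w = w')
    (jE : ∀ s v v' w, (v, w) ∈ E s → (v', w) ∈ E s → v = v') (n : ℕ) (c : Ps r) (v u u' : V) (h : Pth E n c v u)
    (h' : Pth E n c v u') : u = u' := by
  induction n generalizing c v with
  | zero =>
    have h1 : v = u := h
    have h2 : v = u' := h'
    exact h1.symm.trans h2
  | succ n ih =>
    obtain ⟨w, h1, h2⟩ := h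
    obtain ⟨w', h1', h2'⟩ := h'
    have hw : w = w' := stp_fun E iE jE c v w w' h1 h1'
    subst hw
    exact ih (nx c) w h2 h2'

omit [Fintype S] [Fintype I] [DecidableEq S] [DecidableEq I] in
theorem pth_inj (E : S → Set (V × V)) (iE : ∀ s v w w', (v, w) ∈ E s → (v, w') ∈ E s → w = w')
    (jE : ∀ s v v' w, (v, w) ∈ E s → (v', w) ∈ E s → v = v') (n : ℕ) (c : Ps r) (v v' u : V) (h : Pth E n c v u)
    (h' : Pth E n c v' u) : v = v' := by
  induction n generalizing c v v' with
  | zero =>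
    have h1 : v = u := h
    have h2 : v' = u := h'
    exact h1.trans h2.symm
  | succ n ih =>
    obtain ⟨w, h1, h2⟩ := h
    obtain ⟨w', h1', h2'⟩ := h'
    have hw : w = w' := ih (nx c) w w' h2 h2'
    subst hw
    exact stp_inj E iE jE c v v' w h1 h1'

omit [Fintype S] [Fintype I] [DecidableEq S] [DecidableEq I] in
theorem pth_mono (E E' : S → Set (V × V)) (hE : ∀ s, E s ⊆ E' s) (n : ℕ) (c : Ps r) (v u : V) (h : Pth E n c v u) :
    Pth E' n c v u := by
  induction n generalizing c v with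
  | zero => exact h
  | succ n ih =>
    obtain ⟨w, h1, h2⟩ := h
    refine ⟨w, ?_, ih (nx c) w h2⟩
    unfold Stp at h1 ⊢
    split_ifs at h1 ⊢ with hs
    · exact hE _ h1
    · exact hE _ h1

omit [Fintype S] [Fintype I] [DecidableEq S] [DecidableEq I] in
theorem stp_pat (om : V → Bag r P Λ) (E : S → Set (V × V))
    (mE : ∀ s v w, (v, w) ∈ E s → tgt s (om w) = src s (om v)) (c : Ps r) (v u : V) (h : Stp E c v u) :
    (om u).1 (nx c) = (om v).1 c := by
  unfold Stp at h
  split_ifs at h with hs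
  · have h1 := congrFun (congrArg Prod.fst (mE (lp c) v u h)) ⟨c, rfl⟩
    have h2 : (om u).1 (tc c) = (om v).1 (sc c) := h1
    have h3 : tc c = nx c := by
      unfold tc
      rw [if_pos hs]
    have h4 : sc c = c := by
      unfold sc
      rw [if_pos hs]
    rw [h3, h4] at h2
    exact h2
  · have h1 := congrFun (congrArg Prod.fst (mE (lp c) u v h)) ⟨c, rfl⟩
    have h2 : (om v).1 (tc c) = (om u).1 (sc c) := h1
    have h3 : tc c = c := by
      unfold tc
      rw [if_neg hs]
    have h4 : sc c = nx c := by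
      unfold sc
      rw [if_neg hs]
    rw [h3, h4] at h2
    exact h2.symm

omit [Fintype S] [Fintype I] [DecidableEq S] [DecidableEq I] in
theorem pth_pat (om : V → Bag r P Λ) (E : S → Set (V × V))
    (mE : ∀ s v w, (v, w) ∈ E s → tgt s (om w) = src s (om v)) (n : ℕ) (c : Ps r) (v u : V) (h : Pth E n c v u) :
    (om u).1 (nx^[n] c) = (om v).1 c := by
  induction n generalizing c v with
  | zero =>
    have h1 : v = u := h
    rw [h1]
    rfl
  | succ n ih =>
    obtain ⟨w, h1, h2⟩ := h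
    rw [Function.iterate_succ_apply]
    exact (ih (nx c) w h2).trans (stp_pat om E mE c v w h1)

omit [Fintype S] [Fintype I] [DecidableEq S] [DecidableEq I] in
theorem pth_add (E : S → Set (V × V)) (n m : ℕ) (c : Ps r) (v w u : V) (h : Pth E n c v w)
    (h' : Pth E m (nx^[n] c) w u) : Pth E (n + m) c v u := by
  induction n generalizing c v with
  | zero =>
    have h1 : v = w := h
    rw [h1, Nat.zero_add]
    exact h'
  | succ n ih =>
    obtain ⟨x, h1, h2⟩ := h
    rw [Function.iterate_succ_apply] at h'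
    rw [show n + 1 + m = n + m + 1 by omega]
    exact ⟨x, h1, ih (nx c) x h2 h'⟩

omit [Fintype S] [Fintype I] [DecidableEq S] [DecidableEq I] in
theorem pth_or (E : S → Set (V × V)) (n : ℕ) (c : Ps r) (v : V) :
    (∃ u, Pth E n c v u) ∨ ∃ k, k < n ∧ ∃ w, Pth E k c v w ∧ ¬ ∃ u, Stp E (nx^[k] c) w u := by
  induction n generalizing c v with
  | zero => exact Or.inl ⟨v, rfl⟩
  | succ n ih =>
    by_cases hw : ∃ w, Stp E c v w
    · obtain ⟨w, hw⟩ := hw
      rcases ih (nx c) w with ⟨u, hu⟩ | ⟨k, hk, w', h1, h2⟩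
      · exact Or.inl ⟨u, w, hw, hu⟩
      · refine Or.inr ⟨k + 1, by omega, w', ⟨w, hw, h1⟩, ?_⟩
        rw [Function.iterate_succ_apply]
        exact h2
    · exact Or.inr ⟨0, Nat.succ_pos _, v, rfl, hw⟩

omit [Fintype S] [Fintype I] [DecidableEq S] [DecidableEq I] in
theorem pth_or' (E : S → Set (V × V)) (n : ℕ) (c : Ps r) (v : V) :
    (∃ u, Pth E n c u v) ∨ ∃ k, k < n ∧ ∃ w, Pth E k (nx^[n - k] c) w v ∧ ¬ ∃ u, Stp E (nx^[n - k - 1] c) u w := by
  induction n generalizing c with
  | zero => exact Or.inl ⟨v, rfl⟩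
  | succ n ih =>
    rcases ih (nx c) with ⟨w, hw⟩ | ⟨k, hk, w, h1, h2⟩
    · by_cases hu : ∃ u, Stp E c u w
      · obtain ⟨u, hu⟩ := hu
        exact Or.inl ⟨u, w, hu, hw⟩
      · refine Or.inr ⟨n, Nat.lt_succ_self n, w, ?_, ?_⟩
        · rw [show n + 1 - n = 1 by omega]
          exact hw
        · rw [show n + 1 - n - 1 = 0 by omega]
          exact hu
    · refine Or.inr ⟨k, by omega, w, ?_, ?_⟩
      · rw [show n + 1 - k = (n - k) + 1 by omega, Function.iterate_succ_apply]
        exact h1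
      · rw [show n + 1 - k - 1 = (n - k - 1) + 1 by omega, Function.iterate_succ_apply]
        exact h2

omit [Fintype S] [Fintype I] [DecidableEq S] [DecidableEq I] in
theorem nx_iter (c : Ps r) (k : ℕ) :
    (nx^[k] c) = ⟨c.1, ⟨(c.2.1 + k) % (r c.1).length, Nat.mod_lt _ (lt_of_le_of_lt (Nat.zero_le _) c.2.2)⟩⟩ := by
  induction k with
  | zero =>
    refine Sigma.ext rfl (heq_of_eq (Fin.ext ?_))
    exact (Nat.mod_eq_of_lt c.2.2).symm
  | succ k ih =>
    rw [Function.iterate_succ_apply', ih]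
    refine Sigma.ext rfl (heq_of_eq (Fin.ext ?_))
    show ((c.2.1 + k) % (r c.1).length + 1) % (r c.1).length = (c.2.1 + (k + 1)) % (r c.1).length
    rw [Nat.mod_add_mod, Nat.add_assoc]

end H33.HN
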