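import Pool.Agent.H33.HN.DefsP
import Pool.Agent.H33.HN.Cmp0

/-! # HN.Cmp1 : existence of a maximal family of partial injections (paper 4.2)

PROOF. Among the families `E : S → Set (V × V)` (a finite type) with all the properties of `CP` except `cE` take one with the largest `∑ s, (E s).ncard`. Start: `E s = {p | p.1 ∉ um s, ¬ TT (src s (om p.1)), p.2 = M s p.1}`; `mE`: `p.1 ∉ um`; `iE`, `jE`: `M s` is a permutation; `rE` is void: `dir ((om v).1 (sc p)) = some p` gives `TT dir (lp p) (src (lp p) (om v))` with the witness `⟨p, rfl⟩`.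
`cE`: let `P := (om v).1 (sc p)`, `dir P = some p`, `(om w).1 (tc p) = P`, `Rel E p v w`, `(v, w) ∉ E (lp p)`, `s0 := lp p`, `E' := E` with `(v, w)` inserted at `s0` (`Function.update`). All the properties hold for `E'`, a contradiction. `mE` for the new edge: `tgt s0 (om w) = src s0 (om v)`: component `q = p`: given; `q ≠ p`, `lp q = lp p`: `Al p q`, `s1` at `v`: `(om v).1 (sc q) = par P q`, `s2` at `w` (`dir ((om w).1 (tc p)) = some p`): `(om w).1 (tc q) = par P q`.
Labels: `some (om v).2.1 = lab P (sc p)` (`s3` at `v`, `c = sc p`), `some ((om w).2.2 (lp p)) = lab ((om w).1 (tc p)) (sc p) = lab P (sc p)` (`s4` at `w`). `iE`: if `(v, w'') ∈ E s0` then `rE` gives `Rel E p v w''`, so `w'' = w` (`pth_fun` or `pth_inj`, cases on `sg p`). `jE`: if `(v'', w) ∈ E s0` then by `mE` `(om v'').1 (sc p) = (om w).1 (tc p) = P`, so `rE` gives `Rel E p v'' w`, `v'' = v`.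
`rE` for old edges: `pth_mono`. For the new edge and a position `p'` with `lp p' = s0`, `dir ((om v).1 (sc p')) = some p'`: if `p' ≠ p` then `Al p p'`, `Al p' p`: `s1` twice: with `P' := (om v).1 (sc p')`: `P' = par P p'`, `P = par P' p`, and `h1` gives `ht P' < ht P`, `ht P < ht P'` (`Finset.le_sup`), a contradiction; so `p' = p`. -/

set_option autoImplicit false
set_option synthInstance.maxSize 4000

open MeasureTheory H31.BE

namespace H33.HN

variable {S I : Type} [Fintype S] [Fintype I] [DecidableEq S] [DecidableEq I] {r : Rl S I} {V P Λ : Type}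

/-- the conditions of `CP` without the maximality -/
private structure Cmp1W (sy : Psy r P Λ) (om : V → Bag r P Λ) (M : S → Equiv.Perm V) (E : S → Set (V × V)) : Prop where
  iE : ∀ s v w w', (v, w) ∈ E s → (v, w') ∈ E s → w = w'
  jE : ∀ s v v' w, (v, w) ∈ E s → (v', w) ∈ E s → v = v'
  sE : ∀ s v, v ∉ um sy.dir om M s → ¬ TT sy.dir s (src s (om v)) → (v, M s v) ∈ E s
  mE : ∀ s v w, (v, w) ∈ E s → tgt s (om w) = src s (om v)
  rE : ∀ p v w, (v, w) ∈ E (lp p) → sy.dir ((om v).1 (sc p)) = some p → Rel E p v w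

omit [Fintype S] [Fintype I] [DecidableEq S] [DecidableEq I] in
private theorem cmp1_rel_fun (E : S → Set (V × V)) (iE : ∀ s v w w', (v, w) ∈ E s → (v, w') ∈ E s → w = w')
    (jE : ∀ s v v' w, (v, w) ∈ E s → (v', w) ∈ E s → v = v') (p : Ps r) (v w w' : V) (h : Rel E p v w)
    (h' : Rel E p v w') : w = w' := by
  unfold Rel at h h'
  by_cases hs : sg p = true
  · rw [if_pos hs] at h h'
    exact pth_inj E iE jE _ _ _ _ _ h h'
  · rw [if_neg hs] at h h'
    exact pth_fun E iE jE _ _ _ _ _ h h'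

omit [Fintype S] [Fintype I] [DecidableEq S] [DecidableEq I] in
private theorem cmp1_rel_inj (E : S → Set (V × V)) (iE : ∀ s v w w', (v, w) ∈ E s → (v, w') ∈ E s → w = w')
    (jE : ∀ s v v' w, (v, w) ∈ E s → (v', w) ∈ E s → v = v') (p : Ps r) (v v' w : V) (h : Rel E p v w)
    (h' : Rel E p v' w) : v = v' := by
  unfold Rel at h h'
  by_cases hs : sg p = true
  · rw [if_pos hs] at h h'
    exact pth_fun E iE jE _ _ _ _ _ h h'
  · rw [if_neg hs] at h h'
    exact pth_inj E iE jE _ _ _ _ _ h h'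

omit [Fintype S] [Fintype I] [DecidableEq S] [DecidableEq I] in
private theorem cmp1_rel_mono (E E' : S → Set (V × V)) (hE : ∀ s, E s ⊆ E' s) (p : Ps r) (v w : V) (h : Rel E p v w) :
    Rel E' p v w := by
  unfold Rel at h ⊢
  by_cases hs : sg p = true
  · rw [if_pos hs] at h ⊢
    exact pth_mono E E' hE _ _ _ _ h
  · rw [if_neg hs] at h ⊢
    exact pth_mono E E' hE _ _ _ _ h

private theorem cmp1_mt (sy : Psy r P Λ) (om : V → Bag r P Λ) (hsup : ∀ v, Sup sy (om v)) (p : Ps r) (v w : V)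
    (hd : sy.dir ((om v).1 (sc p)) = some p) (hw : (om w).1 (tc p) = (om v).1 (sc p)) :
    tgt (lp p) (om w) = src (lp p) (om v) := by
  have hd2 : sy.dir ((om w).1 (tc p)) = some p := by rw [hw, hd]
  unfold tgt src
  refine Prod.ext ?_ ?_
  · funext q
    obtain ⟨q, hq⟩ := q
    show (om w).1 (tc q) = (om v).1 (sc q)
    by_cases hqp : q = p
    · rw [hqp, hw]
    · have hA : Al p q := ⟨hq, hqp⟩
      rw [(hsup v).s1 p hd q hA, (hsup w).s2 p hd2 q hA, hw]
  · show (om w).2.2 (lp p) = (om v).2.1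
    have e1 := (hsup v).s3 (sc p)
    have e2 := (hsup w).s4 p
    rw [hw, e1] at e2
    exact (Option.some.inj e2).symm

private theorem cmp1_one (sy : Psy r P Λ) (Φ : Bag r P Λ) (hsup : Sup sy Φ) (p p' : Ps r)
    (hd : sy.dir (Φ.1 (sc p)) = some p) (hd' : sy.dir (Φ.1 (sc p')) = some p') (hl : lp p' = lp p) : p' = p := by
  by_contra hne
  have hA : Al p p' := ⟨hl, hne⟩
  have hA' : Al p' p := ⟨hl.symm, fun h => hne h.symm⟩
  have e1 := hsup.s1 p hd p' hA
  have e2 := hsup.s1 p' hd' p hA'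
  have f1 := sy.h1 _ _ hd
  have f2 := sy.h1 _ _ hd'
  have g1 : sy.ht (sy.par (Φ.1 (sc p)) p') ≤
      (Finset.univ.filter fun q => Al p q).sup fun q => sy.ht (sy.par (Φ.1 (sc p)) q) :=
    Finset.le_sup (f := fun q => sy.ht (sy.par (Φ.1 (sc p)) q)) (Finset.mem_filter.2 ⟨Finset.mem_univ _, hA⟩)
  have g2 : sy.ht (sy.par (Φ.1 (sc p')) p) ≤
      (Finset.univ.filter fun q => Al p' q).sup fun q => sy.ht (sy.par (Φ.1 (sc p')) q) :=
    Finset.le_sup (f := fun q => sy.ht (sy.par (Φ.1 (sc p')) q)) (Finset.mem_filter.2 ⟨Finset.mem_univ _, hA'⟩)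
  rw [← e1] at g1
  rw [← e2] at g2
  omega

private theorem cmp1_ins {sy : Psy r P Λ} {om : V → Bag r P Λ} (hsup : ∀ v, Sup sy (om v))
    {M : S → Equiv.Perm V} {E : S → Set (V × V)} (h : Cmp1W sy om M E) (p : Ps r) (v w : V)
    (hd : sy.dir ((om v).1 (sc p)) = some p) (hw : (om w).1 (tc p) = (om v).1 (sc p)) (hR : Rel E p v w) :
    Cmp1W sy om M (fun s => {q | q ∈ E s ∨ (s = lp p ∧ q = (v, w))}) := by
  have hsub : ∀ s, E s ⊆ (fun s => {q | q ∈ E s ∨ (s = lp p ∧ q = (v, w))} : S → Set (V × V)) s :=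
    fun s q hq => Or.inl hq
  have key1 : ∀ w'', (v, w'') ∈ E (lp p) → w'' = w := fun w'' hw2 =>
    cmp1_rel_fun E h.iE h.jE p v w'' w (h.rE p v w'' hw2 hd) hR
  have key2 : ∀ v'', (v'', w) ∈ E (lp p) → v'' = v := by
    intro v'' hv
    have e1 := h.mE _ _ _ hv
    have e2 : (om w).1 (tc p) = (om v'').1 (sc p) := congrFun (congrArg Prod.fst e1) ⟨p, rfl⟩
    refine cmp1_rel_inj E h.iE h.jE p v'' v w (h.rE p v'' w hv ?_) hR
    rw [← e2, hw, hd]
  refine ⟨?_, ?_, ?_, ?_, ?_⟩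
  · intro s a b b' hb hb'
    rcases hb with hb | ⟨hs, hb⟩ <;> rcases hb' with hb' | ⟨hs', hb'⟩
    · exact h.iE _ _ _ _ hb hb'
    · simp only [Prod.mk.injEq] at hb'
      rw [hs', hb'.1] at hb
      rw [hb'.2, key1 _ hb]
    · simp only [Prod.mk.injEq] at hb
      rw [hs, hb.1] at hb'
      rw [hb.2, key1 _ hb']
    · simp only [Prod.mk.injEq] at hb hb'
      rw [hb.2, hb'.2]
  · intro s a a' b hb hb'
    rcases hb with hb | ⟨hs, hb⟩ <;> rcases hb' with hb' | ⟨hs', hb'⟩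
    · exact h.jE _ _ _ _ hb hb'
    · simp only [Prod.mk.injEq] at hb'
      rw [hs', hb'.2] at hb
      rw [hb'.1, key2 _ hb]
    · simp only [Prod.mk.injEq] at hb
      rw [hs, hb.2] at hb'
      rw [hb.1, key2 _ hb']
    · simp only [Prod.mk.injEq] at hb hb'
      rw [hb.1, hb'.1]
  · intro s a ha hT
    exact Or.inl (h.sE s a ha hT)
  · intro s a b hab
    rcases hab with hab | ⟨hs, hab⟩
    · exact h.mE _ _ _ hab
    · simp only [Prod.mk.injEq] at hab
      rw [hs, hab.1, hab.2]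
      exact cmp1_mt sy om hsup p v w hd hw
  · intro p' a b hab hd'
    rcases hab with hab | ⟨hs, hab⟩
    · exact cmp1_rel_mono E _ hsub p' a b (h.rE p' a b hab hd')
    · simp only [Prod.mk.injEq] at hab
      rw [hab.1] at hd'
      have hp := cmp1_one sy (om v) (hsup v) p p' hd hd' hs
      rw [hp, hab.1, hab.2]
      exact cmp1_rel_mono E _ hsub p v w hR

private theorem cmp1_start (sy : Psy r P Λ) (om : V → Bag r P Λ) (M : S → Equiv.Perm V) :
    Cmp1W sy om M (fun s => {q | q.1 ∉ um sy.dir om M s ∧ ¬ TT sy.dir s (src s (om q.1)) ∧ q.2 = M s q.1}) := by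
  refine ⟨?_, ?_, ?_, ?_, ?_⟩
  · rintro s v w w' ⟨_, _, h1⟩ ⟨_, _, h2⟩
    simp only at h1 h2
    rw [h1, h2]
  · rintro s v v' w ⟨_, _, h1⟩ ⟨_, _, h2⟩
    simp only at h1 h2
    exact (M s).injective (h1.symm.trans h2)
  · intro s v h1 h2
    exact ⟨h1, h2, rfl⟩
  · rintro s v w ⟨h1, h2, h3⟩
    simp only at h1 h2 h3
    rw [h3]
    by_contra hc
    exact h1 ⟨h2, hc⟩
  · rintro p v w ⟨_, h2, _⟩ hd
    exact absurd (show TT sy.dir (lp p) (src (lp p) (om v)) from ⟨⟨p, rfl⟩, hd⟩) h2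

theorem cmp1 [Finite V] (sy : Psy r P Λ) (om : V → Bag r P Λ) (hsup : ∀ v, Sup sy (om v))
    (M : S → Equiv.Perm V) : ∃ E : S → Set (V × V), CP sy om M E := by
  obtain ⟨E, hE, hmax⟩ := Set.exists_max_image
    {E : S → Set (V × V) | Cmp1W sy om M E} (fun E => ∑ s, (E s).ncard)
    (Set.toFinite _) ⟨_, cmp1_start sy om M⟩
  have h : Cmp1W sy om M E := hE
  refine ⟨E, h.iE, h.jE, h.sE, h.mE, h.rE, ?_⟩
  intro p v w hd hw hR
  by_contra hn
  have h4 := hmax _ (cmp1_ins hsup h p v w hd hw hR)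
  refine absurd h4 (not_le.2 ?_)
  refine Finset.sum_lt_sum (fun s _ => ?_) ⟨lp p, Finset.mem_univ _, ?_⟩
  · exact Set.ncard_le_ncard (fun q hq => Or.inl hq) (Set.toFinite _)
  · refine Set.ncard_lt_ncard ?_ (Set.toFinite _)
    refine ⟨fun q hq => Or.inl hq, fun hsub => hn (hsub (Or.inr ⟨rfl, rfl⟩))⟩

end H33.HN
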