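import Pool.Agent.H33.HN.DefsP
import Pool.Agent.H33.HN.Cmp0

/-! # HN.Cmp2 : the slot inequalities (paper 4.2)

PROOF. `U := nT sy.dir om E + ∑ q, ((mT sy om E q (d + 1)).ncard + (mS sy om E q (d + 1)).ncard)`. (A) If `c` is a position, `P` a pattern with `dir P ≠ some c`, `d ≤ ht P`, then the number of the `w` with `(om w).1 c = P'` .. more precisely: let `W c := {w | ¬ ∃ u, Stp E c w u, dir ((om w).1 c) ≠ some c, d ≤ ht ((om w).1 c)}` and `W' c := {w | ¬ ∃ u, Stp E c u w, dir ((om w).1 (nx c)) ≠ some c, d ≤ ht ((om w).1 (nx c))}`; then `(W c).ncard ≤ U` and `(W' c).ncard ≤ U`.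
Proof: let `sg c = true`: `w ∈ W c` is in `mo E (lp c)`, `c = sc c`. If `¬ TT (src (lp c) (om w))` it is counted in `nT`. Otherwise there is `q`, `lp q = lp c`, `dir ((om w).1 (sc q)) = some q`, `q ≠ c`, so `Al q c` and `s1`: `(om w).1 (sc c) = par ((om w).1 (sc q)) c`, `h1`: `ht ((om w).1 (sc c)) < ht ((om w).1 (sc q))`, so `w ∈ mT q (d + 1)`. `w ∈ W' c` (`sg c = true`): `w ∈ mi E (lp c)`, `nx c = tc c`: the same with `tgt`, `s2`, `mS`. `sg c = false`: `Stp E c w u` is `(u, w) ∈ E (lp c)`, `w ∈ mi`, `c = tc c`; `Stp E c u w` is `(w, u) ∈ E`, `w ∈ mo`, `nx c = sc c`.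
(B) `slot_out`: let `v ∈ mT p d \ mT p (d + 1)`, `P := (om v).1 (sc p)`, `dir P = some p`, `ht P = d`, `l := (r p.1).length`. If `sg p = true`: `v` is at the corner `p = nx^[l - 1] (nx p)`. `pth_or'` for `n = l - 1`, `c = nx p`: if there is `u` with `Pth E (l - 1) (nx p) u v` then by `pth_pat` `(om u).1 (nx p) = P`, `Rel E p v u`, and `cE` gives `(v, u) ∈ E (lp p)`, a contradiction to `v ∈ mo`. So there are `k < l - 1` and `w` with `Pth E k (nx^[l - 1 - k] (nx p)) w v`, no step into `w` along `c' := nx^[l - 1 - k - 1] (nx p)`;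
by `pth_pat` `(om w).1 (nx c') = P`, and `c' ≠ p` (`nx_iter`), so `w ∈ W' c'`. For fixed `k` the map `v ↦ w` is injective (`pth_fun`). So the number of these `v` is at most `∑ k < l - 1, U ≤ card (Ps r) * U`. If `sg p = false`: `v` is the source, at the corner `nx p`; `pth_or` for `n = l - 1`, `c = nx p`: a full path `Pth E (l - 1) (nx p) v u` gives `Rel E p v u`, `(om u).1 (tc p) = P` (`tc p = p = nx^[l - 1] (nx p)`), `cE`. Otherwise `w ∈ W c'`, `c' = nx^[k] (nx p) ≠ p`.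
`slot_in` is the same for `v ∈ mS p d \ mS p (d + 1)`, `P := (om v).1 (tc p)` (`v` is the target: at the corner `nx p` if `sg p`, at the corner `p` otherwise); `cE` for the edge `(u, v)`: `(om u).1 (sc p) = P`. (`l ≥ 1`; `card (Ps r) = ∑ i, (r i).length ≥ l`.) -/

set_option autoImplicit false
set_option synthInstance.maxSize 4000

open MeasureTheory H31.BE

namespace H33.HN

variable {S I : Type} [Fintype S] [Fintype I] [DecidableEq S] [DecidableEq I] {r : Rl S I} {V P Λ : Type}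

omit [Fintype S] [Fintype I] [DecidableEq S] [DecidableEq I] in
private theorem Cmp2_nx_len (p : Ps r) : nx^[(r p.1).length - 1] (nx p) = p := by
  have hl : 0 < (r p.1).length := lt_of_le_of_lt (Nat.zero_le _) p.2.2
  rw [← Function.iterate_succ_apply]
  have e : (r p.1).length - 1 + 1 = (r p.1).length := by omega
  rw [Nat.succ_eq_add_one, e, nx_iter]
  refine Sigma.ext rfl (heq_of_eq (Fin.ext ?_))
  show (p.2.1 + (r p.1).length) % (r p.1).length = p.2.1
  rw [Nat.add_mod_right, Nat.mod_eq_of_lt p.2.2]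

omit [Fintype S] [Fintype I] [DecidableEq S] [DecidableEq I] in
private theorem Cmp2_nx_ne (p : Ps r) (k : ℕ) (h0 : 0 < k) (h1 : k < (r p.1).length) : nx^[k] p ≠ p := by
  rw [nx_iter]
  intro h
  have h2 : (p.2.1 + k) % (r p.1).length = p.2.1 := congrArg (fun c : Ps r => (c.2.1 : ℕ)) h
  have h3 := p.2.2
  by_cases h4 : p.2.1 + k < (r p.1).length
  · rw [Nat.mod_eq_of_lt h4] at h2
    omega
  · rw [Nat.mod_eq_sub_mod (not_lt.1 h4), Nat.mod_eq_of_lt (by omega)] at h2
    omega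

private theorem Cmp2_cov {V ι : Type} [Finite V] [Fintype ι] (A B : Set V) (C : ι → Set V) (n : ℕ)
    (hB : B.ncard ≤ n) (h : ∀ w ∈ A, w ∈ B ∨ ∃ q, w ∈ C q) : A.ncard ≤ n + ∑ q, (C q).ncard := by
  have hsub : A ⊆ B ∪ ⋃ q, C q := by
    intro w hw
    rcases h w hw with h1 | ⟨q, h1⟩
    · exact Or.inl h1
    · exact Or.inr (Set.mem_iUnion.2 ⟨q, h1⟩)
  have e1 := Set.ncard_le_ncard hsub (Set.toFinite _)
  have e2 := Set.ncard_union_le B (⋃ q, C q)
  have e3 := Set.ncard_iUnion_le_of_fintype C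
  omega

private theorem Cmp2_card {V : Type} [Finite V] (T : Set V) (R : V → V → Prop)
    (hR : ∀ w w' y, R w y → R w' y → w = w') : {w | ∃ y, y ∈ T ∧ R w y}.ncard ≤ T.ncard := by
  classical
  have hex : ∀ w, ∃ y, (∃ y, y ∈ T ∧ R w y) → y ∈ T ∧ R w y := by
    intro w
    by_cases h : ∃ y, y ∈ T ∧ R w y
    · obtain ⟨y, hy⟩ := h
      exact ⟨y, fun _ => hy⟩
    · exact ⟨w, fun h' => absurd h' h⟩
  choose f hf using hex
  refine Set.ncard_le_ncard_of_injOn f (fun w hw => (hf w hw).1) ?_ (Set.toFinite T)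
  intro w hw w' hw' he
  have h1 := (hf w hw).2
  have h2 := (hf w' hw').2
  rw [← he] at h2
  exact hR w w' _ h1 h2

private theorem Cmp2_count {V : Type} [Finite V] (X Y : Set V) (L N U : ℕ) (hL : L ≤ N) (T : Fin L → Set V)
    (R : Fin L → V → V → Prop) (hR : ∀ k w w' y, R k w y → R k w' y → w = w')
    (hT : ∀ k, (T k).ncard ≤ U) (h : ∀ v ∈ X, v ∈ Y ∨ ∃ k, ∃ w, w ∈ T k ∧ R k v w) :
    X.ncard ≤ Y.ncard + N * U := by
  have h1 := Cmp2_cov X Y (fun k : Fin L => {v | ∃ w, w ∈ T k ∧ R k v w}) Y.ncard le_rfl (by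
    intro v hv
    exact h v hv)
  have h2 : ∑ k : Fin L, {v | ∃ w, w ∈ T k ∧ R k v w}.ncard ≤ ∑ _k : Fin L, U :=
    Finset.sum_le_sum fun k _ => (Cmp2_card (T k) (R k) (hR k)).trans (hT k)
  rw [Finset.sum_const, Finset.card_univ, Fintype.card_fin, smul_eq_mul] at h2
  have h3 : L * U ≤ N * U := Nat.mul_le_mul_right _ hL
  omega

private theorem Cmp2_ht (sy : Psy r P Λ) (x : P) (q c : Ps r) (hd : sy.dir x = some q) (hq : Al q c) :
    sy.ht (sy.par x c) + 1 ≤ sy.ht x := by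
  rw [sy.h1 x q hd]
  have h1 : sy.ht (sy.par x c) ≤ (Finset.univ.filter fun q' => Al q q').sup fun q' => sy.ht (sy.par x q') :=
    Finset.le_sup (f := fun q' => sy.ht (sy.par x q')) (Finset.mem_filter.2 ⟨Finset.mem_univ c, hq⟩)
  omega

private theorem Cmp2_O [Finite V] (sy : Psy r P Λ) (om : V → Bag r P Λ) (hsup : ∀ v, Sup sy (om v))
    (E : S → Set (V × V)) (d : ℕ) (c : Ps r) :
    {w | w ∈ mo E (lp c) ∧ sy.dir ((om w).1 (sc c)) ≠ some c ∧ d ≤ sy.ht ((om w).1 (sc c))}.ncard ≤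
      nT sy.dir om E + ∑ q : Ps r, ((mT sy om E q (d + 1)).ncard + (mS sy om E q (d + 1)).ncard) := by
  have h1 := Cmp2_cov
    {w | w ∈ mo E (lp c) ∧ sy.dir ((om w).1 (sc c)) ≠ some c ∧ d ≤ sy.ht ((om w).1 (sc c))}
    {v | v ∈ mo E (lp c) ∧ ¬ TT sy.dir (lp c) (src (lp c) (om v))}
    (fun q : Ps r => mT sy om E q (d + 1)) (nT sy.dir om E) (by
      unfold nT
      refine le_trans (Nat.le_add_right _
        {v | v ∈ mi E (lp c) ∧ ¬ TT sy.dir (lp c) (tgt (lp c) (om v))}.ncard) ?_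
      exact Finset.single_le_sum (f := fun s => {v | v ∈ mo E s ∧ ¬ TT sy.dir s (src s (om v))}.ncard +
        {v | v ∈ mi E s ∧ ¬ TT sy.dir s (tgt s (om v))}.ncard) (fun _ _ => Nat.zero_le _)
        (Finset.mem_univ (lp c))) (by
      rintro w ⟨hw, hdir, hht⟩
      by_cases hTT : TT sy.dir (lp c) (src (lp c) (om w))
      · right
        obtain ⟨⟨q, hq⟩, hdq⟩ := hTT
        have hdq' : sy.dir ((om w).1 (sc q)) = some q := hdq
        have hne : c ≠ q := by
          rintro rfl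
          exact hdir hdq'
        have hAl : Al q c := ⟨hq.symm, hne⟩
        have e1 := (hsup w).s1 q hdq' c hAl
        have e2 := Cmp2_ht sy _ q c hdq' hAl
        rw [← e1] at e2
        refine ⟨q, ?_, hdq', by omega⟩
        rw [hq]
        exact hw
      · exact Or.inl ⟨hw, hTT⟩)
  refine h1.trans ?_
  have h2 : ∑ q : Ps r, (mT sy om E q (d + 1)).ncard ≤
      ∑ q : Ps r, ((mT sy om E q (d + 1)).ncard + (mS sy om E q (d + 1)).ncard) :=
    Finset.sum_le_sum fun q _ => Nat.le_add_right _ _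
  omega

private theorem Cmp2_I [Finite V] (sy : Psy r P Λ) (om : V → Bag r P Λ) (hsup : ∀ v, Sup sy (om v))
    (E : S → Set (V × V)) (d : ℕ) (c : Ps r) :
    {w | w ∈ mi E (lp c) ∧ sy.dir ((om w).1 (tc c)) ≠ some c ∧ d ≤ sy.ht ((om w).1 (tc c))}.ncard ≤
      nT sy.dir om E + ∑ q : Ps r, ((mT sy om E q (d + 1)).ncard + (mS sy om E q (d + 1)).ncard) := by
  have h1 := Cmp2_cov
    {w | w ∈ mi E (lp c) ∧ sy.dir ((om w).1 (tc c)) ≠ some c ∧ d ≤ sy.ht ((om w).1 (tc c))}
    {v | v ∈ mi E (lp c) ∧ ¬ TT sy.dir (lp c) (tgt (lp c) (om v))}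
    (fun q : Ps r => mS sy om E q (d + 1)) (nT sy.dir om E) (by
      unfold nT
      refine le_trans (Nat.le_add_left _
        {v | v ∈ mo E (lp c) ∧ ¬ TT sy.dir (lp c) (src (lp c) (om v))}.ncard) ?_
      exact Finset.single_le_sum (f := fun s => {v | v ∈ mo E s ∧ ¬ TT sy.dir s (src s (om v))}.ncard +
        {v | v ∈ mi E s ∧ ¬ TT sy.dir s (tgt s (om v))}.ncard) (fun _ _ => Nat.zero_le _)
        (Finset.mem_univ (lp c))) (by
      rintro w ⟨hw, hdir, hht⟩
      by_cases hTT : TT sy.dir (lp c) (tgt (lp c) (om w))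
      · right
        obtain ⟨⟨q, hq⟩, hdq⟩ := hTT
        have hdq' : sy.dir ((om w).1 (tc q)) = some q := hdq
        have hne : c ≠ q := by
          rintro rfl
          exact hdir hdq'
        have hAl : Al q c := ⟨hq.symm, hne⟩
        have e1 := (hsup w).s2 q hdq' c hAl
        have e2 := Cmp2_ht sy _ q c hdq' hAl
        rw [← e1] at e2
        refine ⟨q, ?_, hdq', by omega⟩
        rw [hq]
        exact hw
      · exact Or.inl ⟨hw, hTT⟩)
  refine h1.trans ?_
  have h2 : ∑ q : Ps r, (mS sy om E q (d + 1)).ncard ≤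
      ∑ q : Ps r, ((mT sy om E q (d + 1)).ncard + (mS sy om E q (d + 1)).ncard) :=
    Finset.sum_le_sum fun q _ => Nat.le_add_left _ _
  omega

private theorem Cmp2_W [Finite V] (sy : Psy r P Λ) (om : V → Bag r P Λ) (hsup : ∀ v, Sup sy (om v))
    (E : S → Set (V × V)) (d : ℕ) (c : Ps r) :
    {w | (¬ ∃ u, Stp E c w u) ∧ sy.dir ((om w).1 c) ≠ some c ∧ d ≤ sy.ht ((om w).1 c)}.ncard ≤
      nT sy.dir om E + ∑ q : Ps r, ((mT sy om E q (d + 1)).ncard + (mS sy om E q (d + 1)).ncard) := by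
  by_cases hs : sg c = true
  · have h := Cmp2_O sy om hsup E d c
    have e : sc c = c := by
      unfold sc
      rw [if_pos hs]
    rw [e] at h
    refine le_trans (le_of_eq ?_) h
    congr 1
    ext w
    simp only [Set.mem_ofPred_eq, mo, Stp, hs, if_true]
  · have h := Cmp2_I sy om hsup E d c
    have e : tc c = c := by
      unfold tc
      rw [if_neg hs]
    rw [e] at h
    refine le_trans (le_of_eq ?_) h
    congr 1
    ext w
    simp only [Set.mem_ofPred_eq, mi, Stp, hs]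
    rfl

private theorem Cmp2_W' [Finite V] (sy : Psy r P Λ) (om : V → Bag r P Λ) (hsup : ∀ v, Sup sy (om v))
    (E : S → Set (V × V)) (d : ℕ) (c : Ps r) :
    {w | (¬ ∃ u, Stp E c u w) ∧ sy.dir ((om w).1 (nx c)) ≠ some c ∧ d ≤ sy.ht ((om w).1 (nx c))}.ncard ≤
      nT sy.dir om E + ∑ q : Ps r, ((mT sy om E q (d + 1)).ncard + (mS sy om E q (d + 1)).ncard) := by
  by_cases hs : sg c = true
  · have h := Cmp2_I sy om hsup E d c
    have e : tc c = nx c := by
      unfold tc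
      rw [if_pos hs]
    rw [e] at h
    refine le_trans (le_of_eq ?_) h
    congr 1
    ext w
    simp only [Set.mem_ofPred_eq, mi, Stp, hs, if_true]
  · have h := Cmp2_O sy om hsup E d c
    have e : sc c = nx c := by
      unfold sc
      rw [if_neg hs]
    rw [e] at h
    refine le_trans (le_of_eq ?_) h
    congr 1
    ext w
    simp only [Set.mem_ofPred_eq, mo, Stp, hs]
    rfl

private theorem Cmp2_len (p : Ps r) : (r p.1).length - 1 ≤ Fintype.card (Ps r) := by
  have h1 : Fintype.card (Ps r) = ∑ i : I, (r i).length := by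
    rw [Fintype.card_sigma]
    exact Finset.sum_congr rfl fun i _ => Fintype.card_fin _
  rw [h1]
  have h2 : (r p.1).length ≤ ∑ i : I, (r i).length :=
    Finset.single_le_sum (f := fun i => (r i).length) (fun _ _ => Nat.zero_le _) (Finset.mem_univ p.1)
  omega

/-- the forward count: the vertices at the corner `nx p` without a path around the cell -/
private theorem Cmp2_F [Finite V] (sy : Psy r P Λ) (om : V → Bag r P Λ) (hsup : ∀ v, Sup sy (om v))
    (E : S → Set (V × V)) (iE : ∀ s v w w', (v, w) ∈ E s → (v, w') ∈ E s → w = w')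
    (jE : ∀ s v v' w, (v, w) ∈ E s → (v', w) ∈ E s → v = v')
    (mE : ∀ s v w, (v, w) ∈ E s → tgt s (om w) = src s (om v)) (p : Ps r) (d : ℕ) (X Y : Set V)
    (h : ∀ v ∈ X, v ∈ Y ∨ (sy.dir ((om v).1 (nx p)) = some p ∧ d ≤ sy.ht ((om v).1 (nx p)) ∧
      ¬ ∃ u, Pth E ((r p.1).length - 1) (nx p) v u ∧ (om u).1 p = (om v).1 (nx p))) :
    X.ncard ≤ Y.ncard + Fintype.card (Ps r) *
      (nT sy.dir om E + ∑ q : Ps r, ((mT sy om E q (d + 1)).ncard + (mS sy om E q (d + 1)).ncard)) := by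
  refine Cmp2_count X Y ((r p.1).length - 1) _ _ (Cmp2_len p)
    (fun k => {w | (¬ ∃ u, Stp E (nx^[k.1] (nx p)) w u) ∧
      sy.dir ((om w).1 (nx^[k.1] (nx p))) ≠ some (nx^[k.1] (nx p)) ∧
      d ≤ sy.ht ((om w).1 (nx^[k.1] (nx p)))})
    (fun k v w => Pth E k.1 (nx p) v w) (fun k w w' y h1 h2 => pth_inj E iE jE _ _ _ _ _ h1 h2)
    (fun k => Cmp2_W sy om hsup E d _) ?_
  intro v hv
  rcases h v hv with h1 | ⟨h1, h2, h3⟩
  · exact Or.inl h1
  right
  rcases pth_or E ((r p.1).length - 1) (nx p) v with ⟨u, hu⟩ | ⟨k, hk, w, hw, hno⟩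
  · exfalso
    refine h3 ⟨u, hu, ?_⟩
    have := pth_pat om E mE _ _ _ _ hu
    rwa [Cmp2_nx_len] at this
  · have e := pth_pat om E mE _ _ _ _ hw
    refine ⟨⟨k, hk⟩, w, ⟨hno, ?_, ?_⟩, hw⟩
    · show sy.dir ((om w).1 (nx^[k] (nx p))) ≠ some (nx^[k] (nx p))
      rw [e, h1]
      intro h4
      have h5 := (Option.some.inj h4).symm
      rw [← Function.iterate_succ_apply] at h5
      exact Cmp2_nx_ne p (k + 1) (Nat.succ_pos k) (by omega) h5
    · show d ≤ sy.ht ((om w).1 (nx^[k] (nx p)))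
      rw [e]
      exact h2

/-- the backward count: the vertices at the corner `p` without a path around the cell -/
private theorem Cmp2_B [Finite V] (sy : Psy r P Λ) (om : V → Bag r P Λ) (hsup : ∀ v, Sup sy (om v))
    (E : S → Set (V × V)) (iE : ∀ s v w w', (v, w) ∈ E s → (v, w') ∈ E s → w = w')
    (jE : ∀ s v v' w, (v, w) ∈ E s → (v', w) ∈ E s → v = v')
    (mE : ∀ s v w, (v, w) ∈ E s → tgt s (om w) = src s (om v)) (p : Ps r) (d : ℕ) (X Y : Set V)
    (h : ∀ v ∈ X, v ∈ Y ∨ (sy.dir ((om v).1 p) = some p ∧ d ≤ sy.ht ((om v).1 p) ∧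
      ¬ ∃ u, Pth E ((r p.1).length - 1) (nx p) u v ∧ (om v).1 p = (om u).1 (nx p))) :
    X.ncard ≤ Y.ncard + Fintype.card (Ps r) *
      (nT sy.dir om E + ∑ q : Ps r, ((mT sy om E q (d + 1)).ncard + (mS sy om E q (d + 1)).ncard)) := by
  refine Cmp2_count X Y ((r p.1).length - 1) _ _ (Cmp2_len p)
    (fun k => {w | (¬ ∃ u, Stp E (nx^[(r p.1).length - 1 - k.1 - 1] (nx p)) u w) ∧
      sy.dir ((om w).1 (nx (nx^[(r p.1).length - 1 - k.1 - 1] (nx p)))) ≠
        some (nx^[(r p.1).length - 1 - k.1 - 1] (nx p)) ∧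
      d ≤ sy.ht ((om w).1 (nx (nx^[(r p.1).length - 1 - k.1 - 1] (nx p))))})
    (fun k v w => Pth E k.1 (nx^[(r p.1).length - 1 - k.1] (nx p)) w v)
    (fun k w w' y h1 h2 => pth_fun E iE jE _ _ _ _ _ h1 h2)
    (fun k => Cmp2_W' sy om hsup E d _) ?_
  intro v hv
  rcases h v hv with h1 | ⟨h1, h2, h3⟩
  · exact Or.inl h1
  right
  rcases pth_or' E ((r p.1).length - 1) (nx p) v with ⟨u, hu⟩ | ⟨k, hk, w, hw, hno⟩
  · exfalso
    refine h3 ⟨u, hu, ?_⟩
    have := pth_pat om E mE _ _ _ _ hu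
    rwa [Cmp2_nx_len] at this
  · have e := pth_pat om E mE _ _ _ _ hw
    rw [← Function.iterate_add_apply] at e
    have e1 : k + ((r p.1).length - 1 - k) = (r p.1).length - 1 := by omega
    rw [e1, Cmp2_nx_len] at e
    have e2 : nx (nx^[(r p.1).length - 1 - k - 1] (nx p)) = nx^[(r p.1).length - 1 - k] (nx p) := by
      rw [← Function.iterate_succ_apply' nx]
      congr 1
      omega
    refine ⟨⟨k, hk⟩, w, ⟨hno, ?_, ?_⟩, hw⟩
    · show sy.dir ((om w).1 (nx (nx^[(r p.1).length - 1 - k - 1] (nx p)))) ≠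
        some (nx^[(r p.1).length - 1 - k - 1] (nx p))
      rw [e2, ← e, h1]
      intro h4
      have h5 := (Option.some.inj h4).symm
      rw [← Function.iterate_succ_apply] at h5
      exact Cmp2_nx_ne p ((r p.1).length - 1 - k - 1 + 1) (Nat.succ_pos _) (by omega) h5
    · show d ≤ sy.ht ((om w).1 (nx (nx^[(r p.1).length - 1 - k - 1] (nx p))))
      rw [e2, ← e]
      exact h2

theorem slot_out [Finite V] (sy : Psy r P Λ) (om : V → Bag r P Λ) (hsup : ∀ v, Sup sy (om v))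
    (M : S → Equiv.Perm V) (E : S → Set (V × V)) (h : CP sy om M E) (p : Ps r) (d : ℕ) :
    (mT sy om E p d).ncard ≤ (mT sy om E p (d + 1)).ncard + Fintype.card (Ps r) *
      (nT sy.dir om E + ∑ q : Ps r, ((mT sy om E q (d + 1)).ncard + (mS sy om E q (d + 1)).ncard)) := by
  by_cases hs : sg p = true
  · have e1 : sc p = p := by
      unfold sc
      rw [if_pos hs]
    have e2 : tc p = nx p := by
      unfold tc
      rw [if_pos hs]
    refine Cmp2_B sy om hsup E h.iE h.jE h.mE p d _ _ ?_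
    rintro v ⟨hv, hdir, hht⟩
    right
    rw [e1] at hdir hht
    refine ⟨hdir, hht, ?_⟩
    rintro ⟨u, hu, hp⟩
    refine hv ⟨u, h.cE p v u ?_ ?_ ?_⟩
    · rw [e1]
      exact hdir
    · rw [e1, e2]
      exact hp.symm
    · unfold Rel
      rw [if_pos hs]
      exact hu
  · have e1 : sc p = nx p := by
      unfold sc
      rw [if_neg hs]
    have e2 : tc p = p := by
      unfold tc
      rw [if_neg hs]
    refine Cmp2_F sy om hsup E h.iE h.jE h.mE p d _ _ ?_
    rintro v ⟨hv, hdir, hht⟩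
    right
    rw [e1] at hdir hht
    refine ⟨hdir, hht, ?_⟩
    rintro ⟨u, hu, hp⟩
    refine hv ⟨u, h.cE p v u ?_ ?_ ?_⟩
    · rw [e1]
      exact hdir
    · rw [e1, e2]
      exact hp
    · unfold Rel
      rw [if_neg hs]
      exact hu

theorem slot_in [Finite V] (sy : Psy r P Λ) (om : V → Bag r P Λ) (hsup : ∀ v, Sup sy (om v))
    (M : S → Equiv.Perm V) (E : S → Set (V × V)) (h : CP sy om M E) (p : Ps r) (d : ℕ) :
    (mS sy om E p d).ncard ≤ (mS sy om E p (d + 1)).ncard + Fintype.card (Ps r) *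
      (nT sy.dir om E + ∑ q : Ps r, ((mT sy om E q (d + 1)).ncard + (mS sy om E q (d + 1)).ncard)) := by
  by_cases hs : sg p = true
  · have e1 : sc p = p := by
      unfold sc
      rw [if_pos hs]
    have e2 : tc p = nx p := by
      unfold tc
      rw [if_pos hs]
    refine Cmp2_F sy om hsup E h.iE h.jE h.mE p d _ _ ?_
    rintro v ⟨hv, hdir, hht⟩
    right
    rw [e2] at hdir hht
    refine ⟨hdir, hht, ?_⟩
    rintro ⟨u, hu, hp⟩
    refine hv ⟨u, h.cE p u v ?_ ?_ ?_⟩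
    · rw [e1, hp]
      exact hdir
    · rw [e1, e2]
      exact hp.symm
    · unfold Rel
      rw [if_pos hs]
      exact hu
  · have e1 : sc p = nx p := by
      unfold sc
      rw [if_neg hs]
    have e2 : tc p = p := by
      unfold tc
      rw [if_neg hs]
    refine Cmp2_B sy om hsup E h.iE h.jE h.mE p d _ _ ?_
    rintro v ⟨hv, hdir, hht⟩
    right
    rw [e2] at hdir hht
    refine ⟨hdir, hht, ?_⟩
    rintro ⟨u, hu, hp⟩
    refine hv ⟨u, h.cE p u v ?_ ?_ ?_⟩
    · rw [e1, ← hp]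
      exact hdir
    · rw [e1, e2]
      exact hp
    · unfold Rel
      rw [if_neg hs]
      exact hu

end H33.HN
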