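import Pool.Agent.H33.HN.DefsP
import Pool.Agent.H33.HN.Cmp2

/-! # HN.Cmp3 : the recursion for the missing edges (paper 4.2)

PROOF. `nt_le`: source side: if `v ∈ mo E s`, `¬ TT (src s (om v))` then `v ∈ um s` (`sE`). Target side: the map `v ↦ w` (edge `(v, w) ∈ E s`) is a bijection from `{v | ¬ TT (src s (om v)), v ∉ mo}` to `{w | ¬ TT (tgt s (om w)), w ∉ mi}` (`mE`, `iE`, `jE`), so `#{w ∈ mi, ¬ TT tgt} = #{¬ TT tgt} - #{v ∉ mo, ¬ TT src} ≤ #{¬ TT tgt} - #{¬ TT src} + #{v ∈ mo, ¬ TT src} ≤ |..| + (um s).ncard`. Sum over `s`: `nT ≤ 2 ∑ um + ∑ |..| ≤ 2 Kr`.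
`miss_le`: `U d := nT + ∑ q, ((mT q d).ncard + (mS q d).ncard)` satisfies `U d ≤ (2 (card (Ps r))^2 + 1) * U (d + 1)` (sum of `slot_out`, `slot_in` over the positions) and `U (D + 1) = nT` (the sets are empty). So `U 0 ≤ (2 (card (Ps r))^2 + 1)^(D + 1) * nT`. -/

set_option autoImplicit false
set_option synthInstance.maxSize 4000

open MeasureTheory H31.BE

namespace H33.HN

variable {S I : Type} [Fintype S] [Fintype I] [DecidableEq S] [DecidableEq I] {r : Rl S I} {V P Λ : Type}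

private theorem Cmp3_one [Finite V] (sy : Psy r P Λ) (om : V → Bag r P Λ) (M : S → Equiv.Perm V)
    (E : S → Set (V × V)) (h : CP sy om M E) (s : S) :
    (({v | v ∈ mo E s ∧ ¬ TT sy.dir s (src s (om v))}.ncard +
      {v | v ∈ mi E s ∧ ¬ TT sy.dir s (tgt s (om v))}.ncard : ℕ) : ℝ) ≤
      2 * (((um sy.dir om M s).ncard : ℝ) +
        |({v | ¬ TT sy.dir s (tgt s (om v))}.ncard : ℝ) -
          {v | ¬ TT sy.dir s (src s (om v))}.ncard|) := by
  classical
  have hA : {v | v ∈ mo E s ∧ ¬ TT sy.dir s (src s (om v))}.ncard ≤ (um sy.dir om M s).ncard := by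
    refine Set.ncard_le_ncard ?_ (Set.toFinite _)
    intro v hv
    by_contra hc
    exact hv.1 ⟨_, h.sE s v hc hv.2⟩
  have hS : {v | ¬ TT sy.dir s (src s (om v))}.ncard =
      {v | v ∈ mo E s ∧ ¬ TT sy.dir s (src s (om v))}.ncard +
        {v | v ∉ mo E s ∧ ¬ TT sy.dir s (src s (om v))}.ncard := by
    rw [← Set.ncard_union_eq ?_ (Set.toFinite _) (Set.toFinite _)]
    · congr 1
      ext v
      simp only [Set.mem_ofPred_eq, Set.mem_union]
      tauto
    · rw [Set.disjoint_left]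
      intro v hv hv'
      exact hv'.1 hv.1
  have hT : {v | ¬ TT sy.dir s (tgt s (om v))}.ncard =
      {v | v ∈ mi E s ∧ ¬ TT sy.dir s (tgt s (om v))}.ncard +
        {v | v ∉ mi E s ∧ ¬ TT sy.dir s (tgt s (om v))}.ncard := by
    rw [← Set.ncard_union_eq ?_ (Set.toFinite _) (Set.toFinite _)]
    · congr 1
      ext v
      simp only [Set.mem_ofPred_eq, Set.mem_union]
      tauto
    · rw [Set.disjoint_left]
      intro v hv hv'
      exact hv'.1 hv.1
  have hI : {v | v ∉ mo E s ∧ ¬ TT sy.dir s (src s (om v))}.ncard ≤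
      {v | v ∉ mi E s ∧ ¬ TT sy.dir s (tgt s (om v))}.ncard := by
    have hex : ∀ v : V, ∃ w : V, v ∉ mo E s → (v, w) ∈ E s := by
      intro v
      by_cases hv : v ∈ mo E s
      · exact ⟨v, fun h' => absurd hv h'⟩
      · have h1 : ∃ w, (v, w) ∈ E s := not_not.1 hv
        obtain ⟨w, hw⟩ := h1
        exact ⟨w, fun _ => hw⟩
    choose f hf using hex
    refine Set.ncard_le_ncard_of_injOn f ?_ ?_ (Set.toFinite _)
    · intro v hv
      have h1 := hf v hv.1
      refine ⟨fun hc => hc ⟨v, h1⟩, ?_⟩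
      rw [h.mE s v _ h1]
      exact hv.2
    · intro v hv v' hv' he
      have h1 := hf v hv.1
      have h2 := hf v' hv'.1
      rw [← he] at h2
      exact h.jE s v v' _ h1 h2
  have hA' : (({v | v ∈ mo E s ∧ ¬ TT sy.dir s (src s (om v))}.ncard : ℕ) : ℝ) ≤
      ((um sy.dir om M s).ncard : ℝ) := by exact_mod_cast hA
  have hI' : (({v | v ∉ mo E s ∧ ¬ TT sy.dir s (src s (om v))}.ncard : ℕ) : ℝ) ≤
      (({v | v ∉ mi E s ∧ ¬ TT sy.dir s (tgt s (om v))}.ncard : ℕ) : ℝ) := by exact_mod_cast hI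
  have habs := le_abs_self (({v | ¬ TT sy.dir s (tgt s (om v))}.ncard : ℝ) -
          {v | ¬ TT sy.dir s (src s (om v))}.ncard)
  rw [hS, hT] at habs
  rw [hS, hT]
  push_cast at habs ⊢
  have hu : (0 : ℝ) ≤ |((({v | v ∈ mi E s ∧ ¬ TT sy.dir s (tgt s (om v))}.ncard : ℕ) : ℝ) +
        (({v | v ∉ mi E s ∧ ¬ TT sy.dir s (tgt s (om v))}.ncard : ℕ) : ℝ) -
      ((({v | v ∈ mo E s ∧ ¬ TT sy.dir s (src s (om v))}.ncard : ℕ) : ℝ) +
        (({v | v ∉ mo E s ∧ ¬ TT sy.dir s (src s (om v))}.ncard : ℕ) : ℝ)))| := abs_nonneg _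
  linarith

theorem nt_le [Finite V] (sy : Psy r P Λ) (om : V → Bag r P Λ) (M : S → Equiv.Perm V) (E : S → Set (V × V))
    (h : CP sy om M E) : (nT sy.dir om E : ℝ) ≤ 2 * Kr sy.dir om M := by
  rw [nT, Kr, Finset.mul_sum, Nat.cast_sum]
  exact Finset.sum_le_sum fun s _ => Cmp3_one sy om M E h s

private theorem Cmp3_step [Finite V] (sy : Psy r P Λ) (om : V → Bag r P Λ) (hsup : ∀ v, Sup sy (om v))
    (M : S → Equiv.Perm V) (E : S → Set (V × V)) (h : CP sy om M E) (d : ℕ) :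
    nT sy.dir om E + ∑ q : Ps r, ((mT sy om E q d).ncard + (mS sy om E q d).ncard) ≤
      (2 * (Fintype.card (Ps r)) ^ 2 + 1) *
        (nT sy.dir om E + ∑ q : Ps r, ((mT sy om E q (d + 1)).ncard + (mS sy om E q (d + 1)).ncard)) := by
  have h1 : ∑ p : Ps r, ((mT sy om E p d).ncard + (mS sy om E p d).ncard) ≤
      ∑ p : Ps r, (((mT sy om E p (d + 1)).ncard + (mS sy om E p (d + 1)).ncard) +
        2 * (Fintype.card (Ps r) *
          (nT sy.dir om E + ∑ q : Ps r, ((mT sy om E q (d + 1)).ncard + (mS sy om E q (d + 1)).ncard)))) := by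
    refine Finset.sum_le_sum fun p _ => ?_
    have h2 := slot_out sy om hsup M E h p d
    have h3 := slot_in sy om hsup M E h p d
    omega
  have hc : ∀ (f : Ps r → ℕ) (C : ℕ), ∑ p : Ps r, (f p + C) = ∑ p : Ps r, f p + Fintype.card (Ps r) * C := by
    intro f C
    rw [Finset.sum_add_distrib, Finset.sum_const, Finset.card_univ, smul_eq_mul]
  rw [hc (fun p => (mT sy om E p (d + 1)).ncard + (mS sy om E p (d + 1)).ncard)] at h1
  generalize nT sy.dir om E = a at h1 ⊢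
  generalize ∑ q : Ps r, ((mT sy om E q (d + 1)).ncard + (mS sy om E q (d + 1)).ncard) = b at h1 ⊢
  generalize ∑ q : Ps r, ((mT sy om E q d).ncard + (mS sy om E q d).ncard) = c at h1 ⊢
  generalize Fintype.card (Ps r) = k at h1 ⊢
  calc a + c ≤ a + (b + k * (2 * (k * (a + b)))) := Nat.add_le_add_left h1 a
    _ = (2 * k ^ 2 + 1) * (a + b) := by ring

theorem miss_le [Finite V] (sy : Psy r P Λ) (om : V → Bag r P Λ) (hsup : ∀ v, Sup sy (om v))
    (M : S → Equiv.Perm V) (E : S → Set (V × V)) (h : CP sy om M E) (D : ℕ) (hD : ∀ p, sy.ht p ≤ D) :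
    ((nT sy.dir om E + ∑ q : Ps r, ((mT sy om E q 0).ncard + (mS sy om E q 0).ncard) : ℕ) : ℝ) ≤
      (2 * (Fintype.card (Ps r) : ℝ) ^ 2 + 1) ^ (D + 1) * (2 * Kr sy.dir om M) := by
  have hind : ∀ m : ℕ, nT sy.dir om E + ∑ q : Ps r, ((mT sy om E q 0).ncard + (mS sy om E q 0).ncard) ≤
      (2 * (Fintype.card (Ps r)) ^ 2 + 1) ^ m *
        (nT sy.dir om E + ∑ q : Ps r, ((mT sy om E q m).ncard + (mS sy om E q m).ncard)) := by
    intro m
    induction m with
    | zero => rw [pow_zero, one_mul]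
    | succ m ih =>
      refine ih.trans ?_
      rw [pow_succ (2 * (Fintype.card (Ps r)) ^ 2 + 1) m, mul_assoc]
      exact Nat.mul_le_mul_left _ (Cmp3_step sy om hsup M E h m)
  have hz : nT sy.dir om E + ∑ q : Ps r, ((mT sy om E q (D + 1)).ncard + (mS sy om E q (D + 1)).ncard) =
      nT sy.dir om E := by
    have h1 : ∀ q : Ps r, (mT sy om E q (D + 1)).ncard + (mS sy om E q (D + 1)).ncard = 0 := by
      intro q
      have h2 : mT sy om E q (D + 1) = ∅ := by
        ext v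
        simp only [mT, Set.mem_ofPred_eq, Set.mem_empty_iff_false, iff_false]
        rintro ⟨_, _, h3⟩
        have := hD ((om v).1 (sc q))
        omega
      have h3 : mS sy om E q (D + 1) = ∅ := by
        ext v
        simp only [mS, Set.mem_ofPred_eq, Set.mem_empty_iff_false, iff_false]
        rintro ⟨_, _, h3⟩
        have := hD ((om v).1 (tc q))
        omega
      rw [h2, h3, Set.ncard_empty]
    rw [Finset.sum_eq_zero fun q _ => h1 q, add_zero]
  have h2 := hind (D + 1)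
  rw [hz] at h2
  have h3 : ((nT sy.dir om E + ∑ q : Ps r, ((mT sy om E q 0).ncard + (mS sy om E q 0).ncard) : ℕ) : ℝ) ≤
      (((2 * (Fintype.card (Ps r)) ^ 2 + 1) ^ (D + 1) * nT sy.dir om E : ℕ) : ℝ) := Nat.cast_le.2 h2
  refine h3.trans ?_
  push_cast
  exact mul_le_mul_of_nonneg_left (nt_le sy om M E h) (by positivity)

end H33.HN
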