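import Pool.Agent.H33.HN.DefsP
import Pool.Agent.H33.HN.Cmp1
import Pool.Agent.H33.HN.Cmp3
import Pool.Agent.H33.HN.WrdA

/-! # HN.Cmp4 : the completed structure (paper 4.2)

PROOF. `cmp1` gives `E`. `U0 := nT + ∑ q, ((mT q 0).ncard + (mS q 0).ncard) ≤ (2 c^2 + 1)^(D + 1) * 2 Kr`, `c = card (Ps r)` (`miss_le`). `(mo E s).ncard ≤ U0`, `(mi E s).ncard ≤ U0`, even `∑ s, (mo E s).ncard ≤ U0`: `v ∈ mo E s` is counted in `nT` if `¬ TT`, otherwise it is in `mT q 0` for some `q` with `lp q = s` (different `s`: different `q`). Extend `E s` to a permutation `X s`: `(v, w) ∈ E s → X s v = w` (the complements of the domain and of the range have the same cardinality; `Equiv.extendSubtype` or `Equiv.Perm.extendSubtype`; see the same step in H33/BO/Cmp4).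
(1) `¬ TT`, `v ∉ um`: `(v, M s v) ∈ E s`, so `X s v = M s v`. (2) `Mis ⊆ ⋃ s, mo E s` (`mE`): at most `U0 ≤ Bc r D * Kr`. (3) Steps of `E` are steps of `X`: `Pth E n c v u → u = ac X (..) v`: for a path from the base corner: let `v` be a point with `P := (om v).1 (bc hr i)`, `dir P ≠ none`, say `dir P = some p` (`p.1 = i` by `s0`, `d1`), `p = (i, j)`, `l = (r i).length`. `pth_or` for `n = j`, `c = bc hr i` (`nx^[j] (bc hr i) = p`) and `pth_or'` for `n = l - 1 - j`, `c = nx p`, (`nx^[l - 1 - j] (nx p) = bc hr i`).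
If both paths exist, `Pth E j (bc) v a`, `Pth E (l - 1 - j) (nx p) b v`, then by `pth_add` `Pth E (l - 1) (nx p) b a`; `a` is at the corner `p`, `b` at the corner `nx p`, patterns `P` (`pth_pat`), so `Rel E p` for the pair (source, target) and `cE` gives the edge, i.e. `Stp E p a b`. So all the steps around the cell exist in `E` and `ac X (pv (r i)) v = v`. (Claim, by induction: if `Pth E n (bc hr i) v u` with `n ≤ l` then `u = ac X (pv ((r i).take n)) v`; `pv_concat`; `Stp E c x y` implies `y = ac X (val (lp c, sg c)) x`.)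
Otherwise there is a missing step at a vertex `w` connected to `v` by a path of length `k`: for every position `c'` and every one of the two cases the map `v ↦ w` is injective (`pth_inj`, `pth_fun`) and `w ∈ mo` or `w ∈ mi`: at most `2 c U0` pairs `(i, v)`. So `defs ≤ ∑ i, #{v | dir ((om v).1 (bc hr i)) = none} + 2 c U0` and `2 c U0 ≤ Bc r D * Kr`. -/

set_option autoImplicit false
set_option synthInstance.maxSize 4000

open MeasureTheory H31.BE

namespace H33.HN

variable {S I : Type} [Fintype S] [Fintype I] [DecidableEq S] [DecidableEq I] {r : Rl S I} {V P Λ : Type}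

private theorem cmp4_ext {V : Type} [Finite V] (A : Set (V × V))
    (iA : ∀ v w w', (v, w) ∈ A → (v, w') ∈ A → w = w')
    (jA : ∀ v v' w, (v, w) ∈ A → (v', w) ∈ A → v = v') :
    ∃ σ : Equiv.Perm V, ∀ v w, (v, w) ∈ A → σ v = w := by
  classical
  let e : {v : V // ∃ w, (v, w) ∈ A} ≃ {w : V // ∃ v, (v, w) ∈ A} :=
    { toFun := fun v => ⟨v.2.choose, v.1, v.2.choose_spec⟩
      invFun := fun w => ⟨w.2.choose, w.1, w.2.choose_spec⟩
      left_inv := by
        intro v
        apply Subtype.ext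
        have h1 := v.2.choose_spec
        have h2 := (⟨v.1, v.2.choose_spec⟩ : ∃ v', (v', v.2.choose) ∈ A).choose_spec
        exact jA _ _ _ h2 h1
      right_inv := by
        intro w
        apply Subtype.ext
        have h1 := w.2.choose_spec
        have h2 := (⟨w.1, w.2.choose_spec⟩ : ∃ w', (w.2.choose, w') ∈ A).choose_spec
        exact iA _ _ _ h2 h1 }
  refine ⟨e.extendSubtype, fun v w hvw => ?_⟩
  rw [Equiv.extendSubtype_apply_of_mem e v ⟨w, hvw⟩]
  have h1 := (⟨w, hvw⟩ : ∃ w', (v, w') ∈ A).choose_spec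
  exact iA _ _ _ h1 hvw

private theorem cmp4_cnt {V : Type} [Finite V] (A B : Set V) (R : V → V → Prop)
    (h1 : ∀ v ∈ A, ∃ w, w ∈ B ∧ R v w) (h2 : ∀ v v' w, R v w → R v' w → v = v') : A.ncard ≤ B.ncard := by
  classical
  choose! f hf hR using h1
  refine Set.ncard_le_ncard_of_injOn f hf (fun v hv v' hv' e => ?_) (Set.toFinite _)
  refine h2 v v' (f v) (hR v hv) ?_
  rw [e]
  exact hR v' hv'

omit [Fintype S] [Fintype I] [DecidableEq S] [DecidableEq I] in
private theorem cmp4_stp (E : S → Set (V × V)) (X : S → Equiv.Perm V)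
    (hX : ∀ s v w, (v, w) ∈ E s → X s v = w) (c : Ps r) (v w : V) (h : Stp E c v w) :
    w = ac X (val (lp c, sg c)) v := by
  unfold Stp at h
  unfold val
  by_cases hs : sg c = true
  · rw [if_pos hs] at h
    show w = ac X (if sg c = true then FreeGroup.of (lp c) else (FreeGroup.of (lp c))⁻¹) v
    rw [if_pos hs]
    have e : ac X (FreeGroup.of (lp c)) = X (lp c) := by simp
    rw [e]
    exact (hX _ _ _ h).symm
  · rw [if_neg hs] at h
    show w = ac X (if sg c = true then FreeGroup.of (lp c) else (FreeGroup.of (lp c))⁻¹) v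
    rw [if_neg hs]
    have e : ac X (FreeGroup.of (lp c))⁻¹ = (X (lp c))⁻¹ := by simp
    rw [e, ← hX _ _ _ h]
    simp

omit [Fintype S] [Fintype I] [DecidableEq S] [DecidableEq I] in
private theorem cmp4_cons (a : S × Bool) (l : List (S × Bool)) : pv (a :: l) = pv l * val a := by
  simp [pv]

omit [Fintype S] [Fintype I] [DecidableEq S] [DecidableEq I] in
private theorem cmp4_pth (E : S → Set (V × V)) (X : S → Equiv.Perm V)
    (hX : ∀ s v w, (v, w) ∈ E s → X s v = w) (n : ℕ) : ∀ (i : I) (j : ℕ) (hj : j < (r i).length) (v u : V),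
    j + n ≤ (r i).length → Pth E n (⟨i, ⟨j, hj⟩⟩ : Ps r) v u →
      u = ac X (pv (((r i).drop j).take n)) v := by
  induction n with
  | zero =>
    intro i j hj v u _ h
    have h' : v = u := h
    rw [List.take_zero, pv_nil, map_one, h']
    rfl
  | succ n ih =>
    intro i j hj v u hn h
    obtain ⟨w, h1, h2⟩ := h
    have h3 := cmp4_stp E X hX _ v w h1
    have h4 : (r i).drop j = (r i)[j] :: (r i).drop (j + 1) := List.drop_eq_getElem_cons hj
    have h5 : val (lp (⟨i, ⟨j, hj⟩⟩ : Ps r), sg (⟨i, ⟨j, hj⟩⟩ : Ps r)) = val ((r i)[j]) := rfl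
    rw [h4, List.take_succ_cons, cmp4_cons, map_mul, Equiv.Perm.mul_apply, ← h5, ← h3]
    by_cases hj1 : j + 1 < (r i).length
    · have h6 : nx (⟨i, ⟨j, hj⟩⟩ : Ps r) = ⟨i, ⟨j + 1, hj1⟩⟩ := by
        unfold nx
        congr 2
        exact Nat.mod_eq_of_lt hj1
      rw [h6] at h2
      exact ih i (j + 1) hj1 w u (by omega) h2
    · have hn0 : n = 0 := by omega
      subst hn0
      have h' : w = u := h2
      rw [List.take_zero, pv_nil, map_one, h']
      rfl

omit [Fintype S] [Fintype I] [DecidableEq S] [DecidableEq I] in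
private theorem cmp4_no (E : S → Set (V × V)) (c : Ps r) (w : V) (h : ¬ ∃ u, Stp E c w u) :
    w ∈ mo E (lp c) ∨ w ∈ mi E (lp c) := by
  unfold Stp at h
  by_cases hs : sg c = true
  · left
    rintro ⟨u, hu⟩
    exact h ⟨u, by rw [if_pos hs]; exact hu⟩
  · right
    rintro ⟨u, hu⟩
    exact h ⟨u, by rw [if_neg hs]; exact hu⟩

omit [Fintype S] [Fintype I] [DecidableEq S] [DecidableEq I] in
private theorem cmp4_no' (E : S → Set (V × V)) (c : Ps r) (w : V) (h : ¬ ∃ u, Stp E c u w) :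
    w ∈ mo E (lp c) ∨ w ∈ mi E (lp c) := by
  unfold Stp at h
  by_cases hs : sg c = true
  · right
    rintro ⟨u, hu⟩
    exact h ⟨u, by rw [if_pos hs]; exact hu⟩
  · left
    rintro ⟨u, hu⟩
    exact h ⟨u, by rw [if_neg hs]; exact hu⟩

private theorem cmp4_miss [Finite V] (sy : Psy r P Λ) (om : V → Bag r P Λ) (E : S → Set (V × V)) :
    {w | ∃ s, w ∈ mo E s ∨ w ∈ mi E s}.ncard ≤
      nT sy.dir om E + ∑ q : Ps r, ((mT sy om E q 0).ncard + (mS sy om E q 0).ncard) := by
  have hsub : {w | ∃ s, w ∈ mo E s ∨ w ∈ mi E s} ⊆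
      (⋃ s ∈ (Finset.univ : Finset S), ({v | v ∈ mo E s ∧ ¬ TT sy.dir s (src s (om v))} ∪
        {v | v ∈ mi E s ∧ ¬ TT sy.dir s (tgt s (om v))})) ∪
      (⋃ q ∈ (Finset.univ : Finset (Ps r)), (mT sy om E q 0 ∪ mS sy om E q 0)) := by
    rintro w ⟨s, hw | hw⟩
    · by_cases hT : TT sy.dir s (src s (om w))
      · obtain ⟨⟨q, hq⟩, h1⟩ := hT
        right
        subst hq
        exact Set.mem_biUnion (Finset.mem_coe.2 (Finset.mem_univ q)) (Or.inl ⟨hw, h1, Nat.zero_le _⟩)
      · left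
        exact Set.mem_biUnion (Finset.mem_coe.2 (Finset.mem_univ s)) (Or.inl ⟨hw, hT⟩)
    · by_cases hT : TT sy.dir s (tgt s (om w))
      · obtain ⟨⟨q, hq⟩, h1⟩ := hT
        right
        subst hq
        exact Set.mem_biUnion (Finset.mem_coe.2 (Finset.mem_univ q)) (Or.inr ⟨hw, h1, Nat.zero_le _⟩)
      · left
        exact Set.mem_biUnion (Finset.mem_coe.2 (Finset.mem_univ s)) (Or.inr ⟨hw, hT⟩)
  refine (Set.ncard_le_ncard hsub (Set.toFinite _)).trans ((Set.ncard_union_le _ _).trans ?_)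
  refine add_le_add ((Finset.set_ncard_biUnion_le _ _).trans (Finset.sum_le_sum fun s _ => ?_))
    ((Finset.set_ncard_biUnion_le _ _).trans (Finset.sum_le_sum fun q _ => ?_))
  · exact Set.ncard_union_le _ _
  · exact Set.ncard_union_le _ _

theorem cmp [Finite V] (hr : ∀ i, 0 < (r i).length) (sy : Psy r P Λ) (D : ℕ) (hD : ∀ p, sy.ht p ≤ D)
    (om : V → Bag r P Λ) (hsup : ∀ v, Sup sy (om v)) (M : S → Equiv.Perm V) :
    ∃ X : S → Equiv.Perm V,
      (∀ s, {v | ¬ TT sy.dir s (src s (om v)) ∧ X s v ≠ M s v}.ncard ≤ (um sy.dir om M s).ncard) ∧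
      ((Mis om X).ncard : ℝ) ≤ Bc r D * Kr sy.dir om M ∧
      ((defs r X).ncard : ℝ) ≤ ∑ i, ({v | sy.dir ((om v).1 (bc hr i)) = none}.ncard : ℝ) +
        Bc r D * Kr sy.dir om M := by
  classical
  obtain ⟨E, h⟩ := cmp1 sy om hsup M
  choose X hX using fun s => cmp4_ext (E s) (h.iE s) (h.jE s)
  obtain ⟨c, hc⟩ : ∃ c : ℕ, c = Fintype.card (Ps r) := ⟨_, rfl⟩
  obtain ⟨U, hU⟩ : ∃ U : ℕ, U = nT sy.dir om E + ∑ q : Ps r, ((mT sy om E q 0).ncard + (mS sy om E q 0).ncard) :=
    ⟨_, rfl⟩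
  have hml := miss_le sy om hsup M E h D hD
  rw [← hU, ← hc] at hml
  obtain ⟨B, hB⟩ : ∃ B : Set V, B = {w | ∃ s, w ∈ mo E s ∨ w ∈ mi E s} := ⟨_, rfl⟩
  have hBU : B.ncard ≤ U := by
    rw [hB, hU]
    exact cmp4_miss sy om E
  have hU0 : (0 : ℝ) ≤ U := Nat.cast_nonneg _
  have hc0 : (0 : ℝ) ≤ c := Nat.cast_nonneg _
  have hBc : 2 * ((c : ℝ) + 1) * U ≤ Bc r D * Kr sy.dir om M := by
    unfold Bc
    rw [← hc]
    calc 2 * ((c : ℝ) + 1) * U ≤ 2 * ((c : ℝ) + 1) * ((2 * (c : ℝ) ^ 2 + 1) ^ (D + 1) * (2 * Kr sy.dir om M)) :=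
          mul_le_mul_of_nonneg_left hml (by positivity)
      _ = _ := by ring
  have hdefs : (defs r X).ncard ≤ ∑ i, {v | sy.dir ((om v).1 (bc hr i)) = none}.ncard + (c * U + c * U) := by
    have hsub : defs r X ⊆ (⋃ i ∈ (Finset.univ : Finset I), {v | sy.dir ((om v).1 (bc hr i)) = none}) ∪
        ((⋃ q ∈ (Finset.univ : Finset (Ps r)), {v | ∃ w, w ∈ B ∧ Pth E q.2.1 (bc hr q.1) v w}) ∪
        (⋃ q ∈ (Finset.univ : Finset (Ps r)),
          {v | ∃ w, w ∈ B ∧ Pth E q.2.1 (nx^[(r q.1).length - q.2.1] (bc hr q.1)) w v})) := by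
      rintro v ⟨i, hv⟩
      by_cases hd : sy.dir ((om v).1 (bc hr i)) = none
      · left
        exact Set.mem_biUnion (Finset.mem_coe.2 (Finset.mem_univ i)) hd
      right
      obtain ⟨p, hp⟩ := Option.ne_none_iff_exists'.1 hd
      have hp1 : p.1 = i := (sy.d1 _ _ hp).trans ((hsup v).s0 (bc hr i))
      obtain ⟨i', ⟨j, hj⟩⟩ := p
      have hp2 : i' = i := hp1
      subst hp2
      rcases pth_or E j (bc hr i') v with ⟨a, ha⟩ | ⟨k, hk, w, h1, h2⟩
      swap
      · left
        refine Set.mem_biUnion (Finset.mem_coe.2 (Finset.mem_univ (⟨i', ⟨k, hk.trans hj⟩⟩ : Ps r))) ?_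
        exact ⟨w, by rw [hB]; exact ⟨_, cmp4_no E _ w h2⟩, h1⟩
      rcases pth_or' E ((r i').length - 1 - j) (nx (⟨i', ⟨j, hj⟩⟩ : Ps r)) v with ⟨b, hb⟩ | ⟨k, hk, w, h1, h2⟩
      swap
      · right
        have hkl : k < (r i').length := by omega
        refine Set.mem_biUnion (Finset.mem_coe.2 (Finset.mem_univ (⟨i', ⟨k, hkl⟩⟩ : Ps r))) ?_
        refine ⟨w, by rw [hB]; exact ⟨_, cmp4_no' E _ w h2⟩, ?_⟩
        have e : nx^[(r i').length - 1 - j - k] (nx (⟨i', ⟨j, hj⟩⟩ : Ps r)) =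
            nx^[(r i').length - k] (bc hr i') := by
          rw [← Function.iterate_succ_apply, nx_iter, nx_iter]
          unfold bc
          congr 2
          show (j + ((r i').length - 1 - j - k + 1)) % (r i').length = (0 + ((r i').length - k)) % (r i').length
          congr 1
          omega
        rw [e] at h1
        exact h1
      exfalso
      apply hv
      have e1 : nx^[j] (bc hr i') = (⟨i', ⟨j, hj⟩⟩ : Ps r) := by
        rw [nx_iter]
        unfold bc
        congr 2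
        show (0 + j) % (r i').length = j
        rw [zero_add, Nat.mod_eq_of_lt hj]
      have e2 : nx^[(r i').length - 1 - j] (nx (⟨i', ⟨j, hj⟩⟩ : Ps r)) = bc hr i' := by
        rw [← Function.iterate_succ_apply, nx_iter]
        unfold bc
        congr 2
        show (j + ((r i').length - 1 - j + 1)) % (r i').length = 0
        have : j + ((r i').length - 1 - j + 1) = (r i').length := by omega
        rw [this, Nat.mod_self]
      have pa := pth_pat om E h.mE _ _ _ _ ha
      rw [e1] at pa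
      have pb := pth_pat om E h.mE _ _ _ _ hb
      rw [e2] at pb
      have hba : Pth E ((r i').length - 1) (nx (⟨i', ⟨j, hj⟩⟩ : Ps r)) b a := by
        have h3 := pth_add E ((r i').length - 1 - j) j (nx (⟨i', ⟨j, hj⟩⟩ : Ps r)) b v a hb (by rw [e2]; exact ha)
        have h4 : (r i').length - 1 - j + j = (r i').length - 1 := by omega
        rwa [h4] at h3
      have hst : Stp E (⟨i', ⟨j, hj⟩⟩ : Ps r) a b := by
        unfold Stp
        by_cases hs : sg (⟨i', ⟨j, hj⟩⟩ : Ps r) = true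
        · rw [if_pos hs]
          have hsc : sc (⟨i', ⟨j, hj⟩⟩ : Ps r) = ⟨i', ⟨j, hj⟩⟩ := by unfold sc; rw [if_pos hs]
          have htc : tc (⟨i', ⟨j, hj⟩⟩ : Ps r) = nx ⟨i', ⟨j, hj⟩⟩ := by unfold tc; rw [if_pos hs]
          refine h.cE _ a b ?_ ?_ ?_
          · rw [hsc, pa]
            exact hp
          · rw [hsc, htc, pa, pb]
          · unfold Rel
            rw [if_pos hs]
            exact hba
        · rw [if_neg hs]
          have hsc : sc (⟨i', ⟨j, hj⟩⟩ : Ps r) = nx ⟨i', ⟨j, hj⟩⟩ := by unfold sc; rw [if_neg hs]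
          have htc : tc (⟨i', ⟨j, hj⟩⟩ : Ps r) = ⟨i', ⟨j, hj⟩⟩ := by unfold tc; rw [if_neg hs]
          refine h.cE _ b a ?_ ?_ ?_
          · rw [hsc, ← pb]
            exact hp
          · rw [hsc, htc, pa, pb]
          · unfold Rel
            rw [if_neg hs]
            exact hba
      have hav : Pth E ((r i').length - 1 - j + 1) (⟨i', ⟨j, hj⟩⟩ : Ps r) a v := ⟨b, hst, hb⟩
      have hvv := pth_add E j ((r i').length - 1 - j + 1) (bc hr i') v a v ha (by rw [e1]; exact hav)
      have h5 : j + ((r i').length - 1 - j + 1) = (r i').length := by omega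
      rw [h5] at hvv
      have h6 := cmp4_pth E X hX (r i').length i' 0 (hr i') v v (by omega) hvv
      rw [List.drop_zero, List.take_length] at h6
      exact h6.symm
    refine (Set.ncard_le_ncard hsub (Set.toFinite _)).trans ((Set.ncard_union_le _ _).trans ?_)
    refine add_le_add (Finset.set_ncard_biUnion_le _ _) ((Set.ncard_union_le _ _).trans ?_)
    have hcU : c * U = ∑ _q : Ps r, U := by
      rw [Finset.sum_const, Finset.card_univ, hc, smul_eq_mul]
    rw [hcU]
    refine add_le_add ((Finset.set_ncard_biUnion_le _ _).trans (Finset.sum_le_sum fun q _ => ?_))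
      ((Finset.set_ncard_biUnion_le _ _).trans (Finset.sum_le_sum fun q _ => ?_))
    · exact (cmp4_cnt _ B (fun v w => Pth E q.2.1 (bc hr q.1) v w) (fun v hv => hv)
        (fun v v' w h1 h2 => pth_inj E h.iE h.jE _ _ _ _ _ h1 h2)).trans hBU
    · exact (cmp4_cnt _ B (fun v w => Pth E q.2.1 (nx^[(r q.1).length - q.2.1] (bc hr q.1)) w v)
        (fun v hv => hv) (fun v v' w h1 h2 => pth_fun E h.iE h.jE _ _ _ _ _ h1 h2)).trans hBU
  refine ⟨X, ?_, ?_, ?_⟩
  · intro s
    refine Set.ncard_le_ncard ?_ (Set.toFinite _)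
    rintro v ⟨h1, h2⟩
    by_contra h3
    exact h2 (hX s _ _ (h.sE s v h3 h1))
  · have hM : (Mis om X).ncard ≤ U := by
      refine le_trans (Set.ncard_le_ncard ?_ (Set.toFinite _)) hBU
      rintro v ⟨s, hs⟩
      rw [hB]
      refine ⟨s, Or.inl ?_⟩
      rintro ⟨w, hw⟩
      apply hs
      rw [hX s v w hw]
      exact h.mE s v w hw
    have hM' : ((Mis om X).ncard : ℝ) ≤ U := by exact_mod_cast hM
    nlinarith [mul_nonneg hc0 hU0]
  · have h1 : ((defs r X).ncard : ℝ) ≤ ((∑ i, {v | sy.dir ((om v).1 (bc hr i)) = none}.ncard +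
        (c * U + c * U) : ℕ) : ℝ) := by exact_mod_cast hdefs
    push_cast at h1
    nlinarith [mul_nonneg hc0 hU0]

end H33.HN
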