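import Pool.Agent.H33.HN.DefsK

/-! # HN.CntH : cardinalities of the patterns and of the shapes

PROOF. `λ := Nat.card Λ`, `c := ml (rh U V) + 1`. `card (Cl i) = λ ^ |r_i| ≤ (λ + 1)^c`; the lists of length at most `K` over a set with `a` elements: at most `(a + 1)^K` (an injection into `Fin K → Option _`, or `∑_(j ≤ K) a^j`), so `card (Bl K i) ≤ (λ + 2)^(c (2 K + 1))` (`(λ + 1)^c + 1 ≤ (λ + 2)^(2 c)`-type bounds). `card (PX) ≤ m * (λ + 2)^(..(N + 1)) * (1 + ((λ + 2)^(..(N + 1)))^(card (Ps r)))` and `m ≤ 2^m ≤ (λ + 2)^m`, `1 + a ≤ 2 a ≤ (λ + 2) a` for `a ≥ 1`. So everything is at most `(λ + 2)^(C1 (N + 1))`.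
`card (Bag) = card (PX)^(card (Ps r)) * (λ * λ^(card S))`. Shapes: `card (Sx) ≤ m * (2 N + 1) * (1 + (N + 1)^(card (Ps r)))`, `m ≤ 2^m ≤ (N + 2)^m`, `2 N + 1 ≤ (N + 2)^2`. (`Nat.card_prod`, `Nat.card_fun`, `Nat.card_sigma`, `Finite.card_option`.) -/

set_option autoImplicit false
set_option synthInstance.maxSize 4000

open MeasureTheory H31.BE

namespace H33.HN

private theorem CntH_opt {X : Type} [Finite X] {A e : ℕ} (hA : 2 ≤ A) (h : Nat.card X ≤ A ^ e) :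
    Nat.card (Option X) ≤ A ^ (e + 1) := by
  rw [Finite.card_option, pow_succ]
  have h1 : 1 ≤ A ^ e := Nat.one_le_pow _ _ (by omega)
  nlinarith

private theorem CntH_fun {ι X : Type} [Finite ι] {A e n : ℕ} (hA : 2 ≤ A) (h : Nat.card X ≤ A ^ e)
    (hn : Nat.card ι ≤ n) : Nat.card (ι → X) ≤ A ^ (e * n) := by
  rw [Nat.card_fun]
  calc Nat.card X ^ Nat.card ι ≤ (A ^ e) ^ Nat.card ι := Nat.pow_le_pow_left h _
    _ = A ^ (e * Nat.card ι) := (pow_mul _ _ _).symm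
    _ ≤ A ^ (e * n) := Nat.pow_le_pow_right (by omega) (Nat.mul_le_mul_left _ hn)

private theorem CntH_prod {X Y : Type} {A e e' : ℕ} (h : Nat.card X ≤ A ^ e) (h' : Nat.card Y ≤ A ^ e') :
    Nat.card (X × Y) ≤ A ^ (e + e') := by
  rw [Nat.card_prod, pow_add]
  exact Nat.mul_le_mul h h'

private theorem CntH_lt (X : Type) (K : ℕ) :
    Function.Injective (fun (l : {l : List X // l.length ≤ K}) (i : Fin K) => l.1[(i : ℕ)]?) := by
  intro l l' h
  refine Subtype.ext (List.ext_getElem? fun i => ?_)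
  by_cases hi : i < K
  · exact congrFun h ⟨i, hi⟩
  · rw [List.getElem?_eq_none (by have := l.2; omega), List.getElem?_eq_none (by have := l'.2; omega)]

private theorem CntH_listf (X : Type) [Finite X] (K : ℕ) : Finite {l : List X // l.length ≤ K} :=
  Finite.of_injective _ (CntH_lt X K)

private theorem CntH_list {X : Type} [Finite X] {A e : ℕ} (hA : 2 ≤ A) (h : Nat.card X ≤ A ^ e) (K : ℕ) :
    Nat.card {l : List X // l.length ≤ K} ≤ A ^ ((e + 1) * K) := by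
  refine (Nat.card_le_card_of_injective _ (CntH_lt X K)).trans ?_
  refine CntH_fun hA (CntH_opt hA h) ?_
  rw [Nat.card_eq_fintype_card, Fintype.card_fin]

private theorem CntH_sig {m : ℕ} {β : Fin m → Type} [∀ i, Finite (β i)] {A E : ℕ} (hA : 2 ≤ A)
    (h : ∀ i, Nat.card (β i) ≤ A ^ E) : Nat.card (Sigma β) ≤ A ^ (m + E) := by
  rw [Nat.card_sigma]
  calc ∑ i, Nat.card (β i) ≤ ∑ _i : Fin m, A ^ E := Finset.sum_le_sum fun i _ => h i
    _ = m * A ^ E := by rw [Finset.sum_const, Finset.card_univ, Fintype.card_fin, smul_eq_mul]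
    _ ≤ A ^ m * A ^ E := by
      refine Nat.mul_le_mul_right _ ?_
      exact (Nat.lt_two_pow_self (n := m)).le.trans (Nat.pow_le_pow_left hA m)
    _ = A ^ (m + E) := (pow_add _ _ _).symm

private theorem CntH_bl {S I : Type} (r : Rl S I) (Λ : Type) [Finite Λ] (K : ℕ) (i : I) {c : ℕ}
    (hc : (r i).length ≤ c) :
    Finite (Bl r Λ K i) ∧ Nat.card (Bl r Λ K i) ≤ (Nat.card Λ + 2) ^ (c + (c + 1) * K) := by
  have hA : 2 ≤ Nat.card Λ + 2 := by omega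
  have h1 : Nat.card (Cl r Λ i) ≤ (Nat.card Λ + 2) ^ c := by
    have h2 : Nat.card (Cl r Λ i) ≤ (Nat.card Λ + 2) ^ (1 * c) := by
      refine CntH_fun hA ?_ ?_
      · rw [pow_one]
        omega
      · rw [Nat.card_eq_fintype_card, Fintype.card_fin]
        exact hc
    rwa [one_mul] at h2
  have hf : Finite {l : List (Cl r Λ i) // l.length ≤ K} := CntH_listf _ K
  exact ⟨inferInstanceAs (Finite (Cl r Λ i × {l : List (Cl r Λ i) // l.length ≤ K})), CntH_prod h1 (CntH_list hA h1 K)⟩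

private theorem CntH_px {k m : ℕ} (U V : Fin m → Wl k) (Λ : Type) [Finite Λ] (N : ℕ) {c P : ℕ}
    (hc : ∀ i, (rh U V i).length ≤ c) (hP : Nat.card (Ps (rh U V)) ≤ P) :
    Finite (PX U V Λ N) ∧
    Nat.card (PX U V Λ N) ≤ (Nat.card Λ + 2) ^ (m + ((c + (c + 1) * (2 * N)) + ((c + (c + 1) * N) * P + 1))) := by
  have hA : 2 ≤ Nat.card Λ + 2 := by omega
  have hfn : ∀ i, Finite ((q : {q : Ps (rh U V) // Al (sp U V i) q}) → Bl (rh U V) Λ N q.1.1) := by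
    intro i
    have := fun q : {q : Ps (rh U V) // Al (sp U V i) q} => (CntH_bl (rh U V) Λ N q.1.1 (hc q.1.1)).1
    exact inferInstance
  have hf2 : ∀ i, Finite (Bl (rh U V) Λ (2 * N) i) := fun i => (CntH_bl (rh U V) Λ (2 * N) i (hc i)).1
  have hf3 : ∀ i, Finite (Bl (rh U V) Λ (2 * N) i ×
      Option ((q : {q : Ps (rh U V) // Al (sp U V i) q}) → Bl (rh U V) Λ N q.1.1)) := fun i => inferInstance
  refine ⟨inferInstanceAs (Finite (Σ i : Fin m, Bl (rh U V) Λ (2 * N) i ×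
      Option ((q : {q : Ps (rh U V) // Al (sp U V i) q}) → Bl (rh U V) Λ N q.1.1))), ?_⟩
  refine CntH_sig hA fun i => ?_
  refine CntH_prod (CntH_bl (rh U V) Λ (2 * N) i (hc i)).2 (CntH_opt hA ?_)
  rw [Nat.card_pi]
  calc ∏ q : {q : Ps (rh U V) // Al (sp U V i) q}, Nat.card (Bl (rh U V) Λ N q.1.1) ≤
        ∏ _q : {q : Ps (rh U V) // Al (sp U V i) q}, (Nat.card Λ + 2) ^ (c + (c + 1) * N) :=
        Finset.prod_le_prod' fun q _ => (CntH_bl (rh U V) Λ N q.1.1 (hc q.1.1)).2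
    _ = (Nat.card Λ + 2) ^ ((c + (c + 1) * N) * Nat.card {q : Ps (rh U V) // Al (sp U V i) q}) := by
        rw [Finset.prod_const, Finset.card_univ, ← pow_mul,
          ← Nat.card_eq_fintype_card (α := {q : Ps (rh U V) // Al (sp U V i) q})]
    _ ≤ (Nat.card Λ + 2) ^ ((c + (c + 1) * N) * P) := by
        refine Nat.pow_le_pow_right (by omega) (Nat.mul_le_mul_left _ ?_)
        exact (Finite.card_subtype_le _).trans hP

private theorem CntH_c {k m : ℕ} (U V : Fin m → Wl k) : ∃ c, ∀ i, (rh U V i).length ≤ c :=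
  ⟨Finset.univ.sup fun i => (rh U V i).length, fun i => Finset.le_sup (f := fun i => (rh U V i).length) (Finset.mem_univ i)⟩

private theorem CntH_px2 {k m : ℕ} (U V : Fin m → Wl k) : ∃ C1 : ℕ, ∀ (Λ : Type) [Finite Λ] (N : ℕ),
    Finite (PX U V Λ N) ∧ Nat.card (PX U V Λ N) ≤ (Nat.card Λ + 2) ^ (C1 * (N + 1)) := by
  obtain ⟨c, hc⟩ := CntH_c U V
  obtain ⟨P, hP⟩ : ∃ P, Nat.card (Ps (rh U V)) ≤ P := ⟨_, le_rfl⟩
  refine ⟨(m + 1 + c + c * P) + (2 * (c + 1) + (c + 1) * P), fun Λ _ N => ?_⟩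
  obtain ⟨h1, h2⟩ := CntH_px U V Λ N hc hP
  refine ⟨h1, h2.trans (Nat.pow_le_pow_right (by omega) ?_)⟩
  have e : (m + 1 + c + c * P + (2 * (c + 1) + (c + 1) * P)) * (N + 1) =
      (m + ((c + (c + 1) * (2 * N)) + ((c + (c + 1) * N) * P + 1))) +
        ((m + 1 + c + c * P) * N + (2 * (c + 1) + (c + 1) * P)) := by ring
  rw [e]
  exact Nat.le_add_right _ _

theorem cnt_PX {k m : ℕ} (U V : Fin m → Wl k) : ∃ C1 : ℕ, ∀ (Λ : Type) [Finite Λ] (N : ℕ),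
    Nat.card (PX U V Λ N) ≤ (Nat.card Λ + 2) ^ (C1 * (N + 1)) := by
  obtain ⟨C1, h⟩ := CntH_px2 U V
  exact ⟨C1, fun Λ _ N => (h Λ N).2⟩

theorem cnt_bag {k m : ℕ} (U V : Fin m → Wl k) : ∃ C1 : ℕ, ∀ (Λ : Type) [Finite Λ] (N : ℕ),
    Nat.card (Bag (rh U V) (PX U V Λ N) Λ) ≤ (Nat.card Λ + 2) ^ (C1 * (N + 1)) := by
  obtain ⟨C1, h⟩ := CntH_px2 U V
  obtain ⟨P, hP⟩ : ∃ P, Nat.card (Ps (rh U V)) ≤ P := ⟨_, le_rfl⟩
  obtain ⟨S, hS⟩ : ∃ S, Nat.card (Lh k m) ≤ S := ⟨_, le_rfl⟩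
  refine ⟨C1 * P + (1 + 1 * S), fun Λ _ N => ?_⟩
  have hA : 2 ≤ Nat.card Λ + 2 := by omega
  have hL : Nat.card Λ ≤ (Nat.card Λ + 2) ^ 1 := by
    rw [pow_one]
    omega
  have h1 : Nat.card (Bag (rh U V) (PX U V Λ N) Λ) ≤ (Nat.card Λ + 2) ^ (C1 * (N + 1) * P + (1 + 1 * S)) :=
    CntH_prod (CntH_fun hA (h Λ N).2 hP) (CntH_prod hL (CntH_fun hA hL hS))
  refine h1.trans (Nat.pow_le_pow_right (by omega) ?_)
  have e : (C1 * P + (1 + 1 * S)) * (N + 1) = (C1 * (N + 1) * P + (1 + 1 * S)) + (1 + 1 * S) * N := by ring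
  rw [e]
  exact Nat.le_add_right _ _

theorem cnt_Sx {k m : ℕ} (U V : Fin m → Wl k) : ∃ C1 : ℕ, ∀ (s : Lh k m) (N : ℕ),
    Nat.card ({q : Ps (rh U V) // lp q = s} → Sx U V N) ≤ (N + 2) ^ C1 := by
  obtain ⟨P, hP⟩ : ∃ P, Nat.card (Ps (rh U V)) ≤ P := ⟨_, le_rfl⟩
  refine ⟨(m + (2 + (1 * P + 1))) * P, fun s N => ?_⟩
  have hA : 2 ≤ N + 2 := by omega
  refine CntH_fun hA ?_ ((Finite.card_subtype_le _).trans hP)
  refine CntH_sig hA fun i => ?_
  refine CntH_prod ?_ (CntH_opt hA (CntH_fun hA ?_ ((Finite.card_subtype_le _).trans hP)))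
  · rw [Nat.card_eq_fintype_card, Fintype.card_fin]
    nlinarith
  · rw [Nat.card_eq_fintype_card, Fintype.card_fin, pow_one]
    omega

end H33.HN
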