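import Pool.Agent.H33.HN.DefsP
import Pool.Agent.H33.HN.RepA

/-! # HN.Cons : consistency of the labels along words (exact transport)

PROOF. Compare H33/BO/Cons. For `v ∉ Mis` and every letter `s`: `tgt s (om (X s v)) = src s (om v)`, the label components: `(om (X s v)).2.2 s = (om v).2.1`, i.e. by `hom` `win lb _ ((g s)⁻¹ • y (X s v)) = win lb _ (y v)`: (T) `lb (h • (g s)⁻¹ • y (X s v)) = lb (h • y v)` for `h ∈ ball (SS g) R`.
Induction on `f.norm` (or on the list `f.toWord`), generalizing `v`. `f = 1`: trivial. `f = f1 * (of s)^(±1)` with `f1.norm = f.norm - 1` (last letter of the reduced word). Let `v' = (X s)^(±1) v`; `f1`, `v'` satisfy the hypothesis (`ac X f' v' = ac X (f' * (of s)^(±1)) v`), so `lb (lift g f1 • y v') = lb (y (ac X f1 v')) = lb (y (ac X f v))`.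
Sign +: (T) at `v ∉ Mis` with `h = lift g f = lift g f1 * g s ∈ ball R` (`mem_ball`): `lb (lift g f1 • y v') = lb (lift g f • y v)`. Sign -: (T) at `v' ∉ Mis` (`f' = (of s)⁻¹`), `X s v' = v`, with `h = lift g f1 ∈ ball R`: `lb (lift g f1 • (g s)⁻¹ • y v) = lb (lift g f1 • y v')`. -/

set_option autoImplicit false
set_option synthInstance.maxSize 4000

open MeasureTheory H31.BE

namespace H33.HN

variable {S I : Type} [Fintype S] [DecidableEq S] {r : Rl S I} {G Y Λ P V : Type} [Group G] [DecidableEq G]
  [MulAction G Y] (g : S → G) (lb : Y → Λ) (R : ℕ) (φ : I → Y → P)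
  (om : V → Bag r P (↥(ball (SS g) R) → Λ)) (y : V → Y)
  (hom : ∀ v, om v = bgp g (win lb (ball (SS g) R)) φ (y v)) (X : S → Equiv.Perm V)

include hom

private theorem cons_T (u : V) (hu : u ∉ Mis om X) (s : S) (h : G) (hh : h ∈ ball (SS g) R) :
    lb (h • (g s)⁻¹ • y (X s u)) = lb (h • y u) := by
  have h1 : tgt s (om (X s u)) = src s (om u) := by
    by_contra hcon
    exact hu ⟨s, hcon⟩
  rw [hom, hom] at h1
  have h2 : win lb (ball (SS g) R) ((g s)⁻¹ • y (X s u)) = win lb (ball (SS g) R) (y u) :=
    congrArg Prod.snd h1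
  exact congrFun h2 ⟨h, hh⟩

private theorem cons_aux (n : ℕ) : ∀ (v : V) (f : FreeGroup S),
    f.norm ≤ n → n ≤ R → (∀ f' : FreeGroup S, f'.norm ≤ n → ac X f' v ∉ Mis om X) →
    lb (FreeGroup.lift g f • y v) = lb (y (ac X f v)) := by
  induction n with
  | zero =>
    intro v f hf _ _
    have h1 : f = 1 := FreeGroup.norm_eq_zero.1 (Nat.le_zero.1 hf)
    rw [h1, map_one, map_one, one_smul]
    rfl
  | succ n ih =>
    intro v f hf hR hgd
    rcases List.eq_nil_or_concat f.toWord with h0 | ⟨L, ⟨s, c⟩, hL⟩
    · have h1 : f = 1 := FreeGroup.toWord_eq_nil_iff.1 h0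
      rw [h1, map_one, map_one, one_smul]
      rfl
    · have hLn : L.length ≤ n := by
        have h1 : f.norm = f.toWord.length := rfl
        rw [hL] at h1
        simp only [List.concat_eq_append, List.length_append, List.length_cons, List.length_nil] at h1
        omega
      have hf1 : (FreeGroup.mk L : FreeGroup S).norm ≤ n := FreeGroup.norm_mk_le.trans hLn
      have hfe : f = FreeGroup.mk L * FreeGroup.mk [(s, c)] := by
        rw [← FreeGroup.mk_toWord (x := f), hL, FreeGroup.mul_mk, List.concat_eq_append]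
      have he : (FreeGroup.mk [(s, c)] : FreeGroup S).norm ≤ 1 := FreeGroup.norm_mk_le
      have hih := ih (ac X (FreeGroup.mk [(s, c)]) v) (FreeGroup.mk L) hf1 (by omega) (by
        intro f' hf'
        have h2 := hgd (f' * FreeGroup.mk [(s, c)])
          ((FreeGroup.norm_mul_le _ _).trans (Nat.add_le_add hf' he))
        rwa [map_mul, Equiv.Perm.mul_apply] at h2)
      have h3 : ac X f v = ac X (FreeGroup.mk L) (ac X (FreeGroup.mk [(s, c)]) v) := by
        rw [hfe, map_mul, Equiv.Perm.mul_apply]
      rw [h3, ← hih]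
      cases c with
      | true =>
        have h4 : ac X (FreeGroup.mk [(s, true)]) v = X s v := by
          change ac X (FreeGroup.of s) v = _
          rw [FreeGroup.lift_apply_of]
        have hv : v ∉ Mis om X := by
          have h5 := hgd 1 (by simp)
          rwa [map_one] at h5
        have h6 : FreeGroup.lift g f = FreeGroup.lift g (FreeGroup.mk L) * g s := by
          rw [hfe, map_mul]
          change _ * FreeGroup.lift g (FreeGroup.of s) = _
          rw [FreeGroup.lift_apply_of]
        have h5 := cons_T g lb R φ om y hom X v hv s (FreeGroup.lift g f) (mem_ball g f R (hf.trans hR))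
        rw [h4, ← h5, h6, mul_smul, smul_inv_smul]
      | false =>
        have h4 : X s (ac X (FreeGroup.mk [(s, false)]) v) = v := by
          change X s (ac X (FreeGroup.of s)⁻¹ v) = v
          rw [map_inv, FreeGroup.lift_apply_of]
          exact Equiv.apply_symm_apply _ _
        have hv : ac X (FreeGroup.mk [(s, false)]) v ∉ Mis om X := hgd _ (he.trans (by omega))
        have h6 : FreeGroup.lift g f = FreeGroup.lift g (FreeGroup.mk L) * (g s)⁻¹ := by
          rw [hfe, map_mul]
          change _ * FreeGroup.lift g (FreeGroup.of s)⁻¹ = _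
          rw [map_inv, FreeGroup.lift_apply_of]
        have h5 := cons_T g lb R φ om y hom X _ hv s (FreeGroup.lift g (FreeGroup.mk L))
          (mem_ball g _ R (hf1.trans (by omega)))
        rw [h4] at h5
        rw [h6, mul_smul, h5]

theorem cons (v : V) (f : FreeGroup S) (hf : f.norm ≤ R)
    (hgd : ∀ f' : FreeGroup S, f'.norm ≤ f.norm → ac X f' v ∉ Mis om X) :
    lb (FreeGroup.lift g f • y v) = lb (y (ac X f v)) := by
  exact cons_aux g lb R φ om y hom X f.norm v f le_rfl hf hgd

end H33.HN
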