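import Pool.Agent.H33.HN.Defs

/-! # HN.CtF : continuity of the functional

PROOF. `Fn dir` is a finite sum of continuous functions (`Real.continuous_negMulLog`, finite sums, `if` with a condition that does not depend on `p`). Use `Metric.continuous_iff`-type in the finite product space `Bag r P Λ → ℝ` (sup metric), or `Continuous.continuousAt` and `Metric.continuousAt_iff`, `dist_pi_lt_iff`. -/

set_option autoImplicit false
set_option synthInstance.maxSize 4000

open MeasureTheory H31.BE

namespace H33.HN

theorem fn_cont {S I : Type} [Fintype S] [Finite I] {r : Rl S I} {P Λ : Type} [Finite (Bag r P Λ)]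
    [∀ s, Finite (Itf r s P Λ)] (dir : P → Option (Ps r)) (p : Bag r P Λ → ℝ) (ε : ℝ) (hε : 0 < ε) :
    ∃ η : ℝ, 0 < η ∧ ∀ p' : Bag r P Λ → ℝ, (∀ Φ, |p' Φ - p Φ| ≤ η) → Fn dir p' ≤ Fn dir p + ε := by
  classical
  have hc : Continuous (fun p : Bag r P Λ → ℝ => Fn dir p) := by
    unfold Fn Gn
    refine Continuous.sub ?_ ?_
    · exact continuous_finset_sum _ fun Φ _ => Real.continuous_negMulLog.comp (continuous_apply Φ)
    · refine continuous_finset_sum _ fun s _ => continuous_finset_sum _ fun q _ => ?_
      by_cases h : TT dir s q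
      · simp only [h, if_true]
        exact continuous_const
      · simp only [h, if_false]
        exact Real.continuous_negMulLog.comp (continuous_finset_sum _ fun Φ _ => continuous_apply Φ)
  letI := Fintype.ofFinite (Bag r P Λ)
  obtain ⟨δ, hδ, h⟩ := Metric.continuousAt_iff.1 (hc.continuousAt (x := p)) ε hε
  refine ⟨δ / 2, by positivity, fun p' hp' => ?_⟩
  have h1 : dist p' p < δ := by
    rw [dist_pi_lt_iff hδ]
    intro Φ
    rw [Real.dist_eq]
    exact lt_of_le_of_lt (hp' Φ) (by linarith)
  have h2 := h h1
  rw [Real.dist_eq] at h2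
  have := (abs_lt.1 h2).2
  linarith

end H33.HN
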