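import Pool.Agent.H33.HN.Defs

/-! # HN.DefsP : definitions for Part II (completion, decoding, the model). Definitions only. -/

set_option autoImplicit false
set_option synthInstance.maxSize 4000

open MeasureTheory H31.BE

namespace H33.HN

variable {S I : Type}

/-! ## Completion -/

section completion

variable {V P Λ : Type}

/-- the step along the edge `c` of a cell, from the corner `c` to the corner `nx c`, in a family of relations -/
def Stp {r : Rl S I} (E : S → Set (V × V)) (c : Ps r) (v u : V) : Prop :=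
  if sg c then (v, u) ∈ E (lp c) else (u, v) ∈ E (lp c)

/-- `n` steps around a cell, starting at the corner `c` -/
def Pth {r : Rl S I} (E : S → Set (V × V)) : ℕ → Ps r → V → V → Prop
  | 0, _, v, u => v = u
  | n + 1, c, v, u => ∃ w, Stp E c v w ∧ Pth E n (nx c) w u

/-- the two ends (source, target) of the edge `p` of a cell are joined by the path around the rest of the cell -/
def Rel {r : Rl S I} (E : S → Set (V × V)) (p : Ps r) (v w : V) : Prop :=
  if sg p then Pth E ((r p.1).length - 1) (nx p) w v else Pth E ((r p.1).length - 1) (nx p) v w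

/-- a maximal family of matched partial injections in which the relations hold at the T-edges -/
structure CP [Fintype S] [Fintype I] [DecidableEq S] [DecidableEq I] {r : Rl S I} (sy : Psy r P Λ)
    (om : V → Bag r P Λ) (M : S → Equiv.Perm V) (E : S → Set (V × V)) : Prop where
  iE : ∀ s v w w', (v, w) ∈ E s → (v, w') ∈ E s → w = w'
  jE : ∀ s v v' w, (v, w) ∈ E s → (v', w) ∈ E s → v = v'
  sE : ∀ s v, v ∉ um sy.dir om M s → ¬ TT sy.dir s (src s (om v)) → (v, M s v) ∈ E s
  mE : ∀ s v w, (v, w) ∈ E s → tgt s (om w) = src s (om v)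
  rE : ∀ p v w, (v, w) ∈ E (lp p) → sy.dir ((om v).1 (sc p)) = some p → Rel E p v w
  cE : ∀ p v w, sy.dir ((om v).1 (sc p)) = some p → (om w).1 (tc p) = (om v).1 (sc p) → Rel E p v w →
    (v, w) ∈ E (lp p)

/-- the vertices without outgoing edge of the letter `s` -/
def mo (E : S → Set (V × V)) (s : S) : Set V := {v | ¬ ∃ w, (v, w) ∈ E s}

/-- the vertices without incoming edge of the letter `s` -/
def mi (E : S → Set (V × V)) (s : S) : Set V := {w | ¬ ∃ v, (v, w) ∈ E s}

/-- the missing T-slots of height at least `d` (source side) -/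
def mT {r : Rl S I} [Fintype S] [Fintype I] [DecidableEq S] [DecidableEq I] (sy : Psy r P Λ)
    (om : V → Bag r P Λ) (E : S → Set (V × V)) (p : Ps r) (d : ℕ) : Set V :=
  {v | v ∈ mo E (lp p) ∧ sy.dir ((om v).1 (sc p)) = some p ∧ d ≤ sy.ht ((om v).1 (sc p))}

/-- the missing T-slots of height at least `d` (target side) -/
def mS {r : Rl S I} [Fintype S] [Fintype I] [DecidableEq S] [DecidableEq I] (sy : Psy r P Λ)
    (om : V → Bag r P Λ) (E : S → Set (V × V)) (p : Ps r) (d : ℕ) : Set V :=
  {v | v ∈ mi E (lp p) ∧ sy.dir ((om v).1 (tc p)) = some p ∧ d ≤ sy.ht ((om v).1 (tc p))}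

/-- the missing slots that are not T (both sides) -/
noncomputable def nT [Fintype S] {r : Rl S I} (dir : P → Option (Ps r)) (om : V → Bag r P Λ)
    (E : S → Set (V × V)) : ℕ :=
  ∑ s : S, ({v | v ∈ mo E s ∧ ¬ TT dir s (src s (om v))}.ncard + {v | v ∈ mi E s ∧ ¬ TT dir s (tgt s (om v))}.ncard)

/-- the error of a model: unmatched edges and fluctuations -/
noncomputable def Kr [Fintype S] {r : Rl S I} (dir : P → Option (Ps r)) (om : V → Bag r P Λ)
    (M : S → Equiv.Perm V) : ℝ :=
  ∑ s : S, (((um dir om M s).ncard : ℝ) +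
    |({v | ¬ TT dir s (tgt s (om v))}.ncard : ℝ) - {v | ¬ TT dir s (src s (om v))}.ncard|)

/-- the constant of the completion -/
noncomputable def Bc [Fintype S] [Fintype I] (r : Rl S I) (D : ℕ) : ℝ :=
  4 * ((Fintype.card (Ps r) : ℝ) + 1) * (2 * (Fintype.card (Ps r) : ℝ) ^ 2 + 1) ^ (D + 1)

/-- the error bound of the model -/
noncomputable def Er [Fintype S] [Fintype I] (r : Rl S I) (D N n : ℕ) : ℝ :=
  Bc r D * ((Fintype.card S : ℝ) * (2 * N + 2) + 1) * Real.sqrt n

end completion

/-! ## Letters and words of the group -/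

section words

variable [Fintype S] {G : Type} [Group G] [DecidableEq G]

/-- the generating set -/
def SS (g : S → G) (_ : Unit) : Finset G := Finset.univ.image g ∪ Finset.univ.image (fun s => (g s)⁻¹)

/-- signed letters as letters of `SS` -/
def ll (g : S → G) (p : S × Bool) : H31.BE.Gn (SS g) :=
  ⟨(), ⟨if p.2 then g p.1 else (g p.1)⁻¹, by
    rcases p with ⟨s, c⟩
    cases c <;> simp [SS]⟩⟩

/-- the word of an element of the free group; the head is applied last -/
def kw [DecidableEq S] (g : S → G) (f : FreeGroup S) : List (H31.BE.Gn (SS g)) := f.toWord.map (ll g)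

/-- the labels of Part II: labels of the orbit equivalence, directions and heights of the second T-structure -/
abbrev Lb (r : Rl S I) (Λ0 : Type) (D : ℕ) : Type := Λ0 × ((I → Option (Ps r)) × (I → Fin D))

/-- the second T-structure is consistent at the point `y` -/
def KT [Fintype I] [DecidableEq S] [DecidableEq I] {r : Rl S I} (g : S → G) {Λ0 Y : Type} {D : ℕ} [MulAction G Y]
    (L : Lab (SS g) Λ0) (lb : Y → Lb r Λ0 D) (y : Y) : Prop :=
  ∀ i, ((lb y).2.1 i = none → ((lb y).2.2 i : ℕ) = 0) ∧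
    ∀ c, (lb y).2.1 i = some c → c.1 = i ∧
      ((lb y).2.2 i : ℕ) = 1 + ((Finset.univ.filter fun q => Al c q).sup fun q =>
        ((lb (walk L (fun h => (lb (h • y)).1) (kw g (pg c q)) • y)).2.2 q.1 : ℕ))

/-- the same for a finite structure -/
def KF [Fintype I] [DecidableEq S] [DecidableEq I] {r : Rl S I} {V : Type} (X : S → Equiv.Perm V)
    (dk : V → I → Option (Ps r)) (hk : V → I → ℕ) (v : V) : Prop :=
  ∀ i, (dk v i = none → hk v i = 0) ∧
    ∀ c, dk v i = some c → c.1 = i ∧
      hk v i = 1 + ((Finset.univ.filter fun q => Al c q).sup fun q => hk (ac X (pg c q) v) q.1)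

/-- the edge `(v, X s v)` is the T-edge, at the position `p`, of a good cell -/
def TP {r : Rl S I} {V : Type} (X : S → Equiv.Perm V) (dk : V → I → Option (Ps r)) (Bd : Set V) (s : S) (v : V)
    (p : Ps r) : Prop :=
  lp p = s ∧ (ac X (cw (sc p)))⁻¹ v ∉ Bd ∧ dk ((ac X (cw (sc p)))⁻¹ v) p.1 = some p

/-- value of a word of signed letters; the head is applied last (leftmost factor) -/
def lv (w : List (S × Bool)) : FreeGroup S := (w.map val).prod

/-- evaluation of a word of signed letters for a family of maps; the head is applied last -/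
def evf {V : Type} (f : S × Bool → V → V) : List (S × Bool) → V → V
  | [], v => v
  | p :: w, v => f p (evf f w v)

/-- the decoded maps: the label `l v` gives the cocycle value `L.c`, `rp` gives a word for it -/
noncomputable def sm {V Λ0 : Type} (g : S → G) (L : Lab (SS g) Λ0) (rp : G → FreeGroup S) (l : V → Λ0)
    (X : S → Equiv.Perm V) (p : S × Bool) (v : V) : V :=
  ac X (rp (L.c (ll g p) (l v))) v

/-- the bad vertices to depth `m` -/
def BB [DecidableEq S] {r : Rl S I} {V P Λ : Type} (g : S → G) (om : V → Bag r P Λ) (X : S → Equiv.Perm V)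
    (m : ℕ) : Set V :=
  {v | (∃ f : FreeGroup S, f.norm ≤ m ∧ ac X f v ∈ Mis om X) ∨
    ∃ f : FreeGroup S, f.norm ≤ m ∧ FreeGroup.lift g f = 1 ∧ ac X f v ≠ v}

/-- a random model of the G-space on `n` vertices -/
structure Mdl [Fintype I] [DecidableEq S] [DecidableEq I] {r : Rl S I} {Y P Λ : Type} [MeasurableSpace Y]
    [MulAction G Y] (hr : ∀ i, 0 < (r i).length) (g : S → G) (PY : Measure Y) [Finite P] [Finite Λ]
    (sy : Psy r P Λ) (b : Y → Λ) (φ : I → Y → P) (good : Y → Prop) (D N n : ℕ) {Ω : Type} [MeasurableSpace Ω]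
    (Q : Measure Ω) (om : Ω → Fin n → Bag r P Λ) (M X : Ω → S → Equiv.Perm (Fin n))
    (M0 : (Fin n → Bag r P Λ) → S → Equiv.Perm (Fin n)) (yy : Ω → Fin n → Y) : Prop where
  ent0 : n * Fn sy.dir (BO.law PY (bgp g b φ)) + ((Fintype.card S : ℝ) - Fintype.card I) * (n * Real.log n) -
    (Fintype.card S : ℝ) * n ≤ ent Q (fun ω => (om ω, M ω))
  law0 : ∀ v t, Q.real {ω | om ω v = t} = BO.law PY (bgp g b φ) t
  sup : ∀ᵐ ω ∂Q, ∀ v, Sup sy (om ω v)
  hom : ∀ᵐ ω ∂Q, ∀ v, om ω v = bgp g b φ (yy ω v)
  gd : ∀ᵐ ω ∂Q, ∀ v, good (yy ω v)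
  eM : ∀ s, ∫ ω, (open Classical in {v | M ω s v ≠
    (if TT sy.dir s (src s (om ω v)) then M0 (om ω) s v else X ω s v)}.ncard : ℝ) ∂Q ≤ Er r D N n
  eN : ∫ ω, ((Mis (om ω) (X ω)).ncard : ℝ) ∂Q ≤ Er r D N n
  eO : ∫ ω, ((defs r (X ω)).ncard : ℝ) ∂Q ≤ n * ∑ i, PY.real {y | sy.dir (φ i y) = none} + Er r D N n

end words

end H33.HN
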