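import Pool.Agent.H33.HN.DefsH
import Pool.Agent.H33.HN.DefsP

/-! # HN.DefsK : the lines of a switchable cell, laws of marks, constants. Definitions only. -/

set_option autoImplicit false
set_option synthInstance.maxSize 4000

open MeasureTheory H31.BE

namespace H33.HN

variable {k m : ℕ} (U V : Fin m → Wl k) {G : Type} [Group G] (g : Lh k m → G)

/-- index of the lines to be checked for the cell of type `i`: the other cells at the switch edge, and the dummy line -/
abbrev Ix (i : Fin m) : Type := Option {q : Ps (rh U V) // Al (sp U V i) q}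

/-- the type of a line -/
def tyo (i : Fin m) : Ix U V i → Fin m
  | none => i
  | some q => q.1.1

/-- the element from the cell to the line -/
def elo (i : Fin m) : Ix U V i → G
  | none => g (Sum.inr i)
  | some q => el U V g i q.1

/-- number of a line -/
noncomputable def ixn (i : Fin m) (l : Ix U V i) : ℕ := (Fintype.equivFin (Ix U V i) l : ℕ)

/-- the block of marks on the line `l` for the cell `v_i^(K n)` -/
noncomputable def Fb [DecidableEq G] (i : Fin m) (K M' : ℕ) (n : ℕ) (l : Ix U V i) : Finset (Fin m × G) :=
  (Finset.range M').image fun a => (tyo U V i l,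
    ve V g (tyo U V i l) ^ (2 * ixn U V i l * M' + a) * elo U V g i l * ve V g i ^ (K * n))

/-- law of independent marks with density `p` -/
def Mlw {m : ℕ} (p : ℝ) (ζ : Measure ℝ) (qm : ℝ → Fin m → Bool) : Prop :=
  0 ≤ p ∧ p ≤ 1 ∧ Fm qm ∧ ∀ c : Fin m → Bool, ζ.real {x | qm x = c} = ∏ i, if c i then p else 1 - p

/-- the probability that the cell `(i, 1)` is a root -/
noncomputable def dr (N L : ℕ) (ζ : Measure ℝ) (qm : ℝ → Fin m → Bool) (i : Fin m) : ℝ :=
  (bern G ζ).real {z | dX U V (sgm U V g N L i (tq qm z)) = none}

/-- the constant of one half of the theorem -/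
noncomputable def CH : ℝ :=
  (Fintype.card (Lh k m) : ℝ) + Fintype.card (Lh k m) * Real.log (Fintype.card (Ps (rh U V)) + 1) +
    2 * Real.log (Nat.card (Fin m → Option (Ps (rh U V)))) + 2 * m + 4

end H33.HN
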