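import Pool.Agent.H33.HN.HnnB
import Pool.Agent.H33.HN.DefsK

/-! # HN.CycW : reduction to cyclically reduced words

PROOF. `cyc_ex`: `FreeGroup.conj_conjugator_reduceCyclically`, `isCyclicallyReduced` (`Mathlib.GroupTheory.FreeGroup.CyclicallyReduced`): `u = mk (conjugator L) * mk L' * (mk (conjugator L))⁻¹` with `L = u.toWord`, `L'` cyclically reduced; `mk L' = pv L'.reverse` (`pv_mk`), `L'.reverse` is cyclically reduced (reverse of a reduced list is reduced: the relation is symmetric). `pres_ex`: choose `l i`, `c i` for `u i`; `U i := l i`, `V i := (v i).toWord.reverse` (`pv (V i) = v i`, `pv_mk`, `mk_toWord`). `e0 := e ∘ quotient map : FreeGroup (Lh k m) → G` is `lift g0`, surjective, kernel = normal closure of the relators.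
`α : FreeGroup (Lh k m) ≃* FreeGroup (Lh k m)`, `inl j ↦ of (inl j)`, `inr i ↦ of (inr i) * map inl (c i)` (inverse: `inr i ↦ of (inr i) * (map inl (c i))⁻¹`). `g s := lift g0 (α (of s))`, `lift g = (lift g0) ∘ α`, surjective; `ker (lift g) = comap α (ker (lift g0)) = normal closure of α⁻¹ (relators)`, and `α (pv (rh U V i)) = α ((map v)⁻¹ * t * map (pv l) * t⁻¹) = (map v)⁻¹ * t * map (c (pv l) c⁻¹) * t⁻¹ = (map v)⁻¹ * (t map(u) t⁻¹)`, which is conjugate to the relator `t map(u) t⁻¹ (map v)⁻¹` (same normal closure).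
`Hyp`: `nU`: `u i ≠ 1` (otherwise `hu` for `w = 1`, `n = 0` gives a contradiction); `pU`: `pv l = w ^ n` gives `u = (c w c⁻¹)^n`; `uu`, `uv`: conjugate by `c i`, `c j`. -/

set_option autoImplicit false
set_option synthInstance.maxSize 4000

open MeasureTheory H31.BE

namespace H33.HN

private theorem CycW_rev {X : Type} {l : List (X × Bool)} (h : FreeGroup.IsCyclicallyReduced l) :
    FreeGroup.IsCyclicallyReduced l.reverse := by
  rw [FreeGroup.isCyclicallyReduced_iff] at h ⊢
  refine ⟨?_, ?_⟩
  · have h1 := h.1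
    unfold FreeGroup.IsReduced at h1 ⊢
    rw [List.isChain_reverse]
    refine h1.imp ?_
    intro a b hab hba
    exact (hab hba.symm).symm
  · intro a ha b hb hab
    rw [List.getLast?_reverse] at ha
    rw [List.head?_reverse] at hb
    exact (h.2 b hb a ha hab.symm).symm

private theorem CycW_cons {S : Type} (a : S × Bool) (l : List (S × Bool)) :
    pv (a :: l) = pv l * val a := by
  have h := pv_append [a] l
  rw [List.singleton_append] at h
  rw [h]
  congr 1
  simp [pv]

private theorem CycW_map {k m : ℕ} (l : Wl k) :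
    pv (l.map (xl m)) = FreeGroup.map Sum.inl (pv l) := by
  induction l with
  | nil => rw [List.map_nil, pv_nil, pv_nil, map_one]
  | cons a l ih =>
    rw [List.map_cons, CycW_cons, CycW_cons, map_mul, ih]
    congr 1
    obtain ⟨j, b⟩ := a
    unfold val xl
    cases b
    · simp
    · simp

private theorem CycW_rh {k m : ℕ} (U V : Fin m → Wl k) (i : Fin m) :
    pv (rh U V i) = (FreeGroup.map Sum.inl (pv (V i)))⁻¹ * FreeGroup.of (Sum.inr i) *
      FreeGroup.map Sum.inl (pv (U i)) * (FreeGroup.of (Sum.inr i))⁻¹ := by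
  have h1 : val ((Sum.inr i, true) : Lh k m × Bool) = FreeGroup.of (Sum.inr i) := by
    simp [val]
  have h2 : val ((Sum.inr i, false) : Lh k m × Bool) = (FreeGroup.of (Sum.inr i))⁻¹ := by
    simp [val]
  unfold rh
  rw [CycW_cons, pv_append, CycW_cons, h1, h2, CycW_map, CycW_map, pv_iv, map_inv]

theorem cyc_ex {k : ℕ} (u : FreeGroup (Fin k)) : ∃ (l : Wl k) (c : FreeGroup (Fin k)),
    FreeGroup.IsCyclicallyReduced l ∧ u = c * pv l * c⁻¹ := by
  classical
  obtain ⟨L, hL⟩ : ∃ L, L = u.toWord := ⟨_, rfl⟩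
  have hred : FreeGroup.IsReduced L := by
    rw [hL]
    exact FreeGroup.isReduced_toWord
  refine ⟨(FreeGroup.reduceCyclically L).reverse, FreeGroup.mk (FreeGroup.reduceCyclically.conjugator L),
    CycW_rev (FreeGroup.reduceCyclically.isCyclicallyReduced hred), ?_⟩
  rw [pv_mk, List.reverse_reverse]
  have h1 := FreeGroup.reduceCyclically.conj_conjugator_reduceCyclically L
  have h2 : u = FreeGroup.mk L := by rw [hL, FreeGroup.mk_toWord]
  rw [h2]
  conv_lhs => rw [← h1]
  rw [← FreeGroup.mul_mk, ← FreeGroup.mul_mk, ← FreeGroup.inv_mk]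

theorem pres_ex (k m : ℕ) (u v : Fin m → FreeGroup (Fin k))
    (hu : ∀ i (w : FreeGroup (Fin k)) (n : ℤ), u i = w ^ n → n = 1 ∨ n = -1) (hv : ∀ i, v i ≠ 1)
    (huu : ∀ i j, i ≠ j → ∀ (c : FreeGroup (Fin k)) (a b : ℤ), c * u i ^ a * c⁻¹ = u j ^ b → a = 0)
    (huv : ∀ i j, ∀ (c : FreeGroup (Fin k)) (a b : ℤ), c * u i ^ a * c⁻¹ = v j ^ b → a = 0)
    (G : Type) [Group G]
    (e : PresentedGroup (Set.range fun i : Fin m => (FreeGroup.of (Sum.inr i) *
      FreeGroup.map Sum.inl (u i) * (FreeGroup.of (Sum.inr i))⁻¹ * (FreeGroup.map Sum.inl (v i))⁻¹ :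
        FreeGroup (Fin k ⊕ Fin m))) ≃* G) :
    ∃ (U V : Fin m → Wl k) (g : Lh k m → G), Hyp U V ∧ Pres (rh U V) g := by
  choose l c hl hc using fun i => cyc_ex (u i)
  obtain ⟨V, hV⟩ : ∃ V : Fin m → Wl k, ∀ i, pv (V i) = v i :=
    ⟨fun i => (v i).toWord.reverse, fun i => by
      rw [pv_mk, List.reverse_reverse, FreeGroup.mk_toWord]⟩
  have hpl : ∀ i, pv (l i) = (c i)⁻¹ * u i * c i := by
    intro i
    rw [hc i]
    group
  set rel : Fin m → FreeGroup (Fin k ⊕ Fin m) := fun i : Fin m => (FreeGroup.of (Sum.inr i) *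
      FreeGroup.map Sum.inl (u i) * (FreeGroup.of (Sum.inr i))⁻¹ * (FreeGroup.map Sum.inl (v i))⁻¹ :
        FreeGroup (Fin k ⊕ Fin m)) with hrel
  set e0 : FreeGroup (Fin k ⊕ Fin m) →* G :=
    e.toMonoidHom.comp (PresentedGroup.mk (Set.range rel)) with he0
  have hker0 : e0.ker = Subgroup.normalClosure (Set.range rel) := by
    ext x
    rw [MonoidHom.mem_ker, he0]
    constructor
    · intro hx
      have h1 : e (PresentedGroup.mk (Set.range rel) x) = 1 := hx
      have h2 : PresentedGroup.mk (Set.range rel) x = 1 := by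
        apply e.injective
        rw [h1, map_one]
      exact (QuotientGroup.eq_one_iff x).1 h2
    · intro hx
      have h2 : PresentedGroup.mk (Set.range rel) x = 1 := (QuotientGroup.eq_one_iff x).2 hx
      show e (PresentedGroup.mk (Set.range rel) x) = 1
      rw [h2, map_one]
  have hsurj0 : Function.Surjective e0 := by
    intro y
    obtain ⟨z, hz⟩ := e.surjective y
    obtain ⟨x, hx⟩ := QuotientGroup.mk_surjective z
    refine ⟨x, ?_⟩
    show e (PresentedGroup.mk (Set.range rel) x) = y
    rw [← hz, ← hx]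
    rfl
  set α : FreeGroup (Fin k ⊕ Fin m) →* FreeGroup (Fin k ⊕ Fin m) := FreeGroup.lift
    (Sum.elim (fun j => FreeGroup.of (Sum.inl j))
      (fun i => FreeGroup.of (Sum.inr i) * FreeGroup.map Sum.inl (c i))) with hα
  set β : FreeGroup (Fin k ⊕ Fin m) →* FreeGroup (Fin k ⊕ Fin m) := FreeGroup.lift
    (Sum.elim (fun j => FreeGroup.of (Sum.inl j))
      (fun i => FreeGroup.of (Sum.inr i) * (FreeGroup.map Sum.inl (c i))⁻¹)) with hβ
  have hαl : ∀ f : FreeGroup (Fin k), α (FreeGroup.map Sum.inl f) = FreeGroup.map Sum.inl f := by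
    intro f
    have h : α.comp (FreeGroup.map Sum.inl) = FreeGroup.map (Sum.inl : Fin k → Fin k ⊕ Fin m) := by
      apply FreeGroup.ext_hom
      intro j
      simp [hα]
    exact DFunLike.congr_fun h f
  have hβl : ∀ f : FreeGroup (Fin k), β (FreeGroup.map Sum.inl f) = FreeGroup.map Sum.inl f := by
    intro f
    have h : β.comp (FreeGroup.map Sum.inl) = FreeGroup.map (Sum.inl : Fin k → Fin k ⊕ Fin m) := by
      apply FreeGroup.ext_hom
      intro j
      simp [hβ]
    exact DFunLike.congr_fun h f
  have hαr : ∀ i : Fin m, α (FreeGroup.of (Sum.inr i)) =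
      FreeGroup.of (Sum.inr i) * FreeGroup.map Sum.inl (c i) := by
    intro i
    rw [hα, FreeGroup.lift_apply_of]
    rfl
  have hβr : ∀ i : Fin m, β (FreeGroup.of (Sum.inr i)) =
      FreeGroup.of (Sum.inr i) * (FreeGroup.map Sum.inl (c i))⁻¹ := by
    intro i
    rw [hβ, FreeGroup.lift_apply_of]
    rfl
  have hαβ : ∀ x, α (β x) = x := by
    intro x
    have h : α.comp β = MonoidHom.id _ := by
      apply FreeGroup.ext_hom
      rintro (j | i)
      · show α (β (FreeGroup.of (Sum.inl j))) = FreeGroup.of (Sum.inl j)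
        rw [hβ, FreeGroup.lift_apply_of]
        show α (FreeGroup.of (Sum.inl j)) = FreeGroup.of (Sum.inl j)
        rw [hα, FreeGroup.lift_apply_of]
        rfl
      · show α (β (FreeGroup.of (Sum.inr i))) = FreeGroup.of (Sum.inr i)
        rw [hβr, map_mul, map_inv, hαl, hαr]
        group
    exact DFunLike.congr_fun h x
  have hβα : ∀ x, β (α x) = x := by
    intro x
    have h : β.comp α = MonoidHom.id _ := by
      apply FreeGroup.ext_hom
      rintro (j | i)
      · show β (α (FreeGroup.of (Sum.inl j))) = FreeGroup.of (Sum.inl j)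
        rw [hα, FreeGroup.lift_apply_of]
        show β (FreeGroup.of (Sum.inl j)) = FreeGroup.of (Sum.inl j)
        rw [hβ, FreeGroup.lift_apply_of]
        rfl
      · show β (α (FreeGroup.of (Sum.inr i))) = FreeGroup.of (Sum.inr i)
        rw [hαr, map_mul, hβl, hβr]
        group
    exact DFunLike.congr_fun h x
  set g : Lh k m → G := fun s => e0 (α (FreeGroup.of s)) with hg
  have hlift : FreeGroup.lift g = e0.comp α := by
    apply FreeGroup.ext_hom
    intro s
    rw [FreeGroup.lift_apply_of]
    rfl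
  have hlift' : ∀ x, FreeGroup.lift g x = e0 (α x) := by
    intro x
    rw [hlift]
    rfl
  have hrel1 : ∀ i, e0 (rel i) = 1 := by
    intro i
    have h1 : rel i ∈ e0.ker := by
      rw [hker0]
      exact Subgroup.subset_normalClosure ⟨i, rfl⟩
    exact h1
  refine ⟨l, V, g, ?_, ?_⟩
  · refine ⟨hl, ?_, ?_, ?_, ?_, ?_⟩
    · intro i h
      have h1 : u i = 1 := by
        rw [hc i, h, pv_nil]
        group
      have h2 := hu i 1 0 (by rw [h1, zpow_zero])
      omega
    · intro i
      rw [hV i]
      exact hv i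
    · intro i w n h
      refine hu i (c i * w * (c i)⁻¹) n ?_
      rw [conj_zpow, ← h]
      exact hc i
    · intro i j hij c' a b h
      refine huu i j hij (c j * c' * (c i)⁻¹) a b ?_
      have h1 : pv (l i) ^ a = (c i)⁻¹ * u i ^ a * c i := by
        have h2 := conj_zpow (i := a) (a := (c i)⁻¹) (b := u i)
        rw [inv_inv] at h2
        rw [hpl i, h2]
      have h3 : pv (l j) ^ b = (c j)⁻¹ * u j ^ b * c j := by
        have h2 := conj_zpow (i := b) (a := (c j)⁻¹) (b := u j)
        rw [inv_inv] at h2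
        rw [hpl j, h2]
      rw [h1, h3] at h
      calc c j * c' * (c i)⁻¹ * u i ^ a * (c j * c' * (c i)⁻¹)⁻¹ =
          c j * (c' * ((c i)⁻¹ * u i ^ a * c i) * c'⁻¹) * (c j)⁻¹ := by group
        _ = u j ^ b := by
          rw [h]
          group
    · intro i j c' a b h
      refine huv i j (c' * (c i)⁻¹) a b ?_
      have h1 : pv (l i) ^ a = (c i)⁻¹ * u i ^ a * c i := by
        have h2 := conj_zpow (i := a) (a := (c i)⁻¹) (b := u i)
        rw [inv_inv] at h2
        rw [hpl i, h2]
      rw [h1, hV j] at h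
      calc c' * (c i)⁻¹ * u i ^ a * (c' * (c i)⁻¹)⁻¹ =
          c' * ((c i)⁻¹ * u i ^ a * c i) * c'⁻¹ := by group
        _ = v j ^ b := h
  · refine ⟨?_, ?_⟩
    · intro y
      obtain ⟨x, hx⟩ := hsurj0 y
      refine ⟨β x, ?_⟩
      rw [hlift', hαβ, hx]
    · apply le_antisymm
      · intro x hx
        rw [MonoidHom.mem_ker, hlift'] at hx
        have h1 : α x ∈ Subgroup.normalClosure (Set.range rel) := by
          rw [← hker0]
          exact hx
        have h2 : Subgroup.normalClosure (Set.range rel) ≤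
            (Subgroup.normalClosure (Set.range fun i => pv (rh l V i))).comap β := by
          refine Subgroup.normalClosure_le_normal ?_
          rintro y ⟨i, rfl⟩
          rw [SetLike.mem_coe, Subgroup.mem_comap]
          have h3 : β (rel i) = FreeGroup.map Sum.inl (v i) * pv (rh l V i) *
              (FreeGroup.map Sum.inl (v i))⁻¹ := by
            rw [CycW_rh, hV i, hrel]
            simp only [map_mul, map_inv]
            rw [hβr, hβl, hβl, hpl i]
            simp only [map_mul, map_inv]
            group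
          have h5 : pv (rh l V i) ∈
              Subgroup.normalClosure (Set.range fun i => pv (rh l V i)) :=
            Subgroup.subset_normalClosure ⟨i, rfl⟩
          rw [h3]
          exact (Subgroup.normalClosure_normal).conj_mem _ h5 _
        have h4 := h2 h1
        rw [Subgroup.mem_comap, hβα] at h4
        exact h4
      · refine Subgroup.normalClosure_le_normal ?_
        rintro y ⟨i, rfl⟩
        rw [SetLike.mem_coe, MonoidHom.mem_ker, hlift']
        show e0 (α (pv (rh l V i))) = 1
        rw [CycW_rh]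
        have h3 : α ((FreeGroup.map Sum.inl (pv (V i)))⁻¹ * FreeGroup.of (Sum.inr i) *
            FreeGroup.map Sum.inl (pv (l i)) * (FreeGroup.of (Sum.inr i))⁻¹) =
            (FreeGroup.map Sum.inl (v i))⁻¹ * rel i * FreeGroup.map Sum.inl (v i) := by
          rw [hV i, hrel]
          simp only [map_mul, map_inv]
          rw [hαr, hαl, hαl, hpl i]
          simp only [map_mul, map_inv]
          group
        rw [h3, map_mul, map_mul, hrel1, map_inv, mul_one, inv_mul_cancel]

end H33.HN
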