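import Pool.Agent.H33.HN.SgP
import Pool.Agent.H33.HN.WrdA

/-! # HN.DecA : decoding: relations, generators, labels, the second T-structure

PROOF. `t h := pr (lb (h • y v))`. (W) For a word `w` with `m1 + 2 L.C w.length ≤ m`: by `evp`, `evs`: there is `f` with `f.norm ≤ L.C * w.length`, `lift g f = walk L t (w.map ll)`, `ac σ (lv w) v = ac X f v`, `lb (walk .. • y v) = lb (y (ac σ (lv w) v))`. `dec_psi` is the last part. `dec_rel`: `w = (pv (r i)).toWord` (`lv_toWord`, length `≤ ml r`: `norm_pv`), `wprod (w.map ll) = lift g (pv (r i)) = 1` (`lift_lv`, `lift_rel`), so by `a2` the walk is the walk of `[]`, i.e. `1`; `bb_one`.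
`dec_X`: `w = cv (L.bw (ll g (s, true)) (t 1))`, `w.map ll = L.bw ..`, length at most `L.C` (`L.hbw`), the walk is `gv (ll g (s, true)) = g s` by `a1` (`t 1 = pr (lb (y v))`, `one_smul`), so `lift g ((of s)⁻¹ * f) = 1`, norm at most `L.C * L.C + 1 ≤ m`, `ac X f v = X s v`.
`dec_kf`: for `c`, `q`: `w = (pg c q).toWord`, length at most `2 ml r` (`norm_pg`); `dec_psi`: `lb (walk L t (kw g (pg c q)) • y v) = lb (y (ac σ (pg c q) v))`; substitute this in `KT`. -/

set_option autoImplicit false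
set_option synthInstance.maxSize 4000

open MeasureTheory H31.BE

namespace H33.HN

private theorem DecA_adm {I0 Λ0 G : Type} [Group G] [DecidableEq G] [Fintype I0] {S0 : I0 → Finset G} (L : Lab S0 Λ0)
    {N N' : ℕ} (h : N' ≤ N) (t : G → Λ0) (ha : Adm L N t) : Adm L N' t where
  a1 := ha.a1
  a2 := fun w w' h1 h2 h3 => ha.a2 w w' (h1.trans h) (h2.trans h) h3
  a3 := fun w h1 h2 => ha.a3 w (h1.trans h) h2
  a4 := fun g hg h1 => ha.a4 g (ball_mono (Nat.mul_le_mul_left _ h) hg) h1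

private theorem DecA_pv {S I : Type} [DecidableEq S] [Fintype I] {r : Rl S I} (i : I) : (pv (r i)).norm ≤ ml r := by
  have h1 := norm_pv (r i)
  have h3 : (r i).length ≤ ml r := Finset.le_sup (f := fun i => (r i).length) (Finset.mem_univ i)
  exact h1.trans h3

variable {S I : Type} [Fintype S] [Fintype I] [DecidableEq S] [DecidableEq I] {r : Rl S I} {G Y P V : Type} [Group G] [DecidableEq G]
  [MulAction G Y] (g : S → G) {Λ0 : Type} {D : ℕ} (lb : Y → Lb r Λ0 D) (R : ℕ) (φ : I → Y → P)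
  (om : V → Bag r P (↥(ball (SS g) R) → Lb r Λ0 D)) (y : V → Y)
  (hom : ∀ v, om v = bgp g (win lb (ball (SS g) R)) φ (y v)) (X : S → Equiv.Perm V)

variable (L : Lab (SS g) Λ0) (rp : G → FreeGroup S)
  (hrp : ∀ m h, h ∈ ball (SS g) m → (rp h).norm ≤ m ∧ FreeGroup.lift g (rp h) = h)

include hom hrp

theorem dec_psi (m1 : ℕ) (h1 : 2 * L.C ≤ m1) (ha : ∀ v, Adm L (2 * ml r + 2) (fun h => (lb (h • y v)).1))
    (σ : S → Equiv.Perm V) (hσ : ∀ v, v ∉ BB g om X m1 → ∀ s,
      σ s v = sm g L rp (fun v => (lb (y v)).1) X (s, true) v) (v : V) (m : ℕ) (hm : m ≤ R)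
    (hv : v ∉ BB g om X m) (w : List (S × Bool)) (hw : m1 + 2 * (L.C * w.length) ≤ m) :
    lb (walk L (fun h => (lb (h • y v)).1) (w.map (ll g)) • y v) = lb (y (ac σ (lv w) v)) := by
  have ha2 : ∀ v, Adm L 2 (fun h => (lb (h • y v)).1) := fun v => DecA_adm L (by omega) _ (ha v)
  have h2 := evp g lb R φ om y hom X Prod.fst L rp hrp m1 h1 ha2 σ hσ v w m hw hm hv
  obtain ⟨f, -, -, -, h3⟩ := evs g lb R φ om y hom X Prod.fst L rp hrp v w m (by omega) hm hv
  rw [h2]
  exact h3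

theorem dec_rel (hg : Pres r g) (m1 : ℕ) (h1 : 2 * L.C ≤ m1)
    (ha : ∀ v, Adm L (2 * ml r + 2) (fun h => (lb (h • y v)).1))
    (σ : S → Equiv.Perm V) (hσ : ∀ v, v ∉ BB g om X m1 → ∀ s,
      σ s v = sm g L rp (fun v => (lb (y v)).1) X (s, true) v) (v : V) (m : ℕ) (hm : m ≤ R)
    (hv : v ∉ BB g om X m) (hw : m1 + 2 * (L.C * (2 * ml r + 2)) ≤ m) (i : I) : ac σ (pv (r i)) v = v := by
  have ha2 : ∀ v, Adm L 2 (fun h => (lb (h • y v)).1) := fun v => DecA_adm L (by omega) _ (ha v)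
  have hlen : (pv (r i)).toWord.length ≤ 2 * ml r + 2 := by
    have h3 := DecA_pv (r := r) i
    have h4 : (pv (r i)).toWord.length = (pv (r i)).norm := rfl
    omega
  have hlen2 : L.C * (pv (r i)).toWord.length ≤ L.C * (2 * ml r + 2) := Nat.mul_le_mul_left _ hlen
  have h2 := evp g lb R φ om y hom X Prod.fst L rp hrp m1 h1 ha2 σ hσ v (pv (r i)).toWord m (by omega) hm hv
  obtain ⟨f, hf1, hf2, hf3, -⟩ := evs g lb R φ om y hom X Prod.fst L rp hrp v (pv (r i)).toWord m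
    (by omega) hm hv
  rw [lv_toWord] at h2
  rw [h2, hf3]
  refine bb_one g om X m f (by omega) ?_ v hv
  rw [hf2]
  have h5 : walk L (fun h => (lb (h • y v)).1) ((pv (r i)).toWord.map (ll g)) =
      walk L (fun h => (lb (h • y v)).1) [] := by
    refine (ha v).a2 _ _ ?_ ?_ ?_
    · rw [List.length_map]
      exact hlen
    · exact Nat.zero_le _
    · rw [← lift_lv, lv_toWord, lift_rel g hg]
      rfl
  rw [h5]
  rfl

theorem dec_kf (m1 : ℕ) (h1 : 2 * L.C ≤ m1) (ha : ∀ v, Adm L (2 * ml r + 2) (fun h => (lb (h • y v)).1))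
    (σ : S → Equiv.Perm V) (hσ : ∀ v, v ∉ BB g om X m1 → ∀ s,
      σ s v = sm g L rp (fun v => (lb (y v)).1) X (s, true) v) (v : V) (m : ℕ) (hm : m ≤ R)
    (hv : v ∉ BB g om X m) (hw : m1 + 2 * (L.C * (2 * ml r + 2)) ≤ m) (hk : KT g L lb (y v)) :
    KF σ (fun u => (lb (y u)).2.1) (fun u i => ((lb (y u)).2.2 i : ℕ)) v := by
  have key : ∀ c q : Ps r, lb (walk L (fun h => (lb (h • y v)).1) (kw g (pg c q)) • y v) =
      lb (y (ac σ (pg c q) v)) := by
    intro c q
    have hlen : (pg c q).toWord.length ≤ 2 * ml r + 2 := by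
      have h3 := norm_pg c q
      have h4 : (pg c q).toWord.length = (pg c q).norm := rfl
      omega
    have hlen2 : L.C * (pg c q).toWord.length ≤ L.C * (2 * ml r + 2) := Nat.mul_le_mul_left _ hlen
    have h2 := dec_psi g lb R φ om y hom X L rp hrp m1 h1 ha σ hσ v m hm hv (pg c q).toWord (by omega)
    rw [lv_toWord] at h2
    exact h2
  intro i
  obtain ⟨k1, k2⟩ := hk i
  refine ⟨k1, fun c hc => ?_⟩
  obtain ⟨k3, k4⟩ := k2 c hc
  refine ⟨k3, ?_⟩
  show ((lb (y v)).2.2 i : ℕ) = 1 + ((Finset.univ.filter fun q => Al c q).sup fun q =>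
    ((lb (y (ac σ (pg c q) v))).2.2 q.1 : ℕ))
  rw [k4]
  congr 1
  refine Finset.sup_congr rfl fun q _ => ?_
  rw [key]

theorem dec_X (m1 : ℕ) (h1 : 2 * L.C ≤ m1) (ha : ∀ v, Adm L (2 * ml r + 2) (fun h => (lb (h • y v)).1))
    (σ : S → Equiv.Perm V) (hσ : ∀ v, v ∉ BB g om X m1 → ∀ s,
      σ s v = sm g L rp (fun v => (lb (y v)).1) X (s, true) v) (v : V) (m : ℕ) (hm : m ≤ R)
    (hv : v ∉ BB g om X m) (hw : m1 + 2 * (L.C * L.C) + 1 ≤ m)
    (cv : List (H31.BE.Gn (SS g)) → List (S × Bool)) (hcv : ∀ w, (cv w).map (ll g) = w) (s : S) :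
    ac σ (lv (cv (L.bw (ll g (s, true)) (lb (y v)).1))) v = X s v := by
  have ha2 : ∀ v, Adm L 2 (fun h => (lb (h • y v)).1) := fun v => DecA_adm L (by omega) _ (ha v)
  set w := cv (L.bw (ll g (s, true)) (lb (y v)).1) with hwdef
  have hmap : w.map (ll g) = L.bw (ll g (s, true)) (lb (y v)).1 := hcv _
  have hlen : w.length ≤ L.C := by
    have h := congrArg List.length hmap
    rw [List.length_map] at h
    rw [h]
    exact L.hbw _ _
  have hlen2 : L.C * w.length ≤ L.C * L.C := Nat.mul_le_mul_left _ hlen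
  have h2 := evp g lb R φ om y hom X Prod.fst L rp hrp m1 h1 ha2 σ hσ v w m (by omega) hm hv
  obtain ⟨f, hf1, hf2, hf3, -⟩ := evs g lb R φ om y hom X Prod.fst L rp hrp v w m (by omega) hm hv
  have hwalk : FreeGroup.lift g f = g s := by
    rw [hf2, hmap]
    have h := (ha v).a1 (ll g (s, true))
    simp only [one_smul] at h
    rw [h]
    simp [gv, ll]
  have hn : ((FreeGroup.of s)⁻¹ * f).norm ≤ m := by
    have h := FreeGroup.norm_mul_le (FreeGroup.of s)⁻¹ f
    rw [FreeGroup.norm_inv_eq, FreeGroup.norm_of] at h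
    omega
  have h3 : FreeGroup.lift g ((FreeGroup.of s)⁻¹ * f) = 1 := by
    rw [map_mul, map_inv, hwalk, FreeGroup.lift_apply_of, inv_mul_cancel]
  have h4 := bb_one g om X m _ hn h3 v hv
  rw [map_mul, map_inv, Equiv.Perm.mul_apply, Equiv.Perm.inv_eq_iff_eq, FreeGroup.lift_apply_of] at h4
  rw [h2, hf3, h4]

end H33.HN
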