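import Pool.Agent.H33.BO.Defs2

/-! # HN.Defs : systems of relators, bags, interfaces, pattern systems, the functional. Definitions only.
Paper: /team-store/h33_hnn.md. -/

set_option autoImplicit false
set_option synthInstance.maxSize 4000

open MeasureTheory H31.BE

namespace H33.HN

/-! ## Words, relators, corners -/

/-- value of a signed letter -/
def val {S : Type} (a : S × Bool) : FreeGroup S := if a.2 then FreeGroup.of a.1 else (FreeGroup.of a.1)⁻¹

/-- value of a path word: the first letter of the list is applied first (rightmost factor) -/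
def pv {S : Type} (l : List (S × Bool)) : FreeGroup S := (l.map val).reverse.prod

/-- systems of relators (path words) -/
abbrev Rl (S I : Type) : Type := I → List (S × Bool)

variable {S I : Type}

/-- positions of the letters = corners of the cells; the edge `c` goes from the corner `c` to the corner `nx c` -/
abbrev Ps (r : Rl S I) : Type := Σ i : I, Fin (r i).length

/-- letter of a position -/
def lp {r : Rl S I} (c : Ps r) : S := ((r c.1).get c.2).1

/-- sign of a position -/
def sg {r : Rl S I} (c : Ps r) : Bool := ((r c.1).get c.2).2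

/-- next corner (cyclically) -/
def nx {r : Rl S I} (c : Ps r) : Ps r :=
  ⟨c.1, ⟨(c.2.1 + 1) % (r c.1).length, Nat.mod_lt _ (lt_of_le_of_lt (Nat.zero_le _) c.2.2)⟩⟩

/-- source corner of the edge at a position -/
def sc {r : Rl S I} (c : Ps r) : Ps r := if sg c then c else nx c

/-- target corner of the edge at a position -/
def tc {r : Rl S I} (c : Ps r) : Ps r := if sg c then nx c else c

/-- the word from the base point of the cell to the corner -/
def cw {r : Rl S I} (c : Ps r) : FreeGroup S := pv ((r c.1).take c.2.1)

/-- the word from the base point of the cell of `p` to the base point of the cell of `q`, if the two edges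
at the positions `p`, `q` (of the same letter) are the same -/
def pg {r : Rl S I} (p q : Ps r) : FreeGroup S := (cw (sc q))⁻¹ * cw (sc p)

/-- the other positions of the letter of `p` -/
def Al {r : Rl S I} (p q : Ps r) : Prop := lp q = lp p ∧ q ≠ p

instance [DecidableEq S] [DecidableEq I] {r : Rl S I} (p q : Ps r) : Decidable (Al p q) := by
  unfold Al
  infer_instance

/-- maximal length of a relator -/
def ml [Fintype I] (r : Rl S I) : ℕ := Finset.univ.sup fun i => (r i).length

/-- base corner of a cell -/
def bc {r : Rl S I} (hr : ∀ i, 0 < (r i).length) (i : I) : Ps r := ⟨i, ⟨0, hr i⟩⟩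

/-- `g` is a presentation of `G` with the relators `r` -/
structure Pres {G : Type} [Group G] (r : Rl S I) (g : S → G) : Prop where
  surj : Function.Surjective (FreeGroup.lift g)
  ker : (FreeGroup.lift g).ker = Subgroup.normalClosure (Set.range fun i => pv (r i))

/-! ## Bags and interfaces -/

/-- bag patterns: the patterns of the cells with a given corner at the point, the label of the point, the labels
of the points `s⁻¹ z` -/
abbrev Bag (r : Rl S I) (P Λ : Type) : Type := (Ps r → P) × (Λ × (S → Λ))

/-- interface patterns of a letter: the patterns of the cells at the edge, the label of the source -/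
abbrev Itf (r : Rl S I) (s : S) (P Λ : Type) : Type := ({q : Ps r // lp q = s} → P) × Λ

/-- interface pattern at the source of an edge -/
def src {r : Rl S I} {P Λ : Type} (s : S) (Φ : Bag r P Λ) : Itf r s P Λ := (fun q => Φ.1 (sc q.1), Φ.2.1)

/-- interface pattern at the target of an edge -/
def tgt {r : Rl S I} {P Λ : Type} (s : S) (Φ : Bag r P Λ) : Itf r s P Λ := (fun q => Φ.1 (tc q.1), Φ.2.2 s)

/-- T-interfaces -/
def TT {r : Rl S I} {P Λ : Type} (dir : P → Option (Ps r)) (s : S) (t : Itf r s P Λ) : Prop :=
  ∃ q : {q : Ps r // lp q = s}, dir (t.1 q) = some q.1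

/-! ## The functional -/

/-- the sum over the letters of the entropies of the non-T interface patterns -/
noncomputable def Gn [Fintype S] {r : Rl S I} {P Λ : Type} [Finite (Bag r P Λ)] [∀ s, Finite (Itf r s P Λ)]
    (dir : P → Option (Ps r)) (p : Bag r P Λ → ℝ) : ℝ :=
  letI := Fintype.ofFinite (Bag r P Λ)
  letI := fun s => Fintype.ofFinite (Itf r s P Λ)
  open Classical in
  ∑ s : S, ∑ q : Itf r s P Λ, if TT dir s q then 0 else
      Real.negMulLog (∑ Φ ∈ Finset.univ.filter (fun Φ => tgt s Φ = q), p Φ)

/-- the functional `F(p) = H(p) - G(p)` -/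
noncomputable def Fn [Fintype S] {r : Rl S I} {P Λ : Type} [Finite (Bag r P Λ)] [∀ s, Finite (Itf r s P Λ)]
    (dir : P → Option (Ps r)) (p : Bag r P Λ → ℝ) : ℝ :=
  letI := Fintype.ofFinite (Bag r P Λ)
  (∑ Φ, Real.negMulLog (p Φ)) - Gn dir p

/-! ## Pattern systems -/

/-- A pattern system: type of the cell, direction (the position of the T-edge; `none` = root), patterns of the parents
(the other cells at the T-edge, indexed by their positions), labels of the corners (`none` for the corners of other
types of cells), height. -/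
structure Psy [Fintype S] [Fintype I] [DecidableEq S] [DecidableEq I] (r : Rl S I) (P Λ : Type) where
  typ : P → I
  dir : P → Option (Ps r)
  par : P → Ps r → P
  lab : P → Ps r → Option Λ
  ht : P → ℕ
  d1 : ∀ p c, dir p = some c → c.1 = typ p
  tp : ∀ p c, dir p = some c → ∀ q, Al c q → typ (par p q) = q.1
  h0 : ∀ p, dir p = none → ht p = 0
  h1 : ∀ p c, dir p = some c → ht p = 1 + ((Finset.univ.filter fun q => Al c q).sup fun q => ht (par p q))
  inj : ∀ p p', typ p = typ p' → lab p = lab p' → dir p = dir p' →
    (∀ c, dir p = some c → ∀ q, Al c q → par p q = par p' q) → p = p'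

variable {G Z P Λ V : Type} [Group G] [MulAction G Z]

/-- A process of patterns on a G-set: `φ i z` is the pattern of the cell `(i, z)`, `b` the labels of the points. -/
structure Prc [Fintype S] [Fintype I] [DecidableEq S] [DecidableEq I] {r : Rl S I} (g : S → G) (sy : Psy r P Λ)
    (b : Z → Λ) (φ : I → Z → P) : Prop where
  t : ∀ i z, sy.typ (φ i z) = i
  l : ∀ i z c, sy.lab (φ i z) c = if c.1 = i then some (b (FreeGroup.lift g (cw c) • z)) else none
  p : ∀ i z c, sy.dir (φ i z) = some c → ∀ q, Al c q →
    φ q.1 (FreeGroup.lift g (pg c q) • z) = sy.par (φ i z) q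

/-- the bag pattern of a point -/
def bgp {r : Rl S I} (g : S → G) (b : Z → Λ) (φ : I → Z → P) (z : Z) : Bag r P Λ :=
  (fun c => φ c.1 ((FreeGroup.lift g (cw c))⁻¹ • z), (b z, fun s => b ((g s)⁻¹ • z)))

/-- what holds for every bag pattern of a point -/
structure Sup [Fintype S] [Fintype I] [DecidableEq S] [DecidableEq I] {r : Rl S I} (sy : Psy r P Λ)
    (Φ : Bag r P Λ) : Prop where
  s0 : ∀ c, sy.typ (Φ.1 c) = c.1
  s1 : ∀ p, sy.dir (Φ.1 (sc p)) = some p → ∀ q, Al p q → Φ.1 (sc q) = sy.par (Φ.1 (sc p)) q
  s2 : ∀ p, sy.dir (Φ.1 (tc p)) = some p → ∀ q, Al p q → Φ.1 (tc q) = sy.par (Φ.1 (tc p)) q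
  s3 : ∀ c, sy.lab (Φ.1 c) c = some Φ.2.1
  s4 : ∀ p, sy.lab (Φ.1 (tc p)) (sc p) = some (Φ.2.2 (lp p))

/-! ## Finite structures -/

/-- the action of words on a finite structure -/
noncomputable abbrev ac (X : S → Equiv.Perm V) : FreeGroup S →* Equiv.Perm V := FreeGroup.lift X

/-- the points at which a relation fails -/
def defs (r : Rl S I) (X : S → Equiv.Perm V) : Set V := {v | ∃ i, ac X (pv (r i)) v ≠ v}

/-- the vertices at a non-T edge of the letter `s` that is not matched -/
def um {r : Rl S I} (dir : P → Option (Ps r)) (om : V → Bag r P Λ) (M : S → Equiv.Perm V) (s : S) : Set V :=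
  {v | ¬ TT dir s (src s (om v)) ∧ tgt s (om (M s v)) ≠ src s (om v)}

/-- the vertices with an unmatched edge -/
def Mis {r : Rl S I} (om : V → Bag r P Λ) (X : S → Equiv.Perm V) : Set V :=
  {v | ∃ s, tgt s (om (X s v)) ≠ src s (om v)}

end H33.HN
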