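import Pool.Agent.H33.HN.Defs

/-! # HN.DefsF : definitions for Part I (shares, configurations, mod 2 boundaries, fill data). Definitions only. -/

set_option autoImplicit false
set_option synthInstance.maxSize 4000

open MeasureTheory H31.BE

namespace H33.HN

/-! ## Shapley shares -/

/-- Shapley weight of a set of `j` among `u` elements -/
noncomputable def wt (j u : ℕ) : ℝ := (j.factorial : ℝ) * ((u - 1 - j).factorial : ℝ) / (u.factorial : ℝ)

/-- Shapley share of `g ∈ U` in the decrease of `f` from `∅` to `U` -/
noncomputable def sh {G : Type} [DecidableEq G] (U : Finset G) (g : G) (f : Finset G → ℝ) : ℝ :=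
  ∑ J ∈ (U.erase g).powerset, wt J.card U.card * (f J - f (insert g J))

/-! ## Configurations -/

/-- configuration of the point `y` -/
def tq {G A : Type} [Group G] (q : ℝ → A) (y : Bsh G) : G → A := fun g => q ((g • y) 1)

/-- the configuration seen from `h` -/
def sf {G A : Type} [Group G] (h : G) (t : G → A) : G → A := fun g => t (g * h)

/-- functions that depend on the coordinates in `D` only -/
def Lc {G A B : Type} (D : Finset G) (F : (G → A) → B) : Prop := ∀ t t', (∀ g ∈ D, t g = t' g) → F t = F t'

/-- entropy of `F` given the coordinates in `J` -/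
noncomputable def ce {G A B : Type} [Group G] [Finite A] [Finite B] (ν : Measure ℝ) (q : ℝ → A) (F : (G → A) → B)
    (J : Finset G) : ℝ :=
  entc (bern G ν) (fun y => F (tq q y)) (fun y => fun g : ↥J => tq q y g)

/-! ## Boundaries mod 2 -/

/-- a finite set of edges `(s, g)`, from `g` to `gs s * g`, without boundary mod 2 -/
def Bd0 {G S : Type} [Group G] [DecidableEq G] (gs : S → G) (Ed : Finset (S × G)) : Prop :=
  ∀ x : G, Even ((Ed.filter fun e => e.2 = x).card + (Ed.filter fun e => gs e.1 * e.2 = x).card)

/-! ## Fill data: the pattern of a cell is computed from its shape and the labels -/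

section fill

variable {S I G P Sh Λ : Type} [Group G] {r : Rl S I}

/-- bag pattern computed from the shapes and the labels -/
def Bf (g : S → G) (rc : Sh → (G → Λ) → P) (w : Ps r → Sh) (t : G → Λ) : Bag r P Λ :=
  (fun c => rc (w c) (sf (FreeGroup.lift g (cw c))⁻¹ t), (t 1, fun s => t (g s)⁻¹))

/-- interface pattern (at the source) computed from the shapes and the labels -/
def If (g : S → G) (rc : Sh → (G → Λ) → P) (s : S) (δ : {q : Ps r // lp q = s} → Sh) (t : G → Λ) : Itf r s P Λ :=
  (fun q => rc (δ q) (sf (FreeGroup.lift g (cw (sc q.1)))⁻¹ t), t 1)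

/-- shapes at the source of an edge -/
def ws (s : S) (w : Ps r → Sh) : {q : Ps r // lp q = s} → Sh := fun q => w (sc q.1)

/-- shapes at the target of an edge -/
def wt' (s : S) (w : Ps r → Sh) : {q : Ps r // lp q = s} → Sh := fun q => w (tc q.1)

/-- T-edges in terms of the shapes -/
def TS (dS : Sh → Option (Ps r)) (s : S) (δ : {q : Ps r // lp q = s} → Sh) : Prop :=
  ∃ q : {q : Ps r // lp q = s}, dS (δ q) = some q.1

/-- completed T-edges: the roots get the direction `ln` of their type -/
def TH (dS : Sh → Option (Ps r)) (tS : Sh → I) (ln : I → Ps r) (s : S) (δ : {q : Ps r // lp q = s} → Sh) : Prop :=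
  ∃ q : {q : Ps r // lp q = s}, (dS (δ q)).getD (ln (tS (δ q))) = q.1

/-- shapes of the cells at a point -/
def wS {M : Type} [MulAction G M] (g : S → G) (σ : I → M → Sh) (m : M) : Ps r → Sh :=
  fun c => σ c.1 ((FreeGroup.lift g (cw c))⁻¹ • m)

/-- shapes of the cells at a point, in terms of the configuration of the marks -/
def wG {Am : Type} (g : S → G) (σ : I → (G → Am) → Sh) (t : G → Am) : Ps r → Sh :=
  fun c => σ c.1 (sf (FreeGroup.lift g (cw c))⁻¹ t)

end fill

end H33.HN
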