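import Pool.Agent.H33.HN.DefsK
import Pool.Agent.H33.BO.AmpA
import Pool.Agent.H31.BE.OEDef

/-! # HN.DefsG : orbit equivalences of a free factor: packages. Definitions only.
`G` is a free factor of `Γ` (later `Γ = G * F`). A bounded orbit equivalence of two Bernoulli shifts over `G` gives a
package over `Γ`: a cocycle of permutations `ϖ` of `Γ` over the Bernoulli shift `bern Γ ν`, the label `s y` of the point on
the other side, and a measurable reconstruction `T'` of `y` from the configuration `kcf ϖ s y` on the other side. -/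

set_option autoImplicit false
set_option synthInstance.maxSize 4000

open MeasureTheory H31.BE

namespace H33.HN

/-- restriction of a configuration to a subgroup -/
def rsG {G Γ : Type} [Group G] [Group Γ] (ι : G →* Γ) (y : Bsh Γ) : Bsh G := fun h => y (ι h)

/-- the configuration on the other side -/
def kcf {Γ : Type} [Group Γ] (ϖ : Bsh Γ → Equiv.Perm Γ) (s : Bsh Γ → ℝ) (y : Bsh Γ) : Bsh Γ :=
  fun h => s ((ϖ y).symm h⁻¹ • y)

/-- packages -/
structure Pkg {Γ : Type} [Group Γ] (μ ν : Measure ℝ) (ϖ : Bsh Γ → Equiv.Perm Γ) (s : Bsh Γ → ℝ)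
    (T' : Bsh Γ → Bsh Γ) : Prop where
  me : ∀ a b : Γ, MeasurableSet {y | ϖ y a = b}
  co : ∀ᵐ y ∂(bern Γ ν), ∀ a b : Γ, ϖ y (b * a) = ϖ (a • y) b * ϖ y a
  bd : ∀ a : Γ, ∃ F : Finset Γ, ∀ᵐ y ∂(bern Γ ν), ϖ y a ∈ F
  bd' : ∀ a : Γ, ∃ F : Finset Γ, ∀ᵐ y ∂(bern Γ ν), (ϖ y).symm a ∈ F
  sm : MeasurePreserving s (bern Γ ν) μ
  tm : Measurable T'
  te : ∀ᵐ y ∂(bern Γ ν), T' (kcf ϖ s y) = y

/-- exact cocycles of permutations -/
structure Xc {G : Type} [Group G] (π : Bsh G → Equiv.Perm G) : Prop where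
  me : ∀ a b : G, MeasurableSet {y | π y a = b}
  co : ∀ (y : Bsh G) (a b : G), π y (b * a) = π (a • y) b * π y a

/-- extension of a cocycle to a free product -/
structure Ext {G F : Type} [Group G] [Group F] (π : Bsh G → Equiv.Perm G)
    (ϖ : Bsh (Monoid.Coprod G F) → Equiv.Perm (Monoid.Coprod G F)) : Prop where
  xc : Xc ϖ
  el : ∀ y (a : G), ϖ y (Monoid.Coprod.inl a) = Monoid.Coprod.inl (π (rsG Monoid.Coprod.inl y) a)
  er : ∀ y (f : F), ϖ y (Monoid.Coprod.inr f) = Monoid.Coprod.inr f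

end H33.HN
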