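import Pool.Agent.H33.HN.DefsP
import Pool.Agent.H31.BE.EntE

/-! # HN.EDet : entropy of an array that is determined by its values on a small set

PROOF. Let `B ω := (Bd ω, fun v => if v ∈ Bd ω then om ω v else w0)` (`w0 : W` any element; if `W` is empty then `n ≥ 1` gives a contradiction). By `h` (for almost all `ω`, `ω'`) `(g, B)` determines `om`: `entc om g ≤ entc B g` (`entc om g ≤ entc (om, B) g = entc B g + entc om (B, g)`, `entc_chain`, `entc om (B, g) = 0` by `entc_of_fun`), and `entc B g ≤ ent B`.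
`ent B ≤ log (n + 1) + E (#Bd) * log (n * card W)`: `ent B ≤ ent (#Bd) + entc B (#Bd)`, `ent (#Bd) ≤ log (n + 1)`, `entc_le_count`: for `#Bd = j` the number of the values of `B` is at most `(n * card W) ^ j` (choose `j` points of `Bd` as a list with values: the map from `Fin j → Fin n × W` is onto). Or apply `H31.BE.entc_sparse` / `entc_array` to an array: the array `C ω v := if v ∈ Bd ω then some (om ω v) else none` with values in `Option W` differs from the constant array `none` at `#Bd` points; for the bound with `card W` use `entc_sparse` directly as in the proof of `entc_array`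
(module EntE: `ncard_close`). -/

set_option autoImplicit false
set_option synthInstance.maxSize 4000

open MeasureTheory H31.BE

namespace H33.HN

/-- any function on a finite discrete space is measurable in the sense of `Fm` -/
private theorem EDet_fm {Ω α : Type} [MeasurableSpace Ω] [DiscreteMeasurableSpace Ω] (f : Ω → α) :
    Fm f := fun _ => MeasurableSet.of_discrete

/-- an enumeration of the sets with `j` elements, depending only on the set -/
private theorem EDet_enum (n j : ℕ) (hn : 1 ≤ n) : ∃ e : Set (Fin n) → Fin j → Fin n,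
    ∀ D : Set (Fin n), D.ncard = j → Set.range (e D) = D := by
  classical
  have key : ∀ D : Set (Fin n), ∃ e : Fin j → Fin n, D.ncard = j → Set.range e = D := by
    intro D
    by_cases hD : D.ncard = j
    · haveI : Finite D := Set.toFinite D
      have hc : Nat.card D = j := by rw [Nat.card_coe_set_eq]; exact hD
      obtain ⟨φ⟩ : Nonempty (Fin j ≃ D) := by
        have h1 := Finite.equivFin D
        rw [hc] at h1
        exact ⟨h1.symm⟩
      refine ⟨fun i => (φ i : Fin n), fun _ => ?_⟩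
      ext v
      constructor
      · rintro ⟨i, rfl⟩
        exact (φ i).2
      · intro hv
        exact ⟨φ.symm ⟨v, hv⟩, by simp⟩
    · exact ⟨fun _ => ⟨0, hn⟩, fun h => absurd h hD⟩
  exact ⟨fun D => (key D).choose, fun D => (key D).choose_spec⟩

theorem edet {Ω W γ : Type} [Finite Ω] [MeasurableSpace Ω] [DiscreteMeasurableSpace Ω] [Finite W] [Finite γ]
    (Q : Measure Ω) [IsProbabilityMeasure Q] (n : ℕ) (hn : 1 ≤ n) (om : Ω → Fin n → W) (g : Ω → γ)
    (Bd : Ω → Set (Fin n)) (ok : Ω → Prop) (hok : ∀ᵐ ω ∂Q, ok ω)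
    (h : ∀ ω ω', ok ω → ok ω' → g ω = g ω' → Bd ω = Bd ω' → (∀ v ∈ Bd ω, om ω v = om ω' v) → om ω = om ω') :
    entc Q om g ≤ Real.log (n + 1) + (∫ ω, ((Bd ω).ncard : ℝ) ∂Q) * Real.log (n * Nat.card W) := by
  classical
  haveI hΩn : Nonempty Ω := nonempty_of_isProbabilityMeasure Q
  haveI hWn : Nonempty W := by
    obtain ⟨ω⟩ := hΩn
    exact ⟨om ω ⟨0, hn⟩⟩
  have hM : 1 ≤ n * Nat.card W := Nat.succ_le_of_lt (Nat.mul_pos hn Nat.card_pos)
  have key := entc_sparse (P := Q) (EDet_fm om) (EDet_fm g) n (n * Nat.card W) hM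
    (fun ω => (Bd ω).ncard) (EDet_fm _) (fun ω => ?_) ?_
  · have e : ((n * Nat.card W : ℕ) : ℝ) = (n : ℝ) * (Nat.card W : ℝ) := by
      push_cast
      ring
    rw [e] at key
    exact key
  · have h1 := Set.ncard_le_ncard (Set.subset_univ (Bd ω)) (Set.toFinite _)
    rw [Set.ncard_univ, Nat.card_eq_fintype_card, Fintype.card_fin] at h1
    exact h1
  intro b j
  obtain ⟨e, he⟩ := EDet_enum n j hn
  -- a point of the event at which the almost sure property holds
  have hex : ∀ a ∈ {a | 0 < Q.real (om ⁻¹' {a} ∩ g ⁻¹' {b} ∩ (fun ω => (Bd ω).ncard) ⁻¹' {j})},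
      ∃ ω, ok ω ∧ om ω = a ∧ g ω = b ∧ (Bd ω).ncard = j := by
    intro a ha
    by_contra hcon
    push Not at hcon
    have hz : Q (om ⁻¹' {a} ∩ g ⁻¹' {b} ∩ (fun ω => (Bd ω).ncard) ⁻¹' {j}) = 0 := by
      refine measure_mono_null ?_ (ae_iff.1 hok)
      rintro ω ⟨⟨h1, h2⟩, h3⟩
      exact fun hk => hcon ω hk h1 h2 h3
    have ha' : 0 < Q.real (om ⁻¹' {a} ∩ g ⁻¹' {b} ∩ (fun ω => (Bd ω).ncard) ⁻¹' {j}) := ha
    rw [Measure.real, hz] at ha'
    simp at ha'
  choose! z hz1 hz2 hz3 hz4 using hex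
  let C : (Fin n → W) → (Fin j → Fin n × W) := fun a i => (e (Bd (z a)) i, a (e (Bd (z a)) i))
  have hinj : Set.InjOn C
      {a | 0 < Q.real (om ⁻¹' {a} ∩ g ⁻¹' {b} ∩ (fun ω => (Bd ω).ncard) ⁻¹' {j})} := by
    intro a ha a' ha' hC
    have hB : Bd (z a) = Bd (z a') := by
      rw [← he _ (hz4 a ha), ← he _ (hz4 a' ha')]
      have h1 : e (Bd (z a)) = e (Bd (z a')) := by
        funext i
        exact congrArg Prod.fst (congrFun hC i)
      rw [h1]
    have hval : ∀ v ∈ Bd (z a), om (z a) v = om (z a') v := by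
      intro v hv
      rw [← he _ (hz4 a ha)] at hv
      obtain ⟨i, hi⟩ := hv
      have h1 : e (Bd (z a)) i = e (Bd (z a')) i := congrArg Prod.fst (congrFun hC i)
      have h2 : a (e (Bd (z a)) i) = a' (e (Bd (z a')) i) := congrArg Prod.snd (congrFun hC i)
      rw [hz2 a ha, hz2 a' ha', ← hi, h2, ← h1]
    have h3 := h (z a) (z a') (hz1 a ha) (hz1 a' ha') ((hz3 a ha).trans (hz3 a' ha').symm) hB hval
    rw [hz2 a ha, hz2 a' ha'] at h3
    exact h3
  calc _ = (C '' {a | 0 < Q.real (om ⁻¹' {a} ∩ g ⁻¹' {b} ∩ (fun ω => (Bd ω).ncard) ⁻¹' {j})}).ncard :=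
        (Set.ncard_image_of_injOn hinj).symm
    _ ≤ (Set.univ : Set (Fin j → Fin n × W)).ncard :=
        Set.ncard_le_ncard (Set.subset_univ _) (Set.toFinite _)
    _ = (n * Nat.card W) ^ j := by
        rw [Set.ncard_univ, Nat.card_fun, Nat.card_prod]
        simp

end H33.HN
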