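import Pool.Agent.H33.HN.Cons
import Pool.Agent.H33.HN.BbA

/-! # HN.Evs : evaluation of the decoded maps

PROOF. Compare H33/BO/EvsA. Induction on `w`. `[]`: `f = 1`. `p :: w`: `f1` for `w`, `u := evf .. w v = ac X f1 v`, `walk L t (w.map ll) = lift g f1` (`t h = pr (lb (h • y v))`), `lb (lift g f1 • y v) = lb (y u)` by the last part, so `sm .. p u = ac X (rp c) u` with `c = L.c (ll g p) (pr (lb (y u))) = L.c _ (t (walk ..))`, `c ∈ ball L.C` (`L.hc`), so `f := rp c * f1`: `lift g f = c * walk .. = walk L t (ll g p :: ..)`, `norm ≤ L.C + L.C * w.length`.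
Last part for `f`: `cons` (its hypothesis: all `f'` with `f'.norm ≤ f.norm ≤ m`: `bb_mis`). -/

set_option autoImplicit false
set_option synthInstance.maxSize 4000

open MeasureTheory H31.BE

namespace H33.HN

variable {S I : Type} [Fintype S] [DecidableEq S] {r : Rl S I} {G Y Λ P V : Type} [Group G] [DecidableEq G]
  [MulAction G Y] (g : S → G) (lb : Y → Λ) (R : ℕ) (φ : I → Y → P)
  (om : V → Bag r P (↥(ball (SS g) R) → Λ)) (y : V → Y)
  (hom : ∀ v, om v = bgp g (win lb (ball (SS g) R)) φ (y v)) (X : S → Equiv.Perm V)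

variable {Λ0 : Type} (pr : Λ → Λ0) (L : Lab (SS g) Λ0) (rp : G → FreeGroup S)
  (hrp : ∀ m h, h ∈ ball (SS g) m → (rp h).norm ≤ m ∧ FreeGroup.lift g (rp h) = h)

include hom hrp

theorem evs (v : V) (w : List (S × Bool)) (m : ℕ) (hw : L.C * w.length ≤ m) (hm : m ≤ R)
    (hv : v ∉ BB g om X m) :
    ∃ f : FreeGroup S, f.norm ≤ L.C * w.length ∧
      FreeGroup.lift g f = walk L (fun h => pr (lb (h • y v))) (w.map (ll g)) ∧
      evf (sm g L rp (fun v => pr (lb (y v))) X) w v = ac X f v ∧
      lb (walk L (fun h => pr (lb (h • y v))) (w.map (ll g)) • y v) =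
        lb (y (evf (sm g L rp (fun v => pr (lb (y v))) X) w v)) := by
  induction w with
  | nil =>
    refine ⟨1, ?_, ?_, ?_, ?_⟩
    · rw [FreeGroup.norm_one]
      exact Nat.zero_le _
    · rw [map_one]
      rfl
    · rw [map_one]
      rfl
    · show lb ((1 : G) • y v) = lb (y v)
      rw [one_smul]
  | cons p w ih =>
    have hlen : (p :: w).length = w.length + 1 := rfl
    rw [hlen] at hw ⊢
    have hle : L.C * w.length ≤ L.C * (w.length + 1) := Nat.mul_le_mul_left _ (Nat.le_succ _)
    obtain ⟨f1, h1, h2, h3, h4⟩ := ih (hle.trans hw)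
    set g1 := walk L (fun h => pr (lb (h • y v))) (w.map (ll g)) with hg1
    set c := L.c (ll g p) (pr (lb (g1 • y v))) with hc
    have hcb : c ∈ ball (SS g) L.C := L.hc _ _
    obtain ⟨hn, hl⟩ := hrp L.C c hcb
    have hnorm : (rp c * f1).norm ≤ L.C * (w.length + 1) := by
      refine (FreeGroup.norm_mul_le _ _).trans ?_
      rw [Nat.mul_add, Nat.mul_one, Nat.add_comm]
      exact Nat.add_le_add h1 hn
    have hwalk : walk L (fun h => pr (lb (h • y v))) ((p :: w).map (ll g)) = c * g1 := rfl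
    have hlift : FreeGroup.lift g (rp c * f1) = c * g1 := by
      rw [map_mul, hl, h2]
    have hev : evf (sm g L rp (fun v => pr (lb (y v))) X) (p :: w) v = ac X (rp c * f1) v := by
      show sm g L rp (fun v => pr (lb (y v))) X p (evf (sm g L rp (fun v => pr (lb (y v))) X) w v) = _
      unfold sm
      rw [map_mul, Equiv.Perm.mul_apply, ← h3]
      have h5 : lb (y (evf (sm g L rp (fun v => pr (lb (y v))) X) w v)) = lb (g1 • y v) := h4.symm
      show ac X (rp (L.c (ll g p) (pr (lb (y (evf (sm g L rp (fun v => pr (lb (y v))) X) w v))))))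
        (evf (sm g L rp (fun v => pr (lb (y v))) X) w v) = _
      rw [h5]
    refine ⟨rp c * f1, hnorm, ?_, hev, ?_⟩
    · rw [hwalk, hlift]
    · rw [hwalk, ← hlift, hev]
      exact cons g lb R φ om y hom X v (rp c * f1) (hnorm.trans (hw.trans hm))
        fun f' hf' hmis => hv (Or.inl ⟨f', hf'.trans (hnorm.trans hw), hmis⟩)

end H33.HN
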