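import Pool.Agent.H33.HN.DefsF
import Pool.Agent.H31.BE.EntF

/-! # HN.FdA : entropy of a mixture

PROOF. For `c : B` with `shp c = w0`: `{z | F (w z.2) z.1 = c} = {y | F w0 y = c} ×ˢ {m | w m = w0}` (`shp (F (w m) y) = w m`), so its measure is `p_c * a_w0` (`Measure.prod_prod`, `measureReal` product), `p_c := PY.real {y | F w0 y = c}`, `a_w0 := PM.real {m | w m = w0}`, and `η (p a) = a η p + p η a` (`Real.negMulLog_mul`). Group the sum over `c : B` by `w0 = shp c` (`Finset.sum_fiberwise`): `∑ (c, shp c = w0) η (p_c a) = a * ∑ η p_c + η a * ∑ p_c = a * ent PY (F w0) + η a` (the `c` with `shp c ≠ w0` have `p_c = 0`, and `∑ p_c = 1`).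
`mix_ent` is the case `T = False` (`ent_eq`). -/

set_option autoImplicit false
set_option synthInstance.maxSize 4000

open MeasureTheory H31.BE

namespace H33.HN

variable {Y M B W : Type} [MeasurableSpace Y] [MeasurableSpace M] [Fintype B] [Fintype W] (PY : Measure Y)
  (PM : Measure M) [IsProbabilityMeasure PY] [IsProbabilityMeasure PM] (w : M → W) (hw : Fm w) (F : W → Y → B)
  (hF : ∀ w0, Fm (F w0)) (shp : B → W) (hs : ∀ w0 y, shp (F w0 y) = w0)

include hw hF hs

private theorem FdA_term (w0 : W) : Real.negMulLog (PM.real {m | w m = w0}) + PM.real {m | w m = w0} * ent PY (F w0) =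
    ∑ c : B, (open Classical in if shp c = w0 then
      Real.negMulLog ((PY.prod PM).real {z | F (w z.2) z.1 = c}) else 0) := by
  classical
  have hprod : ∀ c : B, shp c = w0 → (PY.prod PM).real {z : Y × M | F (w z.2) z.1 = c} =
      PY.real (F w0 ⁻¹' {c}) * PM.real {m | w m = w0} := by
    intro c hc
    have e : {z : Y × M | F (w z.2) z.1 = c} = (F w0 ⁻¹' {c}) ×ˢ {m | w m = w0} := by
      ext z
      simp only [Set.mem_setOf_eq, Set.mem_prod, Set.mem_preimage, Set.mem_singleton_iff]
      constructor
      · intro h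
        have h1 : w z.2 = w0 := by rw [← hs (w z.2) z.1, h, hc]
        rw [h1] at h
        exact ⟨h, h1⟩
      · rintro ⟨h1, h2⟩
        rw [h2]
        exact h1
    rw [e, Measure.real, Measure.real, Measure.real, Measure.prod_prod, ENNReal.toReal_mul]
  have hzero : ∀ c : B, shp c ≠ w0 → PY.real (F w0 ⁻¹' {c}) = 0 := by
    intro c hc
    have e : F w0 ⁻¹' {c} = (∅ : Set Y) := by
      ext y
      simp only [Set.mem_preimage, Set.mem_singleton_iff, Set.mem_empty_iff_false, iff_false]
      intro h
      exact hc (by rw [← h, hs])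
    rw [e, measureReal_empty]
  have hterm : ∀ c : B, (if shp c = w0 then
      Real.negMulLog ((PY.prod PM).real {z : Y × M | F (w z.2) z.1 = c}) else 0) =
      PM.real {m | w m = w0} * Real.negMulLog (PY.real (F w0 ⁻¹' {c})) +
      PY.real (F w0 ⁻¹' {c}) * Real.negMulLog (PM.real {m | w m = w0}) := by
    intro c
    by_cases hc : shp c = w0
    · rw [if_pos hc, hprod c hc, Real.negMulLog_mul]
    · rw [if_neg hc, hzero c hc, Real.negMulLog_zero]
      ring
  rw [Finset.sum_congr rfl (fun c _ => hterm c), Finset.sum_add_distrib, ← Finset.mul_sum, ← Finset.sum_mul,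
    entF_sum (hF w0), ← ent_eq]
  ring

theorem mix (T : W → Prop) :
    (∑ c : B, (open Classical in if T (shp c) then 0 else
      Real.negMulLog ((PY.prod PM).real {z | F (w z.2) z.1 = c}))) =
    ∑ w0 : W, (open Classical in if T w0 then 0 else
      Real.negMulLog (PM.real {m | w m = w0}) + PM.real {m | w m = w0} * ent PY (F w0)) := by
  classical
  have h1 : ∀ w0 : W, (if T w0 then (0 : ℝ) else
      Real.negMulLog (PM.real {m | w m = w0}) + PM.real {m | w m = w0} * ent PY (F w0)) =
      ∑ c : B, (if shp c = w0 then (if T w0 then 0 else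
        Real.negMulLog ((PY.prod PM).real {z : Y × M | F (w z.2) z.1 = c})) else 0) := by
    intro w0
    by_cases hT : T w0
    · simp [hT]
    · simp only [if_neg hT]
      exact FdA_term PY PM w hw F hF shp hs w0
  rw [Finset.sum_congr rfl (fun w0 _ => h1 w0), Finset.sum_comm]
  refine Finset.sum_congr rfl fun c _ => ?_
  rw [Finset.sum_ite_eq]
  simp

theorem mix_ent : ent (PY.prod PM) (fun z => F (w z.2) z.1) =
    ent PM w + ∑ w0 : W, PM.real {m | w m = w0} * ent PY (F w0) := by
  have h := mix PY PM w hw F hF shp hs (fun _ => False)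
  simp only [if_false, Finset.sum_add_distrib] at h
  rw [ent_eq, ent_eq]
  exact h

end H33.HN
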