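import Pool.Agent.H33.HN.DefsF
import Pool.Agent.H33.HN.WrdA

/-! # HN.FdC : bags of the fill data: formula, matching, locality

PROOF. `tq_smul`: `(x • h • y) 1 = ((x * h) • y) 1`. `bgp_fill`: first component at `c`: `rc (σ c.1 (tq qm ((gw c)⁻¹ • z.2))) (fun h => β (h • (gw c)⁻¹ • z.1))`, with `tq_smul` and `mul_smul` this is the component of `Bf g rc (wG g σ (tq qm z.2)) (fun h => β (h • z.1))`. `src_bf`: `rfl`. `bf_match`: with `gw (tc q) = g s * gw (sc q)` for `lp q = s` (`gw_edge`): `σ (sf (gw (tc q))⁻¹ (sf (g s) t)) = σ (sf (gw (sc q))⁻¹ t)` (`sf h (sf k t) = sf (h * k) t`), the same for the labels; `(sf (g s) l) (g s)⁻¹ = l 1`.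
`ws_match`: the same for the shapes. `bf_loc`: `Bf g rc w0 l` depends on `l` on the set `D * {(gw c)⁻¹} ∪ {1} ∪ {(g s)⁻¹}`. `bf_lc`: with `l h = β' (sf h t)`: `β' (sf h t)` depends on `t` on `D' h`; the finite union over the set of `bf_loc`. `wg_lc`: `σ c.1 (sf h t)` depends on `t` on `D h`. (Take the union over all `w0 : Ps r → Sh`: the set does not depend on `w0`.) -/

set_option autoImplicit false
set_option synthInstance.maxSize 4000

open MeasureTheory H31.BE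

namespace H33.HN

variable {S I : Type} [Fintype S] [Fintype I] [DecidableEq S] [DecidableEq I] {r : Rl S I} {G : Type} [Group G]
  [DecidableEq G] {P Sh Λ Am : Type}

omit [DecidableEq G] in
theorem tq_smul {A : Type} (q : ℝ → A) (h : G) (y : Bsh G) : tq q (h • y) = sf h (tq q y) := by
  funext x
  show q ((x • h • y) 1) = q (((x * h) • y) 1)
  rw [mul_smul]

omit [DecidableEq G] in
theorem sf_sf {A : Type} (h k : G) (t : G → A) : sf h (sf k t) = sf (h * k) t := by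
  funext x
  show t ((x * h) * k) = t (x * (h * k))
  rw [mul_assoc]

omit [Fintype S] [Fintype I] [DecidableEq S] [DecidableEq I] [DecidableEq G] in
theorem bgp_fill (g : S → G) (rc : Sh → (G → Λ) → P) (σ : I → (G → Am) → Sh) (qm : ℝ → Am) (β : Bsh G → Λ)
    (z : Bsh G × Bsh G) :
    bgp (r := r) g (fun z : Bsh G × Bsh G => β z.1)
        (fun i (z : Bsh G × Bsh G) => rc (σ i (tq qm z.2)) (fun h => β (h • z.1))) z =
      Bf g rc (wG g σ (tq qm z.2)) (fun h => β (h • z.1)) := by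
  unfold bgp Bf wG
  refine Prod.ext ?_ (Prod.ext ?_ rfl)
  swap
  · show β z.1 = β ((1 : G) • z.1)
    rw [one_smul]
  funext c
  show rc (σ c.1 (tq qm ((FreeGroup.lift g (cw c))⁻¹ • z).2))
      (fun h => β (h • ((FreeGroup.lift g (cw c))⁻¹ • z).1)) =
    rc (σ c.1 (sf (FreeGroup.lift g (cw c))⁻¹ (tq qm z.2)))
      (sf (FreeGroup.lift g (cw c))⁻¹ (fun h => β (h • z.1)))
  rw [Prod.smul_snd, Prod.smul_fst, tq_smul]
  congr 1
  funext h
  show β (h • (FreeGroup.lift g (cw c))⁻¹ • z.1) = β ((h * (FreeGroup.lift g (cw c))⁻¹) • z.1)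
  rw [mul_smul]

omit [Fintype S] [Fintype I] [DecidableEq S] [DecidableEq I] [DecidableEq G] in
theorem src_bf (g : S → G) (rc : Sh → (G → Λ) → P) (s : S) (w : Ps r → Sh) (l : G → Λ) :
    src s (Bf g rc w l) = If g rc s (ws s w) l := by
  rfl

omit [Fintype S] [Fintype I] [DecidableEq S] [DecidableEq I] [DecidableEq G] in
theorem bf_match (g : S → G) (hg : Pres r g) (rc : Sh → (G → Λ) → P) (σ : I → (G → Am) → Sh) (s : S)
    (t : G → Am) (l : G → Λ) :
    src s (Bf g rc (wG g σ t : Ps r → Sh) l) = tgt s (Bf g rc (wG g σ (sf (g s) t)) (sf (g s) l)) := by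
  unfold src tgt Bf wG
  refine Prod.ext ?_ ?_
  · funext q
    show rc (σ (sc q.1).1 (sf (FreeGroup.lift g (cw (sc q.1)))⁻¹ t))
        (sf (FreeGroup.lift g (cw (sc q.1)))⁻¹ l) =
      rc (σ (tc q.1).1 (sf (FreeGroup.lift g (cw (tc q.1)))⁻¹ (sf (g s) t)))
        (sf (FreeGroup.lift g (cw (tc q.1)))⁻¹ (sf (g s) l))
    rw [sf_sf, sf_sf, gw_edge g hg q.1, q.2, mul_inv_rev, inv_mul_cancel_right, sc_fst, tc_fst]
  · show l 1 = l ((g s)⁻¹ * g s)
    rw [inv_mul_cancel]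

omit [Fintype S] [Fintype I] [DecidableEq S] [DecidableEq I] [DecidableEq G] in
theorem ws_match (g : S → G) (hg : Pres r g) (σ : I → (G → Am) → Sh) (s : S) (t : G → Am) :
    ws s (wG g σ t : Ps r → Sh) = wt' s (wG g σ (sf (g s) t)) := by
  funext q
  show σ (sc q.1).1 (sf (FreeGroup.lift g (cw (sc q.1)))⁻¹ t) =
    σ (tc q.1).1 (sf (FreeGroup.lift g (cw (tc q.1)))⁻¹ (sf (g s) t))
  rw [sf_sf, gw_edge g hg q.1, q.2, mul_inv_rev, inv_mul_cancel_right, sc_fst, tc_fst]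

omit [DecidableEq S] [DecidableEq I] in
theorem bf_loc (g : S → G) (rc : Sh → (G → Λ) → P) (D : Finset G) (hrc : ∀ σ, Lc D (rc σ)) :
    ∃ D1 : Finset G, (1 : G) ∈ D1 ∧ ∀ w0 : Ps r → Sh, Lc D1 (Bf g rc w0) := by
  classical
  refine ⟨insert 1 ((Finset.univ.image fun s : S => (g s)⁻¹) ∪
    Finset.univ.biUnion fun c : Ps r => D.image fun h => h * (FreeGroup.lift g (cw c))⁻¹),
    Finset.mem_insert_self _ _, ?_⟩
  intro w0 t t' h
  unfold Bf
  refine Prod.ext ?_ (Prod.ext ?_ ?_)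
  · funext c
    show rc (w0 c) (sf (FreeGroup.lift g (cw c))⁻¹ t) = rc (w0 c) (sf (FreeGroup.lift g (cw c))⁻¹ t')
    refine hrc (w0 c) _ _ fun x hx => ?_
    show t (x * (FreeGroup.lift g (cw c))⁻¹) = t' (x * (FreeGroup.lift g (cw c))⁻¹)
    refine h _ (Finset.mem_insert_of_mem (Finset.mem_union_right _ ?_))
    exact Finset.mem_biUnion.2 ⟨c, Finset.mem_univ _, Finset.mem_image_of_mem _ hx⟩
  · exact h _ (Finset.mem_insert_self _ _)
  · funext s
    exact h _ (Finset.mem_insert_of_mem (Finset.mem_union_left _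
      (Finset.mem_image_of_mem _ (Finset.mem_univ s))))

omit [DecidableEq S] [DecidableEq I] in
theorem bf_lc {A : Type} (g : S → G) (rc : Sh → (G → Λ) → P) (D : Finset G) (hrc : ∀ σ, Lc D (rc σ))
    (β' : (G → A) → Λ) (D' : Finset G) (hβ' : Lc D' β') :
    ∃ D1 : Finset G, (1 : G) ∈ D1 ∧ ∀ w0 : Ps r → Sh, Lc D1 (fun t : G → A => Bf g rc w0 (fun h => β' (sf h t))) := by
  classical
  obtain ⟨D1, _, h1⟩ := bf_loc (r := r) g rc D hrc
  refine ⟨insert 1 (D1.biUnion fun h => D'.image fun x => x * h), Finset.mem_insert_self _ _, ?_⟩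
  intro w0 t t' ht
  refine h1 w0 _ _ fun h hh => ?_
  show β' (sf h t) = β' (sf h t')
  refine hβ' _ _ fun x hx => ?_
  show t (x * h) = t' (x * h)
  exact ht _ (Finset.mem_insert_of_mem (Finset.mem_biUnion.2 ⟨h, hh, Finset.mem_image_of_mem _ hx⟩))

omit [DecidableEq S] [DecidableEq I] in
theorem wg_lc [Fintype I] (g : S → G) (D : Finset G) (σ : I → (G → Am) → Sh) (hσ : ∀ i, Lc D (σ i)) :
    ∃ D1 : Finset G, (1 : G) ∈ D1 ∧ Lc D1 (fun t : G → Am => (wG g σ t : Ps r → Sh)) := by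
  classical
  refine ⟨insert 1 (Finset.univ.biUnion fun c : Ps r =>
    D.image fun h => h * (FreeGroup.lift g (cw c))⁻¹), Finset.mem_insert_self _ _, ?_⟩
  intro t t' h
  funext c
  show σ c.1 (sf (FreeGroup.lift g (cw c))⁻¹ t) = σ c.1 (sf (FreeGroup.lift g (cw c))⁻¹ t')
  refine hσ c.1 _ _ fun x hx => ?_
  show t (x * (FreeGroup.lift g (cw c))⁻¹) = t' (x * (FreeGroup.lift g (cw c))⁻¹)
  exact h _ (Finset.mem_insert_of_mem (Finset.mem_biUnion.2
    ⟨c, Finset.mem_univ _, Finset.mem_image_of_mem _ hx⟩))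

end H33.HN
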