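import Pool.Agent.H33.HN.Defs
import Pool.Agent.H33.HN.WrdA

/-! # HN.SupA : bag patterns of a G-space: support conditions and interfaces

PROOF. `gw c := lift g (cw c)`, `gw (tc p) = g (lp p) * gw (sc p)` (`gw_edge`), `(sc p).1 = (tc p).1 = p.1`. `bgp_sup`: s0: `h.t`. s1: with `z0 = (gw (sc p))⁻¹ • z`: `h.p p.1 z0 p _ q` gives `φ q.1 (lift g (pg p q) • z0) = par (φ p.1 z0) q` and `lift g (pg p q) • z0 = (gw (sc q))⁻¹ • z`. s2: `z0 = (gw (tc p))⁻¹ • z`: `lift g (pg p q) • z0 = (gw (sc q))⁻¹ • (g (lp p))⁻¹ • z = (gw (tc q))⁻¹ • z` since `lp q = lp p`.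
s3: `h.l`: `lab (φ c.1 ((gw c)⁻¹ • z)) c = some (b (gw c • (gw c)⁻¹ • z))`. s4: `(sc p).1 = (tc p).1`, `b (gw (sc p) • (gw (tc p))⁻¹ • z) = b ((g (lp p))⁻¹ • z)`. (To rewrite `φ (sc p).1` to `φ p.1` use cases on `sg p` (unfold `sc`, `tc`): `(nx p).1 = p.1` holds by `rfl`.)
`bgp_src`: for `q` with `lp q = s`: `(gw (tc q))⁻¹ • g s • z = (gw (sc q))⁻¹ • z`; the labels: `(g s)⁻¹ • g s • z = z`. `bgp_marg`: by `bgp_src` the first set is the preimage of the second under `y ↦ g s • y`, which preserves `PY` (`hP`; `MeasurePreserving.measure_preimage` needs the measurability of the second set: `fm_bgp`, a union of finitely many fibres). `fm_bgp`: `Fm.pi`, pairs (`Fm.prodMk` or similar in H31.BE.EntA), `Fm.comp_measurable`. -/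

set_option autoImplicit false
set_option synthInstance.maxSize 4000

open MeasureTheory H31.BE

namespace H33.HN

variable {S I : Type} {r : Rl S I}

variable [Fintype S] [Fintype I] [DecidableEq S] [DecidableEq I] {G Z P Λ : Type} [Group G] [MulAction G Z]

omit [Fintype S] [Fintype I] [DecidableEq S] [DecidableEq I] in
private theorem supA_fst (g : S → G) (b : Z → Λ) (φ : I → Z → P) (z : Z) (c : Ps r) (i : I) (h : c.1 = i) :
    (bgp g b φ z).1 c = φ i ((FreeGroup.lift g (cw c))⁻¹ • z) := by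
  subst h
  rfl

theorem bgp_sup (g : S → G) (hg : Pres r g) (sy : Psy r P Λ) (b : Z → Λ) (φ : I → Z → P) (h : Prc g sy b φ) (z : Z) :
    Sup sy (bgp g b φ z) where
  s0 := fun c => h.t c.1 _
  s1 := by
    intro p hd q hq
    rw [supA_fst g b φ z (sc p) p.1 (sc_fst p)] at hd ⊢
    rw [supA_fst g b φ z (sc q) q.1 (sc_fst q), ← h.p p.1 _ p hd q hq, pg, map_mul, map_inv, mul_smul,
      smul_inv_smul]
  s2 := by
    intro p hd q hq
    rw [supA_fst g b φ z (tc p) p.1 (tc_fst p)] at hd ⊢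
    rw [supA_fst g b φ z (tc q) q.1 (tc_fst q), ← h.p p.1 _ p hd q hq, pg, map_mul, map_inv,
      gw_edge g hg p, gw_edge g hg q, hq.1, mul_inv_rev, mul_inv_rev, ← mul_smul, mul_assoc,
      mul_inv_cancel_left]
  s3 := by
    intro c
    show sy.lab (φ c.1 ((FreeGroup.lift g (cw c))⁻¹ • z)) c = some (b z)
    rw [h.l, if_pos rfl, smul_inv_smul]
  s4 := by
    intro p
    show sy.lab ((bgp g b φ z).1 (tc p)) (sc p) = some (b ((g (lp p))⁻¹ • z))
    rw [supA_fst g b φ z (tc p) p.1 (tc_fst p), h.l, if_pos (sc_fst p), gw_edge g hg p, mul_inv_rev,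
      ← mul_smul, mul_inv_cancel_left]

omit [Fintype S] [Fintype I] [DecidableEq S] [DecidableEq I] in
theorem bgp_src (g : S → G) (hg : Pres r g) (b : Z → Λ) (φ : I → Z → P) (s : S) (z : Z) :
    src (r := r) s (bgp g b φ z) = tgt s (bgp g b φ (g s • z)) := by
  refine Prod.ext ?_ ?_
  · funext q
    show (bgp g b φ z).1 (sc q.1) = (bgp g b φ (g s • z)).1 (tc q.1)
    rw [supA_fst g b φ z (sc q.1) q.1.1 (sc_fst q.1), supA_fst g b φ (g s • z) (tc q.1) q.1.1 (tc_fst q.1),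
      gw_edge g hg q.1, q.2, mul_inv_rev, mul_smul, inv_smul_smul]
  · show b z = b ((g s)⁻¹ • g s • z)
    rw [inv_smul_smul]

omit [DecidableEq S] [DecidableEq I] in
theorem fm_bgp [MeasurableSpace Z] [Finite P] [Finite Λ] (g : S → G) (hm : ∀ h : G, Measurable fun z : Z => h • z)
    (b : Z → Λ) (hb : Fm b) (φ : I → Z → P) (hφ : ∀ i, Fm (φ i)) : Fm (bgp (r := r) g b φ) := by
  have h1 : Fm (fun z : Z => fun c : Ps r => φ c.1 ((FreeGroup.lift g (cw c))⁻¹ • z)) :=
    Fm.pi (ι := Ps r) (κ := fun _ => P) (f := fun c z => φ c.1 ((FreeGroup.lift g (cw c))⁻¹ • z))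
      fun c => (hφ c.1).comp_measurable (hm _)
  have h2 : Fm (fun z : Z => fun s : S => b ((g s)⁻¹ • z)) :=
    Fm.pi (ι := S) (κ := fun _ => Λ) (f := fun s z => b ((g s)⁻¹ • z)) fun s => hb.comp_measurable (hm _)
  exact h1.prodMk (hb.prodMk h2)

omit [DecidableEq S] [DecidableEq I] in
theorem bgp_marg [MeasurableSpace Z] [Finite P] [Finite Λ] (g : S → G) (hg : Pres r g) (PZ : Measure Z)
    [IsProbabilityMeasure PZ] (hP : Inv G PZ) (b : Z → Λ) (hb : Fm b) (φ : I → Z → P) (hφ : ∀ i, Fm (φ i))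
    (s : S) (q : Itf r s P Λ) :
    PZ.real {y | src s (bgp g b φ y) = q} = PZ.real {y | tgt s (bgp g b φ y) = q} := by
  have h1 : {y | src s (bgp g b φ y) = q} = (fun y : Z => g s • y) ⁻¹' {y | tgt s (bgp g b φ y) = q} := by
    ext y
    simp only [Set.mem_ofPred_eq, Set.mem_preimage]
    rw [bgp_src g hg]
  have h2 : MeasurableSet {y | tgt s (bgp g b φ y) = q} :=
    ((fm_bgp g (fun h => (hP h).measurable) b hb φ hφ).comp (fun Φ => tgt s Φ)) q
  rw [h1, measureReal_def, measureReal_def, (hP (g s)).measure_preimage h2.nullMeasurableSet]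

end H33.HN
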