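import Pool.Agent.H33.HN.FdA
import Pool.Agent.H33.HN.FdC
import Pool.Agent.H33.HN.SupA
import Pool.Agent.H31.BE.EntF

/-! # HN.FdB : the functional of the bag law (paper 3.3)

PROOF. Write `PZ := (bern G ν).prod (bern G ζ)` (invariant under the diagonal action: `MeasurePreserving.prod`, `inv_bern`), `Φ := bgp ..`. By `bgp_fill` `Φ z = F (w z.2) z.1` with `w m := wG g σ (tq qm m)`, `F w0 y := Bf g rc w0 (fun h => β (h • y))`, measurable: a function of the finitely many `β (h • y)` (`bf_loc`; the proof of `fm_lc`), `w` is a function of finitely many `tq qm m g` (`wg_lc`). `∑ Φ, η (law Φ) = ent PZ Φ` (`ent_eq`) and `mix_ent` with the shape map `Φ ↦ fun c => shp (Φ.1 c)` give the first two terms.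
`Gn`: for `s` and an interface pattern `q`: `∑ (Φ, tgt Φ = q) law Φ = PZ.real {tgt s (Φ z) = q} = PZ.real {src s (Φ z) = q}` (`bgp_marg`; additivity), `src s (Φ z) = If g rc s (ws s (w z.2)) (fun h => β (h • z.1))` (`src_bf`), and `TT (dS ∘ shp) s q ↔ TS dS s (shapes of q)` (by definition). `mix` for `W := ({q // lp q = s} → Sh)`, `w := ws s ∘ w`, `T := TS dS s`, shape map `q ↦ fun x => shp (q.1 x)`.
(`BO.law PZ Φ t = PZ.real (Φ ⁻¹' {t})`; instances of `Fintype` agree by `Subsingleton.elim`.) -/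

set_option autoImplicit false
set_option synthInstance.maxSize 4000

open MeasureTheory H31.BE

namespace H33.HN

private theorem fdB_sum {Ω B Q : Type} [MeasurableSpace Ω] [Fintype B] (PZ : Measure Ω) [IsProbabilityMeasure PZ]
    (Φ : Ω → B) (hΦ : Fm Φ) (t : B → Q) (q : Q) [DecidablePred fun b => t b = q] :
    ∑ b ∈ Finset.univ.filter (fun b => t b = q), BO.law PZ Φ b = PZ.real {z | t (Φ z) = q} := by
  have h : {z | t (Φ z) = q} = ⋃ b ∈ Finset.univ.filter (fun b => t b = q), Φ ⁻¹' {b} := by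
    ext z
    simp
  rw [h, measureReal_biUnion_finset]
  · rfl
  · intro a _ b _ hab
    rw [Function.onFun, Set.disjoint_left]
    intro m h1 h2
    exact hab (Eq.trans (Eq.symm h1) h2)
  · intro a _
    exact hΦ a

private theorem fdB_lc {G : Type} [Group G] (ν : Measure ℝ) [IsProbabilityMeasure ν] [Countable G]
    {Λ B : Type} [Finite Λ] (β : Bsh G → Λ) (hβ : Fm β) (D1 : Finset G) (R : (G → Λ) → B) (hR : Lc D1 R) :
    Fm (fun y : Bsh G => R (fun h => β (h • y))) := by
  classical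
  have h1 : Fm (fun (y : Bsh G) (h : ↥D1) => β ((h : G) • y)) := by
    refine Fm.pi (f := fun (h : ↥D1) (y : Bsh G) => β ((h : G) • y)) fun h => ?_
    exact hβ.comp_measurable ((inv_bern (G := G) ν (h : G)).measurable)
  let y0 : Bsh G := fun _ => 0
  have h2 := h1.comp (fun w : ↥D1 → Λ => R fun h => if hh : h ∈ D1 then w ⟨h, hh⟩ else β y0)
  have e : (fun y : Bsh G => R (fun h => β (h • y))) = fun y : Bsh G =>
      R fun h => if hh : h ∈ D1 then β (h • y) else β y0 := by
    funext y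
    refine hR _ _ fun h hh => ?_
    rw [dif_pos hh]
  rw [e]
  exact h2

private theorem fdB_tq {G : Type} [Group G] {A B : Type} [Finite A] (q : ℝ → A) (hq : Fm q) (D' : Finset G)
    (β' : (G → A) → B) (hβ' : Lc D' β') : Fm (fun y : Bsh G => β' (tq q y)) := by
  classical
  have h1 : Fm (fun (y : Bsh G) (h : ↥D') => q ((((h : G)) • y) 1)) := by
    refine Fm.pi (f := fun (h : ↥D') (y : Bsh G) => q (((h : G) • y) 1)) fun h => ?_
    have hm : Measurable fun y : Bsh G => ((h : G) • y) 1 := measurable_eval ((h : G)⁻¹ * 1)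
    exact Fm.comp_measurable hm hq
  have h2 := h1.comp (fun w : ↥D' → A => β' fun h => if hh : h ∈ D' then w ⟨h, hh⟩ else q 0)
  have e : (fun y : Bsh G => β' (tq q y)) = fun y : Bsh G =>
      β' fun h => if hh : h ∈ D' then q ((h • y) 1) else q 0 := by
    funext y
    refine hβ' _ _ fun h hh => ?_
    rw [dif_pos hh]
    rfl
  rw [e]
  exact h2

private theorem fdB_sf {G Λ B : Type} [Group G] [DecidableEq G] (D : Finset G) (R : (G → Λ) → B) (hR : Lc D R)
    (k : G) : Lc (D.image fun h => h * k) (fun t => R (sf k t)) := by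
  intro t t' h
  refine hR _ _ fun x hx => ?_
  exact h _ (Finset.mem_image_of_mem _ hx)

private theorem fdB_inv {G : Type} [Group G] [DecidableEq G] [Countable G] (ν ζ : Measure ℝ) [IsProbabilityMeasure ν]
    [IsProbabilityMeasure ζ] : Inv G ((bern G ν).prod (bern G ζ)) := by
  intro h
  exact (inv_bern (G := G) ν h).prod (inv_bern (G := G) ζ h)

variable {S I : Type} [Fintype S] [Fintype I] [DecidableEq S] [DecidableEq I] {r : Rl S I} {G : Type} [Group G]
  [DecidableEq G] [Countable G] (g : S → G) (hg : Pres r g) (ν ζ : Measure ℝ) [IsProbabilityMeasure ν]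
  [IsProbabilityMeasure ζ] {P Sh Λ Am : Type} [Finite P] [Fintype Sh] [Finite Λ] [Finite Am]
  (dS : Sh → Option (Ps r)) (tS : Sh → I) (ln : I → Ps r) (shp : P → Sh) (rc : Sh → (G → Λ) → P)
  (hshp : ∀ x t, shp (rc x t) = x) (D : Finset G) (hrc : ∀ x, Lc D (rc x)) (qm : ℝ → Am) (hqm : Fm qm)
  (σ : I → (G → Am) → Sh) (hσ : ∀ i, Lc D (σ i))

include hg hshp hrc hqm hσ

theorem fdec (β : Bsh G → Λ) (hβ : Fm β) :
    Fn (fun p : P => dS (shp p)) (BO.law ((bern G ν).prod (bern G ζ)) (bgp g (fun z : Bsh G × Bsh G => β z.1)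
        (fun i (z : Bsh G × Bsh G) => rc (σ i (tq qm z.2)) (fun h => β (h • z.1))))) =
      ent (bern G ζ) (fun m => (wG g σ (tq qm m) : Ps r → Sh)) +
      (∑ w0 : Ps r → Sh, (bern G ζ).real {m | wG g σ (tq qm m) = w0} *
        ent (bern G ν) (fun y => Bf g rc w0 (fun h => β (h • y)))) -
      ∑ s, ∑ δ : {q : Ps r // lp q = s} → Sh, (open Classical in if TS dS s δ then 0 else
        Real.negMulLog ((bern G ζ).real {m | ws s (wG g σ (tq qm m)) = δ}) +
        (bern G ζ).real {m | ws s (wG g σ (tq qm m)) = δ} *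
          ent (bern G ν) (fun y => If g rc s δ (fun h => β (h • y)))) := by
  classical
  letI iB : Fintype (Bag r P Λ) := Fintype.ofFinite _
  letI iI : ∀ s, Fintype (Itf r s P Λ) := fun s => Fintype.ofFinite _
  obtain ⟨D1, -, hD1⟩ := wg_lc (r := r) g D σ hσ
  have hw : Fm (fun m : Bsh G => (wG g σ (tq qm m) : Ps r → Sh)) :=
    fdB_tq qm hqm D1 (fun t : G → Am => (wG g σ t : Ps r → Sh)) hD1
  obtain ⟨D2, -, hD2⟩ := bf_loc (r := r) g rc D hrc
  have hF : ∀ w0 : Ps r → Sh, Fm (fun y : Bsh G => Bf g rc w0 (fun h => β (h • y))) := fun w0 =>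
    fdB_lc ν β hβ D2 _ (hD2 w0)
  set Φ : Bsh G × Bsh G → Bag r P Λ := bgp g (fun z : Bsh G × Bsh G => β z.1)
        (fun i (z : Bsh G × Bsh G) => rc (σ i (tq qm z.2)) (fun h => β (h • z.1))) with hΦ
  have hfill : ∀ z, Φ z = Bf g rc (wG g σ (tq qm z.2)) (fun h => β (h • z.1)) := fun z =>
    bgp_fill g rc σ qm β z
  have hfill' : Φ = fun z => Bf g rc (wG g σ (tq qm z.2)) (fun h => β (h • z.1)) := funext hfill
  have hent : (∑ t, Real.negMulLog (BO.law ((bern G ν).prod (bern G ζ)) Φ t)) =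
      ent (bern G ζ) (fun m => (wG g σ (tq qm m) : Ps r → Sh)) +
      (∑ w0 : Ps r → Sh, (bern G ζ).real {m | wG g σ (tq qm m) = w0} *
        ent (bern G ν) (fun y => Bf g rc w0 (fun h => β (h • y)))) := by
    have h1 := mix_ent (bern G ν) (bern G ζ) (fun m : Bsh G => (wG g σ (tq qm m) : Ps r → Sh)) hw
      (fun (w0 : Ps r → Sh) (y : Bsh G) => Bf g rc w0 (fun h => β (h • y))) hF
      (fun (t : Bag r P Λ) (c : Ps r) => shp (t.1 c)) (fun w0 y => by
        funext c
        exact hshp _ _)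
    rw [← h1, ent_eq, hfill']
    rfl
  have hβ1 : Fm (fun z : Bsh G × Bsh G => β z.1) := hβ.comp_measurable measurable_fst
  have hφ1 : ∀ i, Fm (fun z : Bsh G × Bsh G => rc (σ i (tq qm z.2)) (fun h => β (h • z.1))) := by
    intro i
    have h1 : Fm (fun m : Bsh G => σ i (tq qm m)) := fdB_tq qm hqm D (σ i) (hσ i)
    have h2 : Fm (fun z : Bsh G × Bsh G => σ i (tq qm z.2)) := h1.comp_measurable measurable_snd
    have h3 : ∀ x, Fm (fun z : Bsh G × Bsh G => rc x (fun h => β (h • z.1))) := fun x =>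
      (fdB_lc ν β hβ D _ (hrc x)).comp_measurable measurable_fst
    have h4 : Fm (fun (z : Bsh G × Bsh G) (x : Sh) => rc x (fun h => β (h • z.1))) :=
      Fm.pi (f := fun (x : Sh) (z : Bsh G × Bsh G) => rc x (fun h => β (h • z.1))) h3
    exact (h2.prodMk h4).comp (fun p : Sh × (Sh → P) => p.2 p.1)
  have hInv : Inv G ((bern G ν).prod (bern G ζ)) := fdB_inv ν ζ
  have hΦm : Fm Φ := fm_bgp g (fun h => (hInv h).measurable) _ hβ1 _ hφ1
  have hG : ∀ s, (∑ q : Itf r s P Λ, (open Classical in if TT (fun p : P => dS (shp p)) s q then 0 else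
      Real.negMulLog (∑ t ∈ Finset.univ.filter (fun t => tgt s t = q),
        BO.law ((bern G ν).prod (bern G ζ)) Φ t))) =
      ∑ δ : {q : Ps r // lp q = s} → Sh, (open Classical in if TS dS s δ then 0 else
        Real.negMulLog ((bern G ζ).real {m | ws s (wG g σ (tq qm m)) = δ}) +
        (bern G ζ).real {m | ws s (wG g σ (tq qm m)) = δ} *
          ent (bern G ν) (fun y => If g rc s δ (fun h => β (h • y)))) := by
    intro s
    have hFI : ∀ δ : {q : Ps r // lp q = s} → Sh,
        Fm (fun y : Bsh G => If g rc s δ (fun h => β (h • y))) := by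
      intro δ
      have h1 : Fm (fun (y : Bsh G) (q : {q : Ps r // lp q = s}) =>
          rc (δ q) (sf (FreeGroup.lift g (cw (sc q.1)))⁻¹ (fun h => β (h • y)))) :=
        Fm.pi (f := fun (q : {q : Ps r // lp q = s}) (y : Bsh G) =>
          rc (δ q) (sf (FreeGroup.lift g (cw (sc q.1)))⁻¹ (fun h => β (h • y)))) fun q =>
          fdB_lc ν β hβ _ _ (fdB_sf D (rc (δ q)) (hrc (δ q)) _)
      have h2 : Fm (fun y : Bsh G => β ((1 : G) • y)) := by
        simpa using hβ
      exact h1.prodMk h2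
    have hwI : Fm (fun m : Bsh G => ws s (wG g σ (tq qm m) : Ps r → Sh)) := hw.comp (fun w => ws s w)
    have h1 := mix (bern G ν) (bern G ζ) (fun m : Bsh G => ws s (wG g σ (tq qm m) : Ps r → Sh)) hwI
      (fun (δ : {q : Ps r // lp q = s} → Sh) (y : Bsh G) => If g rc s δ (fun h => β (h • y))) hFI
      (fun (t : Itf r s P Λ) (c : {q : Ps r // lp q = s}) => shp (t.1 c)) (fun w0 y => by
        funext c
        exact hshp _ _) (TS dS s)
    rw [← h1]
    refine Finset.sum_congr rfl fun q _ => ?_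
    have h2 : ∑ t ∈ Finset.univ.filter (fun t => tgt s t = q),
        BO.law ((bern G ν).prod (bern G ζ)) Φ t =
        ((bern G ν).prod (bern G ζ)).real {z : Bsh G × Bsh G |
          If g rc s (ws s (wG g σ (tq qm z.2))) (fun h => β (h • z.1)) = q} := by
      rw [fdB_sum ((bern G ν).prod (bern G ζ)) Φ hΦm (fun t => tgt s t) q,
        ← bgp_marg g hg ((bern G ν).prod (bern G ζ)) hInv _ hβ1 _ hφ1 s q]
      refine congrArg _ (Set.ext fun z => ?_)
      show src s (Φ z) = q ↔ _
      rw [hfill z, src_bf]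
      rfl
    rw [h2]
    rfl
  have hmain : Fn (fun p : P => dS (shp p)) (BO.law ((bern G ν).prod (bern G ζ)) Φ) =
      (∑ t, Real.negMulLog (BO.law ((bern G ν).prod (bern G ζ)) Φ t)) -
      Gn (fun p : P => dS (shp p)) (BO.law ((bern G ν).prod (bern G ζ)) Φ) := rfl
  rw [hmain, hent]
  refine congrArg _ ?_
  unfold Gn
  refine Finset.sum_congr rfl fun s _ => ?_
  refine Eq.trans ?_ (hG s)
  refine Finset.sum_congr rfl fun q _ => ?_
  by_cases hT : TT (fun p : P => dS (shp p)) s q
  · rw [if_pos hT, if_pos hT]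
  · rw [if_neg hT, if_neg hT]
    refine congrArg _ (Finset.sum_congr ?_ fun _ _ => rfl)
    ext t
    simp only [Finset.mem_filter, Finset.mem_univ, true_and]

end H33.HN
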