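import Pool.Agent.H33.HN.ShA
import Pool.Agent.H33.HN.CeA

/-! # HN.FiB : the sum of the shares over the translates is the entropy

PROOF. For `v ∈ D⁻¹` (`v⁻¹ ∈ D`): `ce (fun t => F (sf v t)) J = ce F (J.image (· * v⁻¹))` (`ce_sf`), so with the bijection `e = (· * v⁻¹)` (`Equiv.mulRight v⁻¹`) `sh U 1 (ce (F ∘ sf v)) = sh (U.image e) v⁻¹ (ce F)` (`sh_tr`), `D ⊆ U.image e` (`d = (d * v) * v⁻¹`, `d * v = d * (v⁻¹)⁻¹ ∈ U`), so it is `sh D v⁻¹ (ce F)` (`sh_ext`, `ce_loc`). The sum over `v ∈ D⁻¹` is `∑ d ∈ D, sh D d (ce F) = ce F ∅ - ce F D = ent F` (`sh_eff`, `ce_emp`, `ce_full`). -/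

set_option autoImplicit false
set_option synthInstance.maxSize 4000

open MeasureTheory H31.BE

namespace H33.HN

variable {G A : Type} [Group G] [DecidableEq G] [Countable G] [Finite A] (ν : Measure ℝ) [IsProbabilityMeasure ν]
  (q : ℝ → A) (hq : Fm q)

include hq

theorem sum_sh {B : Type} [Finite B] (D : Finset G) (F : (G → A) → B) (hF : Lc D F) :
    ∑ v ∈ D.image (·⁻¹), sh ((D ×ˢ D).image fun p => p.1 * p.2⁻¹) 1 (ce ν q (fun t => F (sf v t))) =
      ent (bern G ν) (fun y => F (tq q y)) := by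
  set U := (D ×ˢ D).image fun p : G × G => p.1 * p.2⁻¹ with hU
  rw [Finset.sum_image (fun a _ b _ h => inv_injective h)]
  have key : ∀ d ∈ D, sh U 1 (ce ν q (fun t => F (sf d⁻¹ t))) = sh D d (ce ν q F) := by
    intro d hd
    have h1 : ce ν q (fun t => F (sf d⁻¹ t)) = fun J => (ce ν q F) (J.image (Equiv.mulRight d)) := by
      funext J
      rw [ce_sf ν q hq D F hF d⁻¹ J, inv_inv]
      rfl
    rw [h1, sh_tr U 1 (ce ν q F) (Equiv.mulRight d)]
    have h2 : (Equiv.mulRight d) (1 : G) = d := by simp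
    rw [h2]
    refine sh_ext D _ ?_ d hd _ (fun J => ce_loc ν q hq D F hF J)
    intro x hx
    rw [Finset.mem_image]
    refine ⟨x * d⁻¹, ?_, by simp⟩
    rw [hU, Finset.mem_image]
    exact ⟨(x, d), Finset.mem_product.2 ⟨hx, hd⟩, rfl⟩
  rw [Finset.sum_congr rfl key, sh_eff, ce_emp ν q hq D F hF,
    ce_full ν q hq D F hF D (Finset.Subset.refl D), sub_zero]

end H33.HN
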