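import Pool.Agent.H33.HN.FiA
import Pool.Agent.H33.HN.FiB

/-! # HN.Fi : the forest inequality (paper 3.2)

PROOF. For every `m : M` apply `fi_pt` to `wv v := w (v • m)` (`w (gs s • v • m)`: `mul_smul`), and integrate over `PM` (all functions of `m` are functions of the finitely many `w (v • m)`, `v ∈ D⁻¹ ∪ {1}`, bounded and measurable). For every function `h : W → ℝ`: `∫ h (w (v • m)) = ∫ h (w m) = ∑ w0, PM.real {m | w m = w0} * h w0` (`hM v`; `Fm`). Exchange the sum over `v` and over `w0` and use `sum_sh` for `F = a w0` and for `F = b s ∘ a w0` (`Lc D`).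
`PM.real` of the whole space is 1. (`Classical` for the decidability; `Finite W`: `letI := Fintype.ofFinite W` is not needed, `W` is a `Fintype`.) -/

set_option autoImplicit false
set_option synthInstance.maxSize 4000

open MeasureTheory H31.BE

namespace H33.HN

private theorem fi_int {M W : Type} [MeasurableSpace M] (PM : Measure M) [IsProbabilityMeasure PM] [Fintype W]
    (w : M → W) (hw : Fm w) (h : W → ℝ) :
    Integrable (fun m => h (w m)) PM ∧ ∫ m, h (w m) ∂PM = ∑ w0, PM.real {m | w m = w0} * h w0 := by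
  classical
  have hs : ∀ w0, MeasurableSet {m | w m = w0} := fun w0 => hw w0
  have e1 : (fun m => h (w m)) = fun m => ∑ w0, ({m | w m = w0} : Set M).indicator (fun _ => h w0) m := by
    funext m
    rw [Finset.sum_eq_single (w m)]
    · simp
    · intro b _ hb
      rw [Set.indicator_of_notMem]
      intro hm
      exact hb hm.symm
    · intro hn
      exact absurd (Finset.mem_univ _) hn
  have hI : ∀ w0 : W, Integrable (({m | w m = w0} : Set M).indicator (fun _ => h w0)) PM := fun w0 =>
    (integrable_const _).indicator (hs w0)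
  constructor
  · rw [e1]
    exact integrable_finset_sum _ fun w0 _ => hI w0
  · rw [e1, integral_finset_sum _ fun w0 _ => hI w0]
    refine Finset.sum_congr rfl fun w0 _ => ?_
    rw [integral_indicator_const _ (hs w0), smul_eq_mul]

private theorem fi_tr {G M W : Type} [Group G] [MeasurableSpace M] [MulAction G M] (PM : Measure M)
    [IsProbabilityMeasure PM] (hM : Inv G PM) [Fintype W] (w : M → W) (hw : Fm w) (v : G) (h : W → ℝ) :
    Integrable (fun m => h (w (v • m))) PM ∧
      ∫ m, h (w (v • m)) ∂PM = ∑ w0, PM.real {m | w m = w0} * h w0 := by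
  have hv : Fm (fun m => w (v • m)) := fun w0 => (hM v).measurable (hw w0)
  obtain ⟨h1, h2⟩ := fi_int PM (fun m => w (v • m)) hv h
  refine ⟨h1, h2.trans (Finset.sum_congr rfl fun w0 _ => ?_)⟩
  congr 1
  have h3 := (hM v).measure_preimage (s := {m | w m = w0}) (hw w0).nullMeasurableSet
  unfold Measure.real
  rw [← h3]
  rfl

theorem fi {G A : Type} [Group G] [DecidableEq G] [Countable G] [Finite A] (ν : Measure ℝ) [IsProbabilityMeasure ν]
    (q : ℝ → A) (hq : Fm q) {M : Type} [MeasurableSpace M] [MulAction G M] (PM : Measure M) [IsProbabilityMeasure PM]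
    (hM : Inv G PM) {W AA S : Type} [Fintype W] [Finite AA] [Fintype S] [DecidableEq S] (w : M → W) (hw : Fm w)
    (gs : S → G) (a : W → (G → A) → AA) (D : Finset G) (h1 : (1 : G) ∈ D) (hD : ∀ w0, Lc D (a w0))
    {BB : S → Type} [∀ s, Finite (BB s)] (b b' : ∀ s, AA → BB s) (E : S → W → Prop)
    (hm : ∀ m t s, E s (w m) → b s (a (w m) t) = b' s (a (w (gs s • m)) (sf (gs s) t)))
    (hF : ∀ m, ∀ Ed : Finset (S × G), (∀ e ∈ Ed, E e.1 (w (e.2 • m))) → Bd0 gs Ed → Ed = ∅) :
    ent ν q + ∑ s, ∑ w0, (open Classical in if E s w0 then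
        PM.real {m | w m = w0} * ent (bern G ν) (fun y => b s (a w0 (tq q y))) else 0) ≤
      ∑ w0, PM.real {m | w m = w0} * (ent (bern G ν) (fun y => a w0 (tq q y)) +
        entc (bern G ν) (fun y => q (y 1)) (fun y => a w0 (tq q y))) := by
  classical
  set U : Finset G := (D ×ˢ D).image fun p => p.1 * p.2⁻¹ with hU
  set V : Finset G := D.image (·⁻¹) with hV
  let hB : S → G → W → ℝ := fun s v w0 => if E s w0 then sh U 1 (ce ν q (fun t => b s (a w0 (sf v t)))) else 0
  let hA : G → W → ℝ := fun v w0 => sh U 1 (ce ν q (fun t => a w0 (sf v t)))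
  let hC : W → ℝ := fun w0 => entc (bern G ν) (fun y => q (y 1)) (fun y => a w0 (tq q y))
  have key : ∀ m : M, ent ν q + ∑ s, ∑ v ∈ V, hB s v (w (v • m)) ≤
      ∑ v ∈ V, hA v (w (v • m)) + hC (w ((1 : G) • m)) := by
    intro m
    have h := fi_pt ν q hq gs a D h1 hD b b' (fun v => w (v • m)) E
      (fun v t s he => by
        have h2 := hm (v • m) t s he
        rw [← mul_smul] at h2
        exact h2)
      (fun Ed hEd hb => hF m Ed hEd hb)
    exact h
  have iB : ∀ s v, Integrable (fun m => hB s v (w (v • m))) PM := fun s v => (fi_tr PM hM w hw v (hB s v)).1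
  have iA : ∀ v, Integrable (fun m => hA v (w (v • m))) PM := fun v => (fi_tr PM hM w hw v (hA v)).1
  have iC : Integrable (fun m => hC (w ((1 : G) • m))) PM := (fi_tr PM hM w hw 1 hC).1
  have iB2 : Integrable (fun m => ∑ s, ∑ v ∈ V, hB s v (w (v • m))) PM :=
    integrable_finset_sum _ fun s _ => integrable_finset_sum _ fun v _ => iB s v
  have iA2 : Integrable (fun m => ∑ v ∈ V, hA v (w (v • m))) PM := integrable_finset_sum _ fun v _ => iA v
  have hint := integral_mono ((integrable_const (ent ν q)).add iB2) (iA2.add iC) key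
  have e1 : ∫ m, ((fun _ : M => ent ν q) + fun m => ∑ s, ∑ v ∈ V, hB s v (w (v • m))) m ∂PM =
      ent ν q + ∑ s, ∑ v ∈ V, ∑ w0, PM.real {m | w m = w0} * hB s v w0 := by
    rw [integral_add' (integrable_const _) iB2, integral_const, probReal_univ, one_smul,
      integral_finset_sum _ fun s _ => integrable_finset_sum _ fun v _ => iB s v]
    congr 1
    refine Finset.sum_congr rfl fun s _ => ?_
    rw [integral_finset_sum _ fun v _ => iB s v]
    exact Finset.sum_congr rfl fun v _ => (fi_tr PM hM w hw v (hB s v)).2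
  have e2 : ∫ m, ((fun m => ∑ v ∈ V, hA v (w (v • m))) + fun m => hC (w ((1 : G) • m))) m ∂PM =
      ∑ v ∈ V, ∑ w0, PM.real {m | w m = w0} * hA v w0 + ∑ w0, PM.real {m | w m = w0} * hC w0 := by
    rw [integral_add' iA2 iC, integral_finset_sum _ fun v _ => iA v, (fi_tr PM hM w hw 1 hC).2]
    congr 1
    exact Finset.sum_congr rfl fun v _ => (fi_tr PM hM w hw v (hA v)).2
  have e3 : ∑ v ∈ V, ∑ w0, PM.real {m | w m = w0} * hA v w0 =
      ∑ w0, PM.real {m | w m = w0} * ent (bern G ν) (fun y => a w0 (tq q y)) := by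
    rw [Finset.sum_comm]
    refine Finset.sum_congr rfl fun w0 _ => ?_
    rw [← Finset.mul_sum]
    congr 1
    exact sum_sh ν q hq D (a w0) (hD w0)
  have e4 : ∀ s, ∑ v ∈ V, ∑ w0, PM.real {m | w m = w0} * hB s v w0 =
      ∑ w0, (if E s w0 then PM.real {m | w m = w0} * ent (bern G ν) (fun y => b s (a w0 (tq q y))) else 0) := by
    intro s
    rw [Finset.sum_comm]
    refine Finset.sum_congr rfl fun w0 _ => ?_
    rw [← Finset.mul_sum]
    by_cases he : E s w0
    · rw [if_pos he]
      congr 1
      have h2 := sum_sh ν q hq D (fun t => b s (a w0 t)) (fun t t' h => by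
        show b s (a w0 t) = b s (a w0 t')
        rw [hD w0 t t' h])
      rw [← h2]
      refine Finset.sum_congr rfl fun v _ => ?_
      show (if E s w0 then sh U 1 (ce ν q (fun t => b s (a w0 (sf v t)))) else 0) = _
      rw [if_pos he]
    · rw [if_neg he]
      have h2 : ∑ v ∈ V, hB s v w0 = 0 := by
        refine Finset.sum_eq_zero fun v _ => ?_
        show (if E s w0 then sh U 1 (ce ν q (fun t => b s (a w0 (sf v t)))) else 0) = 0
        rw [if_neg he]
      rw [h2, mul_zero]
  have e5 : ∑ w0, PM.real {m | w m = w0} * (ent (bern G ν) (fun y => a w0 (tq q y)) +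
        entc (bern G ν) (fun y => q (y 1)) (fun y => a w0 (tq q y))) =
      ∑ w0, PM.real {m | w m = w0} * ent (bern G ν) (fun y => a w0 (tq q y)) +
        ∑ w0, PM.real {m | w m = w0} * hC w0 := by
    rw [← Finset.sum_add_distrib]
    exact Finset.sum_congr rfl fun w0 _ => mul_add _ _ _
  have e6 : ent ν q + ∑ s, ∑ v ∈ V, ∑ w0, PM.real {m | w m = w0} * hB s v w0 ≤
      ∑ v ∈ V, ∑ w0, PM.real {m | w m = w0} * hA v w0 + ∑ w0, PM.real {m | w m = w0} * hC w0 := by
    rw [← e1, ← e2]
    exact hint
  rw [e3, Finset.sum_congr rfl fun s _ => e4 s] at e6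
  rw [e5]
  exact e6

end H33.HN
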