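import Pool.Agent.H33.HN.DefsF

/-! # HN.HalA : a forest has an injective choice of end points that avoids a given vertex

PROOF. Hall (`Finset.all_card_le_biUnion_card_iff_exists_injective` for the index type `↥Ed` and `N e = {e.2, gs e.1 * e.2}.erase v0`): it is enough to show `|E'| ≤ |⋃_(e ∈ E') N e|` for `E' ⊆ Ed`. Let `V := ⋃ N e` (finite, `v0 ∉ V`). The vectors `x_e : V → ZMod 2`, `x_e = 1_(e.2) + 1_(gs e.1 * e.2)` restricted to `V`, `e ∈ E'`, are linearly independent over `ZMod 2`: a nontrivial relation is a nonempty `E'' ⊆ E'` with `∑_(e ∈ E'') x_e = 0` on `V`; then the degree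
`deg x := #{e ∈ E'' | e.2 = x} + #{e ∈ E'' | gs e.1 * e.2 = x}` is even for every `x ∈ V`, it is `0` for `x ∉ V ∪ {v0}`, and `∑ x, deg x = 2 |E''|` is even, so `deg v0` is even too: `Bd0 gs E''`, so `E'' = ∅` by `hF`, a contradiction. So `|E'| ≤ dim = |V|` (`LinearIndependent.fintype_card_le_finrank` or `card_le_card_of_linearIndependent`-type). -/

set_option autoImplicit false
set_option synthInstance.maxSize 4000

open MeasureTheory H31.BE

namespace H33.HN

/-- boundary mod 2 -/
private def HalA_d {G S : Type} [Group G] [DecidableEq G] (gs : S → G) (A : Finset (S × G)) (x : G) : ZMod 2 :=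
  ∑ e ∈ A, ((if e.2 = x then 1 else 0) + (if gs e.1 * e.2 = x then 1 else 0))

private lemma HalA_bd {G S : Type} [Group G] [DecidableEq G] (gs : S → G) (A : Finset (S × G))
    (h : ∀ x, HalA_d gs A x = 0) : Bd0 gs A := by
  intro x
  have h1 := h x
  rw [HalA_d, Finset.sum_add_distrib, Finset.sum_boole, Finset.sum_boole, ← Nat.cast_add] at h1
  exact (ZMod.natCast_eq_zero_iff_even).1 h1

private lemma HalA_sum {G S : Type} [Group G] [DecidableEq G] (gs : S → G) (A : Finset (S × G)) (W : Finset G)
    (hW : ∀ e ∈ A, e.2 ∈ W ∧ gs e.1 * e.2 ∈ W) : ∑ x ∈ W, HalA_d gs A x = 0 := by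
  unfold HalA_d
  rw [Finset.sum_comm]
  apply Finset.sum_eq_zero
  intro e he
  obtain ⟨h1, h2⟩ := hW e he
  rw [Finset.sum_add_distrib, Finset.sum_ite_eq, Finset.sum_ite_eq, if_pos h1, if_pos h2]
  decide

private lemma HalA_symm {G S : Type} [Group G] [DecidableEq G] [DecidableEq S] (gs : S → G) (A B : Finset (S × G)) (x : G) :
    HalA_d gs (A \ B ∪ B \ A) x = HalA_d gs A x + HalA_d gs B x := by
  unfold HalA_d
  have hdis : Disjoint (A \ B) (B \ A) := by
    rw [Finset.disjoint_left]
    intro e h1 h2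
    exact (Finset.mem_sdiff.1 h2).2 (Finset.mem_sdiff.1 h1).1
  rw [Finset.sum_union hdis]
  have hA := Finset.sum_inter_add_sum_sdiff A B
    (fun e : S × G => ((if e.2 = x then 1 else 0) + (if gs e.1 * e.2 = x then 1 else 0) : ZMod 2))
  have hB := Finset.sum_inter_add_sum_sdiff B A
    (fun e : S × G => ((if e.2 = x then 1 else 0) + (if gs e.1 * e.2 = x then 1 else 0) : ZMod 2))
  rw [Finset.inter_comm B A] at hB
  rw [← hA, ← hB]
  have h2 : ∀ a b c : ZMod 2, b + c = a + b + (a + c) := by decide
  exact h2 _ _ _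

theorem hal {G S : Type} [Group G] [DecidableEq G] [DecidableEq S] (gs : S → G) (Ed : Finset (S × G))
    (hF : ∀ Ed' ⊆ Ed, Bd0 gs Ed' → Ed' = ∅) (v0 : G) :
    ∃ φ : S × G → G, (∀ e ∈ Ed, (φ e = e.2 ∨ φ e = gs e.1 * e.2) ∧ φ e ≠ v0) ∧ Set.InjOn φ (Ed : Set (S × G)) := by
  classical
  have key : ∀ s : Finset ↥Ed, s.card ≤ (s.biUnion fun e : ↥Ed => ({e.1.2, gs e.1.1 * e.1.2} : Finset G).erase v0).card := by
    intro s
    set V := s.biUnion fun e : ↥Ed => ({e.1.2, gs e.1.1 * e.1.2} : Finset G).erase v0 with hV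
    set A := s.map (Function.Embedding.subtype _) with hA
    have hAE : A ⊆ Ed := by
      intro e he
      obtain ⟨e', -, rfl⟩ := Finset.mem_map.1 he
      exact e'.2
    have hAV : ∀ e ∈ A, ∀ x, x ≠ v0 → (e.2 = x ∨ gs e.1 * e.2 = x) → x ∈ V := by
      intro e he x hx hex
      obtain ⟨e', he', rfl⟩ := Finset.mem_map.1 he
      refine Finset.mem_biUnion.2 ⟨e', he', Finset.mem_erase.2 ⟨hx, ?_⟩⟩
      rcases hex with h | h
      · exact Finset.mem_insert.2 (Or.inl h.symm)
      · exact Finset.mem_insert.2 (Or.inr (Finset.mem_singleton.2 h.symm))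
    have hinj : Set.InjOn (fun B : Finset (S × G) => V.filter fun x => HalA_d gs B x ≠ 0) (A.powerset : Set (Finset (S × G))) := by
      intro B₁ hB₁ B₂ hB₂ hB
      have hB₁' := Finset.mem_powerset.1 (Finset.mem_coe.1 hB₁)
      have hB₂' := Finset.mem_powerset.1 (Finset.mem_coe.1 hB₂)
      set D := B₁ \ B₂ ∪ B₂ \ B₁ with hD
      have hDA : D ⊆ A := by
        intro e he
        rcases Finset.mem_union.1 he with h | h
        · exact hB₁' (Finset.mem_sdiff.1 h).1
        · exact hB₂' (Finset.mem_sdiff.1 h).1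
      have h0 : ∀ x, x ≠ v0 → HalA_d gs D x = 0 := by
        intro x hx
        by_cases hxV : x ∈ V
        · rw [hD, HalA_symm]
          have h1 : (HalA_d gs B₁ x ≠ 0 ↔ HalA_d gs B₂ x ≠ 0) := by
            have h2 := Finset.ext_iff.1 hB x
            simp only [Finset.mem_filter] at h2
            constructor
            · intro h
              exact (h2.1 ⟨hxV, h⟩).2
            · intro h
              exact (h2.2 ⟨hxV, h⟩).2
          have h3 : ∀ a b : ZMod 2, (a ≠ 0 ↔ b ≠ 0) → a + b = 0 := by decide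
          exact h3 _ _ h1
        · unfold HalA_d
          apply Finset.sum_eq_zero
          intro e he
          have h1 : ¬ e.2 = x := fun h => hxV (hAV e (hDA he) x hx (Or.inl h))
          have h2 : ¬ gs e.1 * e.2 = x := fun h => hxV (hAV e (hDA he) x hx (Or.inr h))
          rw [if_neg h1, if_neg h2, add_zero]
      have hall : ∀ x, HalA_d gs D x = 0 := by
        intro x
        by_cases hx : x = v0
        · subst hx
          set W := insert x ((D.image fun e => e.2) ∪ D.image fun e => gs e.1 * e.2) with hW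
          have h1 := HalA_sum gs D W (by
            intro e he
            exact ⟨Finset.mem_insert_of_mem (Finset.mem_union_left _ (Finset.mem_image_of_mem _ he)),
              Finset.mem_insert_of_mem (Finset.mem_union_right _ (Finset.mem_image_of_mem (fun e => gs e.1 * e.2) he))⟩)
          rw [Finset.sum_eq_single_of_mem x (Finset.mem_insert_self _ _) (fun y _ hy => h0 y hy)] at h1
          exact h1
        · exact h0 x hx
      have hDe : D = ∅ := hF D (hDA.trans hAE) (HalA_bd gs D hall)
      have hD1 : B₁ \ B₂ = ∅ := by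
        have := Finset.union_eq_empty.1 hDe
        exact this.1
      have hD2 : B₂ \ B₁ = ∅ := by
        have := Finset.union_eq_empty.1 hDe
        exact this.2
      exact Finset.Subset.antisymm (Finset.sdiff_eq_empty_iff_subset.1 hD1) (Finset.sdiff_eq_empty_iff_subset.1 hD2)
    have hcard := Finset.card_le_card_of_injOn (s := A.powerset) (t := V.powerset)
      (fun B : Finset (S × G) => V.filter fun x => HalA_d gs B x ≠ 0)
      (fun B _ => Finset.mem_coe.2 (Finset.mem_powerset.2 (Finset.filter_subset _ _))) hinj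
    rw [Finset.card_powerset, Finset.card_powerset] at hcard
    have h1 : A.card ≤ V.card := (Nat.pow_le_pow_iff_right (by norm_num)).1 hcard
    rw [hA, Finset.card_map] at h1
    exact h1
  obtain ⟨f, hf, hft⟩ := (Finset.all_card_le_biUnion_card_iff_exists_injective
    (fun e : ↥Ed => ({e.1.2, gs e.1.1 * e.1.2} : Finset G).erase v0)).1 key
  refine ⟨fun e => if h : e ∈ Ed then f ⟨e, h⟩ else v0, ?_, ?_⟩
  · intro e he
    have h1 := hft ⟨e, he⟩
    simp only [dif_pos he]
    obtain ⟨h2, h3⟩ := Finset.mem_erase.1 h1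
    refine ⟨?_, h2⟩
    rcases Finset.mem_insert.1 h3 with h | h
    · exact Or.inl h
    · exact Or.inr (Finset.mem_singleton.1 h)
  · intro e he e' he' hee
    have he1 : e ∈ Ed := he
    have he2 : e' ∈ Ed := he'
    simp only [dif_pos he1, dif_pos he2] at hee
    exact congrArg Subtype.val (hf hee)

end H33.HN
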