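import Pool.Agent.H33.HN.ShA
import Pool.Agent.H33.HN.CeA
import Pool.Agent.H33.HN.HalA

/-! # HN.FiA : the forest inequality for one coordinate and one configuration of the marks

PROOF. `U := D * D⁻¹` as `(D ×ˢ D).image (fun p => p.1 * p.2⁻¹)`, `1 ∈ U`, `D ⊆ U`. Notation: `A_v t := a (wv v) (sf v t)`, it depends on the coordinates `D v := D.image (· * v)` (`Lc`), `B_e t := b e.1 (A_(e.2) t)`; by `hm` `B_e t = b' e.1 (A_(gs e.1 * e.2) t)` for `e ∈ Ed` (`sf (gs s) (sf v t) = sf (gs s * v) t`: `t (g * gs s * v)`; apply `hm` to `sf v t`). `Ed := {(s, v) | v ∈ D⁻¹, E s (wv v)}` (finite). `hal` for `v0 := 1` (every subset of `Ed` satisfies `hF`) gives `φ`.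
For `e ∈ Ed`: `sh U 1 (ce B_e) ≤ sh U 1 (ce A_(φ e))` (`sh_mono`, `ce_data`). If `v ∉ D⁻¹` then `1 ∉ D v`, so `sh U 1 (ce A_v) = 0` (`sh_zero`, `ce_loc`); always `0 ≤ sh U 1 (ce A_v)` (`sh_nonneg`, `ce_dec`). So `∑ e ∈ Ed, sh (ce B_e) ≤ ∑ e ∈ Ed, sh (ce A_(φ e)) ≤ ∑ v ∈ D⁻¹.erase 1, sh (ce A_v)` (`φ` injective, values `≠ 1`; the values outside of `D⁻¹` contribute 0). And `sh U 1 (ce A_1) ≥ ent ν q - entc .. (a (wv 1) ..)` (`sh_ge`, `ce_one`; `sf 1 t = t`). -/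

set_option autoImplicit false
set_option synthInstance.maxSize 4000

open MeasureTheory H31.BE

namespace H33.HN

private theorem fiA_sf {G A : Type} [Group G] (h k : G) (t : G → A) : sf h (sf k t) = sf (h * k) t := by
  funext g
  simp only [sf, mul_assoc]

private theorem fiA_one {G A : Type} [Group G] (t : G → A) : sf 1 t = t := by
  funext g
  simp only [sf, mul_one]

private theorem fiA_lc {G A B : Type} [Group G] [DecidableEq G] (D : Finset G) (F : (G → A) → B) (hF : Lc D F)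
    (v : G) : Lc (D.image (· * v)) (fun t => F (sf v t)) :=
  fun _ _ h => hF _ _ fun g hg => h (g * v) (Finset.mem_image_of_mem _ hg)

variable {G A : Type} [Group G] [DecidableEq G] [Countable G] [Finite A] (ν : Measure ℝ) [IsProbabilityMeasure ν]
  (q : ℝ → A) (hq : Fm q) {W AA S : Type} [Finite AA] [Fintype S] [DecidableEq S] (gs : S → G) (a : W → (G → A) → AA)
  (D : Finset G) (h1 : (1 : G) ∈ D) (hD : ∀ w0, Lc D (a w0)) {BB : S → Type} [∀ s, Finite (BB s)]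
  (b b' : ∀ s, AA → BB s)

include hq h1 hD

theorem fi_pt (wv : G → W) (E : S → W → Prop)
    (hm : ∀ v t s, E s (wv v) → b s (a (wv v) t) = b' s (a (wv (gs s * v)) (sf (gs s) t)))
    (hF : ∀ Ed : Finset (S × G), (∀ e ∈ Ed, E e.1 (wv e.2)) → Bd0 gs Ed → Ed = ∅) :
    ent ν q + ∑ s, ∑ v ∈ D.image (·⁻¹), (open Classical in if E s (wv v) then
        sh ((D ×ˢ D).image fun p => p.1 * p.2⁻¹) 1 (ce ν q (fun t => b s (a (wv v) (sf v t)))) else 0) ≤
      ∑ v ∈ D.image (·⁻¹), sh ((D ×ˢ D).image fun p => p.1 * p.2⁻¹) 1 (ce ν q (fun t => a (wv v) (sf v t))) +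
        entc (bern G ν) (fun y => q (y 1)) (fun y => a (wv 1) (tq q y)) := by
  classical
  set U : Finset G := (D ×ˢ D).image fun p => p.1 * p.2⁻¹ with hU
  set V : Finset G := D.image (·⁻¹) with hV
  have h1U : (1 : G) ∈ U := Finset.mem_image.2 ⟨(1, 1), Finset.mem_product.2 ⟨h1, h1⟩, by simp⟩
  have h1V : (1 : G) ∈ V := Finset.mem_image.2 ⟨1, h1, inv_one⟩
  have hlc : ∀ v, Lc (D.image (· * v)) (fun t => a (wv v) (sf v t)) := fun v => fiA_lc D _ (hD (wv v)) v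
  let Sv : G → ℝ := fun v => sh U 1 (ce ν q (fun t => a (wv v) (sf v t)))
  let T : S × G → ℝ := fun e => sh U 1 (ce ν q (fun t => b e.1 (a (wv e.2) (sf e.2 t))))
  have hS0 : ∀ v, 0 ≤ Sv v := fun v => sh_nonneg U 1 _ fun J _ => ce_dec ν q hq _ _ (hlc v) J 1
  have hSz : ∀ v, v ∉ V → Sv v = 0 := by
    intro v hv
    refine sh_zero (D.image (· * v)) U 1 ?_ _ fun J => ce_loc ν q hq _ _ (hlc v) J
    intro h
    obtain ⟨d, hd, e⟩ := Finset.mem_image.1 h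
    exact hv (Finset.mem_image.2 ⟨d, hd, (eq_inv_of_mul_eq_one_right e).symm⟩)
  have hT1 : ∀ e : S × G, T e ≤ Sv e.2 := fun e =>
    sh_mono U 1 _ _ fun J _ => ce_data ν q hq _ _ (hlc e.2) (b e.1) J 1
  have hT2 : ∀ e : S × G, E e.1 (wv e.2) → T e ≤ Sv (gs e.1 * e.2) := by
    intro e he
    have e1 : (fun t => b e.1 (a (wv e.2) (sf e.2 t))) =
        fun t => b' e.1 (a (wv (gs e.1 * e.2)) (sf (gs e.1 * e.2) t)) := by
      funext t
      rw [hm e.2 (sf e.2 t) e.1 he, fiA_sf]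
    show sh U 1 (ce ν q (fun t => b e.1 (a (wv e.2) (sf e.2 t)))) ≤ _
    rw [e1]
    exact sh_mono U 1 _ _ fun J _ => ce_data ν q hq _ _ (hlc (gs e.1 * e.2)) (b' e.1) J 1
  have hS1 : ent ν q - entc (bern G ν) (fun y => q (y 1)) (fun y => a (wv 1) (tq q y)) ≤ Sv 1 := by
    refine sh_ge U 1 h1U _ _ fun J hJ => ?_
    have e1 : (fun t => a (wv 1) (sf 1 t)) = a (wv 1) := by
      funext t
      rw [fiA_one]
    rw [e1]
    exact ce_one ν q hq D _ (hD (wv 1)) J hJ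
  let Ed : Finset (S × G) := ((Finset.univ : Finset S) ×ˢ V).filter fun e => E e.1 (wv e.2)
  have hEd : ∀ e ∈ Ed, E e.1 (wv e.2) := fun e he => (Finset.mem_filter.1 he).2
  obtain ⟨φ, hφ, hinj⟩ := hal gs Ed (fun Ed' hs hB => hF Ed' (fun e he => hEd e (hs he)) hB) 1
  have hsum : ∑ s, ∑ v ∈ V, (if E s (wv v) then
        sh U 1 (ce ν q (fun t => b s (a (wv v) (sf v t)))) else 0) = ∑ e ∈ Ed, T e := by
    rw [Finset.sum_filter, Finset.sum_product]
  have h2 : ∑ e ∈ Ed, T e ≤ ∑ e ∈ Ed, Sv (φ e) := by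
    refine Finset.sum_le_sum fun e he => ?_
    rcases (hφ e he).1 with h | h
    · rw [h]
      exact hT1 e
    · rw [h]
      exact hT2 e (hEd e he)
  have h3 : ∑ e ∈ Ed, Sv (φ e) = ∑ v ∈ Ed.image φ, Sv v := (Finset.sum_image hinj).symm
  have h4 : ∑ v ∈ Ed.image φ, Sv v ≤ ∑ v ∈ V.erase 1, Sv v := by
    rw [← Finset.sum_filter_add_sum_filter_not (Ed.image φ) (fun v => v ∈ V) Sv]
    have h5 : ∑ v ∈ (Ed.image φ).filter (fun v => ¬ v ∈ V), Sv v = 0 :=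
      Finset.sum_eq_zero fun v hv => hSz v (Finset.mem_filter.1 hv).2
    rw [h5, add_zero]
    refine Finset.sum_le_sum_of_subset_of_nonneg ?_ fun v _ _ => hS0 v
    intro v hv
    obtain ⟨h6, h7⟩ := Finset.mem_filter.1 hv
    obtain ⟨e, he, rfl⟩ := Finset.mem_image.1 h6
    exact Finset.mem_erase.2 ⟨(hφ e he).2, h7⟩
  have h5 : Sv 1 + ∑ v ∈ V.erase 1, Sv v = ∑ v ∈ V, Sv v := Finset.add_sum_erase V Sv h1V
  have h6 : ent ν q + ∑ e ∈ Ed, T e ≤ ∑ v ∈ V, Sv v +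
      entc (bern G ν) (fun y => q (y 1)) (fun y => a (wv 1) (tq q y)) := by
    linarith
  rw [← hsum] at h6
  exact h6

end H33.HN
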