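import Pool.Agent.H33.HN.DefsH
import Mathlib

/-! # HN.HnnA : the base embeds in a multiple HNN extension

PROOF. Induction on `m`. `m = 0`: `H := K`. `m + 1`: the induction hypothesis for the first `m` pairs (`fun i => u i.castSucc`, ..) gives `H, ι, t`. `u (Fin.last m)`, `v (Fin.last m)` have infinite order in `K`, so `ι u`, `ι v` have infinite order in `H`; `A := Subgroup.zpowers (ι u)`, `B := Subgroup.zpowers (ι v)`, both isomorphic to `Multiplicative ℤ` (`zpowersHom` injective, `MonoidHom.ofInjective` or `zpowers` equivalence), so there is `φ : A ≃* B` with `φ (ι u) = ι v`. `H' := HNNExtension H A B φ`, `ι' := HNNExtension.of ∘ ι` is injective (`HNNExtension.of_injective`),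
`t' := Fin.snoc (of ∘ t) HNNExtension.t` (`HNNExtension.t_mul_of`: `t * of a = of (φ a) * t`). All types are in `Type`. -/

set_option autoImplicit false
set_option synthInstance.maxSize 4000

open MeasureTheory H31.BE

namespace H33.HN

private theorem HnnA_pow {H : Type} [Group H] (a : H) (n : ℤ) : a ^ n ∈ Subgroup.zpowers a :=
  Subgroup.zpow_mem_zpowers a n

private def HnnA_f {H : Type} [Group H] (a : H) : Multiplicative ℤ →* Subgroup.zpowers a where
  toFun n := ⟨a ^ (Multiplicative.toAdd n), HnnA_pow a _⟩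
  map_one' := Subtype.ext (by simp)
  map_mul' x y := Subtype.ext (by simp [zpow_add])

private theorem HnnA_bij {H : Type} [Group H] (a : H) (ha : ∀ n : ℤ, a ^ n = 1 → n = 0) :
    Function.Bijective (HnnA_f a) := by
  constructor
  · rw [injective_iff_map_eq_one]
    intro x hx
    have h1 : a ^ (Multiplicative.toAdd x) = 1 := congrArg Subtype.val hx
    have h2 := ha _ h1
    exact toAdd_eq_zero.1 h2
  · rintro ⟨y, n, hn⟩
    exact ⟨Multiplicative.ofAdd n, Subtype.ext hn⟩

private theorem HnnA_eq {H : Type} [Group H] (a b : H) (ha : ∀ n : ℤ, a ^ n = 1 → n = 0)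
    (hb : ∀ n : ℤ, b ^ n = 1 → n = 0) :
    ∃ φ : Subgroup.zpowers a ≃* Subgroup.zpowers b,
      φ ⟨a, Subgroup.mem_zpowers a⟩ = ⟨b, Subgroup.mem_zpowers b⟩ := by
  refine ⟨(MulEquiv.ofBijective (HnnA_f a) (HnnA_bij a ha)).symm.trans
    (MulEquiv.ofBijective (HnnA_f b) (HnnA_bij b hb)), ?_⟩
  have h1 : (MulEquiv.ofBijective (HnnA_f a) (HnnA_bij a ha)).symm ⟨a, Subgroup.mem_zpowers a⟩ =
      Multiplicative.ofAdd 1 := by
    rw [MulEquiv.symm_apply_eq]
    exact Subtype.ext (zpow_one a).symm
  rw [MulEquiv.trans_apply, h1]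
  exact Subtype.ext (zpow_one b)

theorem hnn_emb (K : Type) [Group K] (m : ℕ) (u v : Fin m → K) (hu : ∀ i (n : ℤ), u i ^ n = 1 → n = 0)
    (hv : ∀ i (n : ℤ), v i ^ n = 1 → n = 0) :
    ∃ (H : Type) (_ : Group H) (ι : K →* H) (t : Fin m → H), Function.Injective ι ∧
      ∀ i, t i * ι (u i) * (t i)⁻¹ = ι (v i) := by
  induction m with
  | zero =>
    exact ⟨K, inferInstance, MonoidHom.id K, fun i => i.elim0, Function.injective_id, fun i => i.elim0⟩
  | succ m ih =>
    obtain ⟨H, hH, ι, t, hι, ht⟩ := ih (fun i => u i.castSucc) (fun i => v i.castSucc)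
      (fun i => hu _) (fun i => hv _)
    have ha : ∀ n : ℤ, ι (u (Fin.last m)) ^ n = 1 → n = 0 := fun n hn =>
      hu _ n (hι (by rw [map_zpow, hn, map_one]))
    have hb : ∀ n : ℤ, ι (v (Fin.last m)) ^ n = 1 → n = 0 := fun n hn =>
      hv _ n (hι (by rw [map_zpow, hn, map_one]))
    obtain ⟨φ, hφ⟩ := HnnA_eq (ι (u (Fin.last m))) (ι (v (Fin.last m))) ha hb
    refine ⟨HNNExtension H _ _ φ, inferInstance, (HNNExtension.of (φ := φ)).comp ι,
      Fin.snoc (α := fun _ => HNNExtension H _ _ φ) (fun i => HNNExtension.of (t i)) HNNExtension.t,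
      ?_, ?_⟩
    · exact (HNNExtension.of_injective φ).comp hι
    · intro i
      refine Fin.lastCases ?_ (fun i => ?_) i
      · rw [Fin.snoc_last]
        have h := HNNExtension.t_mul_of (φ := φ) ⟨ι (u (Fin.last m)), Subgroup.mem_zpowers _⟩
        rw [hφ] at h
        exact mul_inv_eq_of_eq_mul h
      · rw [Fin.snoc_castSucc]
        have h := congrArg (HNNExtension.of (φ := φ)) (ht i)
        rw [map_mul, map_mul, map_inv] at h
        exact h

end H33.HN
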