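import Pool.Agent.H33.HN.DefsG
import Pool.Agent.H33.HN.HnnA

/-! # HN.GAm : amalgamated products as free factors of HNN extensions

PROOF. `A := PresentedGroup {map inl w * (map inr w')⁻¹}` with generators `Fin k ⊕ Fin l` (the amalgam of the free groups along `w = w'`), `X := Fin (k + l)` via `finSumFinEquiv`. `u := ` the image of `w` in `FreeGroup (Fin (k + l))`, `v := ` the image of `w'`; `H := PresentedGroup {t u t⁻¹ v⁻¹}` with generators `Fin (k + l) ⊕ Fin 1`. The isomorphism `H ≃* Monoid.Coprod A (FreeGroup (Fin 1))`: `x_j` with `j` from `Fin k` goes to `inr t⁻¹ * inl (x_j) * inr t`, with `j` from `Fin l` to `inl (x_j)`, `t ↦ inr t`: the relator goes to `t t⁻¹ w t t⁻¹ w'⁻¹ = 1`.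
Inverse: on `A`: `x_j` (`j` from `Fin k`) `↦ t * x_j * t⁻¹`, `x_j` (`j` from `Fin l`) `↦ x_j`: `w w'⁻¹ ↦ t u t⁻¹ v⁻¹ = 1`; on `FreeGroup (Fin 1)`: `of 0 ↦ t`. The two composites are the identity on generators (`PresentedGroup.ext`, `Monoid.Coprod.hom_ext`, `FreeGroup.ext_hom`). `am_hyp`: `w` is not a proper power in `FreeGroup (Fin k)`, so its image `u` is not a proper power: the retraction `FreeGroup (Fin (k + l)) → FreeGroup (Fin k)` (kill the other letters). `c u^a c⁻¹ = v^b`: the retraction maps `v` to `1`, so `c' w^a c'⁻¹ = 1`, `w^a = 1`, `a = 0` (torsion free; `w ≠ 1` since otherwise `w = 1 ^ 0`).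
(`v ≠ 1`: the other retraction and `w' ≠ 1`.) The statements are for `m = 1`: functions on `Fin 1` constant. `inf_A`: the image of `w` under .. : `A` is infinite: if `l ≥ 1`: the homomorphism `A → ..`; simplest: `k ≥ 1` since `w ≠ 1`; if `w'` has infinite order.. : the subgroup generated by `x_j`, `j` from `Fin l` embeds; easier: `Monoid.Coprod A (FreeGroup (Fin 1)) ≃* H` contains `FreeGroup (Fin (k + l))`; if `A` were finite then `w` would have finite order in `A`, but the image of `w` in `H` is conjugate to `v` and has infinite order by `hnn_emb` / `xg_inj` (HnnB with the words of `u`, `v`; only the nontriviality of `u`, `v` is needed: use `hnn_emb` directly). -/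

set_option autoImplicit false
set_option synthInstance.maxSize 4000

open MeasureTheory H31.BE

namespace H33.HN

private def GAm_L (k l : ℕ) : Fin k → Fin (k + l) := fun j => finSumFinEquiv (Sum.inl j)

private def GAm_R (k l : ℕ) : Fin l → Fin (k + l) := fun j => finSumFinEquiv (Sum.inr j)

private theorem GAm_case {k l : ℕ} (j : Fin (k + l)) : (∃ a, j = GAm_L k l a) ∨ ∃ b, j = GAm_R k l b := by
  obtain ⟨s, rfl⟩ := finSumFinEquiv.surjective j
  rcases s with a | b
  · exact Or.inl ⟨a, rfl⟩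
  · exact Or.inr ⟨b, rfl⟩

/-- functions on `Fin (k + l)` -/
private def GAm_fun {k l : ℕ} {M : Type} (f : Fin k → M) (g : Fin l → M) : Fin (k + l) → M :=
  fun j => Sum.elim f g (finSumFinEquiv.symm j)

private theorem GAm_fun_L {k l : ℕ} {M : Type} (f : Fin k → M) (g : Fin l → M) (a : Fin k) : GAm_fun f g (GAm_L k l a) = f a := by
  unfold GAm_fun GAm_L
  rw [Equiv.symm_apply_apply]
  rfl

private theorem GAm_fun_R {k l : ℕ} {M : Type} (f : Fin k → M) (g : Fin l → M) (a : Fin l) : GAm_fun f g (GAm_R k l a) = g a := by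
  unfold GAm_fun GAm_R
  rw [Equiv.symm_apply_apply]
  rfl

private theorem GAm_lift_map {X Y M : Type} [Group M] (f : Y → M) (e : X → Y) (w : FreeGroup X) :
    FreeGroup.lift f (FreeGroup.map e w) = FreeGroup.lift (fun x => f (e x)) w := by
  have h : (FreeGroup.lift f).comp (FreeGroup.map e) = FreeGroup.lift fun x => f (e x) := by
    refine FreeGroup.ext_hom _ _ fun x => ?_
    rw [MonoidHom.comp_apply, FreeGroup.map.of, FreeGroup.lift_apply_of, FreeGroup.lift_apply_of]
  exact DFunLike.congr_fun h w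

private theorem GAm_lift_hom {X M N : Type} [Group M] [Group N] (f : X → M) (g : M →* N) (w : FreeGroup X) :
    FreeGroup.lift (fun x => g (f x)) w = g (FreeGroup.lift f w) := by
  have h : FreeGroup.lift (fun x => g (f x)) = g.comp (FreeGroup.lift f) := by
    refine FreeGroup.ext_hom _ _ fun x => ?_
    rw [MonoidHom.comp_apply, FreeGroup.lift_apply_of, FreeGroup.lift_apply_of]
  exact DFunLike.congr_fun h w

private theorem GAm_lift_conj {X M : Type} [Group M] (f : X → M) (c : M) (w : FreeGroup X) :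
    FreeGroup.lift (fun x => c * f x * c⁻¹) w = c * FreeGroup.lift f w * c⁻¹ :=
  GAm_lift_hom f (MulAut.conj c).toMonoidHom w

private theorem GAm_mk {X : Type} (r : Set (FreeGroup X)) (w : FreeGroup X) :
    FreeGroup.lift (fun x => (PresentedGroup.of x : PresentedGroup r)) w = PresentedGroup.mk r w := by
  have h : FreeGroup.lift (fun x => (PresentedGroup.of x : PresentedGroup r)) = PresentedGroup.mk r := by
    refine FreeGroup.ext_hom _ _ fun x => ?_
    rw [FreeGroup.lift_apply_of]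
    rfl
  exact DFunLike.congr_fun h w

section

variable (k l : ℕ) (w : FreeGroup (Fin k)) (w' : FreeGroup (Fin l))

private abbrev GAm_rA : Set (FreeGroup (Fin k ⊕ Fin l)) := {FreeGroup.map Sum.inl w * (FreeGroup.map Sum.inr w')⁻¹}

private abbrev GAm_rH : Set (FreeGroup (Fin (k + l) ⊕ Fin 1)) :=
  Set.range fun i : Fin 1 => (FreeGroup.of (Sum.inr i) *
      FreeGroup.map Sum.inl ((fun _ : Fin 1 => FreeGroup.map (fun j => finSumFinEquiv (Sum.inl j)) w) i) *
        (FreeGroup.of (Sum.inr i))⁻¹ *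
        (FreeGroup.map Sum.inl ((fun _ : Fin 1 => FreeGroup.map (fun j => finSumFinEquiv (Sum.inr j)) w') i))⁻¹ :
        FreeGroup (Fin (k + l) ⊕ Fin 1))

private theorem GAm_relH {M : Type} [Group M] (f : Fin (k + l) ⊕ Fin 1 → M)
    (h : f (Sum.inr 0) * FreeGroup.lift (fun a => f (Sum.inl (GAm_L k l a))) w * (f (Sum.inr 0))⁻¹ =
      FreeGroup.lift (fun b => f (Sum.inl (GAm_R k l b))) w') :
    ∀ r ∈ GAm_rH k l w w', FreeGroup.lift f r = 1 := by
  rintro r ⟨i, rfl⟩
  have hi : i = 0 := Subsingleton.elim _ _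
  subst hi
  simp only [map_mul, map_inv, FreeGroup.lift_apply_of]
  have h1 : FreeGroup.lift f (FreeGroup.map Sum.inl (FreeGroup.map (GAm_L k l) w)) = FreeGroup.lift (fun a => f (Sum.inl (GAm_L k l a))) w :=
    (GAm_lift_map _ _ _).trans (GAm_lift_map _ _ _)
  have h2 : FreeGroup.lift f (FreeGroup.map Sum.inl (FreeGroup.map (GAm_R k l) w')) = FreeGroup.lift (fun a => f (Sum.inl (GAm_R k l a))) w' :=
    (GAm_lift_map _ _ _).trans (GAm_lift_map _ _ _)
  change f (Sum.inr 0) * FreeGroup.lift f (FreeGroup.map Sum.inl (FreeGroup.map (GAm_L k l) w)) * (f (Sum.inr 0))⁻¹ *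
    (FreeGroup.lift f (FreeGroup.map Sum.inl (FreeGroup.map (GAm_R k l) w')))⁻¹ = 1
  rw [h1, h2, h, mul_inv_cancel]

private theorem GAm_relA {M : Type} [Group M] (f : Fin k ⊕ Fin l → M)
    (h : FreeGroup.lift (fun a => f (Sum.inl a)) w = FreeGroup.lift (fun b => f (Sum.inr b)) w') :
    ∀ r ∈ GAm_rA k l w w', FreeGroup.lift f r = 1 := by
  rintro r rfl
  rw [map_mul, map_inv, GAm_lift_map, GAm_lift_map, h, mul_inv_cancel]

private theorem GAm_eqA : FreeGroup.lift (fun a => (PresentedGroup.of (Sum.inl a) : PresentedGroup (GAm_rA k l w w'))) w =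
    FreeGroup.lift (fun b => (PresentedGroup.of (Sum.inr b) : PresentedGroup (GAm_rA k l w w'))) w' := by
  have h1 := GAm_lift_map (fun x => (PresentedGroup.of x : PresentedGroup (GAm_rA k l w w'))) (Sum.inl : Fin k → Fin k ⊕ Fin l) w
  have h2 := GAm_lift_map (fun x => (PresentedGroup.of x : PresentedGroup (GAm_rA k l w w'))) (Sum.inr : Fin l → Fin k ⊕ Fin l) w'
  rw [GAm_mk] at h1 h2
  rw [← h1, ← h2]
  have h3 : PresentedGroup.mk (GAm_rA k l w w') (FreeGroup.map Sum.inl w * (FreeGroup.map Sum.inr w')⁻¹) = 1 :=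
    PresentedGroup.one_of_mem (Set.mem_singleton _)
  rw [map_mul, map_inv] at h3
  exact mul_inv_eq_one.1 h3

private theorem GAm_eqH : (PresentedGroup.of (Sum.inr 0) : PresentedGroup (GAm_rH k l w w')) *
    FreeGroup.lift (fun a => (PresentedGroup.of (Sum.inl (GAm_L k l a)) : PresentedGroup (GAm_rH k l w w'))) w *
    (PresentedGroup.of (Sum.inr 0) : PresentedGroup (GAm_rH k l w w'))⁻¹ =
      FreeGroup.lift (fun b => (PresentedGroup.of (Sum.inl (GAm_R k l b)) : PresentedGroup (GAm_rH k l w w'))) w' := by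
  have h1 := GAm_lift_map (fun x => (PresentedGroup.of x : PresentedGroup (GAm_rH k l w w'))) (fun a : Fin k => Sum.inl (GAm_L k l a)) w
  have h2 := GAm_lift_map (fun x => (PresentedGroup.of x : PresentedGroup (GAm_rH k l w w'))) (fun a : Fin l => Sum.inl (GAm_R k l a)) w'
  rw [GAm_mk] at h1 h2
  rw [← h1, ← h2]
  have h3 : PresentedGroup.mk (GAm_rH k l w w') (FreeGroup.of (Sum.inr 0) * FreeGroup.map Sum.inl (FreeGroup.map (GAm_L k l) w) *
      (FreeGroup.of (Sum.inr 0))⁻¹ * (FreeGroup.map Sum.inl (FreeGroup.map (GAm_R k l) w'))⁻¹) = 1 :=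
    PresentedGroup.one_of_mem ⟨0, rfl⟩
  have h4 : ∀ (n : ℕ) (e : Fin n → Fin (k + l)) (x : FreeGroup (Fin n)),
      FreeGroup.map (fun a => (Sum.inl (e a) : Fin (k + l) ⊕ Fin 1)) x = FreeGroup.map Sum.inl (FreeGroup.map e x) := by
    intro n e x
    rw [FreeGroup.map.comp]
    rfl
  rw [map_mul, map_mul, map_mul, map_inv, map_inv] at h3
  rw [h4 k (GAm_L k l) w, h4 l (GAm_R k l) w']
  exact mul_inv_eq_one.1 h3

end

private theorem GAm_cc {M : Type} [Group M] (T X : M) : T * (T⁻¹ * X * T⁻¹⁻¹) * T⁻¹ = X := by group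

private theorem GAm_cd {M : Type} [Group M] (T X : M) : T⁻¹ * (T * X * T⁻¹) * T⁻¹⁻¹ = X := by group

private theorem GAm_lift_of {X Y : Type} (e : X → Y) (w : FreeGroup X) :
    FreeGroup.lift (fun x => FreeGroup.of (e x)) w = FreeGroup.map e w := by
  have h : FreeGroup.lift (fun x => FreeGroup.of (e x)) = FreeGroup.map e := by
    refine FreeGroup.ext_hom _ _ fun x => ?_
    rw [FreeGroup.lift_apply_of, FreeGroup.map.of]
  exact DFunLike.congr_fun h w

theorem am_iso (k l : ℕ) (w : FreeGroup (Fin k)) (w' : FreeGroup (Fin l)) :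
    Nonempty (PresentedGroup (Set.range fun i : Fin 1 => (FreeGroup.of (Sum.inr i) *
      FreeGroup.map Sum.inl ((fun _ : Fin 1 => FreeGroup.map (fun j => finSumFinEquiv (Sum.inl j)) w) i) *
        (FreeGroup.of (Sum.inr i))⁻¹ *
        (FreeGroup.map Sum.inl ((fun _ : Fin 1 => FreeGroup.map (fun j => finSumFinEquiv (Sum.inr j)) w') i))⁻¹ :
        FreeGroup (Fin (k + l) ⊕ Fin 1))) ≃*
      Monoid.Coprod (PresentedGroup ({FreeGroup.map Sum.inl w * (FreeGroup.map Sum.inr w')⁻¹} :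
        Set (FreeGroup (Fin k ⊕ Fin l)))) (FreeGroup (Fin 1))) := by
  change Nonempty (PresentedGroup (GAm_rH k l w w') ≃* Monoid.Coprod (PresentedGroup (GAm_rA k l w w')) (FreeGroup (Fin 1)))
  set C := Monoid.Coprod (PresentedGroup (GAm_rA k l w w')) (FreeGroup (Fin 1)) with hC
  let T : C := Monoid.Coprod.inr (FreeGroup.of 0)
  let f : Fin (k + l) ⊕ Fin 1 → C := Sum.elim
    (GAm_fun (fun a => T⁻¹ * Monoid.Coprod.inl (PresentedGroup.of (Sum.inl a)) * T⁻¹⁻¹) fun b => Monoid.Coprod.inl (PresentedGroup.of (Sum.inr b)))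
    fun _ => T
  have hfL : ∀ a, f (Sum.inl (GAm_L k l a)) = T⁻¹ * Monoid.Coprod.inl (PresentedGroup.of (Sum.inl a)) * T⁻¹⁻¹ := fun a => GAm_fun_L _ _ a
  have hfR : ∀ b, f (Sum.inl (GAm_R k l b)) = Monoid.Coprod.inl (PresentedGroup.of (Sum.inr b)) := fun b => GAm_fun_R _ _ b
  have hfT : ∀ i, f (Sum.inr i) = T := fun _ => rfl
  have hf : ∀ r ∈ GAm_rH k l w w', FreeGroup.lift f r = 1 := by
    refine GAm_relH k l w w' f ?_
    have h1 : (fun a => f (Sum.inl (GAm_L k l a))) = fun a => T⁻¹ * Monoid.Coprod.inl (PresentedGroup.of (Sum.inl a)) * T⁻¹⁻¹ := funext hfL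
    have h2 : (fun b => f (Sum.inl (GAm_R k l b))) = fun b => Monoid.Coprod.inl (PresentedGroup.of (Sum.inr b)) := funext hfR
    rw [h1, h2, hfT, GAm_lift_conj, GAm_lift_hom (fun a => (PresentedGroup.of (Sum.inl a) : PresentedGroup (GAm_rA k l w w'))),
      GAm_lift_hom (fun a => (PresentedGroup.of (Sum.inr a) : PresentedGroup (GAm_rA k l w w'))), GAm_eqA]
    exact GAm_cc _ _
  let Φ : PresentedGroup (GAm_rH k l w w') →* C := PresentedGroup.toGroup hf
  let g : Fin k ⊕ Fin l → PresentedGroup (GAm_rH k l w w') := Sum.elim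
    (fun a => PresentedGroup.of (Sum.inr 0) * PresentedGroup.of (Sum.inl (GAm_L k l a)) * (PresentedGroup.of (Sum.inr 0))⁻¹)
    fun b => PresentedGroup.of (Sum.inl (GAm_R k l b))
  have hg : ∀ r ∈ GAm_rA k l w w', FreeGroup.lift g r = 1 := by
    refine GAm_relA k l w w' g ?_
    change FreeGroup.lift (fun a => PresentedGroup.of (Sum.inr 0) * PresentedGroup.of (Sum.inl (GAm_L k l a)) * (PresentedGroup.of (Sum.inr 0))⁻¹) w =
      FreeGroup.lift (fun b => PresentedGroup.of (Sum.inl (GAm_R k l b))) w'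
    rw [GAm_lift_conj, GAm_eqH]
  let Ψ : C →* PresentedGroup (GAm_rH k l w w') := Monoid.Coprod.lift (PresentedGroup.toGroup hg) (FreeGroup.lift fun _ => PresentedGroup.of (Sum.inr 0))
  have hΦ : ∀ x, Φ (PresentedGroup.of x) = f x := fun x => PresentedGroup.toGroup.of hf
  have hΨ : ∀ x, Ψ (Monoid.Coprod.inl (PresentedGroup.of x)) = g x := fun x => by
    change Monoid.Coprod.lift _ _ (Monoid.Coprod.inl _) = _
    rw [Monoid.Coprod.lift_apply_inl]
    exact PresentedGroup.toGroup.of hg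
  have hΨT : Ψ T = PresentedGroup.of (Sum.inr 0) := by
    change Monoid.Coprod.lift _ _ (Monoid.Coprod.inr _) = _
    rw [Monoid.Coprod.lift_apply_inr, FreeGroup.lift_apply_of]
  refine ⟨MonoidHom.toMulEquiv Φ Ψ ?_ ?_⟩
  · refine PresentedGroup.ext fun x => ?_
    rw [MonoidHom.comp_apply, MonoidHom.id_apply, hΦ]
    rcases x with j | i
    · rcases GAm_case j with ⟨a, rfl⟩ | ⟨b, rfl⟩
      · rw [hfL, map_mul, map_mul, map_inv, map_inv, map_inv, hΨ, hΨT]
        exact GAm_cd _ _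
      · rw [hfR, hΨ]
        rfl
    · have hi : i = 0 := Subsingleton.elim _ _
      subst hi
      rw [hfT, hΨT]
  · refine Monoid.Coprod.hom_ext ?_ ?_
    · refine PresentedGroup.ext fun x => ?_
      rw [MonoidHom.comp_apply, MonoidHom.comp_apply, MonoidHom.comp_apply, MonoidHom.id_apply, hΨ]
      rcases x with a | b
      · change Φ (PresentedGroup.of (Sum.inr 0) * PresentedGroup.of (Sum.inl (GAm_L k l a)) * (PresentedGroup.of (Sum.inr 0))⁻¹) = _
        rw [map_mul, map_mul, map_inv, hΦ, hΦ, hfT, hfL]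
        exact GAm_cc _ _
      · change Φ (PresentedGroup.of (Sum.inl (GAm_R k l b))) = _
        rw [hΦ, hfR]
    · refine FreeGroup.ext_hom _ _ fun i => ?_
      have hi : i = 0 := Subsingleton.elim _ _
      subst hi
      rw [MonoidHom.comp_apply, MonoidHom.comp_apply, MonoidHom.comp_apply, MonoidHom.id_apply]
      change Φ (Ψ T) = T
      rw [hΨT, hΦ, hfT]

private theorem GAm_tf {X : Type} (x : FreeGroup X) (hx : x ≠ 1) (n : ℤ) (h : x ^ n = 1) : n = 0 := by
  by_contra hn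
  exact hx ((IsMulTorsionFree.zpow_eq_one_iff_left hn).1 h)

private theorem GAm_retL (k l : ℕ) : ∃ ρ : FreeGroup (Fin (k + l)) →* FreeGroup (Fin k),
    (∀ w, ρ (FreeGroup.map (fun j => finSumFinEquiv (Sum.inl j)) w) = w) ∧
    ∀ w' : FreeGroup (Fin l), ρ (FreeGroup.map (fun j => finSumFinEquiv (Sum.inr j)) w') = 1 := by
  refine ⟨FreeGroup.lift (GAm_fun FreeGroup.of fun _ => 1), fun w => ?_, fun w' => ?_⟩
  · change FreeGroup.lift _ (FreeGroup.map (GAm_L k l) w) = w
    rw [GAm_lift_map]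
    have h : (fun a => GAm_fun (FreeGroup.of : Fin k → FreeGroup (Fin k)) (fun _ => 1) (GAm_L k l a)) = FreeGroup.of := funext fun a => GAm_fun_L _ _ a
    rw [h, FreeGroup.lift_of_eq_id]
    rfl
  · change FreeGroup.lift _ (FreeGroup.map (GAm_R k l) w') = 1
    rw [GAm_lift_map]
    have h : (fun a => GAm_fun (FreeGroup.of : Fin k → FreeGroup (Fin k)) (fun _ => 1) (GAm_R k l a)) = fun _ => 1 := funext fun a => GAm_fun_R _ _ a
    rw [h]
    have h2 : FreeGroup.lift (fun _ : Fin l => (1 : FreeGroup (Fin k))) = 1 := by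
      refine FreeGroup.ext_hom _ _ fun x => ?_
      rw [FreeGroup.lift_apply_of]
      rfl
    rw [h2]
    rfl

private theorem GAm_retR (k l : ℕ) : ∃ ρ : FreeGroup (Fin (k + l)) →* FreeGroup (Fin l),
    ∀ w, ρ (FreeGroup.map (fun j => finSumFinEquiv (Sum.inr j)) w) = w := by
  refine ⟨FreeGroup.lift (GAm_fun (fun _ => 1) FreeGroup.of), fun w => ?_⟩
  change FreeGroup.lift _ (FreeGroup.map (GAm_R k l) w) = w
  rw [GAm_lift_map]
  have h : (fun a => GAm_fun (fun _ : Fin k => 1) (FreeGroup.of : Fin l → FreeGroup (Fin l)) (GAm_R k l a)) = FreeGroup.of := funext fun a => GAm_fun_R _ _ a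
  rw [h, FreeGroup.lift_of_eq_id]
  rfl

theorem am_hyp (k l : ℕ) (w : FreeGroup (Fin k)) (w' : FreeGroup (Fin l))
    (hw : ∀ (x : FreeGroup (Fin k)) (n : ℤ), w = x ^ n → n = 1 ∨ n = -1) (hw' : w' ≠ 1) :
    (∀ (x : FreeGroup (Fin (k + l))) (n : ℤ),
      FreeGroup.map (fun j => finSumFinEquiv (Sum.inl j)) w = x ^ n → n = 1 ∨ n = -1) ∧
    FreeGroup.map (fun j => finSumFinEquiv (m := k) (Sum.inr j)) w' ≠ 1 ∧
    ∀ (c : FreeGroup (Fin (k + l))) (a b : ℤ),
      c * FreeGroup.map (fun j => finSumFinEquiv (Sum.inl j)) w ^ a * c⁻¹ =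
        FreeGroup.map (fun j => finSumFinEquiv (Sum.inr j)) w' ^ b → a = 0 := by
  obtain ⟨ρ, hρ1, hρ2⟩ := GAm_retL k l
  obtain ⟨σ, hσ⟩ := GAm_retR k l
  refine ⟨fun x n h => ?_, fun h => ?_, fun c a b h => ?_⟩
  · have h1 := congrArg ρ h
    rw [hρ1, map_zpow] at h1
    exact hw _ _ h1
  · have h1 := congrArg σ h
    rw [hσ, map_one] at h1
    exact hw' h1
  · have h1 := congrArg ρ h
    rw [map_mul, map_mul, map_inv, map_zpow, map_zpow, hρ1, hρ2, one_zpow, mul_inv_eq_one] at h1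
    have h2 : w ^ a = 1 := by
      have h3 : ρ c * w ^ a = ρ c * 1 := by rw [h1, mul_one]
      exact mul_left_cancel h3
    refine GAm_tf w (fun h3 => ?_) a h2
    have h4 := hw 1 0 (by rw [h3, zpow_zero])
    omega

theorem am_inf (k l : ℕ) (w : FreeGroup (Fin k)) (w' : FreeGroup (Fin l)) (hw : w ≠ 1) (hw' : w' ≠ 1) :
    Infinite (PresentedGroup ({FreeGroup.map Sum.inl w * (FreeGroup.map Sum.inr w')⁻¹} :
        Set (FreeGroup (Fin k ⊕ Fin l)))) := by
  obtain ⟨ρ, hρ1, hρ2⟩ := GAm_retL k l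
  obtain ⟨σ, hσ⟩ := GAm_retR k l
  have hu : FreeGroup.map (GAm_L k l) w ≠ 1 := fun h => hw (by rw [← hρ1 w]; exact (congrArg ρ h).trans (map_one ρ))
  have hv : FreeGroup.map (GAm_R k l) w' ≠ 1 := fun h => hw' (by rw [← hσ w']; exact (congrArg σ h).trans (map_one σ))
  obtain ⟨H, hH, ι, t, hι, ht⟩ := hnn_emb (FreeGroup (Fin (k + l))) 1 (fun _ => FreeGroup.map (GAm_L k l) w) (fun _ => FreeGroup.map (GAm_R k l) w')
    (fun _ n h => GAm_tf _ hu n h) (fun _ n h => GAm_tf _ hv n h)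
  let f : Fin k ⊕ Fin l → H := Sum.elim (fun a => t 0 * ι (FreeGroup.of (GAm_L k l a)) * (t 0)⁻¹) fun b => ι (FreeGroup.of (GAm_R k l b))
  have hL : FreeGroup.lift (fun a => f (Sum.inl a)) w = t 0 * ι (FreeGroup.map (GAm_L k l) w) * (t 0)⁻¹ := by
    change FreeGroup.lift (fun a => t 0 * ι (FreeGroup.of (GAm_L k l a)) * (t 0)⁻¹) w = _
    rw [GAm_lift_conj, GAm_lift_hom (fun a => FreeGroup.of (GAm_L k l a)), GAm_lift_of]
  have hR : FreeGroup.lift (fun b => f (Sum.inr b)) w' = ι (FreeGroup.map (GAm_R k l) w') := by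
    change FreeGroup.lift (fun b => ι (FreeGroup.of (GAm_R k l b))) w' = _
    rw [GAm_lift_hom (fun a => FreeGroup.of (GAm_R k l a)), GAm_lift_of]
  have hf : ∀ r ∈ GAm_rA k l w w', FreeGroup.lift f r = 1 := GAm_relA k l w w' f (by rw [hL, hR, ht])
  by_contra hfin
  rw [not_infinite_iff_finite] at hfin
  obtain ⟨n, hn, h1⟩ := isOfFinOrder_iff_pow_eq_one.1
    (isOfFinOrder_of_finite (PresentedGroup.mk (GAm_rA k l w w') (FreeGroup.map Sum.inl w)))
  have h2 : PresentedGroup.toGroup hf (PresentedGroup.mk (GAm_rA k l w w') (FreeGroup.map Sum.inl w)) =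
      t 0 * ι (FreeGroup.map (GAm_L k l) w) * (t 0)⁻¹ := by
    rw [← hL]
    have h3 : (PresentedGroup.toGroup hf).comp (PresentedGroup.mk (GAm_rA k l w w')) = FreeGroup.lift f := by
      refine FreeGroup.ext_hom _ _ fun x => ?_
      rw [MonoidHom.comp_apply, FreeGroup.lift_apply_of]
      exact PresentedGroup.toGroup.of hf
    have h4 := DFunLike.congr_fun h3 (FreeGroup.map Sum.inl w)
    rw [MonoidHom.comp_apply, GAm_lift_map] at h4
    exact h4
  have h5 := congrArg (PresentedGroup.toGroup hf) h1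
  rw [map_pow, map_one, h2, conj_pow, mul_inv_eq_one] at h5
  have h6 : ι (FreeGroup.map (GAm_L k l) w ^ n) = ι 1 := by
    rw [map_pow, map_one]
    have h7 : t 0 * ι (FreeGroup.map (GAm_L k l) w) ^ n = t 0 * 1 := by rw [h5, mul_one]
    exact mul_left_cancel h7
  have h7 := GAm_tf _ hu n (by rw [zpow_natCast]; exact hι h6)
  omega

end H33.HN
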