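import Pool.Agent.H33.HN.GMain
import Pool.Agent.H33.HN.GAm

/-! # HN.Fin : amalgamated products of free groups -/

set_option autoImplicit false
set_option synthInstance.maxSize 4000

open MeasureTheory H31.BE

namespace H33.HN

theorem amalgam (k l : ℕ) (w : FreeGroup (Fin k)) (w' : FreeGroup (Fin l))
    (hw : ∀ (x : FreeGroup (Fin k)) (n : ℤ), w = x ^ n → n = 1 ∨ n = -1) (hw' : w' ≠ 1)
    (G : Type) [Group G]
    (e : PresentedGroup ({FreeGroup.map Sum.inl w * (FreeGroup.map Sum.inr w')⁻¹} :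
        Set (FreeGroup (Fin k ⊕ Fin l))) ≃* G)
    (μ ν : Measure ℝ) [IsProbabilityMeasure μ] [IsProbabilityMeasure ν]
    (h : ∃ T S : (G → ℝ) → (G → ℝ),
        MeasurePreserving T (Measure.infinitePi (fun _ : G => μ))
          (Measure.infinitePi (fun _ : G => ν)) ∧
        MeasurePreserving S (Measure.infinitePi (fun _ : G => ν))
          (Measure.infinitePi (fun _ : G => μ)) ∧
        (∀ᵐ x ∂(Measure.infinitePi (fun _ : G => μ)), S (T x) = x) ∧
        (∀ᵐ y ∂(Measure.infinitePi (fun _ : G => ν)), T (S y) = y) ∧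
        (∀ g : G, ∃ F : Finset G, ∀ᵐ x ∂(Measure.infinitePi (fun _ : G => μ)),
          ∃ f ∈ F, T (fun h => x (g⁻¹ * h)) = fun h => T x (f⁻¹ * h)) ∧
        (∀ g : G, ∃ F : Finset G, ∀ᵐ y ∂(Measure.infinitePi (fun _ : G => ν)),
          ∃ f ∈ F, S (fun h => y (g⁻¹ * h)) = fun h => S y (f⁻¹ * h))) :
    HF μ = HF ν := by
  have hw1 : w ≠ 1 := by
    rintro rfl
    rcases hw 1 0 (by simp) with h0 | h0 <;> simp at h0
  haveI := am_inf k l w w' hw1 hw'
  haveI : Infinite G := Infinite.of_injective e e.injective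
  obtain ⟨e1⟩ := am_iso k l w w'
  obtain ⟨h1, h2, h3⟩ := am_hyp k l w w' hw hw'
  exact main_thmG (k + l) 1 1 le_rfl
    (fun _ => FreeGroup.map (fun j => finSumFinEquiv (Sum.inl j)) w)
    (fun _ => FreeGroup.map (fun j => finSumFinEquiv (Sum.inr j)) w')
    (fun _ => h1) (fun _ => h2) (fun i j hij => absurd (Subsingleton.elim i j) hij) (fun _ _ => h3)
    G (e1.trans (MulEquiv.coprodCongr e (MulEquiv.refl _))) μ ν h

end H33.HN
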