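import Pool.Agent.H33.HN.FoxA
import Pool.Agent.H33.HN.DefsH

/-! # HN.ForG : no cycles of parents: the edges that are not T-edges form a forest

PROOF. Let `Ed ≠ ∅`; `fox` gives `Z`, and `Z ≠ ∅`. Let `c = (i, z) ∈ Z`, `p := td i z` (`p.1 = i`), `e := (lp p, lift g (cw (sc p)) * z)`. `e ∉ Ed`: otherwise `h1 e p` gives `td p.1 ((lift g (cw (sc p)))⁻¹ * e.2) ≠ p`, but this is `td i z = p`. So the number of the pairs `(c', p')`, `c' ∈ Z`, `p'.1 = c'.1`, with the edge `e` is even, and `(c, p)` is one of them, so there is another one `(c', p')`: `lp p' = lp p`, `lift g (cw (sc p')) * c'.2 = lift g (cw (sc p)) * z`, i.e. `c'.2 = lift g (pg p p') * z`. If `p' = p` then `c' = c`. So `p' ≠ p`, `Al p p'` and `Prx g td c c'` with `c' ∈ Z`.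
So every element of the finite nonempty set `Z` has a successor in `Z`: there is a cycle, `Relation.TransGen (Prx g td) c c` for some `c` (`Finite.exists_ne_map_eq_of_infinite` for the sequence of the successors, or: on the finite type `↥Z` the transitive irreflexive relation `TransGen` is well founded, `Finite.wellFounded_of_trans_of_irrefl`, and a minimal (maximal) element has no successor). -/

set_option autoImplicit false
set_option synthInstance.maxSize 4000

open MeasureTheory H31.BE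

namespace H33.HN

theorem for_gen {S I : Type} [Fintype S] [Fintype I] [DecidableEq S] [DecidableEq I] {r : Rl S I} {G : Type} [Group G]
    [DecidableEq G] (g : S → G) (hg : Pres r g) (td : I → G → Ps r) (h0 : ∀ i z, (td i z).1 = i)
    (hc : ∀ c : I × G, ¬ Relation.TransGen (Prx g td) c c) (Ed : Finset (S × G))
    (h1 : ∀ e ∈ Ed, ∀ p : Ps r, lp p = e.1 → td p.1 ((FreeGroup.lift g (cw (sc p)))⁻¹ * e.2) ≠ p)
    (h : Bd0 g Ed) : Ed = ∅ := by
  obtain ⟨Z, hZ⟩ := fox g hg Ed h
  by_contra hne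
  obtain ⟨e0, he0⟩ := Finset.nonempty_iff_ne_empty.2 hne
  have step : ∀ c ∈ Z, ∃ c' ∈ Z, Prx g td c c' := by
    intro c hcZ
    obtain ⟨i, z⟩ := c
    set p : Ps r := td i z with hp
    have hp1 : p.1 = i := h0 i z
    have he : (lp p, FreeGroup.lift g (cw (sc p)) * z) ∉ Ed := by
      intro he
      have h2 := h1 _ he p rfl
      apply h2
      show td p.1 ((FreeGroup.lift g (cw (sc p)))⁻¹ * (FreeGroup.lift g (cw (sc p)) * z)) = p
      rw [inv_mul_cancel_left, hp1]
    have h3 := (not_congr (hZ (lp p, FreeGroup.lift g (cw (sc p)) * z))).1 he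
    rw [Nat.not_odd_iff_even] at h3
    have hmem : (((i, z), p) : (I × G) × Ps r) ∈ (Z ×ˢ (Finset.univ : Finset (Ps r))).filter fun x =>
        x.2.1 = x.1.1 ∧ lp x.2 = (lp p, FreeGroup.lift g (cw (sc p)) * z).1 ∧
          FreeGroup.lift g (cw (sc x.2)) * x.1.2 = (lp p, FreeGroup.lift g (cw (sc p)) * z).2 :=
      Finset.mem_filter.2 ⟨Finset.mem_product.2 ⟨hcZ, Finset.mem_univ _⟩, hp1, rfl, rfl⟩
    have hpos := Finset.card_pos.2 ⟨_, hmem⟩
    have hlt : 1 < ((Z ×ˢ (Finset.univ : Finset (Ps r))).filter fun x =>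
        x.2.1 = x.1.1 ∧ lp x.2 = (lp p, FreeGroup.lift g (cw (sc p)) * z).1 ∧
          FreeGroup.lift g (cw (sc x.2)) * x.1.2 = (lp p, FreeGroup.lift g (cw (sc p)) * z).2).card := by
      rcases h3 with ⟨k, hk⟩
      omega
    obtain ⟨⟨c', p'⟩, hb, hbne⟩ := Finset.exists_mem_ne hlt ((i, z), p)
    obtain ⟨hb1, hb2, hb3, hb4⟩ := Finset.mem_filter.1 hb
    have hcZ' : c' ∈ Z := (Finset.mem_product.1 hb1).1
    have hb2' : p'.1 = c'.1 := hb2
    have hb3' : lp p' = lp p := hb3
    have hb4' : FreeGroup.lift g (cw (sc p')) * c'.2 = FreeGroup.lift g (cw (sc p)) * z := hb4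
    refine ⟨c', hcZ', p', ⟨hb3', ?_⟩, ?_⟩
    · intro hpp
      have hpp' : p' = p := hpp
      apply hbne
      rw [hpp'] at hb2' hb4'
      have e1 : c'.2 = z := mul_left_cancel hb4'
      have e2 : c' = (i, z) := Prod.ext (by rw [← hb2', hp1]) e1
      rw [e2, hpp']
    · refine Prod.ext hb2'.symm ?_
      show c'.2 = FreeGroup.lift g (pg p p') * z
      unfold pg
      rw [map_mul, map_inv, mul_assoc, ← hb4', inv_mul_cancel_left]
  have hZne : ∃ c, c ∈ Z := by
    have h2 := (hZ e0).1 he0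
    have h3 : 0 < ((Z ×ˢ (Finset.univ : Finset (Ps r))).filter fun x =>
      x.2.1 = x.1.1 ∧ lp x.2 = e0.1 ∧ FreeGroup.lift g (cw (sc x.2)) * x.1.2 = e0.2).card := h2.pos
    obtain ⟨x, hx⟩ := Finset.card_pos.1 h3
    exact ⟨x.1, (Finset.mem_product.1 (Finset.mem_filter.1 hx).1).1⟩
  obtain ⟨c0, hc0⟩ := hZne
  choose f hf1 hf2 using step
  let nxt : {c // c ∈ Z} → {c // c ∈ Z} := fun c => ⟨f c.1 c.2, hf1 c.1 c.2⟩
  have tr : ∀ (n : ℕ) (c : {c // c ∈ Z}), Relation.TransGen (Prx g td) c.1 (nxt^[n + 1] c).1 := by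
    intro n
    induction n with
    | zero => exact fun c => Relation.TransGen.single (hf2 c.1 c.2)
    | succ n ih =>
      intro c
      rw [Function.iterate_succ_apply]
      exact Relation.TransGen.head (hf2 c.1 c.2) (ih (nxt c))
  obtain ⟨x, y, hxy, he⟩ := Finite.exists_ne_map_eq_of_infinite (fun n : ℕ => nxt^[n] ⟨c0, hc0⟩)
  have fin : ∀ x y : ℕ, x < y → nxt^[x] ⟨c0, hc0⟩ = nxt^[y] ⟨c0, hc0⟩ → False := by
    intro x y hlt he
    obtain ⟨k, rfl⟩ := Nat.exists_eq_add_of_lt hlt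
    have e1 : x + k + 1 = (k + 1) + x := by ring
    rw [e1, Function.iterate_add_apply] at he
    have h2 := tr k (nxt^[x] ⟨c0, hc0⟩)
    rw [← he] at h2
    exact hc _ h2
  rcases lt_or_gt_of_ne hxy with h2 | h2
  · exact fin x y h2 he
  · exact fin y x h2 he.symm

end H33.HN
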