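import Pool.Agent.H33.HN.NcA

/-! # HN.ShpA : consistency of the shapes (paper 5.2)

PROOF. `fs_some`: by definition (`Nat.find`). `sg_fst`: by cases. `sg_hat`: if `fs .. = none` then `dX = none`, and `¬ sw i t` (otherwise `n = 0` would stop: `sf 1 t = t`). `n = 0`: `sw` gives `some (sp i)`; otherwise `none` (mark) and `¬ sw`. `n ≥ 1`: `some (ln i)`, and `¬ sw` (minimality). `sg_none`: `dX (sgm i t) = none` iff there is no stop, or `n = 0` and not `sw`, so `t 1 i = true`.
`sg_tc`: (A) `c = ln i`, `n ≥ 1`, `q = lo i` (`al_ln`), `lift g (pg c q) = ve i` (`pg_ln`): with `t' := sf (ve i) t`, `sf (ve ^ a) t' = sf (ve ^ (a + 1)) t`: the first stop of `t'` is `n - 1 ≤ 2 N`, and `sw` at the stop is the same condition; the distances: `t' (ve q ^ a * el * ve i ^ (n - 1)) = t (.. * ve i ^ n)`. (B) `c = sp i`, `n = 0`, `sw i t`, `t' := sf (el i q) t`: let `n' ≤ N` be the first with `t' (ve q.1 ^ n') q.1 = true` (it exists by `sw`). For `a < n'`: no mark at `a`, and not `sw q.1 (sf (ve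 ^ a) t')` since there is a mark `n' - a ≤ N` steps ahead.
At `n'`: mark, not `sw`. So the first stop is `n' ≤ N ≤ 2 N`, and `sgm q.1 t' = ⟨q.1, n', none⟩ = pX ..`. `sg_lc`: `sgm` depends only on the finitely many coordinates used in the definition: `ve ^ n` for `n ≤ 3 N`, `(ve ^ b)⁻¹ * ve ^ n` for `b ≤ L`, `n ≤ 2 N`, `ve q ^ a * el i q * ve i ^ n`, `ve i ^ a * g (inr i) * ve i ^ n` (`a ≤ N`, `n ≤ 2 N`). `hx_none`, `hx_some`: by definition of `hX`, `pX` (for `ln`: the only `q` with `Al (ln i) q` is `lo i`; for `sp`: the supremum over the subtype is the supremum over the filtered set; if it is empty both are 0). `dx_fst`. `hx_le`. -/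

set_option autoImplicit false
set_option synthInstance.maxSize 4000

open MeasureTheory H31.BE

namespace H33.HN

variable {k m : ℕ} {U V : Fin m → Wl k} {G : Type} [Group G] (g : Lh k m → G) (hg : Pres (rh U V) g) (hy : Hyp U V)

theorem fs_some (N : ℕ) (p : ℕ → Prop) (n : Fin (N + 1)) : fs N p = some n ↔ p n ∧ ∀ a < (n : ℕ), ¬ p a := by
  classical
  have hn : (n : ℕ) ≤ N := Nat.lt_succ_iff.1 n.2
  unfold fs
  split_ifs with h
  · rw [Option.some_inj, Fin.ext_iff]
    show Nat.find h = (n : ℕ) ↔ _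
    rw [Nat.find_eq_iff]
    constructor
    · rintro ⟨h1, h2⟩
      exact ⟨h1.2, fun a ha hp => h2 a ha ⟨le_of_lt (lt_of_lt_of_le ha hn), hp⟩⟩
    · rintro ⟨h1, h2⟩
      exact ⟨⟨hn, h1⟩, fun a ha hp => h2 a ha hp.2⟩
  · constructor
    · intro h1
      exact absurd h1 (by simp)
    · rintro ⟨h1, -⟩
      exact absurd ⟨(n : ℕ), hn, h1⟩ h

theorem fs_none (N : ℕ) (p : ℕ → Prop) : fs N p = none ↔ ∀ n ≤ N, ¬ p n := by
  classical
  unfold fs
  split_ifs with h
  · constructor
    · intro h1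
      exact absurd h1 (by simp)
    · intro h1
      obtain ⟨n, hn, hp⟩ := h
      exact absurd hp (h1 n hn)
  · constructor
    · intro _ n hn hp
      exact h ⟨n, hn, hp⟩
    · intro _
      rfl

private theorem ShpA_fs_congr (N : ℕ) (p p' : ℕ → Prop) (h : ∀ n ≤ N, (p n ↔ p' n)) : fs N p = fs N p' := by
  rcases hh : fs N p' with _ | n
  · rw [fs_none] at hh ⊢
    exact fun n hn hp => hh n hn ((h n hn).1 hp)
  · rw [fs_some] at hh ⊢
    have hn : (n : ℕ) ≤ N := Nat.lt_succ_iff.1 n.2
    exact ⟨(h n hn).2 hh.1, fun a ha hp => hh.2 a ha ((h a (by omega)).1 hp)⟩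

private theorem ShpA_sf1 {A : Type} (t : G → A) : sf (1 : G) t = t := by
  funext x
  show t (x * 1) = t x
  rw [mul_one]

private theorem ShpA_sfsf {A : Type} (h h' : G) (t : G → A) : sf h (sf h' t) = sf (h * h') t := by
  funext x
  show t (x * h * h') = t (x * (h * h'))
  rw [mul_assoc]

private theorem ShpA_none (N L : ℕ) (i : Fin m) (t : G → Fin m → Bool)
    (h : fs (2 * N) (fun n => stp U V g N L i (sf (ve V g i ^ n) t)) = none) :
    sgm U V g N L i t = ⟨i, 0, none⟩ := by
  unfold sgm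
  rw [h]

open Classical in
private theorem ShpA_some (N L : ℕ) (i : Fin m) (t : G → Fin m → Bool) (n : Fin (2 * N + 1))
    (h : fs (2 * N) (fun n => stp U V g N L i (sf (ve V g i ^ n) t)) = some n) :
    sgm U V g N L i t = ⟨i, n, if sw U V g N L i (sf (ve V g i ^ (n : ℕ)) t) then
      some (fun q => (fs N (fun a => t (ve V g q.1.1 ^ a * el U V g i q.1 * ve V g i ^ (n : ℕ)) q.1.1 = true)).getD 0)
      else none⟩ := by
  unfold sgm
  rw [h]

private theorem ShpA_dx0 {N : ℕ} (i : Fin m) : dX U V (⟨i, 0, none⟩ : Sx U V N) = none := by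
  unfold dX
  simp

private theorem ShpA_dxp {N : ℕ} (x : Sx U V N) (h : (x.2.1 : ℕ) ≠ 0) : dX U V x = some (ln U V x.1) := by
  unfold dX
  rw [if_pos h]

private theorem ShpA_dxs {N : ℕ} (x : Sx U V N) (h : (x.2.1 : ℕ) = 0) (h' : x.2.2.isSome = true) :
    dX U V x = some (sp U V x.1) := by
  unfold dX
  rw [if_neg (by rw [h]; simp), if_pos h']

private theorem ShpA_dxn {N : ℕ} (x : Sx U V N) (h : (x.2.1 : ℕ) = 0) (h' : x.2.2 = none) :
    dX U V x = none := by
  unfold dX
  rw [if_neg (by rw [h]; simp), if_neg (by rw [h']; simp)]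

theorem dx_fst {N : ℕ} (x : Sx U V N) (c : Ps (rh U V)) (h : dX U V x = some c) : c.1 = x.1 := by
  by_cases h0 : (x.2.1 : ℕ) = 0
  · rcases h1 : x.2.2 with _ | f
    · rw [ShpA_dxn x h0 h1] at h
      exact absurd h (by simp)
    · rw [ShpA_dxs x h0 (by rw [h1]; rfl), Option.some_inj] at h
      rw [← h]
      rfl
  · rw [ShpA_dxp x h0, Option.some_inj] at h
    rw [← h]
    rfl

theorem sg_fst (N L : ℕ) (i : Fin m) (t : G → Fin m → Bool) : (sgm U V g N L i t).1 = i := by
  rcases h : fs (2 * N) (fun n => stp U V g N L i (sf (ve V g i ^ n) t)) with _ | n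
  · rw [ShpA_none g N L i t h]
  · rw [ShpA_some g N L i t n h]

theorem sg_hat (N L : ℕ) (i : Fin m) (t : G → Fin m → Bool) :
    (dX U V (sgm U V g N L i t)).getD (ln U V i) = tdx U V g N L t i 1 := by
  classical
  rcases h : fs (2 * N) (fun n => stp U V g N L i (sf (ve V g i ^ n) t)) with _ | n
  · rw [ShpA_none g N L i t h, ShpA_dx0]
    have h1 := (fs_none _ _).1 h 0 (Nat.zero_le _)
    rw [pow_zero, ShpA_sf1] at h1
    have h2 : ¬ sw U V g N L i t := fun hs => h1 (Or.inr hs)
    unfold tdx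
    rw [ShpA_sf1, if_neg h2]
    rfl
  · rw [ShpA_some g N L i t n h]
    obtain ⟨h1, h2⟩ := (fs_some _ _ _).1 h
    by_cases h0 : (n : ℕ) = 0
    · rw [h0, pow_zero, ShpA_sf1] at h1
      by_cases hs : sw U V g N L i t
      · rw [ShpA_dxs _ h0 (by
          show (if sw U V g N L i (sf (ve V g i ^ (n : ℕ)) t) then _ else none).isSome = true
          rw [h0, pow_zero, ShpA_sf1, if_pos hs]
          rfl)]
        unfold tdx
        rw [ShpA_sf1, if_pos hs]
        rfl
      · rw [ShpA_dxn _ h0 (by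
          show (if sw U V g N L i (sf (ve V g i ^ (n : ℕ)) t) then _ else none) = none
          rw [h0, pow_zero, ShpA_sf1, if_neg hs])]
        unfold tdx
        rw [ShpA_sf1, if_neg hs]
        rfl
    · rw [ShpA_dxp _ h0]
      have h3 := h2 0 (Nat.pos_of_ne_zero h0)
      rw [pow_zero, ShpA_sf1] at h3
      have h4 : ¬ sw U V g N L i t := fun hs => h3 (Or.inr hs)
      unfold tdx
      rw [ShpA_sf1, if_neg h4]
      rfl

theorem sg_none (N L : ℕ) (i : Fin m) (t : G → Fin m → Bool) (h : dX U V (sgm U V g N L i t) = none) :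
    t 1 i = true ∨ fs (2 * N) (fun n => stp U V g N L i (sf (ve V g i ^ n) t)) = none := by
  classical
  rcases hf : fs (2 * N) (fun n => stp U V g N L i (sf (ve V g i ^ n) t)) with _ | n
  · exact Or.inr rfl
  · left
    rw [ShpA_some g N L i t n hf] at h
    obtain ⟨h1, h2⟩ := (fs_some _ _ _).1 hf
    by_cases h0 : (n : ℕ) = 0
    · rw [h0, pow_zero, ShpA_sf1] at h1
      rcases h1 with h1 | hs
      · exact h1
      · exfalso
        rw [ShpA_dxs _ h0 (by
          show (if sw U V g N L i (sf (ve V g i ^ (n : ℕ)) t) then _ else none).isSome = true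
          rw [h0, pow_zero, ShpA_sf1, if_pos hs]
          rfl)] at h
        exact absurd h (by simp)
    · exfalso
      rw [ShpA_dxp _ h0] at h
      exact absurd h (by simp)

theorem sg_line (N L : ℕ) (i : Fin m) (t : G → Fin m → Bool) (h : dX U V (sgm U V g N L i t) ≠ some (ln U V i)) :
    t 1 i = true ∨ sw U V g N L i t ∨ fs (2 * N) (fun n => stp U V g N L i (sf (ve V g i ^ n) t)) = none := by
  classical
  rcases hf : fs (2 * N) (fun n => stp U V g N L i (sf (ve V g i ^ n) t)) with _ | n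
  · exact Or.inr (Or.inr rfl)
  · rw [ShpA_some g N L i t n hf] at h
    obtain ⟨h1, h2⟩ := (fs_some _ _ _).1 hf
    by_cases h0 : (n : ℕ) = 0
    · rw [h0, pow_zero, ShpA_sf1] at h1
      rcases h1 with h1 | hs
      · exact Or.inl h1
      · exact Or.inr (Or.inl hs)
    · exact absurd (ShpA_dxp _ h0) h

include hg in
theorem sg_tc (N L : ℕ) (i : Fin m) (t : G → Fin m → Bool) (c : Ps (rh U V))
    (h : dX U V (sgm U V g N L i t) = some c) (q : Ps (rh U V)) (hq : Al c q) :
    sgm U V g N L q.1 (sf (FreeGroup.lift g (pg c q)) t) = pX U V (sgm U V g N L i t) q := by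
  classical
  rcases hf : fs (2 * N) (fun n => stp U V g N L i (sf (ve V g i ^ n) t)) with _ | n
  · rw [ShpA_none g N L i t hf, ShpA_dx0] at h
    exact absurd h (by simp)
  rw [ShpA_some g N L i t n hf] at h ⊢
  obtain ⟨h1, h2⟩ := (fs_some _ _ _).1 hf
  by_cases h0 : (n : ℕ) = 0
  · by_cases hs : sw U V g N L i (sf (ve V g i ^ (n : ℕ)) t)
    · rw [ShpA_dxs _ h0 (by
        show (if sw U V g N L i (sf (ve V g i ^ (n : ℕ)) t) then _ else none).isSome = true
        rw [if_pos hs]
        rfl), Option.some_inj] at h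
      subst h
      have hq' : Al (sp U V i) q := hq
      have hs0 : sw U V g N L i t := by
        rw [h0, pow_zero, ShpA_sf1] at hs
        exact hs
      -- the first mark of the parent
      obtain ⟨n', hn'⟩ : ∃ n' : Fin (N + 1),
          fs N (fun a => t (ve V g q.1 ^ a * el U V g i q * ve V g i ^ (n : ℕ)) q.1 = true) = some n' := by
        rcases hh : fs N (fun a => t (ve V g q.1 ^ a * el U V g i q * ve V g i ^ (n : ℕ)) q.1 = true) with _ | n'
        · exfalso
          rw [fs_none] at hh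
          obtain ⟨a, ha, ha'⟩ := hs0.2.2.1 q hq'
          refine hh a ha ?_
          rw [h0, pow_zero, mul_one]
          exact ha'
        · exact ⟨n', rfl⟩
      obtain ⟨k1, k2⟩ := (fs_some _ _ _).1 hn'
      rw [h0, pow_zero, mul_one] at k1
      have hN : (n' : ℕ) ≤ N := Nat.lt_succ_iff.1 n'.2
      have e0 : FreeGroup.lift g (pg (sp U V i) q) = el U V g i q := rfl
      have hrhs : pX U V (⟨i, n, if sw U V g N L i (sf (ve V g i ^ (n : ℕ)) t) then
          some (fun q => (fs N (fun a => t (ve V g q.1.1 ^ a * el U V g i q.1 * ve V g i ^ (n : ℕ)) q.1.1 =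
            true)).getD 0) else none⟩ : Sx U V N) q = ⟨q.1, ⟨(n' : ℕ), by omega⟩, none⟩ := by
        unfold pX
        rw [dif_neg (by
          show ¬ ((n : ℕ) ≠ 0)
          rw [h0]
          simp)]
        simp only [if_pos hs]
        rw [dif_pos hq']
        simp only [hn', Option.getD_some]
      rw [hrhs]
      have hl : fs (2 * N) (fun a => stp U V g N L q.1 (sf (ve V g q.1 ^ a) (sf (el U V g i q) t))) =
          some ⟨(n' : ℕ), by omega⟩ := by
        rw [fs_some]
        constructor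
        · left
          show t (1 * ve V g q.1 ^ (n' : ℕ) * el U V g i q) q.1 = true
          rw [one_mul]
          exact k1
        · intro a ha hst
          have ha' : a < (n' : ℕ) := ha
          rcases hst with hst | hst
          · refine k2 a ha' ?_
            rw [h0, pow_zero, mul_one]
            have : t (1 * ve V g q.1 ^ a * el U V g i q) q.1 = true := hst
            rwa [one_mul] at this
          · refine hst.1 ((n' : ℕ) - a) (by omega) ?_
            show t (ve V g q.1 ^ ((n' : ℕ) - a) * ve V g q.1 ^ a * el U V g i q) q.1 = true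
            rw [← pow_add, Nat.sub_add_cancel (le_of_lt ha')]
            exact k1
      have hns : ¬ sw U V g N L q.1 (sf (ve V g q.1 ^ (n' : ℕ)) (sf (el U V g i q) t)) := by
        intro hst
        refine hst.1 0 (Nat.zero_le _) ?_
        show t (ve V g q.1 ^ 0 * ve V g q.1 ^ (n' : ℕ) * el U V g i q) q.1 = true
        rw [pow_zero, one_mul]
        exact k1
      show sgm U V g N L q.1 (sf (el U V g i q) t) = _
      rw [ShpA_some g N L q.1 _ _ hl]
      simp only [if_neg hns]
    · rw [ShpA_dxn _ h0 (by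
        show (if sw U V g N L i (sf (ve V g i ^ (n : ℕ)) t) then _ else none) = none
        rw [if_neg hs])] at h
      exact absurd h (by simp)
  · rw [ShpA_dxp _ h0, Option.some_inj] at h
    subst h
    have hq' : q = lo U V i := (al_ln i q).1 hq
    subst hq'
    have e0 : FreeGroup.lift g (pg (ln U V i) (lo U V i)) = ve V g i := pg_ln g hg i
    show sgm U V g N L i (sf (FreeGroup.lift g (pg (ln U V i) (lo U V i))) t) = _
    rw [e0]
    have es : ∀ a : ℕ, sf (ve V g i ^ a) (sf (ve V g i) t) = sf (ve V g i ^ (a + 1)) t := by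
      intro a
      rw [ShpA_sfsf, pow_succ]
    have hn1 : (n : ℕ) - 1 + 1 = (n : ℕ) := Nat.sub_add_cancel (Nat.pos_of_ne_zero h0)
    have hl : fs (2 * N) (fun a => stp U V g N L i (sf (ve V g i ^ a) (sf (ve V g i) t))) =
        some ⟨(n : ℕ) - 1, by have := n.2; omega⟩ := by
      rw [fs_some]
      constructor
      · show stp U V g N L i (sf (ve V g i ^ ((n : ℕ) - 1)) (sf (ve V g i) t))
        rw [es, hn1]
        exact h1
      · intro a ha
        have ha' : a < (n : ℕ) - 1 := ha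
        show ¬ stp U V g N L i (sf (ve V g i ^ a) (sf (ve V g i) t))
        rw [es]
        exact h2 (a + 1) (by omega)
    rw [ShpA_some g N L i _ _ hl]
    unfold pX
    rw [dif_pos (show ((n : ℕ) ≠ 0) from h0)]
    simp only
    have e1 : sf (ve V g i ^ ((n : ℕ) - 1)) (sf (ve V g i) t) = sf (ve V g i ^ (n : ℕ)) t := by
      rw [es, hn1]
    have e2 : ∀ z : G, sf (ve V g i) t (z * ve V g i ^ ((n : ℕ) - 1)) = t (z * ve V g i ^ (n : ℕ)) := by
      intro z
      show t (z * ve V g i ^ ((n : ℕ) - 1) * ve V g i) = _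
      rw [mul_assoc, ← pow_succ, hn1]
    simp only [e1, e2]

theorem sg_lc [DecidableEq G] (N L : ℕ) : ∃ D : Finset G, ∀ i : Fin m, Lc D (sgm U V g N L i) := by
  classical
  let D1 : Finset G := Finset.univ.image fun p : Fin m × Fin (3 * N + 1) => ve V g p.1 ^ (p.2 : ℕ)
  let D2 : Finset G := Finset.univ.image fun p : Fin m × Fin (L + 1) × Fin (2 * N + 1) =>
    (ve V g p.1 ^ (p.2.1 : ℕ))⁻¹ * ve V g p.1 ^ (p.2.2 : ℕ)
  let D3 : Finset G := Finset.univ.image fun p : Fin m × Ps (rh U V) × Fin (N + 1) × Fin (2 * N + 1) =>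
    ve V g p.2.1.1 ^ (p.2.2.1 : ℕ) * el U V g p.1 p.2.1 * ve V g p.1 ^ (p.2.2.2 : ℕ)
  let D4 : Finset G := Finset.univ.image fun p : Fin m × Fin (N + 1) × Fin (2 * N + 1) =>
    ve V g p.1 ^ (p.2.1 : ℕ) * g (Sum.inr p.1) * ve V g p.1 ^ (p.2.2 : ℕ)
  refine ⟨D1 ∪ D2 ∪ D3 ∪ D4, fun i t t' htt => ?_⟩
  have a1 : ∀ a ≤ 3 * N, t (ve V g i ^ a) = t' (ve V g i ^ a) := fun a ha =>
    htt _ (Finset.mem_union_left _ (Finset.mem_union_left _ (Finset.mem_union_left _
      (Finset.mem_image.2 ⟨(i, ⟨a, by omega⟩), Finset.mem_univ _, rfl⟩))))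
  have a2 : ∀ b ≤ L, ∀ n ≤ 2 * N, t ((ve V g i ^ b)⁻¹ * ve V g i ^ n) = t' ((ve V g i ^ b)⁻¹ * ve V g i ^ n) :=
    fun b hb n hn => htt _ (Finset.mem_union_left _ (Finset.mem_union_left _ (Finset.mem_union_right _
      (Finset.mem_image.2 ⟨(i, ⟨b, by omega⟩, ⟨n, by omega⟩), Finset.mem_univ _, rfl⟩))))
  have a3 : ∀ q : Ps (rh U V), ∀ a ≤ N, ∀ n ≤ 2 * N, t (ve V g q.1 ^ a * el U V g i q * ve V g i ^ n) =
      t' (ve V g q.1 ^ a * el U V g i q * ve V g i ^ n) :=
    fun q a ha n hn => htt _ (Finset.mem_union_left _ (Finset.mem_union_right _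
      (Finset.mem_image.2 ⟨(i, q, ⟨a, by omega⟩, ⟨n, by omega⟩), Finset.mem_univ _, rfl⟩)))
  have a4 : ∀ a ≤ N, ∀ n ≤ 2 * N, t (ve V g i ^ a * g (Sum.inr i) * ve V g i ^ n) =
      t' (ve V g i ^ a * g (Sum.inr i) * ve V g i ^ n) :=
    fun a ha n hn => htt _ (Finset.mem_union_right _
      (Finset.mem_image.2 ⟨(i, ⟨a, by omega⟩, ⟨n, by omega⟩), Finset.mem_univ _, rfl⟩))
  have hsw : ∀ n ≤ 2 * N, (sw U V g N L i (sf (ve V g i ^ n) t) ↔ sw U V g N L i (sf (ve V g i ^ n) t')) := by
    intro n hn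
    have b1 : ∀ a ≤ N, sf (ve V g i ^ n) t (ve V g i ^ a) = sf (ve V g i ^ n) t' (ve V g i ^ a) := by
      intro a ha
      show t (ve V g i ^ a * ve V g i ^ n) = t' (ve V g i ^ a * ve V g i ^ n)
      rw [← pow_add]
      exact a1 _ (by omega)
    have b2 : ∀ b ≤ L, sf (ve V g i ^ n) t (ve V g i ^ b)⁻¹ = sf (ve V g i ^ n) t' (ve V g i ^ b)⁻¹ :=
      fun b hb => a2 b hb n hn
    have b3 : ∀ q : Ps (rh U V), ∀ a ≤ N, sf (ve V g i ^ n) t (ve V g q.1 ^ a * el U V g i q) =
        sf (ve V g i ^ n) t' (ve V g q.1 ^ a * el U V g i q) := fun q a ha => a3 q a ha n hn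
    have b4 : ∀ a ≤ N, sf (ve V g i ^ n) t (ve V g i ^ a * g (Sum.inr i)) =
        sf (ve V g i ^ n) t' (ve V g i ^ a * g (Sum.inr i)) := fun a ha => a4 a ha n hn
    unfold sw
    refine and_congr ?_ (and_congr ?_ (and_congr ?_ ?_))
    · exact forall_congr' fun a => forall_congr' fun ha => by rw [b1 a ha]
    · exact forall_congr' fun b => forall_congr' fun hb => by rw [b2 b hb]
    · exact forall_congr' fun q => forall_congr' fun _ => exists_congr fun a =>
        and_congr_right fun ha => by rw [b3 q a ha]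
    · exact exists_congr fun a => and_congr_right fun ha => by rw [b4 a ha]
  have hst : ∀ n ≤ 2 * N, (stp U V g N L i (sf (ve V g i ^ n) t) ↔ stp U V g N L i (sf (ve V g i ^ n) t')) := by
    intro n hn
    unfold stp
    refine or_congr ?_ (hsw n hn)
    show t (1 * ve V g i ^ n) i = true ↔ t' (1 * ve V g i ^ n) i = true
    rw [one_mul, a1 n (by omega)]
  have hfs := ShpA_fs_congr (2 * N) _ _ hst
  rcases hf : fs (2 * N) (fun n => stp U V g N L i (sf (ve V g i ^ n) t')) with _ | n
  · rw [ShpA_none g N L i t' hf, ShpA_none g N L i t (hfs.trans hf)]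
  · rw [ShpA_some g N L i t' n hf, ShpA_some g N L i t n (hfs.trans hf)]
    have hn : (n : ℕ) ≤ 2 * N := Nat.lt_succ_iff.1 n.2
    have e1 : ∀ q : {q : Ps (rh U V) // Al (sp U V i) q},
        fs N (fun a => t (ve V g q.1.1 ^ a * el U V g i q.1 * ve V g i ^ (n : ℕ)) q.1.1 = true) =
        fs N (fun a => t' (ve V g q.1.1 ^ a * el U V g i q.1 * ve V g i ^ (n : ℕ)) q.1.1 = true) := by
      intro q
      refine ShpA_fs_congr N _ _ fun a ha => ?_
      rw [a3 q.1 a ha n hn]
    by_cases hs : sw U V g N L i (sf (ve V g i ^ (n : ℕ)) t')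
    · rw [if_pos hs, if_pos ((hsw n hn).2 hs)]
      simp only [e1]
    · rw [if_neg hs, if_neg fun h => hs ((hsw n hn).1 h)]

theorem hx_none {N : ℕ} (x : Sx U V N) (h : dX U V x = none) : hX U V x = 0 := by
  by_cases h0 : (x.2.1 : ℕ) = 0
  · rcases h1 : x.2.2 with _ | f
    · unfold hX
      rw [h0, h1]
      rfl
    · rw [ShpA_dxs x h0 (by rw [h1]; rfl)] at h
      exact absurd h (by simp)
  · rw [ShpA_dxp x h0] at h
    exact absurd h (by simp)

theorem hx_some {N : ℕ} (x : Sx U V N) (c : Ps (rh U V)) (h : dX U V x = some c) :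
    hX U V x = 1 + (Finset.univ.filter fun q => Al c q).sup fun q => hX U V (pX U V x q) := by
  by_cases h0 : (x.2.1 : ℕ) = 0
  · rcases h1 : x.2.2 with _ | f
    · rw [ShpA_dxn x h0 h1] at h
      exact absurd h (by simp)
    · rw [ShpA_dxs x h0 (by rw [h1]; rfl), Option.some_inj] at h
      subst h
      have e1 : hX U V x = 1 + Finset.univ.sup fun q => (f q : ℕ) := by
        unfold hX
        rw [h0, h1, zero_add]
      have e2 : ∀ q (hq : Al (sp U V x.1) q), hX U V (pX U V x q) = (f ⟨q, hq⟩ : ℕ) := by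
        intro q hq
        have e3 : pX U V x q = ⟨q.1, ⟨(f ⟨q, hq⟩ : ℕ), by have := (f ⟨q, hq⟩).2; omega⟩, none⟩ := by
          unfold pX
          rw [dif_neg (by rw [h0]; simp)]
          simp only [h1]
          rw [dif_pos hq]
        rw [e3]
        unfold hX
        simp
      rw [e1]
      congr 1
      apply le_antisymm
      · refine Finset.sup_le fun q _ => ?_
        rw [← e2 q.1 q.2]
        exact Finset.le_sup (f := fun q => hX U V (pX U V x q))
          (Finset.mem_filter.2 ⟨Finset.mem_univ _, q.2⟩)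
      · refine Finset.sup_le fun q hq => ?_
        have hq' := (Finset.mem_filter.1 hq).2
        rw [e2 q hq']
        exact Finset.le_sup (f := fun q => (f q : ℕ)) (Finset.mem_univ _)
  · rw [ShpA_dxp x h0, Option.some_inj] at h
    subst h
    have e1 : (Finset.univ.filter fun q => Al (ln U V x.1) q) = {lo U V x.1} := by
      ext q
      rw [Finset.mem_filter, Finset.mem_singleton]
      exact ⟨fun h => (al_ln _ q).1 h.2, fun h => ⟨Finset.mem_univ _, (al_ln _ q).2 h⟩⟩
    rw [e1, Finset.sup_singleton]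
    have e2 : pX U V x (lo U V x.1) = ⟨x.1, ⟨(x.2.1 : ℕ) - 1, by have := x.2.1.2; omega⟩, x.2.2⟩ := by
      unfold pX
      rw [dif_pos h0]
    rw [e2]
    have := Nat.pos_of_ne_zero h0
    unfold hX
    rcases h1 : x.2.2 with _ | f
    · simp only
      omega
    · simp only
      omega

theorem hx_le {N : ℕ} (x : Sx U V N) : hX U V x ≤ 3 * N + 1 := by
  have h1 : (x.2.1 : ℕ) ≤ 2 * N := Nat.lt_succ_iff.1 x.2.1.2
  unfold hX
  rcases h : x.2.2 with _ | f
  · simp only
    omega
  · simp only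
    have h2 : (Finset.univ.sup fun q => (f q : ℕ)) ≤ N :=
      Finset.sup_le fun q _ => Nat.lt_succ_iff.1 (f q).2
    omega

end H33.HN
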