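import Pool.Agent.H33.HN.NoC
import Pool.Agent.H33.HN.ForG
import Pool.Agent.H33.HN.ShpA

/-! # HN.ForH : the forest condition of Part I for the T-structure

PROOF. `L0` from `noc`. `for_gen` for `td := tdx U V g N L t`; `(tdx ..).1 = i`. For `e ∈ Ed` and `p` with `lp p = e.1`: if `td p.1 ((gw (sc p))⁻¹ * e.2) = p` then `TH dX .. e.1 (ws e.1 (wG g σ (sf e.2 t)))` holds with the witness `⟨p, _⟩`: the shape is `x := sgm (sc p).1 (sf (gw (sc p))⁻¹ (sf e.2 t)) = sgm p.1 (sf ((gw (sc p))⁻¹ * e.2) t)` (`(sc p).1 = p.1`; cases on `sg p`; `sf h (sf k t) = sf (h * k) t`), `tS x = x.1 = p.1` (`sg_fst`) and `(dX x).getD (ln p.1) = tdx .. p.1 1` for the configuration `sf (..) t` (`sg_hat`), which is `tdx U V g N L t p.1 ((gw (sc p))⁻¹ * e.2) = p`. -/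

set_option autoImplicit false
set_option synthInstance.maxSize 4000

open MeasureTheory H31.BE

namespace H33.HN

variable {k m : ℕ} {U V : Fin m → Wl k} {G : Type} [Group G] (g : Lh k m → G) (hg : Pres (rh U V) g) (hy : Hyp U V)

include hg hy in
theorem forH [DecidableEq G] : ∃ L0 : ℕ, ∀ L, L0 ≤ L → ∀ (N : ℕ) (t : G → Fin m → Bool)
    (Ed : Finset (Lh k m × G)), (∀ e ∈ Ed, ¬ TH (dX U V) (fun x : Sx U V N => x.1) (ln U V) e.1
      (ws e.1 (wG g (sgm U V g N L) (sf e.2 t)))) → Bd0 g Ed → Ed = ∅ := by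
  obtain ⟨L0, hL0⟩ := noc g hg hy
  refine ⟨L0, fun L hL N t Ed hEd hB => ?_⟩
  have h0 : ∀ (i : Fin m) (z : G), (tdx U V g N L t i z).1 = i := by
    intro i z
    unfold tdx
    split_ifs <;> rfl
  refine for_gen g hg (tdx U V g N L t) h0 (hL0 L hL N t) Ed ?_ hB
  intro e he p hp hcon
  apply hEd e he
  refine ⟨⟨p, hp⟩, ?_⟩
  have hs : (sc p).1 = p.1 := by
    unfold sc
    split_ifs <;> rfl
  show (dX U V (sgm U V g N L (sc p).1 (sf (FreeGroup.lift g (cw (sc p)))⁻¹ (sf e.2 t)))).getD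
    (ln U V (sgm U V g N L (sc p).1 (sf (FreeGroup.lift g (cw (sc p)))⁻¹ (sf e.2 t))).1) = p
  rw [sg_fst, sg_hat, hs]
  have e1 : sf (FreeGroup.lift g (cw (sc p)))⁻¹ (sf e.2 t) = sf ((FreeGroup.lift g (cw (sc p)))⁻¹ * e.2) t := by
    funext z
    show t (z * (FreeGroup.lift g (cw (sc p)))⁻¹ * e.2) = t (z * ((FreeGroup.lift g (cw (sc p)))⁻¹ * e.2))
    rw [mul_assoc]
  have e2 : tdx U V g N L (sf (FreeGroup.lift g (cw (sc p)))⁻¹ (sf e.2 t)) p.1 1 =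
      tdx U V g N L t p.1 ((FreeGroup.lift g (cw (sc p)))⁻¹ * e.2) := by
    have e3 : sf (1 : G) (sf (FreeGroup.lift g (cw (sc p)))⁻¹ (sf e.2 t)) =
        sf ((FreeGroup.lift g (cw (sc p)))⁻¹ * e.2) t := by
      rw [e1]
      funext z
      show t (z * 1 * ((FreeGroup.lift g (cw (sc p)))⁻¹ * e.2)) = t (z * ((FreeGroup.lift g (cw (sc p)))⁻¹ * e.2))
      rw [mul_one]
    unfold tdx
    rw [e3]
  rw [e2]
  exact hcon

end H33.HN
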