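import Pool.Agent.H33.HN.DefsF
import Pool.Agent.H33.HN.WrdA

/-! # HN.FoxA : cycles mod 2 are sums of boundaries of cells

PROOF. `C := (S × G) →₀ ZMod 2`. Let `Θ : FreeGroup S →* Equiv.Perm (G × C)`, `Θ (of s) (x, c) = (g s * x, c + single (s, x) 1)` (inverse: `(y, c) ↦ ((g s)⁻¹ * y, c - single (s, (g s)⁻¹ * y) 1)`), `c f x := (Θ f (x, 0)).2`. (1) `Θ f (x, c0) = (lift g f * x, c0 + c f x)` and `c (f * f') x = c f' x + c f (lift g f' * x)`, `c f⁻¹ (lift g f * x) = - c f x` (`FreeGroup.induction_on`). (2) `c (pv (r i)) x = ∑ p ∈ positions of i, single (lp p, lift g (cw (sc p)) * x) 1` in `ZMod 2` (signs do not matter): induction over the prefixes `(r i).take j`: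
a positive letter at `p` adds `single (s, lift g (cw p) * x)`, `sc p = p`; a negative letter subtracts `single (s, (g s)⁻¹ * lift g (cw p) * x)`, and this is `lift g (cw (sc p)) * x`, `sc p = nx p` (`cw (nx p) = val * cw p`, for the last position use `lift g (pv (r i)) = 1`, as in `ac_nx` / `gw_edge`). (3) Let `B` be the set of the `∑_(z ∈ Z) c (pv (r z.1)) z.2`, `Z : Finset (I × G)`: a subgroup of `C` (closed under addition: symmetric difference of the `Z`, characteristic 2).
The set of the `f` with `lift g f = 1` and `c f x ∈ B` for all `x` is a normal subgroup of `FreeGroup S` (for `h f h⁻¹`: `c (h f h⁻¹) x = c h⁻¹ x + c f (..) + c h (..)`, and the first and the last term cancel in characteristic 2 since `lift g f = 1`) that contains the relators, so it contains `ker (lift g)` (`hg.ker`). (4) Choose `w x : FreeGroup S` with `lift g (w x) = x` (`hg.surj`). For an edge `e = (s, x)` the element `(w (g s * x))⁻¹ * of s * w x` is in the kernel, so `c (w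 x) 1 + single (s, x) 1 + c (w (g s * x)) 1 ∈ B`.
Sum over `e ∈ Ed`: `∑_(e ∈ Ed) single e 1 ∈ B + ∑_x deg x • c (w x) 1 = B` since all `deg x` are even (`Bd0`). So there is `Z` with `∑_(e ∈ Ed) single e 1 = ∑_(z ∈ Z) ∑_p single (..) 1`; compare the coefficients at `e` in `ZMod 2`. -/

set_option autoImplicit false
set_option synthInstance.maxSize 4000

open MeasureTheory H31.BE

namespace H33.HN

section FoxA

variable {S G : Type} [Group G] [DecidableEq G] [DecidableEq S]

/-- the action of a letter on points and chains mod 2 -/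
private def FoxA_th (g : S → G) (s : S) : Equiv.Perm (G × (S × G → ZMod 2)) where
  toFun z := (g s * z.1, z.2 + Pi.single (s, z.1) 1)
  invFun z := ((g s)⁻¹ * z.1, z.2 - Pi.single (s, (g s)⁻¹ * z.1) 1)
  left_inv z := by
    obtain ⟨x, c⟩ := z
    simp
  right_inv z := by
    obtain ⟨x, c⟩ := z
    simp

/-- the chain of a path -/
private def FoxA_c (g : S → G) (f : FreeGroup S) (x : G) : S × G → ZMod 2 :=
  (FreeGroup.lift (FoxA_th g) f (x, 0)).2

private lemma FoxA_main (g : S → G) (f : FreeGroup S) : ∀ (x : G) (c : S × G → ZMod 2),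
    FreeGroup.lift (FoxA_th g) f (x, c) = (FreeGroup.lift g f * x, c + FoxA_c g f x) := by
  induction f using FreeGroup.induction_on with
  | C1 => intro x c; simp [FoxA_c]
  | of s => intro x c; simp [FoxA_c, FoxA_th]
  | inv_of s _ =>
    intro x c
    have h1 : ∀ (y : G) (d : S × G → ZMod 2), FreeGroup.lift (FoxA_th g) (FreeGroup.of s)⁻¹ (y, d) =
        ((g s)⁻¹ * y, d - Pi.single (s, (g s)⁻¹ * y) 1) := by
      intro y d
      rw [map_inv, FreeGroup.lift_apply_of]
      rfl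
    unfold FoxA_c
    rw [h1, h1, map_inv, FreeGroup.lift_apply_of]
    simp [sub_eq_add_neg]
  | mul f f' hf hf' =>
    intro x c
    have h1 : ∀ z, FreeGroup.lift (FoxA_th g) (f * f') z =
        FreeGroup.lift (FoxA_th g) f (FreeGroup.lift (FoxA_th g) f' z) := by
      intro z
      rw [map_mul]
      rfl
    unfold FoxA_c
    rw [h1, h1, hf', hf, hf', hf, map_mul]
    simp only [mul_assoc, zero_add, add_assoc]

private lemma FoxA_one (g : S → G) (x : G) : FoxA_c g 1 x = 0 := by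
  simp [FoxA_c]

private lemma FoxA_of (g : S → G) (s : S) (x : G) : FoxA_c g (FreeGroup.of s) x = Pi.single (s, x) 1 := by
  simp [FoxA_c, FoxA_th]

private lemma FoxA_mul (g : S → G) (f f' : FreeGroup S) (x : G) :
    FoxA_c g (f * f') x = FoxA_c g f' x + FoxA_c g f (FreeGroup.lift g f' * x) := by
  have h1 := FoxA_main g (f * f') x 0
  have h2 : FreeGroup.lift (FoxA_th g) (f * f') (x, 0) =
      FreeGroup.lift (FoxA_th g) f (FreeGroup.lift (FoxA_th g) f' (x, 0)) := by
    rw [map_mul]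
    rfl
  rw [h2, FoxA_main g f' x 0, FoxA_main g f] at h1
  have h3 := congrArg Prod.snd h1
  simp only [zero_add] at h3
  exact h3.symm

private lemma FoxA_inv (g : S → G) (f : FreeGroup S) (x : G) :
    FoxA_c g f⁻¹ (FreeGroup.lift g f * x) = - FoxA_c g f x := by
  have h1 := FoxA_mul g f⁻¹ f x
  rw [inv_mul_cancel, FoxA_one] at h1
  exact (neg_eq_of_add_eq_zero_right h1.symm).symm

private lemma FoxA_neg (c : S × G → ZMod 2) : - c = c := by
  funext e
  have h : ∀ a : ZMod 2, - a = a := by decide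
  exact h _

end FoxA

section FoxA2

variable {S I G : Type} [Fintype I] [DecidableEq S] [DecidableEq I] {r : Rl S I} [Group G] [DecidableEq G]

private lemma FoxA_letter (g : S → G) (hg : Pres r g) (p : Ps r) (x : G) :
    FoxA_c g (val (lp p, sg p)) (FreeGroup.lift g (cw p) * x) =
      Pi.single (lp p, FreeGroup.lift g (cw (sc p)) * x) 1 := by
  have h1 := gw_edge g hg p
  by_cases hs : sg p = true
  · have h2 : val (lp p, sg p) = FreeGroup.of (lp p) := by simp [val, hs]
    have h3 : sc p = p := by unfold sc; rw [if_pos hs]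
    rw [h2, h3, FoxA_of]
  · have h2 : val (lp p, sg p) = (FreeGroup.of (lp p))⁻¹ := by simp [val, hs]
    have h3 : tc p = p := by unfold tc; rw [if_neg hs]
    rw [h3] at h1
    have h4 := FoxA_inv g (FreeGroup.of (lp p)) (FreeGroup.lift g (cw (sc p)) * x)
    rw [FreeGroup.lift_apply_of, FoxA_of, FoxA_neg] at h4
    rw [h2, h1, mul_assoc]
    exact h4

private lemma FoxA_take (g : S → G) (hg : Pres r g) (i : I) (x : G) : ∀ j : ℕ, ∀ hj : j ≤ (r i).length,
    FoxA_c g (pv ((r i).take j)) x = ∑ k : Fin j,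
      Pi.single (lp (r := r) ⟨i, ⟨k.1, lt_of_lt_of_le k.2 hj⟩⟩,
        FreeGroup.lift g (cw (sc (r := r) ⟨i, ⟨k.1, lt_of_lt_of_le k.2 hj⟩⟩)) * x) 1 := by
  intro j
  induction j with
  | zero =>
    intro hj
    rw [List.take_zero, pv_nil, FoxA_one]
    simp
  | succ j ih =>
    intro hj
    have hl : (r i).take (j + 1) = (r i).take j ++ [(r i)[j]] := by
      rw [List.take_append_getElem]
    rw [hl, pv_concat, FoxA_mul, ih (by omega), Fin.sum_univ_castSucc]
    congr 1
    exact FoxA_letter g hg ⟨i, ⟨j, hj⟩⟩ x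

private lemma FoxA_rel (g : S → G) (hg : Pres r g) (i : I) (x : G) (e : S × G) :
    FoxA_c g (pv (r i)) x e = ∑ p : Ps r,
      if p.1 = i ∧ lp p = e.1 ∧ FreeGroup.lift g (cw (sc p)) * x = e.2 then 1 else 0 := by
  have h1 := FoxA_take g hg i x (r i).length le_rfl
  rw [List.take_length] at h1
  rw [h1, Finset.sum_apply, Fintype.sum_sigma, Finset.sum_eq_single_of_mem i (Finset.mem_univ i)]
  · refine Finset.sum_congr rfl fun k _ => ?_
    rw [Pi.single_apply]
    by_cases hk : lp (r := r) ⟨i, k⟩ = e.1 ∧ FreeGroup.lift g (cw (sc (r := r) ⟨i, k⟩)) * x = e.2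
    · have h2 : e = (lp (r := r) ⟨i, k⟩, FreeGroup.lift g (cw (sc (r := r) ⟨i, k⟩)) * x) :=
        Prod.ext hk.1.symm hk.2.symm
      rw [if_pos h2, if_pos ⟨rfl, hk⟩]
    · have h2 : ¬ e = (lp (r := r) ⟨i, k⟩, FreeGroup.lift g (cw (sc (r := r) ⟨i, k⟩)) * x) := by
        intro h
        exact hk ⟨(congrArg Prod.fst h).symm, (congrArg Prod.snd h).symm⟩
      rw [if_neg h2, if_neg fun h => hk h.2]
  · intro j _ hj
    refine Finset.sum_eq_zero fun k _ => ?_
    rw [if_neg]
    exact fun h => hj h.1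

/-- sums of boundaries of cells -/
private def FoxA_B (r : Rl S I) (g : S → G) : AddSubgroup (S × G → ZMod 2) where
  carrier := {b | ∃ Z : Finset (I × G), b = ∑ z ∈ Z, FoxA_c g (pv (r z.1)) z.2}
  zero_mem' := ⟨∅, by simp⟩
  add_mem' := by
    rintro a b ⟨A, rfl⟩ ⟨B, rfl⟩
    refine ⟨A \ B ∪ B \ A, ?_⟩
    have hdis : Disjoint (A \ B) (B \ A) := by
      rw [Finset.disjoint_left]
      intro e h1 h2
      exact (Finset.mem_sdiff.1 h2).2 (Finset.mem_sdiff.1 h1).1
    rw [Finset.sum_union hdis]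
    have hA := Finset.sum_inter_add_sum_sdiff A B (fun z : I × G => FoxA_c g (pv (r z.1)) z.2)
    have hB := Finset.sum_inter_add_sum_sdiff B A (fun z : I × G => FoxA_c g (pv (r z.1)) z.2)
    rw [Finset.inter_comm B A] at hB
    rw [← hA, ← hB]
    funext e
    have h2 : ∀ a b c : ZMod 2, a + b + (a + c) = b + c := by decide
    exact h2 _ _ _
  neg_mem' := by
    rintro a ⟨A, rfl⟩
    exact ⟨A, FoxA_neg _⟩

/-- the words without boundary modulo cells -/
private def FoxA_N (r : Rl S I) (g : S → G) : Subgroup (FreeGroup S) where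
  carrier := {f | FreeGroup.lift g f = 1 ∧ ∀ x, FoxA_c g f x ∈ FoxA_B r g}
  one_mem' := ⟨map_one _, fun x => by rw [FoxA_one]; exact AddSubgroup.zero_mem _⟩
  mul_mem' := by
    rintro f f' ⟨h1, h2⟩ ⟨h3, h4⟩
    refine ⟨by rw [map_mul, h1, h3, one_mul], fun x => ?_⟩
    rw [FoxA_mul]
    exact AddSubgroup.add_mem _ (h4 x) (h2 _)
  inv_mem' := by
    rintro f ⟨h1, h2⟩
    refine ⟨by rw [map_inv, h1, inv_one], fun x => ?_⟩
    have h3 := FoxA_inv g f x
    rw [h1, one_mul] at h3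
    rw [h3]
    exact AddSubgroup.neg_mem _ (h2 x)

private lemma FoxA_normal (r : Rl S I) (g : S → G) : (FoxA_N r g).Normal := by
  refine ⟨?_⟩
  rintro f ⟨h1, h2⟩ h
  refine ⟨by rw [map_mul, map_mul, h1, mul_one, map_inv, mul_inv_cancel], fun x => ?_⟩
  obtain ⟨y, rfl⟩ : ∃ y, x = FreeGroup.lift g h * y := ⟨(FreeGroup.lift g h)⁻¹ * x, by simp⟩
  have h3 : FreeGroup.lift g h⁻¹ * (FreeGroup.lift g h * y) = y := by
    rw [map_inv, inv_mul_cancel_left]
  rw [mul_assoc, FoxA_mul, FoxA_mul, FoxA_inv, map_mul, h1, one_mul, h3]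
  have h4 : - FoxA_c g h y + FoxA_c g f y + FoxA_c g h y = FoxA_c g f y := by abel
  rw [h4]
  exact h2 y

private lemma FoxA_ker (g : S → G) (hg : Pres r g) (f : FreeGroup S) (hf : FreeGroup.lift g f = 1) (x : G) :
    FoxA_c g f x ∈ FoxA_B r g := by
  have h1 : f ∈ (FreeGroup.lift g).ker := MonoidHom.mem_ker.2 hf
  rw [hg.ker] at h1
  haveI := FoxA_normal r g
  have h2 : Subgroup.normalClosure (Set.range fun i => pv (r i)) ≤ FoxA_N r g := by
    apply Subgroup.normalClosure_le_normal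
    rintro _ ⟨i, rfl⟩
    refine ⟨lift_rel g hg i, fun y => ⟨{(i, y)}, ?_⟩⟩
    rw [Finset.sum_singleton]
  exact (h2 h1).2 x

private lemma FoxA_even (g : S → G) (Ed : Finset (S × G)) (h : Bd0 g Ed) (u : G → ZMod 2) :
    ∑ e ∈ Ed, (u e.2 + u (g e.1 * e.2)) = 0 := by
  set W : Finset G := (Ed.image fun e => e.2) ∪ Ed.image fun e => g e.1 * e.2 with hW
  have h1 : ∀ e ∈ Ed, e.2 ∈ W := fun e he => Finset.mem_union_left _ (Finset.mem_image_of_mem _ he)
  have h2 : ∀ e ∈ Ed, g e.1 * e.2 ∈ W := fun e he =>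
    Finset.mem_union_right _ (Finset.mem_image_of_mem (fun e : S × G => g e.1 * e.2) he)
  rw [Finset.sum_add_distrib, ← Finset.sum_fiberwise_of_maps_to h1,
    ← Finset.sum_fiberwise_of_maps_to h2, ← Finset.sum_add_distrib]
  refine Finset.sum_eq_zero fun x _ => ?_
  have h3 : ∑ e ∈ Ed with e.2 = x, u e.2 = ((Ed.filter fun e => e.2 = x).card : ZMod 2) * u x := by
    rw [Finset.sum_congr rfl (g := fun _ => u x) (fun e he => by rw [(Finset.mem_filter.1 he).2]),
      Finset.sum_const, nsmul_eq_mul]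
  have h4 : ∑ e ∈ Ed with g e.1 * e.2 = x, u (g e.1 * e.2) =
      ((Ed.filter fun e => g e.1 * e.2 = x).card : ZMod 2) * u x := by
    rw [Finset.sum_congr rfl (g := fun _ => u x) (fun e he => by rw [(Finset.mem_filter.1 he).2]),
      Finset.sum_const, nsmul_eq_mul]
  rw [h3, h4, ← add_mul, ← Nat.cast_add, ZMod.natCast_eq_zero_iff_even.2 (h x), zero_mul]

end FoxA2

theorem fox {S I : Type} [Fintype S] [Fintype I] [DecidableEq S] [DecidableEq I] {r : Rl S I} {G : Type} [Group G]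
    [DecidableEq G] (g : S → G) (hg : Pres r g) (Ed : Finset (S × G)) (h : Bd0 g Ed) :
    ∃ Z : Finset (I × G), ∀ e : S × G, e ∈ Ed ↔ Odd (((Z ×ˢ (Finset.univ : Finset (Ps r))).filter fun x =>
      x.2.1 = x.1.1 ∧ lp x.2 = e.1 ∧ FreeGroup.lift g (cw (sc x.2)) * x.1.2 = e.2).card) := by
  choose w hw using hg.surj
  have h1 : ∀ e : S × G, FoxA_c g (w e.2) 1 + Pi.single e 1 + FoxA_c g (w (g e.1 * e.2)) 1 ∈ FoxA_B r g := by
    intro e
    have hf : FreeGroup.lift g ((w (g e.1 * e.2))⁻¹ * (FreeGroup.of e.1 * w e.2)) = 1 := by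
      rw [map_mul, map_inv, map_mul, hw, hw, FreeGroup.lift_apply_of, inv_mul_cancel]
    have h2 := FoxA_ker g hg _ hf 1
    have h3 : FreeGroup.lift g (FreeGroup.of e.1 * w e.2) * 1 = FreeGroup.lift g (w (g e.1 * e.2)) * 1 := by
      rw [map_mul, hw, hw, FreeGroup.lift_apply_of]
    rw [FoxA_mul, h3, FoxA_inv, FoxA_neg, FoxA_mul, hw, mul_one, FoxA_of] at h2
    exact h2
  have h2 : ∑ e ∈ Ed, (Pi.single e 1 : S × G → ZMod 2) ∈ FoxA_B r g := by
    have h3 := AddSubgroup.sum_mem (FoxA_B r g) (t := Ed) fun e _ => h1 e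
    have h4 : ∑ e ∈ Ed, (FoxA_c g (w e.2) 1 + Pi.single e 1 + FoxA_c g (w (g e.1 * e.2)) 1) =
        ∑ e ∈ Ed, (Pi.single e 1 : S × G → ZMod 2) := by
      funext e0
      rw [Finset.sum_apply, Finset.sum_apply]
      have h5 := FoxA_even g Ed h (fun x => FoxA_c g (w x) 1 e0)
      have h6 : ∑ e ∈ Ed,
          (FoxA_c g (w e.2) 1 + Pi.single e 1 + FoxA_c g (w (g e.1 * e.2)) 1 : S × G → ZMod 2) e0 =
          ∑ e ∈ Ed, (FoxA_c g (w e.2) 1 e0 + FoxA_c g (w (g e.1 * e.2)) 1 e0) +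
            ∑ e ∈ Ed, (Pi.single e 1 : S × G → ZMod 2) e0 := by
        rw [← Finset.sum_add_distrib]
        refine Finset.sum_congr rfl fun e _ => ?_
        simp only [Pi.add_apply]
        ring
      rw [h6, h5, zero_add]
    rw [h4] at h3
    exact h3
  obtain ⟨Z, hZ⟩ := h2
  refine ⟨Z, fun e => ?_⟩
  have h3 := congrFun hZ e
  rw [Finset.sum_apply, Finset.sum_apply] at h3
  have h4 : ∑ e' ∈ Ed, (Pi.single e' 1 : S × G → ZMod 2) e = if e ∈ Ed then 1 else 0 := by
    simp only [Pi.single_apply]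
    rw [Finset.sum_ite_eq]
  have h5 : ∑ z ∈ Z, FoxA_c g (pv (r z.1)) z.2 e =
      (((Z ×ˢ (Finset.univ : Finset (Ps r))).filter fun x =>
        x.2.1 = x.1.1 ∧ lp x.2 = e.1 ∧ FreeGroup.lift g (cw (sc x.2)) * x.1.2 = e.2).card : ZMod 2) := by
    rw [← Finset.sum_boole, Finset.sum_product]
    exact Finset.sum_congr rfl fun z _ => FoxA_rel g hg z.1 z.2 e
  rw [h4, h5] at h3
  rw [← ZMod.natCast_eq_one_iff_odd, ← h3]
  by_cases he : e ∈ Ed
  · simp [he]
  · simp [he]

end H33.HN
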