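import Pool.Agent.H33.HN.HnnB

/-! # HN.FrE : elements that are not proper powers are malnormal

PROOF. `comm_root`: two commuting elements of a free group are powers of one element: the subgroup `closure {f, u}` is free (Nielsen Schreier, `subgroupIsFreeOfIsFree`) and commutative, so it is cyclic (a free group on a set with two different elements is not commutative: `of a * of b ≠ of b * of a`; `IsFreeGroup.Generators` has at most one element, so the group is trivial or generated by one element). Other proofs are welcome. `mal`: let `a ≠ 0`, `f u^a f⁻¹ = u^b`. Norms: `|u^(n a)| = |n a| |u|` and `|u^(n b)| ≤ |u^(n a)| + 2 |f|` and the same reversed (`f u^(n a) f⁻¹ = u^(n b)`), for all `n`, so `|a| = |b|` (`|u| ≥ 1`).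
`b = a`: `f` commutes with `u^a`. Let `w` with `f = w^s`, `u^a = w^t` (`comm_root`), `t ≠ 0`. `u` commutes with `u^a = w^t`; so `w` commutes with ..: better: `u` and `f u f⁻¹` have the same `a`-th power, and roots in free groups are unique (`FreeGroup` is a unique root group: apply `comm_root` to .. ; or use that `f` commutes with `u^a` iff it commutes with `u` for `a ≠ 0`). Unique roots: if `x^a = y^a`, `a ≠ 0`, then `x = y`: norms of cyclically reduced forms, or: `y` commutes with `y^a = x^a`, `x` commutes with `x^a`; centralizers of nontrivial elements in a free group are cyclic (free and with nontrivial center), so `x`, `y` are in the cyclic centralizer `⟨w⟩` of `x^a`, `x = w^i`, `y = w^j`, `i a = j a`.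
So `f` commutes with `u`: `f = w^s`, `u = w^t`, `t = ± 1` by `hp`, so `f` is a power of `u`. `b = -a`: `f^2` commutes with `u^a`, so (as before) `f^2 = u^s` for some `s`; if `s ≠ 0` then `f` commutes with `f^2 = u^s`, hence with `u`, `u^a = u^(-a)`, `u^(2a) = 1`, a contradiction (`fr_ord`). If `s = 0` then `f = 1` (`fr_ord`), the same contradiction. -/

set_option autoImplicit false
set_option synthInstance.maxSize 4000

open MeasureTheory H31.BE

namespace H33.HN

private theorem FrE_gen {X : Type} (a b : X) (h : FreeGroup.of a * FreeGroup.of b = FreeGroup.of b * FreeGroup.of a) : a = b := by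
  classical
  by_contra hab
  have h1 := congrArg (FreeGroup.lift fun x : X => if x = a then (Equiv.swap 0 1 : Equiv.Perm (Fin 3)) else Equiv.swap 1 2) h
  rw [map_mul, map_mul, FreeGroup.lift_apply_of, FreeGroup.lift_apply_of, if_pos rfl, if_neg (Ne.symm hab)] at h1
  revert h1
  decide

private theorem FrE_one {X : Type} (a : X) (ha : ∀ b : X, b = a) (x : FreeGroup X) : ∃ n : ℤ, x = FreeGroup.of a ^ n := by
  refine FreeGroup.induction_on x ?_ ?_ ?_ ?_
  · exact ⟨0, (zpow_zero _).symm⟩
  · intro b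
    exact ⟨1, by rw [ha b, zpow_one]⟩
  · intro b _
    exact ⟨-1, by rw [ha b, zpow_neg, zpow_one]⟩
  · rintro x y ⟨n, rfl⟩ ⟨k, rfl⟩
    exact ⟨n + k, (zpow_add _ _ _).symm⟩

private theorem FrE_emp {X : Type} (ha : X → False) (x : FreeGroup X) : x = 1 := by
  refine FreeGroup.induction_on x rfl ?_ ?_ ?_
  · intro b
    exact (ha b).elim
  · intro b _
    exact (ha b).elim
  · rintro x y rfl rfl
    exact one_mul 1

private theorem FrE_cyc {K : Type} [Group K] [IsFreeGroup K] (hc : ∀ x y : K, x * y = y * x) :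
    ∃ w : K, ∀ x : K, ∃ n : ℤ, x = w ^ n := by
  have e := IsFreeGroup.toFreeGroup K
  have hs : ∀ a b : IsFreeGroup.Generators K, a = b := by
    intro a b
    apply FrE_gen
    have h1 := congrArg e (hc (e.symm (FreeGroup.of a)) (e.symm (FreeGroup.of b)))
    rw [map_mul, map_mul, MulEquiv.apply_symm_apply, MulEquiv.apply_symm_apply] at h1
    exact h1
  by_cases hn : Nonempty (IsFreeGroup.Generators K)
  · obtain ⟨a⟩ := hn
    refine ⟨e.symm (FreeGroup.of a), fun x => ?_⟩
    obtain ⟨n, hn⟩ := FrE_one a (fun b => hs b a) (e x)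
    refine ⟨n, ?_⟩
    rw [← map_zpow, ← hn, MulEquiv.symm_apply_apply]
  · refine ⟨1, fun x => ⟨0, ?_⟩⟩
    have h1 := FrE_emp (fun a => hn ⟨a⟩) (e x)
    rw [zpow_zero]
    exact (MulEquiv.map_eq_one_iff e).1 h1

theorem comm_root {X : Type} (f u : FreeGroup X) (h : f * u = u * f) :
    ∃ (w : FreeGroup X) (a b : ℤ), f = w ^ a ∧ u = w ^ b := by
  have hk : ∀ x ∈ ({f, u} : Set (FreeGroup X)), ∀ y ∈ ({f, u} : Set (FreeGroup X)), x * y = y * x := by
    rintro x (rfl | rfl) y (rfl | rfl)
    · rfl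
    · exact h
    · exact h.symm
    · rfl
  have hc : ∀ x y : Subgroup.closure ({f, u} : Set (FreeGroup X)), x * y = y * x := by
    intro x y
    exact (Subgroup.closureCommGroupOfComm hk).mul_comm x y
  obtain ⟨w, hw⟩ := FrE_cyc hc
  have hf : f ∈ Subgroup.closure ({f, u} : Set (FreeGroup X)) := Subgroup.subset_closure (Or.inl rfl)
  have hu : u ∈ Subgroup.closure ({f, u} : Set (FreeGroup X)) := Subgroup.subset_closure (Or.inr rfl)
  obtain ⟨a, ha⟩ := hw ⟨f, hf⟩
  obtain ⟨b, hb⟩ := hw ⟨u, hu⟩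
  refine ⟨(w : FreeGroup X), a, b, ?_, ?_⟩
  · have h1 := congrArg Subtype.val ha
    rw [Subgroup.coe_zpow] at h1
    exact h1
  · have h1 := congrArg Subtype.val hb
    rw [Subgroup.coe_zpow] at h1
    exact h1

private theorem FrE_comm {X : Type} (f u : FreeGroup X) (a : ℤ) (ha : a ≠ 0) (h : f * u ^ a * f⁻¹ = u ^ a) : f * u = u * f := by
  have h1 : (f * u * f⁻¹) ^ a = u ^ a := by rw [conj_zpow, h]
  have h2 := zpow_left_injective ha h1
  exact mul_inv_eq_iff_eq_mul.1 h2

private theorem FrE_pow {X : Type} (u f : FreeGroup X)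
    (hp : ∀ (w : FreeGroup X) (n : ℤ), u = w ^ n → n = 1 ∨ n = -1) (h : f * u = u * f) : ∃ n : ℤ, f = u ^ n := by
  obtain ⟨w, s, t, h1, h2⟩ := comm_root f u h
  rcases hp w t h2 with rfl | rfl
  · rw [zpow_one] at h2
    exact ⟨s, by rw [h1, h2]⟩
  · refine ⟨-s, ?_⟩
    rw [h1, h2, ← zpow_mul]
    congr 1
    ring

private theorem FrE_norm {X : Type} [DecidableEq X] (u : FreeGroup X) (hu : ∀ n : ℕ, (u ^ n).norm = n * u.norm) (n : ℤ) :
    (u ^ n).norm = n.natAbs * u.norm := by
  obtain ⟨k, rfl | rfl⟩ := n.eq_nat_or_neg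
  · rw [zpow_natCast, hu, Int.natAbs_natCast]
  · rw [zpow_neg, zpow_natCast, FreeGroup.norm_inv_eq, hu, Int.natAbs_neg, Int.natAbs_natCast]

private theorem FrE_le {X : Type} [DecidableEq X] (u f : FreeGroup X) (h1 : u ≠ 1) (hu : ∀ n : ℕ, (u ^ n).norm = n * u.norm) (a b : ℤ)
    (h : f * u ^ a * f⁻¹ = u ^ b) : b.natAbs ≤ a.natAbs := by
  by_contra hlt
  push Not at hlt
  have hpos : 1 ≤ u.norm := by
    by_contra h0
    exact h1 (FreeGroup.norm_eq_zero.1 (by omega))
  set N : ℕ := 2 * f.norm + 1 with hN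
  have h2 : f * u ^ (a * N) * f⁻¹ = u ^ (b * N) := by
    rw [zpow_mul, zpow_mul, ← h, conj_zpow]
  have h3 : (u ^ (b * N)).norm ≤ f.norm + (u ^ (a * N)).norm + f.norm := by
    rw [← h2]
    refine (FreeGroup.norm_mul_le _ _).trans ?_
    rw [FreeGroup.norm_inv_eq]
    exact Nat.add_le_add_right (FreeGroup.norm_mul_le _ _) _
  rw [FrE_norm u hu, FrE_norm u hu, Int.natAbs_mul, Int.natAbs_mul, Int.natAbs_natCast] at h3
  have h4 : (a.natAbs + 1) * N * u.norm ≤ b.natAbs * N * u.norm := Nat.mul_le_mul_right _ (Nat.mul_le_mul_right _ hlt)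
  have h5 : (a.natAbs + 1) * N * u.norm = a.natAbs * N * u.norm + N * u.norm := by ring
  have h6 : N * 1 ≤ N * u.norm := Nat.mul_le_mul_left _ hpos
  omega

theorem mal {X : Type} [DecidableEq X] (u f : FreeGroup X) (h1 : u ≠ 1) (hu : ∀ n : ℕ, (u ^ n).norm = n * u.norm)
    (hp : ∀ (w : FreeGroup X) (n : ℤ), u = w ^ n → n = 1 ∨ n = -1) (a b : ℤ) (h : f * u ^ a * f⁻¹ = u ^ b)
    (ha : a ≠ 0) : ∃ n : ℤ, f = u ^ n := by
  have h2 := FrE_le u f h1 hu a b h
  have h' : f⁻¹ * u ^ b * f⁻¹⁻¹ = u ^ a := by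
    rw [← h]
    group
  have h3 := FrE_le u f⁻¹ h1 hu b a h'
  have h4 : b = a ∨ b = -a := Int.natAbs_eq_natAbs_iff.1 (le_antisymm h2 h3)
  rcases h4 with rfl | rfl
  · exact FrE_pow u f hp (FrE_comm f u b ha h)
  · exfalso
    have hne : f * u ≠ u * f := by
      intro hc
      have h5 : f * u ^ a * f⁻¹ = u ^ a := by
        have h6 : f * u * f⁻¹ = u := by rw [hc, mul_inv_cancel_right]
        rw [← conj_zpow, h6]
      rw [h5] at h
      have h6 : u ^ (a + a) = 1 := by
        rw [zpow_add]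
        nth_rewrite 1 [h]
        rw [zpow_neg, inv_mul_cancel]
      have h7 := fr_ord u h1 _ h6
      omega
    have h5 : (f * f) * u ^ a * (f * f)⁻¹ = u ^ a := by
      have h6 : (f * f) * u ^ a * (f * f)⁻¹ = f * (f * u ^ a * f⁻¹) * f⁻¹ := by group
      rw [h6, h, zpow_neg]
      have h7 : f * (u ^ a)⁻¹ * f⁻¹ = (f * u ^ a * f⁻¹)⁻¹ := by group
      rw [h7, h, zpow_neg, inv_inv]
    obtain ⟨s, hs⟩ := FrE_pow u (f * f) hp (FrE_comm (f * f) u a ha h5)
    by_cases hs0 : s = 0
    · rw [hs0, zpow_zero] at hs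
      have h6 : f ^ (2 : ℤ) = 1 := by
        rw [zpow_ofNat, pow_two, hs]
      by_cases hf : f = 1
      · apply hne
        rw [hf, one_mul, mul_one]
      · have h7 := fr_ord f hf _ h6
        omega
    · apply hne
      apply FrE_comm f u s hs0
      rw [← hs]
      group

end H33.HN
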