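import Pool.Agent.H33.HN.DefsG

/-! # HN.GRs : restriction to a subgroup is measure preserving

PROOF. `bern_unique` for the map of `bern Γ ν` under `rsG ι` (measurable: coordinates): for a finite set `s` of coordinates of `G` the event is `{y | ∀ h ∈ s, y (ι h) ∈ t h}`, a rectangle over the finite set `s.image ι` (`hι`), `bern_pi`: `∏ h ∈ s, ν (t h)` (`Finset.prod_image`; the sets on `s.image ι`: `t' γ := t (a preimage of γ)`). -/

set_option autoImplicit false
set_option synthInstance.maxSize 4000

open MeasureTheory H31.BE

namespace H33.HN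

theorem rs_mp {G Γ : Type} [Group G] [Group Γ] (ι : G →* Γ) (hι : Function.Injective ι) (ν : Measure ℝ)
    [IsProbabilityMeasure ν] : MeasurePreserving (rsG ι) (bern Γ ν) (bern G ν) := by
  classical
  have hm : Measurable (rsG ι) := measurable_pi_iff.2 (fun h => measurable_eval (ι h))
  refine ⟨hm, ?_⟩
  apply bern_unique
  intro s t ht
  rw [Measure.map_apply hm (measurableSet_rect s t (fun i _ => ht i))]
  have hinv : ∀ h : G, Function.invFun ι (ι h) = h := fun h => Function.leftInverse_invFun hι h
  have hset : rsG ι ⁻¹' {y : Bsh G | ∀ i ∈ s, y i ∈ t i} =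
      {y : Bsh Γ | ∀ i ∈ s.image ι, y i ∈ t (Function.invFun ι i)} := by
    ext y
    simp only [Set.mem_preimage, Set.mem_setOf_eq, Finset.mem_image,
      forall_exists_index, and_imp, forall_apply_eq_imp_iff₂, hinv]
    rfl
  rw [hset, bern_pi ν (s.image ι) (fun k => t (Function.invFun ι k)) (fun i _ => ht _),
    Finset.prod_image (fun a _ b _ hab => hι hab)]
  exact Finset.prod_congr rfl fun h _ => by rw [hinv]

end H33.HN
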