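import Pool.Agent.H33.HN.GExt
import Pool.Agent.H33.HN.GRs

/-! # HN.GBd : boundedness of the extended cocycle

PROOF. Let `Γ := Monoid.Coprod G F`, countable. Induction on `a` (`Monoid.Coprod.induction_on'`), first claim: for all `a` there is a finite `F1` with `ϖ y a ∈ F1` for almost every `y`. `a = 1`: `ϖ y 1 = 1` (from `Xc.co`). `a = ι b * a'`: `ϖ y (ι b * a') = ϖ (a' • y) (ι b) * ϖ y a' = ι (π (rsG ι (a' • y)) b) * ϖ y a'`; `π x b ∈ F2` for almost every `x` (law `bern G ν`), and `y ↦ rsG ι (a' • y)` has the law `bern G ν` (`inv_bern`, `rs_mp`, `Monoid.Coprod.inl_injective`). `a = inr f * a'`: `inr f * ϖ y a'`. Second claim: `c δ y := (ϖ y).symm δ` satisfies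
`c (δ * δ') y = c δ (c δ' y • y) * c δ' y` (apply `ϖ y`). `δ = ι b * δ'`: let `c' := c δ' y ∈ F1'` (finite set) almost surely; `c (ι b) (c' • y) = ι ((π (rsG ι (c' • y))).symm b)` (from `Ext.el`), and for each of the finitely many `c'`: `(π (rsG ι (c' • y))).symm b ∈ F2'` for almost every `y`. `δ = inr f * δ'`: `inr f * c'`. -/

set_option autoImplicit false
set_option synthInstance.maxSize 4000

open MeasureTheory H31.BE

namespace H33.HN

private theorem gbd_inv {Γ : Type} [Group Γ] (ν : Measure ℝ) [IsProbabilityMeasure ν] (g : Γ) :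
    MeasurePreserving (fun y : Bsh Γ => g • y) (bern Γ ν) (bern Γ ν) := by
  classical
  exact inv_bern (G := Γ) ν g

private theorem gbd_pull {G F : Type} [Group G] [Group F] (ν : Measure ℝ) [IsProbabilityMeasure ν]
    (c : Monoid.Coprod G F) (P : Bsh G → Prop) (h : ∀ᵐ x ∂(bern G ν), P x) :
    ∀ᵐ y ∂(bern (Monoid.Coprod G F) ν), P (rsG Monoid.Coprod.inl (c • y)) := by
  have h1 : ∀ᵐ y ∂(bern (Monoid.Coprod G F) ν), P (rsG Monoid.Coprod.inl y) :=
    (rs_mp (Monoid.Coprod.inl : G →* Monoid.Coprod G F) Monoid.Coprod.inl_injective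
      ν).quasiMeasurePreserving.ae h
  exact (gbd_inv ν c).quasiMeasurePreserving.ae h1

private theorem gbd_one {G F : Type} [Group G] [Group F] (π : Bsh G → Equiv.Perm G)
    (ϖ : Bsh (Monoid.Coprod G F) → Equiv.Perm (Monoid.Coprod G F)) (hϖ : Ext π ϖ)
    (y : Bsh (Monoid.Coprod G F)) : ϖ y 1 = 1 := by
  have h := hϖ.xc.co y 1 1
  rw [one_smul, mul_one] at h
  exact (mul_eq_left.1 h.symm)

private theorem gbd_symm_mul {G F : Type} [Group G] [Group F] (π : Bsh G → Equiv.Perm G)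
    (ϖ : Bsh (Monoid.Coprod G F) → Equiv.Perm (Monoid.Coprod G F)) (hϖ : Ext π ϖ)
    (y : Bsh (Monoid.Coprod G F)) (d e : Monoid.Coprod G F) :
    (ϖ y).symm (d * e) = (ϖ ((ϖ y).symm e • y)).symm d * (ϖ y).symm e := by
  rw [Equiv.symm_apply_eq, hϖ.xc.co, Equiv.apply_symm_apply, Equiv.apply_symm_apply]

private theorem gbd_symm_inl {G F : Type} [Group G] [Group F] (π : Bsh G → Equiv.Perm G)
    (ϖ : Bsh (Monoid.Coprod G F) → Equiv.Perm (Monoid.Coprod G F)) (hϖ : Ext π ϖ)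
    (y : Bsh (Monoid.Coprod G F)) (b : G) :
    (ϖ y).symm (Monoid.Coprod.inl b) =
      Monoid.Coprod.inl ((π (rsG Monoid.Coprod.inl y)).symm b) := by
  rw [Equiv.symm_apply_eq, hϖ.el, Equiv.apply_symm_apply]

private theorem gbd_symm_inr {G F : Type} [Group G] [Group F] (π : Bsh G → Equiv.Perm G)
    (ϖ : Bsh (Monoid.Coprod G F) → Equiv.Perm (Monoid.Coprod G F)) (hϖ : Ext π ϖ)
    (y : Bsh (Monoid.Coprod G F)) (f : F) :
    (ϖ y).symm (Monoid.Coprod.inr f) = Monoid.Coprod.inr f := by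
  rw [Equiv.symm_apply_eq, hϖ.er]

theorem ext_bd {G F : Type} [Group G] [Group F] [Countable G] [Countable F] (ν : Measure ℝ) [IsProbabilityMeasure ν]
    (π : Bsh G → Equiv.Perm G) (h1 : ∀ a : G, ∃ F : Finset G, ∀ᵐ x ∂(bern G ν), π x a ∈ F)
    (h2 : ∀ a : G, ∃ F : Finset G, ∀ᵐ x ∂(bern G ν), (π x).symm a ∈ F)
    (ϖ : Bsh (Monoid.Coprod G F) → Equiv.Perm (Monoid.Coprod G F)) (hϖ : Ext π ϖ) (a : Monoid.Coprod G F) :
    (∃ F1 : Finset (Monoid.Coprod G F), ∀ᵐ y ∂(bern (Monoid.Coprod G F) ν), ϖ y a ∈ F1) ∧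
    ∃ F1 : Finset (Monoid.Coprod G F), ∀ᵐ y ∂(bern (Monoid.Coprod G F) ν), (ϖ y).symm a ∈ F1 := by
  classical
  constructor
  · induction a using Monoid.Coprod.induction_on' with
    | one =>
      refine ⟨{1}, Filter.Eventually.of_forall fun y => ?_⟩
      rw [gbd_one π ϖ hϖ y]
      exact Finset.mem_singleton_self _
    | inl_mul b x ih =>
      obtain ⟨F1, hF1⟩ := ih
      obtain ⟨F2, hF2⟩ := h1 b
      refine ⟨Finset.image₂ (fun u v => Monoid.Coprod.inl u * v) F2 F1, ?_⟩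
      filter_upwards [hF1, gbd_pull (F := F) ν x (fun z => π z b ∈ F2) hF2] with y hy1 hy2
      rw [hϖ.xc.co, hϖ.el]
      exact Finset.mem_image₂_of_mem hy2 hy1
    | inr_mul f x ih =>
      obtain ⟨F1, hF1⟩ := ih
      refine ⟨F1.image (fun v => Monoid.Coprod.inr f * v), ?_⟩
      filter_upwards [hF1] with y hy1
      rw [hϖ.xc.co, hϖ.er]
      exact Finset.mem_image_of_mem _ hy1
  · induction a using Monoid.Coprod.induction_on' with
    | one =>
      refine ⟨{1}, Filter.Eventually.of_forall fun y => ?_⟩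
      have h : (ϖ y).symm 1 = 1 := by
        rw [Equiv.symm_apply_eq, gbd_one π ϖ hϖ y]
      rw [h]
      exact Finset.mem_singleton_self _
    | inl_mul b x ih =>
      obtain ⟨F1, hF1⟩ := ih
      obtain ⟨F2, hF2⟩ := h2 b
      refine ⟨Finset.image₂ (fun u v => Monoid.Coprod.inl u * v) F2 F1, ?_⟩
      have hall : ∀ᵐ y ∂(bern (Monoid.Coprod G F) ν), ∀ c ∈ F1,
          (π (rsG Monoid.Coprod.inl (c • y))).symm b ∈ F2 :=
        (Filter.eventually_all_finset F1).2 fun c _ =>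
          gbd_pull (F := F) ν c (fun z => (π z).symm b ∈ F2) hF2
      filter_upwards [hF1, hall] with y hy1 hy2
      rw [gbd_symm_mul π ϖ hϖ, gbd_symm_inl π ϖ hϖ]
      exact Finset.mem_image₂_of_mem (hy2 _ hy1) hy1
    | inr_mul f x ih =>
      obtain ⟨F1, hF1⟩ := ih
      refine ⟨F1.image (fun v => Monoid.Coprod.inr f * v), ?_⟩
      filter_upwards [hF1] with y hy1
      rw [gbd_symm_mul π ϖ hϖ, gbd_symm_inr π ϖ hϖ]
      exact Finset.mem_image_of_mem _ hy1

end H33.HN
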