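import Pool.Agent.H33.HN.DefsG
import Pool.Agent.H33.BO.AmpB

/-! # HN.GCoc : exact cocycles

PROOF. `coc_ex` (H33/BO/AmpB) gives `π0` with the properties almost everywhere. `X1 := {x | ∀ a b c : G, π0 (c • x) (b * a) = π0 (a • c • x) b * π0 (c • x) a}`: measurable (countable intersection; `{x | π0 (c • x) a = b}` is measurable), invariant under `G`, conull (`inv_bern`, countability). `π x := π0 x` if `x ∈ X1`, the identity otherwise: for `x ∉ X1` also `a • x ∉ X1` and the identity `1 (b * a) = b * a` holds. The last two properties: `X1` is conull (and all `a • x ∈ X1`). `symm`: for a bounded `π` of `(T, S)` the bound of `(π x).symm`: let `π'` be the cocycle of `(S, T)`: for almost every `x`: `π' (T x) (π x a) = a` for all `a`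
(`S (T (a • x)) = a • x` and `S (π x a • T x) = π' (T x) (π x a) • S (T x) = π' (T x) (π x a) • x`, freeness at `x`), so `(π x).symm b = π' (T x) b`, which is in a finite set almost surely (`h.mT` is measure preserving). -/

set_option autoImplicit false
set_option synthInstance.maxSize 4000

open MeasureTheory H31.BE

namespace H33.HN

private theorem GCoc_smul {G : Type} [Group G] (g : G) :
    Measurable (fun y : Bsh G => g • y) :=
  measurable_pi_iff.2 (fun h => measurable_pi_apply (X := fun _ : G => ℝ) (g⁻¹ * h))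

private theorem GCoc_free {G : Type} [Group G] {z : Bsh G} (hz : ∀ g : G, g ≠ 1 → g • z ≠ z) {f f' : G}
    (h : f • z = f' • z) : f = f' := by
  by_contra hne
  refine hz (f'⁻¹ * f) ?_ ?_
  · intro h1
    exact hne (inv_mul_eq_one.1 h1).symm
  · rw [mul_smul, h, inv_smul_smul]

/-- the points at which all cocycle identities hold -/
private def GCoc_X {G : Type} [Group G] (π0 : Bsh G → Equiv.Perm G) : Set (Bsh G) :=
  {x | ∀ a b c : G, π0 (c • x) (b * a) = π0 (a • c • x) b * π0 (c • x) a}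

private theorem GCoc_X_smul {G : Type} [Group G] (π0 : Bsh G → Equiv.Perm G) {x : Bsh G} (g : G)
    (hx : x ∈ GCoc_X π0) : g • x ∈ GCoc_X π0 := by
  intro a b c
  have h := hx a b (c * g)
  rw [mul_smul] at h
  exact h

private theorem GCoc_X_smul_iff {G : Type} [Group G] (π0 : Bsh G → Equiv.Perm G) (x : Bsh G) (g : G) :
    g • x ∈ GCoc_X π0 ↔ x ∈ GCoc_X π0 := by
  constructor
  · intro h
    have h1 := GCoc_X_smul π0 g⁻¹ h
    rwa [inv_smul_smul] at h1
  · exact GCoc_X_smul π0 g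

private theorem GCoc_X_meas {G : Type} [Group G] [Countable G] (π0 : Bsh G → Equiv.Perm G)
    (h : ∀ a b : G, MeasurableSet {x | π0 x a = b}) : MeasurableSet (GCoc_X π0) := by
  have e : GCoc_X π0 = ⋂ a : G, ⋂ b : G, ⋂ c : G, ⋃ p : G, ⋃ q : G,
      ((fun x : Bsh G => c • x) ⁻¹' {x | π0 x (b * a) = p * q} ∩
        (fun x : Bsh G => (a * c) • x) ⁻¹' {x | π0 x b = p} ∩
        (fun x : Bsh G => c • x) ⁻¹' {x | π0 x a = q}) := by
    ext x
    simp only [Set.mem_iInter, Set.mem_iUnion]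
    constructor
    · intro hx a b c
      refine ⟨π0 ((a * c) • x) b, π0 (c • x) a, ⟨?_, rfl⟩, rfl⟩
      have h1 := hx a b c
      rw [← mul_smul] at h1
      exact h1
    · intro hx a b c
      obtain ⟨p, q, ⟨h1, h2⟩, h3⟩ := hx a b c
      have h1' : π0 (c • x) (b * a) = p * q := h1
      have h2' : π0 ((a * c) • x) b = p := h2
      have h3' : π0 (c • x) a = q := h3
      rw [← mul_smul, h1', h2', h3']
  rw [e]
  refine MeasurableSet.iInter fun a => MeasurableSet.iInter fun b => MeasurableSet.iInter fun c =>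
    MeasurableSet.iUnion fun p => MeasurableSet.iUnion fun q => ?_
  exact (((GCoc_smul c) (h _ _)).inter ((GCoc_smul (a * c)) (h _ _))).inter ((GCoc_smul c) (h _ _))

open Classical in
/-- the corrected cocycle -/
private noncomputable def GCoc_pi {G : Type} [Group G] (π0 : Bsh G → Equiv.Perm G) (x : Bsh G) : Equiv.Perm G :=
  if x ∈ GCoc_X π0 then π0 x else Equiv.refl G

private theorem GCoc_pi_pos {G : Type} [Group G] (π0 : Bsh G → Equiv.Perm G) {x : Bsh G} (hx : x ∈ GCoc_X π0) :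
    GCoc_pi π0 x = π0 x := if_pos hx

private theorem GCoc_pi_neg {G : Type} [Group G] (π0 : Bsh G → Equiv.Perm G) {x : Bsh G} (hx : x ∉ GCoc_X π0) :
    GCoc_pi π0 x = Equiv.refl G := if_neg hx

private theorem GCoc_xc {G : Type} [Group G] [Countable G] (π0 : Bsh G → Equiv.Perm G)
    (h : ∀ a b : G, MeasurableSet {x | π0 x a = b}) : Xc (GCoc_pi π0) := by
  have hX := GCoc_X_meas π0 h
  refine ⟨?_, ?_⟩
  · intro a b
    have e : {y | GCoc_pi π0 y a = b} = (GCoc_X π0 ∩ {y | π0 y a = b}) ∪ ((GCoc_X π0)ᶜ ∩ {_y | a = b}) := by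
      ext y
      simp only [Set.mem_union, Set.mem_inter_iff, Set.mem_compl_iff, Set.mem_ofPred_eq]
      by_cases hy : y ∈ GCoc_X π0
      · rw [GCoc_pi_pos π0 hy]
        tauto
      · rw [GCoc_pi_neg π0 hy]
        show a = b ↔ _
        tauto
    rw [e]
    exact (hX.inter (h a b)).union (hX.compl.inter (MeasurableSet.const _))
  · intro y a b
    by_cases hy : y ∈ GCoc_X π0
    · rw [GCoc_pi_pos π0 hy, GCoc_pi_pos π0 (GCoc_X_smul π0 a hy)]
      have h1 := hy a b 1
      rw [one_smul] at h1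
      exact h1
    · have hy' : a • y ∉ GCoc_X π0 := fun h => hy ((GCoc_X_smul_iff π0 y a).1 h)
      rw [GCoc_pi_neg π0 hy, GCoc_pi_neg π0 hy']
      rfl

theorem coc_all {G : Type} [Group G] [DecidableEq G] [Countable G] [Infinite G] (μ ν : Measure ℝ)
    [IsProbabilityMeasure μ] [IsProbabilityMeasure ν] (hμ : Nontriv μ) (hν : Nontriv ν)
    (T S : Bsh G → Bsh G) (h : OE G μ ν T S) :
    ∃ π : Bsh G → Equiv.Perm G, Xc π ∧ (∀ᵐ x ∂(bern G μ), ∀ a : G, T (a • x) = π x a • T x) ∧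
      (∀ a : G, ∃ F : Finset G, ∀ᵐ x ∂(bern G μ), π x a ∈ F) ∧
      (∀ a : G, ∃ F : Finset G, ∀ᵐ x ∂(bern G μ), (π x).symm a ∈ F) := by
  obtain ⟨π0, hme, _, hT, hco, hbd⟩ := H33.BO.coc_ex μ ν hμ hν T S h
  have pull : ∀ {p : Bsh G → Prop}, (∀ᵐ x ∂(bern G ν), p x) → ∀ᵐ y ∂(bern G μ), p (T y) :=
    fun hp => h.mT.quasiMeasurePreserving.ae hp
  have trans : ∀ {p : Bsh G → Prop}, (∀ᵐ y ∂(bern G μ), p y) →
      ∀ᵐ y ∂(bern G μ), ∀ g : G, p (g • y) :=
    fun hp => ae_all_iff.2 fun g => (inv_bern μ g).quasiMeasurePreserving.ae hp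
  have trans' : ∀ {p : Bsh G → Prop}, (∀ᵐ y ∂(bern G ν), p y) →
      ∀ᵐ y ∂(bern G ν), ∀ g : G, p (g • y) :=
    fun hp => ae_all_iff.2 fun g => (inv_bern ν g).quasiMeasurePreserving.ae hp
  have hX : ∀ᵐ x ∂(bern G μ), x ∈ GCoc_X π0 := by
    filter_upwards [trans hco] with x hx
    intro a b c
    exact hx c a b
  have hTπ : ∀ᵐ x ∂(bern G μ), ∀ a : G, T (a • x) = GCoc_pi π0 x a • T x := by
    filter_upwards [hX, hT] with x hx h1
    intro a
    rw [GCoc_pi_pos π0 hx]
    exact h1 a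
  refine ⟨GCoc_pi π0, GCoc_xc π0 hme, hTπ, ?_, ?_⟩
  · intro a
    obtain ⟨F, hF⟩ := hbd a
    refine ⟨F, ?_⟩
    filter_upwards [hX, hF] with x hx h1
    rw [GCoc_pi_pos π0 hx]
    exact h1
  · intro a
    obtain ⟨F, hF⟩ := h.bS a
    refine ⟨F, ?_⟩
    have a4 : ∀ᵐ x ∂(bern G μ), ∀ f : G, T (S (f • T x)) = f • T x :=
      pull (p := fun y => ∀ f : G, T (S (f • y)) = f • y) (trans' h.TS)
    have a6 : ∀ᵐ x ∂(bern G μ), ∀ g : G, g ≠ 1 → g • T x ≠ T x := by
      apply pull (p := fun y => ∀ g : G, g ≠ 1 → g • y ≠ y)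
      exact ae_all_iff.2 fun g => by
        by_cases hg : g = 1
        · exact Filter.Eventually.of_forall fun y hne => absurd hg hne
        · filter_upwards [free_bern ν hν g hg] with y hy _
          exact hy
    have a7 : ∀ᵐ x ∂(bern G μ), ∃ f ∈ F, S (a • T x) = f • S (T x) :=
      pull (p := fun y => ∃ f ∈ F, S (a • y) = f • S y) hF
    filter_upwards [hTπ, h.ST, a4, a6, a7] with x h1 h2 h3 h4 h5
    obtain ⟨f, hf, h6⟩ := h5
    rw [h2] at h6
    have h7 : GCoc_pi π0 x f • T x = a • T x := by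
      rw [← h1 f, ← h6, h3 a]
    have h8 : GCoc_pi π0 x f = a := GCoc_free h4 h7
    rw [← h8, Equiv.symm_apply_apply]
    exact hf

end H33.HN
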