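import Pool.Agent.H33.HN.DefsG

/-! # HN.GExt : extension of a cocycle to a free product

PROOF. `Γ := Monoid.Coprod G F`, `ι := inl`. `rs_smul`: `rsG ι (ι a • y) h = y (ι a⁻¹ * ι h) = (a • rsG ι y) h`. Define `Θ : Γ →* Equiv.Perm (Bsh Γ × Γ)` by `Monoid.Coprod.lift`: `a : G` acts by `(y, γ) ↦ (ι a • y, ι (π (rsG ι y) a) * γ)` (a homomorphism by `Xc.co` and `rs_smul`; the inverse is the action of `a⁻¹`), `f : F` by `(y, γ) ↦ (inr f • y, inr f * γ)`. `Π γ y := (Θ γ (y, 1)).2`. By induction (`Monoid.Coprod.induction_on'`): `Θ γ (y, δ) = (γ • y, Π γ y * δ)`, so `Π (γ γ') y = Π γ (γ' • y) * Π γ' y`.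
In the same way `Ξ : Γ →* Equiv.Perm (Bsh Γ × Γ)`: `b : G` acts by `(y, γ) ↦ (ι a • y, ι a * γ)` with `a := (π (rsG ι y)).symm b` (an action: with `x = rsG ι y`, `a' := (π (a • x)).symm b'`: `π x (a' * a) = π (a • x) a' * π x a = b' * b`), `f : F` as before. `c δ y := (Ξ δ (y, 1)).2`, `Ξ δ (y, γ) = (c δ y • y, c δ y * γ)`, `c (δ δ') y = c δ (c δ' y • y) * c δ' y`. Then `Π (c δ y) y = δ` and `c (Π γ y) y = γ` by induction: for `δ = ι b * δ'`, `y1 := c δ' y • y`: `Π (c (ι b) y1 * c δ' y) y = Π (c (ι b) y1) y1 * Π (c δ' y) y = ι b * δ'` since `c (ι b) y1 = ι a`, `Π (ι a) y1 = ι (π (rsG ι y1) a) = ι b`.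
So `ϖ y := ⟨fun γ => Π γ y, fun δ => c δ y, ..⟩`. Measurability of `{y | Π γ y = δ}` for all `δ` by induction on `γ`: `{Π (ι a * γ') y = δ} = ⋃_(b : G) {π (rsG ι (γ' • y)) a = b} ∩ {Π γ' y = (ι b)⁻¹ δ}` (countable; `y ↦ rsG ι (γ' • y)` is measurable). `F` countable is not needed here (only one `inr f` at a time). -/

set_option autoImplicit false
set_option synthInstance.maxSize 4000

open MeasureTheory H31.BE

namespace H33.HN

theorem rs_smul {G Γ : Type} [Group G] [Group Γ] (ι : G →* Γ) (a : G) (y : Bsh Γ) :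
    rsG ι (ι a • y) = a • rsG ι y := by
  funext h
  simp only [rsG, Bsh.smul_apply, map_mul, map_inv]

private theorem gExt_one {G : Type} [Group G] {π : Bsh G → Equiv.Perm G} (hπ : Xc π) (x : Bsh G) :
    π x 1 = 1 := by
  have h := hπ.co x 1 1
  rw [one_smul, mul_one] at h
  have h2 : π x 1 * 1 = π x 1 * π x 1 := by rw [mul_one]; exact h
  exact (mul_left_cancel h2).symm

private theorem gExt_symm_one {G : Type} [Group G] {π : Bsh G → Equiv.Perm G} (hπ : Xc π) (x : Bsh G) :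
    (π x).symm 1 = 1 := by
  rw [Equiv.symm_apply_eq]
  exact (gExt_one hπ x).symm

private theorem gExt_symm_mul {G : Type} [Group G] {π : Bsh G → Equiv.Perm G} (hπ : Xc π) (x : Bsh G)
    (b' b : G) :
    (π x).symm (b' * b) = (π ((π x).symm b • x)).symm b' * (π x).symm b := by
  rw [Equiv.symm_apply_eq, hπ.co, Equiv.apply_symm_apply, Equiv.apply_symm_apply]

/-- the action of `G` -/
private def gExt_TG {G Γ : Type} [Group G] [Group Γ] (ι : G →* Γ) (π : Bsh G → Equiv.Perm G) (hπ : Xc π) :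
    G →* Function.End (Bsh Γ × Γ) where
  toFun a := fun p => (ι a • p.1, ι (π (rsG ι p.1) a) * p.2)
  map_one' := by
    funext p
    simp only [map_one, one_smul, gExt_one hπ, one_mul]
    rfl
  map_mul' := by
    intro b a
    funext p
    show (ι (b * a) • p.1, ι (π (rsG ι p.1) (b * a)) * p.2) =
      (ι b • (ι a • p.1), ι (π (rsG ι (ι a • p.1)) b) * (ι (π (rsG ι p.1) a) * p.2))
    rw [map_mul, mul_smul, hπ.co, map_mul, mul_assoc, rs_smul]

/-- the inverse action of `G` -/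
private def gExt_XG {G Γ : Type} [Group G] [Group Γ] (ι : G →* Γ) (π : Bsh G → Equiv.Perm G) (hπ : Xc π) :
    G →* Function.End (Bsh Γ × Γ) where
  toFun b := fun p => (ι ((π (rsG ι p.1)).symm b) • p.1, ι ((π (rsG ι p.1)).symm b) * p.2)
  map_one' := by
    funext p
    simp only [gExt_symm_one hπ, map_one, one_smul, one_mul]
    rfl
  map_mul' := by
    intro b' b
    funext p
    show (ι ((π (rsG ι p.1)).symm (b' * b)) • p.1, ι ((π (rsG ι p.1)).symm (b' * b)) * p.2) =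
      (ι ((π (rsG ι (ι ((π (rsG ι p.1)).symm b) • p.1))).symm b') • (ι ((π (rsG ι p.1)).symm b) • p.1),
       ι ((π (rsG ι (ι ((π (rsG ι p.1)).symm b) • p.1))).symm b') * (ι ((π (rsG ι p.1)).symm b) * p.2))
    rw [gExt_symm_mul hπ, map_mul, mul_smul, mul_assoc, rs_smul]

/-- the action of `F` -/
private def gExt_F {F Γ : Type} [Group F] [Group Γ] (κ : F →* Γ) :
    F →* Function.End (Bsh Γ × Γ) where
  toFun f := fun p => (κ f • p.1, κ f * p.2)
  map_one' := by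
    funext p
    simp only [map_one, one_smul, one_mul]
    rfl
  map_mul' := by
    intro b a
    funext p
    show (κ (b * a) • p.1, κ (b * a) * p.2) = (κ b • (κ a • p.1), κ b * (κ a * p.2))
    rw [map_mul, mul_smul, mul_assoc]

private theorem gExt_rs_me {G Γ : Type} [Group G] [Group Γ] (ι : G →* Γ) (γ : Γ) :
    Measurable (fun y : Bsh Γ => rsG ι (γ • y)) := by
  refine measurable_pi_iff.mpr fun h => ?_
  exact measurable_pi_apply (γ⁻¹ * ι h)

theorem ext_ex {G F : Type} [Group G] [Group F] [Countable G] (π : Bsh G → Equiv.Perm G) (hπ : Xc π) :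
    ∃ ϖ : Bsh (Monoid.Coprod G F) → Equiv.Perm (Monoid.Coprod G F), Ext (F := F) π ϖ := by
  let Γ := Monoid.Coprod G F
  let ι : G →* Γ := Monoid.Coprod.inl
  let κ : F →* Γ := Monoid.Coprod.inr
  let Θ : Γ →* Function.End (Bsh Γ × Γ) := Monoid.Coprod.lift (gExt_TG ι π hπ) (gExt_F κ)
  let Ξ : Γ →* Function.End (Bsh Γ × Γ) := Monoid.Coprod.lift (gExt_XG ι π hπ) (gExt_F κ)
  have hΘl : ∀ (a : G) (x : Γ) (p : Bsh Γ × Γ), Θ (ι a * x) p =
      (ι a • (Θ x p).1, ι (π (rsG ι (Θ x p).1) a) * (Θ x p).2) := by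
    intro a x p
    rw [map_mul]
    show (Θ (ι a)) (Θ x p) = _
    have : Θ (ι a) = gExt_TG ι π hπ a := Monoid.Coprod.lift_apply_inl _ _ _
    rw [this]
    rfl
  have hΘr : ∀ (f : F) (x : Γ) (p : Bsh Γ × Γ), Θ (κ f * x) p =
      (κ f • (Θ x p).1, κ f * (Θ x p).2) := by
    intro f x p
    rw [map_mul]
    show (Θ (κ f)) (Θ x p) = _
    have : Θ (κ f) = gExt_F κ f := Monoid.Coprod.lift_apply_inr _ _ _
    rw [this]
    rfl
  have hΞl : ∀ (b : G) (x : Γ) (p : Bsh Γ × Γ), Ξ (ι b * x) p =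
      (ι ((π (rsG ι (Ξ x p).1)).symm b) • (Ξ x p).1, ι ((π (rsG ι (Ξ x p).1)).symm b) * (Ξ x p).2) := by
    intro b x p
    rw [map_mul]
    show (Ξ (ι b)) (Ξ x p) = _
    have : Ξ (ι b) = gExt_XG ι π hπ b := Monoid.Coprod.lift_apply_inl _ _ _
    rw [this]
    rfl
  have hΞr : ∀ (f : F) (x : Γ) (p : Bsh Γ × Γ), Ξ (κ f * x) p =
      (κ f • (Ξ x p).1, κ f * (Ξ x p).2) := by
    intro f x p
    rw [map_mul]
    show (Ξ (κ f)) (Ξ x p) = _
    have : Ξ (κ f) = gExt_F κ f := Monoid.Coprod.lift_apply_inr _ _ _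
    rw [this]
    rfl
  have hΘ1 : ∀ p, Θ 1 p = p := by
    intro p
    rw [map_one]
    rfl
  have hΞ1 : ∀ p, Ξ 1 p = p := by
    intro p
    rw [map_one]
    rfl
  have hT1 : ∀ (γ : Γ) (y : Bsh Γ) (δ : Γ), (Θ γ (y, δ)).1 = γ • y := by
    intro γ y δ
    induction γ using Monoid.Coprod.induction_on' with
    | one => rw [hΘ1, one_smul]
    | inl_mul a x ih => rw [hΘl a x, mul_smul]; simp only [ih]; rfl
    | inr_mul f x ih => rw [hΘr f x, mul_smul]; simp only [ih]; rfl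
  have hT2 : ∀ (γ : Γ) (y : Bsh Γ) (δ : Γ), (Θ γ (y, δ)).2 = (Θ γ (y, 1)).2 * δ := by
    intro γ y δ
    induction γ using Monoid.Coprod.induction_on' with
    | one => rw [hΘ1, hΘ1, one_mul]
    | inl_mul a x ih => rw [hΘl a x, hΘl a x]; simp only [ih, hT1, mul_assoc]
    | inr_mul f x ih => rw [hΘr f x, hΘr f x]; simp only [ih, mul_assoc]
  have hX1 : ∀ (γ : Γ) (y : Bsh Γ) (δ : Γ), (Ξ γ (y, δ)).1 = (Ξ γ (y, 1)).1 := by
    intro γ y δ
    induction γ using Monoid.Coprod.induction_on' with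
    | one => rw [hΞ1, hΞ1]
    | inl_mul a x ih => rw [hΞl a x, hΞl a x]; simp only [ih]
    | inr_mul f x ih => rw [hΞr f x, hΞr f x]; simp only [ih]
  have hX2 : ∀ (γ : Γ) (y : Bsh Γ) (δ : Γ), (Ξ γ (y, δ)).2 = (Ξ γ (y, 1)).2 * δ := by
    intro γ y δ
    induction γ using Monoid.Coprod.induction_on' with
    | one => rw [hΞ1, hΞ1, one_mul]
    | inl_mul a x ih => rw [hΞl a x, hΞl a x]; simp only [ih, hX1 x y δ, mul_assoc]
    | inr_mul f x ih => rw [hΞr f x, hΞr f x]; simp only [ih, mul_assoc]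
  have hX3 : ∀ (γ : Γ) (y : Bsh Γ), (Ξ γ (y, 1)).1 = (Ξ γ (y, 1)).2 • y := by
    intro γ y
    induction γ using Monoid.Coprod.induction_on' with
    | one => rw [hΞ1, one_smul]
    | inl_mul a x ih => rw [hΞl a x]; simp only [ih, mul_smul]
    | inr_mul f x ih => rw [hΞr f x]; simp only [ih, mul_smul]
  let P : Γ → Bsh Γ → Γ := fun γ y => (Θ γ (y, 1)).2
  let c : Γ → Bsh Γ → Γ := fun γ y => (Ξ γ (y, 1)).2
  have hP1 : ∀ y, P 1 y = 1 := fun y => by
    show (Θ 1 (y, 1)).2 = 1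
    rw [hΘ1]
  have hc1 : ∀ y, c 1 y = 1 := fun y => by
    show (Ξ 1 (y, 1)).2 = 1
    rw [hΞ1]
  have hPm : ∀ (γ γ' : Γ) (y : Bsh Γ), P (γ * γ') y = P γ (γ' • y) * P γ' y := by
    intro γ γ' y
    show (Θ (γ * γ') (y, 1)).2 = (Θ γ (γ' • y, 1)).2 * (Θ γ' (y, 1)).2
    rw [map_mul]
    show (Θ γ (Θ γ' (y, 1))).2 = _
    have h : Θ γ' (y, 1) = (γ' • y, (Θ γ' (y, 1)).2) := Prod.ext (hT1 γ' y 1) rfl
    rw [h, hT2]
  have hcm : ∀ (γ γ' : Γ) (y : Bsh Γ), c (γ * γ') y = c γ (c γ' y • y) * c γ' y := by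
    intro γ γ' y
    show (Ξ (γ * γ') (y, 1)).2 = (Ξ γ ((Ξ γ' (y, 1)).2 • y, 1)).2 * (Ξ γ' (y, 1)).2
    rw [map_mul]
    show (Ξ γ (Ξ γ' (y, 1))).2 = _
    have h : Ξ γ' (y, 1) = ((Ξ γ' (y, 1)).2 • y, (Ξ γ' (y, 1)).2) := Prod.ext (hX3 γ' y) rfl
    rw [h, hX2]
  have hPl : ∀ (a : G) (y : Bsh Γ), P (ι a) y = ι (π (rsG ι y) a) := by
    intro a y
    have h := hΘl a 1 (y, 1)
    rw [mul_one, hΘ1] at h
    show (Θ (ι a) (y, 1)).2 = _
    rw [h, mul_one]
  have hPr : ∀ (f : F) (y : Bsh Γ), P (κ f) y = κ f := by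
    intro f y
    have h := hΘr f 1 (y, 1)
    rw [mul_one, hΘ1] at h
    show (Θ (κ f) (y, 1)).2 = _
    rw [h, mul_one]
  have hcl : ∀ (b : G) (y : Bsh Γ), c (ι b) y = ι ((π (rsG ι y)).symm b) := by
    intro b y
    have h := hΞl b 1 (y, 1)
    rw [mul_one, hΞ1] at h
    show (Ξ (ι b) (y, 1)).2 = _
    rw [h, mul_one]
  have hcr : ∀ (f : F) (y : Bsh Γ), c (κ f) y = κ f := by
    intro f y
    have h := hΞr f 1 (y, 1)
    rw [mul_one, hΞ1] at h
    show (Ξ (κ f) (y, 1)).2 = _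
    rw [h, mul_one]
  have hPc : ∀ (δ : Γ) (y : Bsh Γ), P (c δ y) y = δ := by
    intro δ y
    induction δ using Monoid.Coprod.induction_on' with
    | one => rw [hc1, hP1]
    | inl_mul b x ih =>
      have e : c (ι b * x) y = c (ι b) (c x y • y) * c x y := hcm _ _ _
      show P (c (ι b * x) y) y = ι b * x
      rw [e, hPm, ih, hcl, hPl, Equiv.apply_symm_apply]
    | inr_mul f x ih =>
      have e : c (κ f * x) y = c (κ f) (c x y • y) * c x y := hcm _ _ _
      show P (c (κ f * x) y) y = κ f * x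
      rw [e, hPm, ih, hcr, hPr]
  have hcP : ∀ (γ : Γ) (y : Bsh Γ), c (P γ y) y = γ := by
    intro γ y
    induction γ using Monoid.Coprod.induction_on' with
    | one => rw [hP1, hc1]
    | inl_mul a x ih =>
      have e : P (ι a * x) y = P (ι a) (x • y) * P x y := hPm _ _ _
      show c (P (ι a * x) y) y = ι a * x
      rw [e, hcm, ih, hPl, hcl, Equiv.symm_apply_apply]
    | inr_mul f x ih =>
      have e : P (κ f * x) y = P (κ f) (x • y) * P x y := hPm _ _ _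
      show c (P (κ f * x) y) y = κ f * x
      rw [e, hcm, ih, hPr, hcr]
  have hPme : ∀ (γ δ : Γ), MeasurableSet {y | P γ y = δ} := by
    intro γ
    induction γ using Monoid.Coprod.induction_on' with
    | one =>
      intro δ
      have h : {y : Bsh Γ | P 1 y = δ} = {y : Bsh Γ | (1 : Γ) = δ} := by
        ext y
        show P 1 y = δ ↔ (1 : Γ) = δ
        rw [hP1]
      rw [h]
      exact MeasurableSet.const _
    | inl_mul a x ih =>
      intro δ
      have h : {y : Bsh Γ | P (ι a * x) y = δ} =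
          ⋃ b : G, {y : Bsh Γ | π (rsG ι (x • y)) a = b} ∩ {y : Bsh Γ | P x y = (ι b)⁻¹ * δ} := by
        ext y
        rw [Set.mem_iUnion]
        constructor
        · intro hy
          refine ⟨π (rsG ι (x • y)) a, rfl, ?_⟩
          have hy1 : P (ι a * x) y = δ := hy
          rw [hPm, hPl] at hy1
          show P x y = _
          rw [← hy1, inv_mul_cancel_left]
        · rintro ⟨b, hb, hy⟩
          have hb1 : π (rsG ι (x • y)) a = b := hb
          have hy1 : P x y = (ι b)⁻¹ * δ := hy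
          show P (ι a * x) y = δ
          rw [hPm, hPl, hb1, hy1, mul_inv_cancel_left]
      show MeasurableSet {y : Bsh Γ | P (ι a * x) y = δ}
      rw [h]
      exact MeasurableSet.iUnion fun b =>
        ((gExt_rs_me ι x) (hπ.me a b)).inter (ih ((ι b)⁻¹ * δ))
    | inr_mul f x ih =>
      intro δ
      have h : {y : Bsh Γ | P (κ f * x) y = δ} = {y : Bsh Γ | P x y = (κ f)⁻¹ * δ} := by
        ext y
        show P (κ f * x) y = δ ↔ P x y = (κ f)⁻¹ * δ
        rw [hPm, hPr, eq_inv_mul_iff_mul_eq]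
      show MeasurableSet {y : Bsh Γ | P (κ f * x) y = δ}
      rw [h]
      exact ih _
  refine ⟨fun y => ⟨fun γ => P γ y, fun δ => c δ y, fun γ => hcP γ y, fun δ => hPc δ y⟩, ?_⟩
  refine ⟨⟨fun a b => hPme a b, fun y a b => hPm b a y⟩, fun y a => hPl a y, fun y f => hPr f y⟩

end H33.HN
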