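import Pool.Agent.H33.HN.DefsG
import Pool.Agent.H33.BO.AmpC

/-! # HN.GKap : transport of the marks by a cocycle of permutations

PROOF. As `kap` (module Kap) with `ϖ` instead of `π'`: `(y, z) := JI Γ y'`, `κ y' := fun g => z (((ϖ y).symm g⁻¹)⁻¹)`. Measure preserving: `JI_mp`, and for fixed `y` the map of `z` is a permutation of the coordinates; jointly measurable by `me` (countable union over the values); `MeasurePreserving.skew_product` and the second projection, or Fubini, as for the second component of `T1` in H33/BO/AmpC. Equivariance: `κ (a • y') = ϖ y a • κ y'` for almost every `y'` and all `a` by `co` (the computation in the header of Kap / AmpC). -/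

set_option autoImplicit false
set_option synthInstance.maxSize 4000

open MeasureTheory H31.BE

namespace H33.HN

private noncomputable def GKap_rl {G : Type} [Group G] (σ : Equiv.Perm G) (z : Bsh G) : Bsh G :=
  fun g => z ((σ.symm g⁻¹)⁻¹)

private theorem GKap_rl_apply {G : Type} [Group G] (σ : Equiv.Perm G) (z : Bsh G) (b : G) :
    GKap_rl σ z (σ b)⁻¹ = z b⁻¹ := by
  simp [GKap_rl]

private def GKap_pm {G : Type} (e : Equiv.Perm G) (y : Bsh G) : Bsh G := fun g => y (e g)

private theorem GKap_perm {G : Type} [Group G] [DecidableEq G] (ζ : Measure ℝ) [IsProbabilityMeasure ζ]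
    (e : Equiv.Perm G) :
    Measure.map (GKap_pm e) (bern G ζ) = bern G ζ := by
  have hm : Measurable (GKap_pm e) :=
    measurable_pi_iff.2 (fun h => measurable_eval (e h))
  apply bern_unique
  intro s t ht
  rw [Measure.map_apply hm (measurableSet_rect s t (fun i _ => ht i))]
  have hset : GKap_pm e ⁻¹' {y : Bsh G | ∀ i ∈ s, y i ∈ t i} =
      {y : Bsh G | ∀ i ∈ s.image e, y i ∈ t (e.symm i)} := by
    ext y
    simp only [Set.mem_preimage, Set.mem_setOf_eq, Finset.mem_image,
      forall_exists_index, and_imp, forall_apply_eq_imp_iff₂, Equiv.symm_apply_apply, GKap_pm]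
  rw [hset, bern_pi ζ (s.image e) (fun k => t (e.symm k)) (fun i _ => ht _),
    Finset.prod_image (by intro a _ b _ hab; exact e.injective hab)]
  simp

private theorem GKap_rl_map {G : Type} [Group G] [DecidableEq G] (ζ : Measure ℝ) [IsProbabilityMeasure ζ]
    (σ : Equiv.Perm G) : Measure.map (GKap_rl σ) (bern G ζ) = bern G ζ :=
  GKap_perm ζ (((Equiv.inv G).trans σ.symm).trans (Equiv.inv G))

private theorem GKap_meas {G : Type} [Group G] [DecidableEq G] [Countable G] (π : Bsh G → Equiv.Perm G)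
    (hm : ∀ a b : G, MeasurableSet {x | (π x).symm a = b}) :
    Measurable (Function.uncurry (fun (x z : Bsh G) => GKap_rl (π x) z)) := by
  refine measurable_pi_iff.2 (fun g => ?_)
  intro A hA
  have : (fun p : Bsh G × Bsh G => Function.uncurry (fun (x z : Bsh G) => GKap_rl (π x) z) p g) ⁻¹' A =
      ⋃ b : G, (({x | (π x).symm g⁻¹ = b} : Set (Bsh G)) ×ˢ ((fun y : Bsh G => y b⁻¹) ⁻¹' A)) := by
    ext p
    simp only [Set.mem_preimage, Set.mem_iUnion, Set.mem_prod, Set.mem_setOf_eq, Function.uncurry, GKap_rl]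
    constructor
    · intro h
      exact ⟨_, rfl, h⟩
    · rintro ⟨b, hb, h⟩
      rw [hb]
      exact h
  rw [this]
  exact MeasurableSet.iUnion fun b => (hm g⁻¹ b).prod (measurable_eval b⁻¹ hA)

open H33.BO in
private theorem GKap_JI_smul {G : Type} [Group G] [Countable G] (a : G) (y : Bsh G) :
    JI G (a • y) = (a • (JI G y).1, a • (JI G y).2) := by
  have h : a • y = JJ G (a • (JI G y).1, a • (JI G y).2) := by
    rw [JJ_smul, Prod.mk.eta, JJ_JI]
  rw [h, JI_JJ]

open H33.BO in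
theorem kapG {Γ : Type} [Group Γ] [DecidableEq Γ] [Countable Γ] (ν ζ : Measure ℝ)
    [IsProbabilityMeasure ν] [IsProbabilityMeasure ζ] (ϖ : Bsh Γ → Equiv.Perm Γ)
    (me : ∀ a b : Γ, MeasurableSet {y | ϖ y a = b})
    (co : ∀ᵐ y ∂(bern Γ ν), ∀ a b : Γ, ϖ y (b * a) = ϖ (a • y) b * ϖ y a) :
    ∃ κ : Bsh Γ → Bsh Γ, MeasurePreserving κ (bern Γ (cod ν ζ)) (bern Γ ζ) ∧
      ∀ᵐ y ∂(bern Γ (cod ν ζ)), ∀ a : Γ, κ (a • y) = ϖ (JI Γ y).1 a • κ y := by
  have me' : ∀ a b : Γ, MeasurableSet {y | (ϖ y).symm a = b} := by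
    intro a b
    have e : {y | (ϖ y).symm a = b} = {y | ϖ y b = a} := by
      ext y
      constructor
      · intro h
        have h' : (ϖ y).symm a = b := h
        show ϖ y b = a
        rw [← h', Equiv.apply_symm_apply]
      · intro h
        have h' : ϖ y b = a := h
        show (ϖ y).symm a = b
        rw [← h', Equiv.symm_apply_apply]
    rw [e]
    exact me b a
  have hq : Measure.QuasiMeasurePreserving (fun y : Bsh Γ => (JI Γ y).1) (bern Γ (cod ν ζ)) (bern Γ ν) :=
    Measure.quasiMeasurePreserving_fst.comp (JI_mp ν ζ).quasiMeasurePreserving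
  refine ⟨fun y => GKap_rl (ϖ (JI Γ y).1) (JI Γ y).2, ?_, ?_⟩
  · have hs := MeasurePreserving.skew_product (μc := bern Γ ζ) (μd := bern Γ ζ)
      (MeasurePreserving.id (bern Γ ν)) (GKap_meas ϖ me')
      (Filter.Eventually.of_forall fun x => GKap_rl_map ζ (ϖ x))
    have hsnd : MeasurePreserving (Prod.snd : Bsh Γ × Bsh Γ → Bsh Γ) ((bern Γ ν).prod (bern Γ ζ))
      (bern Γ ζ) := measurePreserving_snd
    exact (hsnd.comp hs).comp (JI_mp ν ζ)
  · filter_upwards [hq.ae co] with y e3 a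
    show GKap_rl (ϖ (JI Γ (a • y)).1) (JI Γ (a • y)).2 = ϖ (JI Γ y).1 a • GKap_rl (ϖ (JI Γ y).1) (JI Γ y).2
    rw [GKap_JI_smul]
    funext k
    obtain ⟨c, hc⟩ : ∃ c : Γ, k = (ϖ (a • (JI Γ y).1) c)⁻¹ :=
      ⟨(ϖ (a • (JI Γ y).1)).symm k⁻¹, by simp⟩
    show GKap_rl (ϖ (a • (JI Γ y).1)) (a • (JI Γ y).2) k =
      (ϖ (JI Γ y).1 a • GKap_rl (ϖ (JI Γ y).1) (JI Γ y).2) k
    rw [hc, GKap_rl_apply, Bsh.smul_apply, Bsh.smul_apply, ← mul_inv_rev, ← mul_inv_rev, ← e3 a c,
      GKap_rl_apply]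

end H33.HN
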