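import Pool.Agent.H33.HN.ShpA
import Pool.Agent.H33.HN.DefsK
import Pool.Agent.H33.HN.CeA
import Pool.Agent.H33.HN.FdC

/-! # HN.PatH : the pattern system (paper 5.4)

PROOF. `shx_rcx`: `lsx_len`. `par_rcx`: `dX x = some c`: (A) `n ≠ 0`, `c = ln`, `q = lo` (`al_ln`), `lift g (pg c q) = ve` (`pg_ln`): the list `lsx (n' + 1) l = own (sf ve l) :: lsx n' (sf ve l)`, the parents after the switch: `sf (el * ve ^ (n' + 1)) l = sf (el * ve ^ n') (sf ve l)` (`sf_sf`, `pow_succ`). (B) `n = 0`, `x.2.2 = some f`, `c = sp`, `lift g (pg c q) = el` (definition): `ve ^ 0 = 1`. (Write `x = ⟨i, ⟨n, h⟩, o⟩` and split; equalities in the sigma type by `Sigma.ext`/`rfl`/`Subtype.ext`.)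
`psx`: `d1`: `dx_fst`. `tp`: type of `parx` is `q.1` (for `ln`: `q = lo i`, type `i`). `h0`, `h1`: `hx_none`, `hx_some` and `shx (parx p q) = pX (shx p) q` for `Al c q`, `dX (shx p) = some c`. `inj`: same type, same own labels (`labx` at the corners `⟨i, j⟩`), same direction: both lists are empty or both are nonempty; `ln`: the parent of `lo i` determines the head and the tail of the list and the option; `sp`: the parents determine `f` (at every `q`); `none`: empty list and `none`.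
`prc_x`: `t`: `sg_fst`. `l`: `own`: `β (lift g (cw c) • z.1)`. `p`: `sg_tc` (`tq qm (h • z.2) = sf h (tq qm z.2)`) and `par_rcx` (`fun h => β (h • x • z.1) = sf x (fun h => β (h • z.1))`). `rcx_lc`: finitely many coordinates (the union over the finite set of the shapes). `sg_fm`: `sg_lc` and `fm_lc`. -/

set_option autoImplicit false
set_option synthInstance.maxSize 4000

open MeasureTheory H31.BE

namespace H33.HN

variable {k m : ℕ} {U V : Fin m → Wl k} {G : Type} [Group G] (g : Lh k m → G)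
  (hg : Pres (rh U V) g) (hy : Hyp U V)

theorem shx_rcx {Λ : Type} {N : ℕ} (x : Sx U V N) (l : G → Λ) : shx (rcx U V g x l) = x := by
  obtain ⟨i, n, o⟩ := x
  have h1 : (⟨(lsx U V g i n l).length, by rw [lsx_len]; exact n.2⟩ : Fin (2 * N + 1)) = n :=
    Fin.ext (lsx_len U V g i n l)
  rcases o with _ | f
  · show (⟨i, ⟨(lsx U V g i n l).length, _⟩, none⟩ : Sx U V N) = ⟨i, n, none⟩
    rw [h1]
  · show (⟨i, ⟨(lsx U V g i n l).length, _⟩, some (fun q => ⟨(lsx U V g q.1.1 (f q)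
      (sf (el U V g i q.1 * ve V g i ^ (n : ℕ)) l)).length, _⟩)⟩ : Sx U V N) = ⟨i, n, some f⟩
    have h2 : (fun q : {q : Ps (rh U V) // Al (sp U V i) q} => (⟨(lsx U V g q.1.1 (f q)
      (sf (el U V g i q.1 * ve V g i ^ (n : ℕ)) l)).length, by rw [lsx_len]; exact (f q).2⟩ : Fin (N + 1))) = f := by
      funext q
      exact Fin.ext (lsx_len _ _ _ _ _ _)
    rw [h1, h2]

private theorem PatH_dxp {N : ℕ} (x : Sx U V N) (h : (x.2.1 : ℕ) ≠ 0) : dX U V x = some (ln U V x.1) := by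
  unfold dX
  rw [if_pos h]

private theorem PatH_dxs {N : ℕ} (x : Sx U V N) (h : (x.2.1 : ℕ) = 0) (h' : x.2.2.isSome = true) :
    dX U V x = some (sp U V x.1) := by
  unfold dX
  rw [if_neg (by rw [h]; simp), if_pos h']

private theorem PatH_dxn {N : ℕ} (x : Sx U V N) (h : (x.2.1 : ℕ) = 0) (h' : x.2.2 = none) :
    dX U V x = none := by
  unfold dX
  rw [if_neg (by rw [h]; simp), if_neg (by rw [h']; simp)]

private theorem PatH_px1 {N : ℕ} (i : Fin m) (n : ℕ) (hn : n + 1 < 2 * N + 1)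
    (o : Option ({q : Ps (rh U V) // Al (sp U V i) q} → Fin (N + 1))) (q : Ps (rh U V)) :
    pX U V (⟨i, ⟨n + 1, hn⟩, o⟩ : Sx U V N) q = ⟨i, ⟨n, by omega⟩, o⟩ := by
  unfold pX
  rw [dif_pos (show ((⟨n + 1, hn⟩ : Fin (2 * N + 1)) : ℕ) ≠ 0 from Nat.succ_ne_zero n)]
  rfl

private theorem PatH_px0 {N : ℕ} (i : Fin m) (hn : 0 < 2 * N + 1)
    (f : {q : Ps (rh U V) // Al (sp U V i) q} → Fin (N + 1)) (q : Ps (rh U V)) (hq : Al (sp U V i) q) :
    pX U V (⟨i, ⟨0, hn⟩, some f⟩ : Sx U V N) q =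
      ⟨q.1, ⟨(f ⟨q, hq⟩ : ℕ), by have := (f ⟨q, hq⟩).2; omega⟩, none⟩ := by
  unfold pX
  rw [dif_neg (by simp)]
  simp only
  rw [dif_pos hq]

private theorem PatH_par1 {Λ : Type} {N : ℕ} (i : Fin m) (w c : Cl (rh U V) Λ i) (l : List (Cl (rh U V) Λ i))
    (hl : (c :: l).length ≤ 2 * N)
    (o : Option ((q : {q : Ps (rh U V) // Al (sp U V i) q}) → Bl (rh U V) Λ N q.1.1)) (q : Ps (rh U V)) :
    parx (⟨i, (w, ⟨c :: l, hl⟩), o⟩ : PX U V Λ N) q = ⟨i, (c, ⟨l, by simp at hl; omega⟩), o⟩ := rfl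

private theorem PatH_par0 {Λ : Type} {N : ℕ} (i : Fin m) (w : Cl (rh U V) Λ i)
    (hl : ([] : List (Cl (rh U V) Λ i)).length ≤ 2 * N)
    (f : (q : {q : Ps (rh U V) // Al (sp U V i) q}) → Bl (rh U V) Λ N q.1.1) (q : Ps (rh U V))
    (hq : Al (sp U V i) q) :
    parx (⟨i, (w, ⟨[], hl⟩), some f⟩ : PX U V Λ N) q =
      ⟨q.1, ((f ⟨q, hq⟩).1, ⟨(f ⟨q, hq⟩).2.1, by have := (f ⟨q, hq⟩).2.2; omega⟩), none⟩ := by
  show (if h' : Al (sp U V i) q then (⟨q.1, ((f ⟨q, h'⟩).1, ⟨(f ⟨q, h'⟩).2.1, _⟩), none⟩ : PX U V Λ N) else _) = _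
  rw [dif_pos hq]

private theorem PatH_spln (hU : ∀ i, U i ≠ []) (i : Fin m) : sp U V i ≠ ln U V i := by
  intro h
  unfold sp ln at h
  have h1 := eq_of_heq (Sigma.mk.inj_iff.1 h).2
  have h2 : 1 = (U i).length + 1 := congrArg Fin.val h1
  exact hU i (List.length_eq_zero_iff.1 (by omega))

private theorem PatH_blk {Λ : Type} {K : ℕ} {i : Fin m} (a : Cl (rh U V) Λ i) (l l' : List (Cl (rh U V) Λ i))
    (h : l.length ≤ K) (h' : l'.length ≤ K) (e : l = l') :
    ((a, ⟨l, h⟩) : Bl (rh U V) Λ K i) = (a, ⟨l', h'⟩) := by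
  subst e
  rfl

include hg in
theorem par_rcx {Λ : Type} {N : ℕ} (x : Sx U V N) (l : G → Λ) (c : Ps (rh U V)) (h : dX U V x = some c)
    (q : Ps (rh U V)) (hq : Al c q) :
    parx (rcx U V g x l) q = rcx U V g (pX U V x q) (sf (FreeGroup.lift g (pg c q)) l) := by
  obtain ⟨i, ⟨n, hn⟩, o⟩ := x
  rcases n with _ | n
  · rcases o with _ | f
    · rw [PatH_dxn _ rfl rfl] at h
      exact absurd h (by simp)
    · rw [PatH_dxs _ rfl rfl, Option.some_inj] at h
      subst h
      have hq' : Al (sp U V i) q := hq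
      rw [PatH_px0 i hn f q hq']
      have e1 : el U V g i q * ve V g i ^ 0 = el U V g i q := by rw [pow_zero, mul_one]
      have e2 : parx (rcx U V g (⟨i, ⟨0, hn⟩, some f⟩ : Sx U V N) l) q =
          ⟨q.1, (own U V g q.1 (sf (el U V g i q * ve V g i ^ 0) l),
            ⟨lsx U V g q.1 (f ⟨q, hq'⟩) (sf (el U V g i q * ve V g i ^ 0) l), by
              rw [lsx_len]; have := (f ⟨q, hq'⟩).2; omega⟩), none⟩ :=
        PatH_par0 i _ _ _ q hq'
      rw [e2]
      have e3 : sf (el U V g i q * ve V g i ^ 0) l = sf (FreeGroup.lift g (pg (sp U V i) q)) l := by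
        rw [e1]
        rfl
      simp only [e3]
      rfl
  · rw [PatH_dxp _ (Nat.succ_ne_zero n), Option.some_inj] at h
    subst h
    have hq' : q = lo U V i := (al_ln i q).1 hq
    subst hq'
    rw [PatH_px1]
    have e0 : FreeGroup.lift g (pg (ln U V i) (lo U V i)) = ve V g i := pg_ln g hg i
    show parx (rcx U V g (⟨i, ⟨n + 1, hn⟩, o⟩ : Sx U V N) l) (lo U V i) =
      rcx U V g ⟨i, ⟨n, _⟩, o⟩ (sf (FreeGroup.lift g (pg (ln U V i) (lo U V i))) l)
    rw [e0]
    have e1 : ∀ z : G, sf (z * ve V g i ^ n) (sf (ve V g i) l) = sf (z * ve V g i ^ (n + 1)) l := by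
      intro z
      rw [sf_sf, mul_assoc, ← pow_succ]
    rcases o with _ | f
    · rfl
    · show (⟨i, (own U V g i (sf (ve V g i) l), ⟨lsx U V g i n (sf (ve V g i) l), _⟩),
        some (fun q => (own U V g q.1.1 (sf (el U V g i q.1 * ve V g i ^ (n + 1)) l),
          ⟨lsx U V g q.1.1 (f q) (sf (el U V g i q.1 * ve V g i ^ (n + 1)) l), _⟩))⟩ : PX U V Λ N) =
        ⟨i, (own U V g i (sf (ve V g i) l), ⟨lsx U V g i n (sf (ve V g i) l), _⟩),
        some (fun q => (own U V g q.1.1 (sf (el U V g i q.1 * ve V g i ^ n) (sf (ve V g i) l)),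
          ⟨lsx U V g q.1.1 (f q) (sf (el U V g i q.1 * ve V g i ^ n) (sf (ve V g i) l)), _⟩))⟩
      simp only [e1]

theorem shx_parx {Λ : Type} {N : ℕ} (p : PX U V Λ N) (c : Ps (rh U V)) (h : dX U V (shx p) = some c)
    (q : Ps (rh U V)) (hq : Al c q) : shx (parx p q) = pX U V (shx p) q := by
  obtain ⟨i, ⟨w, ⟨l, hl⟩⟩, o⟩ := p
  rcases l with _ | ⟨c1, l⟩
  · rcases o with _ | f
    · rw [PatH_dxn _ rfl rfl] at h
      exact absurd h (by simp)
    · rw [PatH_dxs _ rfl rfl, Option.some_inj] at h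
      subst h
      have hq' : Al (sp U V i) q := hq
      rw [PatH_par0 i w hl f q hq']
      have e : shx (⟨i, (w, ⟨[], hl⟩), some f⟩ : PX U V Λ N) =
          ⟨i, ⟨0, by omega⟩, some (fun q => ⟨(f q).2.1.length, by have := (f q).2.2; omega⟩)⟩ := rfl
      rw [e, PatH_px0 i _ _ q hq']
      rfl
  · rw [PatH_par1]
    have e : shx (⟨i, (w, ⟨c1 :: l, hl⟩), o⟩ : PX U V Λ N) =
        ⟨i, ⟨l.length + 1, by simp at hl; omega⟩,
          o.map fun f q => ⟨(f q).2.1.length, by have := (f q).2.2; omega⟩⟩ := rfl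
    rw [e, PatH_px1]
    rfl

/-- the pattern system -/
noncomputable def psx (U V : Fin m → Wl k) (hU : ∀ i, U i ≠ []) (Λ : Type) (N : ℕ) : Psy (rh U V) (PX U V Λ N) Λ where
  typ p := p.1
  dir p := dX U V (shx p)
  par p := parx p
  lab p := labx p
  ht p := hX U V (shx p)
  d1 := by
    intro p c h
    exact dx_fst (shx p) c h
  tp := by
    intro p c h q hq
    obtain ⟨i, ⟨w, ⟨l, hl⟩⟩, o⟩ := p
    rcases l with _ | ⟨c1, l⟩
    · rcases o with _ | f
      · rw [PatH_dxn _ rfl rfl] at h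
        exact absurd h (by simp)
      · rw [PatH_dxs _ rfl rfl, Option.some_inj] at h
        subst h
        rw [PatH_par0 i w hl f q hq]
    · rw [PatH_dxp _ (Nat.succ_ne_zero _), Option.some_inj] at h
      subst h
      rw [PatH_par1, (al_ln i q).1 hq]
      rfl
  h0 := by
    intro p h
    exact hx_none (shx p) h
  h1 := by
    intro p c h
    show hX U V (shx p) = 1 + (Finset.univ.filter fun q => Al c q).sup fun q => hX U V (shx (parx p q))
    rw [hx_some (shx p) c h]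
    congr 1
    refine Finset.sup_congr rfl fun q hq => ?_
    rw [shx_parx p c h q (Finset.mem_filter.1 hq).2]
  inj := by
    intro p p' h1 h2 h3 h4
    obtain ⟨i, ⟨w, ⟨l, hl⟩⟩, o⟩ := p
    obtain ⟨i', ⟨w', ⟨l', hl'⟩⟩, o'⟩ := p'
    have h1' : i = i' := h1
    subst h1'
    have hw : w = w' := by
      funext j
      have h5 := congrFun h2 (⟨i, j⟩ : Ps (rh U V))
      have h6 : labx (⟨i, (w, ⟨l, hl⟩), o⟩ : PX U V Λ N) ⟨i, j⟩ = some (w j) := by
        unfold labx
        rw [dif_pos rfl]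
      have h7 : labx (⟨i, (w', ⟨l', hl'⟩), o'⟩ : PX U V Λ N) ⟨i, j⟩ = some (w' j) := by
        unfold labx
        rw [dif_pos rfl]
      rw [h6, h7, Option.some_inj] at h5
      exact h5
    subst hw
    rcases l with _ | ⟨c1, l⟩
    · rcases l' with _ | ⟨c1', l'⟩
      · rcases o with _ | f
        · rcases o' with _ | f'
          · rfl
          · rw [PatH_dxn _ rfl rfl, PatH_dxs _ rfl rfl] at h3
            exact absurd h3 (by simp)
        · rcases o' with _ | f'
          · rw [PatH_dxs _ rfl rfl, PatH_dxn _ rfl rfl] at h3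
            exact absurd h3 (by simp)
          · have hf : f = f' := by
              funext q
              obtain ⟨q, hq⟩ := q
              have h5 := h4 _ (PatH_dxs _ rfl rfl) q hq
              rw [PatH_par0 i w hl f q hq, PatH_par0 i w hl' f' q hq] at h5
              have h6 := eq_of_heq (Sigma.mk.inj_iff.1 h5).2
              have h7 := (Prod.mk_inj.1 h6).1
              have h8 := Prod.mk_inj.1 h7
              have h9 : (f ⟨q, hq⟩).2.1 = (f' ⟨q, hq⟩).2.1 := Subtype.mk.inj h8.2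
              exact Prod.ext h8.1 (Subtype.ext h9)
            subst hf
            rfl
      · exfalso
        rcases o with _ | f
        · rw [PatH_dxn _ rfl rfl, PatH_dxp _ (Nat.succ_ne_zero _)] at h3
          exact absurd h3 (by simp)
        · rw [PatH_dxs _ rfl rfl, PatH_dxp _ (Nat.succ_ne_zero _), Option.some_inj] at h3
          exact PatH_spln hU i h3
    · rcases l' with _ | ⟨c1', l'⟩
      · exfalso
        rcases o' with _ | f'
        · rw [PatH_dxp _ (Nat.succ_ne_zero _), PatH_dxn _ rfl rfl] at h3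
          exact absurd h3 (by simp)
        · rw [PatH_dxp _ (Nat.succ_ne_zero _), PatH_dxs _ rfl rfl, Option.some_inj] at h3
          exact PatH_spln hU i h3.symm
      · have h5 := h4 _ (PatH_dxp _ (Nat.succ_ne_zero _)) (lo U V i) ((al_ln i _).2 rfl)
        rw [PatH_par1, PatH_par1] at h5
        have h6 := eq_of_heq (Sigma.mk.inj_iff.1 h5).2
        have h7 := Prod.mk_inj.1 h6
        have h8 := Prod.mk_inj.1 h7.1
        have h9 : c1 = c1' := h8.1
        have h10 : l = l' := congrArg Subtype.val h8.2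
        have h11 : o = o' := h7.2
        subst h9 h10 h11
        rfl

private theorem PatH_own (U V : Fin m → Wl k) [DecidableEq G] {Λ : Type} (i : Fin m) (h : G) :
    ∃ D : Finset G, Lc D (fun t : G → Λ => own U V g i (sf h t)) := by
  refine ⟨Finset.univ.image fun j : Fin (rh U V i).length =>
    FreeGroup.lift g (cw (⟨i, j⟩ : Ps (rh U V))) * h, ?_⟩
  intro t t' htt
  funext j
  exact htt _ (Finset.mem_image.2 ⟨j, Finset.mem_univ _, rfl⟩)

private theorem PatH_lsx (U V : Fin m → Wl k) [DecidableEq G] {Λ : Type} (i : Fin m) (n : ℕ) : ∀ h : G,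
    ∃ D : Finset G, Lc D (fun t : G → Λ => lsx U V g i n (sf h t)) := by
  induction n with
  | zero => exact fun h => ⟨∅, fun t t' _ => rfl⟩
  | succ n ih =>
    intro h
    obtain ⟨D1, h1⟩ := PatH_own g U V (Λ := Λ) i (ve V g i * h)
    obtain ⟨D2, h2⟩ := ih (ve V g i * h)
    refine ⟨D1 ∪ D2, fun t t' htt => ?_⟩
    have e1 := h1 t t' (fun x hx => htt x (Finset.mem_union_left _ hx))
    have e2 := h2 t t' (fun x hx => htt x (Finset.mem_union_right _ hx))
    show own U V g i (sf (ve V g i) (sf h t)) :: lsx U V g i n (sf (ve V g i) (sf h t)) =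
      own U V g i (sf (ve V g i) (sf h t')) :: lsx U V g i n (sf (ve V g i) (sf h t'))
    rw [sf_sf, sf_sf]
    exact congrArg₂ List.cons e1 e2

private theorem PatH_bl (U V : Fin m → Wl k) [DecidableEq G] {Λ : Type} (i : Fin m) (n : ℕ) (h : G) :
    ∃ D : Finset G, ∀ t t' : G → Λ, (∀ x ∈ D, t x = t' x) →
      own U V g i (sf h t) = own U V g i (sf h t') ∧ lsx U V g i n (sf h t) = lsx U V g i n (sf h t') := by
  obtain ⟨D1, h1⟩ := PatH_own g U V (Λ := Λ) i h
  obtain ⟨D2, h2⟩ := PatH_lsx g U V (Λ := Λ) i n h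
  exact ⟨D1 ∪ D2, fun t t' htt => ⟨h1 t t' (fun x hx => htt x (Finset.mem_union_left _ hx)),
    h2 t t' (fun x hx => htt x (Finset.mem_union_right _ hx))⟩⟩

private theorem PatH_sf1 {A : Type} (t : G → A) : sf (1 : G) t = t := by
  funext x
  show t (x * 1) = t x
  rw [mul_one]

private theorem PatH_lc1 [DecidableEq G] {Λ : Type} {N : ℕ} (x : Sx U V N) :
    ∃ D : Finset G, Lc D (rcx (Λ := Λ) U V g x) := by
  classical
  obtain ⟨i, n, o⟩ := x
  obtain ⟨D0, h0⟩ := PatH_bl g U V (Λ := Λ) i n 1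
  rcases o with _ | f
  · refine ⟨D0, fun t t' htt => ?_⟩
    obtain ⟨e1, e2⟩ := h0 t t' htt
    rw [PatH_sf1, PatH_sf1] at e1 e2
    show (⟨i, (own U V g i t, ⟨lsx U V g i n t, _⟩), none⟩ : PX U V Λ N) =
      ⟨i, (own U V g i t', ⟨lsx U V g i n t', _⟩), none⟩
    simp only [e1, e2]
  · choose D1 h1 using fun q : {q : Ps (rh U V) // Al (sp U V i) q} =>
      PatH_bl g U V (Λ := Λ) q.1.1 (f q) (el U V g i q.1 * ve V g i ^ (n : ℕ))
    refine ⟨D0 ∪ Finset.univ.biUnion D1, fun t t' htt => ?_⟩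
    obtain ⟨e1, e2⟩ := h0 t t' fun x hx => htt x (Finset.mem_union_left _ hx)
    rw [PatH_sf1, PatH_sf1] at e1 e2
    have e3 : ∀ q, _ := fun q => h1 q t t' fun x hx => htt x (Finset.mem_union_right _
      (Finset.mem_biUnion.2 ⟨q, Finset.mem_univ _, hx⟩))
    show (⟨i, (own U V g i t, ⟨lsx U V g i n t, _⟩),
        some (fun q => (own U V g q.1.1 (sf (el U V g i q.1 * ve V g i ^ (n : ℕ)) t),
          ⟨lsx U V g q.1.1 (f q) (sf (el U V g i q.1 * ve V g i ^ (n : ℕ)) t), _⟩))⟩ : PX U V Λ N) =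
      ⟨i, (own U V g i t', ⟨lsx U V g i n t', _⟩),
        some (fun q => (own U V g q.1.1 (sf (el U V g i q.1 * ve V g i ^ (n : ℕ)) t'),
          ⟨lsx U V g q.1.1 (f q) (sf (el U V g i q.1 * ve V g i ^ (n : ℕ)) t'), _⟩))⟩
    simp only [e1, e2, fun q => (e3 q).1, fun q => (e3 q).2]

theorem rcx_lc [DecidableEq G] {Λ : Type} {N : ℕ} : ∃ D : Finset G, ∀ x : Sx U V N, Lc D (rcx (Λ := Λ) U V g x) := by
  classical
  choose D hD using fun x : Sx U V N => PatH_lc1 (Λ := Λ) g x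
  exact ⟨Finset.univ.biUnion D, fun x t t' htt => hD x t t' fun y hy =>
    htt y (Finset.mem_biUnion.2 ⟨x, Finset.mem_univ _, hy⟩)⟩

theorem sg_fm [Countable G] [DecidableEq G] (N L : ℕ) (ζ : Measure ℝ) [IsProbabilityMeasure ζ] (qm : ℝ → Fin m → Bool)
    (hqm : Fm qm) (i : Fin m) : Fm (fun z : Bsh G => sgm U V g N L i (tq qm z)) := by
  obtain ⟨D, hD⟩ := sg_lc (U := U) (V := V) g N L
  exact fm_lc qm hqm D _ (hD i)

private theorem PatH_lab {Λ : Type} {N : ℕ} (x : Sx U V N) (l : G → Λ) (c : Ps (rh U V)) :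
    labx (rcx U V g x l) c = if c.1 = x.1 then some (l (FreeGroup.lift g (cw c))) else none := by
  obtain ⟨i, n, o⟩ := x
  obtain ⟨j, y⟩ := c
  by_cases h : j = i
  · subst h
    rw [if_pos rfl]
    unfold labx
    rw [dif_pos (show (⟨j, y⟩ : Ps (rh U V)).1 = (rcx U V g (⟨j, n, o⟩ : Sx U V N) l).1 from rfl)]
    rfl
  · rw [if_neg h]
    unfold labx
    rw [dif_neg (show ¬ (⟨j, y⟩ : Ps (rh U V)).1 = (rcx U V g (⟨i, n, o⟩ : Sx U V N) l).1 from h)]

include hg in
theorem prc_x {Λ : Type} (hU : ∀ i, U i ≠ []) (N L : ℕ) (qm : ℝ → Fin m → Bool) (β : Bsh G → Λ) :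
    Prc g (psx U V hU Λ N) (fun z : Bsh G × Bsh G => β z.1)
      (fun i (z : Bsh G × Bsh G) => rcx U V g (sgm U V g N L i (tq qm z.2)) (fun h => β (h • z.1))) where
  t := by
    intro i z
    exact sg_fst g N L i (tq qm z.2)
  l := by
    intro i z c
    show labx (rcx U V g (sgm U V g N L i (tq qm z.2)) (fun h => β (h • z.1))) c = _
    rw [PatH_lab, sg_fst]
    rfl
  p := by
    intro i z c h q hq
    have h' : dX U V (shx (rcx U V g (sgm U V g N L i (tq qm z.2)) (fun h => β (h • z.1)))) = some c := h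
    rw [shx_rcx] at h'
    show rcx U V g (sgm U V g N L q.1 (tq qm (FreeGroup.lift g (pg c q) • z).2))
        (fun h => β (h • (FreeGroup.lift g (pg c q) • z).1)) =
      parx (rcx U V g (sgm U V g N L i (tq qm z.2)) (fun h => β (h • z.1))) q
    rw [par_rcx g hg _ _ c h' q hq, ← sg_tc g hg N L i (tq qm z.2) c h' q hq, Prod.smul_snd, Prod.smul_fst,
      tq_smul]
    congr 1
    funext x
    show β (x • FreeGroup.lift g (pg c q) • z.1) = β ((x * FreeGroup.lift g (pg c q)) • z.1)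
    rw [mul_smul]

end H33.HN
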