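import Pool.Agent.H33.HN.GKap
import Pool.Agent.H33.HN.PatH
import Pool.Agent.H33.HN.DefsK
import Pool.Agent.H33.HN.RepA

/-! # HN.GKt : the second T-structure for a package

PROOF. As `ktA` (module KtA), with `kapG` instead of `kap`: `S (a • y) = b • S y` is replaced by `ϖ y a = b`: for `w := kw g (pg c q)`, `a := walk .. w`: `ϖ (JI G y).1 a = wprod w` (`hS` at `(JI G y).1`), so `κ (a • y) = wprod w • κ y`. -/

set_option autoImplicit false
set_option synthInstance.maxSize 4000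

open MeasureTheory H31.BE

namespace H33.HN

variable {k m : ℕ} {U V : Fin m → Wl k} {G : Type} [Group G] [DecidableEq G] (g : Lh k m → G)
  (hg : Pres (rh U V) g) (hy : Hyp U V)

private theorem GKt_tq {H A : Type} [Group H] (q : ℝ → A) (h : H) (y : Bsh H) :
    tq q (h • y) = sf h (tq q y) := by
  funext a
  show q ((a • h • y) 1) = q (((a * h) • y) 1)
  rw [mul_smul]

open H33.BO in
private theorem GKt_JI {H : Type} [Group H] [Countable H] (a : H) (y : Bsh H) :
    JI H (a • y) = (a • (JI H y).1, a • (JI H y).2) := by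
  have h : a • y = JJ H (a • (JI H y).1, a • (JI H y).2) := by
    rw [JJ_smul, Prod.mk.eta, JJ_JI]
  rw [h, JI_JJ]

include hg in
open H33.BO in
theorem ktG [Countable G] (ν ζ : Measure ℝ) [IsProbabilityMeasure ν]
    [IsProbabilityMeasure ζ] (ϖ : Bsh G → Equiv.Perm G) (me : ∀ a b : G, MeasurableSet {y | ϖ y a = b})
    (co : ∀ᵐ y ∂(bern G ν), ∀ a b : G, ϖ y (b * a) = ϖ (a • y) b * ϖ y a)
    (qm : ℝ → Fin m → Bool) (hqm : Fm qm) (N L' : ℕ) {Λ0 : Type} [Finite Λ0] (L : Lab (SS g) Λ0)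
    (lb : Bsh G → Λ0) (hlb : Fm lb)
    (hS : ∀ᵐ y ∂(bern G ν), ∀ w : List (H31.BE.Gn (SS g)), ϖ y (walk L (fun h => lb (h • y)) w) = wprod w) :
    ∃ lb' : Bsh G → Lb (rh U V) Λ0 (3 * N + 2), Fm lb' ∧ (∀ y, (lb' y).1 = lb (JI G y).1) ∧
      (∀ᵐ y ∂(bern G (cod ν ζ)), KT g L lb' y) ∧
      ∀ i, (bern G (cod ν ζ)).real {y | (lb' y).2.1 i = none} = dr U V g N L' ζ qm i := by
  obtain ⟨κ, hκ, hκe⟩ := kapG ν ζ ϖ me co
  let σ : Fin m → Bsh G → Sx U V N := fun i y => sgm U V g N L' i (tq qm (κ y))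
  have hσ : ∀ i, Fm (σ i) := fun i =>
    Fm.comp_measurable hκ.measurable (sg_fm g N L' ζ qm hqm i)
  let lb' : Bsh G → Lb (rh U V) Λ0 (3 * N + 2) := fun y =>
    (lb (JI G y).1, (fun i => dX U V (σ i y), fun i => ⟨hX U V (σ i y), Nat.lt_succ_of_le (hx_le (σ i y))⟩))
  have hJm : Measurable (fun y : Bsh G => (JI G y).1) := measurable_fst.comp (JI_mp ν ζ).measurable
  refine ⟨lb', ?_, fun _ => rfl, ?_, fun i => ?_⟩
  · refine Fm.prodMk (Fm.comp_measurable hJm hlb) (Fm.prodMk (Fm.pi fun i => ?_) (Fm.pi fun i => ?_))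
    · exact Fm.comp (hσ i) (fun x => dX U V x)
    · exact Fm.comp (hσ i) (fun x => (⟨hX U V x, Nat.lt_succ_of_le (hx_le x)⟩ : Fin (3 * N + 2)))
  · have hq : Measure.QuasiMeasurePreserving (fun y : Bsh G => (JI G y).1) (bern G (cod ν ζ)) (bern G ν) :=
      Measure.quasiMeasurePreserving_fst.comp (JI_mp ν ζ).quasiMeasurePreserving
    filter_upwards [hκe, hq.ae hS] with y h1 h2
    intro i
    refine ⟨fun hd => hx_none _ hd, fun c hc => ⟨?_, ?_⟩⟩
    · rw [dx_fst (σ i y) c hc]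
      exact sg_fst g N L' i (tq qm (κ y))
    · show hX U V (σ i y) = 1 + ((Finset.univ.filter fun q => Al c q).sup fun q =>
        hX U V (σ q.1 (walk L (fun h => (lb' (h • y)).1) (kw g (pg c q)) • y)))
      rw [hx_some (σ i y) c hc]
      congr 1
      refine Finset.sup_congr rfl fun q hq' => ?_
      have hal : Al c q := (Finset.mem_filter.1 hq').2
      have e1 : (fun h : G => (lb' (h • y)).1) = fun h : G => lb (h • (JI G y).1) := by
        funext a
        show lb (JI G (a • y)).1 = lb (a • (JI G y).1)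
        rw [GKt_JI]
      rw [e1]
      have e2 := h1 (walk L (fun h => lb (h • (JI G y).1)) (kw g (pg c q)))
      rw [h2 (kw g (pg c q))] at e2
      have e3 : σ q.1 (walk L (fun h => lb (h • (JI G y).1)) (kw g (pg c q)) • y) = pX U V (σ i y) q := by
        show sgm U V g N L' q.1 (tq qm (κ (walk L (fun h => lb (h • (JI G y).1)) (kw g (pg c q)) • y))) = _
        rw [e2, kw_prod, GKt_tq]
        exact sg_tc g hg N L' i (tq qm (κ y)) c hc q hal
      rw [e3]
  · have hm : MeasurableSet {z : Bsh G | dX U V (sgm U V g N L' i (tq qm z)) = none} :=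
      (sg_fm g N L' ζ qm hqm i).preimage {x | dX U V x = none}
    show (bern G (cod ν ζ)).real (κ ⁻¹' {z : Bsh G | dX U V (sgm U V g N L' i (tq qm z)) = none}) =
      (bern G ζ).real {z : Bsh G | dX U V (sgm U V g N L' i (tq qm z)) = none}
    rw [Measure.real, Measure.real, hκ.measure_preimage hm.nullMeasurableSet]

end H33.HN
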