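import Pool.Agent.H33.HN.DefsG
import Pool.Agent.H33.HN.GApr
import Pool.Agent.H31.BE.LabMain

/-! # HN.GLab : the labels of a package

PROOF. Compare H31/BE/LabMain. From `co` (at `a = b = 1`): `ϖ y 1 = 1`. Good points: `y` such that for all `c : Γ` the point `c • y` satisfies `co`, `bd`, `bd'` for the letters (conull: `inv_bern`, countability), and `T' (kcf ϖ s y) = y`. `C`: all the finite sets of `bd`, `bd'` for `a = gv σ`, `σ : Gn S'` (finitely many letters), are in `ball S' C` (`hgen`, `ball_mono`). `c σ y := (ϖ y).symm (gv σ)` if this is in `ball S' C`, `1` otherwise; `b σ y := ϖ y (gv σ)` if in the ball, `1` otherwise (`Fm`, values in `ball S' C`; `{y | (ϖ y).symm a = b} = {y | ϖ y b = a}`). `χ` from `coloring` for `(ball S' (C * N)).erase 1` (`free_bern`).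
Base label `l0 y := (q0 (y 1), c, b, χ y)`. `kcf ϖ s` is measurable (countably many values of `(ϖ y).symm h⁻¹`). `P' := (bern Γ ν).map (kcf ϖ s)`, a probability measure; `l0 ∘ T'` is `Fm`; `entc_small` for `ε` and the type of `l0` gives `δ`, `appr_gen` for `P'`, `l0 ∘ T'`, `δ` gives `k, q, B, Φ`. `lb y := (l0 y, q (s y))`, `pf := Prod.snd`, `L`, `J := Option B`, `wd` as in LabMain. (W) For a good point `walk L (fun g => lb (g • y)) w = (ϖ y).symm (wprod w)`: induction: `ϖ y (c' * a) = ϖ (a • y) c' * ϖ y a` with `a = walk .. w`, `c' = (ϖ (a • y)).symm (gv σ)`. This is the last claim.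
`Adm`: `a1`: `wprod (bw σ) = b σ y = ϖ y (gv σ)`, so the walk is `gv σ`. `a2`: (W). `a3`: `(ϖ y).symm x = 1` iff `x = ϖ y 1 = 1`. `a4`: `χ`. Entropies: `ent (pf ∘ lb) = ent (bern Γ ν) (q ∘ s) = ent μ q` (`sm`, `ent_map`). `win (lab q) B (kcf ϖ s y) h = q ((h • kcf ϖ s y) 1) = q (s ((ϖ y).symm h • y)) = pf (lb (walk (wd (some h)) • y))` (coordinate `h⁻¹` of `kcf`), and `pf (lb (walk [] • y)) = q (s y)`. The rest is as in LabMain: `P {l0 y ≠ Φ (win (lab q) B (kcf ϖ s y))} ≤ δ` by `te`. -/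

set_option autoImplicit false
set_option synthInstance.maxSize 4000

open MeasureTheory H31.BE

namespace H33.HN

/-! ### countable valued functions -/

private theorem GLab_pre {Ω Γ : Type} [MeasurableSpace Ω] [Countable Γ] {f : Ω → Γ}
    (hf : ∀ a, MeasurableSet {y | f y = a}) (A : Set Γ) : MeasurableSet (f ⁻¹' A) := by
  have h1 : f ⁻¹' A = ⋃ a ∈ A, {y | f y = a} := by
    ext y
    simp
  rw [h1]
  exact MeasurableSet.biUnion (Set.to_countable A) (fun a _ => hf a)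

private theorem GLab_sel {Ω Γ : Type} [MeasurableSpace Ω] [DecidableEq Γ] [Countable Γ] {f : Ω → Γ}
    (hf : ∀ a, MeasurableSet {y | f y = a}) (B : Finset Γ) (o : (B : Finset Γ)) :
    Fm (fun y => if h : f y ∈ B then (⟨f y, h⟩ : (B : Finset Γ)) else o) := by
  intro a
  exact GLab_pre hf {x : Γ | (if h : x ∈ B then (⟨x, h⟩ : (B : Finset Γ)) else o) = a}

private theorem GLab_smul {Γ : Type} [Group Γ] (g : Γ) : Measurable (fun y : Bsh Γ => g • y) :=
  measurable_pi_iff.2 (fun h => measurable_pi_apply (X := fun _ : Γ => ℝ) (g⁻¹ * h))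

private theorem GLab_cmp {Γ : Type} [Group Γ] [Countable Γ] {f : Bsh Γ → Γ} {s : Bsh Γ → ℝ}
    (hf : ∀ a, MeasurableSet {y | f y = a}) (hs : Measurable s) :
    Measurable (fun y : Bsh Γ => s (f y • y)) := by
  intro U hU
  have h1 : (fun y : Bsh Γ => s (f y • y)) ⁻¹' U =
      ⋃ a : Γ, ({y | f y = a} ∩ (fun y : Bsh Γ => s (a • y)) ⁻¹' U) := by
    ext y
    simp only [Set.mem_preimage, Set.mem_iUnion, Set.mem_inter_iff]
    constructor
    · intro h
      exact ⟨f y, rfl, h⟩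
    · rintro ⟨a, ha, h⟩
      have ha' : f y = a := ha
      rw [ha']
      exact h
  rw [h1]
  exact MeasurableSet.iUnion fun a => (hf a).inter ((hs.comp (GLab_smul a)) hU)

private theorem GLab_symm {Ω Γ : Type} [MeasurableSpace Ω] {ϖ : Ω → Equiv.Perm Γ}
    (hf : ∀ a b, MeasurableSet {y | ϖ y a = b}) (g a : Γ) : MeasurableSet {y | (ϖ y).symm g = a} := by
  have h1 : {y | (ϖ y).symm g = a} = {y | ϖ y a = g} := by
    ext y
    exact ⟨fun h => by
      have h2 : (ϖ y).symm g = a := h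
      show ϖ y a = g
      rw [← h2, Equiv.apply_symm_apply], fun h => by
      have h2 : ϖ y a = g := h
      show (ϖ y).symm g = a
      rw [← h2, Equiv.symm_apply_apply]⟩
  rw [h1]
  exact hf a g

/-! ### the walk at a good point -/

private theorem GLab_walk {Γ I Λ : Type} [Group Γ] [DecidableEq Γ] [Fintype I] {S' : I → Finset Γ}
    (ϖ : Bsh Γ → Equiv.Perm Γ) (y : Bsh Γ)
    (hco : ∀ a b : Γ, ϖ y (b * a) = ϖ (a • y) b * ϖ y a)
    (L : Lab S' Λ) (lb : Bsh Γ → Λ)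
    (h1 : ∀ (g : Γ) (σ : H31.BE.Gn S'), ϖ (g • y) (L.c σ (lb (g • y))) = gv σ) (w : List (H31.BE.Gn S')) :
    ϖ y (walk L (fun g => lb (g • y)) w) = wprod w := by
  have h0 : ϖ y 1 = 1 := by
    have h := hco 1 1
    rw [one_smul, one_mul] at h
    have h2 : ϖ y 1 * 1 = ϖ y 1 * ϖ y 1 := by rw [mul_one]; exact h
    exact (mul_left_cancel h2).symm
  induction w with
  | nil =>
    show ϖ y 1 = 1
    exact h0
  | cons σ w' ih =>
    show ϖ y (L.c σ (lb (walk L (fun g => lb (g • y)) w' • y)) * walk L (fun g => lb (g • y)) w') = _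
    rw [hco, h1, ih]
    simp [wprod]

theorem labG {Γ I : Type} [Group Γ] [DecidableEq Γ] [Countable Γ] [Infinite Γ] [Fintype I]
    (S' : I → Finset Γ) (hgen : ∀ g : Γ, ∃ r, g ∈ ball S' r)
    (μ ν : Measure ℝ) [IsProbabilityMeasure μ] [IsProbabilityMeasure ν] (hν : Nontriv ν)
    (ϖ : Bsh Γ → Equiv.Perm Γ) (s : Bsh Γ → ℝ) (T' : Bsh Γ → Bsh Γ) (h : Pkg μ ν ϖ s T') (N : ℕ) (ε : ℝ)
    (hε : 0 < ε) (k0 : ℕ) (q0 : ℝ → Fin k0) (hq0 : Fm q0) :
    ∃ (Λ : Type) (_ : Finite Λ) (L : Lab S' Λ) (lb : Bsh Γ → Λ) (_ : Fm lb) (q' : Λ → Fin k0)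
      (k : ℕ) (q : ℝ → Fin k) (_ : Fm q) (pf : Λ → Fin k) (J : Type) (_ : Finite J)
      (wd : J → List (H31.BE.Gn S')),
      (∀ᵐ y ∂(bern Γ ν), Adm L N (fun g => lb (g • y))) ∧
      (∀ y : Bsh Γ, q' (lb y) = q0 (y 1)) ∧
      ent (bern Γ ν) (fun y => pf (lb y)) = ent μ q ∧
      entc (bern Γ ν) lb (fun y => fun j : J => pf (lb (walk L (fun g => lb (g • y)) (wd j) • y))) ≤ ε ∧
      ∀ᵐ y ∂(bern Γ ν), ∀ w : List (H31.BE.Gn S'), ϖ y (walk L (fun g => lb (g • y)) w) = wprod w := by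
  classical
  choose F hF using h.bd
  choose F' hF' using h.bd'
  choose r hr using hgen
  let C : ℕ := ∑ σ : H31.BE.Gn S', ((∑ f ∈ F (gv σ), r f) + ∑ f ∈ F' (gv σ), r f)
  have hle : ∀ σ : H31.BE.Gn S', (∑ f ∈ F (gv σ), r f) + ∑ f ∈ F' (gv σ), r f ≤ C := fun σ =>
    Finset.single_le_sum
      (f := fun σ : H31.BE.Gn S' => (∑ f ∈ F (gv σ), r f) + ∑ f ∈ F' (gv σ), r f)
      (fun _ _ => Nat.zero_le _) (Finset.mem_univ σ)
  have hFC : ∀ σ : H31.BE.Gn S', F (gv σ) ⊆ ball S' C := by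
    intro σ f hf
    refine ball_mono ?_ (hr f)
    have h1 : r f ≤ ∑ f ∈ F (gv σ), r f := Finset.single_le_sum (fun _ _ => Nat.zero_le _) hf
    have h2 := hle σ
    omega
  have hFC' : ∀ σ : H31.BE.Gn S', F' (gv σ) ⊆ ball S' C := by
    intro σ f hf
    refine ball_mono ?_ (hr f)
    have h1 : r f ≤ ∑ f ∈ F' (gv σ), r f := Finset.single_le_sum (fun _ _ => Nat.zero_le _) hf
    have h2 := hle σ
    omega
  let o : (ball S' C : Finset Γ) := ⟨1, one_mem_ball C⟩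
  let c : H31.BE.Gn S' → Bsh Γ → (ball S' C : Finset Γ) := fun σ y =>
    if h : (ϖ y).symm (gv σ) ∈ ball S' C then ⟨(ϖ y).symm (gv σ), h⟩ else o
  let b : H31.BE.Gn S' → Bsh Γ → (ball S' C : Finset Γ) := fun σ y =>
    if h : ϖ y (gv σ) ∈ ball S' C then ⟨ϖ y (gv σ), h⟩ else o
  have hcF : ∀ σ, Fm (c σ) := fun σ =>
    GLab_sel (f := fun y => (ϖ y).symm (gv σ)) (fun a => GLab_symm h.me (gv σ) a) (ball S' C) o
  have hbF : ∀ σ, Fm (b σ) := fun σ =>
    GLab_sel (f := fun y => ϖ y (gv σ)) (fun a => h.me (gv σ) a) (ball S' C) o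
  have hfree : ∀ g : Γ, g ≠ 1 → ∀ᵐ y ∂(bern Γ ν), g • y ≠ y := fun g hg => free_bern ν hν g hg
  obtain ⟨Nc, χ, hχF, hχ⟩ := coloring ν hfree ((ball S' (C * N)).erase 1)
    (Finset.notMem_erase _ _)
  have trans : ∀ {p : Bsh Γ → Prop}, (∀ᵐ y ∂(bern Γ ν), p y) →
      ∀ᵐ y ∂(bern Γ ν), ∀ g : Γ, p (g • y) :=
    fun hp => ae_all_iff.2 fun g => (inv_bern ν g).quasiMeasurePreserving.ae hp
  have hgood : ∀ᵐ y ∂(bern Γ ν), (∀ a b : Γ, ϖ y (b * a) = ϖ (a • y) b * ϖ y a) ∧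
      (∀ σ : H31.BE.Gn S', (b σ y : Γ) = ϖ y (gv σ)) ∧
      (∀ (g : Γ) (σ : H31.BE.Gn S'), ϖ (g • y) (c σ (g • y) : Γ) = gv σ) := by
    have a1 : ∀ᵐ y ∂(bern Γ ν), ∀ σ : H31.BE.Gn S', ϖ y (gv σ) ∈ F (gv σ) :=
      ae_all_iff.2 fun σ => hF (gv σ)
    have a2 : ∀ᵐ y ∂(bern Γ ν), ∀ σ : H31.BE.Gn S', (ϖ y).symm (gv σ) ∈ F' (gv σ) :=
      ae_all_iff.2 fun σ => hF' (gv σ)
    filter_upwards [h.co, a1, trans a2] with y h1 h2 h3
    refine ⟨h1, fun σ => ?_, fun g σ => ?_⟩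
    · have h4 : ϖ y (gv σ) ∈ ball S' C := hFC σ (h2 σ)
      have h5 : b σ y = ⟨ϖ y (gv σ), h4⟩ := dif_pos h4
      rw [h5]
    · have h4 : (ϖ (g • y)).symm (gv σ) ∈ ball S' C := hFC' σ (h3 g σ)
      have h5 : c σ (g • y) = ⟨(ϖ (g • y)).symm (gv σ), h4⟩ := dif_pos h4
      rw [h5]
      exact Equiv.apply_symm_apply _ _
  have hw : ∀ g : (ball S' C : Finset Γ), ∃ w : List (H31.BE.Gn S'), w.length ≤ C ∧ wprod w = (g : Γ) :=
    fun g => exists_word g.2
  choose wC hwC1 hwC2 using hw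
  -- the base label
  let Λ0 : Type := Fin k0 × (H31.BE.Gn S' → (ball S' C : Finset Γ)) ×
    (H31.BE.Gn S' → (ball S' C : Finset Γ)) × Fin Nc
  let l0 : Bsh Γ → Λ0 := fun y => (q0 (y 1), (fun σ => c σ y), (fun σ => b σ y), χ y)
  have hl0 : Fm l0 := by
    refine Fm.prodMk (Fm.lab (G := Γ) hq0) (Fm.prodMk (Fm.pi hcF) (Fm.prodMk (Fm.pi hbF) hχF))
  have hl0T : Fm (fun x => l0 (T' x)) := Fm.comp_measurable h.tm hl0
  have hsm : Measurable s := h.sm.measurable
  have hsg : ∀ g : Γ, Measurable (fun y : Bsh Γ => s ((ϖ y).symm g • y)) := fun g =>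
    GLab_cmp (f := fun y => (ϖ y).symm g) (fun a => GLab_symm h.me g a) hsm
  have hkm : Measurable (kcf ϖ s) := measurable_pi_iff.2 (fun g => hsg g⁻¹)
  have hP' : IsProbabilityMeasure ((bern Γ ν).map (kcf ϖ s)) :=
    Measure.isProbabilityMeasure_map hkm.aemeasurable
  obtain ⟨δ, hδ, hsmall⟩ := entc_small Λ0 ε hε
  obtain ⟨k, q, hq, B, Φ, hΦ⟩ := appr_gen ((bern Γ ν).map (kcf ϖ s)) (fun x => l0 (T' x)) hl0T δ hδ
  let L : Lab S' (Λ0 × Fin k) :=
    { C := C
      c := fun σ l => (l.1.2.1 σ : Γ)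
      bw := fun σ l => wC (l.1.2.2.1 σ)
      hc := fun σ l => (l.1.2.1 σ).2
      hbw := fun σ l => hwC1 _ }
  let lb : Bsh Γ → Λ0 × Fin k := fun y => (l0 y, q (s y))
  have hqs : Fm (fun y => q (s y)) := Fm.comp_measurable hsm hq
  have hlb : Fm lb := hl0.prodMk hqs
  have hword : ∀ g : Γ, ∃ w : List (H31.BE.Gn S'), wprod w = g := by
    intro g
    obtain ⟨w, _, hw⟩ := exists_word (hr g)
    exact ⟨w, hw⟩
  choose wG hwG using hword
  let wd : Option B → List (H31.BE.Gn S') := fun j =>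
    match j with
    | none => []
    | some h => wG h
  have hnone : wprod (wd none) = 1 := rfl
  have hsome : ∀ h : B, wprod (wd (some h)) = (h : Γ) := fun h => hwG h
  have hW : ∀ᵐ y ∂(bern Γ ν), ∀ w : List (H31.BE.Gn S'),
      ϖ y (walk L (fun g => lb (g • y)) w) = wprod w := by
    filter_upwards [hgood] with y hy w
    exact GLab_walk ϖ y hy.1 L lb (fun g σ => hy.2.2 g σ) w
  refine ⟨Λ0 × Fin k, inferInstance, L, lb, hlb, fun l => l.1.1, k, q, hq, Prod.snd, Option B,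
    inferInstance, wd, ?_, fun y => rfl, ?_, ?_, hW⟩
  · filter_upwards [hgood, hχ, hW] with y hy1 hy2 hy3
    have h0 : ϖ y 1 = 1 := hy3 []
    refine ⟨?_, ?_, ?_, ?_⟩
    · intro σ
      apply (ϖ y).injective
      rw [hy3]
      show wprod (wC (b σ ((1 : Γ) • y))) = ϖ y (gv σ)
      rw [one_smul, hwC2, hy1.2.1 σ]
    · intro w w' _ _ hww
      apply (ϖ y).injective
      rw [hy3, hy3, hww]
    · intro w _ hw1 h3
      apply hw1
      rw [← hy3 w, h3, h0]
    · intro g hg hg1 heq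
      have heq' : lb (g • y) = lb ((1 : Γ) • y) := heq
      rw [one_smul] at heq'
      have h1 : χ (g • y) = χ y := congrArg (fun l : Λ0 × Fin k => l.1.2.2.2) heq'
      exact hy2 g (Finset.mem_erase.2 ⟨hg1, hg⟩) h1
  · exact ent_map h.sm hq
  · -- the a.e. form of the walk labels
    let Ψ' : Bsh Γ → Option B → Fin k := fun y j => q (s ((ϖ y).symm (wprod (wd j)) • y))
    have hΨ' : Fm Ψ' := Fm.pi (fun j => Fm.comp_measurable (hsg (wprod (wd j))) hq)
    have e1 : entc (bern Γ ν) lb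
        (fun y => fun j : Option B => (lb (walk L (fun g => lb (g • y)) (wd j) • y)).2) =
        entc (bern Γ ν) lb Ψ' := by
      refine entc_congr_ae (Filter.Eventually.of_forall fun _ => rfl) ?_
      filter_upwards [hW] with y hy
      funext j
      have h2 : walk L (fun g => lb (g • y)) (wd j) = (ϖ y).symm (wprod (wd j)) := by
        rw [← hy (wd j), Equiv.symm_apply_apply]
      show q (s (walk L (fun g => lb (g • y)) (wd j) • y)) = q (s ((ϖ y).symm (wprod (wd j)) • y))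
      rw [h2]
    rw [e1]
    have e2 : ∀ᵐ y ∂(bern Γ ν), q (s y) = (fun v : Option B → Fin k => v none) (Ψ' y) := by
      filter_upwards [hW] with y hy
      have h0 : ϖ y 1 = 1 := hy []
      have h1 : (ϖ y).symm 1 = 1 := by
        rw [Equiv.symm_apply_eq, h0]
      show q (s y) = q (s ((ϖ y).symm (wprod (wd none)) • y))
      rw [hnone, h1, one_smul]
    let φB : (Option B → Fin k) → (B → Fin k) := fun v h => v (some h)
    have e3 : (fun y => win (lab q) B (kcf ϖ s y)) = fun y => φB (Ψ' y) := by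
      funext y h
      have h1 : ((h : Γ)⁻¹ * 1)⁻¹ = (h : Γ) := by rw [mul_one, inv_inv]
      show q (s ((ϖ y).symm ((h : Γ)⁻¹ * 1)⁻¹ • y)) = q (s ((ϖ y).symm (wprod (wd (some h))) • y))
      rw [h1, hsome]
    have h3 : entc (bern Γ ν) lb Ψ' = entc (bern Γ ν) (fun y => q (s y)) Ψ' +
        entc (bern Γ ν) l0 (fun y => (q (s y), Ψ' y)) := entc_chain hl0 hqs hΨ'
    have h4 : entc (bern Γ ν) (fun y => q (s y)) Ψ' = 0 :=
      entc_of_fun hΨ' (fun v => v none) e2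
    have h5 : entc (bern Γ ν) l0 (fun y => (q (s y), Ψ' y)) ≤ entc (bern Γ ν) l0 Ψ' :=
      entc_anti hl0 (hqs.prodMk hΨ') Prod.snd
    have h6 : entc (bern Γ ν) l0 Ψ' ≤
        entc (bern Γ ν) l0 (fun y => win (lab q) B (kcf ϖ s y)) := by
      rw [e3]
      exact entc_anti hl0 hΨ' φB
    have hwS : Fm (fun y => win (lab q) B (kcf ϖ s y)) := by
      rw [e3]
      exact hΨ'.comp φB
    have h7 : entc (bern Γ ν) l0 (fun y => win (lab q) B (kcf ϖ s y)) ≤
        entc (bern Γ ν) l0 (fun y => Φ (win (lab q) B (kcf ϖ s y))) := entc_anti hl0 hwS Φ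
    have h8 : entc (bern Γ ν) l0 (fun y => Φ (win (lab q) B (kcf ϖ s y))) ≤ ε := by
      refine hsmall _ _ _ _ hl0 (hwS.comp Φ) ?_
      refine le_trans (le_of_eq ?_) hΦ
      have hms : MeasurableSet {x | l0 (T' x) ≠ Φ (win (lab q) B x)} := by
        have hwB : Fm (win (lab (G := Γ) q) B) :=
          Fm.pi (f := fun (i : B) (y : Bsh Γ) => lab q ((i : Γ) • y))
            (fun i => Fm.comp_measurable (GLab_smul (i : Γ)) (Fm.lab (G := Γ) hq))
        have h9 : Fm (fun x => (l0 (T' x), Φ (win (lab q) B x))) := hl0T.prodMk (hwB.comp Φ)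
        exact h9.preimage {p : Λ0 × Λ0 | p.1 ≠ p.2}
      have h10 : ((bern Γ ν).map (kcf ϖ s)) {x | l0 (T' x) ≠ Φ (win (lab q) B x)} =
          (bern Γ ν) ((kcf ϖ s) ⁻¹' {x | l0 (T' x) ≠ Φ (win (lab q) B x)}) :=
        Measure.map_apply hkm hms
      rw [measureReal_def, measureReal_def, h10]
      congr 1
      apply measure_congr
      filter_upwards [h.te] with y hy
      have : (l0 y ≠ Φ (win (lab q) B (kcf ϖ s y))) =
          (l0 (T' (kcf ϖ s y)) ≠ Φ (win (lab q) B (kcf ϖ s y))) := by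
        rw [hy]
      exact this
    linarith

end H33.HN
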