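import Pool.Agent.H33.HN.GCoc
import Pool.Agent.H33.HN.GExt
import Pool.Agent.H33.HN.GRs
import Pool.Agent.H33.HN.GBd

/-! # HN.GPkg : a bounded orbit equivalence of a free factor gives a package

PROOF. `Γ := Monoid.Coprod G F`, `ι := inl` (injective). `coc_all` for `(S, T)` (`OE G ν μ S T`, roles exchanged) gives `πS` over `bern G ν`: `S (a • z) = πS z a • S z`; `coc_all` for `(T, S)` gives `πT` over `bern G μ`: `T (a • x) = πT x a • T x`. `ext_ex` gives `ϖ` from `πS` and `ϖT` from `πT`. `s y := (S (rsG ι y)) 1`: measure preserving (`rs_mp`, `h.mS`, evaluation at `1`: `bern_pi` or `measurePreserving_eval`-type). `T' x := fun h => (T (rsG ι ((ϖT x).symm h⁻¹ • x))) 1` (measurable: countably many values of `(ϖT x).symm h⁻¹`). `me`, `co`: `Ext.xc`. `bd`, `bd'`: `ext_bd`.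
`te`: for almost every `y` all of the following hold for all `c : Γ` and `a : G`, with `z := rsG ι (c • y)`: `S (a • z) = πS z a • S z`, `T (S z) = z`, `T (a • S z) = πT (S z) a • T (S z)`, `a • z ≠ z` for `a ≠ 1` (the map `y ↦ rsG ι (c • y)` preserves the measures; `free_bern`). Let `x := kcf ϖ s y`. (1) `γ • x = kcf ϖ s (c • y)` for `c := (ϖ y).symm γ`: `ϖ y (b * c) = ϖ (c • y) b * γ`. (2) `rsG ι x = S (rsG ι y)`: coordinate `g`: `s ((ϖ y).symm (ι g⁻¹) • y)` with `(ϖ y).symm (ι g⁻¹) = ι a`, `a := (πS z).symm g⁻¹`, `z = rsG ι y`: `S (a • z) 1 = (g⁻¹ • S z) 1 = S z g` (`rs_smul`).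
The same for `c • y`: `rsG ι (kcf ϖ s (c • y)) = S (rsG ι (c • y))`. (3) `πT (S z) a = (πS z).symm a`: with `b := (πS z).symm a`: `S (b • z) = a • S z`, `T (a • S z) = T (S (b • z)) = b • z = b • T (S z)` (use that `T (S (b • z)) = b • z`, which is the condition for `ι b * c`), freeness at `z`. (4) `ϖT x γ = (ϖ y).symm γ` for all `γ`, by induction: `γ = ι a * γ'`, `c' := (ϖ y).symm γ'`: `ϖT x (ι a * γ') = ι (πT (rsG ι (γ' • x)) a) * c'` and `rsG ι (γ' • x) = S (rsG ι (c' • y))` by (1), (2); `(ϖ y).symm (ι a * γ') = (ϖ (c' • y)).symm (ι a) * c' = ι ((πS (rsG ι (c' • y))).symm a) * c'`; (3). `γ = inr f * γ'`: both are `inr f * c'`.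
(5) `T' x h`: `γ := (ϖT x).symm h⁻¹`, so by (4) `(ϖ y).symm γ = h⁻¹`, and `rsG ι (γ • x) = S (rsG ι (h⁻¹ • y))`, `T (..) 1 = (rsG ι (h⁻¹ • y)) 1 = (h⁻¹ • y) 1 = y h`. -/

set_option autoImplicit false
set_option synthInstance.maxSize 4000

open MeasureTheory H31.BE

namespace H33.HN

theorem GPkg_one {G : Type} [Group G] {π : Bsh G → Equiv.Perm G} (hπ : Xc π) (y : Bsh G) :
    π y 1 = 1 := by
  have h := hπ.co y 1 1
  rw [one_smul, mul_one] at h
  exact (mul_eq_left.mp h.symm)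

theorem GPkg_shift {Γ : Type} [Group Γ] {ϖ : Bsh Γ → Equiv.Perm Γ} (hϖ : Xc ϖ) (s : Bsh Γ → ℝ)
    (y : Bsh Γ) (γ : Γ) : γ • kcf ϖ s y = kcf ϖ s ((ϖ y).symm γ • y) := by
  funext h
  rw [Bsh.smul_apply]
  show s ((ϖ y).symm (γ⁻¹ * h)⁻¹ • y) = s ((ϖ ((ϖ y).symm γ • y)).symm h⁻¹ • (ϖ y).symm γ • y)
  have h1 : (ϖ y).symm (γ⁻¹ * h)⁻¹ = (ϖ ((ϖ y).symm γ • y)).symm h⁻¹ * (ϖ y).symm γ := by
    rw [Equiv.symm_apply_eq, hϖ.co, Equiv.apply_symm_apply, Equiv.apply_symm_apply, mul_inv_rev,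
      inv_inv]
  rw [h1, mul_smul]

theorem GPkg_rs {G F : Type} [Group G] [Group F] {π : Bsh G → Equiv.Perm G}
    {ϖ : Bsh (Monoid.Coprod G F) → Equiv.Perm (Monoid.Coprod G F)} (hϖ : Ext (F := F) π ϖ)
    (S : Bsh G → Bsh G) (y : Bsh (Monoid.Coprod G F))
    (h1 : ∀ a : G, S (a • rsG Monoid.Coprod.inl y) =
      π (rsG Monoid.Coprod.inl y) a • S (rsG Monoid.Coprod.inl y)) :
    rsG Monoid.Coprod.inl (kcf ϖ (fun y => (S (rsG Monoid.Coprod.inl y)) 1) y) =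
      S (rsG Monoid.Coprod.inl y) := by
  funext g
  show (S (rsG Monoid.Coprod.inl ((ϖ y).symm (Monoid.Coprod.inl g)⁻¹ • y))) 1 = _
  have h2 : (ϖ y).symm (Monoid.Coprod.inl g)⁻¹ =
      Monoid.Coprod.inl ((π (rsG Monoid.Coprod.inl y)).symm g⁻¹) := by
    rw [Equiv.symm_apply_eq, hϖ.el, Equiv.apply_symm_apply, map_inv]
  rw [h2, rs_smul, h1, Equiv.apply_symm_apply, Bsh.smul_apply, inv_inv, mul_one]

/-- all conditions at a good point -/
def GPkg_gd {G F : Type} [Group G] [Group F] (πS πT : Bsh G → Equiv.Perm G) (S T : Bsh G → Bsh G)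
    (y : Bsh (Monoid.Coprod G F)) : Prop :=
  ∀ c : Monoid.Coprod G F,
    (∀ a : G, S (a • rsG Monoid.Coprod.inl (c • y)) =
      πS (rsG Monoid.Coprod.inl (c • y)) a • S (rsG Monoid.Coprod.inl (c • y))) ∧
    (T (S (rsG Monoid.Coprod.inl (c • y))) = rsG Monoid.Coprod.inl (c • y)) ∧
    (∀ a : G, T (a • S (rsG Monoid.Coprod.inl (c • y))) =
      πT (S (rsG Monoid.Coprod.inl (c • y))) a • T (S (rsG Monoid.Coprod.inl (c • y)))) ∧
    (∀ a : G, a ≠ 1 → a • rsG (Monoid.Coprod.inl (N := F)) (c • y) ≠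
      rsG (Monoid.Coprod.inl (N := F)) (c • y))

theorem GPkg_three {G F : Type} [Group G] [Group F] {πS πT : Bsh G → Equiv.Perm G}
    {S T : Bsh G → Bsh G} {y : Bsh (Monoid.Coprod G F)} (hy : GPkg_gd πS πT S T y)
    (c : Monoid.Coprod G F) (a : G) :
    πT (S (rsG Monoid.Coprod.inl (c • y))) a = (πS (rsG Monoid.Coprod.inl (c • y))).symm a := by
  obtain ⟨h1, h2, h3, h4⟩ := hy c
  have h5 := h1 ((πS (rsG Monoid.Coprod.inl (c • y))).symm a)
  rw [Equiv.apply_symm_apply] at h5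
  have h6 := (hy (Monoid.Coprod.inl ((πS (rsG Monoid.Coprod.inl (c • y))).symm a) * c)).2.1
  rw [mul_smul, rs_smul, h5, h3 a, h2] at h6
  by_contra h7
  refine h4 (((πS (rsG Monoid.Coprod.inl (c • y))).symm a)⁻¹ *
    πT (S (rsG Monoid.Coprod.inl (c • y))) a) ?_ ?_
  · intro h8
    exact h7 (inv_mul_eq_one.mp h8).symm
  · rw [mul_smul, h6, ← mul_smul, inv_mul_cancel, one_smul]

theorem GPkg_four {G F : Type} [Group G] [Group F] {πS πT : Bsh G → Equiv.Perm G}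
    {S T : Bsh G → Bsh G} {ϖ ϖT : Bsh (Monoid.Coprod G F) → Equiv.Perm (Monoid.Coprod G F)}
    (hϖ : Ext (F := F) πS ϖ) (hϖT : Ext (F := F) πT ϖT) {y : Bsh (Monoid.Coprod G F)}
    (hy : GPkg_gd πS πT S T y) (γ : Monoid.Coprod G F) :
    ϖT (kcf ϖ (fun y => (S (rsG Monoid.Coprod.inl y)) 1) y) γ = (ϖ y).symm γ := by
  induction γ using Monoid.Coprod.induction_on' with
  | one =>
    rw [GPkg_one hϖT.xc, eq_comm, Equiv.symm_apply_eq, GPkg_one hϖ.xc]
  | inl_mul a γ ih =>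
    rw [hϖT.xc.co, ih, hϖT.el, GPkg_shift hϖ.xc, GPkg_rs hϖ S _ (hy _).1, GPkg_three hy,
      eq_comm, Equiv.symm_apply_eq, hϖ.xc.co, Equiv.apply_symm_apply, hϖ.el,
      Equiv.apply_symm_apply]
  | inr_mul f γ ih =>
    rw [hϖT.xc.co, ih, hϖT.er, eq_comm, Equiv.symm_apply_eq, hϖ.xc.co, Equiv.apply_symm_apply,
      hϖ.er]

theorem GPkg_five {G F : Type} [Group G] [Group F] {πS πT : Bsh G → Equiv.Perm G}
    {S T : Bsh G → Bsh G} {ϖ ϖT : Bsh (Monoid.Coprod G F) → Equiv.Perm (Monoid.Coprod G F)}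
    (hϖ : Ext (F := F) πS ϖ) (hϖT : Ext (F := F) πT ϖT) {y : Bsh (Monoid.Coprod G F)}
    (hy : GPkg_gd πS πT S T y) (h : Monoid.Coprod G F) :
    (T (rsG Monoid.Coprod.inl
      ((ϖT (kcf ϖ (fun y => (S (rsG Monoid.Coprod.inl y)) 1) y)).symm h⁻¹ •
        kcf ϖ (fun y => (S (rsG Monoid.Coprod.inl y)) 1) y))) 1 = y h := by
  have h1 : (ϖ y).symm ((ϖT (kcf ϖ (fun y => (S (rsG Monoid.Coprod.inl y)) 1) y)).symm h⁻¹) =
      h⁻¹ := by
    rw [← GPkg_four hϖ hϖT hy, Equiv.apply_symm_apply]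
  rw [GPkg_shift hϖ.xc, h1, GPkg_rs hϖ S _ (hy _).1, (hy _).2.1]
  show (h⁻¹ • y) (Monoid.Coprod.inl 1) = y h
  rw [Bsh.smul_apply, map_one, inv_inv, mul_one]

theorem GPkg_cnt {G F : Type} [Group G] [Group F] [Countable G] [Countable F] :
    Countable (Monoid.Coprod G F) := by
  unfold Monoid.Coprod
  exact Quotient.countable

theorem pkg_ex {G F : Type} [Group G] [Group F] [Countable G] [Countable F] [DecidableEq G] [Infinite G]
    (μ ν : Measure ℝ) [IsProbabilityMeasure μ] [IsProbabilityMeasure ν] (hμ : Nontriv μ) (hν : Nontriv ν)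
    (T S : Bsh G → Bsh G) (h : OE G μ ν T S) :
    ∃ (ϖ : Bsh (Monoid.Coprod G F) → Equiv.Perm (Monoid.Coprod G F)) (s : Bsh (Monoid.Coprod G F) → ℝ)
      (T' : Bsh (Monoid.Coprod G F) → Bsh (Monoid.Coprod G F)), Pkg μ ν ϖ s T' := by
  classical
  have hcn : Countable (Monoid.Coprod G F) := GPkg_cnt
  have h' : OE G ν μ S T := ⟨h.mS, h.mT, h.TS, h.ST, h.bS, h.bT⟩
  obtain ⟨πS, hS1, hS2, hS3, hS4⟩ := coc_all ν μ hν hμ S T h'
  obtain ⟨πT, hT1, hT2, -, -⟩ := coc_all μ ν hμ hν T S h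
  obtain ⟨ϖ, hϖ⟩ := ext_ex (F := F) πS hS1
  obtain ⟨ϖT, hϖT⟩ := ext_ex (F := F) πT hT1
  have hinj : Function.Injective (Monoid.Coprod.inl : G →* Monoid.Coprod G F) :=
    Monoid.Coprod.inl_injective
  have hrs := rs_mp (Monoid.Coprod.inl : G →* Monoid.Coprod G F) hinj ν
  refine ⟨ϖ, fun y => (S (rsG Monoid.Coprod.inl y)) 1,
    fun x h => (T (rsG Monoid.Coprod.inl ((ϖT x).symm h⁻¹ • x))) 1, ?_⟩
  constructor
  · exact hϖ.xc.me
  · exact Filter.Eventually.of_forall fun y a b => hϖ.xc.co y a b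
  · exact fun a => (ext_bd ν πS hS3 hS4 ϖ hϖ a).1
  · exact fun a => (ext_bd ν πS hS3 hS4 ϖ hϖ a).2
  · have h1 : MeasurePreserving (fun y : Bsh G => y 1) (bern G μ) μ :=
      measurePreserving_eval_infinitePi (fun _ : G => μ) 1
    exact (h1.comp h.mS).comp hrs
  · refine measurable_pi_iff.2 fun k => ?_
    have h1 : ∀ b : Monoid.Coprod G F, Measurable
        (fun x : Bsh (Monoid.Coprod G F) => (T (rsG Monoid.Coprod.inl (b • x))) 1) := by
      intro b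
      exact (measurable_eval (1 : G)).comp
        (h.mT.measurable.comp (hrs.measurable.comp (inv_bern (G := Monoid.Coprod G F) ν b).measurable))
    intro A hA
    have h2 : (fun x : Bsh (Monoid.Coprod G F) =>
        (T (rsG Monoid.Coprod.inl ((ϖT x).symm k⁻¹ • x))) 1) ⁻¹' A =
        ⋃ b : Monoid.Coprod G F, {x | ϖT x b = k⁻¹} ∩
          (fun x : Bsh (Monoid.Coprod G F) => (T (rsG Monoid.Coprod.inl (b • x))) 1) ⁻¹' A := by
      ext x
      rw [Set.mem_iUnion]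
      constructor
      · intro hx
        exact ⟨(ϖT x).symm k⁻¹, Equiv.apply_symm_apply _ _, hx⟩
      · rintro ⟨b, hb, hx⟩
        have h3 : (ϖT x).symm k⁻¹ = b := by
          rw [Equiv.symm_apply_eq]
          exact hb.symm
        show (T (rsG Monoid.Coprod.inl ((ϖT x).symm k⁻¹ • x))) 1 ∈ A
        rw [h3]
        exact hx
    rw [h2]
    exact MeasurableSet.iUnion fun b => (hϖT.xc.me b k⁻¹).inter (h1 b hA)
  · have hgd : ∀ᵐ y ∂(bern (Monoid.Coprod G F) ν), GPkg_gd πS πT S T y := by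
      unfold GPkg_gd
      rw [ae_all_iff]
      intro c
      have hz : ∀ᵐ z ∂(bern G ν), (∀ a : G, S (a • z) = πS z a • S z) ∧ (T (S z) = z) ∧
          (∀ a : G, T (a • S z) = πT (S z) a • T (S z)) ∧ (∀ a : G, a ≠ 1 → a • z ≠ z) := by
        have h5 : ∀ᵐ z ∂(bern G ν), ∀ a : G, T (a • S z) = πT (S z) a • T (S z) :=
          h.mS.quasiMeasurePreserving.ae hT2
        have h6 : ∀ᵐ z ∂(bern G ν), ∀ a : G, a ≠ 1 → a • z ≠ z := by
          rw [ae_all_iff]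
          intro a
          by_cases ha : a = 1
          · exact Filter.Eventually.of_forall fun z h0 => absurd ha h0
          · filter_upwards [free_bern ν hν a ha] with z hz _ using hz
        filter_upwards [hS2, h.TS, h5, h6] with z e1 e2 e3 e4 using ⟨e1, e2, e3, e4⟩
      exact (hrs.comp (inv_bern (G := Monoid.Coprod G F) ν c)).quasiMeasurePreserving.ae hz
    filter_upwards [hgd] with y hy
    funext k
    exact GPkg_five hϖ hϖT hy k

end H33.HN
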