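import Pool.Agent.H33.HN.DefsK
import Pool.Agent.H33.BO.DirC

/-! # HN.MlwA : existence of the law of the marks

PROOF. The weights `a c := ∏ i, if c i then p else 1 - p`, `c : Fin m → Bool`, are nonnegative and sum to `(p + (1 - p))^m = 1` (`Finset.prod_add`-type or `Finset.prod_univ_sum`: `∑ c, ∏ i, f i (c i) = ∏ i, ∑ b, f i b`). Let `e : (Fin m → Bool) → ℝ` be injective (e.g. `fun c => (Fintype.equivFin _ c : ℝ)`), `ζ := ∑ c, ENNReal.ofReal (a c) • Measure.dirac (e c)`, `qm x := c` if `x = e c` and a fixed value otherwise (`Fm`: the preimage of every point is a finite set or the complement of a finite set). -/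

set_option autoImplicit false
set_option synthInstance.maxSize 4000

open MeasureTheory H31.BE

namespace H33.HN

theorem mlw_ex (m : ℕ) (p : ℝ) (h0 : 0 ≤ p) (h1 : p ≤ 1) :
    ∃ (ζ : Measure ℝ) (_ : IsProbabilityMeasure ζ) (qm : ℝ → Fin m → Bool), Mlw p ζ qm := by
  classical
  have h1' : 0 ≤ 1 - p := by linarith
  let β : Measure Bool := ENNReal.ofReal p • Measure.dirac true +
    ENNReal.ofReal (1 - p) • Measure.dirac false
  have hβ : IsProbabilityMeasure β := by
    refine ⟨?_⟩
    show (ENNReal.ofReal p • Measure.dirac true +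
      ENNReal.ofReal (1 - p) • Measure.dirac false : Measure Bool) Set.univ = 1
    rw [Measure.add_apply, Measure.smul_apply, Measure.smul_apply, measure_univ, measure_univ,
      smul_eq_mul, smul_eq_mul, mul_one, mul_one, ← ENNReal.ofReal_add h0 h1']
    simp
  have hβ1 : ∀ b : Bool, β {b} = ENNReal.ofReal (if b = true then p else 1 - p) := by
    intro b
    show (ENNReal.ofReal p • Measure.dirac true +
      ENNReal.ofReal (1 - p) • Measure.dirac false : Measure Bool) {b} = _
    rw [Measure.add_apply, Measure.smul_apply, Measure.smul_apply, smul_eq_mul, smul_eq_mul,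
      Measure.dirac_apply' _ (measurableSet_singleton b),
      Measure.dirac_apply' _ (measurableSet_singleton b)]
    cases b <;> simp
  let μ : Measure (Fin m → Bool) := Measure.pi fun _ => β
  let e : (Fin m → Bool) → ℝ := fun c => ((Fintype.equivFin (Fin m → Bool) c : ℕ) : ℝ)
  have he : Function.Injective e := by
    intro c c' h
    have h2 : ((Fintype.equivFin (Fin m → Bool) c : ℕ) : ℝ) =
      ((Fintype.equivFin (Fin m → Bool) c' : ℕ) : ℝ) := h
    exact (Fintype.equivFin (Fin m → Bool)).injective (Fin.ext (Nat.cast_injective h2))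
  have hme : Measurable e := measurable_of_countable e
  let S : Fin m → Set ℝ := fun i => e '' {c | c i = true}
  have hS : ∀ i, MeasurableSet (S i) := fun i => ((Set.toFinite {c | c i = true}).image e).measurableSet
  let qm : ℝ → Fin m → Bool := fun x i => decide (x ∈ S i)
  have hq : ∀ c, qm (e c) = c := by
    intro c
    funext i
    show decide (e c ∈ S i) = c i
    have h2 : e c ∈ S i ↔ c i = true := by
      constructor
      · rintro ⟨c', h3, h4⟩
        rw [← he h4]
        exact h3
      · intro h3
        exact ⟨c, h3, rfl⟩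
    cases h3 : c i
    · rw [decide_eq_false_iff_not, h2, h3]
      exact Bool.false_ne_true
    · rw [decide_eq_true_iff, h2, h3]
  have hF : Fm qm := by
    intro a
    have h2 : qm ⁻¹' {a} = ⋂ i, {x | decide (x ∈ S i) = a i} := by
      ext x
      rw [Set.mem_preimage, Set.mem_singleton_iff, Set.mem_iInter, funext_iff]
      exact Iff.rfl
    rw [h2]
    refine MeasurableSet.iInter fun i => ?_
    cases h3 : a i
    · have h4 : {x | decide (x ∈ S i) = false} = (S i)ᶜ := by
        ext x
        simp
      rw [h4]
      exact (hS i).compl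
    · have h4 : {x | decide (x ∈ S i) = true} = S i := by
        ext x
        simp
      rw [h4]
      exact hS i
  have hζ : IsProbabilityMeasure (μ.map e) := Measure.isProbabilityMeasure_map hme.aemeasurable
  refine ⟨μ.map e, hζ, qm, h0, h1, hF, fun c => ?_⟩
  have h5 : e ⁻¹' {x | qm x = c} = {c} := by
    ext c'
    rw [Set.mem_preimage, Set.mem_setOf_eq, hq, Set.mem_singleton_iff]
  have h6 : MeasurableSet {x | qm x = c} := hF c
  rw [measureReal_def, Measure.map_apply hme h6, h5]
  show (Measure.pi (fun _ => β) {c}).toReal = _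
  rw [Measure.pi_singleton, ENNReal.toReal_prod]
  refine Finset.prod_congr rfl fun i _ => ?_
  rw [hβ1, ENNReal.toReal_ofReal]
  split_ifs <;> assumption

end H33.HN
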