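import Pool.Agent.H33.HN.IndA
import Pool.Agent.H33.HN.ShpA
import Pool.Agent.H33.HN.FdC

/-! # HN.PrbA : probabilities of roots and of edges that are not T-edges

PROOF. `dr_le`: `sg_none`, `mk_one` (`h = 1`) and the union bound. `ts_le`: `s = inr i`. If `dX (sgm i t') = some (ln i)` for `t' := sf (gw (sc (ln i)))⁻¹ t` then `TS (dX U V) s (ws s (wG g σ t))` with the witness `⟨ln i, _⟩` (`lp (ln i) = inr i`, `(sc (ln i)).1 = i`). So the event is contained in the preimage under `m ↦ (gw (sc (ln i)))⁻¹ • m` (`tq_smul`, `inv_bern`) of `{t 1 i = true} ∪ {sw i t} ∪ {no stop}` (`sg_line`). `P(sw) ≤ P(∃ n ≤ N, t (ve i ^ n * g (inr i)) i = true) ≤ (N + 1) p` (fourth condition, `mk_one`). All functions of `t = tq qm y` here are local, so measurable (`real` measures of subsets: `measureReal_mono`, `measureReal_union_le` need no measurability). -/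

set_option autoImplicit false
set_option synthInstance.maxSize 4000

open MeasureTheory H31.BE

namespace H33.HN

variable {k m : ℕ} {U V : Fin m → Wl k} {G : Type} [Group G] [DecidableEq G] (g : Lh k m → G)
  (hg : Pres (rh U V) g) (hy : Hyp U V)

private theorem PrbA_inv [Countable G] (ζ : Measure ℝ) [IsProbabilityMeasure ζ] (h : G) (s : Set (Bsh G)) :
    (bern G ζ).real ((fun y => h • y) ⁻¹' s) = (bern G ζ).real s := by
  have m1 := (inv_bern (G := G) ζ h).measurable
  have m2 := (inv_bern (G := G) ζ h⁻¹).measurable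
  let e : Bsh G ≃ᵐ Bsh G :=
    { toFun := fun y => h • y
      invFun := fun y => h⁻¹ • y
      left_inv := fun y => inv_smul_smul h y
      right_inv := fun y => smul_inv_smul h y
      measurable_toFun := m1
      measurable_invFun := m2 }
  have h1 : MeasurePreserving e (bern G ζ) (bern G ζ) := inv_bern (G := G) ζ h
  have h2 := h1.measure_preimage_equiv s
  rw [measureReal_def, measureReal_def, ← h2]
  rfl

theorem dr_le [Countable G] (N L : ℕ) (p : ℝ) (ζ : Measure ℝ) [IsProbabilityMeasure ζ] (qm : ℝ → Fin m → Bool)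
    (hm : Mlw p ζ qm) (i : Fin m) (ov : ℝ)
    (hov : (bern G ζ).real {y | fs (2 * N) (fun n => stp U V g N L i (sf (ve V g i ^ n) (tq qm y))) = none} ≤ ov) :
    dr U V g N L ζ qm i ≤ p + ov := by
  unfold dr
  have h1 : {z : Bsh G | dX U V (sgm U V g N L i (tq qm z)) = none} ⊆ {y : Bsh G | tq qm y 1 i = true} ∪
      {y | fs (2 * N) (fun n => stp U V g N L i (sf (ve V g i ^ n) (tq qm y))) = none} :=
    fun z hz => sg_none g N L i _ hz
  have h2 := mk_one (G := G) p ζ qm hm i 1
  have h3 := (measureReal_mono (μ := bern G ζ) h1).trans (measureReal_union_le _ _)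
  linarith

theorem ts_le [Countable G] (N L : ℕ) (p : ℝ) (ζ : Measure ℝ) [IsProbabilityMeasure ζ] (qm : ℝ → Fin m → Bool)
    (hm : Mlw p ζ qm) (i : Fin m) (ov : ℝ)
    (hov : (bern G ζ).real {y | fs (2 * N) (fun n => stp U V g N L i (sf (ve V g i ^ n) (tq qm y))) = none} ≤ ov) :
    (bern G ζ).real {y | ¬ TS (dX U V) (Sum.inr i) (ws (Sum.inr i) (wG g (sgm U V g N L) (tq qm y)))} ≤
      (N + 2) * p + ov := by
  have hlp : lp (ln U V i) = Sum.inr i := (((al_ln i (lo U V i)).2 rfl).1).symm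
  set h : G := (FreeGroup.lift g (cw (sc (ln U V i))))⁻¹ with hh
  have h1 : {y : Bsh G | ¬ TS (dX U V) (Sum.inr i) (ws (Sum.inr i) (wG g (sgm U V g N L) (tq qm y)))} ⊆
      (fun y => h • y) ⁻¹' {y : Bsh G | dX U V (sgm U V g N L i (tq qm y)) ≠ some (ln U V i)} := by
    intro y hy1 hy2
    refine hy1 ⟨⟨ln U V i, hlp⟩, ?_⟩
    show dX U V (sgm U V g N L (sc (ln U V i)).1 (sf (FreeGroup.lift g (cw (sc (ln U V i))))⁻¹ (tq qm y))) = _
    rw [← hh, ← tq_smul, sc_fst]
    exact hy2
  have h2 : {y : Bsh G | dX U V (sgm U V g N L i (tq qm y)) ≠ some (ln U V i)} ⊆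
      {y : Bsh G | tq qm y 1 i = true} ∪ ((⋃ n ∈ Finset.range (N + 1),
        {y : Bsh G | tq qm y (ve V g i ^ n * g (Sum.inr i)) i = true}) ∪
      {y | fs (2 * N) (fun n => stp U V g N L i (sf (ve V g i ^ n) (tq qm y))) = none}) := by
    intro y hy1
    rcases sg_line g N L i (tq qm y) hy1 with h3 | h3 | h3
    · exact Or.inl h3
    · refine Or.inr (Or.inl ?_)
      obtain ⟨n, hn, h4⟩ := h3.2.2.2
      exact Set.mem_biUnion (Finset.mem_coe.2 (Finset.mem_range.2 (Nat.lt_succ_of_le hn))) h4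
    · exact Or.inr (Or.inr h3)
  have h3 := (measureReal_mono (μ := bern G ζ) h1).trans (le_of_eq (PrbA_inv ζ h _))
  have h4 := (measureReal_mono (μ := bern G ζ) h2).trans (measureReal_union_le _ _)
  have h5 := measureReal_union_le (μ := bern G ζ) (⋃ n ∈ Finset.range (N + 1),
        {y : Bsh G | tq qm y (ve V g i ^ n * g (Sum.inr i)) i = true})
      {y | fs (2 * N) (fun n => stp U V g N L i (sf (ve V g i ^ n) (tq qm y))) = none}
  have h6 := measureReal_biUnion_finset_le (μ := bern G ζ) (Finset.range (N + 1))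
    (fun n => {y : Bsh G | tq qm y (ve V g i ^ n * g (Sum.inr i)) i = true})
  have h7 : ∀ n ∈ Finset.range (N + 1), (bern G ζ).real {y : Bsh G | tq qm y (ve V g i ^ n * g (Sum.inr i)) i = true} =
      p := fun n _ => mk_one p ζ qm hm i _
  rw [Finset.sum_congr rfl h7, Finset.sum_const, Finset.card_range, nsmul_eq_mul] at h6
  have h8 := mk_one (G := G) p ζ qm hm i 1
  push_cast at h6
  linarith

end H33.HN
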