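import Pool.Agent.H33.HN.Defs

/-! # HN.RatH : the choice of the density

PROOF. `N := n^(2 Q)`, `p := 1 / (n^(2 Q) * n)`, `n ≥ 1` large: `N p = 1 / n ≤ 1`, `p ≤ 1`, `κ N (N p)^Q = κ n^(2 Q) / n^Q = κ n^Q ≥ κ n`, so `ov := exp (..) ≤ exp (- κ n)`... For the second inequality `ov * (N + 1) * log (N + 2)` with `N = n^(2 Q)` and `ov = exp (- κ n^Q) = exp (- κ √N)`: tends to 0 (`(N + 1) log (N + 2) ≤ (N + 2)^2 ≤ (2 n^(2 Q))^2 = 4 x^4` with `x = n^Q`, and `x^4 exp (- κ x) → 0`). `p (N + 1) log (N + 2) ≤ (2 / n) * log (n^(2 Q) + 2) ≤ (2 / n) (2 Q + 2) log (n + 1) → 0`.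
`((N + 2) p + ov) log (N + 2) ≤ (3 / n) log (N + 2) + ..` the same. `exp (- N) (N + 1) log (N + 2) → 0`. Use `Filter.Tendsto` statements (`Real.tendsto_pow_mul_exp_neg_atTop_nhds_zero`, `Real.isLittleO_log_id_atTop`-type) and choose `n` with `n ≥ N1` (`N ≥ n`). -/

set_option autoImplicit false
set_option synthInstance.maxSize 4000

open MeasureTheory H31.BE

namespace H33.HN

open Filter Topology in
private lemma RatH_exp (c : ℝ) (hc : 0 < c) :
    Tendsto (fun y : ℝ => Real.exp (-(c * y)) * ((y ^ 2 + 2) * (2 + 2 * y))) atTop (𝓝 0) := by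
  have key : ∀ k : ℕ, Tendsto (fun y : ℝ => y ^ k * Real.exp (-(c * y))) atTop (𝓝 0) := by
    intro k
    have h := tendsto_rpow_mul_exp_neg_mul_atTop_nhds_zero (k : ℝ) c hc
    refine h.congr fun y => ?_
    rw [Real.rpow_natCast, neg_mul]
  have h := (((key 3).const_mul 2).add ((key 2).const_mul 2)).add
    (((key 1).const_mul 4).add ((key 0).const_mul 4))
  simp only [mul_zero, add_zero] at h
  refine h.congr fun y => ?_
  ring

open Filter Topology in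
theorem ratH (Q : ℕ) (hQ : 1 ≤ Q) (κ C : ℝ) (hκ : 0 < κ) (hC : 0 ≤ C) (N1 : ℕ) : ∃ (N : ℕ) (p : ℝ), N1 ≤ N ∧ 1 ≤ N ∧
    0 ≤ p ∧ p ≤ 1 ∧ N * p ≤ 1 ∧
    C * ((N + 2) * p + Real.exp (-(κ * N * (N * p) ^ Q))) * Real.log (N + 2) ≤ 1 ∧
    C * (p + Real.exp (-(κ * N * (N * p) ^ Q)) + Real.exp (-N)) * (N + 1) * Real.log (N + 2) ≤ 1 := by
  have hcast : Tendsto (fun n : ℕ => (n : ℝ)) atTop atTop := tendsto_natCast_atTop_atTop
  have ha : Tendsto (fun n : ℕ => 3 * (1 / (n : ℝ)) * (2 + 2 * Q * Real.log n)) atTop (𝓝 0) := by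
    have h1 : Tendsto (fun n : ℕ => 1 / (n : ℝ)) atTop (𝓝 0) := tendsto_one_div_atTop_nhds_zero_nat
    have h2 : Tendsto (fun n : ℕ => Real.log n / (n : ℝ)) atTop (𝓝 0) :=
      (Real.isLittleO_log_id_atTop.tendsto_div_nhds_zero).comp hcast
    have h := (h1.const_mul 6).add (h2.const_mul (6 * (Q : ℝ)))
    simp only [mul_zero, add_zero] at h
    refine h.congr fun n => ?_
    ring
  have hpow : Tendsto (fun n : ℕ => (n : ℝ) ^ Q) atTop atTop :=
    (tendsto_pow_atTop (by omega)).comp hcast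
  have hb := (RatH_exp κ hκ).comp hpow
  have hc := (RatH_exp 1 one_pos).comp hpow
  have hsum := ((ha.add hb).add hc).const_mul C
  simp only [add_zero, mul_zero] at hsum
  have hev := hsum.eventually_le_const (show (0 : ℝ) < 1 by norm_num)
  obtain ⟨n, hn1, hnN, hn⟩ := ((eventually_ge_atTop 1).and ((eventually_ge_atTop N1).and hev)).exists
  have hnr : (1 : ℝ) ≤ n := by exact_mod_cast hn1
  have hn0 : (0 : ℝ) < n := by linarith
  simp only [Function.comp] at hn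
  set y : ℝ := (n : ℝ) ^ Q with hy
  have hy1 : 1 ≤ y := one_le_pow₀ hnr
  have hNy : ((n ^ (2 * Q) : ℕ) : ℝ) = y ^ 2 := by
    rw [hy]; push_cast; ring
  have hlog : Real.log y = Q * Real.log n := by rw [hy, Real.log_pow]
  have hlogy : Real.log y ≤ y := by
    have := Real.log_le_sub_one_of_pos (show 0 < y by linarith); linarith
  have hlogn0 : 0 ≤ Real.log n := Real.log_nonneg hnr
  have hy2 : 1 ≤ y ^ 2 := one_le_pow₀ hy1
  have hL : Real.log (y ^ 2 + 2) ≤ 2 + 2 * Q * Real.log n := by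
    have h1 : Real.log (y ^ 2 + 2) ≤ Real.log (3 * y ^ 2) :=
      Real.log_le_log (by positivity) (by linarith)
    have h2 : Real.log (3 * y ^ 2) = Real.log 3 + 2 * Real.log y := by
      rw [Real.log_mul (by norm_num) (by positivity), Real.log_pow]; norm_num
    have h3 : Real.log 3 ≤ 2 := by
      have := Real.log_le_sub_one_of_pos (show (0 : ℝ) < 3 by norm_num); linarith
    rw [h2, hlog] at h1
    linarith
  have hL0 : 0 ≤ Real.log (y ^ 2 + 2) := Real.log_nonneg (by linarith)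
  have hLy : Real.log (y ^ 2 + 2) ≤ 2 + 2 * y := by
    have : 2 * Q * Real.log n = 2 * Real.log y := by rw [hlog]; ring
    linarith
  refine ⟨n ^ (2 * Q), 1 / (y ^ 2 * n), ?_, Nat.one_le_pow _ _ (by omega), by positivity, ?_, ?_, ?_, ?_⟩
  · exact hnN.trans (Nat.le_self_pow (by omega) n)
  · rw [div_le_one (by positivity)]
    nlinarith
  · rw [hNy]
    have : y ^ 2 * (1 / (y ^ 2 * n)) = 1 / n := by field_simp
    rw [this, div_le_one hn0]
    exact hnr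
  · rw [hNy]
    have e1 : y ^ 2 * (1 / (y ^ 2 * n)) = 1 / n := by field_simp
    have e2 : κ * y ^ 2 * (y ^ 2 * (1 / (y ^ 2 * n))) ^ Q = κ * y := by
      rw [e1, one_div, inv_pow, ← hy]
      field_simp
    rw [e2]
    have e3 : (y ^ 2 + 2) * (1 / (y ^ 2 * n)) ≤ 3 * (1 / n) := by
      rw [mul_one_div, mul_one_div, div_le_div_iff₀ (by positivity) hn0]
      nlinarith
    have hexp : 0 ≤ Real.exp (-(κ * y)) := (Real.exp_pos _).le
    have hexp1 : 0 ≤ Real.exp (-(1 * y)) := (Real.exp_pos _).le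
    have hA : (y ^ 2 + 2) * (1 / (y ^ 2 * n)) * Real.log (y ^ 2 + 2) ≤ 3 * (1 / n) * (2 + 2 * Q * Real.log n) :=
      mul_le_mul e3 hL hL0 (by positivity)
    have hB : Real.exp (-(κ * y)) * Real.log (y ^ 2 + 2) ≤ Real.exp (-(κ * y)) * ((y ^ 2 + 2) * (2 + 2 * y)) := by
      refine mul_le_mul_of_nonneg_left (hLy.trans ?_) hexp
      nlinarith
    have hCc : 0 ≤ Real.exp (-(1 * y)) * ((y ^ 2 + 2) * (2 + 2 * y)) := by positivity
    calc C * ((y ^ 2 + 2) * (1 / (y ^ 2 * n)) + Real.exp (-(κ * y))) * Real.log (y ^ 2 + 2)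
        = C * ((y ^ 2 + 2) * (1 / (y ^ 2 * n)) * Real.log (y ^ 2 + 2) + Real.exp (-(κ * y)) * Real.log (y ^ 2 + 2)) := by ring
      _ ≤ C * (3 * (1 / n) * (2 + 2 * Q * Real.log n) + Real.exp (-(κ * y)) * ((y ^ 2 + 2) * (2 + 2 * y)) +
          Real.exp (-(1 * y)) * ((y ^ 2 + 2) * (2 + 2 * y))) := by
          refine mul_le_mul_of_nonneg_left ?_ hC
          linarith
      _ ≤ 1 := hn
  · rw [hNy]
    have e1 : y ^ 2 * (1 / (y ^ 2 * n)) = 1 / n := by field_simp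
    have e2 : κ * y ^ 2 * (y ^ 2 * (1 / (y ^ 2 * n))) ^ Q = κ * y := by
      rw [e1, one_div, inv_pow, ← hy]
      field_simp
    rw [e2]
    have e3 : (1 / (y ^ 2 * n)) * (y ^ 2 + 1) ≤ 3 * (1 / n) := by
      rw [one_div_mul_eq_div, mul_one_div, div_le_div_iff₀ (by positivity) hn0]
      nlinarith
    have hexp : 0 ≤ Real.exp (-(κ * y)) := (Real.exp_pos _).le
    have hyy : y ≤ y ^ 2 := by nlinarith
    have hexp1 : Real.exp (-(y ^ 2)) ≤ Real.exp (-(1 * y)) := Real.exp_le_exp.mpr (by linarith)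
    have hA : (1 / (y ^ 2 * n)) * (y ^ 2 + 1) * Real.log (y ^ 2 + 2) ≤ 3 * (1 / n) * (2 + 2 * Q * Real.log n) :=
      mul_le_mul e3 hL hL0 (by positivity)
    have hM : (y ^ 2 + 1) * Real.log (y ^ 2 + 2) ≤ (y ^ 2 + 2) * (2 + 2 * y) :=
      mul_le_mul (by linarith) hLy hL0 (by positivity)
    have hM0 : 0 ≤ (y ^ 2 + 1) * Real.log (y ^ 2 + 2) := mul_nonneg (by positivity) hL0
    have hB : Real.exp (-(κ * y)) * ((y ^ 2 + 1) * Real.log (y ^ 2 + 2)) ≤ Real.exp (-(κ * y)) * ((y ^ 2 + 2) * (2 + 2 * y)) :=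
      mul_le_mul_of_nonneg_left hM hexp
    have hD : Real.exp (-(y ^ 2)) * ((y ^ 2 + 1) * Real.log (y ^ 2 + 2)) ≤ Real.exp (-(1 * y)) * ((y ^ 2 + 2) * (2 + 2 * y)) :=
      mul_le_mul hexp1 hM hM0 (Real.exp_pos _).le
    calc C * (1 / (y ^ 2 * n) + Real.exp (-(κ * y)) + Real.exp (-(y ^ 2))) * (y ^ 2 + 1) * Real.log (y ^ 2 + 2)
        = C * ((1 / (y ^ 2 * n)) * (y ^ 2 + 1) * Real.log (y ^ 2 + 2) + Real.exp (-(κ * y)) * ((y ^ 2 + 1) * Real.log (y ^ 2 + 2)) +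
          Real.exp (-(y ^ 2)) * ((y ^ 2 + 1) * Real.log (y ^ 2 + 2))) := by ring
      _ ≤ C * (3 * (1 / n) * (2 + 2 * Q * Real.log n) + Real.exp (-(κ * y)) * ((y ^ 2 + 2) * (2 + 2 * y)) +
          Real.exp (-(1 * y)) * ((y ^ 2 + 2) * (2 + 2 * y))) := by
          refine mul_le_mul_of_nonneg_left ?_ hC
          linarith
      _ ≤ 1 := hn

end H33.HN
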