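import Pool.Agent.H33.HN.OvB
import Pool.Agent.H33.HN.PrbA
import Pool.Agent.H33.HN.RatH
import Pool.Agent.H33.HN.CntH
import Pool.Agent.H33.HN.MlwA

/-! # HN.NumH : the choice of all parameters (paper 5.6)

PROOF. `C1` (the maximum of the constants) from `cnt_PX`, `cnt_bag`, `cnt_Sx`; `Q1, κ, N1` from `ovb`. Let `λN := (l0 * (Nat.card (Option (Ps r)))^m * (3 N + 2)^m)^R'`, so `λN + 2 ≤ (N + 2)^c` for a constant `c` (depends on `l0`, `R'`, `m`, `card (Ps r)`; `3 N + 2 ≤ (N + 2)^2`, constants `≤ 2^.. ≤ (N + 2)^..`). `card (PX) ≤ (λN + 2)^(C1 (N + 1)) ≤ (N + 2)^(c C1 (N + 1))`, the same for `Bag`: `log ≤ c C1 (N + 1) log (N + 2)`. `Q := 2^(3 N + 2) + (3 N + 2) + (N + 2)^(c C1 (N + 1)) + (N + 2)^c + 2`: `log (Q + 2) ≤ C4 (N + 1) log (N + 2)`.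
Let `C` be large (depends on `C0`, `m`, `C1`, `c`, `C4`), `ratH` gives `N ≥ max N1 1`, `p`; `mlw_ex` gives `ζ`, `qm`. `ov := exp (..)`: `dr i ≤ p + ov` (`dr_le`, `ovb`), `1 / Q ≤ 2^(-(3 N + 2)) ≤ exp (- N)`. `∑ s, (if s is an x-letter then 0 else 1 + P(¬ TS) log (card ..)) ≤ m (1 + ((N + 2) p + ov) C1 log (N + 2)) ≤ 2 m` (`ts_le`; `Fintype.sum_sum_type`). The other two inequalities from the second inequality of `ratH`. -/

set_option autoImplicit false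
set_option synthInstance.maxSize 4000

open MeasureTheory H31.BE

namespace H33.HN

variable {k m : ℕ} {U V : Fin m → Wl k} {G : Type} [Group G] [DecidableEq G] (g : Lh k m → G)
  (hg : Pres (rh U V) g) (hy : Hyp U V)

private theorem NumH_log {n b : ℕ} (h : n ≤ b) (hb : 1 ≤ b) : Real.log n ≤ Real.log b := by
  rcases Nat.eq_zero_or_pos n with h0 | h0
  · subst h0
    simp only [Nat.cast_zero, Real.log_zero]
    exact Real.log_nonneg (by exact_mod_cast hb)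
  · exact Real.log_le_log (by exact_mod_cast h0) (by exact_mod_cast h)

private theorem NumH_logp {n N e : ℕ} (h : n ≤ (N + 2) ^ e) : Real.log n ≤ e * Real.log (N + 2) := by
  have h1 := NumH_log h (Nat.one_le_pow _ _ (by omega))
  have h2 : Real.log (((N + 2) ^ e : ℕ) : ℝ) = e * Real.log (N + 2) := by
    push_cast
    rw [Real.log_pow]
  rw [← h2]
  exact h1

private theorem NumH_lam (l0 R' m P N : ℕ) :
    (l0 * (P ^ m * (3 * N + 2) ^ m)) ^ R' + 2 ≤ (N + 2) ^ ((l0 + P * m + 2 * m) * R' + 2) := by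
  have hb : 1 ≤ N + 2 := by omega
  have h1 : l0 ≤ (N + 2) ^ l0 := (Nat.lt_pow_self (by omega)).le
  have h2 : P ^ m ≤ (N + 2) ^ (P * m) := by
    rw [pow_mul]
    exact Nat.pow_le_pow_left (Nat.lt_pow_self (by omega)).le m
  have h3 : (3 * N + 2) ^ m ≤ (N + 2) ^ (2 * m) := by
    rw [pow_mul]
    exact Nat.pow_le_pow_left (by nlinarith) m
  have h4 : (l0 * (P ^ m * (3 * N + 2) ^ m)) ^ R' ≤ (N + 2) ^ ((l0 + P * m + 2 * m) * R') := by
    rw [pow_mul]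
    apply Nat.pow_le_pow_left
    calc l0 * (P ^ m * (3 * N + 2) ^ m) ≤ (N + 2) ^ l0 * ((N + 2) ^ (P * m) * (N + 2) ^ (2 * m)) :=
          Nat.mul_le_mul h1 (Nat.mul_le_mul h2 h3)
      _ = (N + 2) ^ (l0 + P * m + 2 * m) := by rw [← pow_add, ← pow_add]; ring_nf
  have h5 : 1 ≤ (N + 2) ^ ((l0 + P * m + 2 * m) * R') := Nat.one_le_pow _ _ (by omega)
  rw [pow_add]
  have h6 : 4 ≤ (N + 2) ^ 2 := by nlinarith
  calc (l0 * (P ^ m * (3 * N + 2) ^ m)) ^ R' + 2 ≤ (N + 2) ^ ((l0 + P * m + 2 * m) * R') * 4 := by omega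
    _ ≤ _ := Nat.mul_le_mul_left _ h6

private theorem NumH_Q (c e N : ℕ) :
    2 ^ (3 * N + 2) + (3 * N + 2) + (N + 2) ^ (e * (N + 1)) + (N + 2) ^ c + 2 + 2 ≤
      (N + 2) ^ ((3 + c + e + 3) * (N + 1)) := by
  have hb : 1 ≤ N + 2 := by omega
  have hp : ∀ a b : ℕ, a ≤ b → (N + 2) ^ a ≤ (N + 2) ^ b := fun a b h => Nat.pow_le_pow_right (by omega) h
  have h1 : 2 ^ (3 * N + 2) ≤ (N + 2) ^ ((3 + c + e) * (N + 1)) := by
    calc 2 ^ (3 * N + 2) ≤ (N + 2) ^ (3 * N + 2) := Nat.pow_le_pow_left (by omega) _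
      _ ≤ _ := hp _ _ (by nlinarith [Nat.zero_le (c * (N + 1)), Nat.zero_le (e * (N + 1))])
  have h2 : 3 * N + 2 ≤ (N + 2) ^ ((3 + c + e) * (N + 1)) := by
    calc 3 * N + 2 ≤ (N + 2) ^ 2 := by nlinarith
      _ ≤ _ := hp _ _ (by nlinarith [Nat.zero_le (c * (N + 1)), Nat.zero_le (e * (N + 1))])
  have h3 : (N + 2) ^ (e * (N + 1)) ≤ (N + 2) ^ ((3 + c + e) * (N + 1)) :=
    hp _ _ (Nat.mul_le_mul_right _ (by omega))
  have h4 : (N + 2) ^ c ≤ (N + 2) ^ ((3 + c + e) * (N + 1)) :=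
    hp _ _ (by nlinarith [Nat.zero_le (c * N), Nat.zero_le (e * (N + 1))])
  have h5 : 4 ≤ (N + 2) ^ ((3 + c + e) * (N + 1)) := by
    calc 4 ≤ (N + 2) ^ 2 := by nlinarith
      _ ≤ _ := hp _ _ (by nlinarith [Nat.zero_le (c * (N + 1)), Nat.zero_le (e * (N + 1))])
  have h6 : 8 ≤ (N + 2) ^ (3 * (N + 1)) := by
    calc 8 ≤ (N + 2) ^ 3 := by
          calc 8 = 2 ^ 3 := by norm_num
            _ ≤ (N + 2) ^ 3 := Nat.pow_le_pow_left (by omega) 3
      _ ≤ _ := hp _ _ (by omega)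
  have h7 : (N + 2) ^ ((3 + c + e + 3) * (N + 1)) =
      (N + 2) ^ ((3 + c + e) * (N + 1)) * (N + 2) ^ (3 * (N + 1)) := by
    rw [← pow_add]; ring_nf
  rw [h7]
  calc _ ≤ (N + 2) ^ ((3 + c + e) * (N + 1)) * 8 := by omega
    _ ≤ _ := Nat.mul_le_mul_left _ h6

private theorem NumH_exp (N : ℕ) : Real.exp N ≤ (2 : ℝ) ^ (3 * N + 2) := by
  have h1 : Real.exp N = Real.exp 1 ^ N := by
    rw [← Real.exp_nat_mul, mul_one]
  have h2 : Real.exp 1 ≤ 8 := by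
    have := Real.exp_one_lt_d9
    linarith
  have h3 : Real.exp 1 ^ N ≤ (8 : ℝ) ^ N := pow_le_pow_left₀ (Real.exp_pos 1).le h2 N
  have h4 : (8 : ℝ) ^ N = 2 ^ (3 * N) := by
    rw [pow_mul]; norm_num
  have h5 : (2 : ℝ) ^ (3 * N) ≤ 2 ^ (3 * N + 2) := pow_le_pow_right₀ (by norm_num) (by omega)
  rw [h1]
  linarith

private theorem NumH_inv (N Q : ℕ) (h : 2 ^ (3 * N + 2) ≤ Q) : 1 / (Q : ℝ) ≤ Real.exp (-N) := by
  have h1 : Real.exp N ≤ (Q : ℝ) := (NumH_exp N).trans (by exact_mod_cast h)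
  rw [Real.exp_neg, one_div]
  exact inv_anti₀ (Real.exp_pos _) h1

include hg hy in
theorem numH [Countable G] (C0 : ℝ) (h0 : 0 ≤ C0) (R' l0 L : ℕ) : ∃ (N : ℕ) (ζ : Measure ℝ)
    (_ : IsProbabilityMeasure ζ) (qm : ℝ → Fin m → Bool) (_ : Fm qm) (Q : ℕ), 2 ≤ Q ∧ 2 ^ (3 * N + 1 + 1) ≤ Q ∧
    3 * N + 2 ≤ Q ∧
    (∀ (Λ : Type) [Finite Λ], Nat.card Λ ≤ (l0 * ((Nat.card (Option (Ps (rh U V)))) ^ m * (3 * N + 2) ^ m)) ^ R' →
      Nat.card (PX U V Λ N) ≤ Q ∧ Nat.card Λ ≤ Q ∧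
      (∑ i, dr U V g N L ζ qm i) * Real.log (Nat.card (Bag (rh U V) (PX U V Λ N) Λ)) ≤ 1) ∧
    (∑ s : Lh k m, (open Classical in if (∃ j, s = Sum.inl j) then 0 else 1 +
      (bern G ζ).real {y | ¬ TS (dX U V) s (ws s (wG g (sgm U V g N L) (tq qm y)))} *
        Real.log (Nat.card ({q : Ps (rh U V) // lp q = s} → Sx U V N)))) ≤ 2 * m ∧
    C0 * (∑ i, dr U V g N L ζ qm i + ∑ i, dr U V g N L ζ qm i + 1 / Q) * Real.log (Q + 2) ≤ 1 := by
  obtain ⟨c1, hc1⟩ := cnt_PX U V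
  obtain ⟨c2, hc2⟩ := cnt_bag U V
  obtain ⟨c3, hc3⟩ := cnt_Sx U V
  obtain ⟨q1, κ, N1, hq1, hκ, hov⟩ := ovb g hg hy L
  set P : ℕ := Nat.card (Option (Ps (rh U V))) with hP
  set c : ℕ := (l0 + P * m + 2 * m) * R' + 2 with hc
  set e : ℕ := c * (c1 + c2) with he
  set C4 : ℕ := 3 + c + e + 3 with hC4
  have hCn : (0 : ℝ) ≤ m * e + c3 + C0 * (2 * m + 1) * C4 := by positivity
  obtain ⟨N, p, hN1, hN, hp0, hp1, hNp, hr1, hr2⟩ := ratH q1 hq1 κ (m * e + c3 + C0 * (2 * m + 1) * C4) hκ hCn N1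
  obtain ⟨ζ, hζ, qm, hm⟩ := mlw_ex m p hp0 hp1
  set ov : ℝ := Real.exp (-(κ * N * (N * p) ^ q1)) with hovd
  have hov0 : 0 ≤ ov := (Real.exp_pos _).le
  have hE0 : 0 ≤ Real.exp (-(N : ℝ)) := (Real.exp_pos _).le
  have hlg : 0 ≤ Real.log ((N : ℝ) + 2) := Real.log_nonneg (by
    have : (0 : ℝ) ≤ N := Nat.cast_nonneg N
    linarith)
  have hovi := fun i => hov N p hN1 hNp ζ qm hm i
  have hdr : ∑ i, dr U V g N L ζ qm i ≤ m * (p + ov) := by
    calc ∑ i, dr U V g N L ζ qm i ≤ ∑ _i : Fin m, (p + ov) :=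
          Finset.sum_le_sum fun i _ => dr_le g N L p ζ qm hm i ov (hovi i)
      _ = m * (p + ov) := by rw [Finset.sum_const, Finset.card_univ, Fintype.card_fin, nsmul_eq_mul]
  have hdr0 : 0 ≤ ∑ i, dr U V g N L ζ qm i :=
    Finset.sum_nonneg fun i _ => by unfold dr; exact measureReal_nonneg
  set Q : ℕ := 2 ^ (3 * N + 2) + (3 * N + 2) + (N + 2) ^ (e * (N + 1)) + (N + 2) ^ c + 2 with hQ
  have hQ2 : Real.log ((Q : ℝ) + 2) ≤ (C4 : ℝ) * (N + 1) * Real.log (N + 2) := by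
    have h1 : Q + 2 ≤ (N + 2) ^ (C4 * (N + 1)) := NumH_Q c e N
    have h2 := NumH_logp h1
    push_cast at h2
    exact h2
  have hj : 1 ≤ 2 ^ (3 * N + 2) := Nat.one_le_pow _ _ (by omega)
  have hQi : 1 / (Q : ℝ) ≤ Real.exp (-N) := NumH_inv N Q (by rw [hQ]; omega)
  have hQn : 0 ≤ 1 / (Q : ℝ) := by positivity
  have hQ3 : 2 ^ (3 * N + 1 + 1) ≤ Q := by
    show 2 ^ (3 * N + 2) ≤ Q
    rw [hQ]; omega
  refine ⟨N, ζ, hζ, qm, hm.2.2.1, Q, by rw [hQ]; omega, hQ3, by rw [hQ]; omega, ?_, ?_, ?_⟩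
  · intro Λ _ hΛ
    have hl : Nat.card Λ + 2 ≤ (N + 2) ^ c := (Nat.add_le_add_right hΛ 2).trans (NumH_lam l0 R' m P N)
    have hb : ∀ x a : ℕ, a ≤ c1 + c2 → x ≤ (Nat.card Λ + 2) ^ (a * (N + 1)) → x ≤ (N + 2) ^ (e * (N + 1)) := by
      intro x a ha hx
      calc x ≤ (Nat.card Λ + 2) ^ (a * (N + 1)) := hx
        _ ≤ ((N + 2) ^ c) ^ (a * (N + 1)) := Nat.pow_le_pow_left hl _
        _ = (N + 2) ^ (c * (a * (N + 1))) := (pow_mul _ _ _).symm
        _ ≤ (N + 2) ^ (e * (N + 1)) := Nat.pow_le_pow_right (by omega) (by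
            rw [he, mul_assoc]
            exact Nat.mul_le_mul_left _ (Nat.mul_le_mul_right _ ha))
    have hA := hb _ c1 (by omega) (hc1 Λ N)
    have hB := hb _ c2 (by omega) (hc2 Λ N)
    refine ⟨by rw [hQ]; omega, by rw [hQ]; omega, ?_⟩
    have hB' := NumH_logp hB
    have hmc : (m : ℝ) * e ≤ m * e + c3 + C0 * (2 * m + 1) * C4 := by
      have : 0 ≤ (c3 : ℝ) + C0 * (2 * m + 1) * C4 := by positivity
      linarith
    have hX : 0 ≤ (p + ov + Real.exp (-(N : ℝ))) * ((N : ℝ) + 1) * Real.log (N + 2) := by positivity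
    calc (∑ i, dr U V g N L ζ qm i) * Real.log (Nat.card (Bag (rh U V) (PX U V Λ N) Λ))
        ≤ (m * (p + ov)) * (((e * (N + 1) : ℕ) : ℝ) * Real.log (N + 2)) := by
          apply mul_le_mul hdr hB' (Real.log_natCast_nonneg _)
          positivity
      _ = (m * e : ℝ) * ((p + ov) * ((N : ℝ) + 1) * Real.log (N + 2)) := by push_cast; ring
      _ ≤ (m * e : ℝ) * ((p + ov + Real.exp (-(N : ℝ))) * ((N : ℝ) + 1) * Real.log (N + 2)) := by
          apply mul_le_mul_of_nonneg_left _ (by positivity)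
          apply mul_le_mul_of_nonneg_right _ hlg
          apply mul_le_mul_of_nonneg_right _ (by positivity)
          linarith
      _ ≤ (m * e + c3 + C0 * (2 * m + 1) * C4) *
          ((p + ov + Real.exp (-(N : ℝ))) * ((N : ℝ) + 1) * Real.log (N + 2)) :=
          mul_le_mul_of_nonneg_right hmc hX
      _ ≤ 1 := by
          refine le_trans (le_of_eq ?_) hr2
          ring
  · have hts : ∀ s : Lh k m, (open Classical in if (∃ j, s = Sum.inl j) then (0 : ℝ) else 1 +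
        (bern G ζ).real {y | ¬ TS (dX U V) s (ws s (wG g (sgm U V g N L) (tq qm y)))} *
          Real.log (Nat.card ({q : Ps (rh U V) // lp q = s} → Sx U V N))) ≤
        Sum.elim (fun _ => 0) (fun _ => 2) s := by
      intro s
      rcases s with j | i
      · simp
      · rw [if_neg (by simp)]
        simp only [Sum.elim_inr]
        have h1 := ts_le g N L p ζ qm hm i ov (hovi i)
        have h2 := NumH_logp (hc3 (Sum.inr i) N)
        have h3 : (bern G ζ).real {y | ¬ TS (dX U V) (Sum.inr i)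
            (ws (Sum.inr i) (wG g (sgm U V g N L) (tq qm y)))} *
            Real.log (Nat.card ({q : Ps (rh U V) // lp q = Sum.inr i} → Sx U V N)) ≤
            (((N : ℝ) + 2) * p + ov) * (c3 * Real.log (N + 2)) :=
          mul_le_mul h1 h2 (Real.log_natCast_nonneg _) (by positivity)
        have h4 : (c3 : ℝ) ≤ m * e + c3 + C0 * (2 * m + 1) * C4 := by
          have : 0 ≤ (m : ℝ) * e := by positivity
          have : 0 ≤ C0 * (2 * m + 1) * C4 := by positivity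
          linarith
        have h5 : (((N : ℝ) + 2) * p + ov) * (c3 * Real.log (N + 2)) ≤
            (m * e + c3 + C0 * (2 * m + 1) * C4) * (((N : ℝ) + 2) * p + ov) * Real.log (N + 2) := by
          have h6 : 0 ≤ (((N : ℝ) + 2) * p + ov) * Real.log (N + 2) := by positivity
          calc _ = (c3 : ℝ) * ((((N : ℝ) + 2) * p + ov) * Real.log (N + 2)) := by ring
            _ ≤ (m * e + c3 + C0 * (2 * m + 1) * C4) * ((((N : ℝ) + 2) * p + ov) * Real.log (N + 2)) :=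
              mul_le_mul_of_nonneg_right h4 h6
            _ = _ := by ring
        linarith
    calc _ ≤ ∑ s : Lh k m, Sum.elim (fun _ => (0 : ℝ)) (fun _ => 2) s := Finset.sum_le_sum fun s _ => hts s
      _ = 2 * m := by
        rw [Fintype.sum_sum_type]
        simp [Finset.sum_const, nsmul_eq_mul, mul_comm]
  · have h1 : ∑ i, dr U V g N L ζ qm i + ∑ i, dr U V g N L ζ qm i + 1 / (Q : ℝ) ≤
        (2 * m + 1) * (p + ov + Real.exp (-(N : ℝ))) := by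
      have h2 : 0 ≤ (m : ℝ) * Real.exp (-(N : ℝ)) := by positivity
      nlinarith
    have hlQ : 0 ≤ Real.log ((Q : ℝ) + 2) := Real.log_nonneg (by
      have : (0 : ℝ) ≤ Q := Nat.cast_nonneg Q
      linarith)
    have hX : 0 ≤ (p + ov + Real.exp (-(N : ℝ))) * ((N : ℝ) + 1) * Real.log (N + 2) := by positivity
    calc C0 * (∑ i, dr U V g N L ζ qm i + ∑ i, dr U V g N L ζ qm i + 1 / (Q : ℝ)) * Real.log ((Q : ℝ) + 2)
        ≤ C0 * ((2 * m + 1) * (p + ov + Real.exp (-(N : ℝ)))) * ((C4 : ℝ) * (N + 1) * Real.log (N + 2)) := by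
          apply mul_le_mul _ hQ2 hlQ (by positivity)
          exact mul_le_mul_of_nonneg_left h1 h0
      _ = (C0 * (2 * m + 1) * C4) * ((p + ov + Real.exp (-(N : ℝ))) * ((N : ℝ) + 1) * Real.log (N + 2)) := by ring
      _ ≤ (m * e + c3 + C0 * (2 * m + 1) * C4) *
          ((p + ov + Real.exp (-(N : ℝ))) * ((N : ℝ) + 1) * Real.log (N + 2)) := by
          apply mul_le_mul_of_nonneg_right _ hX
          have : 0 ≤ (m : ℝ) * e + c3 := by positivity
          linarith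
      _ ≤ 1 := by
          refine le_trans (le_of_eq ?_) hr2
          ring

end H33.HN
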