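import Pool.Agent.H33.HN.DefsP

/-! # HN.NumC : the choice of the number of vertices

PROOF. `c := card (Ps r)`, `s := card S`, `a := 2 c^2 + 1 ≤ 2^a`, so `(2 c^2 + 1)^(H+1) ≤ (2^(H+1))^a ≤ Q^a`, `N := Q^(c+1)`, `n := Q^(2 (a + c + 1) + 4)`, `√n = Q^(a + c + 3)`. `Er = 4 (c+1) (..)^(H+1) (s (2 N + 2) + 1) √n ≤ 4 (c+1) Q^a (4 s + 1) Q^(c+1) √n`, so `Er / n ≤ 4 (c+1) (4 s + 1) / Q^2`. `log (n + 1) ≤ (2 (a + c + 1) + 5) log (Q + 2)`, `log (D + 1) ≤ log (Q + 1)`, `log (Bg + 1) ≤ log (Q^(c + 1 + s) + 1) ≤ (c + s + 2) log (Q + 2)`, `log (n+1) / n ≤ const log (Q + 2) / Q`. Every term is at most a constant times `(δ + 1 / Q) log (Q + 2)`. -/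

set_option autoImplicit false
set_option synthInstance.maxSize 4000

open MeasureTheory H31.BE

namespace H33.HN

private theorem numC_Er {S I : Type} [Fintype S] [Fintype I] (r : Rl S I) (Q H : ℕ) (hQ : 2 ≤ Q)
    (hH : 2 ^ (H + 1) ≤ Q) :
    0 ≤ Er r H (Q ^ (Fintype.card (Ps r) + 1))
      (Q ^ (2 * (2 * Fintype.card (Ps r) ^ 2 + 1 + Fintype.card (Ps r) + 3))) ∧
    Er r H (Q ^ (Fintype.card (Ps r) + 1))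
      (Q ^ (2 * (2 * Fintype.card (Ps r) ^ 2 + 1 + Fintype.card (Ps r) + 3))) * (Q : ℝ) ^ 2 ≤
      4 * ((Fintype.card (Ps r) : ℝ) + 1) * (4 * (Fintype.card S : ℝ) + 1) *
        ((Q ^ (2 * (2 * Fintype.card (Ps r) ^ 2 + 1 + Fintype.card (Ps r) + 3)) : ℕ) : ℝ) := by
  unfold Er Bc
  generalize Fintype.card (Ps r) = c
  generalize Fintype.card S = s
  have hq : (2 : ℝ) ≤ (Q : ℝ) := by exact_mod_cast hQ
  have hq0 : (0 : ℝ) ≤ (Q : ℝ) := by linarith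
  have hq1 : (1 : ℝ) ≤ (Q : ℝ) := by linarith
  have hH' : (2 : ℝ) ^ (H + 1) ≤ (Q : ℝ) := by exact_mod_cast hH
  have ha : (2 * (c : ℝ) ^ 2 + 1) ≤ 2 ^ (2 * c ^ 2 + 1) := by
    have h1 : 2 * c ^ 2 + 1 < 2 ^ (2 * c ^ 2 + 1) := Nat.lt_two_pow_self
    exact_mod_cast h1.le
  have hb : (2 * (c : ℝ) ^ 2 + 1) ^ (H + 1) ≤ (Q : ℝ) ^ (2 * c ^ 2 + 1) := by
    calc (2 * (c : ℝ) ^ 2 + 1) ^ (H + 1) ≤ (2 ^ (2 * c ^ 2 + 1)) ^ (H + 1) :=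
          pow_le_pow_left₀ (by positivity) ha _
      _ = ((2 : ℝ) ^ (H + 1)) ^ (2 * c ^ 2 + 1) := by rw [← pow_mul, ← pow_mul, mul_comm]
      _ ≤ (Q : ℝ) ^ (2 * c ^ 2 + 1) := pow_le_pow_left₀ (by positivity) hH' _
  have hsq : Real.sqrt (((Q ^ (2 * (2 * c ^ 2 + 1 + c + 3)) : ℕ)) : ℝ) = (Q : ℝ) ^ (2 * c ^ 2 + 1 + c + 3) := by
    rw [Nat.cast_pow, mul_comm 2 (2 * c ^ 2 + 1 + c + 3), pow_mul]
    exact Real.sqrt_sq (by positivity)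
  rw [hsq]
  push_cast
  have hN : (1 : ℝ) ≤ (Q : ℝ) ^ (c + 1) := one_le_pow₀ hq1
  have hc : (0 : ℝ) ≤ (c : ℝ) := Nat.cast_nonneg c
  have hs : (0 : ℝ) ≤ (s : ℝ) := Nat.cast_nonneg s
  constructor
  · positivity
  have hA : (s : ℝ) * (2 * (Q : ℝ) ^ (c + 1) + 2) + 1 ≤ (4 * (s : ℝ) + 1) * (Q : ℝ) ^ (c + 1) := by
    nlinarith
  have hA0 : 0 ≤ (s : ℝ) * (2 * (Q : ℝ) ^ (c + 1) + 2) + 1 := by positivity
  calc 4 * ((c : ℝ) + 1) * (2 * (c : ℝ) ^ 2 + 1) ^ (H + 1) * ((s : ℝ) * (2 * (Q : ℝ) ^ (c + 1) + 2) + 1) *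
        (Q : ℝ) ^ (2 * c ^ 2 + 1 + c + 3) * (Q : ℝ) ^ 2
      ≤ 4 * ((c : ℝ) + 1) * (Q : ℝ) ^ (2 * c ^ 2 + 1) * ((4 * (s : ℝ) + 1) * (Q : ℝ) ^ (c + 1)) *
        (Q : ℝ) ^ (2 * c ^ 2 + 1 + c + 3) * (Q : ℝ) ^ 2 := by
        gcongr
    _ = 4 * ((c : ℝ) + 1) * (4 * (s : ℝ) + 1) * (Q : ℝ) ^ (2 * (2 * c ^ 2 + 1 + c + 3)) := by ring

private theorem numC_log (Q e b : ℕ) (hQ : 2 ≤ Q) (hb : b ≤ Q ^ e) :
    Real.log ((b : ℝ) + 1) ≤ ((e : ℝ) + 1) * Real.log ((Q : ℝ) + 2) := by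
  have hq : (2 : ℝ) ≤ (Q : ℝ) := by exact_mod_cast hQ
  have h1 : (b : ℝ) + 1 ≤ ((Q : ℝ) + 2) ^ (e + 1) := by
    have h2 : (b : ℝ) ≤ (Q : ℝ) ^ e := by exact_mod_cast hb
    have h3 : (1 : ℝ) ≤ (Q : ℝ) ^ e := one_le_pow₀ (by linarith)
    calc (b : ℝ) + 1 ≤ (Q : ℝ) * (Q : ℝ) ^ e := by nlinarith
      _ = (Q : ℝ) ^ (e + 1) := by ring
      _ ≤ ((Q : ℝ) + 2) ^ (e + 1) := pow_le_pow_left₀ (by linarith) (by linarith) _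
  calc Real.log ((b : ℝ) + 1) ≤ Real.log (((Q : ℝ) + 2) ^ (e + 1)) :=
        Real.log_le_log (by positivity) h1
    _ = ((e : ℝ) + 1) * Real.log ((Q : ℝ) + 2) := by rw [Real.log_pow]; push_cast; ring

theorem numC {S I : Type} [Fintype S] [Fintype I] (r : Rl S I) : ∃ C : ℝ, 0 ≤ C ∧
    ∀ (Q H D Bg : ℕ) (δ : ℝ), 2 ≤ Q → 2 ^ (H + 1) ≤ Q → D ≤ Q →
      Bg ≤ Q ^ (Fintype.card (Ps r) + 1 + Fintype.card S) → 0 ≤ δ → ∃ n : ℕ, 2 ≤ n ∧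
      (δ + Er r H (Q ^ (Fintype.card (Ps r) + 1)) n / n) *
          (Real.log (n + 1) + Real.log (D + 1) + Real.log (Bg + 1)) + Real.log (n + 1) / n ≤
        C * (δ + 1 / Q) * Real.log (Q + 2) := by
  obtain ⟨C1, hC1⟩ : ∃ C1 : ℝ, C1 = 4 * ((Fintype.card (Ps r) : ℝ) + 1) *
    (4 * (Fintype.card S : ℝ) + 1) := ⟨_, rfl⟩
  obtain ⟨K1, hK1⟩ : ∃ K1 : ℝ, K1 = (((2 * (2 * Fintype.card (Ps r) ^ 2 + 1 + Fintype.card (Ps r) + 3) : ℕ) : ℝ) + 1) +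
    (((1 : ℕ) : ℝ) + 1) + (((Fintype.card (Ps r) + 1 + Fintype.card S : ℕ) : ℝ) + 1) := ⟨_, rfl⟩
  obtain ⟨K2, hK2⟩ : ∃ K2 : ℝ, K2 = (((2 * (2 * Fintype.card (Ps r) ^ 2 + 1 + Fintype.card (Ps r) + 3) : ℕ) : ℝ) + 1) :=
    ⟨_, rfl⟩
  have hC10 : 0 ≤ C1 := by rw [hC1]; positivity
  have hK10 : 0 ≤ K1 := by rw [hK1]; positivity
  have hK20 : 0 ≤ K2 := by rw [hK2]; positivity
  refine ⟨K1 + C1 * K1 + K2, by positivity, ?_⟩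
  intro Q H D Bg δ hQ hH hD hBg hδ
  obtain ⟨n, hn⟩ : ∃ n : ℕ, n = Q ^ (2 * (2 * Fintype.card (Ps r) ^ 2 + 1 + Fintype.card (Ps r) + 3)) := ⟨_, rfl⟩
  have hQn : Q ≤ n := by
    rw [hn]
    exact Nat.le_self_pow (by omega) Q
  refine ⟨n, hQ.trans hQn, ?_⟩
  have hq : (2 : ℝ) ≤ (Q : ℝ) := by exact_mod_cast hQ
  have hqn : (Q : ℝ) ≤ (n : ℝ) := by exact_mod_cast hQn
  obtain ⟨hE0, hE1⟩ := numC_Er r Q H hQ hH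
  rw [← hn, ← hC1] at hE1
  rw [← hn] at hE0
  have h1 := numC_log Q _ n hQ hn.le
  rw [← hK2] at h1
  have h2 := numC_log Q 1 D hQ (by rw [pow_one]; exact hD)
  have h3 := numC_log Q _ Bg hQ hBg
  have h1' : 0 ≤ Real.log ((n : ℝ) + 1) := Real.log_nonneg (by linarith)
  have h2' : 0 ≤ Real.log ((D : ℝ) + 1) := Real.log_nonneg (by linarith [Nat.cast_nonneg (α := ℝ) D])
  have h3' : 0 ≤ Real.log ((Bg : ℝ) + 1) := Real.log_nonneg (by linarith [Nat.cast_nonneg (α := ℝ) Bg])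
  have hΛ : 0 ≤ Real.log ((Q : ℝ) + 2) := Real.log_nonneg (by linarith)
  obtain ⟨Λ, hΛe⟩ : ∃ Λ : ℝ, Λ = Real.log ((Q : ℝ) + 2) := ⟨_, rfl⟩
  rw [← hΛe] at h1 h2 h3 hΛ ⊢
  have hsum : Real.log ((n : ℝ) + 1) + Real.log ((D : ℝ) + 1) + Real.log ((Bg : ℝ) + 1) ≤ K1 * Λ := by
    rw [hK1, ← hK2]
    linarith
  have hn0 : (0 : ℝ) < (n : ℝ) := by linarith
  have hq0 : (0 : ℝ) < (Q : ℝ) := by linarith
  have hE : Er r H (Q ^ (Fintype.card (Ps r) + 1)) n / (n : ℝ) ≤ C1 / Q := by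
    rw [div_le_div_iff₀ hn0 hq0]
    have h4 : Er r H (Q ^ (Fintype.card (Ps r) + 1)) n * (Q : ℝ) ≤
        Er r H (Q ^ (Fintype.card (Ps r) + 1)) n * (Q : ℝ) ^ 2 := by
      apply mul_le_mul_of_nonneg_left _ hE0
      nlinarith
    exact h4.trans hE1
  have hEn : 0 ≤ Er r H (Q ^ (Fintype.card (Ps r) + 1)) n / (n : ℝ) := div_nonneg hE0 hn0.le
  have t1 : (δ + Er r H (Q ^ (Fintype.card (Ps r) + 1)) n / (n : ℝ)) *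
      (Real.log ((n : ℝ) + 1) + Real.log ((D : ℝ) + 1) + Real.log ((Bg : ℝ) + 1)) ≤
      (δ + C1 / Q) * (K1 * Λ) :=
    mul_le_mul (by linarith) hsum (by positivity) (by positivity)
  have t2 : Real.log ((n : ℝ) + 1) / n ≤ K2 * Λ / Q :=
    div_le_div₀ (by positivity) h1 hq0 hqn
  have hx : 0 ≤ (1 : ℝ) / Q := by positivity
  have e1 : (K1 + C1 * K1 + K2) * (δ + 1 / (Q : ℝ)) * Λ = (δ + C1 / Q) * (K1 * Λ) + K2 * Λ / Q +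
      (δ * (C1 * K1 + K2) * Λ + 1 / (Q : ℝ) * K1 * Λ) := by
    field_simp
    ring
  have q1 : 0 ≤ δ * (C1 * K1 + K2) * Λ + 1 / (Q : ℝ) * K1 * Λ := by positivity
  rw [e1]
  linarith

end H33.HN
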