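import Pool.Agent.H33.HN.P2b
import Pool.Agent.H33.HN.NumC

/-! # HN.PartII : Part II (paper section 4): the upper bound for the functional

PROOF. `p2b` and `numC`: `N := Q^(card (Ps r) + 1)` bounds `card (Itf r s P Λ) = card P ^ #{q | lp q = s} * card Λ`, and `Bg := card (Bag r P Λ) = card P ^ card (Ps r) * (card Λ * card Λ ^ card S) ≤ Q^(card (Ps r) + 1 + card S)` (`Nat.card_prod`, `Nat.card_fun`; `card P ≤ Q`, `card Λ ≤ Q`, `1 ≤ Q`). `δ := ∑ i, P(dir = none) + ∑ i, P(dk = none)`. The constant is `C0 * C`. -/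

set_option autoImplicit false
set_option synthInstance.maxSize 4000

open MeasureTheory H31.BE

namespace H33.HN

private lemma PartII_bag {S I : Type} [Fintype S] [Fintype I] (r : Rl S I) {P Λ : Type} [Finite P] [Finite Λ] {Q : ℕ}
    (hP : Nat.card P ≤ Q) (hΛ : Nat.card Λ ≤ Q) :
    Nat.card (Bag r P Λ) ≤ Q ^ (Fintype.card (Ps r) + 1 + Fintype.card S) := by
  rw [Nat.card_prod, Nat.card_prod, Nat.card_fun, Nat.card_fun, Nat.card_eq_fintype_card (α := Ps r),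
    Nat.card_eq_fintype_card (α := S), pow_add, pow_add, pow_one, mul_assoc]
  exact Nat.mul_le_mul (Nat.pow_le_pow_left hP _) (Nat.mul_le_mul hΛ (Nat.pow_le_pow_left hΛ _))

private lemma PartII_itf {S I : Type} [Fintype S] [Fintype I] (r : Rl S I) (s : S) {P Λ : Type} [Finite P] [Finite Λ]
    {Q : ℕ} (hQ : 1 ≤ Q) (hP : Nat.card P ≤ Q) (hΛ : Nat.card Λ ≤ Q) :
    Nat.card (Itf r s P Λ) ≤ Q ^ (Fintype.card (Ps r) + 1) := by
  classical
  rw [Nat.card_prod, Nat.card_fun, pow_add, pow_one]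
  refine Nat.mul_le_mul ?_ hΛ
  refine (Nat.pow_le_pow_left hP _).trans (Nat.pow_le_pow_right (by omega) ?_)
  rw [Nat.card_eq_fintype_card]
  exact Fintype.card_subtype_le _

theorem partII {S I : Type} [Fintype S] [Fintype I] [DecidableEq S] [DecidableEq I] {r : Rl S I} {G : Type} [Group G]
    [DecidableEq G] (hr : ∀ i, 0 < (r i).length) (g : S → G) (hg : Pres r g) (C : ℕ) {A J : Type} [Finite A]
    [Finite J] (wd : J → List (H31.BE.Gn (SS g))) :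
    ∃ R0 : ℕ, ∀ R, R0 ≤ R → ∃ C0 : ℝ, 0 ≤ C0 ∧ ∀ (Λ0 : Type) [Finite Λ0] (L : Lab (SS g) Λ0) (_ : L.C = C)
      (D : ℕ) (Y : Type) [MeasurableSpace Y] [MulAction G Y] (PY : Measure Y) [IsProbabilityMeasure PY]
      (_ : Inv G PY) (lb : Y → Lb r Λ0 D) (_ : Fm lb)
      (_ : ∀ᵐ y ∂PY, Adm L (2 * ml r + 2) (fun h => (lb (h • y)).1) ∧ KT g L lb y) (pf : Λ0 → A)
      (P : Type) [Finite P] (sy : Psy r P (↥(ball (SS g) R) → Lb r Λ0 D)) (φ : I → Y → P) (_ : ∀ i, Fm (φ i))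
      (_ : Prc g sy (win lb (ball (SS g) R)) φ) (H : ℕ) (_ : ∀ p, sy.ht p ≤ H) (Q : ℕ) (_ : 2 ≤ Q)
      (_ : 2 ^ (H + 1) ≤ Q) (_ : D ≤ Q) (_ : Nat.card P ≤ Q)
      (_ : Nat.card (↥(ball (SS g) R) → Lb r Λ0 D) ≤ Q),
      Fn sy.dir (BO.law PY (bgp g (win lb (ball (SS g) R)) φ)) ≤ ent PY (fun y => pf (lb y).1) +
        entc PY (fun y => (lb y).1)
          (fun y => fun j : J => pf (lb (walk L (fun h => (lb (h • y)).1) (wd j) • y)).1) +
        (Fintype.card S + Fintype.card S * Real.log (Fintype.card (Ps r) + 1) +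
          2 * Real.log (Nat.card (I → Option (Ps r)))) +
        C0 * (∑ i, PY.real {y | sy.dir (φ i y) = none} + ∑ i, PY.real {y | (lb y).2.1 i = none} + 1 / Q) *
          Real.log (Q + 2) := by
  classical
  obtain ⟨R0, hR0⟩ := p2b hr g hg C (A := A) (J := J) wd
  obtain ⟨C', hC', hnum⟩ := numC r
  refine ⟨R0, fun R hR => ?_⟩
  obtain ⟨C0, hC0, h⟩ := hR0 R hR
  refine ⟨C0 * C', mul_nonneg hC0 hC', ?_⟩
  intro Λ0 _ L hL D Y _ _ PY _ hI lb hlb hadm pf P _ sy φ hφ hPrc H hH Q hQ2 hQH hQD hQP hQL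
  have hQ1 : 1 ≤ Q := by omega
  have hδ : 0 ≤ ∑ i, PY.real {y | sy.dir (φ i y) = none} + ∑ i, PY.real {y | (lb y).2.1 i = none} :=
    add_nonneg (Finset.sum_nonneg fun i _ => measureReal_nonneg)
      (Finset.sum_nonneg fun i _ => measureReal_nonneg)
  have hBg : Nat.card (Bag r P (↥(ball (SS g) R) → Lb r Λ0 D)) ≤
      Q ^ (Fintype.card (Ps r) + 1 + Fintype.card S) :=
    PartII_bag r hQP hQL
  have hN : ∀ s, Nat.card (Itf r s P (↥(ball (SS g) R) → Lb r Λ0 D)) ≤ Q ^ (Fintype.card (Ps r) + 1) :=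
    fun s => PartII_itf r s hQ1 hQP hQL
  obtain ⟨n, hn2, hn⟩ := hnum Q H D _ _ hQ2 hQH hQD hBg hδ
  have h1 := h Λ0 L hL D Y PY hI lb hlb hadm pf P sy φ hφ hPrc H hH n (Q ^ (Fintype.card (Ps r) + 1)) hn2 hN
  refine h1.trans ?_
  have h3 := mul_le_mul_of_nonneg_left hn hC0
  have h4 : C0 * (C' * (∑ i, PY.real {y | sy.dir (φ i y) = none} + ∑ i, PY.real {y | (lb y).2.1 i = none} +
      1 / (Q : ℝ)) * Real.log ((Q : ℝ) + 2)) =
      C0 * C' * (∑ i, PY.real {y | sy.dir (φ i y) = none} + ∑ i, PY.real {y | (lb y).2.1 i = none} +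
      1 / (Q : ℝ)) * Real.log ((Q : ℝ) + 2) := by ring
  rw [h4] at h3
  exact add_le_add_right h3 _

end H33.HN
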