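import Pool.Agent.H33.HN.HnnB

/-! # HN.XFor : the x-edges form a forest

PROOF. Let `Ed ≠ ∅` satisfy the hypotheses, `e0 = (inl j0, x0) ∈ Ed`. Every `y` in the coset `range (xg g) * x0` is `xg g f * x0` for a unique `f : FreeGroup (Fin k)` (`xg_inj`). Take among the vertices `y = xg g f * x0` of this coset that are an end point of an edge of `Ed` (`e.2 = y` or `g e.1 * e.2 = y`; `e0` shows that there is one) one with the largest `f.norm`. The edges of `Ed` at `y`: `(inl j, y)` with other end `xg g (of j * f) * x0` and `(inl j, (g (inl j))⁻¹ * y)` with other end `xg g ((of j)⁻¹ * f) * x0`; the other end is a vertex of `Ed` too, so its norm is at most `f.norm`.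
`(val (j, c) * f).norm ≤ f.norm` holds for exactly one letter `(j, c)` or for none: it means that `f.toWord` begins with the inverse letter (`FreeGroup.toWord_mul`-type, `FreeGroup.reduce`: `(mk [(j, c)] * f).toWord = if head = inverse then tail else (j, c) :: f.toWord`). So exactly one edge of `Ed` contains `y`, and it contains it once (its two ends are different: norms differ), so `#{e.2 = y} + #{g e.1 * e.2 = y} = 1` is odd, a contradiction to `Bd0`. -/

set_option autoImplicit false
set_option synthInstance.maxSize 4000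

open MeasureTheory H31.BE

namespace H33.HN

variable {k m : ℕ} {U V : Fin m → Wl k} {G : Type} [Group G] (g : Lh k m → G) (hg : Pres (rh U V) g) (hy : Hyp U V)

private theorem XFor_letter {k : ℕ} (f : FreeGroup (Fin k)) (a : Fin k × Bool)
    (h : (FreeGroup.mk [a] * f).norm ≤ f.norm) : f.toWord.head? = some (a.1, !a.2) := by
  have e1 : (FreeGroup.mk [a] * f).toWord = FreeGroup.reduce (a :: f.toWord) := by
    conv_lhs => rw [← FreeGroup.mk_toWord (x := f)]
    rw [FreeGroup.mul_mk, FreeGroup.toWord_mk]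
    rfl
  unfold FreeGroup.norm at h
  rw [e1, FreeGroup.reduce.cons, FreeGroup.reduce_toWord] at h
  cases hL : f.toWord with
  | nil =>
    rw [hL] at h
    simp at h
  | cons hd tl =>
    rw [hL] at h
    simp only at h
    split_ifs at h with hc
    · rw [List.head?_cons]
      obtain ⟨h1, h2⟩ := hc
      obtain ⟨hd1, hd2⟩ := hd
      obtain ⟨a1, a2⟩ := a
      simp only at h1 h2
      subst h1 h2
      simp
    · simp at h

include hg hy in
theorem xfor [DecidableEq G] (Ed : Finset (Lh k m × G)) (hE : ∀ e ∈ Ed, ∃ j, e.1 = Sum.inl j) (h : Bd0 g Ed) :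
    Ed = ∅ := by
  classical
  by_contra hne
  obtain ⟨e0, he0⟩ := Finset.nonempty_iff_ne_empty.2 hne
  set x0 : G := e0.2 with hx0
  have hinj : Function.Injective (xg g) := xg_inj g hg hy
  let W : Finset G := Ed.image (fun e => e.2) ∪ Ed.image (fun e => g e.1 * e.2)
  let Φ : Set (FreeGroup (Fin k)) := {f | xg g f * x0 ∈ W}
  have hfin : Φ.Finite := by
    have : Φ = (fun f => xg g f * x0) ⁻¹' (W : Set G) := rfl
    rw [this]
    refine W.finite_toSet.preimage ?_
    intro f _ f' _ hff
    exact hinj (mul_right_cancel hff)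
  have hΦne : Φ.Nonempty := ⟨1, by
    change xg g 1 * x0 ∈ W
    rw [map_one, one_mul]
    exact Finset.mem_union_left _ (Finset.mem_image.2 ⟨e0, he0, rfl⟩)⟩
  obtain ⟨f, hf, hmax⟩ := Set.exists_max_image Φ FreeGroup.norm hfin hΦne
  set y : G := xg g f * x0 with hy0
  have hof : ∀ j, g (Sum.inl j) = xg g (FreeGroup.of j) := fun j => by simp [xg]
  -- the letters
  have hA : ∀ e ∈ Ed, e.2 = y → ∃ j, e = (Sum.inl j, y) ∧ f.toWord.head? = some (j, false) := by
    intro e he hey
    obtain ⟨j, hj⟩ := hE e he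
    refine ⟨j, Prod.ext hj hey, ?_⟩
    have hmem : FreeGroup.of j * f ∈ Φ := by
      change xg g (FreeGroup.of j * f) * x0 ∈ W
      rw [map_mul, mul_assoc, ← hof, ← hy0, ← hey, ← hj]
      exact Finset.mem_union_right _ (Finset.mem_image.2 ⟨e, he, rfl⟩)
    exact XFor_letter f (j, true) (hmax _ hmem)
  have hB : ∀ e ∈ Ed, g e.1 * e.2 = y → ∃ j, e = (Sum.inl j, (g (Sum.inl j))⁻¹ * y) ∧
      f.toWord.head? = some (j, true) := by
    intro e he hey
    obtain ⟨j, hj⟩ := hE e he
    have he2 : e.2 = (g (Sum.inl j))⁻¹ * y := by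
      rw [← hey, hj, inv_mul_cancel_left]
    refine ⟨j, Prod.ext hj he2, ?_⟩
    have hmem : (FreeGroup.of j)⁻¹ * f ∈ Φ := by
      change xg g ((FreeGroup.of j)⁻¹ * f) * x0 ∈ W
      rw [map_mul, mul_assoc, map_inv, ← hof, ← hy0, ← he2]
      exact Finset.mem_union_left _ (Finset.mem_image.2 ⟨e, he, rfl⟩)
    have hin : (FreeGroup.of j)⁻¹ = FreeGroup.mk [(j, false)] := by
      rw [FreeGroup.of, FreeGroup.inv_mk]
      rfl
    exact XFor_letter f (j, false) (by rw [← hin]; exact hmax _ hmem)
  have hA1 : (Ed.filter fun e => e.2 = y).card ≤ 1 := by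
    rw [Finset.card_le_one]
    intro e he e' he'
    rw [Finset.mem_filter] at he he'
    obtain ⟨j, hj, hj'⟩ := hA e he.1 he.2
    obtain ⟨i, hi, hi'⟩ := hA e' he'.1 he'.2
    rw [hj'] at hi'
    simp only [Option.some.injEq, Prod.mk.injEq, and_true] at hi'
    rw [hj, hi, hi']
  have hB1 : (Ed.filter fun e => g e.1 * e.2 = y).card ≤ 1 := by
    rw [Finset.card_le_one]
    intro e he e' he'
    rw [Finset.mem_filter] at he he'
    obtain ⟨j, hj, hj'⟩ := hB e he.1 he.2
    obtain ⟨i, hi, hi'⟩ := hB e' he'.1 he'.2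
    rw [hj'] at hi'
    simp only [Option.some.injEq, Prod.mk.injEq, and_true] at hi'
    rw [hj, hi, hi']
  have hAB : (Ed.filter fun e => e.2 = y).card = 0 ∨ (Ed.filter fun e => g e.1 * e.2 = y).card = 0 := by
    by_contra hcon
    rw [not_or] at hcon
    obtain ⟨e, he⟩ := Finset.card_pos.1 (Nat.pos_of_ne_zero hcon.1)
    obtain ⟨e', he'⟩ := Finset.card_pos.1 (Nat.pos_of_ne_zero hcon.2)
    rw [Finset.mem_filter] at he he'
    obtain ⟨j, -, hj'⟩ := hA e he.1 he.2
    obtain ⟨i, -, hi'⟩ := hB e' he'.1 he'.2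
    rw [hj'] at hi'
    simp at hi'
  have hpos : 0 < (Ed.filter fun e => e.2 = y).card + (Ed.filter fun e => g e.1 * e.2 = y).card := by
    rcases Finset.mem_union.1 (show y ∈ W from hf) with h1 | h1
    · obtain ⟨e, he, hey⟩ := Finset.mem_image.1 h1
      exact Nat.add_pos_left (Finset.card_pos.2 ⟨e, Finset.mem_filter.2 ⟨he, hey⟩⟩) _
    · obtain ⟨e, he, hey⟩ := Finset.mem_image.1 h1
      exact Nat.add_pos_right _ (Finset.card_pos.2 ⟨e, Finset.mem_filter.2 ⟨he, hey⟩⟩)
  have := h y
  rw [Nat.even_iff] at this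
  omega

end H33.HN
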