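import Pool.Agent.H33.HN.DefsH

/-! # HN.GrA : the Gromov product in a free group

PROOF. `gp_symm`: `(x⁻¹ y)⁻¹ = y⁻¹ x`, `FreeGroup.norm_inv_eq`. Main fact: let `n` be the length of the longest common prefix of `x.toWord`, `y.toWord`; then `gp x y = 2 n`: `x = c x'`, `y = c y'` with `c` the common prefix, `x.toWord = c ++ a`, `y.toWord = c ++ b`, and `(x⁻¹ y).toWord = invRev a ++ b`, which is reduced: `invRev a` and `b` are reduced (parts of reduced words) and at the junction the last letter of `invRev a` is the inverse of the first letter of `a`, and the first letters of `a` and `b` are different (so no cancellation) (`FreeGroup.IsReduced`, `List.isChain_append`; if `a` or `b` is empty there is no junction). So the norm is `|a| + |b|`.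
`gp_ultra`: if the longest common prefixes of `x, y` and of `y, z` have lengths at least `n` then `x`, `z` have the same first `n` letters. `gp_le`: `gp x y ≤ 2 |x|`: `|y| ≤ |x| + |x⁻¹ y|` (`norm_mul_le`). `gp_mul`: by definition: `(g p)⁻¹ g = p⁻¹`: `gp (g * p) g = |gp| + |g| - |p|`, `gp g⁻¹ p = |g| + |p| - |g p|`. `gp_lip`: `|gp (x * a) y - gp x y| ≤ 2 |a|`: `|x a|` and `|(x a)⁻¹ y|` change by at most `|a|`. -/

set_option autoImplicit false
set_option synthInstance.maxSize 4000

open MeasureTheory H31.BE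

namespace H33.HN

variable {X : Type} [DecidableEq X]

private def GrA_lcp {α : Type} [DecidableEq α] : List α → List α → ℕ
  | a :: x, b :: y => if a = b then GrA_lcp x y + 1 else 0
  | [], _ => 0
  | _ :: _, [] => 0

private theorem GrA_split {α : Type} [DecidableEq α] : ∀ x y : List α, ∃ c a b : List α,
    x = c ++ a ∧ y = c ++ b ∧ c.length = GrA_lcp x y ∧ ∀ p ∈ a.head?, ∀ q ∈ b.head?, p ≠ q
  | [], y => ⟨[], [], y, rfl, rfl, by simp [GrA_lcp], by simp⟩
  | a :: x, [] => ⟨[], a :: x, [], rfl, rfl, by simp [GrA_lcp], by simp⟩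
  | a :: x, b :: y => by
    by_cases h : a = b
    · obtain ⟨c, u, v, h1, h2, h3, h4⟩ := GrA_split x y
      refine ⟨a :: c, u, v, by rw [h1]; rfl, by rw [h2, h]; rfl, ?_, h4⟩
      simp [GrA_lcp, h, h3]
    · refine ⟨[], a :: x, b :: y, rfl, rfl, by simp [GrA_lcp, h], ?_⟩
      simp [h]

private theorem GrA_ult {α : Type} [DecidableEq α] : ∀ x y z : List α,
    min (GrA_lcp x y) (GrA_lcp y z) ≤ GrA_lcp x z
  | [], _, _ => by simp [GrA_lcp]
  | _ :: _, [], _ => by simp [GrA_lcp]
  | _ :: _, _ :: _, [] => by simp [GrA_lcp]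
  | a :: x, b :: y, c :: z => by
    have ih := GrA_ult x y z
    by_cases h : a = b
    · by_cases h' : b = c
      · simp only [GrA_lcp, h, h', if_true]
        omega
      · simp [GrA_lcp, h']
    · simp [GrA_lcp, h]

private theorem GrA_gp (x y : FreeGroup X) : gp x y = 2 * (GrA_lcp x.toWord y.toWord : ℤ) := by
  obtain ⟨c, a, b, h1, h2, h3, h4⟩ := GrA_split x.toWord y.toWord
  have hx : FreeGroup.mk x.toWord = x := FreeGroup.mk_toWord
  have hy : FreeGroup.mk y.toWord = y := FreeGroup.mk_toWord
  have ra : FreeGroup.IsReduced a := by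
    have := FreeGroup.isReduced_toWord (x := x)
    rw [h1] at this
    exact (List.isChain_append.1 this).2.1
  have rb : FreeGroup.IsReduced b := by
    have := FreeGroup.isReduced_toWord (x := y)
    rw [h2] at this
    exact (List.isChain_append.1 this).2.1
  have ria : FreeGroup.IsReduced (FreeGroup.invRev a) := by
    apply FreeGroup.IsReduced.of_reduce_eq
    rw [FreeGroup.reduce_invRev, ra.reduce_eq]
  have hr : FreeGroup.IsReduced (FreeGroup.invRev a ++ b) := by
    unfold FreeGroup.IsReduced at ria rb ⊢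
    rw [List.isChain_append]
    refine ⟨ria, rb, fun p hp q hq hpq => ?_⟩
    unfold FreeGroup.invRev at hp
    rw [List.getLast?_reverse, List.head?_map] at hp
    simp only [Option.map_eq_some_iff, Option.mem_def] at hp
    obtain ⟨p0, hp0, rfl⟩ := hp
    have h5 := h4 p0 hp0 q hq
    simp only at hpq ⊢
    by_contra h6
    apply h5
    refine Prod.ext hpq ?_
    revert h6
    cases p0.2 <;> cases q.2 <;> simp
  have hm : x⁻¹ * y = FreeGroup.mk (FreeGroup.invRev a ++ b) := by
    rw [← hx, ← hy, h1, h2, ← FreeGroup.mul_mk, ← FreeGroup.mul_mk, ← FreeGroup.mul_mk,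
      ← FreeGroup.inv_mk]
    group
  have hn : (x⁻¹ * y).norm = a.length + b.length := by
    unfold FreeGroup.norm
    rw [hm, FreeGroup.toWord_mk, hr.reduce_eq, List.length_append, FreeGroup.invRev_length]
  have hnx : x.norm = c.length + a.length := by
    unfold FreeGroup.norm
    rw [h1, List.length_append]
  have hny : y.norm = c.length + b.length := by
    unfold FreeGroup.norm
    rw [h2, List.length_append]
  unfold gp
  rw [hn, hnx, hny, ← h3]
  push_cast
  ring


theorem gp_symm (x y : FreeGroup X) : gp x y = gp y x := by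
  unfold gp
  have h : (x⁻¹ * y).norm = (y⁻¹ * x).norm := by
    rw [← FreeGroup.norm_inv_eq (x := x⁻¹ * y), mul_inv_rev, inv_inv]
  rw [h]
  ring

theorem gp_ultra (x y z : FreeGroup X) : min (gp x y) (gp y z) ≤ gp x z := by
  rw [GrA_gp, GrA_gp, GrA_gp]
  have h := GrA_ult x.toWord y.toWord z.toWord
  omega

theorem gp_le (x y : FreeGroup X) : gp x y ≤ 2 * x.norm := by
  unfold gp
  have h := FreeGroup.norm_mul_le x (x⁻¹ * y)
  rw [mul_inv_cancel_left] at h
  omega

theorem gp_self (x : FreeGroup X) : gp x x = 2 * x.norm := by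
  unfold gp
  rw [inv_mul_cancel, FreeGroup.norm_one]
  push_cast
  ring

theorem gp_mul (a p : FreeGroup X) : gp (a * p) a = 2 * a.norm - gp a⁻¹ p := by
  unfold gp
  have h1 : ((a * p)⁻¹ * a).norm = p.norm := by
    rw [mul_inv_rev, inv_mul_cancel_right, FreeGroup.norm_inv_eq]
  rw [h1, inv_inv, FreeGroup.norm_inv_eq]
  ring

theorem gp_lip (x a y : FreeGroup X) : gp (x * a) y ≤ gp x y + 2 * a.norm := by
  unfold gp
  have h1 := FreeGroup.norm_mul_le x a
  have h2 := FreeGroup.norm_mul_le a ((x * a)⁻¹ * y)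
  rw [mul_inv_rev, mul_assoc, mul_inv_cancel_left] at h2
  rw [mul_inv_rev, mul_assoc]
  omega

end H33.HN
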