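import Pool.Agent.H33.HN.DefsK
import Pool.Agent.H31.BE.EntF

/-! # HN.IndA : independence of the marks

PROOF. The bits `b_(i, h) y := tq qm y h i = qm (y h⁻¹) i` (`(h • y) 1 = y (h⁻¹ * 1)`) are independent with probability `p` of `true`: for a finite set `A` of pairs and `c : A → Bool`: `P(∀ e ∈ A, b_e = c e) = ∏_(e ∈ A) (if c e then p else 1 - p)`: group by the coordinate `h` (`bern_pi`: product over the finitely many coordinates), and for one coordinate `ζ {x | ∀ i ∈ A_h, qm x i = c i} = ∏_(i ∈ A_h) (..)` (sum of the law over the `c' : Fin m → Bool` that extend `c`: `Finset.prod_univ_sum`-type). `mk_one`: `A = {e}`.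
`ind_bd`: Let `E := ⋃ F a b` (disjoint union). The law of the bits on `E` is the product law on `E → Bool`. The probability that there is no mark on `F a b` is `(1 - p)^(card (F a b))`, independent for different `(a, b)` (disjoint sets): `P(∀ b, some mark on F a b) = ∏_b (1 - (1 - p)^(card (F a b))) ≥ (1 - (1 - p)^s)^(card Q)`, independent for different `a`. For the formal proof use `ProbabilityTheory.iIndepFun` of the coordinates of `Measure.infinitePi` (`iIndepFun_infinitePi`) and of finite blocks of them,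
or compute with the finite product law: by induction on `T`: `P(ev_T) = P(ev_(T minus a)) * P(ev_a)` for events that depend on disjoint finite sets of bits: for events `X`, `Y` that depend on the bits in disjoint finite sets `A`, `B`: `P(X ∩ Y) = P(X) P(Y)` (sum over the patterns on `A` and on `B` of the product formula). This last statement is enough: apply it repeatedly (over `b` for the complement events, then over `a`). -/

set_option autoImplicit false
set_option synthInstance.maxSize 4000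

open MeasureTheory ProbabilityTheory H31.BE

namespace H33.HN

/-- the event `X` depends only on the bits in `A` -/
private def IndA_D {ι Ω : Type} (b : ι → Ω → Bool) (A : Finset ι) (X : Set Ω) : Prop :=
  ∀ ω ω', (∀ e ∈ A, b e ω = b e ω') → (ω ∈ X ↔ ω' ∈ X)

private lemma IndA_pre {ι Ω : Type} {b : ι → Ω → Bool} {A : Finset ι} {X : Set Ω}
    (hX : IndA_D b A X) : ∃ S : Set (A → Bool), X = (fun ω (e : A) => b e ω) ⁻¹' S := by
  refine ⟨(fun ω (e : A) => b e ω) '' X, ?_⟩
  ext ω
  simp only [Set.mem_preimage, Set.mem_image]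
  constructor
  · intro h
    exact ⟨ω, h, rfl⟩
  · rintro ⟨ω', h1, h2⟩
    refine (hX ω' ω fun e he => ?_).1 h1
    exact congrFun h2 ⟨e, he⟩

private lemma IndA_meas {ι Ω : Type} [MeasurableSpace Ω] {b : ι → Ω → Bool}
    (hb : ∀ i, Measurable (b i)) {A : Finset ι} {X : Set Ω} (hX : IndA_D b A X) :
    MeasurableSet X := by
  obtain ⟨S, rfl⟩ := IndA_pre hX
  have h1 : Measurable fun ω (e : A) => b e ω := measurable_pi_iff.2 fun e => hb e
  exact h1 (Set.toFinite S).measurableSet

private lemma IndA_two {ι Ω : Type} [MeasurableSpace Ω] {P : Measure Ω} [IsProbabilityMeasure P]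
    {b : ι → Ω → Bool} (hi : iIndepFun b P) (hb : ∀ i, Measurable (b i)) {A B : Finset ι}
    (hAB : Disjoint A B) {X Y : Set Ω} (hX : IndA_D b A X) (hY : IndA_D b B Y) :
    P.real (X ∩ Y) = P.real X * P.real Y := by
  obtain ⟨S, rfl⟩ := IndA_pre hX
  obtain ⟨S', rfl⟩ := IndA_pre hY
  have h1 := (hi.indepFun_finset A B hAB hb).measure_inter_preimage_eq_mul S S'
    (Set.toFinite S).measurableSet (Set.toFinite S').measurableSet
  rw [measureReal_def, measureReal_def, measureReal_def, h1, ENNReal.toReal_mul]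

private lemma IndA_all {ι Ω J : Type} {b : ι → Ω → Bool} [DecidableEq ι] (s : Finset J)
    (A : J → Finset ι) (X : J → Set Ω) (hX : ∀ j, IndA_D b (A j) (X j)) :
    IndA_D b (s.biUnion A) {ω | ∀ j ∈ s, ω ∈ X j} := by
  intro ω ω' h
  refine forall₂_congr fun j hj => hX j ω ω' fun e he => h e ?_
  exact Finset.mem_biUnion.2 ⟨j, hj, he⟩

private lemma IndA_compl {ι Ω : Type} {b : ι → Ω → Bool} {A : Finset ι} {X : Set Ω}
    (hX : IndA_D b A X) : IndA_D b A Xᶜ := by
  intro ω ω' h
  rw [Set.mem_compl_iff, Set.mem_compl_iff, hX ω ω' h]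

private lemma IndA_prod {ι Ω J : Type} [MeasurableSpace Ω] {P : Measure Ω}
    [IsProbabilityMeasure P] {b : ι → Ω → Bool} (hi : iIndepFun b P) (hb : ∀ i, Measurable (b i))
    (A : J → Finset ι) (X : J → Set Ω) (hX : ∀ j, IndA_D b (A j) (X j))
    (hA : ∀ j j', j ≠ j' → Disjoint (A j) (A j')) (s : Finset J) :
    P.real {ω | ∀ j ∈ s, ω ∈ X j} = ∏ j ∈ s, P.real (X j) := by
  classical
  induction s using Finset.induction_on with
  | empty => simp
  | insert a s ha ih =>
    have h1 : {ω | ∀ j ∈ insert a s, ω ∈ X j} = X a ∩ {ω | ∀ j ∈ s, ω ∈ X j} := by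
      ext ω
      simp
    have h2 : Disjoint (A a) (s.biUnion A) := by
      rw [Finset.disjoint_biUnion_right]
      intro j hj
      exact hA a j fun e => ha (e ▸ hj)
    rw [h1, IndA_two hi hb h2 (hX a) (IndA_all s A X hX), ih, Finset.prod_insert ha]

private lemma IndA_mq {m : ℕ} {p : ℝ} {ζ : Measure ℝ} {qm : ℝ → Fin m → Bool}
    (hm : Mlw p ζ qm) : Measurable qm :=
  measurable_to_countable' fun c => hm.2.2.1 c

private lemma IndA_one {m : ℕ} {p : ℝ} {ζ : Measure ℝ} [IsProbabilityMeasure ζ]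
    {qm : ℝ → Fin m → Bool} (hm : Mlw p ζ qm) (i : Fin m) :
    ζ.real {x | qm x i = true} = p := by
  classical
  have h1 := sum_measureReal_preimage_singleton (μ := ζ)
    (Finset.univ.filter fun c : Fin m → Bool => c i = true) (f := qm)
    (fun c _ => hm.2.2.1 c)
  have h2 : qm ⁻¹' (↑(Finset.univ.filter fun c : Fin m → Bool => c i = true) : Set (Fin m → Bool)) =
      {x | qm x i = true} := by
    ext x
    simp
  rw [h2] at h1
  rw [← h1]
  have h3 : ∀ c : Fin m → Bool, ζ.real (qm ⁻¹' {c}) = ∏ j, if c j then p else 1 - p :=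
    fun c => hm.2.2.2 c
  simp only [h3]
  rw [Finset.sum_filter]
  have h4 : ∀ c : Fin m → Bool, (if c i = true then ∏ j, (if c j then p else 1 - p) else 0) =
      ∏ j, (if j = i then (if c j then p else 0) else (if c j then p else 1 - p)) := by
    intro c
    split_ifs with hc
    · refine Finset.prod_congr rfl fun j _ => ?_
      by_cases hj : j = i
      · rw [if_pos hj, hj, if_pos hc, if_pos hc]
      · rw [if_neg hj]
    · symm
      refine Finset.prod_eq_zero (Finset.mem_univ i) ?_
      rw [if_pos rfl, if_neg hc]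
  simp only [h4]
  have h5 := Finset.prod_univ_sum (fun _ : Fin m => (Finset.univ : Finset Bool))
    (fun j (c : Bool) => if j = i then (if c then p else 0) else (if c then p else 1 - p))
  rw [Fintype.piFinset_univ] at h5
  rw [← h5, ← Finset.mul_prod_erase Finset.univ _ (Finset.mem_univ i)]
  rw [Finset.prod_eq_one, mul_one]
  · simp
  · intro j hj
    simp [Finset.ne_of_mem_erase hj]

private lemma IndA_ev {G : Type} [Group G] [Countable G] {m : ℕ} {p : ℝ} {ζ : Measure ℝ}
    [IsProbabilityMeasure ζ] {qm : ℝ → Fin m → Bool} (hm : Mlw p ζ qm) (h : G)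
    {S : Set (Fin m → Bool)} :
    (bern G ζ).real {y : Bsh G | qm (y h) ∈ S} = ζ.real {x | qm x ∈ S} := by
  have hp : MeasurePreserving (fun y : Bsh G => y h) (bern G ζ) ζ :=
    measurePreserving_eval_infinitePi (fun _ : G => ζ) h
  have h1 : MeasurableSet {x | qm x ∈ S} := IndA_mq hm (Set.toFinite S).measurableSet
  have := hp.measure_preimage h1.nullMeasurableSet
  rw [measureReal_def, measureReal_def, ← this]
  rfl

private lemma IndA_tq {G : Type} [Group G] {m : ℕ} (qm : ℝ → Fin m → Bool) (y : Bsh G)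
    (i : Fin m) (h : G) : tq qm y h i = qm (y h⁻¹) i := by
  show qm ((h • y) 1) i = _
  rw [Bsh.smul_apply, mul_one]

theorem mk_one {G : Type} [Group G] [Countable G] {m : ℕ} (p : ℝ) (ζ : Measure ℝ) [IsProbabilityMeasure ζ]
    (qm : ℝ → Fin m → Bool) (hm : Mlw p ζ qm) (i : Fin m) (h : G) :
    (bern G ζ).real {y | tq qm y h i = true} = p := by
  have h1 := IndA_ev (G := G) hm h⁻¹ (S := {c | c i = true})
  have h2 : {y : Bsh G | tq qm y h i = true} = {y : Bsh G | qm (y h⁻¹) ∈ {c | c i = true}} := by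
    ext y
    show tq qm y h i = true ↔ qm (y h⁻¹) i = true
    rw [IndA_tq]
  rw [h2, h1]
  exact IndA_one hm i

private lemma IndA_ind {G : Type} [Group G] [Countable G] {m : ℕ} {p : ℝ} {ζ : Measure ℝ}
    [IsProbabilityMeasure ζ] {qm : ℝ → Fin m → Bool} (hm : Mlw p ζ qm) :
    iIndepFun (fun (e : Fin m × G) (y : Bsh G) => tq qm y e.2 e.1) (bern G ζ) := by
  classical
  have hmq := IndA_mq hm
  have hX : ∀ (h : G) (i : Fin m), Measurable fun y : Bsh G => qm (y h) i := fun h i =>
    (measurable_pi_apply i).comp (hmq.comp (measurable_pi_apply (X := fun _ : G => ℝ) h))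
  have h1 : iIndepFun (fun (h : G) (y : Bsh G) => fun i => qm (y h) i) (bern G ζ) :=
    iIndepFun_infinitePi (P := fun _ : G => ζ) (X := fun (_ : G) (x : ℝ) => qm x) fun _ => hmq
  have h2 : ∀ h : G, iIndepFun (fun (i : Fin m) (y : Bsh G) => qm (y h) i) (bern G ζ) := by
    intro h
    rw [iIndepFun_iff_map_fun_eq_pi_map fun i => (hX h i).aemeasurable]
    have hpm : ∀ i, IsProbabilityMeasure ((bern G ζ).map fun y : Bsh G => qm (y h) i) := fun i =>
      Measure.isProbabilityMeasure_map (hX h i).aemeasurable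
    refine Measure.ext_of_singleton fun c => ?_
    rw [Measure.map_apply (measurable_pi_iff.2 fun i => hX h i) (measurableSet_singleton c),
      Measure.pi_singleton]
    have h3 : ∀ i, ((bern G ζ).map fun y : Bsh G => qm (y h) i) {c i} =
        ENNReal.ofReal (if c i then p else 1 - p) := by
      intro i
      rw [Measure.map_apply (hX h i) (measurableSet_singleton _)]
      have h4 : (bern G ζ).real {y : Bsh G | qm (y h) i = true} = p := by
        have := IndA_ev (G := G) hm h (S := {c | c i = true})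
        exact this.trans (IndA_one hm i)
      have h4m : MeasurableSet {y : Bsh G | qm (y h) i = true} :=
        hX h i (measurableSet_singleton true)
      cases hc : c i with
      | true =>
        have h5 : (fun y : Bsh G => qm (y h) i) ⁻¹' {true} = {y : Bsh G | qm (y h) i = true} := rfl
        rw [h5, ← ofReal_measureReal, h4]
        simp
      | false =>
        have h5 : (fun y : Bsh G => qm (y h) i) ⁻¹' {false} =
            {y : Bsh G | qm (y h) i = true}ᶜ := by
          ext y
          simp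
        rw [h5, ← ofReal_measureReal, measureReal_compl h4m, h4]
        simp
    rw [Finset.prod_congr rfl fun i _ => h3 i, ← ENNReal.ofReal_prod_of_nonneg]
    · rw [← hm.2.2.2 c, ← ofReal_measureReal]
      congr 1
      exact IndA_ev (G := G) hm h (S := {c})
    · intro i _
      split_ifs
      · exact hm.1
      · linarith [hm.2.1]
  have h3 := iIndepFun_uncurry' (X := fun (h : G) (i : Fin m) (y : Bsh G) => qm (y h) i) hX h1 h2
  have h4 : Function.Injective fun e : Fin m × G => ((e.2)⁻¹, e.1) := by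
    rintro ⟨a, b⟩ ⟨a', b'⟩ h
    simp only [Prod.mk.injEq, inv_inj] at h
    rw [h.1, h.2]
  have h5 := h3.precomp h4
  have h6 : (fun (e : Fin m × G) (y : Bsh G) => tq qm y e.2 e.1) =
      fun (e : Fin m × G) (y : Bsh G) => qm (y (e.2)⁻¹) e.1 := by
    funext e y
    exact IndA_tq qm y e.1 e.2
  rw [h6]
  exact h5

theorem ind_bd {G : Type} [Group G] [DecidableEq G] [Countable G] {m : ℕ} (p : ℝ) (ζ : Measure ℝ)
    [IsProbabilityMeasure ζ] (qm : ℝ → Fin m → Bool) (hm : Mlw p ζ qm) {T Q : Type} [Fintype T] [Fintype Q]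
    (F : T → Q → Finset (Fin m × G)) (hd : ∀ a b : T × Q, a ≠ b → Disjoint (F a.1 a.2) (F b.1 b.2)) (s : ℕ)
    (hs : ∀ a b, s ≤ (F a b).card) :
    (bern G ζ).real {y | ∀ a, ∃ b, ∀ e ∈ F a b, tq qm y e.2 e.1 ≠ true} ≤
      (1 - (1 - (1 - p) ^ s) ^ Fintype.card Q) ^ Fintype.card T := by
  classical
  have hi := IndA_ind (G := G) hm
  have hmq := IndA_mq hm
  have hb : ∀ e : Fin m × G, Measurable fun y : Bsh G => tq qm y e.2 e.1 := by
    intro e
    have h1 : (fun y : Bsh G => tq qm y e.2 e.1) = fun y : Bsh G => qm (y (e.2)⁻¹) e.1 := by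
      funext y
      exact IndA_tq qm y e.1 e.2
    rw [h1]
    exact (measurable_pi_apply e.1).comp
      (hmq.comp (measurable_pi_apply (X := fun _ : G => ℝ) (e.2)⁻¹))
  have hp0 : 0 ≤ 1 - p := by linarith [hm.2.1]
  have hp1 : 1 - p ≤ 1 := by linarith [hm.1]
  -- no mark on `F a b`
  have hE : ∀ a b, (bern G ζ).real {y : Bsh G | ∀ e ∈ F a b, tq qm y e.2 e.1 ≠ true} =
      (1 - p) ^ (F a b).card := by
    intro a b
    have h1 := IndA_prod hi hb (fun e : Fin m × G => {e})
      (fun e => {y : Bsh G | tq qm y e.2 e.1 ≠ true})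
      (fun e ω ω' h => by
        have : tq qm ω e.2 e.1 = tq qm ω' e.2 e.1 := h e (Finset.mem_singleton_self e)
        show tq qm ω e.2 e.1 ≠ true ↔ tq qm ω' e.2 e.1 ≠ true
        rw [this])
      (fun e e' hne => Finset.disjoint_singleton.2 hne) (F a b)
    refine h1.trans ?_
    rw [Finset.prod_congr rfl (g := fun _ => 1 - p), Finset.prod_const]
    intro e _
    have h2 : {y : Bsh G | tq qm y e.2 e.1 ≠ true} = {y : Bsh G | tq qm y e.2 e.1 = true}ᶜ := rfl
    have h3 : MeasurableSet {y : Bsh G | tq qm y e.2 e.1 = true} := hb e (measurableSet_singleton _)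
    rw [h2, measureReal_compl h3, mk_one p ζ qm hm e.1 e.2]
    simp
  have hDE : ∀ a b, IndA_D (fun (e : Fin m × G) (y : Bsh G) => tq qm y e.2 e.1) (F a b)
      {y : Bsh G | ∀ e ∈ F a b, tq qm y e.2 e.1 ≠ true} := by
    intro a b ω ω' h
    refine forall₂_congr fun e he => ?_
    have : tq qm ω e.2 e.1 = tq qm ω' e.2 e.1 := h e he
    show tq qm ω e.2 e.1 ≠ true ↔ tq qm ω' e.2 e.1 ≠ true
    rw [this]
  have hmE : ∀ a b, MeasurableSet {y : Bsh G | ∀ e ∈ F a b, tq qm y e.2 e.1 ≠ true} :=
    fun a b => IndA_meas hb (hDE a b)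
  -- for fixed `a`
  have hnone : ∀ a, (bern G ζ).real {y : Bsh G | ∀ b ∈ (Finset.univ : Finset Q),
      y ∈ ({y : Bsh G | ∀ e ∈ F a b, tq qm y e.2 e.1 ≠ true})ᶜ} =
        ∏ b, (1 - (1 - p) ^ (F a b).card) := by
    intro a
    rw [IndA_prod hi hb (fun b => F a b)
      (fun b => ({y : Bsh G | ∀ e ∈ F a b, tq qm y e.2 e.1 ≠ true})ᶜ)
      (fun b => IndA_compl (hDE a b))
      (fun b b' hne => hd (a, b) (a, b') fun h => hne (congrArg Prod.snd h)) Finset.univ]
    refine Finset.prod_congr rfl fun b _ => ?_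
    rw [measureReal_compl (hmE a b), hE a b]
    simp
  have hDa : ∀ a, IndA_D (fun (e : Fin m × G) (y : Bsh G) => tq qm y e.2 e.1)
      (Finset.univ.biUnion fun b => F a b)
      {y : Bsh G | ∃ b, ∀ e ∈ F a b, tq qm y e.2 e.1 ≠ true} := by
    intro a
    have h1 := IndA_compl (IndA_all Finset.univ (fun b => F a b)
      (fun b => ({y : Bsh G | ∀ e ∈ F a b, tq qm y e.2 e.1 ≠ true})ᶜ)
      (fun b => IndA_compl (hDE a b)))
    have h2 : ({y : Bsh G | ∀ b ∈ (Finset.univ : Finset Q),
        y ∈ ({y : Bsh G | ∀ e ∈ F a b, tq qm y e.2 e.1 ≠ true})ᶜ})ᶜ =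
        {y : Bsh G | ∃ b, ∀ e ∈ F a b, tq qm y e.2 e.1 ≠ true} := by
      ext y
      constructor
      · intro h
        by_contra hcon
        exact h fun b _ hb' => hcon ⟨b, hb'⟩
      · rintro ⟨b, hb'⟩ h
        exact h b (Finset.mem_univ b) hb'
    rw [h2] at h1
    exact h1
  have hPa : ∀ a, (bern G ζ).real {y : Bsh G | ∃ b, ∀ e ∈ F a b, tq qm y e.2 e.1 ≠ true} =
      1 - ∏ b, (1 - (1 - p) ^ (F a b).card) := by
    intro a
    rw [← hnone a]
    have h2 : {y : Bsh G | ∃ b, ∀ e ∈ F a b, tq qm y e.2 e.1 ≠ true} =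
        ({y : Bsh G | ∀ b ∈ (Finset.univ : Finset Q),
          y ∈ ({y : Bsh G | ∀ e ∈ F a b, tq qm y e.2 e.1 ≠ true})ᶜ})ᶜ := by
      ext y
      constructor
      · rintro ⟨b, hb'⟩ h
        exact h b (Finset.mem_univ b) hb'
      · intro h
        by_contra hcon
        exact h fun b _ hb' => hcon ⟨b, hb'⟩
    rw [h2, measureReal_compl]
    · simp
    · exact IndA_meas hb (IndA_all Finset.univ (fun b => F a b)
        (fun b => ({y : Bsh G | ∀ e ∈ F a b, tq qm y e.2 e.1 ≠ true})ᶜ)
        (fun b => IndA_compl (hDE a b)))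
  have hdis : ∀ a a' : T, a ≠ a' → Disjoint (Finset.univ.biUnion fun b => F a b)
      (Finset.univ.biUnion fun b => F a' b) := by
    intro a a' hne
    rw [Finset.disjoint_biUnion_left]
    intro b _
    rw [Finset.disjoint_biUnion_right]
    intro b' _
    exact hd (a, b) (a', b') fun h => hne (congrArg Prod.fst h)
  have hall := IndA_prod hi hb (fun a => Finset.univ.biUnion fun b => F a b)
    (fun a => {y : Bsh G | ∃ b, ∀ e ∈ F a b, tq qm y e.2 e.1 ≠ true}) hDa hdis Finset.univ
  have h7 : {y : Bsh G | ∀ a, ∃ b, ∀ e ∈ F a b, tq qm y e.2 e.1 ≠ true} =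
      {y : Bsh G | ∀ a ∈ (Finset.univ : Finset T),
        y ∈ {y : Bsh G | ∃ b, ∀ e ∈ F a b, tq qm y e.2 e.1 ≠ true}} := by
    ext y
    exact ⟨fun h a _ => h a, fun h a => h a (Finset.mem_univ a)⟩
  rw [h7, hall]
  have hc1 : (1 - p) ^ s ≤ 1 := pow_le_one₀ hp0 hp1
  have h8 : ∀ a ∈ (Finset.univ : Finset T),
      (bern G ζ).real {y : Bsh G | ∃ b, ∀ e ∈ F a b, tq qm y e.2 e.1 ≠ true} ≤
        1 - (1 - (1 - p) ^ s) ^ Fintype.card Q := by
    intro a _
    rw [hPa a]
    have h9 : (1 - (1 - p) ^ s) ^ Fintype.card Q ≤ ∏ b, (1 - (1 - p) ^ (F a b).card) := by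
      rw [← Finset.card_univ, ← Finset.prod_const]
      refine Finset.prod_le_prod (fun b _ => by linarith) fun b _ => ?_
      have := pow_le_pow_of_le_one hp0 hp1 (hs a b)
      linarith
    linarith
  calc ∏ a, (bern G ζ).real {y : Bsh G | ∃ b, ∀ e ∈ F a b, tq qm y e.2 e.1 ≠ true} ≤
      ∏ _a : T, (1 - (1 - (1 - p) ^ s) ^ Fintype.card Q) :=
        Finset.prod_le_prod (fun a _ => measureReal_nonneg) h8
    _ = (1 - (1 - (1 - p) ^ s) ^ Fintype.card Q) ^ Fintype.card T := by
        rw [Finset.prod_const, Finset.card_univ]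

end H33.HN
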