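import Pool.Agent.H33.BO.AmpC

/-! # HN.Kap : transport of the marks to the other side (paper 5.7)

PROOF. `coc_ex` for the orbit equivalence `(S, T)` (roles exchanged: `OE G ν μ S T`): `π' : Bsh G → Equiv.Perm G`, measurable, `S (a • y) = π' y a • S y`, `π' y (b * a) = π' (a • y) b * π' y a` for almost every `y`. For `y' : Bsh G`, `(y, z) := JI G y'`: `κ y' := fun g => z (((π' y).symm g⁻¹)⁻¹)`. Measure preserving: `JI_mp`, and `(y, z) ↦ κ` maps `(bern G ν).prod (bern G ζ)` to `bern G ζ`: for fixed `y` the map of `z` is a permutation of the coordinates and preserves `bern G ζ`; jointly measurable: exactly the second component of `T1` in H33/BO/AmpC (`MeasurePreserving.skew_product` or Fubini).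
Equivariance (computation in AmpC): the coordinate `(π' y c)⁻¹` of `κ (y, z)` is `z c⁻¹`; the coordinate `(π' (a • y) c)⁻¹` of `κ (a • y, a • z)` is `(a • z) c⁻¹ = z (a⁻¹ * c⁻¹)`, and the coordinate `(π' (a • y) c)⁻¹` of `π' y a • κ (y, z)` is the coordinate `(π' y a)⁻¹ * (π' (a • y) c)⁻¹ = (π' y (c * a))⁻¹` of `κ (y, z)`, which is `z (c * a)⁻¹`. So `κ (a • y') = π' y a • κ y'` (`JI G (a • y') = (a • y, a • z)`: from `JJ_smul`). If `S (a • y) = b • S y` then `b = π' y a` by freeness at `S y` (`free_bern` for `μ`, `h.mS`). -/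

set_option autoImplicit false
set_option synthInstance.maxSize 4000

open MeasureTheory H31.BE

namespace H33.HN

private noncomputable def Kap_rl {G : Type} [Group G] (σ : Equiv.Perm G) (z : Bsh G) : Bsh G :=
  fun g => z ((σ.symm g⁻¹)⁻¹)

private theorem Kap_rl_apply {G : Type} [Group G] (σ : Equiv.Perm G) (z : Bsh G) (b : G) :
    Kap_rl σ z (σ b)⁻¹ = z b⁻¹ := by
  simp [Kap_rl]

private def Kap_pm {G : Type} (e : Equiv.Perm G) (y : Bsh G) : Bsh G := fun g => y (e g)

private theorem Kap_perm {G : Type} [Group G] [DecidableEq G] (ζ : Measure ℝ) [IsProbabilityMeasure ζ]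
    (e : Equiv.Perm G) :
    Measure.map (Kap_pm e) (bern G ζ) = bern G ζ := by
  have hm : Measurable (Kap_pm e) :=
    measurable_pi_iff.2 (fun h => measurable_eval (e h))
  apply bern_unique
  intro s t ht
  rw [Measure.map_apply hm (measurableSet_rect s t (fun i _ => ht i))]
  have hset : Kap_pm e ⁻¹' {y : Bsh G | ∀ i ∈ s, y i ∈ t i} =
      {y : Bsh G | ∀ i ∈ s.image e, y i ∈ t (e.symm i)} := by
    ext y
    simp only [Set.mem_preimage, Set.mem_setOf_eq, Finset.mem_image,
      forall_exists_index, and_imp, forall_apply_eq_imp_iff₂, Equiv.symm_apply_apply, Kap_pm]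
  rw [hset, bern_pi ζ (s.image e) (fun k => t (e.symm k)) (fun i _ => ht _),
    Finset.prod_image (by intro a _ b _ hab; exact e.injective hab)]
  simp

private theorem Kap_rl_map {G : Type} [Group G] [DecidableEq G] (ζ : Measure ℝ) [IsProbabilityMeasure ζ]
    (σ : Equiv.Perm G) : Measure.map (Kap_rl σ) (bern G ζ) = bern G ζ :=
  Kap_perm ζ (((Equiv.inv G).trans σ.symm).trans (Equiv.inv G))

private theorem Kap_meas {G : Type} [Group G] [DecidableEq G] [Countable G] (π : Bsh G → Equiv.Perm G)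
    (hm : ∀ a b : G, MeasurableSet {x | (π x).symm a = b}) :
    Measurable (Function.uncurry (fun (x z : Bsh G) => Kap_rl (π x) z)) := by
  refine measurable_pi_iff.2 (fun g => ?_)
  intro A hA
  have : (fun p : Bsh G × Bsh G => Function.uncurry (fun (x z : Bsh G) => Kap_rl (π x) z) p g) ⁻¹' A =
      ⋃ b : G, (({x | (π x).symm g⁻¹ = b} : Set (Bsh G)) ×ˢ ((fun y : Bsh G => y b⁻¹) ⁻¹' A)) := by
    ext p
    simp only [Set.mem_preimage, Set.mem_iUnion, Set.mem_prod, Set.mem_setOf_eq, Function.uncurry, Kap_rl]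
    constructor
    · intro h
      exact ⟨_, rfl, h⟩
    · rintro ⟨b, hb, h⟩
      rw [hb]
      exact h
  rw [this]
  exact MeasurableSet.iUnion fun b => (hm g⁻¹ b).prod (measurable_eval b⁻¹ hA)

open H33.BO in
private theorem Kap_JI_smul {G : Type} [Group G] [Countable G] (a : G) (y : Bsh G) :
    JI G (a • y) = (a • (JI G y).1, a • (JI G y).2) := by
  have h : a • y = JJ G (a • (JI G y).1, a • (JI G y).2) := by
    rw [JJ_smul, Prod.mk.eta, JJ_JI]
  rw [h, JI_JJ]

open H33.BO in
theorem kap {G : Type} [Group G] [DecidableEq G] [Countable G] [Infinite G] (μ ν ζ : Measure ℝ)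
    [IsProbabilityMeasure μ] [IsProbabilityMeasure ν] [IsProbabilityMeasure ζ] (hμ : Nontriv μ) (hν : Nontriv ν)
    (T S : Bsh G → Bsh G) (h : OE G μ ν T S) :
    ∃ κ : Bsh G → Bsh G, MeasurePreserving κ (bern G (cod ν ζ)) (bern G ζ) ∧
      ∀ᵐ y ∂(bern G (cod ν ζ)), ∀ a b : G, S (a • (JI G y).1) = b • S (JI G y).1 → κ (a • y) = b • κ y := by
  have h' : OE G ν μ S T := ⟨h.mS, h.mT, h.TS, h.ST, h.bS, h.bT⟩
  obtain ⟨π', _, h1, h2, h3, _⟩ := coc_ex ν μ hν hμ S T h'
  have hfree : ∀ᵐ x ∂(bern G μ), ∀ a : G, a ≠ 1 → a • x ≠ x := by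
    refine ae_all_iff.2 fun a => ?_
    by_cases ha : a = 1
    · exact Filter.Eventually.of_forall fun x h => (h ha).elim
    · filter_upwards [free_bern μ hμ a ha] with x hx _ using hx
  have hfS := h.mS.quasiMeasurePreserving.ae hfree
  have hq : Measure.QuasiMeasurePreserving (fun y : Bsh G => (JI G y).1) (bern G (cod ν ζ)) (bern G ν) :=
    Measure.quasiMeasurePreserving_fst.comp (JI_mp ν ζ).quasiMeasurePreserving
  refine ⟨fun y => Kap_rl (π' (JI G y).1) (JI G y).2, ?_, ?_⟩
  · have hs := MeasurePreserving.skew_product (μc := bern G ζ) (μd := bern G ζ)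
      (MeasurePreserving.id (bern G ν)) (Kap_meas π' h1)
      (Filter.Eventually.of_forall fun x => Kap_rl_map ζ (π' x))
    have hsnd : MeasurePreserving (Prod.snd : Bsh G × Bsh G → Bsh G) ((bern G ν).prod (bern G ζ))
      (bern G ζ) := measurePreserving_snd
    exact (hsnd.comp hs).comp (JI_mp ν ζ)
  · filter_upwards [hq.ae h2, hq.ae h3, hq.ae hfS] with y e2 e3 e4 a b hab
    have hb : b = π' (JI G y).1 a := by
      rw [e2 a] at hab
      by_contra hne
      have hne' : b⁻¹ * π' (JI G y).1 a ≠ 1 := fun h0 => hne (inv_mul_eq_one.1 h0)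
      apply e4 _ hne'
      rw [mul_smul, hab, inv_smul_smul]
    rw [hb]
    show Kap_rl (π' (JI G (a • y)).1) (JI G (a • y)).2 = π' (JI G y).1 a • Kap_rl (π' (JI G y).1) (JI G y).2
    rw [Kap_JI_smul]
    funext k
    obtain ⟨c, hc⟩ : ∃ c : G, k = (π' (a • (JI G y).1) c)⁻¹ :=
      ⟨(π' (a • (JI G y).1)).symm k⁻¹, by simp⟩
    show Kap_rl (π' (a • (JI G y).1)) (a • (JI G y).2) k =
      (π' (JI G y).1 a • Kap_rl (π' (JI G y).1) (JI G y).2) k
    rw [hc, Kap_rl_apply, Bsh.smul_apply, Bsh.smul_apply, ← mul_inv_rev, ← mul_inv_rev, ← e3 a c,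
      Kap_rl_apply]

end H33.HN
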