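import Pool.Agent.H33.HN.DefsP
import Pool.Agent.H33.HN.WrdA

/-! # HN.KcA : peeling: a structure is determined by its edges that are not T-edges

PROOF. `GX`: `hG v (hv : v ∉ Bd)`: the relations hold at `v`, and `KF` (for `dk v i = some c`: `c.1 = i` and `hk v i = 1 + sup`, in particular `hk (ac X (pg c q) v) q.1 < hk v i` for `Al c q`, `Finset.le_sup`). `tp_uniq`: if `TP s v p`, `TP s v p'`, `p ≠ p'`: `w = (ac X (cw (sc p)))⁻¹ v`, `w' = (ac X (cw (sc p')))⁻¹ v = ac X (pg p p') w`, `Al p p'`, so `hk w' p'.1 < hk w p.1`, and symmetrically the converse: a contradiction.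
`tp_count`: the map `(i, w) ↦ (lp p, ac X (cw (sc p)) w)`, `dk w i = some p`, on the pairs with `w ∉ Bd`, `dk w i ≠ none` (`p.1 = i`) is injective by `tp_uniq` and its values are pairs `(s, v)` with `∃ p, TP s v p`. The number of the pairs `(i, w)` is `card I * card V`.
`tp_det`: let `D0` be a bound of `hk`. Claim: for all `j` and `s v p`, if `TP X s v p` and `D0 < hk w p.1 + j` (`w = (ac X (cw (sc p)))⁻¹ v`) then `X s v = X' s v`. Induction on `j` (`j = 0` impossible). The corners `v_c := ac X (cw c) w` of the cell, `c.1 = p.1`, satisfy `X (lp c) v_(sc c) = v_(tc c)` (`ac_edge`). (*) For every `c ≠ p`, `c.1 = p.1`: `X (lp c) v_(sc c) = X' (lp c) v_(sc c)`: if there is no `p'` with `TP X (lp c) v_(sc c) p'` by `hA`. Otherwise `p' ≠ c` (`p' = c` gives `dk w c.1 = some c`, but `dk w p.1 = some p`), the cell of `p'` has the base point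
`w' = (ac X (cw (sc p')))⁻¹ v_(sc c)`, `w = ac X (pg p' c) w'`, `Al p' c`, so `hk w p.1 < hk w' p'.1` and the induction hypothesis applies. Now `TP X' s v p`: `w'' := (ac X' (cw (sc p)))⁻¹ v ∉ Bd'`, the relation `r p.1` holds for `X'` at `w''`; `v''_c := ac X' (cw c) w''` satisfy `X' (lp c) v''_(sc c) = v''_(tc c)` and `v''_(sc p) = v = v_(sc p)`. Going around the cell from the corner `sc p` (away from the edge `p`), (*) gives `v''_c = v_c` for all corners `c` of the cell:
for `c ≠ p` the edge `c` joins `c` and `nx c` in both structures, and `v''_c = v_c` iff `v''_(nx c) = v_(nx c)` (by (*) and since `X'` is a permutation); the corners are `nx^[k] (sc p)`. So `X' s v = v''_(tc p) = v_(tc p) = X s v`. Conclusion: `X = X'` (for `(s, v)` without T: `hA`). -/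

set_option autoImplicit false
set_option synthInstance.maxSize 4000

open MeasureTheory H31.BE

namespace H33.HN

variable {S I : Type} [Fintype S] [Fintype I] [DecidableEq S] [DecidableEq I] {r : Rl S I} {V : Type}

omit [Fintype S] [Fintype I] [DecidableEq S] [DecidableEq I] in
private theorem KcA_ai (e : Equiv.Perm V) (x : V) : e (e⁻¹ x) = x := e.apply_symm_apply x

omit [Fintype S] [Fintype I] [DecidableEq S] [DecidableEq I] in
private theorem KcA_ia (e : Equiv.Perm V) (x : V) : e⁻¹ (e x) = x := e.symm_apply_apply x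

omit [Fintype S] in
private theorem KcA_lt (X : S → Equiv.Perm V) (dk : V → I → Option (Ps r)) (hk : V → I → ℕ) (w : V)
    (hK : KF X dk hk w) (p q : Ps r) (hp : dk w p.1 = some p) (hq : Al p q) :
    hk (ac X (pg p q) w) q.1 < hk w p.1 := by
  have h2 := ((hK p.1).2 p hp).2
  have h3 : hk (ac X (pg p q) w) q.1 ≤
      (Finset.univ.filter fun q => Al p q).sup fun q => hk (ac X (pg p q) w) q.1 :=
    Finset.le_sup (f := fun q => hk (ac X (pg p q) w) q.1)
      (Finset.mem_filter.2 ⟨Finset.mem_univ q, hq⟩)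
  rw [h2]
  omega

omit [Fintype S] [Fintype I] [DecidableEq S] [DecidableEq I] in
private theorem KcA_base (X : S → Equiv.Perm V) (p q : Ps r) (v : V) :
    ac X (pg p q) ((ac X (cw (sc p)))⁻¹ v) = (ac X (cw (sc q)))⁻¹ v := by
  unfold pg
  rw [map_mul, map_inv, Equiv.Perm.mul_apply, KcA_ai]

omit [Fintype S] [Fintype I] [DecidableEq S] [DecidableEq I] in
private theorem KcA_cyc (Q : Ps r → Prop) (p : Ps r)
    (hQ : ∀ c : Ps r, c.1 = p.1 → c ≠ p → (Q c ↔ Q (nx c))) : Q (nx p) ↔ Q p := by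
  obtain ⟨i, a, ha⟩ := p
  have hn : 0 < (r i).length := lt_of_le_of_lt (Nat.zero_le _) ha
  have key : ∀ k, 1 ≤ k → k ≤ (r i).length →
      (Q (nx (⟨i, ⟨a, ha⟩⟩ : Ps r)) ↔
        Q (⟨i, ⟨(a + k) % (r i).length, Nat.mod_lt _ hn⟩⟩ : Ps r)) := by
    intro k hk
    induction k, hk using Nat.le_induction with
    | base => intro _; exact Iff.rfl
    | succ k hk ih =>
      intro hk'
      rw [ih (by omega)]
      have hne : (⟨i, ⟨(a + k) % (r i).length, Nat.mod_lt _ hn⟩⟩ : Ps r) ≠ ⟨i, ⟨a, ha⟩⟩ := by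
        intro h
        have h1 : (a + k) % (r i).length = a := by
          have h2 := eq_of_heq (Sigma.mk.inj h).2
          exact congrArg Fin.val h2
        rcases lt_or_ge (a + k) (r i).length with h3 | h3
        · rw [Nat.mod_eq_of_lt h3] at h1
          omega
        · rw [Nat.mod_eq_sub_mod h3, Nat.mod_eq_of_lt (by omega)] at h1
          omega
      rw [hQ (⟨i, ⟨(a + k) % (r i).length, Nat.mod_lt _ hn⟩⟩ : Ps r) rfl hne]
      have h4 : nx (⟨i, ⟨(a + k) % (r i).length, Nat.mod_lt _ hn⟩⟩ : Ps r) =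
          ⟨i, ⟨(a + (k + 1)) % (r i).length, Nat.mod_lt _ hn⟩⟩ := by
        unfold nx
        simp only [Nat.mod_add_mod, add_assoc]
      rw [h4]
  have h5 := key (r i).length hn le_rfl
  have h6 : (⟨i, ⟨(a + (r i).length) % (r i).length, Nat.mod_lt _ hn⟩⟩ : Ps r) = ⟨i, ⟨a, ha⟩⟩ := by
    simp only [Nat.add_mod_right, Nat.mod_eq_of_lt ha]
  rw [h6] at h5
  exact h5

omit [Fintype S] [Fintype I] [DecidableEq S] [DecidableEq I] in
private theorem KcA_step (X X' : S → Equiv.Perm V) (p : Ps r) (w w' : V)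
    (hw : ac X (pv (r p.1)) w = w) (hw' : ac X' (pv (r p.1)) w' = w')
    (hc : ∀ c : Ps r, c.1 = p.1 → c ≠ p →
      X (lp c) (ac X (cw (sc c)) w) = X' (lp c) (ac X (cw (sc c)) w))
    (h0 : ac X (cw (sc p)) w = ac X' (cw (sc p)) w') :
    X (lp p) (ac X (cw (sc p)) w) = X' (lp p) (ac X (cw (sc p)) w) := by
  have hcyc := KcA_cyc (fun c => ac X (cw c) w = ac X' (cw c) w') p (by
    intro c hc1 hc2
    have e1 := ac_edge X c w (by rw [hc1]; exact hw)
    have e2 := ac_edge X' c w' (by rw [hc1]; exact hw')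
    have e3 := hc c hc1 hc2
    have e4 : ac X (cw (sc c)) w = ac X' (cw (sc c)) w' ↔ ac X (cw (tc c)) w = ac X' (cw (tc c)) w' := by
      constructor
      · intro h
        rw [← e1, ← e2, e3, h]
      · intro h
        rw [← e1, ← e2, e3] at h
        exact (X' (lp c)).injective h
    unfold sc tc at e4
    show ac X (cw c) w = ac X' (cw c) w' ↔ ac X (cw (nx c)) w = ac X' (cw (nx c)) w'
    by_cases hs : sg c = true
    · rw [if_pos hs, if_pos hs] at e4
      exact e4
    · rw [if_neg hs, if_neg hs] at e4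
      exact e4.symm)
  have e1 := ac_edge X p w hw
  have e2 := ac_edge X' p w' hw'
  have e5 : ac X (cw (tc p)) w = ac X' (cw (tc p)) w' := by
    unfold sc at h0
    unfold tc
    by_cases hs : sg p = true
    · rw [if_pos hs] at h0 ⊢
      exact hcyc.2 h0
    · rw [if_neg hs] at h0 ⊢
      exact hcyc.1 h0
  rw [e1, e5, ← e2, h0]

theorem tp_uniq (X : S → Equiv.Perm V) (dk : V → I → Option (Ps r)) (hk : V → I → ℕ) (Bd : Set V)
    (hG : ∀ v, v ∉ Bd → (∀ i, ac X (pv (r i)) v = v) ∧ KF X dk hk v) (s : S) (v : V) (p p' : Ps r)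
    (h : TP X dk Bd s v p) (h' : TP X dk Bd s v p') : p = p' := by
  by_contra hne
  obtain ⟨h1, h2, h3⟩ := h
  obtain ⟨h1', h2', h3'⟩ := h'
  have a1 := KcA_lt X dk hk _ (hG _ h2).2 p p' h3 ⟨by rw [h1', h1], fun e => hne e.symm⟩
  have a2 := KcA_lt X dk hk _ (hG _ h2').2 p' p h3' ⟨by rw [h1, h1'], hne⟩
  rw [KcA_base] at a1 a2
  exact absurd a1 (not_lt.2 a2.le)

theorem tp_count [Finite V] (X : S → Equiv.Perm V) (dk : V → I → Option (Ps r)) (hk : V → I → ℕ) (Bd : Set V)
    (hG : ∀ v, v ∉ Bd → (∀ i, ac X (pv (r i)) v = v) ∧ KF X dk hk v) :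
    Fintype.card I * Nat.card V ≤ ∑ s : S, {v | ∃ p, TP X dk Bd s v p}.ncard + ∑ i : I, {v | dk v i = none}.ncard +
      Fintype.card I * Bd.ncard := by
  classical
  have := Fintype.ofFinite V
  have h1 : ∀ i : I, Nat.card V ≤ {v | v ∉ Bd ∧ dk v i ≠ none}.ncard + {v | dk v i = none}.ncard +
      Bd.ncard := by
    intro i
    rw [← Set.ncard_univ]
    refine (Set.ncard_le_ncard (t := {v | v ∉ Bd ∧ dk v i ≠ none} ∪ {v | dk v i = none} ∪ Bd) ?_
      (Set.toFinite _)).trans ?_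
    · intro v _
      by_cases hv : v ∈ Bd
      · exact Or.inr hv
      · by_cases hd : dk v i = none
        · exact Or.inl (Or.inr hd)
        · exact Or.inl (Or.inl ⟨hv, hd⟩)
    · exact (Set.ncard_union_le _ _).trans (Nat.add_le_add_right (Set.ncard_union_le _ _) _)
  have h2 : ∑ i : I, {v | v ∉ Bd ∧ dk v i ≠ none}.ncard ≤
      ∑ s : S, {v | ∃ p, TP X dk Bd s v p}.ncard := by
    simp_rw [Set.ncard_eq_toFinset_card']
    rw [← Finset.card_sigma, ← Finset.card_sigma]
    refine Finset.card_le_card_of_forall_subsingleton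
      (fun (x : Σ _ : I, V) (y : Σ _ : S, V) => ∃ p, dk x.2 x.1 = some p ∧ x.2 ∉ Bd ∧
        y = ⟨lp p, ac X (cw (sc p)) x.2⟩) ?_ ?_
    · rintro ⟨i, w⟩ hx
      have hx2 : w ∉ Bd ∧ dk w i ≠ none := by
        have := (Finset.mem_sigma.1 hx).2
        simpa using this
      obtain ⟨p, hp⟩ := Option.ne_none_iff_exists'.1 hx2.2
      have hpi := ((hG w hx2.1).2 i).2 p hp
      refine ⟨⟨lp p, ac X (cw (sc p)) w⟩, ?_, p, hp, hx2.1, rfl⟩
      refine Finset.mem_sigma.2 ⟨Finset.mem_univ _, ?_⟩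
      rw [Set.mem_toFinset]
      refine ⟨p, rfl, ?_, ?_⟩
      · rw [KcA_ia]
        exact hx2.1
      · rw [KcA_ia, hpi.1]
        exact hp
    · rintro ⟨s, v⟩ _ ⟨i, w⟩ ⟨_, p, hp, hB, hy⟩ ⟨i', w'⟩ ⟨_, p', hp', hB', hy'⟩
      have q1 : s = lp p ∧ v = ac X (cw (sc p)) w := by
        cases hy
        exact ⟨rfl, rfl⟩
      have q2 : s = lp p' ∧ v = ac X (cw (sc p')) w' := by
        cases hy'
        exact ⟨rfl, rfl⟩
      have i1 := (((hG w hB).2 i).2 p hp).1
      have i2 := (((hG w' hB').2 i').2 p' hp').1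
      have w1 : (ac X (cw (sc p)))⁻¹ v = w := by
        rw [q1.2, KcA_ia]
      have w2 : (ac X (cw (sc p')))⁻¹ v = w' := by
        rw [q2.2, KcA_ia]
      have t1 : TP X dk Bd s v p := ⟨q1.1.symm, by rw [w1]; exact hB, by rw [w1, i1]; exact hp⟩
      have t2 : TP X dk Bd s v p' := ⟨q2.1.symm, by rw [w2]; exact hB', by rw [w2, i2]; exact hp'⟩
      have hpp : p = p' := tp_uniq X dk hk Bd hG s v p p' t1 t2
      subst hpp
      rw [← w1, ← w2, ← i1, ← i2]
  have h3 : ∑ _i : I, Nat.card V ≤ ∑ i : I, ({v | v ∉ Bd ∧ dk v i ≠ none}.ncard +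
      {v | dk v i = none}.ncard + Bd.ncard) := Finset.sum_le_sum fun i _ => h1 i
  rw [Finset.sum_add_distrib, Finset.sum_add_distrib, Finset.sum_const, Finset.sum_const,
    Finset.card_univ, smul_eq_mul, smul_eq_mul] at h3
  omega

theorem tp_det [Finite V] (X X' : S → Equiv.Perm V) (dk dk' : V → I → Option (Ps r)) (hk hk' : V → I → ℕ)
    (Bd Bd' : Set V) (hG : ∀ v, v ∉ Bd → (∀ i, ac X (pv (r i)) v = v) ∧ KF X dk hk v)
    (hG' : ∀ v, v ∉ Bd' → (∀ i, ac X' (pv (r i)) v = v) ∧ KF X' dk' hk' v)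
    (hT : ∀ s v p, TP X dk Bd s v p ↔ TP X' dk' Bd' s v p)
    (hA : ∀ s v, (¬ ∃ p, TP X dk Bd s v p) → X s v = X' s v) : X = X' := by
  classical
  obtain ⟨D0, hD0⟩ : ∃ D0, ∀ w i, hk w i ≤ D0 := by
    obtain ⟨D0, h⟩ := (Set.finite_range (fun x : V × I => hk x.1 x.2)).bddAbove
    exact ⟨D0, fun w i => h ⟨(w, i), rfl⟩⟩
  have claim : ∀ j : ℕ, ∀ s v p, TP X dk Bd s v p →
      D0 < hk ((ac X (cw (sc p)))⁻¹ v) p.1 + j → X s v = X' s v := by
    intro j
    induction j with
    | zero =>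
      intro s v p _ h
      have := hD0 ((ac X (cw (sc p)))⁻¹ v) p.1
      omega
    | succ j ih =>
      intro s v p hp hj
      have hp' := (hT s v p).1 hp
      obtain ⟨h1, h2, h3⟩ := hp
      obtain ⟨_, h2', _⟩ := hp'
      obtain ⟨w, hw⟩ : ∃ w, w = (ac X (cw (sc p)))⁻¹ v := ⟨_, rfl⟩
      have hv : ac X (cw (sc p)) w = v := by rw [hw, KcA_ai]
      rw [← hw] at h2 h3 hj
      have hstep := KcA_step X X' p w ((ac X' (cw (sc p)))⁻¹ v) ((hG w h2).1 p.1)
        ((hG' _ h2').1 p.1) (by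
          intro c hc1 hc2
          by_cases he : ∃ p', TP X dk Bd (lp c) (ac X (cw (sc c)) w) p'
          · obtain ⟨p', hp'⟩ := he
            refine ih _ _ p' hp' ?_
            obtain ⟨g1, g2, g3⟩ := hp'
            have hne : c ≠ p' := by
              intro hcp
              rw [← hcp, KcA_ia, hc1, h3] at g3
              exact hc2 (Option.some.inj g3).symm
            have hlt := KcA_lt X dk hk _ (hG _ g2).2 p' c g3 ⟨g1.symm, hne⟩
            rw [KcA_base, KcA_ia, hc1] at hlt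
            omega
          · exact hA _ _ he) (by rw [hv, KcA_ai])
      rw [hv, h1] at hstep
      exact hstep
  funext s
  refine Equiv.ext fun v => ?_
  by_cases he : ∃ p, TP X dk Bd s v p
  · obtain ⟨p, hp⟩ := he
    exact claim (D0 + 1) s v p hp (by omega)
  · exact hA s v he

end H33.HN
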