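import Pool.Agent.H33.HN.KcA
import Pool.Agent.H31.BE.EntE

/-! # HN.KcB : entropy of a structure with a T-structure (paper 4.5)

PROOF. Random variables (everything on a finite discrete space): `tp ω s v : Option (Ps r)` := `some p` if `TP (X ω) .. s v p` (unique: `tp_uniq`), `none` otherwise; `A ω s v := if tp ω s v = none then X ω s v else v`. By `tp_det` `(tp ω, A ω) = (tp ω', A ω')` implies `X ω = X ω'` (for almost all `ω`, `ω'`), so `ent X ≤ ent (tp, A) = ent tp + entc A tp` (`ent_comp_le` with a function that is right on the almost sure set, `ent_congr_ae`; `entc` by definition).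
`ent tp ≤ log (card (S → Fin n → Option (Ps r))) = card S * n * log (card (Ps r) + 1)` (`ent_le_log_card`). `entc_le_count` for `A` given `tp = t`: the number of the possible `A` is at most `∏ (s, v) with t s v = none, n = n ^ #{(s, v) | t s v = none}`, and `#{(s, v) | t s v = none} = card S * n - ∑ s, #{v | ∃ p, TP ..} ≤ (card S - card I) * n + ∑ i, #{v | dk v i = none} + card I * #Bd` (`tp_count`, `Nat.card (Fin n) = n`). Integrate. `C := card S * log (card (Ps r) + 1)`. `log n ≥ 0`. -/

set_option autoImplicit false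
set_option synthInstance.maxSize 4000

open MeasureTheory H31.BE

namespace H33.HN

variable {S I : Type} [Fintype S] [Fintype I] [DecidableEq S] [DecidableEq I]

/-- the number of the arrays that are the identity away from a set of places -/
private theorem KcB_cnt (n : ℕ) (r₀ : Rl S I) (t : S → Fin n → Option (Ps r₀)) :
    {a : S → Fin n → Fin n | ∀ s v, t s v ≠ none → a s v = v}.ncard ≤
      n ^ Nat.card {q : S × Fin n // t q.1 q.2 = none} := by
  classical
  let F : (S → Fin n → Fin n) → ({q : S × Fin n // t q.1 q.2 = none} → Fin n) := fun a q => a q.1.1 q.1.2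
  have hinj : Set.InjOn F {a : S → Fin n → Fin n | ∀ s v, t s v ≠ none → a s v = v} := by
    intro a ha b hb hab
    funext s v
    by_cases h : t s v = none
    · exact congrFun hab ⟨(s, v), h⟩
    · rw [ha s v h, hb s v h]
  have h1 := Set.ncard_le_ncard_of_injOn (t := Set.univ) F (fun a _ => Set.mem_univ _) hinj (Set.toFinite _)
  refine h1.trans (le_of_eq ?_)
  rw [Set.ncard_univ, Nat.card_fun, Nat.card_eq_fintype_card (α := Fin n), Fintype.card_fin]

theorem kc (r : Rl S I) (n : ℕ) (hn : 1 ≤ n) {Ω : Type} [Finite Ω] [MeasurableSpace Ω]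
    [DiscreteMeasurableSpace Ω] (Q : Measure Ω) [IsProbabilityMeasure Q] (X : Ω → S → Equiv.Perm (Fin n))
    (dk : Ω → Fin n → I → Option (Ps r)) (hk : Ω → Fin n → I → ℕ) (Bd : Ω → Set (Fin n))
    (hG : ∀ᵐ ω ∂Q, ∀ v, v ∉ Bd ω → (∀ i, ac (X ω) (pv (r i)) v = v) ∧ KF (X ω) (dk ω) (hk ω) v) :
    ent Q X ≤ ((Fintype.card S : ℝ) - Fintype.card I) * (n * Real.log n) +
      (Fintype.card S * Real.log (Fintype.card (Ps r) + 1)) * n +
      (∫ ω, ((∑ i : I, ({v | dk ω v i = none}.ncard : ℝ)) + Fintype.card I * ((Bd ω).ncard : ℝ)) ∂Q) * Real.log n := by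
  classical
  set G : Set Ω := {ω | ∀ v, v ∉ Bd ω → (∀ i, ac (X ω) (pv (r i)) v = v) ∧ KF (X ω) (dk ω) (hk ω) v} with hGdef
  let T : Ω → S → Fin n → Prop := fun ω s v => ∃ p, TP (X ω) (dk ω) (Bd ω) s v p
  let tp : Ω → S → Fin n → Option (Ps r) := fun ω s v =>
    if h : ∃ p, TP (X ω) (dk ω) (Bd ω) s v p then some h.choose else none
  let A : Ω → S → Fin n → Fin n := fun ω s v => if T ω s v then v else X ω s v
  have htn : ∀ ω s v, tp ω s v = none ↔ ¬ T ω s v := by
    intro ω s v
    show (if h : ∃ p, TP (X ω) (dk ω) (Bd ω) s v p then some h.choose else none) = none ↔ _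
    by_cases h : ∃ p, TP (X ω) (dk ω) (Bd ω) s v p
    · rw [dif_pos h]
      exact ⟨fun h' => absurd h' (Option.some_ne_none _), fun h' => absurd h h'⟩
    · rw [dif_neg h]
      exact ⟨fun _ => h, fun _ => rfl⟩
  have hts : ∀ ω s v p, tp ω s v = some p → TP (X ω) (dk ω) (Bd ω) s v p := by
    intro ω s v p hp
    by_cases h : ∃ p, TP (X ω) (dk ω) (Bd ω) s v p
    · have h1 : tp ω s v = some h.choose := dif_pos h
      have h2 : h.choose = p := Option.some.inj (h1.symm.trans hp)
      rw [← h2]
      exact h.choose_spec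
    · have h1 : tp ω s v = none := dif_neg h
      rw [h1] at hp
      exact absurd hp.symm (Option.some_ne_none _)
  have hst : ∀ ω ∈ G, ∀ s v p, TP (X ω) (dk ω) (Bd ω) s v p → tp ω s v = some p := by
    intro ω hω s v p hp
    have h : ∃ p, TP (X ω) (dk ω) (Bd ω) s v p := ⟨p, hp⟩
    have h1 : tp ω s v = some h.choose := dif_pos h
    rw [h1, tp_uniq (X ω) (dk ω) (hk ω) (Bd ω) hω s v _ p h.choose_spec hp]
  -- the structure is determined
  have hdet : ∀ ω ∈ G, ∀ ω' ∈ G, tp ω = tp ω' → A ω = A ω' → X ω = X ω' := by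
    intro ω hω ω' hω' ht hA
    refine tp_det (X ω) (X ω') (dk ω) (dk ω') (hk ω) (hk ω') (Bd ω) (Bd ω') hω hω' ?_ ?_
    · intro s v p
      constructor
      · intro h
        refine hts ω' s v p ?_
        rw [← ht]
        exact hst ω hω s v p h
      · intro h
        refine hts ω s v p ?_
        rw [ht]
        exact hst ω' hω' s v p h
    · intro s v h
      have h' : ¬ T ω' s v := by
        rw [← htn, ← ht, htn]
        exact h
      have h1 : A ω s v = X ω s v := if_neg h
      have h2 : A ω' s v = X ω' s v := if_neg h'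
      rw [← h1, ← h2, hA]
  let φ : (S → Fin n → Fin n) × (S → Fin n → Option (Ps r)) → (S → Equiv.Perm (Fin n)) := fun x =>
    if h : ∃ ω ∈ G, (A ω, tp ω) = x then X h.choose else fun _ => Equiv.refl _
  have hφ : ∀ᵐ ω ∂Q, X ω = φ (A ω, tp ω) := by
    filter_upwards [hG] with ω hω
    have h : ∃ ω' ∈ G, (A ω', tp ω') = (A ω, tp ω) := ⟨ω, hω, rfl⟩
    have h1 : φ (A ω, tp ω) = X h.choose := dif_pos h
    rw [h1]
    have h2 := h.choose_spec.2
    exact hdet ω hω _ h.choose_spec.1 (Prod.mk.inj h2).2.symm (Prod.mk.inj h2).1.symm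
  have hfA : Fm A := fun a => MeasurableSet.of_discrete
  have hft : Fm tp := fun a => MeasurableSet.of_discrete
  have e1 : ent Q X ≤ entc Q A tp + ent Q tp := by
    rw [ent_congr_ae hφ]
    have h := ent_comp_le (P := Q) (hfA.prodMk hft) φ
    unfold entc
    linarith
  -- the first term
  have e2 : ent Q tp ≤ (Fintype.card S * Real.log (Fintype.card (Ps r) + 1)) * n := by
    refine (ent_le_log_card tp hft).trans (le_of_eq ?_)
    rw [Nat.card_fun, Nat.card_fun, Nat.card_eq_fintype_card (α := Option (Ps r)), Fintype.card_option,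
      Nat.card_eq_fintype_card (α := Fin n), Fintype.card_fin, Nat.card_eq_fintype_card (α := S)]
    push_cast
    rw [Real.log_pow, Real.log_pow]
    ring
  -- the second term
  have e3 : entc Q A tp ≤ ∫ ω, Real.log ((n ^ Nat.card {q : S × Fin n // tp ω q.1 q.2 = none} : ℕ) : ℝ) ∂Q := by
    refine entc_le_count hfA hft (fun t => n ^ Nat.card {q : S × Fin n // t q.1 q.2 = none})
      (fun t => Nat.one_le_pow _ _ hn) ?_
    intro t
    refine le_trans (Set.ncard_le_ncard ?_ (Set.toFinite _)) (KcB_cnt n r t)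
    intro a ha s v hsv
    have ha' : 0 < Q.real (A ⁻¹' {a} ∩ tp ⁻¹' {t}) := ha
    have hne : (A ⁻¹' {a} ∩ tp ⁻¹' {t}).Nonempty := by
      by_contra hcon
      rw [Set.not_nonempty_iff_eq_empty] at hcon
      rw [hcon] at ha'
      simp at ha'
    obtain ⟨ω, h1, h2⟩ := hne
    have h1' : A ω = a := h1
    have h2' : tp ω = t := h2
    rw [← h1']
    have h3 : T ω s v := by
      by_contra hcon
      rw [← htn, h2'] at hcon
      exact hsv hcon
    exact if_pos h3
  have hlog : 0 ≤ Real.log (n : ℝ) := Real.log_natCast_nonneg n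
  have e4 : ∀ᵐ ω ∂Q, Real.log ((n ^ Nat.card {q : S × Fin n // tp ω q.1 q.2 = none} : ℕ) : ℝ) ≤
      ((Fintype.card S : ℝ) - Fintype.card I) * (n * Real.log n) +
      ((∑ i : I, ({v | dk ω v i = none}.ncard : ℝ)) + Fintype.card I * ((Bd ω).ncard : ℝ)) * Real.log n := by
    filter_upwards [hG] with ω hω
    have hc := tp_count (X ω) (dk ω) (hk ω) (Bd ω) hω
    rw [Nat.card_eq_fintype_card, Fintype.card_fin] at hc
    have hs : Nat.card {q : S × Fin n // tp ω q.1 q.2 = none} +
        ∑ s : S, {v | ∃ p, TP (X ω) (dk ω) (Bd ω) s v p}.ncard = Fintype.card S * n := by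
      have h1 : Nat.card {q : S × Fin n // tp ω q.1 q.2 = none} = ∑ s : S, {v | ¬ T ω s v}.ncard := by
        have e : {q : S × Fin n // tp ω q.1 q.2 = none} ≃ Σ s : S, {v | ¬ T ω s v} :=
          { toFun := fun q => ⟨q.1.1, ⟨q.1.2, (htn ω _ _).1 q.2⟩⟩
            invFun := fun q => ⟨(q.1, q.2.1), (htn ω _ _).2 q.2.2⟩
            left_inv := fun q => rfl
            right_inv := fun q => rfl }
        rw [Nat.card_congr e, Nat.card_sigma]
        rfl
      rw [h1, ← Finset.sum_add_distrib]
      have h2 : ∀ s : S, {v | ¬ T ω s v}.ncard + {v | ∃ p, TP (X ω) (dk ω) (Bd ω) s v p}.ncard = n := by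
        intro s
        have h3 := Set.ncard_add_ncard_compl {v : Fin n | T ω s v} (Set.toFinite _) (Set.toFinite _)
        rw [Nat.card_eq_fintype_card, Fintype.card_fin] at h3
        have h4 : {v : Fin n | T ω s v}ᶜ = {v | ¬ T ω s v} := rfl
        rw [h4] at h3
        have h5 : {v | ∃ p, TP (X ω) (dk ω) (Bd ω) s v p} = {v : Fin n | T ω s v} := rfl
        rw [h5]
        omega
      rw [Finset.sum_congr rfl fun s _ => h2 s, Finset.sum_const, Finset.card_univ, smul_eq_mul]
    push_cast
    rw [Real.log_pow]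
    have hc' : (Fintype.card I : ℝ) * n ≤ (∑ s : S, ({v | ∃ p, TP (X ω) (dk ω) (Bd ω) s v p}.ncard : ℝ)) +
        (∑ i : I, ({v | dk ω v i = none}.ncard : ℝ)) + Fintype.card I * ((Bd ω).ncard : ℝ) := by
      exact_mod_cast hc
    have hs' : (Nat.card {q : S × Fin n // tp ω q.1 q.2 = none} : ℝ) +
        (∑ s : S, ({v | ∃ p, TP (X ω) (dk ω) (Bd ω) s v p}.ncard : ℝ)) = (Fintype.card S : ℝ) * n := by
      exact_mod_cast hs
    have h6 : (Nat.card {q : S × Fin n // tp ω q.1 q.2 = none} : ℝ) ≤
        ((Fintype.card S : ℝ) - Fintype.card I) * n +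
        ((∑ i : I, ({v | dk ω v i = none}.ncard : ℝ)) + Fintype.card I * ((Bd ω).ncard : ℝ)) := by
      linarith
    calc (Nat.card {q : S × Fin n // tp ω q.1 q.2 = none} : ℝ) * Real.log n
        ≤ (((Fintype.card S : ℝ) - Fintype.card I) * n +
        ((∑ i : I, ({v | dk ω v i = none}.ncard : ℝ)) + Fintype.card I * ((Bd ω).ncard : ℝ))) * Real.log n :=
          mul_le_mul_of_nonneg_right h6 hlog
      _ = _ := by ring
  have e5 := integral_mono_ae (μ := Q) (Integrable.of_finite) (Integrable.of_finite) e4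
  rw [integral_add (Integrable.of_finite) (Integrable.of_finite), integral_const, integral_mul_const] at e5
  simp only [probReal_univ, one_smul] at e5
  linarith

end H33.HN
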