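import Pool.Agent.H31.BE.LabMain

/-! # HN.LabK : the labels, with the cocycle identity

PROOF. Copy the proof of `H31.BE.labels` (H31/BE/LabMain). The only new claim is the last one: for a good point `y` (the same conull set) `walk_eq` (second part) gives `S (walk L (fun g => lb (g • y)) w • y) = wprod w • S y` for all words `w`. -/

set_option autoImplicit false
set_option synthInstance.maxSize 4000

open MeasureTheory H31.BE

namespace H33.HN

theorem labelsK {G I : Type} [Group G] [DecidableEq G] [Countable G] [Infinite G] [Fintype I]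
    (S' : I → Finset G) (hgen : ∀ g : G, ∃ r, g ∈ ball S' r)
    (μ ν : Measure ℝ) [IsProbabilityMeasure μ] [IsProbabilityMeasure ν] (hμ : Nontriv μ) (hν : Nontriv ν)
    (T S : Bsh G → Bsh G) (h : OE G μ ν T S) (N : ℕ) (ε : ℝ) (hε : 0 < ε)
    (k0 : ℕ) (q0 : ℝ → Fin k0) (hq0 : Fm q0) :
    ∃ (Λ : Type) (_ : Finite Λ) (L : Lab S' Λ) (lb : Bsh G → Λ) (_ : Fm lb) (q' : Λ → Fin k0)
      (k : ℕ) (q : ℝ → Fin k) (_ : Fm q) (pf : Λ → Fin k) (J : Type) (_ : Finite J)
      (wd : J → List (Gn S')),
      (∀ᵐ y ∂(bern G ν), Adm L N (fun g => lb (g • y))) ∧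
      (∀ y : Bsh G, q' (lb y) = q0 (y 1)) ∧
      ent (bern G ν) (fun y => pf (lb y)) = ent μ q ∧
      entc (bern G ν) lb (fun y => fun j : J => pf (lb (walk L (fun g => lb (g • y)) (wd j) • y))) ≤ ε ∧
      ∀ᵐ y ∂(bern G ν), ∀ w : List (Gn S'), S (walk L (fun g => lb (g • y)) w • y) = wprod w • S y := by
  classical
  obtain ⟨C, c, b, hcF, hbF, hgood⟩ := cocycles S' hgen μ ν hμ hν T S h
  have hfree : ∀ g : G, g ≠ 1 → ∀ᵐ y ∂(bern G ν), g • y ≠ y := fun g hg => free_bern ν hν g hg
  obtain ⟨Nc, χ, hχF, hχ⟩ := coloring ν hfree ((ball S' (C * N)).erase 1)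
    (Finset.notMem_erase _ _)
  have hw : ∀ g : (ball S' C : Finset G), ∃ w : List (Gn S'), w.length ≤ C ∧ wprod w = (g : G) :=
    fun g => exists_word g.2
  choose wC hwC1 hwC2 using hw
  -- the base label
  let Λ0 : Type := Fin k0 × (Gn S' → (ball S' C : Finset G)) ×
    (Gn S' → (ball S' C : Finset G)) × Fin Nc
  let l0 : Bsh G → Λ0 := fun y => (q0 (y 1), (fun s => c s y), (fun s => b s y), χ y)
  have hl0 : Fm l0 := by
    refine Fm.prodMk (Fm.lab (G := G) hq0) (Fm.prodMk (Fm.pi hcF) (Fm.prodMk (Fm.pi hbF) hχF))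
  have hl0T : Fm (fun x => l0 (T x)) := Fm.comp_measurable h.mT.measurable hl0
  obtain ⟨δ, hδ, hsmall⟩ := entc_small Λ0 ε hε
  obtain ⟨k, q, hq, B, Φ, hΦ⟩ := appr μ (fun x => l0 (T x)) hl0T δ hδ
  let L : Lab S' (Λ0 × Fin k) :=
    { C := C
      c := fun s l => (l.1.2.1 s : G)
      bw := fun s l => wC (l.1.2.2.1 s)
      hc := fun s l => (l.1.2.1 s).2
      hbw := fun s l => hwC1 _ }
  let lb : Bsh G → Λ0 × Fin k := fun y => (l0 y, lab q (S y))
  have hlq : Fm (lab (G := G) q) := Fm.lab hq
  have hlqS : Fm (fun y => lab q (S y)) := Fm.comp_measurable h.mS.measurable hlq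
  have hlb : Fm lb := hl0.prodMk hlqS
  have hword : ∀ g : G, ∃ w : List (Gn S'), wprod w = g := by
    intro g
    obtain ⟨r, hr⟩ := hgen g
    obtain ⟨w, _, hw⟩ := exists_word hr
    exact ⟨w, hw⟩
  choose wG hwG using hword
  let wd : Option B → List (Gn S') := fun j =>
    match j with
    | none => []
    | some h => wG h
  have hnone : wprod (wd none) = 1 := rfl
  have hsome : ∀ h : B, wprod (wd (some h)) = (h : G) := fun h => hwG h
  refine ⟨Λ0 × Fin k, inferInstance, L, lb, hlb, fun l => l.1.1, k, q, hq, Prod.snd, Option B,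
    inferInstance, wd, ?_, fun y => rfl, ?_, ?_, ?_⟩
  · filter_upwards [hgood, hχ] with y hy1 hy2
    refine adm_of_good hy1 L lb (fun s z => rfl) (fun s z => hwC2 _) N ?_
    intro g hg hg1 heq
    have h1 : χ (g • y) = χ y := congrArg (fun l : Λ0 × Fin k => l.1.2.2.2) heq
    exact hy2 g (Finset.mem_erase.2 ⟨hg1, hg⟩) h1
  · have e1 : ent (bern G ν) (fun y => lab q (S y)) = ent (bern G μ) (lab (G := G) q) :=
      ent_map h.mS hlq
    show ent (bern G ν) (fun y => lab q (S y)) = ent μ q
    rw [e1, ent_lab μ hq]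
  · -- the a.e. form of the walk labels
    let Ψ' : Bsh G → Option B → Fin k := fun y j => lab q (wprod (wd j) • S y)
    have hΨ' : Fm Ψ' := by
      refine Fm.pi (fun j => ?_)
      have h1 : Fm (fun x : Bsh G => lab q (wprod (wd j) • x)) :=
        Fm.comp_measurable (inv_bern (G := G) μ (wprod (wd j))).measurable hlq
      exact Fm.comp_measurable h.mS.measurable h1
    have e1 : entc (bern G ν) lb
        (fun y => fun j : Option B => (lb (walk L (fun g => lb (g • y)) (wd j) • y)).2) =
        entc (bern G ν) lb Ψ' := by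
      refine entc_congr_ae (Filter.Eventually.of_forall fun _ => rfl) ?_
      filter_upwards [hgood] with y hy
      funext j
      have h2 := (walk_eq hy L lb (fun s z => rfl) (wd j)).2
      show lab q (S (walk L (fun g => lb (g • y)) (wd j) • y)) = lab q (wprod (wd j) • S y)
      rw [h2]
    rw [e1]
    have e2 : (fun y => lab q (S y)) = fun y => (fun v : Option B → Fin k => v none) (Ψ' y) := by
      funext y
      show lab q (S y) = lab q (wprod (wd none) • S y)
      rw [hnone, one_smul]
    let φB : (Option B → Fin k) → (B → Fin k) := fun v h => v (some h)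
    have e3 : (fun y => win (lab q) B (S y)) = fun y => φB (Ψ' y) := by
      funext y h
      show lab q ((h : G) • S y) = lab q (wprod (wd (some h)) • S y)
      rw [hsome]
    have h3 : entc (bern G ν) lb Ψ' = entc (bern G ν) (fun y => lab q (S y)) Ψ' +
        entc (bern G ν) l0 (fun y => (lab q (S y), Ψ' y)) := entc_chain hl0 hlqS hΨ'
    have h4 : entc (bern G ν) (fun y => lab q (S y)) Ψ' = 0 :=
      entc_of_fun hΨ' (fun v => v none) (Filter.Eventually.of_forall fun y => congrFun e2 y)
    have h5 : entc (bern G ν) l0 (fun y => (lab q (S y), Ψ' y)) ≤ entc (bern G ν) l0 Ψ' :=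
      entc_anti hl0 (hlqS.prodMk hΨ') Prod.snd
    have h6 : entc (bern G ν) l0 Ψ' ≤ entc (bern G ν) l0 (fun y => win (lab q) B (S y)) := by
      rw [e3]
      exact entc_anti hl0 hΨ' φB
    have hwS : Fm (fun y => win (lab q) B (S y)) := by
      rw [e3]
      exact hΨ'.comp φB
    have h7 : entc (bern G ν) l0 (fun y => win (lab q) B (S y)) ≤
        entc (bern G ν) l0 (fun y => Φ (win (lab q) B (S y))) := entc_anti hl0 hwS Φ
    have h8 : entc (bern G ν) l0 (fun y => Φ (win (lab q) B (S y))) ≤ ε := by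
      refine hsmall _ _ _ _ hl0 (hwS.comp Φ) ?_
      refine le_trans (le_of_eq ?_) hΦ
      have hms : MeasurableSet {x | l0 (T x) ≠ Φ (win (lab q) B x)} := by
        have hwB : Fm (win (lab (G := G) q) B) :=
          Fm.pi (f := fun (i : B) (y : Bsh G) => lab q ((i : G) • y))
            (fun i => Fm.comp_measurable (inv_bern (G := G) μ i).measurable hlq)
        have h9 : Fm (fun x => (l0 (T x), Φ (win (lab q) B x))) := hl0T.prodMk (hwB.comp Φ)
        exact h9.preimage {p : Λ0 × Λ0 | p.1 ≠ p.2}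
      have h10 := h.mS.measure_preimage hms.nullMeasurableSet
      rw [measureReal_def, measureReal_def, ← h10]
      congr 1
      apply measure_congr
      filter_upwards [h.TS] with y hy
      have : (l0 y ≠ Φ (win (lab q) B (S y))) = (l0 (T (S y)) ≠ Φ (win (lab q) B (S y))) := by
        rw [hy]
      exact this
    linarith
  · filter_upwards [hgood] with y hy w
    exact (walk_eq hy L lb (fun s z => rfl) w).2

end H33.HN
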