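import Pool.Agent.H33.HN.OneS
import Pool.Agent.H33.HN.CycW
import Pool.Agent.H33.BO.Main

/-! # HN.Main : the theorem for multiple HNN extensions of free groups

PROOF. `hf_le`: exactly as `H33.BO.hf_le` (H33/BO/Main) with `oneS` and `K := CH U V`. `G` infinite, countable as in `oneS`. `main_thm`: `pres_ex`; `classical` for `DecidableEq`; `hf_le` in both directions as in `H33.BO.main_thm`. -/

set_option autoImplicit false
set_option synthInstance.maxSize 4000

open MeasureTheory H31.BE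

namespace H33.HN

private theorem Main_cnt {k m : ℕ} {U V : Fin m → Wl k} {G : Type} [Group G] (g : Lh k m → G)
    (hg : Pres (rh U V) g) : Countable G := by
  haveI : Countable (FreeGroup (Lh k m)) := by
    unfold FreeGroup
    infer_instance
  exact hg.surj.countable

private theorem Main_inf {k m : ℕ} {U V : Fin m → Wl k} {G : Type} [Group G] (g : Lh k m → G)
    (hg : Pres (rh U V) g) (hy : Hyp U V) (hm : 1 ≤ m) : Infinite G := by
  have hinj : Function.Injective (fun n : ℤ => ve V g ⟨0, hm⟩ ^ n) := by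
    intro a b hab
    have h1 : ve V g ⟨0, hm⟩ ^ (a - b) = 1 := by
      rw [zpow_sub]
      exact mul_inv_eq_one.2 hab
    have h2 := ve_ord g hg hy ⟨0, hm⟩ (a - b) h1
    omega
  exact Infinite.of_injective _ hinj

theorem hf_le {k m : ℕ} {U V : Fin m → Wl k} {G : Type} [Group G] [DecidableEq G] (g : Lh k m → G)
    (hg : Pres (rh U V) g) (hy : Hyp U V) (hm : 1 ≤ m) (μ ν : Measure ℝ) [IsProbabilityMeasure μ]
    [IsProbabilityMeasure ν] (T S : Bsh G → Bsh G) (h : OE G μ ν T S) : HF ν ≤ HF μ := by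
  classical
  haveI : Infinite G := Main_inf g hg hy hm
  haveI : Countable G := Main_cnt g hg
  refine le_of_forall_lt fun c hc => ?_
  obtain ⟨k0, q0, hq0, hlt⟩ := fe_ge ν c hc
  refine lt_of_lt_of_le hlt ?_
  by_cases hν : Nontriv ν
  · have hμ : Nontriv μ := nontriv_of_map μ ν T h.mT hν
    by_cases htop : HF μ = ⊤
    · rw [htop]
      exact le_top
    · have key : ∀ n : ℕ, ((n : ℝ) + 1) * ent ν q0 ≤ ((n : ℝ) + 1) * (HF μ).toReal + CH U V := by
        intro n
        obtain ⟨T', S', hTS⟩ := BO.oe_pow μ ν hμ hν T S h n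
        obtain ⟨k1, q1, hq1, he1⟩ := BO.ent_pw ν k0 q0 hq0 n
        obtain ⟨hpμ, hnμ⟩ := BO.nontriv_pwm μ hμ n
        obtain ⟨hpν, hnν⟩ := BO.nontriv_pwm ν hν n
        obtain ⟨k2, q2, hq2, he2⟩ := oneS g hg hy hm (BO.pwm μ n) (BO.pwm ν n) hnμ hnν T' S' hTS
          k1 q1 hq1
        have h3 := fe_le (BO.pwm μ n) q2 hq2
        have h4 := h3.trans (BO.hf_pw μ n)
        have h5 : ent (BO.pwm μ n) q2 ≤ ((n : ℝ) + 1) * (HF μ).toReal := by
          have hne1 : ((n : ENNReal) + 1) ≠ ⊤ := by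
            exact ENNReal.add_ne_top.2 ⟨ENNReal.natCast_ne_top n, ENNReal.one_ne_top⟩
          have hne : ((n : ENNReal) + 1) * HF μ ≠ ⊤ := ENNReal.mul_ne_top hne1 htop
          have h6 := ENNReal.toReal_mono hne h4
          rw [ENNReal.toReal_ofReal (ent_nonneg _), ENNReal.toReal_mul,
            ENNReal.toReal_add (ENNReal.natCast_ne_top n) ENNReal.one_ne_top,
            ENNReal.toReal_natCast, ENNReal.toReal_one] at h6
          exact h6
        rw [he1] at he2
        linarith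
      have h6 : ent ν q0 ≤ (HF μ).toReal := by
        by_contra hcon
        push Not at hcon
        have hδ : 0 < ent ν q0 - (HF μ).toReal := by linarith
        obtain ⟨n, hn⟩ := exists_nat_gt (CH U V / (ent ν q0 - (HF μ).toReal))
        rw [div_lt_iff₀ hδ] at hn
        have h7 := key n
        nlinarith
      rw [← ENNReal.ofReal_toReal htop]
      exact ENNReal.ofReal_le_ofReal h6
  · rw [ent_triv ν hν q0 hq0, ENNReal.ofReal_zero]
    exact bot_le

theorem main_thm (k m : ℕ) (hm : 1 ≤ m) (u v : Fin m → FreeGroup (Fin k))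
    (hu : ∀ i (w : FreeGroup (Fin k)) (n : ℤ), u i = w ^ n → n = 1 ∨ n = -1) (hv : ∀ i, v i ≠ 1)
    (huu : ∀ i j, i ≠ j → ∀ (c : FreeGroup (Fin k)) (a b : ℤ), c * u i ^ a * c⁻¹ = u j ^ b → a = 0)
    (huv : ∀ i j, ∀ (c : FreeGroup (Fin k)) (a b : ℤ), c * u i ^ a * c⁻¹ = v j ^ b → a = 0)
    (G : Type) [Group G]
    (e : PresentedGroup (Set.range fun i : Fin m => (FreeGroup.of (Sum.inr i) *
      FreeGroup.map Sum.inl (u i) * (FreeGroup.of (Sum.inr i))⁻¹ * (FreeGroup.map Sum.inl (v i))⁻¹ :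
        FreeGroup (Fin k ⊕ Fin m))) ≃* G)
    (μ ν : Measure ℝ) [IsProbabilityMeasure μ] [IsProbabilityMeasure ν]
    (h : ∃ T S : (G → ℝ) → (G → ℝ),
        MeasurePreserving T (Measure.infinitePi (fun _ : G => μ))
          (Measure.infinitePi (fun _ : G => ν)) ∧
        MeasurePreserving S (Measure.infinitePi (fun _ : G => ν))
          (Measure.infinitePi (fun _ : G => μ)) ∧
        (∀ᵐ x ∂(Measure.infinitePi (fun _ : G => μ)), S (T x) = x) ∧
        (∀ᵐ y ∂(Measure.infinitePi (fun _ : G => ν)), T (S y) = y) ∧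
        (∀ g : G, ∃ F : Finset G, ∀ᵐ x ∂(Measure.infinitePi (fun _ : G => μ)),
          ∃ f ∈ F, T (fun h => x (g⁻¹ * h)) = fun h => T x (f⁻¹ * h)) ∧
        (∀ g : G, ∃ F : Finset G, ∀ᵐ y ∂(Measure.infinitePi (fun _ : G => ν)),
          ∃ f ∈ F, S (fun h => y (g⁻¹ * h)) = fun h => S y (f⁻¹ * h))) :
    HF μ = HF ν := by
  classical
  obtain ⟨T, S, hT, hS, hST, hTS, bT, bS⟩ := h
  obtain ⟨U, V, g, hy, hg⟩ := pres_ex k m u v hu hv huu huv G e
  have h1 : OE G μ ν T S := ⟨hT, hS, hST, hTS, bT, bS⟩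
  have h2 : OE G ν μ S T := ⟨hS, hT, hTS, hST, bS, bT⟩
  exact le_antisymm (hf_le g hg hy hm ν μ S T h2) (hf_le g hg hy hm μ ν T S h1)

end H33.HN
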