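import Pool.Agent.H33.HN.DefsP
import Pool.Agent.H33.HN.Cmp4
import Pool.Agent.H33.HN.SupA
import Pool.Agent.H33.BO.Rmo

/-! # HN.MdlA : the random model of the G-space (paper 4.1, 4.2)

PROOF. The model is H33/BO/MdlA and H33/BO/P2a, which can be copied. `rmodel` (H33.BO.Rmo) for `Pt = Bag r P Λ`, `Q s = Itf r s P Λ`, `T = TT sy.dir`, `p = law PY Φ0`, `Φ0 := bgp g b φ` (`Fm` by `fm_bgp`; `∑ p = 1`; `hm` by `bgp_marg` and additivity). A pattern `t` with `p t > 0`: the event `{Φ0 y = t}` has positive measure, so it contains a point `y` with `good y`; `Sup` holds for `t` (`bgp_sup`). `yy ω v` := such a point for `t = om ω v`. For `ω` with all `om ω v` of positive probability let `X ω` be from `cmp`; otherwise `X ω := M ω`.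
`ent0`: `Fn sy.dir p` is the bracket of `rmodel` (instances of `Fintype` agree: `Subsingleton.elim`). `∑ s, ∑ t with ¬ TT (tgt s t), p t ≥ card S - card I`: `∑ t with TT (tgt s t), p t = PY {TT (tgt s (Φ0 y))} ≤ ∑ q with lp q = s, PY {dir (φ q.1 ((gw (tc q))⁻¹ • y)) = some q} = ∑ q with lp q = s, PY {dir (φ q.1 y) = some q}` (`hP`), and the sum over all positions `q` is `∑ i, ∑ j, PY {dir (φ i y) = some (i, j)} ≤ card I`.
`eM`: the vertices with not T: `M s v ≠ X s v` for at most `um`; with T: `M = M0`; `E um ≤ 2 N √n ≤ Er`. `eN`, `eO`: `cmp` with `E Kr ≤ card S * (2 N + 2) √n`: the fluctuation `|#{¬ TT tgt} - #{¬ TT src}| = |∑ v, f (om v)|`, `f t = [¬ TT (tgt s t)] - [¬ TT (src s t)]`, mean 0 (`bgp_marg`), `|f| ≤ 1`: at most `2 √n`. `E #{v | dir ((om v).1 (bc hr i)) = none} = n PY.real {dir (φ i y) = none}` (`cw (bc hr i) = 1`). All integrals are over a finite space (`Integrable.of_finite`). `Bc r D ≥ 1`. -/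

set_option autoImplicit false
set_option synthInstance.maxSize 4000

open MeasureTheory H31.BE

namespace H33.HN

variable {S I : Type} [Fintype S] [Fintype I] [DecidableEq S] [DecidableEq I] {r : Rl S I}

private theorem MdlA_law {Y Pt : Type} [MeasurableSpace Y] [Fintype Pt] (P0 : Measure Y) [IsProbabilityMeasure P0]
    {Φ0 : Y → Pt} (hΦ : Fm Φ0) (R : Pt → Prop) [DecidablePred R] :
    ∑ t with R t, BO.law P0 Φ0 t = P0.real {y | R (Φ0 y)} := by
  unfold BO.law
  rw [sum_measureReal_preimage_singleton _ fun t _ => hΦ t]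
  congr 1
  ext y
  simp

/-- a statement about laws transported from the source to the target -/
private theorem MdlA_pull {Y A B : Type} [MeasurableSpace Y] [Finite A] [Finite B] (P0 : Measure Y)
    [IsProbabilityMeasure P0] {Φ0 : Y → A} (hΦ : Fm Φ0) (f g : A → B)
    (hm : ∀ q, P0.real {y | f (Φ0 y) = q} = P0.real {y | g (Φ0 y) = q}) (R : B → Prop) :
    P0.real {y | R (f (Φ0 y))} = P0.real {y | R (g (Φ0 y))} := by
  classical
  let _ := Fintype.ofFinite B
  rw [← MdlA_law P0 (hΦ.comp f) R, ← MdlA_law P0 (hΦ.comp g) R]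
  exact Finset.sum_congr rfl fun q _ => hm q

private theorem MdlA_ints {Ω V : Type} [Finite Ω] [Fintype V] [MeasurableSpace Ω] [DiscreteMeasurableSpace Ω]
    (Q : Measure Ω) [IsProbabilityMeasure Q] (R : Ω → V → Prop) :
    ∫ ω, ({v | R ω v}.ncard : ℝ) ∂Q = ∑ v, Q.real {ω | R ω v} := by
  classical
  have h1 : ∀ ω, ({v | R ω v}.ncard : ℝ) = ∑ v, Set.indicator {ω | R ω v} (fun _ => (1 : ℝ)) ω := by
    intro ω
    rw [Set.ncard_eq_toFinset_card']
    simp only [Set.indicator_apply, Set.mem_ofPred_eq, Finset.sum_boole]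
    congr 2
    ext v
    simp
  simp only [h1]
  rw [integral_finsetSum _ fun v _ => Integrable.of_finite]
  refine Finset.sum_congr rfl fun v _ => ?_
  rw [integral_indicator_const _ (MeasurableSet.of_discrete)]
  simp

/-- the measure of an event at a corner of a cell -/
private theorem MdlA_inv {G Y P : Type} [Group G] [MeasurableSpace Y] [MulAction G Y] [Finite P]
    (PY : Measure Y) (hP : Inv G PY) {φ : Y → P} (hφ : Fm φ) (h : G) (R : P → Prop) :
    PY.real {y | R (φ (h • y))} = PY.real {y | R (φ y)} := by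
  have hm : MeasurableSet {y | R (φ y)} := hφ.preimage {p | R p}
  have h1 := (hP h).measure_preimage hm.nullMeasurableSet
  unfold Measure.real
  exact congrArg ENNReal.toReal h1

private theorem MdlA_disj {Y P A : Type} [MeasurableSpace Y] [Finite P] (PY : Measure Y) [IsProbabilityMeasure PY]
    {φ : Y → P} (hφ : Fm φ) (dir : P → Option A) {J : Type} [Fintype J] (e : J → A) (he : Function.Injective e) :
    ∑ j, PY.real {y | dir (φ y) = some (e j)} ≤ 1 := by
  have hd : Set.PairwiseDisjoint (↑(Finset.univ : Finset J)) fun j => {y | dir (φ y) = some (e j)} := by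
    intro i _ j _ hij
    rw [Function.onFun, Set.disjoint_left]
    intro y h h'
    have h1 : dir (φ y) = some (e i) := h
    have h2 : dir (φ y) = some (e j) := h'
    rw [h1] at h2
    exact hij (he (Option.some.inj h2))
  rw [← measureReal_biUnion_finset hd fun j _ => hφ.preimage {p | dir p = some (e j)}]
  exact measureReal_le_one

open Classical in
/-- the bound for the sum of the non-T masses -/
private theorem MdlA_mass {G Y P Λ : Type} [Group G] [MeasurableSpace Y] [MulAction G Y] [Finite P] [Finite Λ]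
    (g : S → G) (PY : Measure Y) [IsProbabilityMeasure PY] (hP : Inv G PY) (dir : P → Option (Ps r)) (b : Y → Λ)
    (φ : I → Y → P) (hφ : ∀ i, Fm (φ i)) (hΦ : Fm (bgp (r := r) g b φ)) [Fintype (Bag r P Λ)] :
    (Fintype.card S : ℝ) - Fintype.card I ≤
      ∑ s : S, ∑ t with ¬ TT dir s (tgt s t), BO.law PY (bgp (r := r) g b φ) t := by
  have hms : ∀ R : Bag r P Λ → Prop, MeasurableSet {y | R (bgp g b φ y)} := fun R => hΦ.preimage {t | R t}
  have h1 : ∀ s : S, ∑ t with ¬ TT dir s (tgt s t), BO.law PY (bgp (r := r) g b φ) t =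
      1 - PY.real {y | TT dir s (tgt s (bgp (r := r) g b φ y))} := by
    intro s
    rw [MdlA_law PY hΦ]
    have h2 := probReal_compl_eq_one_sub (μ := PY) (hms fun t => TT dir s (tgt s t))
    rw [← h2]
    rfl
  have h2 : ∀ s : S, PY.real {y | TT dir s (tgt s (bgp (r := r) g b φ y))} ≤
      ∑ q : Ps r with lp q = s, PY.real {y | dir (φ q.1 y) = some q} := by
    intro s
    have hsub : {y | TT dir s (tgt s (bgp (r := r) g b φ y))} ⊆
        ⋃ q ∈ (Finset.univ.filter fun q : Ps r => lp q = s),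
          {y | dir (φ (tc q).1 ((FreeGroup.lift g (cw (tc q)))⁻¹ • y)) = some q} := by
      intro y hy
      obtain ⟨⟨q, hq⟩, hd⟩ := hy
      refine Set.mem_iUnion₂.2 ⟨q, Finset.mem_filter.2 ⟨Finset.mem_univ _, hq⟩, ?_⟩
      exact hd
    refine (measureReal_mono hsub (measure_ne_top _ _)).trans ((measureReal_biUnion_finset_le _ _).trans ?_)
    refine Finset.sum_le_sum fun q _ => ?_
    rw [MdlA_inv PY hP (hφ (tc q).1) _ (fun p => dir p = some q), tc_fst]
  have h3 : ∑ s : S, ∑ q : Ps r with lp q = s, PY.real {y | dir (φ q.1 y) = some q} =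
      ∑ q : Ps r, PY.real {y | dir (φ q.1 y) = some q} :=
    Finset.sum_fiberwise _ _ _
  have h4 : ∑ q : Ps r, PY.real {y | dir (φ q.1 y) = some q} ≤ Fintype.card I := by
    rw [Fintype.sum_sigma]
    calc ∑ i, ∑ j, PY.real {y | dir (φ i y) = some (⟨i, j⟩ : Ps r)} ≤ ∑ _i : I, (1 : ℝ) := by
          refine Finset.sum_le_sum fun i _ => ?_
          exact MdlA_disj PY (hφ i) dir (fun j => (⟨i, j⟩ : Ps r)) fun j j' h => by
            simpa using h
      _ = Fintype.card I := by simp
  simp only [h1, Finset.sum_sub_distrib, Finset.sum_const, Finset.card_univ, nsmul_eq_mul, mul_one]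
  have h5 := Finset.sum_le_sum fun s (_ : s ∈ (Finset.univ : Finset S)) => h2 s
  linarith [h5.trans (h3.le.trans h4)]

open Classical in
private theorem MdlA_F {P Λ : Type} [Finite (Bag r P Λ)] [∀ s, Finite (Itf r s P Λ)] (dir : P → Option (Ps r))
    (p : Bag r P Λ → ℝ) [i1 : Fintype (Bag r P Λ)] [i2 : ∀ s, Fintype (Itf r s P Λ)] :
    Fn dir p = (∑ t, Real.negMulLog (p t)) -
      ∑ s : S, ∑ q : Itf r s P Λ, if TT dir s q then 0 else Real.negMulLog (∑ t with tgt s t = q, p t) := by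
  have e1 : i1 = Fintype.ofFinite (Bag r P Λ) := Subsingleton.elim _ _
  have e2 : i2 = fun s => Fintype.ofFinite (Itf r s P Λ) := funext fun s => Subsingleton.elim _ _
  subst e1
  subst e2
  unfold Fn Gn
  refine congrArg (fun x => _ - x) ?_
  refine Finset.sum_congr rfl fun s _ => Finset.sum_congr rfl fun q _ => ?_
  by_cases h : TT dir s q
  · rw [if_pos h, if_pos h]
  · rw [if_neg h, if_neg h]
    refine congrArg Real.negMulLog (Finset.sum_congr ?_ fun _ _ => rfl)
    ext t
    simp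

/-- the mean fluctuation of the number of the non-T slots -/
private theorem MdlA_fl {P Λ Y : Type} [Finite P] [Finite Λ] [MeasurableSpace Y] (PY : Measure Y)
    [IsProbabilityMeasure PY] (dir : P → Option (Ps r)) {Φ0 : Y → Bag r P Λ} (hΦ : Fm Φ0) [Fintype (Bag r P Λ)]
    (s : S) (hm : ∀ q : Itf r s P Λ, PY.real {y | src s (Φ0 y) = q} = PY.real {y | tgt s (Φ0 y) = q}) {n : ℕ}
    {Ω : Type} [MeasurableSpace Ω] (Q : Measure Ω) (om : Ω → Fin n → Bag r P Λ)
    (h6 : ∀ f : Bag r P Λ → ℝ, (∀ t, |f t| ≤ 1) →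
        ∫ ω, |∑ v, f (om ω v) - n * ∑ t, BO.law PY Φ0 t * f t| ∂Q ≤ 2 * Real.sqrt n) :
    ∫ ω, |({v | ¬ TT dir s (tgt s (om ω v))}.ncard : ℝ) - {v | ¬ TT dir s (src s (om ω v))}.ncard| ∂Q ≤
      2 * Real.sqrt n := by
  classical
  set f1 : Bag r P Λ → ℝ := fun t => if ¬ TT dir s (tgt s t) then 1 else 0 with hf1
  set f2 : Bag r P Λ → ℝ := fun t => if ¬ TT dir s (src s t) then 1 else 0 with hf2
  have hb : ∀ t, |f1 t - f2 t| ≤ 1 := by
    intro t
    simp only [hf1, hf2]
    split_ifs <;> norm_num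
  have hs1 : ∑ t, BO.law PY Φ0 t * f1 t = PY.real {y | ¬ TT dir s (tgt s (Φ0 y))} := by
    rw [← MdlA_law PY hΦ (fun t => ¬ TT dir s (tgt s t)), Finset.sum_filter]
    refine Finset.sum_congr rfl fun t _ => ?_
    simp only [hf1, mul_ite, mul_one, mul_zero]
  have hs2 : ∑ t, BO.law PY Φ0 t * f2 t = PY.real {y | ¬ TT dir s (src s (Φ0 y))} := by
    rw [← MdlA_law PY hΦ (fun t => ¬ TT dir s (src s t)), Finset.sum_filter]
    refine Finset.sum_congr rfl fun t _ => ?_
    simp only [hf2, mul_ite, mul_one, mul_zero]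
  have hz : ∑ t, BO.law PY Φ0 t * (f1 t - f2 t) = 0 := by
    simp only [mul_sub, Finset.sum_sub_distrib]
    rw [hs1, hs2, MdlA_pull PY hΦ (src s) (tgt s) hm (fun q => ¬ TT dir s q), sub_self]
  have h := h6 (fun t => f1 t - f2 t) hb
  simp only [hz, mul_zero, sub_zero] at h
  have hc : ∀ (R : Bag r P Λ → Prop) (ω : Ω), ({v | R (om ω v)}.ncard : ℝ) =
      ∑ v, if R (om ω v) then (1 : ℝ) else 0 := by
    intro R ω
    rw [Set.ncard_eq_toFinset_card', Finset.sum_boole]
    congr 2
    ext v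
    simp
  have h2 : ∀ ω, ({v | ¬ TT dir s (tgt s (om ω v))}.ncard : ℝ) - {v | ¬ TT dir s (src s (om ω v))}.ncard =
      ∑ v, (f1 (om ω v) - f2 (om ω v)) := by
    intro ω
    rw [hc (fun t => ¬ TT dir s (tgt s t)), hc (fun t => ¬ TT dir s (src s t)), ← Finset.sum_sub_distrib]
    refine Finset.sum_congr rfl fun v _ => ?_
    by_cases ha : TT dir s (tgt s (om ω v)) <;> by_cases hb' : TT dir s (src s (om ω v)) <;>
      simp [hf1, hf2, ha, hb']
  simp only [h2]
  exact h

omit [DecidableEq S] [DecidableEq I] in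
private theorem MdlA_Bc (r : Rl S I) (D : ℕ) : (1 : ℝ) ≤ Bc r D := by
  unfold Bc
  have h0 : (0 : ℝ) ≤ (Fintype.card (Ps r) : ℝ) := Nat.cast_nonneg _
  have h1 : (1 : ℝ) ≤ (2 * (Fintype.card (Ps r) : ℝ) ^ 2 + 1) ^ (D + 1) := by
    refine one_le_pow₀ ?_
    nlinarith [sq_nonneg (Fintype.card (Ps r) : ℝ)]
  nlinarith

omit [DecidableEq S] [DecidableEq I] in
private theorem MdlA_num (r : Rl S I) (s : S) {D N n : ℕ} {x : ℝ} (hx : x ≤ 2 * (N : ℝ) * Real.sqrt n) :
    x ≤ Er r D N n := by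
  refine hx.trans ?_
  unfold Er
  have h0 : 0 ≤ Real.sqrt n := Real.sqrt_nonneg _
  have hB := MdlA_Bc r D
  have hN : (0 : ℝ) ≤ N := Nat.cast_nonneg N
  have hS : (1 : ℝ) ≤ (Fintype.card S : ℝ) := by
    have : 0 < Fintype.card S := Fintype.card_pos_iff.2 ⟨s⟩
    exact_mod_cast this
  have h4 : 2 * (N : ℝ) ≤ (Fintype.card S : ℝ) * (2 * N + 2) + 1 := by nlinarith
  have h5 : 0 ≤ (Fintype.card S : ℝ) * (2 * N + 2) + 1 := by positivity
  refine mul_le_mul_of_nonneg_right ?_ h0
  nlinarith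

theorem mdl {G Y P Λ : Type} [Group G] [MeasurableSpace Y] [MulAction G Y] [Finite P] [Finite Λ]
    (hr : ∀ i, 0 < (r i).length) (g : S → G) (hg : Pres r g) (PY : Measure Y) [IsProbabilityMeasure PY]
    (hP : Inv G PY) (sy : Psy r P Λ) (D : ℕ) (hD : ∀ p, sy.ht p ≤ D) (b : Y → Λ) (hb : Fm b) (φ : I → Y → P)
    (hφ : ∀ i, Fm (φ i)) (hpr : Prc g sy b φ) (good : Y → Prop) (hgd : ∀ᵐ y ∂PY, good y)
    (N : ℕ) (hN : ∀ s, Nat.card (Itf r s P Λ) ≤ N) (n : ℕ) (hn : 1 ≤ n) :
    ∃ (Ω : Type) (_ : Finite Ω) (_ : MeasurableSpace Ω) (_ : DiscreteMeasurableSpace Ω) (Q : Measure Ω)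
      (_ : IsProbabilityMeasure Q) (om : Ω → Fin n → Bag r P Λ) (M X : Ω → S → Equiv.Perm (Fin n))
      (M0 : (Fin n → Bag r P Λ) → S → Equiv.Perm (Fin n)) (yy : Ω → Fin n → Y),
      Mdl hr g PY sy b φ good D N n Q om M X M0 yy := by
  classical
  let iB : Fintype (Bag r P Λ) := Fintype.ofFinite _
  let iI : ∀ s, Fintype (Itf r s P Λ) := fun s => Fintype.ofFinite _
  have hmeas : ∀ h : G, Measurable fun y : Y => h • y := fun h => (hP h).measurable
  have hΦ : Fm (bgp (r := r) g b φ) := fm_bgp g hmeas b hb φ hφ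
  have hm : ∀ s (q : Itf r s P Λ), PY.real {y | src s (bgp (r := r) g b φ y) = q} =
      PY.real {y | tgt s (bgp (r := r) g b φ y) = q} := fun s q => bgp_marg g hg PY hP b hb φ hφ s q
  have hp0 : ∀ t, 0 ≤ BO.law PY (bgp (r := r) g b φ) t := fun t => measureReal_nonneg
  have hp1 : ∑ t, BO.law PY (bgp (r := r) g b φ) t = 1 := entF_sum hΦ
  obtain ⟨Ω, iF, iM, iD, Q, iQ, om, M, M0, r1, r2, r3, r4, r5, r6⟩ :=
    BO.rmodel (S := S) (Pt := Bag r P Λ) (Q := fun s => Itf r s P Λ) (fun s => src s) (fun s => tgt s) (TT sy.dir)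
      (BO.law PY (bgp (r := r) g b φ)) hp0 hp1 (by
        intro s q
        rw [MdlA_law PY hΦ, MdlA_law PY hΦ]
        exact hm s q) n hn
  have : Nonempty Y := nonempty_of_isProbabilityMeasure PY
  have hex : ∀ t, 0 < BO.law PY (bgp (r := r) g b φ) t → ∃ y, bgp (r := r) g b φ y = t ∧ good y := by
    intro t ht
    have hne : PY {y | bgp (r := r) g b φ y = t} ≠ 0 := by
      intro h0
      unfold BO.law Measure.real at ht
      have e : (bgp (r := r) g b φ ⁻¹' {t}) = {y | bgp (r := r) g b φ y = t} := rfl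
      rw [e, h0] at ht
      simp at ht
    have hfr : ∃ᵐ y ∂PY, bgp (r := r) g b φ y = t := frequently_ae_iff.2 hne
    exact (hfr.and_eventually hgd).exists
  have hsup : ∀ t, 0 < BO.law PY (bgp (r := r) g b φ) t → Sup sy t := by
    intro t ht
    obtain ⟨y, hy, _⟩ := hex t ht
    rw [← hy]
    exact bgp_sup g hg sy b φ hpr y
  let yy : Ω → Fin n → Y := fun ω v =>
    if h : ∃ y, bgp (r := r) g b φ y = om ω v ∧ good y then h.choose else Classical.arbitrary Y
  have hyy : ∀ ω v, 0 < BO.law PY (bgp (r := r) g b φ) (om ω v) →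
      bgp (r := r) g b φ (yy ω v) = om ω v ∧ good (yy ω v) := by
    intro ω v h
    have h' := hex _ h
    have e : yy ω v = h'.choose := dif_pos h'
    rw [e]
    exact h'.choose_spec
  have hcmp : ∀ ω, (∀ v, 0 < BO.law PY (bgp (r := r) g b φ) (om ω v)) → _ := fun ω h =>
    cmp hr sy D hD (om ω) (fun v => hsup _ (h v)) (M ω)
  set X : Ω → S → Equiv.Perm (Fin n) :=
    fun ω => if h : ∀ v, 0 < BO.law PY (bgp (r := r) g b φ) (om ω v) then (hcmp ω h).choose else M ω with hXdef
  have hX : ∀ ω (h : ∀ v, 0 < BO.law PY (bgp (r := r) g b φ) (om ω v)),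
      (∀ s, {v | ¬ TT sy.dir s (src s (om ω v)) ∧ X ω s v ≠ M ω s v}.ncard ≤ (um sy.dir (om ω) (M ω) s).ncard) ∧
      ((Mis (om ω) (X ω)).ncard : ℝ) ≤ Bc r D * Kr sy.dir (om ω) (M ω) ∧
      ((defs r (X ω)).ncard : ℝ) ≤ ∑ i, ({v | sy.dir ((om ω v).1 (bc hr i)) = none}.ncard : ℝ) +
        Bc r D * Kr sy.dir (om ω) (M ω) := by
    intro ω h
    have h2 := (hcmp ω h).choose_spec
    have h3 : X ω = (hcmp ω h).choose := by
      rw [hXdef]
      exact dif_pos h
    rw [h3]
    exact h2
  have hum : ∀ s, ∫ ω, ((um sy.dir (om ω) (M ω) s).ncard : ℝ) ∂Q ≤ 2 * (N : ℝ) * Real.sqrt n := by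
    intro s
    refine (r5 s).trans (mul_le_mul_of_nonneg_right ?_ (Real.sqrt_nonneg _))
    have h2 : Fintype.card (Itf r s P Λ) ≤ N := by
      rw [← Nat.card_eq_fintype_card]
      exact hN s
    have h3 : (Fintype.card (Itf r s P Λ) : ℝ) ≤ N := Nat.cast_le.2 h2
    linarith
  have hKr : ∫ ω, Kr sy.dir (om ω) (M ω) ∂Q ≤ (Fintype.card S : ℝ) * (2 * N + 2) * Real.sqrt n := by
    unfold Kr
    rw [integral_finsetSum _ fun s _ => Integrable.of_finite]
    have h2 : ∀ s : S, ∫ ω, (((um sy.dir (om ω) (M ω) s).ncard : ℝ) +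
        |({v | ¬ TT sy.dir s (tgt s (om ω v))}.ncard : ℝ) - {v | ¬ TT sy.dir s (src s (om ω v))}.ncard|) ∂Q ≤
        (2 * N + 2) * Real.sqrt n := by
      intro s
      rw [integral_add Integrable.of_finite Integrable.of_finite]
      have h3 := MdlA_fl PY sy.dir hΦ s (hm s) Q om r6
      have h4 := hum s
      linarith
    refine (Finset.sum_le_sum fun s _ => h2 s).trans (le_of_eq ?_)
    simp only [Finset.sum_const, Finset.card_univ, nsmul_eq_mul]
    ring
  have hB := MdlA_Bc r D
  have hKr' : Bc r D * ∫ ω, Kr sy.dir (om ω) (M ω) ∂Q ≤ Er r D N n := by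
    unfold Er
    have h2 := mul_le_mul_of_nonneg_left hKr (by linarith : (0 : ℝ) ≤ Bc r D)
    refine h2.trans ?_
    have h3 : 0 ≤ Bc r D * Real.sqrt n := mul_nonneg (by linarith) (Real.sqrt_nonneg _)
    nlinarith
  refine ⟨Ω, iF, iM, iD, Q, iQ, om, M, X, M0, yy, ?_⟩
  refine ⟨?_, r2, ?_, ?_, ?_, ?_, ?_, ?_⟩
  · refine le_trans ?_ r1
    have hmass := MdlA_mass (r := r) g PY hP sy.dir b φ hφ hΦ
    have hlog : 0 ≤ (n : ℝ) * Real.log n :=
      mul_nonneg (Nat.cast_nonneg n) (Real.log_nonneg (by exact_mod_cast hn))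
    rw [MdlA_F]
    have h2 := mul_le_mul_of_nonneg_right hmass hlog
    refine sub_le_sub_right (add_le_add (le_of_eq ?_) ?_) _
    · refine congrArg (fun x => (n : ℝ) * x) (congrArg (fun x => _ - x) ?_)
      refine Finset.sum_congr rfl fun s _ => Finset.sum_congr rfl fun q _ => ?_
      by_cases h : TT sy.dir s q
      · rw [if_pos h, if_pos h]
      · rw [if_neg h, if_neg h]
        refine congrArg Real.negMulLog (Finset.sum_congr ?_ fun _ _ => rfl)
        ext t
        simp
    · refine h2.trans (le_of_eq ?_)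
      refine congrArg (fun x => x * ((n : ℝ) * Real.log n)) ?_
      refine Finset.sum_congr rfl fun s _ => Finset.sum_congr ?_ fun _ _ => rfl
      ext t
      simp
  · filter_upwards [r3] with ω hω v
    exact hsup _ (hω v)
  · filter_upwards [r3] with ω hω v
    exact (hyy ω v (hω v)).1.symm
  · filter_upwards [r3] with ω hω v
    exact (hyy ω v (hω v)).2
  · intro s
    refine MdlA_num r s ((integral_mono_ae Integrable.of_finite Integrable.of_finite ?_).trans (hum s))
    filter_upwards [r3] with ω hω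
    refine Nat.cast_le.2 ((Set.ncard_le_ncard ?_ (Set.toFinite _)).trans ((hX ω hω).1 s))
    intro v hv
    by_cases hT : TT sy.dir s (src s (om ω v))
    · have hv' : M ω s v ≠ M0 (om ω) s v := by
        intro he
        exact hv (he.trans (if_pos hT).symm)
      exact absurd (r4 ω s v hT) hv'
    · refine ⟨hT, fun he => hv ?_⟩
      exact he.symm.trans (if_neg hT).symm
  · refine le_trans ?_ hKr'
    rw [← integral_const_mul]
    refine integral_mono_ae Integrable.of_finite Integrable.of_finite ?_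
    filter_upwards [r3] with ω hω
    exact (hX ω hω).2.1
  · have h1 : ∀ i, ∫ ω, ({v | sy.dir ((om ω v).1 (bc hr i)) = none}.ncard : ℝ) ∂Q =
        n * PY.real {y | sy.dir (φ i y) = none} := by
      intro i
      rw [MdlA_ints Q (fun ω v => sy.dir ((om ω v).1 (bc hr i)) = none)]
      have h3 : ∀ v, Q.real {ω | sy.dir ((om ω v).1 (bc hr i)) = none} =
          PY.real {y | sy.dir (φ i y) = none} := by
        intro v
        have hfm : Fm (fun ω => om ω v) := fun _ => MeasurableSet.of_discrete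
        have h4 : PY.real {y | sy.dir ((bgp (r := r) g b φ y).1 (bc hr i)) = none} =
            PY.real {y | sy.dir (φ i y) = none} := by
          have h5 : ∀ y, (bgp (r := r) g b φ y).1 (bc hr i) = φ i y := by
            intro y
            show φ i ((FreeGroup.lift g (cw (bc hr i)))⁻¹ • y) = φ i y
            rw [cw_base, map_one, inv_one, one_smul]
          simp only [h5]
        rw [← h4, ← MdlA_law Q hfm (fun t => sy.dir (t.1 (bc hr i)) = none),
          ← MdlA_law PY hΦ (fun t => sy.dir (t.1 (bc hr i)) = none)]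
        exact Finset.sum_congr rfl fun t _ => r2 v t
      simp only [h3, Finset.sum_const, Finset.card_univ, Fintype.card_fin, nsmul_eq_mul]
    have h2 : ∫ ω, ∑ i, ({v | sy.dir ((om ω v).1 (bc hr i)) = none}.ncard : ℝ) ∂Q =
        n * ∑ i, PY.real {y | sy.dir (φ i y) = none} := by
      rw [integral_finsetSum _ fun s _ => Integrable.of_finite, Finset.mul_sum]
      exact Finset.sum_congr rfl fun i _ => h1 i
    rw [← h2]
    refine le_trans ?_ (add_le_add_right hKr' _)
    rw [← integral_const_mul, ← integral_add Integrable.of_finite Integrable.of_finite]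
    refine integral_mono_ae Integrable.of_finite Integrable.of_finite ?_
    filter_upwards [r3] with ω hω
    exact (hX ω hω).2.2

end H33.HN
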