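import Pool.Agent.H33.HN.HnnB
import Pool.Agent.H33.HN.FrE

/-! # HN.NcA : the elements at the switch edges (paper 5.1)

PROOF. `al_ln`: the letter `inr i` occurs in `rh U V j` only for `j = i`, at the positions `0` and `(U i).length + 1` (`List.get` of the definition). `pg_ln`: `sc (ln i) = ln i` (sign `true`), `cw (ln i) = pv ((rh U V i).take (|U i| + 1)) = pv (U') * (of t)⁻¹`; `sc (lo i) = nx (lo i) = ⟨i, 1⟩` (sign `false`), `cw = (of t)⁻¹`; so `lift g (pg (ln i) (lo i)) = t * u * t⁻¹ = ve` (`ve_eq`). `cy_norm`: `pv l = mk l.reverse`, `l.reverse` is cyclically reduced, `(pv l)^n = mk (flatten (replicate n l.reverse))` is reduced (`IsCyclicallyReduced.flatten_replicate`).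
`el_cases`: let `Al (sp i) q`, i.e. `lp q = lp (sp i) = inl x`, `x` the letter of the head of `U i` (`hy.nU`), `q ≠ sp i`. `cw (sc (sp i)) = pv ((U i).take b0)' * (of t_i)⁻¹` with `b0 = 0` if the sign of the head is `true`, `b0 = 1` otherwise. `q = (j, n)`: `n ≠ 0`, `n ≠ |U j| + 1` (t-letters). BOTTOM: `1 ≤ n ≤ |U j|`: `cw (sc q) = pv ((U j).take b)' * (of t_j)⁻¹` with `b = n - 1` (sign `true`) or `b = n` (sign `false`; `nx q = ⟨j, n + 1⟩`), so `el i q = t_j * xg f * t_i⁻¹`, `f := (pv ((U j).take b))⁻¹ * pv ((U i).take b0)`.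
TOP: `n ≥ |U j| + 2`: `cw (sc q) = pv (initial part of iv (V j))' * t_j * pv (U j)' * t_j⁻¹` or, if `nx q` wraps around, `1`: its image in `G` is `xg` of an element (`ve_eq`), so `el i q = xg f * t_i⁻¹`. The condition in the bottom case: `j ≠ i`: `hy.uu`. `j = i`: if `f u^a f⁻¹ = u^b` and `a ≠ 0` then `f = u^n` (`mal`, `hy.pU`, `cy_norm`), so `|f| = |n| |u|`. But `0 < |f| < |u|`: `n ≥ 2` (`q ≠ sp i`), the prefixes of the reduced word `U i` satisfy `|(pv (take b))⁻¹ * pv (take b0)| = b - b0` for `b ≥ b0` (`(take b) = (take b0) ++ ..` reduced).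
If `b0 = 0` (head sign `true`): sign of `q` `true`: `b = n - 1 ∈ [1, |U| - 1]`. Sign `false`: `b = n ∈ [2, |U|]`, and `b = |U|` would mean that the last letter is the inverse of the first, which is excluded by cyclic reducedness (`|U| ≥ 2`). If `b0 = 1` (head sign `false`): sign of `q` `false`: `b - b0 = n - 1 ∈ [1, |U| - 1]`; sign `true`: `b - b0 = n - 2`, in `[1, |U| - 2]` unless `n = 2`, which is excluded since `U` is reduced. `nc_el`, `nc_dm`: `ve ^ a = t * xg (u ^ a) * t⁻¹` (`ve_eq`), `xg_inj`, `hy.uv`, `el_cases`;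
`nc_dm`: `t (ve^a) t⁻¹ = ve^b = t xg (u^b) t⁻¹`, so `ve^a = xg (u^b)`, `pv (V i)^a = pv (U i)^b`, `b = 0` by `hy.uv` (`c = 1`), `ve^a = 1`, `a = 0`. -/

set_option autoImplicit false
set_option synthInstance.maxSize 4000

open MeasureTheory H31.BE

namespace H33.HN

variable {k m : ℕ} {U V : Fin m → Wl k} {G : Type} [Group G] (g : Lh k m → G) (hg : Pres (rh U V) g) (hy : Hyp U V)

private theorem NcA_low (i : Fin m) (b : ℕ) (hb : b ≤ (U i).length) :
    (rh U V i).take (b + 1) = (Sum.inr i, false) :: ((U i).take b).map (xl m) := by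
  unfold rh
  rw [List.take_succ_cons, List.take_append_of_le_length (by rw [List.length_map]; exact hb), List.map_take]

private theorem NcA_high (i : Fin m) (b : ℕ) :
    (rh U V i).take ((U i).length + 2 + b) =
      (Sum.inr i, false) :: ((U i).map (xl m) ++ (Sum.inr i, true) :: ((iv (V i)).take b).map (xl m)) := by
  unfold rh
  rw [show (U i).length + 2 + b = ((U i).length + (b + 1)) + 1 by omega, List.take_succ_cons]
  have h := List.take_length_add_append (l₁ := (U i).map (xl m))
    (l₂ := (Sum.inr i, true) :: (iv (V i)).map (xl m)) (b + 1)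
  rw [List.length_map] at h
  rw [h, List.take_succ_cons, List.map_take]

private theorem NcA_cons {S : Type} (a : S × Bool) (l : List (S × Bool)) : pv (a :: l) = pv l * val a := by
  have h := pv_append [a] l
  rw [List.singleton_append] at h
  rw [h]
  congr 1
  simp [pv]

private theorem NcA_lft_low (i : Fin m) (b : ℕ) (hb : b ≤ (U i).length) :
    FreeGroup.lift g (pv ((rh U V i).take (b + 1))) = xg g (pv ((U i).take b)) * (g (Sum.inr i))⁻¹ := by
  rw [NcA_low i b hb, NcA_cons, map_mul, pv_xl]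
  simp [val]

include hg in
private theorem NcA_lft_high (i : Fin m) (b : ℕ) :
    ∃ f : FreeGroup (Fin k), FreeGroup.lift g (pv ((rh U V i).take ((U i).length + 2 + b))) = xg g f := by
  refine ⟨pv ((iv (V i)).take b) * pv (V i), ?_⟩
  have hv := ve_eq g hg i
  unfold ve at hv
  rw [NcA_high, NcA_cons, pv_append, NcA_cons, map_mul, map_mul, map_mul, pv_xl, pv_xl, map_mul, hv]
  simp only [val, if_true, Bool.false_eq_true, if_false, map_inv, FreeGroup.lift_apply_of]
  group

private theorem NcA_get0 (i : Fin m) (h : 0 < (rh U V i).length) : (rh U V i)[0] = (Sum.inr i, false) := rfl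

private theorem NcA_getU (i : Fin m) (n : ℕ) (hn : n < (U i).length) (h : n + 1 < (rh U V i).length) :
    (rh U V i)[n + 1] = xl m (U i)[n] := by
  have h3 : (rh U V i)[n + 1]? = some (xl m (U i)[n]) := by
    unfold rh
    rw [List.getElem?_cons_succ, List.getElem?_append_left (by rw [List.length_map]; exact hn),
      List.getElem?_map, List.getElem?_eq_getElem hn]
    rfl
  rw [List.getElem?_eq_getElem h] at h3
  exact Option.some.inj h3

private theorem NcA_getT (i : Fin m) (h : (U i).length + 1 < (rh U V i).length) :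
    (rh U V i)[(U i).length + 1] = (Sum.inr i, true) := by
  have h3 : (rh U V i)[(U i).length + 1]? = some (Sum.inr i, true) := by
    unfold rh
    rw [List.getElem?_cons_succ, List.getElem?_append_right (by rw [List.length_map]), List.length_map,
      Nat.sub_self, List.getElem?_cons_zero]
  rw [List.getElem?_eq_getElem h] at h3
  exact Option.some.inj h3

private theorem NcA_getV (i : Fin m) (n : ℕ) (h : (U i).length + 2 + n < (rh U V i).length) :
    ∃ x : Fin k, ((rh U V i)[(U i).length + 2 + n]).1 = Sum.inl x := by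
  have h1 : n < (iv (V i)).length := by
    rw [rh_len] at h
    simp only [iv, List.length_reverse, List.length_map]
    omega
  refine ⟨((iv (V i))[n]).1, ?_⟩
  have h2 : (rh U V i)[(U i).length + 2 + n] = xl m (iv (V i))[n] := by
    have h3 : (rh U V i)[(U i).length + 2 + n]? = some (xl m (iv (V i))[n]) := by
      unfold rh
      rw [show (U i).length + 2 + n = ((U i).length + (n + 1)) + 1 by omega, List.getElem?_cons_succ,
        List.getElem?_append_right (by rw [List.length_map]; omega), List.length_map,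
        Nat.add_sub_cancel_left, List.getElem?_cons_succ, List.getElem?_map, List.getElem?_eq_getElem h1]
      rfl
    rw [List.getElem?_eq_getElem h] at h3
    exact Option.some.inj h3
  rw [h2]
  rfl

private theorem NcA_lpT {i : Fin m} {q : Ps (rh U V)} (h : lp q = Sum.inr i) : q = lo U V i ∨ q = ln U V i := by
  obtain ⟨j, n, hn⟩ := q
  have h' : ((rh U V j)[n]).1 = Sum.inr i := h
  rcases Nat.eq_zero_or_pos n with h0 | h0
  · subst h0
    rw [NcA_get0] at h'
    obtain rfl : j = i := Sum.inr.inj h'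
    exact Or.inl rfl
  obtain ⟨n, rfl⟩ : ∃ n', n = n' + 1 := ⟨n - 1, by omega⟩
  rcases Nat.lt_trichotomy n (U j).length with h1 | h1 | h1
  · rw [NcA_getU j n h1] at h'
    exact absurd h' (by simp [xl])
  · subst h1
    rw [NcA_getT] at h'
    obtain rfl : j = i := Sum.inr.inj h'
    exact Or.inr rfl
  · obtain ⟨n', rfl⟩ : ∃ n', n = (U j).length + 1 + n' := ⟨n - ((U j).length + 1), by omega⟩
    have h2 : (U j).length + 2 + n' < (rh U V j).length := by omega
    obtain ⟨x, hx⟩ := NcA_getV j n' h2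
    have h3 : ((rh U V j)[(U j).length + 2 + n']).1 = Sum.inr i := by
      have h4 : (rh U V j)[(U j).length + 2 + n'] = (rh U V j)[(U j).length + 1 + n' + 1] := by
        congr 1
        omega
      rw [h4]
      exact h'
    rw [hx] at h3
    exact absurd h3 (by simp)

private theorem NcA_lo_ne (i : Fin m) : lo U V i ≠ ln U V i := by
  intro h
  unfold lo ln at h
  rw [Sigma.mk.injEq] at h
  have h1 := eq_of_heq h.2
  rw [Fin.mk.injEq] at h1
  omega

theorem al_ln (i : Fin m) (q : Ps (rh U V)) : Al (ln U V i) q ↔ q = lo U V i := by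
  have hln : lp (ln U V i) = Sum.inr i := by
    show ((rh U V i)[(U i).length + 1]'(by rw [rh_len]; omega)).1 = _
    rw [NcA_getT]
  have hlo : lp (lo U V i) = Sum.inr i := rfl
  constructor
  · rintro ⟨h1, h2⟩
    rw [hln] at h1
    exact (NcA_lpT h1).resolve_right h2
  · rintro rfl
    exact ⟨by rw [hln, hlo], NcA_lo_ne i⟩

private theorem NcA_sg_ln (i : Fin m) : sg (ln U V i) = true := by
  show ((rh U V i)[(U i).length + 1]'(by rw [rh_len]; omega)).2 = _
  rw [NcA_getT]

include hg in
theorem pg_ln (i : Fin m) : FreeGroup.lift g (pg (ln U V i) (lo U V i)) = ve V g i := by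
  have h1 : sc (ln U V i) = ln U V i := by
    unfold sc
    rw [NcA_sg_ln, if_pos rfl]
  have h2 : cw (sc (lo U V i)) = pv ((rh U V i).take (0 + 1)) := by
    have h3 : sg (lo U V i) = false := rfl
    unfold sc
    rw [h3]
    show pv ((rh U V i).take ((0 + 1) % (rh U V i).length)) = _
    rw [Nat.mod_eq_of_lt (by rw [rh_len]; omega)]
  have h3 : cw (ln U V i) = pv ((rh U V i).take ((U i).length + 1)) := rfl
  unfold pg
  rw [h1, h2, h3, map_mul, map_inv, NcA_lft_low g i 0 (Nat.zero_le _), NcA_lft_low g i _ (le_refl _),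
    List.take_length, List.take_zero, pv_nil, map_one, ve_eq g hg i]
  group

private theorem NcA_rev {l : Wl k} (h : FreeGroup.IsReduced l) : FreeGroup.IsReduced l.reverse := by
  unfold FreeGroup.IsReduced at h ⊢
  rw [List.isChain_reverse]
  exact h.imp fun a b hab hba => (hab hba.symm).symm

private theorem NcA_nrm {l : Wl k} (h : FreeGroup.IsReduced l) : (pv l).norm = l.length := by
  rw [pv_mk]
  unfold FreeGroup.norm
  rw [FreeGroup.toWord_mk, (NcA_rev h).reduce_eq, List.length_reverse]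

theorem cy_norm (l : Wl k) (h : FreeGroup.IsCyclicallyReduced l) (n : ℕ) : (pv l ^ n).norm = n * (pv l).norm := by
  have h1 : FreeGroup.IsCyclicallyReduced l.reverse := by
    refine ⟨NcA_rev h.1, ?_⟩
    intro a ha b hb hab
    rw [List.getLast?_reverse] at ha
    rw [List.head?_reverse] at hb
    exact (h.2 b hb a ha hab.symm).symm
  have h2 := (h1.flatten_replicate n).isReduced
  rw [NcA_nrm h.1, pv_mk, FreeGroup.pow_mk]
  unfold FreeGroup.norm
  rw [FreeGroup.toWord_mk, h2.reduce_eq]
  simp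

private theorem NcA_bot (j : Fin m) (n : ℕ) (hn : n < (U j).length) (h : n + 1 < (rh U V j).length) :
    FreeGroup.lift g (cw (sc (r := rh U V) ⟨j, ⟨n + 1, h⟩⟩)) =
      xg g (pv ((U j).take (if ((U j)[n]).2 = true then n else n + 1))) * (g (Sum.inr j))⁻¹ := by
  have hs : sg (r := rh U V) ⟨j, ⟨n + 1, h⟩⟩ = ((U j)[n]).2 := by
    show ((rh U V j)[n + 1]).2 = _
    rw [NcA_getU j n hn]
    rfl
  unfold sc
  rw [hs]
  by_cases hb : ((U j)[n]).2 = true
  · rw [if_pos hb, if_pos hb]
    show FreeGroup.lift g (pv ((rh U V j).take (n + 1))) = _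
    rw [NcA_lft_low g j n hn.le]
  · rw [if_neg hb, if_neg hb]
    show FreeGroup.lift g (pv ((rh U V j).take ((n + 1 + 1) % (rh U V j).length))) = _
    rw [Nat.mod_eq_of_lt (by rw [rh_len]; omega), NcA_lft_low g j (n + 1) hn]

include hg in
private theorem NcA_top (j : Fin m) (n : ℕ) (hn : (U j).length + 2 ≤ n) (h : n < (rh U V j).length) :
    ∃ f : FreeGroup (Fin k), FreeGroup.lift g (cw (sc (r := rh U V) ⟨j, ⟨n, h⟩⟩)) = xg g f := by
  have hgen : ∀ n' : ℕ, (U j).length + 2 ≤ n' →
      ∃ f : FreeGroup (Fin k), FreeGroup.lift g (pv ((rh U V j).take n')) = xg g f := by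
    intro n' hn'
    obtain ⟨f, hf⟩ := NcA_lft_high g hg j (n' - ((U j).length + 2))
    rw [Nat.add_sub_cancel' hn'] at hf
    exact ⟨f, hf⟩
  unfold sc
  by_cases hb : sg (r := rh U V) ⟨j, ⟨n, h⟩⟩ = true
  · rw [if_pos hb]
    exact hgen n hn
  · rw [if_neg hb]
    have h1 : cw (nx (r := rh U V) ⟨j, ⟨n, h⟩⟩) = pv ((rh U V j).take ((n + 1) % (rh U V j).length)) := rfl
    rw [h1]
    rcases Nat.lt_or_ge (n + 1) (rh U V j).length with h2 | h2
    · rw [Nat.mod_eq_of_lt h2]
      exact hgen (n + 1) (by omega)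
    · have h3 : n + 1 = (rh U V j).length := by omega
      rw [h3, Nat.mod_self, List.take_zero, pv_nil]
      exact ⟨1, by rw [map_one, map_one]⟩

private theorem NcA_step (l : Wl k) (n : ℕ) (hn : n < l.length) : pv (l.take (n + 1)) = val l[n] * pv (l.take n) := by
  rw [← List.take_append_getElem (h := hn), pv_concat]

/-- the inverse of `f` is a prefix of the word -/
private theorem NcA_f (l : Wl k) (n : ℕ) (hn : n < l.length) (h0 : 0 < l.length) (hx : (l[n]).1 = (l[0]).1) :
    ((pv (l.take (if (l[n]).2 = true then n else n + 1)))⁻¹ *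
      pv (l.take (if (l[0]).2 = true then 0 else 1)))⁻¹ =
      pv (l.take (if (l[n]).2 = (l[0]).2 then n else n + 1)) := by
  have h1 : pv (l.take 1) = val l[0] := by
    rw [NcA_step l 0 h0, List.take_zero, pv_nil, mul_one]
  have hv : ∀ a : Fin k × Bool, val a = if a.2 = true then FreeGroup.of a.1 else (FreeGroup.of a.1)⁻¹ := fun a => rfl
  have h2 := NcA_step l n hn
  rw [hv, hx] at h2
  rw [hv] at h1
  rcases hb0 : (l[0]).2 with _ | _ <;> rcases hbn : (l[n]).2 with _ | _
  · rw [hb0] at h1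
    rw [hbn] at h2
    simp only [Bool.false_eq_true, if_false, if_true] at h1 h2 ⊢
    rw [h1, h2]
    group
  · rw [hb0] at h1
    rw [hbn] at h2
    simp only [Bool.false_eq_true, if_false, if_true, Bool.true_eq_false] at h1 h2 ⊢
    rw [h1, h2]
    group
  · rw [hbn] at h2
    simp only [Bool.false_eq_true, if_false, if_true] at h2 ⊢
    rw [List.take_zero, pv_nil]
    group
  · rw [hbn] at h2
    simp only [if_true] at h2 ⊢
    rw [List.take_zero, pv_nil]
    group

private theorem NcA_self (l : Wl k) (hc : FreeGroup.IsCyclicallyReduced l) (h1 : pv l ≠ 1)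
    (hp : ∀ (w : FreeGroup (Fin k)) (n : ℤ), pv l = w ^ n → n = 1 ∨ n = -1) (n : ℕ) (hn : n < l.length)
    (hn0 : n ≠ 0) (h0 : 0 < l.length) (hx : (l[n]).1 = (l[0]).1) (a b : ℤ)
    (h : ((pv (l.take (if (l[n]).2 = true then n else n + 1)))⁻¹ *
      pv (l.take (if (l[0]).2 = true then 0 else 1))) * pv l ^ a *
      ((pv (l.take (if (l[n]).2 = true then n else n + 1)))⁻¹ *
      pv (l.take (if (l[0]).2 = true then 0 else 1)))⁻¹ = pv l ^ b) : a = 0 := by
  by_contra ha
  obtain ⟨z, hz⟩ := mal (pv l) _ h1 (cy_norm l hc) hp a b h ha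
  have h2 := NcA_f l n hn h0 hx
  rw [hz] at h2
  have h3 : (pv l ^ z).norm = z.natAbs * l.length := by
    rw [← NcA_nrm hc.1, ← cy_norm l hc]
    rcases Int.natAbs_eq z with h4 | h4
    · rw [h4, zpow_natCast, Int.natAbs_natCast]
    · rw [h4, zpow_neg, zpow_natCast, FreeGroup.norm_inv_eq, Int.natAbs_neg, Int.natAbs_natCast]
  have h4 : ((pv l ^ z)⁻¹).norm = z.natAbs * l.length := by rw [FreeGroup.norm_inv_eq, h3]
  have h5 : FreeGroup.IsReduced (l.take (if (l[n]).2 = (l[0]).2 then n else n + 1)) :=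
    List.IsChain.take hc.1 _
  rw [h2, NcA_nrm h5, List.length_take] at h4
  have h6 : (if (l[n]).2 = (l[0]).2 then n else n + 1) < l.length := by
    by_cases hs : (l[n]).2 = (l[0]).2
    · rw [if_pos hs]
      exact hn
    · rw [if_neg hs]
      rcases Nat.lt_or_ge (n + 1) l.length with h7 | h7
      · exact h7
      · exfalso
        apply hs
        refine hc.2 _ ?_ _ ?_ hx
        · rw [List.getLast?_eq_getElem?]
          have h8 : l.length - 1 = n := by omega
          rw [h8, List.getElem?_eq_getElem hn]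
          rfl
        · rw [List.head?_eq_getElem?, List.getElem?_eq_getElem h0]
          rfl
  have h7 : 0 < (if (l[n]).2 = (l[0]).2 then n else n + 1) := by
    split_ifs <;> omega
  rw [Nat.min_eq_left h6.le] at h4
  rcases Nat.eq_zero_or_pos z.natAbs with h8 | h8
  · rw [h8, zero_mul] at h4
    omega
  · have h9 : l.length ≤ z.natAbs * l.length := Nat.le_mul_of_pos_left _ h8
    omega

include hg hy in
theorem el_cases (i : Fin m) (q : Ps (rh U V)) (hq : Al (sp U V i) q) :
    (∃ f : FreeGroup (Fin k), el U V g i q = g (Sum.inr q.1) * xg g f * (g (Sum.inr i))⁻¹ ∧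
      ∀ a b : ℤ, f * pv (U i) ^ a * f⁻¹ = pv (U q.1) ^ b → a = 0) ∨
    ∃ f : FreeGroup (Fin k), el U V g i q = xg g f * (g (Sum.inr i))⁻¹ := by
  have hU0 : 0 < (U i).length := List.length_pos_iff.2 (hy.nU i)
  have hsp : lp (sp U V i) = Sum.inl ((U i)[0]).1 := by
    show ((rh U V i)[0 + 1]'(by rw [rh_len]; omega)).1 = _
    rw [NcA_getU i 0 hU0]
    rfl
  have hcs : FreeGroup.lift g (cw (sc (sp U V i))) =
      xg g (pv ((U i).take (if ((U i)[0]).2 = true then 0 else 1))) * (g (Sum.inr i))⁻¹ :=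
    NcA_bot g i 0 hU0 (by rw [rh_len]; omega)
  obtain ⟨j, n, hn⟩ := q
  obtain ⟨hq1, hq2⟩ := hq
  rw [hsp] at hq1
  have hq1' : ((rh U V j)[n]).1 = Sum.inl ((U i)[0]).1 := hq1
  have hn0 : n ≠ 0 := by
    rintro rfl
    rw [NcA_get0] at hq1'
    exact absurd hq1' (by simp)
  obtain ⟨n, rfl⟩ : ∃ n', n = n' + 1 := ⟨n - 1, by omega⟩
  rcases Nat.lt_trichotomy n (U j).length with h1 | h1 | h1
  · left
    refine ⟨(pv ((U j).take (if ((U j)[n]).2 = true then n else n + 1)))⁻¹ *
      pv ((U i).take (if ((U i)[0]).2 = true then 0 else 1)), ?_, ?_⟩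
    · unfold el pg
      rw [map_mul, map_inv, hcs, NcA_bot g j n h1 hn, map_mul, map_inv]
      group
    · intro a b h
      by_cases hij : i = j
      · subst hij
        refine NcA_self (U i) (hy.cU i) (pu_ne hy i) (hy.pU i) n h1 ?_ hU0 ?_ a b h
        · rintro rfl
          exact hq2 rfl
        · rw [NcA_getU i n h1] at hq1'
          exact Sum.inl.inj hq1'
      · exact hy.uu i j hij _ a b h
  · subst h1
    rw [NcA_getT] at hq1'
    exact absurd hq1' (by simp)
  · right
    obtain ⟨f, hf⟩ := NcA_top g hg j (n + 1) (by omega) hn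
    refine ⟨f⁻¹ * pv ((U i).take (if ((U i)[0]).2 = true then 0 else 1)), ?_⟩
    unfold el pg
    rw [map_mul, map_inv, hcs, hf, map_mul, map_inv]
    group

include hg hy in
theorem nc_el (i : Fin m) (q : Ps (rh U V)) (hq : Al (sp U V i) q) (a b : ℤ)
    (h : el U V g i q * ve V g i ^ a * (el U V g i q)⁻¹ = ve V g q.1 ^ b) : a = 0 := by
  have hva : ve V g i ^ a = g (Sum.inr i) * xg g (pv (U i) ^ a) * (g (Sum.inr i))⁻¹ := by
    rw [ve_eq g hg i, conj_zpow, map_zpow]
  rcases el_cases g hg hy i q hq with ⟨f, hf, hc⟩ | ⟨f, hf⟩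
  · have hvb : ve V g q.1 ^ b = g (Sum.inr q.1) * xg g (pv (U q.1) ^ b) * (g (Sum.inr q.1))⁻¹ := by
      rw [ve_eq g hg q.1, conj_zpow, map_zpow]
    rw [hf, hva, hvb] at h
    refine hc a b (xg_inj g hg hy ?_)
    rw [map_mul, map_mul, map_inv]
    have h2 : g (Sum.inr q.1) * (xg g f * xg g (pv (U i) ^ a) * (xg g f)⁻¹) * (g (Sum.inr q.1))⁻¹ =
        g (Sum.inr q.1) * xg g (pv (U q.1) ^ b) * (g (Sum.inr q.1))⁻¹ := by
      rw [← h]
      group
    exact mul_left_cancel (mul_right_cancel h2)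
  · rw [hf, hva] at h
    refine hy.uv i q.1 f a b (xg_inj g hg hy ?_)
    rw [map_mul, map_mul, map_inv, map_zpow _ (pv (V q.1)) b]
    have h3 : xg g (pv (V q.1)) = ve V g q.1 := rfl
    rw [h3, ← h]
    group

include hg hy in
theorem nc_dm (i : Fin m) (a b : ℤ) (h : g (Sum.inr i) * ve V g i ^ a * (g (Sum.inr i))⁻¹ = ve V g i ^ b) :
    a = 0 := by
  have hvb : ve V g i ^ b = g (Sum.inr i) * xg g (pv (U i) ^ b) * (g (Sum.inr i))⁻¹ := by
    rw [ve_eq g hg i, conj_zpow, map_zpow]
  rw [hvb] at h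
  have h1 : ve V g i ^ a = xg g (pv (U i) ^ b) := mul_left_cancel (mul_right_cancel h)
  have h2 : pv (V i) ^ a = pv (U i) ^ b := by
    apply xg_inj g hg hy
    rw [← h1, map_zpow]
    rfl
  have h3 : b = 0 := hy.uv i i 1 b a (by rw [h2]; group)
  rw [h3, zpow_zero, map_one] at h1
  exact ve_ord g hg hy i a h1

end H33.HN
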