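import Pool.Agent.H33.HN.BlcA

/-! # HN.NoC : there are no cycles of parents (paper 5.2)

PROOF. `L0` from `blc_ne`. Let `td := tdx U V g N L t`. A step `Prx g td (i, z) c'`: if `sw i (sf z t)`: `c' = (q.1, el i q * z)` with `Al (sp i) q`, and the parent line has a mark within `N` steps: `∃ n ≤ N, t (ve q.1 ^ n * (el i q * z)) q.1 = true` (`sf z t x = t (x * z)`). If not: `c' = (i, ve i * z)` (`al_ln`, `pg_ln`). Call `(j, z)` post-switch if `∃ n ≤ N, t (ve j ^ n * z) j = true`. (1) If `(j, z)` is post-switch and `sw j (sf (ve j ^ b * z) t)` then `b > L`: if `b ≤ n` then `t (ve j ^ (n - b) * (ve j ^ b * z)) j = true` contradicts the first condition of `sw`;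
if `n < b ≤ n + L` then `t ((ve j ^ (b - n))⁻¹ * (ve j ^ b * z)) j = true` contradicts the second. (2) CLAIM: if `(i, z)` is post-switch and `ReflTransGen (Prx g td) (i, z) (j, z')` then there are `b : ℕ` and `x` with `z' = ve j ^ b * (x * z)`, `(j, x * z)` is post-switch and (`x = 1` and `j = i`, or `Blc L i j x`). Induction on the path (the last step): line move: `b + 1`. Switch: `b > L` by (1), `x' := el j q * ve j ^ b * x` is a product of blocks (`one` or `snoc`), `b' = 0`.
(3) A cycle `TransGen (Prx g td) c c`. If all its steps are line moves: `c.2 = ve ^ n * c.2` with `n ≥ 1`, a contradiction to `ve_ord` (claim by induction on the path: either there is a switch step on the path or it is `n ≥ 1` line moves). Otherwise there is a switch step `x → y` on the cycle with `ReflTransGen (Prx g td) y x`, `y` is post-switch: (2) for the path from `y = (i, z)` to `x = (j, z')`, then the switch: `y = (q.1, el j q * ve j ^ b * x0 * z)`, so `Blc L i i w` with `w * z = z`,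 `w = 1`, a contradiction to `blc_ne`. -/

set_option autoImplicit false
set_option synthInstance.maxSize 4000

open MeasureTheory H31.BE

namespace H33.HN

variable {k m : ℕ} {U V : Fin m → Wl k} {G : Type} [Group G] (g : Lh k m → G) (hg : Pres (rh U V) g) (hy : Hyp U V)

/-- a step which switches -/
private def NoC_Sw (N L : ℕ) (t : G → Fin m → Bool) (c c' : Fin m × G) : Prop :=
  sw U V g N L c.1 (sf c.2 t) ∧ ∃ q : Ps (rh U V), Al (sp U V c.1) q ∧ c' = (q.1, el U V g c.1 q * c.2)

/-- a step along the line -/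
private def NoC_Li (V : Fin m → Wl k) (c c' : Fin m × G) : Prop := c' = (c.1, ve V g c.1 * c.2)

private def NoC_Po (V : Fin m → Wl k) (N : ℕ) (t : G → Fin m → Bool) (c : Fin m × G) : Prop :=
  ∃ n ≤ N, t (ve V g c.1 ^ n * c.2) c.1 = true

include hg in
private theorem NoC_step (N L : ℕ) (t : G → Fin m → Bool) (c c' : Fin m × G)
    (h : Prx g (tdx U V g N L t) c c') : NoC_Sw (U := U) (V := V) g N L t c c' ∨ NoC_Li g V c c' := by
  obtain ⟨q, hq, rfl⟩ := h
  by_cases hs : sw U V g N L c.1 (sf c.2 t)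
  · left
    have e : tdx U V g N L t c.1 c.2 = sp U V c.1 := by unfold tdx; rw [if_pos hs]
    rw [e] at hq ⊢
    exact ⟨hs, q, hq, rfl⟩
  · right
    have e : tdx U V g N L t c.1 c.2 = ln U V c.1 := by unfold tdx; rw [if_neg hs]
    rw [e] at hq ⊢
    have h1 := (al_ln c.1 q).1 hq
    subst h1
    unfold NoC_Li
    rw [pg_ln g hg]
    rfl

private theorem NoC_post (N L : ℕ) (t : G → Fin m → Bool) (c c' : Fin m × G)
    (h : NoC_Sw (U := U) (V := V) g N L t c c') : NoC_Po g V N t c' := by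
  obtain ⟨hs, q, hq, rfl⟩ := h
  obtain ⟨n, hn, hn'⟩ := hs.2.2.1 q hq
  refine ⟨n, hn, ?_⟩
  have e : ve V g q.1 ^ n * (el U V g c.1 q * c.2) = ve V g q.1 ^ n * el U V g c.1 q * c.2 := by group
  show t (ve V g q.1 ^ n * (el U V g c.1 q * c.2)) q.1 = true
  rw [e]
  exact hn'

private theorem NoC_long (N L : ℕ) (t : G → Fin m → Bool) (j : Fin m) (z : G) (b : ℕ)
    (hp : NoC_Po g V N t (j, z)) (hs : sw U V g N L j (sf (ve V g j ^ b * z) t)) : L < b := by
  obtain ⟨n, hn, hn'⟩ := hp
  by_contra hb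
  push Not at hb
  rcases le_total b n with h1 | h1
  · have h2 := hs.1 (n - b) (by omega)
    apply h2
    show t (ve V g j ^ (n - b) * (ve V g j ^ b * z)) j = true
    rw [← mul_assoc, ← pow_add, Nat.sub_add_cancel h1]
    exact hn'
  · have h2 := hs.2.1 (b - n) (by omega)
    apply h2
    show t ((ve V g j ^ (b - n))⁻¹ * (ve V g j ^ b * z)) j = true
    have e : (ve V g j ^ (b - n))⁻¹ * (ve V g j ^ b * z) = ve V g j ^ n * z := by
      have : ve V g j ^ b = ve V g j ^ (b - n) * ve V g j ^ n := by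
        rw [← pow_add, Nat.sub_add_cancel h1]
      rw [this]
      group
    rw [e]
    exact hn'

/-- the invariant of the paths which start at a cell after a switch -/
private def NoC_Inv (U V : Fin m → Wl k) (N L : ℕ) (t : G → Fin m → Bool) (c d : Fin m × G) : Prop :=
  ∃ (b : ℕ) (x : G), d.2 = ve V g d.1 ^ b * (x * c.2) ∧ NoC_Po g V N t (d.1, x * c.2) ∧
    ((x = 1 ∧ d.1 = c.1) ∨ Blc U V g L c.1 d.1 x)

private theorem NoC_blc (N L : ℕ) (t : G → Fin m → Bool) (c d : Fin m × G) (q : Ps (rh U V))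
    (hq : Al (sp U V d.1) q) (hs : sw U V g N L d.1 (sf d.2 t)) (b : ℕ) (x : G)
    (h1 : d.2 = ve V g d.1 ^ b * (x * c.2)) (h2 : NoC_Po g V N t (d.1, x * c.2))
    (h3 : (x = 1 ∧ d.1 = c.1) ∨ Blc U V g L c.1 d.1 x) :
    Blc U V g L c.1 q.1 (el U V g d.1 q * ve V g d.1 ^ b * x) := by
  have hb : L < b := by
    rw [h1] at hs
    exact NoC_long g N L t d.1 (x * c.2) b h2 hs
  rcases h3 with ⟨rfl, h4⟩ | h3
  · obtain ⟨i, z⟩ := c
    obtain ⟨j, z'⟩ := d
    simp only at h4 hq ⊢
    subst h4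
    rw [mul_one]
    exact Blc.one q b hq hb
  · exact Blc.snoc d.1 x q b h3 hq hb

include hg in
private theorem NoC_inv_step (N L : ℕ) (t : G → Fin m → Bool) (c d d' : Fin m × G)
    (hI : NoC_Inv g U V N L t c d) (h : Prx g (tdx U V g N L t) d d') : NoC_Inv g U V N L t c d' := by
  obtain ⟨b, x, h1, h2, h3⟩ := hI
  rcases NoC_step g hg N L t d d' h with hs | hl
  · have hp := NoC_post g N L t d d' hs
    obtain ⟨hs, q, hq, rfl⟩ := hs
    refine ⟨0, el U V g d.1 q * ve V g d.1 ^ b * x, ?_, ?_, Or.inr (NoC_blc g N L t c d q hq hs b x h1 h2 h3)⟩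
    · show el U V g d.1 q * d.2 = _
      rw [h1]
      group
    · have e : el U V g d.1 q * ve V g d.1 ^ b * x * c.2 = el U V g d.1 q * d.2 := by
        rw [h1]
        group
      rw [e]
      exact hp
  · unfold NoC_Li at hl
    subst hl
    refine ⟨b + 1, x, ?_, h2, h3⟩
    show ve V g d.1 * d.2 = ve V g d.1 ^ (b + 1) * (x * c.2)
    rw [h1, pow_succ']
    group

include hg in
private theorem NoC_inv (N L : ℕ) (t : G → Fin m → Bool) (c d : Fin m × G) (hp : NoC_Po g V N t c)
    (h : Relation.ReflTransGen (Prx g (tdx U V g N L t)) c d) : NoC_Inv g U V N L t c d := by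
  induction h with
  | refl =>
    refine ⟨0, 1, by simp, ?_, Or.inl ⟨rfl, rfl⟩⟩
    rw [one_mul]
    exact hp
  | tail _ h ih => exact NoC_inv_step g hg N L t c _ _ ih h

include hg in
private theorem NoC_cyc (N L : ℕ) (t : G → Fin m → Bool) (c d : Fin m × G)
    (h : Relation.TransGen (Prx g (tdx U V g N L t)) c d) :
    (∃ n : ℕ, 0 < n ∧ d = (c.1, ve V g c.1 ^ n * c.2)) ∨
    ∃ x y, Relation.ReflTransGen (Prx g (tdx U V g N L t)) c x ∧ NoC_Sw (U := U) (V := V) g N L t x y ∧
      Relation.ReflTransGen (Prx g (tdx U V g N L t)) y d := by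
  induction h with
  | single h =>
    rcases NoC_step g hg N L t _ _ h with hs | hl
    · exact Or.inr ⟨_, _, Relation.ReflTransGen.refl, hs, Relation.ReflTransGen.refl⟩
    · refine Or.inl ⟨1, one_pos, ?_⟩
      unfold NoC_Li at hl
      rw [hl, pow_one]
  | tail h1 h ih =>
    rcases ih with ⟨n, hn, rfl⟩ | ⟨x, y, hx, hxy, hy'⟩
    · rcases NoC_step g hg N L t _ _ h with hs | hl
      · exact Or.inr ⟨_, _, h1.to_reflTransGen, hs, Relation.ReflTransGen.refl⟩
      · refine Or.inl ⟨n + 1, Nat.succ_pos n, ?_⟩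
        unfold NoC_Li at hl
        rw [hl, pow_succ', mul_assoc]
    · exact Or.inr ⟨x, y, hx, hxy, hy'.tail h⟩

include hg hy in
theorem noc : ∃ L0 : ℕ, ∀ L, L0 ≤ L → ∀ (N : ℕ) (t : G → Fin m → Bool) (c : Fin m × G),
    ¬ Relation.TransGen (Prx g (tdx U V g N L t)) c c := by
  obtain ⟨L0, hL0⟩ := blc_ne g hg hy
  refine ⟨L0, fun L hL N t c hc => ?_⟩
  rcases NoC_cyc g hg N L t c c hc with ⟨n, hn, h⟩ | ⟨x, y, hx, hxy, hyc⟩
  · have h1 : ve V g c.1 ^ n * c.2 = c.2 := (congrArg Prod.snd h).symm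
    have h2 : ve V g c.1 ^ (n : ℤ) = 1 := by
      rw [zpow_natCast]
      exact mul_eq_right.1 h1
    have h3 := ve_ord g hg hy c.1 (n : ℤ) h2
    omega
  · have hp := NoC_post g N L t x y hxy
    obtain ⟨b, x0, h1, h2, h3⟩ := NoC_inv g hg N L t y x hp (hyc.trans hx)
    obtain ⟨hs, q, hq, hyq⟩ := hxy
    have hB := NoC_blc g N L t y x q hq hs b x0 h1 h2 h3
    have e1 : y.1 = q.1 := congrArg Prod.fst hyq
    have e2 : y.2 = el U V g x.1 q * x.2 := congrArg Prod.snd hyq
    rw [h1] at e2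
    have e3 : el U V g x.1 q * ve V g x.1 ^ b * x0 = 1 := by
      have e4 : (el U V g x.1 q * ve V g x.1 ^ b * x0) * y.2 = y.2 := by
        conv_rhs => rw [e2]
        group
      exact mul_eq_right.1 e4
    rw [e3, ← e1] at hB
    exact hL0 L hL y.1 hB

end H33.HN
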