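import Pool.Agent.H33.HN.TrA
import Pool.Agent.H33.HN.Cons
import Pool.Agent.H33.HN.BbA
import Pool.Agent.H33.HN.SupA

/-! # HN.OmU : the bag patterns are determined by labels, directions and their values at the bad vertices

PROOF. Let `B := BB g om X m = BB g om' X m`, `m ≥ R + 2 ml r + 1`. (1) `(om v).2.1 = (om' v).2.1` for all `v`: clear for `v ∈ B`. `v ∉ B`: `(om v).2.1 h = lb (h • y v) = lb (y (ac X (rp h) v))` for `h ∈ ball (SS g) R` (`hom`, `cons`, `bb_mis`), the same for `om'`, and `lb (y u) = lb (y' u)` for all `u`. (2) `(om v).2.2 s = (om' v).2.2 s`: `v ∉ B`: for `v' = (X s)⁻¹ v ∉ Mis` (both): `tgt s (om v) = src s (om v')`: `(om v).2.2 s = (om v').2.1`; use (1) for `v'`.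
(3) Claim: for all `k`, `v`, `c`: if `sy.ht ((om v).1 c) ≤ k` then `(om v).1 c = (om' v).1 c`. Strong induction on `k`. `v ∈ B`: clear. `v ∉ B`: let `v0 := (ac X (cw c))⁻¹ v`, `i := c.1`. By `tra` at `v0` (all `ac X f v0 = ac X (f * (cw c)⁻¹) v ∉ Mis` for `f.norm ≤ ml r`, `bb_mis`, `norm_cw`) `(om v).1 c = (om v0).1 (bc hr i) =: P`, and `(om' v).1 c = (om' v0).1 (bc hr i) =: P'`. If `v0 ∈ B` done. Otherwise `sy.inj` gives `P = P'`:
`typ P = i = typ P'` (`s0`). `dir P = dir P'`: `hdd`. `lab P c1 = lab P' c1`: for `c1.1 ≠ i` both are `none` (`hom`, `hpr.l` at `cw (bc hr i) = 1`: `(om v0).1 (bc hr i) = φ i (1⁻¹ • y v0)`). For `c1.1 = i`: by `tra` at `v0` `(om u).1 c1 = P` for `u = ac X (cw c1) v0`, so `lab P c1 = some (om u).2.1` (`s3`), the same for `om'`; (1).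
`par`: let `dir P = some p`, `p.1 = i` (`d1`), `Al p q`, `u := ac X (cw (sc p)) v0`: `(om u).1 (sc p) = P`, so `(om u).1 (sc q) = par P q` (`s1`), the same for `om'`: `(om' u).1 (sc q) = par P' q`; `ht (par P q) < ht P` (`h1`), so the induction hypothesis for `u`, `sc q` gives the equality. (`tra` at `v0` needs `v0 ∉ B`, `bb_mis`.) -/

set_option autoImplicit false
set_option synthInstance.maxSize 4000

open MeasureTheory H31.BE

namespace H33.HN

variable {S I : Type} [Fintype S] [Fintype I] [DecidableEq S] [DecidableEq I] {r : Rl S I} {G Y Λ P V : Type}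
  [Group G] [DecidableEq G] [MulAction G Y]

omit [DecidableEq I] [DecidableEq G] in
private lemma omU_mis (g : S → G) {Λ' : Type} (om : V → Bag r P Λ') (X : S → Equiv.Perm V) (m : ℕ)
    (hm : 2 * ml r ≤ m) (v : V) (hv : v ∉ BB g om X m) (c : Ps r) (f : FreeGroup S) (hf : f.norm ≤ ml r) :
    ac X f ((ac X (cw c))⁻¹ v) ∉ Mis om X := by
  have e : ac X f ((ac X (cw c))⁻¹ v) = ac X (f * (cw c)⁻¹) v := by
    rw [map_mul, map_inv, Equiv.Perm.mul_apply]
  rw [e]
  refine bb_mis g om X m _ ?_ v hv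
  have h1 := FreeGroup.norm_mul_le f (cw c)⁻¹
  rw [FreeGroup.norm_inv_eq] at h1
  have h2 := norm_cw c
  omega

omit [Fintype I] [DecidableEq I] [DecidableEq G] in
private lemma omU_two (g : S → G) {Λ' : Type} (om : V → Bag r P Λ') (X : S → Equiv.Perm V) (m : ℕ)
    (hm : 1 ≤ m) (v : V) (hv : v ∉ BB g om X m) (s : S) :
    (om v).2.2 s = (om ((X s)⁻¹ v)).2.1 := by
  have h1 : ac X (FreeGroup.of s)⁻¹ v ∉ Mis om X := by
    refine bb_mis g om X m _ ?_ v hv
    rw [FreeGroup.norm_inv_eq, FreeGroup.norm_of]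
    exact hm
  rw [map_inv, FreeGroup.lift_apply_of] at h1
  have h2 : tgt s (om (X s ((X s)⁻¹ v))) = src s (om ((X s)⁻¹ v)) := by
    by_contra h3
    exact h1 ⟨s, h3⟩
  have e : X s ((X s)⁻¹ v) = v := (X s).apply_symm_apply v
  rw [e] at h2
  exact congrArg Prod.snd h2

omit [Fintype I] [DecidableEq I] in
private lemma omU_one (g : S → G) (lb : Y → Λ) (R : ℕ) (φ : I → Y → P)
    (om : V → Bag r P (↥(ball (SS g) R) → Λ)) (y : V → Y)
    (hom : ∀ v, om v = bgp g (win lb (ball (SS g) R)) φ (y v)) (X : S → Equiv.Perm V) (m : ℕ)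
    (hm : R ≤ m) (v : V) (hv : v ∉ BB g om X m) (h : ↥(ball (SS g) R)) (f : FreeGroup S)
    (hf : f.norm ≤ R) (hfg : FreeGroup.lift g f = (h : G)) :
    (om v).2.1 h = lb (y (ac X f v)) := by
  rw [← cons g lb R φ om y hom X v f hf fun f' hf' =>
    bb_mis g om X m f' (hf'.trans (hf.trans hm)) v hv, hfg, hom v]
  rfl

theorem omu (hr : ∀ i, 0 < (r i).length) (g : S → G) (lb : Y → Λ) (R : ℕ)
    (sy : Psy r P (↥(ball (SS g) R) → Λ)) (φ : I → Y → P) (hpr : Prc g sy (win lb (ball (SS g) R)) φ)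
    (om om' : V → Bag r P (↥(ball (SS g) R) → Λ)) (hsup : ∀ v, Sup sy (om v)) (hsup' : ∀ v, Sup sy (om' v))
    (y y' : V → Y) (hom : ∀ v, om v = bgp g (win lb (ball (SS g) R)) φ (y v))
    (hom' : ∀ v, om' v = bgp g (win lb (ball (SS g) R)) φ (y' v)) (X : S → Equiv.Perm V)
    (hl : ∀ v, lb (y v) = lb (y' v))
    (hdd : ∀ v i, sy.dir ((om v).1 (bc hr i)) = sy.dir ((om' v).1 (bc hr i)))
    (m : ℕ) (hm : R + 2 * ml r + 1 ≤ m) (hB : BB g om X m = BB g om' X m)
    (hv : ∀ v ∈ BB g om X m, om v = om' v) : om = om' := by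
  obtain ⟨rp, hrp⟩ := rp_ex g
  have L1 : ∀ v, (om v).2.1 = (om' v).2.1 := by
    intro v
    by_cases hvB : v ∈ BB g om X m
    · rw [hv v hvB]
    · have hvB' : v ∉ BB g om' X m := by rwa [← hB]
      funext h
      obtain ⟨h1, h2⟩ := hrp R h h.2
      rw [omU_one g lb R φ om y hom X m (by omega) v hvB h (rp h) h1 h2,
        omU_one g lb R φ om' y' hom' X m (by omega) v hvB' h (rp h) h1 h2]
      exact hl _
  have L2 : ∀ v s, (om v).2.2 s = (om' v).2.2 s := by
    intro v s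
    by_cases hvB : v ∈ BB g om X m
    · rw [hv v hvB]
    · have hvB' : v ∉ BB g om' X m := by rwa [← hB]
      rw [omU_two g om X m (by omega) v hvB s, omU_two g om' X m (by omega) v hvB' s]
      exact L1 _
  have L3 : ∀ k v c, sy.ht ((om v).1 c) ≤ k → (om v).1 c = (om' v).1 c := by
    intro k
    induction k using Nat.strong_induction_on with
    | _ k ih =>
    intro v c hk
    by_cases hvB : v ∈ BB g om X m
    · rw [hv v hvB]
    have hvB' : v ∉ BB g om' X m := by rwa [← hB]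
    set v0 : V := (ac X (cw c))⁻¹ v with hv0
    have hM : ∀ f : FreeGroup S, f.norm ≤ ml r → ac X f v0 ∉ Mis om X := fun f hf =>
      omU_mis g om X m (by omega) v hvB c f hf
    have hM' : ∀ f : FreeGroup S, f.norm ≤ ml r → ac X f v0 ∉ Mis om' X := fun f hf =>
      omU_mis g om' X m (by omega) v hvB' c f hf
    have ev : ac X (cw c) v0 = v := by
      rw [hv0]
      exact (ac X (cw c)).apply_symm_apply v
    have t1 := tra hr om X v0 hM
    have t2 := tra hr om' X v0 hM'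
    have e1 : (om v).1 c = (om v0).1 (bc hr c.1) := by
      have := t1 c
      rwa [ev] at this
    have e2 : (om' v).1 c = (om' v0).1 (bc hr c.1) := by
      have := t2 c
      rwa [ev] at this
    rw [e1, e2]
    by_cases hv0B : v0 ∈ BB g om X m
    · rw [hv v0 hv0B]
    refine sy.inj _ _ ?_ ?_ (hdd v0 c.1) ?_
    · rw [(hsup v0).s0, (hsup' v0).s0]
    · funext c1
      by_cases hc : c1.1 = c.1
      · have a1 : (om (ac X (cw c1) v0)).1 c1 = (om v0).1 (bc hr c.1) := by rw [t1 c1, hc]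
        have a2 : (om' (ac X (cw c1) v0)).1 c1 = (om' v0).1 (bc hr c.1) := by rw [t2 c1, hc]
        rw [← a1, ← a2, (hsup _).s3, (hsup' _).s3, L1]
      · have b1 : (om v0).1 (bc hr c.1) =
            φ c.1 ((FreeGroup.lift g (cw (bc hr c.1)))⁻¹ • y v0) := by
          rw [hom v0]
          rfl
        have b2 : (om' v0).1 (bc hr c.1) =
            φ c.1 ((FreeGroup.lift g (cw (bc hr c.1)))⁻¹ • y' v0) := by
          rw [hom' v0]
          rfl
        rw [b1, b2, hpr.l, hpr.l, if_neg hc, if_neg hc]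
    · intro p hp q hq
      have hp1 : p.1 = c.1 := by
        rw [sy.d1 _ _ hp, (hsup v0).s0]
        rfl
      have hp' : sy.dir ((om' v0).1 (bc hr c.1)) = some p := by rw [← hdd v0 c.1, hp]
      have a1 : (om (ac X (cw (sc p)) v0)).1 (sc p) = (om v0).1 (bc hr c.1) := by
        rw [t1 (sc p), sc_fst, hp1]
      have a2 : (om' (ac X (cw (sc p)) v0)).1 (sc p) = (om' v0).1 (bc hr c.1) := by
        rw [t2 (sc p), sc_fst, hp1]
      have s1 := (hsup (ac X (cw (sc p)) v0)).s1 p (by rw [a1, hp]) q hq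
      have s2 := (hsup' (ac X (cw (sc p)) v0)).s1 p (by rw [a2, hp']) q hq
      rw [a1] at s1
      rw [a2] at s2
      rw [← s1, ← s2]
      have h1 := sy.h1 _ _ hp
      have h2 : sy.ht (sy.par ((om v0).1 (bc hr c.1)) q) ≤
          (Finset.univ.filter fun q => Al p q).sup fun q => sy.ht (sy.par ((om v0).1 (bc hr c.1)) q) :=
        Finset.le_sup (f := fun q => sy.ht (sy.par ((om v0).1 (bc hr c.1)) q))
          (Finset.mem_filter.2 ⟨Finset.mem_univ q, hq⟩)
      rw [e1] at hk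
      refine ih (sy.ht (sy.par ((om v0).1 (bc hr c.1)) q)) (by omega) _ _ ?_
      rw [s1]
  funext v
  refine Prod.ext ?_ (Prod.ext (L1 v) ?_)
  · funext c
    exact L3 _ v c le_rfl
  · funext s
    exact L2 v s

end H33.HN
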