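import Pool.Agent.H33.HN.PartI
import Pool.Agent.H33.HN.PartII
import Pool.Agent.H33.HN.KtA
import Pool.Agent.H33.HN.NumH
import Pool.Agent.H33.HN.ForH
import Pool.Agent.H33.HN.XFor
import Pool.Agent.H33.BO.OneS

/-! # HN.OneS : one half of the theorem, with an additive constant (paper section 6)

PROOF. Compare H33/BO/OneS. `G` is infinite (powers of `ve V g i`, `ve_ord`, `m ≥ 1`) and countable (`hg.surj`, `FreeGroup (Lh k m)` is countable). `labelsK` with `I := Unit`, `S' := SS g` (`gen`), `N := 2 * ml (rh U V) + 2`, `ε := 1/2`: `Λ0, L, lb, q', k1, q, pf, J, wd`. `partII` for `C := L.C`, `A := Fin k1`, `J`, `wd` gives `R0`; `R := R0`; `C0`. `L0` from `forH`; `numH` with `C0`, `R' := (ball (SS g) R).card`, `l0 := Nat.card Λ0`, `L := L0`: `N, ζ, qm, Q`. `ktA` gives `lb'`. `ν' := cod ν ζ`, `Λ := ↥(ball (SS g) R) → Lb (rh U V) Λ0 (3 N + 2)`: `Nat.card Λ = (card Λ0 * (card (Option Ps)^m * (3 N + 2)^m))^(card ball)`.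
`β := win lb' (ball (SS g) R)`, `PX := PX U V Λ N`, `sy := psx U V Λ N`, `φ i z := rcx U V g (sgm U V g N L0 i (tq qm z.2)) (fun h => β (h • z.1))` on `Z := Bsh G × Bsh G` with `PZ := (bern G ν').prod (bern G ζ)`.
PART I: `partI` for `ν'`, `ζ`, `dS := dX U V`, `tS x := x.1`, `ln := ln U V`, `shp := shx`, `rc := rcx U V g` (`shx_rcx`; `D` = union of the sets from `rcx_lc` and `sg_lc`), `σ := sgm U V g N L0`, `Xs s := ∃ j, s = inl j` (`xfor`), `hT` from `forH`, `β`, the partition `q0 ∘ pr1` of `ℝ` with `pr1 x := (EE.symm x).1`, and `fun τ => q' (τ ⟨1, _⟩).1` (`(lb' y).1 = lb (JI G y).1`, `q' (lb y) = q0 (y 1)`, `(JI G y).1 1 = (EE.symm (y 1)).1`); `ent ν' (q0 ∘ pr1) = ent ν q0` (`cod` is the image of the product; `ent_map`). So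
`ent ν q0 ≤ Fn .. + 2 m + 1` (`numH`). PART II: `partII` for `Y := Z`, `lb z := lb' z.1` (`Adm`: from `labelsK` at `(JI G z.1).1`; `KT g L lb z`: from `ktA`, the walk depends on the first coordinate), `φ` (`Fm`: local functions; `prc_x` with `b z = win (fun z => lb' z.1) (ball ..) z = β z.1`), `H := 3 N + 1` (`hx_le`), `D := 3 N + 2`. `P(dir = none) = dr i` (`dX (shx (rcx x l)) = dX x`), `P((lb).2.1 i = none) = dr i` (`ktA`).
`ent PZ (pf ∘ ..) = ent (bern G ν) (pf ∘ lb) = ent μ q` and the `entc` term is at most `1/2` (`ent_map` along `z ↦ (JI G z.1).1`, measure preserving to `bern G ν`, equivariant; the proof in H33/BO/OneS). Sum: `ent ν q0 ≤ ent μ q + 1/2 + (card S + card S log (card Ps + 1) + 2 log ..) + 1 + 2 m + 1 ≤ ent μ q + CH`. -/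

set_option autoImplicit false
set_option synthInstance.maxSize 4000

open MeasureTheory H31.BE

namespace H33.HN

private theorem OneS_walk {G Λ : Type} [Group G] [DecidableEq G] [Finite Λ] [Nonempty Λ] {S' : Unit → Finset G}
    (L : Lab S' Λ) (ν : Measure ℝ) [IsProbabilityMeasure ν] (lb : Bsh G → Λ) (hlb : Fm lb)
    (w : List (H31.BE.Gn S')) :
    Fm (fun y : Bsh G => lb (walk L (fun a => lb (a • y)) w • y)) := by
  classical
  obtain ⟨l0⟩ : Nonempty Λ := inferInstance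
  set B : Finset G := ball S' (L.C * w.length) with hB
  let ext : (B → Λ) → G → Λ := fun x a => if h : a ∈ B then x ⟨a, h⟩ else l0
  have hwin : Fm (win lb B) := Fm.pi (fun b => Fm.comp_measurable (inv_bern (G := G) ν (b : G)).measurable hlb)
  have key : ∀ y : Bsh G, lb (walk L (fun a => lb (a • y)) w • y) =
      (fun x : B → Λ => ext x (walk L (ext x) w)) (win lb B y) := by
    intro y
    have h1 : walk L (fun a => lb (a • y)) w = walk L (ext (win lb B y)) w := by
      refine walk_congr L _ _ w le_rfl ?_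
      intro a ha
      have ha' : a ∈ B := ha
      simp only [ext, dif_pos ha']
      rfl
    have h2 : walk L (fun a => lb (a • y)) w ∈ B := walk_mem_ball L _ w le_rfl
    show _ = ext (win lb B y) (walk L (ext (win lb B y)) w)
    rw [← h1]
    simp only [ext, dif_pos h2]
    rfl
  have h3 := hwin.comp (fun x : B → Λ => ext x (walk L (ext x) w))
  have h4 : (fun y : Bsh G => lb (walk L (fun a => lb (a • y)) w • y)) =
      fun y => (fun x : B → Λ => ext x (walk L (ext x) w)) (win lb B y) := funext key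
  rw [h4]
  exact h3

private theorem OneS_fin {k m : ℕ} (U V : Fin m → Wl k) (Λ : Type) [Finite Λ] (N : ℕ) : Finite (PX U V Λ N) := by
  have : ∀ (K : ℕ) (i : Fin m), Finite {l : List (Cl (rh U V) Λ i) // l.length ≤ K} := fun K i =>
    Set.Finite.to_subtype (List.finite_length_le _ K)
  infer_instance

private theorem OneS_lc {G A B : Type} {D D' : Finset G} {F : (G → A) → B} (h : D ⊆ D') (hF : Lc D F) :
    Lc D' F := fun t t' ht => hF t t' fun g hg => ht g (h hg)

open H33.BO in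
private theorem OneS_JI {H : Type} [Group H] (a : H) (y : Bsh H) :
    JI H (a • y) = (a • (JI H y).1, a • (JI H y).2) := rfl

open H33.BO in
private theorem OneS_mp1 (ν ζ : Measure ℝ) [IsProbabilityMeasure ν] [IsProbabilityMeasure ζ] :
    MeasurePreserving (fun x : ℝ => (EE.symm x).1) (cod ν ζ) ν := by
  have h1 : MeasurePreserving EE (ν.prod ζ) (cod ν ζ) := ⟨EE.measurable, rfl⟩
  have h2 : MeasurePreserving EE.symm (cod ν ζ) (ν.prod ζ) := h1.symm EE
  exact measurePreserving_fst.comp h2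

private theorem OneS_card {k m : ℕ} (U V : Fin m → Wl k) {G : Type} (B : Finset G) (Λ0 : Type) [Finite Λ0] (D : ℕ) :
    Nat.card (↥B → Lb (rh U V) Λ0 D) =
      (Nat.card Λ0 * ((Nat.card (Option (Ps (rh U V)))) ^ m * D ^ m)) ^ B.card := by
  rw [Nat.card_fun, Nat.card_prod, Nat.card_prod, Nat.card_fun, Nat.card_fun]
  simp

private theorem OneS_fm {k m : ℕ} {U V : Fin m → Wl k} {G : Type} [Group G] [DecidableEq G] [Countable G]
    (g : Lh k m → G) (ν ζ : Measure ℝ) [IsProbabilityMeasure ν] [IsProbabilityMeasure ζ] (N L : ℕ)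
    (qm : ℝ → Fin m → Bool) (hqm : Fm qm) {Λ : Type} [Finite Λ] (β : Bsh G → Λ) (hβ : Fm β) (i : Fin m) :
    Fm (fun z : Bsh G × Bsh G => rcx (Λ := Λ) U V g (sgm U V g N L i (tq qm z.2)) (fun h => β (h • z.1))) := by
  classical
  obtain ⟨D, hD⟩ := rcx_lc (U := U) (V := V) g (Λ := Λ) (N := N)
  have : Nonempty Λ := by
    obtain ⟨y⟩ : Nonempty (Bsh G) := ⟨fun _ => (0 : ℝ)⟩
    exact ⟨β y⟩
  obtain ⟨l0⟩ : Nonempty Λ := inferInstance
  let ext : (D → Λ) → G → Λ := fun x a => if h : a ∈ D then x ⟨a, h⟩ else l0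
  have h1 : Fm (fun z : Bsh G × Bsh G => sgm U V g N L i (tq qm z.2)) :=
    Fm.comp_measurable measurable_snd (sg_fm g N L ζ qm hqm i)
  have h2 : Fm (fun z : Bsh G × Bsh G => fun h : D => β ((h : G) • z.1)) :=
    Fm.pi fun h => Fm.comp_measurable ((inv_bern (G := G) ν (h : G)).measurable.comp measurable_fst) hβ
  have h3 := (h1.prodMk h2).comp (fun x : Sx U V N × (D → Λ) => rcx (Λ := Λ) U V g x.1 (ext x.2))
  have h4 : (fun z : Bsh G × Bsh G => rcx (Λ := Λ) U V g (sgm U V g N L i (tq qm z.2)) (fun h => β (h • z.1))) =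
      fun z => (fun x : Sx U V N × (D → Λ) => rcx (Λ := Λ) U V g x.1 (ext x.2))
        (sgm U V g N L i (tq qm z.2), fun h : D => β ((h : G) • z.1)) := by
    funext z
    refine hD _ _ _ fun a ha => ?_
    simp only [ext, dif_pos ha]
  rw [h4]
  exact h3

theorem oneS {k m : ℕ} {U V : Fin m → Wl k} {G : Type} [Group G] [DecidableEq G] (g : Lh k m → G)
    (hg : Pres (rh U V) g) (hy : Hyp U V) (hm : 1 ≤ m) (μ ν : Measure ℝ) [IsProbabilityMeasure μ]
    [IsProbabilityMeasure ν] (hμ : Nontriv μ) (hν : Nontriv ν) (T S : Bsh G → Bsh G) (h : OE G μ ν T S) (k0 : ℕ)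
    (q0 : ℝ → Fin k0) (hq0 : Fm q0) :
    ∃ (k1 : ℕ) (q : ℝ → Fin k1), Fm q ∧ ent ν q0 ≤ ent μ q + CH U V := by
  classical
  have : Countable G := hg.surj.countable
  have : Infinite G := by
    refine Infinite.of_injective (fun n : ℤ => ve V g ⟨0, hm⟩ ^ n) ?_
    intro a b hab
    have h1 : ve V g ⟨0, hm⟩ ^ (a - b) = 1 := by
      rw [zpow_sub, mul_inv_eq_one]
      exact hab
    have h2 := ve_ord g hg hy ⟨0, hm⟩ (a - b) h1
    omega
  obtain ⟨Λ0, hΛ0, L, lb, hlb, q', k1, q, hq, pf, J, hJ, wd, hadm, hq', hent, hentc, hS⟩ :=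
    labelsK (SS g) (gen g hg) μ ν hμ hν T S h (2 * ml (rh U V) + 2) (1 / 2) (by norm_num) k0 q0 hq0
  obtain ⟨R0, hR0⟩ := partII (fun i => rh_pos U V i) g hg L.C (A := Fin k1) (J := J) wd
  obtain ⟨C0, hC0, hII⟩ := hR0 R0 le_rfl
  obtain ⟨L0, hL0⟩ := forH g hg hy
  obtain ⟨N, ζ, hζ, qm, hqm, Q, hQ2, hQH, hQD, hQP, hQs, hQC⟩ :=
    numH g hg hy C0 hC0 (ball (SS g) R0).card (Nat.card Λ0) L0
  obtain ⟨lb', hlb', hlb1, hKT, hdr⟩ := ktA g hg μ ν ζ hμ hν T S h qm hqm N L0 L lb hlb hS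
  have : Finite (Lb (rh U V) Λ0 (3 * N + 2)) := inferInstance
  have : ∀ N', Finite (PX U V (↥(ball (SS g) R0) → Lb (rh U V) Λ0 (3 * N + 2)) N') := fun N' => OneS_fin U V _ N'
  obtain ⟨hP1, hP2, hP3⟩ := hQP (↥(ball (SS g) R0) → Lb (rh U V) Λ0 (3 * N + 2))
    (le_of_eq (OneS_card U V (ball (SS g) R0) Λ0 (3 * N + 2)))
  set ν' : Measure ℝ := BO.cod ν ζ with hν'
  let β : Bsh G → (↥(ball (SS g) R0) → Lb (rh U V) Λ0 (3 * N + 2)) := win lb' (ball (SS g) R0)
  have hβ : Fm β := Fm.pi (fun b => Fm.comp_measurable (inv_bern (G := G) ν' (b : G)).measurable hlb')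
  -- Part II
  have hinv : Inv G ((bern G ν').prod (bern G ζ)) := fun a =>
    (inv_bern (G := G) ν' a).prod (inv_bern (G := G) ζ a)
  let lbZ : Bsh G × Bsh G → Lb (rh U V) Λ0 (3 * N + 2) := fun z => lb' z.1
  have hlbZ : Fm lbZ := Fm.comp_measurable measurable_fst hlb'
  let θ : Bsh G × Bsh G → Bsh G := fun z => (BO.JI G z.1).1
  have hθ : MeasurePreserving θ ((bern G ν').prod (bern G ζ)) (bern G ν) :=
    measurePreserving_fst.comp ((BO.JI_mp ν ζ).comp measurePreserving_fst)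
  have hkey : ∀ (a : G) (z : Bsh G × Bsh G), (lbZ (a • z)).1 = lb (a • θ z) := fun a z => hlb1 (a • z.1)
  have hkey1 : ∀ z : Bsh G × Bsh G, (lbZ z).1 = lb (θ z) := fun z => hlb1 z.1
  have hcond : ∀ᵐ y ∂((bern G ν').prod (bern G ζ)),
      Adm L (2 * ml (rh U V) + 2) (fun h => (lbZ (h • y)).1) ∧ KT g L lbZ y := by
    have h1 := hθ.quasiMeasurePreserving.ae hadm
    have h2 := (measurePreserving_fst (μ := bern G ν') (ν := bern G ζ)).quasiMeasurePreserving.ae hKT
    filter_upwards [h1, h2] with y hy1 hy2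
    refine ⟨?_, hy2⟩
    have e : (fun h : G => (lbZ (h • y)).1) = fun h => lb (h • θ y) := funext fun a => hkey a y
    rw [e]
    exact hy1
  let φ : Fin m → Bsh G × Bsh G → PX U V (↥(ball (SS g) R0) → Lb (rh U V) Λ0 (3 * N + 2)) N :=
    fun i z => rcx U V g (sgm U V g N L0 i (tq qm z.2)) (fun h => β (h • z.1))
  have hφ : ∀ i, Fm (φ i) := fun i => OneS_fm g ν' ζ N L0 qm hqm β hβ i
  have hprc : Prc g (psx U V hy.nU (↥(ball (SS g) R0) → Lb (rh U V) Λ0 (3 * N + 2)) N) (win lbZ (ball (SS g) R0)) φ :=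
    prc_x g hg hy.nU N L0 qm β
  have h2 := hII Λ0 L rfl (3 * N + 2) (Bsh G × Bsh G) ((bern G ν').prod (bern G ζ)) hinv lbZ hlbZ hcond pf
    (PX U V (↥(ball (SS g) R0) → Lb (rh U V) Λ0 (3 * N + 2)) N)
    (psx U V hy.nU (↥(ball (SS g) R0) → Lb (rh U V) Λ0 (3 * N + 2)) N) φ hφ hprc (3 * N + 1)
    (fun p => hx_le (shx p)) Q hQ2 hQH hQD hP1 hP2
  -- Part I
  obtain ⟨D1, hD1⟩ := rcx_lc (U := U) (V := V) g
    (Λ := ↥(ball (SS g) R0) → Lb (rh U V) Λ0 (3 * N + 2)) (N := N)
  obtain ⟨D2, hD2⟩ := sg_lc (U := U) (V := V) g N L0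
  have h1 := partI g hg ν' ζ (dX U V) (fun x : Sx U V N => x.1) (ln U V) shx (rcx U V g) (fun x t => shx_rcx g x t)
    (D1 ∪ D2) (fun x => OneS_lc Finset.subset_union_left (hD1 x)) qm hqm (sgm U V g N L0)
    (fun i => OneS_lc Finset.subset_union_right (hD2 i)) (fun i t => sg_fst g N L0 i t)
    (fun s => ∃ j, s = Sum.inl j) (fun Ed hE hB => xfor g hg hy Ed hE hB)
    (fun t Ed hE hB => hL0 L0 le_rfl N t Ed hE hB) β hβ
    (fun x => q0 (BO.EE.symm x).1) (Fm.comp_measurable (OneS_mp1 ν ζ).measurable hq0)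
    (fun τ => q' (τ ⟨1, one_mem_ball _⟩).1) (Filter.Eventually.of_forall fun y => by
      show q' (lb' ((1 : G) • y)).1 = q0 (BO.EE.symm (y 1)).1
      rw [one_smul, hlb1, hq']
      rfl)
  have e0 : ent ν' (fun x => q0 (BO.EE.symm x).1) = ent ν q0 := ent_map (OneS_mp1 ν ζ) hq0
  rw [e0] at h1
  -- the entropies
  have : Nonempty Λ0 := by
    obtain ⟨y⟩ : Nonempty (Bsh G) := ⟨fun _ => (0 : ℝ)⟩
    exact ⟨lb y⟩
  have hΨ : Fm (fun y : Bsh G => fun j : J => pf (lb (walk L (fun a => lb (a • y)) (wd j) • y))) :=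
    Fm.pi (fun j => (OneS_walk L ν lb hlb (wd j)).comp pf)
  have e1 : ent ((bern G ν').prod (bern G ζ)) (fun y => pf (lbZ y).1) = ent μ q := by
    rw [← hent]
    have e : (fun y => pf (lbZ y).1) = fun y => pf (lb (θ y)) := funext fun y => by rw [hkey1]
    rw [e]
    exact ent_map hθ (hlb.comp pf)
  have e2 : entc ((bern G ν').prod (bern G ζ)) (fun y => (lbZ y).1)
      (fun y => fun j : J => pf (lbZ (walk L (fun h => (lbZ (h • y)).1) (wd j) • y)).1) ≤ 1 / 2 := by
    refine le_trans (le_of_eq ?_) hentc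
    have e : (fun y => (lbZ y).1) = fun y => lb (θ y) := funext hkey1
    have e' : (fun y => fun j : J => pf (lbZ (walk L (fun h => (lbZ (h • y)).1) (wd j) • y)).1) =
        fun y => (fun y : Bsh G => fun j : J => pf (lb (walk L (fun a => lb (a • y)) (wd j) • y))) (θ y) := by
      funext y j
      have e3 : (fun h : G => (lbZ (h • y)).1) = fun h => lb (h • θ y) := funext fun a => hkey a y
      rw [hkey, e3]
    rw [e, e']
    unfold entc
    have a1 := ent_map hθ (hlb.prodMk hΨ)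
    have a2 := ent_map hθ hΨ
    exact congrArg₂ (· - ·) a1 a2
  -- the probabilities
  have d1 : ∀ i, ((bern G ν').prod (bern G ζ)).real
      {y | (psx U V hy.nU (↥(ball (SS g) R0) → Lb (rh U V) Λ0 (3 * N + 2)) N).dir (φ i y) = none} =
        dr U V g N L0 ζ qm i := by
    intro i
    have hms : MeasurableSet {z : Bsh G | dX U V (sgm U V g N L0 i (tq qm z)) = none} :=
      (sg_fm g N L0 ζ qm hqm i).preimage {x | dX U V x = none}
    have e : {y : Bsh G × Bsh G |
        (psx U V hy.nU (↥(ball (SS g) R0) → Lb (rh U V) Λ0 (3 * N + 2)) N).dir (φ i y) = none} =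
        Prod.snd ⁻¹' {z : Bsh G | dX U V (sgm U V g N L0 i (tq qm z)) = none} := by
      ext z
      show dX U V (shx (rcx U V g (sgm U V g N L0 i (tq qm z.2)) (fun h => β (h • z.1)))) = none ↔ _
      rw [shx_rcx]
      rfl
    rw [e, Measure.real,
      (measurePreserving_snd (μ := bern G ν') (ν := bern G ζ)).measure_preimage hms.nullMeasurableSet]
    rfl
  have d2 : ∀ i, ((bern G ν').prod (bern G ζ)).real {y | (lbZ y).2.1 i = none} = dr U V g N L0 ζ qm i := by
    intro i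
    rw [← hdr i]
    have hms : MeasurableSet {y : Bsh G | (lb' y).2.1 i = none} := hlb'.preimage {x | x.2.1 i = none}
    have e : {y : Bsh G × Bsh G | (lbZ y).2.1 i = none} = Prod.fst ⁻¹' {y : Bsh G | (lb' y).2.1 i = none} := rfl
    rw [e, Measure.real,
      (measurePreserving_fst (μ := bern G ν') (ν := bern G ζ)).measure_preimage hms.nullMeasurableSet]
    rfl
  simp only [d1, d2, e1] at h2
  refine ⟨k1, q, hq, ?_⟩
  have h1' : ent ν q0 ≤ Fn (psx U V hy.nU (↥(ball (SS g) R0) → Lb (rh U V) Λ0 (3 * N + 2)) N).dir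
      (BO.law ((bern G ν').prod (bern G ζ)) (bgp g (win lbZ (ball (SS g) R0)) φ)) + 2 * m + 1 := by
    have h3 : (∑ i, (bern G ζ).real {m | dX U V (sgm U V g N L0 i (tq qm m)) = none}) =
        ∑ i, dr U V g N L0 ζ qm i := rfl
    rw [h3] at h1
    refine le_trans h1 (add_le_add (add_le_add (d := 2 * (m : ℝ)) le_rfl ?_) hP3)
    refine le_trans (le_of_eq ?_) hQs
    refine Finset.sum_congr rfl fun s _ => ?_
    by_cases hs : ∃ j, s = Sum.inl j
    · rw [if_pos hs, if_pos hs]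
    · rw [if_neg hs, if_neg hs]
  unfold CH
  linarith [h1', h2, e2, hQC]

end H33.HN
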