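import Pool.Agent.H33.HN.Defs

/-! # HN.OvN : a numerical estimate

PROOF. `M' := N / (2 Q)` (natural division), so `2 Q M' ≤ N`, `M' ≥ N / (4 Q)` (real) and `M' > E0` for `N ≥ N1`. `M' p ≤ N p ≤ 1`, so `(1 - p)^M' ≤ exp (- M' p) ≤ 1 - M' p / 2` (`exp (-x) ≤ 1 - x / 2` for `0 ≤ x ≤ 1`: `Real.exp_bound`-type, or `exp (-x) ≤ 1 / (1 + x) ≤ 1 - x / 2`), `1 - (1 - p)^M' ≥ M' p / 2 ≥ N p / (8 Q)`, and its `Q`-th power is at least `(N p)^Q / (8 Q)^Q =: x`. `T := N / K + 1 - L ≥ N / (2 K)` for `N ≥ N1`. `(1 - y)^T ≤ exp (- y T)` for `0 ≤ y ≤ 1` (`Real.add_one_le_exp`, powers) and `y ≥ x`. `κ := 1 / (2 K (8 Q)^Q)`. -/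

set_option autoImplicit false
set_option synthInstance.maxSize 4000

open MeasureTheory H31.BE

namespace H33.HN

private lemma ovN_exp {x : ℝ} (h0 : 0 ≤ x) (h1 : x ≤ 1) : Real.exp (-x) ≤ 1 - x / 2 := by
  have h2 : x + 1 ≤ Real.exp x := Real.add_one_le_exp x
  have h3 : 0 < x + 1 := by linarith
  have h4 : Real.exp (-x) ≤ 1 / (x + 1) := by
    rw [Real.exp_neg, ← one_div]
    exact one_div_le_one_div_of_le h3 h2
  refine h4.trans ?_
  rw [div_le_iff₀ h3]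
  nlinarith

private lemma ovN_pow {y : ℝ} (h1 : y ≤ 1) (T : ℕ) : (1 - y) ^ T ≤ Real.exp (-(y * T)) := by
  have h2 : 1 - y ≤ Real.exp (-y) := by
    have := Real.add_one_le_exp (-y)
    linarith
  calc (1 - y) ^ T ≤ Real.exp (-y) ^ T := pow_le_pow_left₀ (by linarith) h2 T
    _ = Real.exp (-(y * T)) := by
        rw [← Real.exp_nat_mul]
        congr 1
        ring

theorem ovn (Q K L E0 : ℕ) (hQ : 1 ≤ Q) (hK : 1 ≤ K) : ∃ (κ : ℝ) (N1 : ℕ), 0 < κ ∧ ∀ (N : ℕ) (p : ℝ), N1 ≤ N → 0 ≤ p →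
    N * p ≤ 1 → ∃ M' T : ℕ, E0 < M' ∧ 2 * Q * M' ≤ N ∧ T + L ≤ N / K + 1 ∧
      (1 - (1 - (1 - p) ^ M') ^ Q) ^ T ≤ Real.exp (-(κ * N * (N * p) ^ Q)) := by
  have hQ0 : (0 : ℝ) < Q := by exact_mod_cast hQ
  have hQ1 : (1 : ℝ) ≤ Q := by exact_mod_cast hQ
  have hK0 : (0 : ℝ) < K := by exact_mod_cast hK
  refine ⟨1 / (2 * K * (8 * Q) ^ Q), 4 * Q * (E0 + 1) + 2 * K * L + 1, by positivity, ?_⟩
  intro N p hN hp hNp
  have hNR : (4 * Q * (E0 + 1) + 2 * K * L + 1 : ℝ) ≤ N := by exact_mod_cast hN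
  have hE0 : (0 : ℝ) ≤ E0 := Nat.cast_nonneg _
  have hL0 : (0 : ℝ) ≤ L := Nat.cast_nonneg _
  have hKL : (0 : ℝ) ≤ K * L := by positivity
  have hQE : (0 : ℝ) ≤ Q * E0 := by positivity
  have hN0 : (0 : ℝ) < N := by nlinarith
  have hN1 : (1 : ℝ) ≤ N := by nlinarith
  have hp1 : p ≤ 1 := by nlinarith
  -- the number of marks
  obtain ⟨M, hM⟩ : ∃ M : ℕ, M = N / (2 * Q) := ⟨_, rfl⟩
  have hM1 : 2 * Q * M ≤ N := by
    rw [hM]
    exact Nat.mul_div_le N (2 * Q)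
  have hM2 : (N : ℝ) < 2 * Q * M + 2 * Q := by
    have h1 : N < 2 * Q * (N / (2 * Q) + 1) := by
      have h2 : 0 < 2 * Q := by omega
      have h3 := Nat.div_add_mod N (2 * Q)
      have h4 := Nat.mod_lt N h2
      rw [Nat.mul_add, Nat.mul_one]
      omega
    rw [← hM] at h1
    have h5 : (N : ℝ) < 2 * Q * (M + 1) := by exact_mod_cast h1
    linarith
  have hM3 : (N : ℝ) / (4 * Q) ≤ M := by
    rw [div_le_iff₀ (by positivity)]
    nlinarith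
  have hM4 : E0 < M := by
    have h1 : (E0 : ℝ) < M := by
      refine lt_of_lt_of_le ?_ hM3
      rw [lt_div_iff₀ (by positivity)]
      nlinarith
    exact_mod_cast h1
  have hMN : (M : ℝ) ≤ N := by
    have h1 : (2 * Q * M : ℝ) ≤ N := by exact_mod_cast hM1
    have h2 : (0 : ℝ) ≤ M := Nat.cast_nonneg _
    nlinarith [mul_nonneg (sub_nonneg.2 hQ1) h2]
  have hM0 : (0 : ℝ) ≤ M := Nat.cast_nonneg _
  -- the number of tests
  obtain ⟨T, hT⟩ : ∃ T : ℕ, T = N / K + 1 - L := ⟨_, rfl⟩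
  have hK1 : 0 < K := hK
  have hLK : L ≤ N / K := by
    rw [Nat.le_div_iff_mul_le hK1]
    have h1 : 2 * K * L ≤ N := by omega
    nlinarith [Nat.zero_le (K * L)]
  have hT1 : T + L ≤ N / K + 1 := by omega
  have hT2 : (T : ℝ) = ((N / K : ℕ) : ℝ) + 1 - L := by
    rw [hT, Nat.cast_sub (by omega)]
    push_cast
    ring
  have hT3 : (N : ℝ) / K < ((N / K : ℕ) : ℝ) + 1 := by
    rw [div_lt_iff₀ hK0]
    have h3 := Nat.div_add_mod N K
    have h4 := Nat.mod_lt N hK1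
    have h5 : N < (N / K + 1) * K := by
      rw [Nat.add_mul, Nat.one_mul, Nat.mul_comm (N / K) K]
      omega
    exact_mod_cast h5
  have hT4 : (N : ℝ) / (2 * K) ≤ T := by
    have h1 : (N : ℝ) / (2 * K) + L ≤ N / K := by
      have h2 : (N : ℝ) / K = N / (2 * K) + N / (2 * K) := by
        field_simp
        ring
      have h3 : (L : ℝ) ≤ N / (2 * K) := by
        rw [le_div_iff₀ (by positivity)]
        nlinarith
      linarith
    linarith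
  refine ⟨M, T, hM4, hM1, hT1, ?_⟩
  -- the probabilities
  have hMp0 : 0 ≤ M * p := mul_nonneg hM0 hp
  have hMp1 : M * p ≤ 1 := (mul_le_mul_of_nonneg_right hMN hp).trans hNp
  have hA0 : 0 ≤ (1 - p) ^ M := pow_nonneg (by linarith) M
  have hA : (1 - p) ^ M ≤ 1 - M * p / 2 := by
    have h1 := ovN_pow hp1 M
    rw [mul_comm p] at h1
    exact h1.trans (ovN_exp hMp0 hMp1)
  have hB : N * p / (8 * Q) ≤ 1 - (1 - p) ^ M := by
    have h1 : N * p / (8 * Q) = (N / (4 * Q)) * p / 2 := by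
      field_simp
      ring
    have h2 : (N : ℝ) / (4 * Q) * p ≤ M * p := mul_le_mul_of_nonneg_right hM3 hp
    rw [h1]
    linarith
  have hx0 : 0 ≤ N * p / (8 * Q) := by positivity
  have hy : (N * p / (8 * Q)) ^ Q ≤ (1 - (1 - p) ^ M) ^ Q := pow_le_pow_left₀ hx0 hB Q
  have hy1 : (1 - (1 - p) ^ M) ^ Q ≤ 1 := pow_le_one₀ (hx0.trans hB) (by linarith)
  refine (ovN_pow hy1 T).trans (Real.exp_le_exp.2 (neg_le_neg ?_))
  have hz : 1 / (2 * K * (8 * Q) ^ Q) * N * (N * p) ^ Q = (N * p / (8 * Q)) ^ Q * (N / (2 * K)) := by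
    rw [div_pow]
    field_simp
  rw [hz]
  exact mul_le_mul hy hT4 (by positivity) (pow_nonneg (hx0.trans hB) Q)

end H33.HN
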