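import Pool.Agent.H33.HN.NcA
import Pool.Agent.H33.HN.DefsK

/-! # HN.SpcA : the blocks of marks are disjoint (paper 5.5)

PROOF. Write `j = tyo l`, `e_l = elo l`, `v = ve i`. By `nc_el`, `nc_dm`: `e_l v^a e_l⁻¹ = (ve (tyo l))^b` implies `a = 0` (and then `b = 0` by `ve_ord`). For `l ≠ l'` with `tyo l = tyo l' = j` there is at most one pair `(d, e)` of integers with `e_l v^d e_l'⁻¹ = (ve j)^e`: if `(d', e')` is another one, then `e_l v^(d - d') e_l⁻¹ = (ve j)^(e - e')` (`(e_l v^d e_l'⁻¹) (e_l v^d' e_l'⁻¹)⁻¹`), so `d = d'`, `e = e'`. Choose `K ≥ 1` larger than all `|d|` and `E0` larger than all `|e|` (finitely many pairs `(l, l')`).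
Let `(n, l) ≠ (n', l')` and suppose that the blocks have a common element: `tyo l = tyo l' = j` and `(ve j)^x e_l v^(K n) = (ve j)^x' e_l' v^(K n')`, `x = 2 ixn l M' + a`, `x' = 2 ixn l' M' + a'`, `a, a' < M'`. So `e_l v^(K (n - n')) e_l'⁻¹ = (ve j)^(x' - x)`. If `l = l'` then `K (n - n') = 0`, `n = n'`, a contradiction. If `l ≠ l'` then `K |n - n'| = |d| < K`, so `n = n'`, `|x' - x| = |e| < E0 < M'`; but `ixn l ≠ ixn l'` (injective) gives `|x' - x| ≥ 2 M' - (M' - 1) > M'`, a contradiction. `fb_card`: the map `a ↦ ..` is injective (`ve_ord`). -/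

set_option autoImplicit false
set_option synthInstance.maxSize 4000

open MeasureTheory H31.BE

namespace H33.HN

variable {k m : ℕ} {U V : Fin m → Wl k} {G : Type} [Group G] [DecidableEq G] (g : Lh k m → G)
  (hg : Pres (rh U V) g) (hy : Hyp U V)

include hg hy in
theorem fb_card (i : Fin m) (K M' n : ℕ) (l : Ix U V i) : (Fb U V g i K M' n l).card = M' := by
  unfold Fb
  rw [Finset.card_image_of_injective, Finset.card_range]
  intro a a' h
  rw [Prod.mk.injEq] at h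
  have h1 := mul_right_cancel (mul_right_cancel h.2)
  have h2 : ve V g (tyo U V i l) ^
      (((2 * ixn U V i l * M' + a : ℕ) : ℤ) - ((2 * ixn U V i l * M' + a' : ℕ) : ℤ)) = 1 := by
    rw [zpow_sub, zpow_natCast, zpow_natCast, h1, mul_inv_cancel]
  have h3 := ve_ord g hg hy _ _ h2
  omega

omit [DecidableEq G] in
include hg hy in
private theorem SpcA_conj (i : Fin m) (l : Ix U V i) (a b : ℤ)
    (h : elo U V g i l * ve V g i ^ a * (elo U V g i l)⁻¹ = ve V g (tyo U V i l) ^ b) : a = 0 := by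
  cases l with
  | none => exact nc_dm g hg hy i a b h
  | some q => exact nc_el g hg hy i q.1 q.2 a b h

omit [DecidableEq G] in
include hg hy in
private theorem SpcA_uniq (i : Fin m) (l l' : Ix U V i) (d e d' e' : ℤ)
    (h : elo U V g i l * ve V g i ^ d * (elo U V g i l')⁻¹ = ve V g (tyo U V i l) ^ e)
    (h' : elo U V g i l * ve V g i ^ d' * (elo U V g i l')⁻¹ = ve V g (tyo U V i l) ^ e') :
    d = d' ∧ e = e' := by
  have h1 : elo U V g i l * ve V g i ^ (d - d') * (elo U V g i l)⁻¹ =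
      ve V g (tyo U V i l) ^ (e - e') := by
    rw [zpow_sub, zpow_sub, ← h, ← h']
    group
  have h2 := SpcA_conj g hg hy i l _ _ h1
  have h3 : d = d' := by omega
  refine ⟨h3, ?_⟩
  rw [h2, zpow_zero, mul_one, mul_inv_cancel] at h1
  have h4 := ve_ord g hg hy _ _ h1.symm
  omega

omit [DecidableEq G] in
include hg hy in
private theorem SpcA_bd (i : Fin m) : ∃ S : ℕ, ∀ (l l' : Ix U V i) (d e : ℤ),
    elo U V g i l * ve V g i ^ d * (elo U V g i l')⁻¹ = ve V g (tyo U V i l) ^ e →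
      d.natAbs ≤ S ∧ e.natAbs ≤ S := by
  have h1 : ∀ p : Ix U V i × Ix U V i, ∃ B : ℕ, ∀ d e : ℤ,
      elo U V g i p.1 * ve V g i ^ d * (elo U V g i p.2)⁻¹ = ve V g (tyo U V i p.1) ^ e →
      d.natAbs ≤ B ∧ e.natAbs ≤ B := by
    intro p
    by_cases h : ∃ d e : ℤ,
      elo U V g i p.1 * ve V g i ^ d * (elo U V g i p.2)⁻¹ = ve V g (tyo U V i p.1) ^ e
    · obtain ⟨d0, e0, h0⟩ := h
      refine ⟨max d0.natAbs e0.natAbs, fun d e hde => ?_⟩
      obtain ⟨h1, h2⟩ := SpcA_uniq g hg hy i p.1 p.2 d e d0 e0 hde h0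
      rw [h1, h2]
      exact ⟨le_max_left _ _, le_max_right _ _⟩
    · exact ⟨0, fun d e hde => (h ⟨d, e, hde⟩).elim⟩
  choose B hB using h1
  refine ⟨∑ p, B p, fun l l' d e h => ?_⟩
  have h2 := hB (l, l') d e h
  have h3 : B (l, l') ≤ ∑ p, B p :=
    Finset.single_le_sum (fun p _ => Nat.zero_le (B p)) (Finset.mem_univ (l, l'))
  exact ⟨h2.1.trans h3, h2.2.trans h3⟩

private theorem SpcA_grp {H : Type} [Group H] (w e e' v : H) (x x' y y' : ℕ)
    (h : w ^ x' * e' * v ^ y' = w ^ x * e * v ^ y) :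
    e * v ^ ((y : ℤ) - (y' : ℤ)) * e'⁻¹ = w ^ ((x' : ℤ) - (x : ℤ)) := by
  have h1 : v ^ y = e⁻¹ * (w ^ x)⁻¹ * (w ^ x' * e' * v ^ y') := by
    rw [h]
    group
  rw [zpow_sub, zpow_natCast, zpow_natCast, h1]
  group

private theorem SpcA_ar {M s s' p p' S : ℕ} (hs : s < M) (hS : S < M)
    (hp : p < p') (h : (((2 * p' * M + s' : ℕ) : ℤ) - ((2 * p * M + s : ℕ) : ℤ)).natAbs ≤ S) :
    False := by
  obtain ⟨t, rfl⟩ : ∃ t, p' = p + 1 + t := ⟨p' - (p + 1), by omega⟩
  have h1 : 2 * (p + 1 + t) * M + s' = 2 * p * M + (2 * M + 2 * (t * M) + s') := by ring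
  rw [h1] at h
  push_cast at h
  omega

include hg hy in
theorem spc (i : Fin m) : ∃ K E0 : ℕ, 1 ≤ K ∧ ∀ M', E0 < M' → ∀ a b : ℕ × Ix U V i, a ≠ b →
    Disjoint (Fb U V g i K M' a.1 a.2) (Fb U V g i K M' b.1 b.2) := by
  obtain ⟨S, hS⟩ := SpcA_bd g hg hy i
  refine ⟨S + 1, S, Nat.le_add_left _ _, fun M' hM a b hab => ?_⟩
  obtain ⟨n, l⟩ := a
  obtain ⟨n', l'⟩ := b
  rw [Finset.disjoint_left]
  intro x hx hx'
  unfold Fb at hx hx'
  rw [Finset.mem_image] at hx hx'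
  obtain ⟨s, hs, hx⟩ := hx
  obtain ⟨s', hs', hx'⟩ := hx'
  rw [Finset.mem_range] at hs hs'
  rw [← hx, Prod.mk.injEq] at hx'
  obtain ⟨he1, he2⟩ := hx'
  have he1' : tyo U V i l' = tyo U V i l := he1
  have he3 : ve V g (tyo U V i l) ^ (2 * ixn U V i l' * M' + s') * elo U V g i l' *
      ve V g i ^ ((S + 1) * n') = ve V g (tyo U V i l) ^ (2 * ixn U V i l * M' + s) *
      elo U V g i l * ve V g i ^ ((S + 1) * n) := by
    rw [← he1']
    rw [← he1'] at he2
    exact he2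
  have h3 := SpcA_grp _ _ _ _ _ _ _ _ he3
  obtain ⟨h4, h5⟩ := hS _ _ _ _ h3
  have hn : n = n' := by
    rcases Nat.lt_trichotomy n n' with h | h | h
    · obtain ⟨t, rfl⟩ : ∃ t, n' = n + 1 + t := ⟨n' - (n + 1), by omega⟩
      have h6 : (S + 1) * (n + 1 + t) = (S + 1) * n + ((S + 1) + (S + 1) * t) := by ring
      rw [h6] at h4
      push_cast at h4
      have h7 : (0 : ℤ) ≤ ((S : ℤ) + 1) * t := by positivity
      omega
    · exact h
    · obtain ⟨t, rfl⟩ : ∃ t, n = n' + 1 + t := ⟨n - (n' + 1), by omega⟩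
      have h6 : (S + 1) * (n' + 1 + t) = (S + 1) * n' + ((S + 1) + (S + 1) * t) := by ring
      rw [h6] at h4
      push_cast at h4
      have h7 : (0 : ℤ) ≤ ((S : ℤ) + 1) * t := by positivity
      omega
  have hl : l ≠ l' := by
    rintro rfl
    exact hab (by rw [hn])
  have hp : ixn U V i l ≠ ixn U V i l' := by
    intro h
    apply hl
    unfold ixn at h
    exact (Fintype.equivFin (Ix U V i)).injective (Fin.ext h)
  rcases Nat.lt_or_gt_of_ne hp with h | h
  · exact SpcA_ar hs hM h h5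
  · refine SpcA_ar (s' := s) hs' hM h ?_
    rw [← Int.natAbs_neg, neg_sub]
    exact h5

end H33.HN
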