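import Pool.Agent.H33.HN.OvD
import Pool.Agent.H33.HN.OvN
import Pool.Agent.H33.HN.SpcA
import Pool.Agent.H33.HN.IndA

/-! # HN.OvB : the line stops with high probability (paper 5.5)

PROOF. For every `i`: `K`, `E0` from `spc`, `Q_i := Fintype.card (Ix U V i) ≥ 1`, `κ_i`, `N_i` from `ovn`. For `N ≥ N_i`: `M'`, `T`; `{fs .. = none} ⊆ {∀ a : Fin T, ∃ l, ∀ e ∈ Fb .. (L + a) l, tq qm y e.2 e.1 ≠ true}` (`ovd`), and `ind_bd` for `F a l := Fb U V g i K M' (L + a) l` (`spc`, `fb_card`). So the probability is at most `exp (- κ_i N (N p)^Q_i)`. `Q := max Q_i`, `κ := min κ_i` (`m` may be 0: then there is nothing to show; `Q := 1 + ∑ Q_i`), `(N p)^Q ≤ (N p)^Q_i` since `0 ≤ N p ≤ 1`. -/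

set_option autoImplicit false
set_option synthInstance.maxSize 4000

open MeasureTheory H31.BE

namespace H33.HN

variable {k m : ℕ} {U V : Fin m → Wl k} {G : Type} [Group G] [DecidableEq G] (g : Lh k m → G)
  (hg : Pres (rh U V) g) (hy : Hyp U V)

include hg hy in
theorem ovb [Countable G] (L : ℕ) : ∃ (Q : ℕ) (κ : ℝ) (N1 : ℕ), 1 ≤ Q ∧ 0 < κ ∧ ∀ (N : ℕ) (p : ℝ), N1 ≤ N →
    N * p ≤ 1 → ∀ (ζ : Measure ℝ) [IsProbabilityMeasure ζ] (qm : ℝ → Fin m → Bool), Mlw p ζ qm → ∀ i : Fin m,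
      (bern G ζ).real {y | fs (2 * N) (fun n => stp U V g N L i (sf (ve V g i ^ n) (tq qm y))) = none} ≤
        Real.exp (-(κ * N * (N * p) ^ Q)) := by
  choose K E0 hK hdis using fun i => spc g hg hy i
  have hQ : ∀ i : Fin m, 1 ≤ Fintype.card (Ix U V i) := fun i => Fintype.card_pos
  choose κ N1 hκ hN using fun i : Fin m => ovn (Fintype.card (Ix U V i)) (K i) L (E0 i) (hQ i) (hK i)
  have hs : 0 ≤ ∑ i, 1 / κ i := Finset.sum_nonneg fun i _ => (one_div_pos.2 (hκ i)).le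
  have hκ0 : (0 : ℝ) < 1 + ∑ i, 1 / κ i := by linarith
  refine ⟨1 + ∑ i, Fintype.card (Ix U V i), 1 / (1 + ∑ i, 1 / κ i), ∑ i, N1 i, by omega,
    one_div_pos.2 hκ0, ?_⟩
  intro N p hN1 hNp ζ _ qm hm i
  have hp0 : 0 ≤ p := hm.1
  have hNi : N1 i ≤ N := (Finset.single_le_sum (f := N1) (fun _ _ => Nat.zero_le _) (Finset.mem_univ i)).trans hN1
  obtain ⟨M', T, hE, hM, hT, hest⟩ := hN i N p hNi hp0 hNp
  have hsub : {y : Bsh G | fs (2 * N) (fun n => stp U V g N L i (sf (ve V g i ^ n) (tq qm y))) = none} ⊆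
      {y : Bsh G | ∀ a : Fin T, ∃ l : Ix U V i, ∀ e ∈ Fb U V g i (K i) M' (L + a) l,
        tq qm y e.2 e.1 ≠ true} := by
    intro y hyy a
    exact ovd g N L (K i) M' T i (hK i) hT hM (tq qm y) hyy a
  have h1 := ind_bd p ζ qm hm (fun (a : Fin T) (l : Ix U V i) => Fb U V g i (K i) M' (L + a) l)
    (by
      intro a b hab
      refine hdis i M' hE (L + a.1, a.2) (L + b.1, b.2) ?_
      intro h
      apply hab
      rw [Prod.mk.injEq] at h
      exact Prod.ext (Fin.ext (by omega)) h.2) M' (fun a l => (fb_card g hg hy i (K i) M' (L + a) l).ge)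
  rw [Fintype.card_fin] at h1
  refine (measureReal_mono hsub (measure_ne_top _ _)).trans (h1.trans (hest.trans ?_))
  apply Real.exp_le_exp.2
  apply neg_le_neg
  have hNp0 : 0 ≤ (N : ℝ) * p := by positivity
  have h2 : ((N : ℝ) * p) ^ (1 + ∑ i, Fintype.card (Ix U V i)) ≤ ((N : ℝ) * p) ^ Fintype.card (Ix U V i) := by
    apply pow_le_pow_of_le_one hNp0 hNp
    have := Finset.single_le_sum (f := fun i => Fintype.card (Ix U V i)) (fun _ _ => Nat.zero_le _)
      (Finset.mem_univ i)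
    omega
  have h3 : 1 / (1 + ∑ i, 1 / κ i) ≤ κ i := by
    rw [one_div_le hκ0 (hκ i)]
    have := Finset.single_le_sum (f := fun i => 1 / κ i) (fun i _ => (one_div_pos.2 (hκ i)).le)
      (Finset.mem_univ i)
    linarith
  exact mul_le_mul (mul_le_mul_of_nonneg_right h3 (Nat.cast_nonneg N)) h2 (pow_nonneg hNp0 _)
    (mul_nonneg (hκ i).le (Nat.cast_nonneg N))

end H33.HN
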