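import Pool.Agent.H33.HN.ShpA
import Pool.Agent.H33.HN.DefsK

/-! # HN.OvD : no stop within 2 N steps: many blocks without marks

PROOF. Let `n := L + a`, `a < T`, so `n ≤ N / K`, `K n ≤ N`, `n ≥ L`, `K n ≥ L`. By `fs_none` there is no stop at `K n`: `¬ sw U V g N L i (sf (ve i ^ (K n)) t)`. No stop at any `j ≤ 2 N` gives `t (ve i ^ j) i ≠ true` for all `j ≤ 2 N`, so the first condition of `sw` holds (`ve ^ n' * ve ^ (K n) = ve ^ (n' + K n)`, `n' + K n ≤ 2 N`), and the second: `(ve ^ b)⁻¹ * ve ^ (K n) = ve ^ (K n - b)`, `b ≤ L ≤ K n`.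
So the third or the fourth condition fails: there is `q` with `Al (sp i) q` and no mark `t (ve q.1 ^ n' * el i q * ve i ^ (K n)) q.1 = true` with `n' ≤ N`: take `l := some ⟨q, _⟩`; or there is no mark on the dummy line: `l := none`. The exponents in `Fb`: `2 * ixn l * M' + a' ≤ 2 (card (Ix) - 1) M' + M' ≤ N` by `hN`. -/

set_option autoImplicit false
set_option synthInstance.maxSize 4000

open MeasureTheory H31.BE

namespace H33.HN

variable {k m : ℕ} {U V : Fin m → Wl k} {G : Type} [Group G] [DecidableEq G] (g : Lh k m → G)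
  (hg : Pres (rh U V) g) (hy : Hyp U V)

omit hg in
theorem ovd (N L K M' T : ℕ) (i : Fin m) (hK : 1 ≤ K) (hT : T + L ≤ N / K + 1)
    (hN : 2 * Fintype.card (Ix U V i) * M' ≤ N) (t : G → Fin m → Bool)
    (h : fs (2 * N) (fun n => stp U V g N L i (sf (ve V g i ^ n) t)) = none) (a : Fin T) :
    ∃ l : Ix U V i, ∀ e ∈ Fb U V g i K M' (L + a) l, t e.2 e.1 ≠ true := by
  classical
  by_contra hcon
  push Not at hcon
  have hn0 := (fs_none _ _).1 h
  have ha : (a : ℕ) < T := a.2
  have hLa : L + (a : ℕ) ≤ N / K := by omega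
  have hKn : K * (L + (a : ℕ)) ≤ N := by
    calc K * (L + (a : ℕ)) ≤ K * (N / K) := Nat.mul_le_mul_left K hLa
      _ ≤ N := Nat.mul_div_le N K
  have hLn : L ≤ K * (L + (a : ℕ)) := by nlinarith
  have hns : ∀ j ≤ 2 * N, t (ve V g i ^ j) i ≠ true := by
    intro j hj hjt
    refine hn0 j hj (Or.inl ?_)
    show t (1 * ve V g i ^ j) i = true
    rw [one_mul]
    exact hjt
  have hex : ∀ l : Ix U V i, ∃ n' ≤ N, t (ve V g (tyo U V i l) ^ n' * elo U V g i l *
      ve V g i ^ (K * (L + (a : ℕ)))) (tyo U V i l) = true := by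
    intro l
    obtain ⟨e, he, het⟩ := hcon l
    unfold Fb at he
    obtain ⟨b, hb, rfl⟩ := Finset.mem_image.1 he
    rw [Finset.mem_range] at hb
    refine ⟨2 * ixn U V i l * M' + b, ?_, het⟩
    have hi : ixn U V i l < Fintype.card (Ix U V i) := (Fintype.equivFin (Ix U V i) l).2
    have h1 : 2 * ixn U V i l * M' + 2 * M' ≤ 2 * Fintype.card (Ix U V i) * M' := by
      have h2 : (2 * ixn U V i l + 2) * M' ≤ 2 * Fintype.card (Ix U V i) * M' :=
        Nat.mul_le_mul_right M' (by omega)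
      calc 2 * ixn U V i l * M' + 2 * M' = (2 * ixn U V i l + 2) * M' := by ring
        _ ≤ _ := h2
    omega
  refine hn0 (K * (L + (a : ℕ))) (by omega) (Or.inr ⟨?_, ?_, ?_, ?_⟩)
  · intro n' hn'
    show t (ve V g i ^ n' * ve V g i ^ (K * (L + (a : ℕ)))) i ≠ true
    rw [← pow_add]
    exact hns _ (by omega)
  · intro b hb
    show t ((ve V g i ^ b)⁻¹ * ve V g i ^ (K * (L + (a : ℕ)))) i ≠ true
    have hb' : b ≤ K * (L + (a : ℕ)) := le_trans hb hLn
    have e1 : (ve V g i ^ b)⁻¹ * ve V g i ^ (K * (L + (a : ℕ))) = ve V g i ^ (K * (L + (a : ℕ)) - b) := by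
      rw [inv_mul_eq_iff_eq_mul, ← pow_add]
      congr 1
      omega
    rw [e1]
    exact hns _ (by omega)
  · intro q hq
    exact hex (some ⟨q, hq⟩)
  · exact hex none

end H33.HN
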