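import Pool.Agent.H33.HN.DefsP
import Pool.Agent.H33.HN.BbA

/-! # HN.P2c : expected number of the bad vertices in the model

PROOF. `bb_bd` for `m`: `BB ≤ C1 (Mis + defs)`. Integrate with `eN`, `eO` (finite space, `Integrable.of_finite`, `integral_mono`); `C := 2 C1`, `Er ≥ 0`. See H33/BO/P2c. -/

set_option autoImplicit false
set_option synthInstance.maxSize 4000

open MeasureTheory H31.BE

namespace H33.HN

theorem p2c {S I : Type} [Fintype S] [Fintype I] [DecidableEq S] [DecidableEq I] {r : Rl S I} {G : Type} [Group G]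
    [DecidableEq G] (hr : ∀ i, 0 < (r i).length) (g : S → G) (hg : Pres r g) (m : ℕ) :
    ∃ C : ℕ, ∀ (Y P Λ : Type) [MeasurableSpace Y] [MulAction G Y] [Finite P] [Finite Λ] (PY : Measure Y)
      (sy : Psy r P Λ) (b : Y → Λ) (φ : I → Y → P) (good : Y → Prop) (D N n : ℕ) (Ω : Type) [Finite Ω]
      [MeasurableSpace Ω] [DiscreteMeasurableSpace Ω] (Q : Measure Ω) [IsProbabilityMeasure Q]
      (om : Ω → Fin n → Bag r P Λ) (M X : Ω → S → Equiv.Perm (Fin n))
      (M0 : (Fin n → Bag r P Λ) → S → Equiv.Perm (Fin n)) (yy : Ω → Fin n → Y)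
      (_ : Mdl hr g PY sy b φ good D N n Q om M X M0 yy),
      ∫ ω, ((BB g (om ω) (X ω) m).ncard : ℝ) ∂Q ≤
        C * (n * ∑ i, PY.real {y | sy.dir (φ i y) = none} + Er r D N n) := by
  obtain ⟨C1, h1⟩ := bb_bd g hg m
  refine ⟨2 * C1, ?_⟩
  intro Y P Λ _ _ _ _ PY sy b φ good D N n Ω _ _ _ Q _ om M X M0 yy hM
  have hEr : 0 ≤ Er r D N n := by
    unfold Er Bc
    positivity
  have hnP : 0 ≤ (n : ℝ) * ∑ i, PY.real {y | sy.dir (φ i y) = none} := by
    refine mul_nonneg (Nat.cast_nonneg _) (Finset.sum_nonneg fun i _ => measureReal_nonneg)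
  have hint : ∀ f : Ω → ℝ, Integrable f Q := fun f => Integrable.of_finite
  have ha : ∀ ω, ((BB g (om ω) (X ω) m).ncard : ℝ) ≤
      (C1 : ℝ) * ((Mis (om ω) (X ω)).ncard : ℝ) + C1 * ((defs r (X ω)).ncard : ℝ) := by
    intro ω
    have h3 := h1 (Fin n) P Λ (om ω) (X ω)
    have h5 : ((BB g (om ω) (X ω) m).ncard : ℝ) ≤
        ((C1 * ((Mis (om ω) (X ω)).ncard + (defs r (X ω)).ncard) : ℕ) : ℝ) := by exact_mod_cast h3
    refine le_trans h5 (le_of_eq ?_)
    push_cast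
    ring
  have hb := integral_mono (hint _) (hint _) ha
  rw [integral_add (hint _) (hint _), integral_const_mul, integral_const_mul] at hb
  have hN := hM.eN
  have hO := hM.eO
  have e1 : (C1 : ℝ) * ∫ ω, ((Mis (om ω) (X ω)).ncard : ℝ) ∂Q ≤ (C1 : ℝ) * Er r D N n :=
    mul_le_mul_of_nonneg_left hN (by positivity)
  have e2 : (C1 : ℝ) * ∫ ω, ((defs r (X ω)).ncard : ℝ) ∂Q ≤
      (C1 : ℝ) * (n * ∑ i, PY.real {y | sy.dir (φ i y) = none} + Er r D N n) :=
    mul_le_mul_of_nonneg_left hO (by positivity)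
  refine le_trans hb (le_trans (add_le_add e1 e2) ?_)
  set E := Er r D N n with hE
  set Z := (n : ℝ) * ∑ i, PY.real {y | sy.dir (φ i y) = none} with hZ
  push_cast
  have q1 : 0 ≤ (C1 : ℝ) * Z := by positivity
  nlinarith

end H33.HN
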