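import Pool.Agent.H33.HN.DefsP
import Pool.Agent.H31.BE.EntE

/-! # HN.P2m : entropy of the matchings given the bag patterns and the structure

PROOF. Compare `p2m` in H33/BO/P2x. `entc M (om, X) ≤ ∑ s, entc (M s) (om, X)` (`entc_pi_le`), every term by `entc_array` for the array `v ↦ M ω s v` (`M s` is a function of the array), `Y (om, X) v := if TT .. then M0 om s v else X s v`, and `hM.eM s`. -/

set_option autoImplicit false
set_option synthInstance.maxSize 4000

open MeasureTheory H31.BE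

namespace H33.HN

variable {S I : Type} [Fintype S] [Fintype I] [DecidableEq S] [DecidableEq I] {r : Rl S I} {G Y P Λ0 : Type}
  {D : ℕ} [Group G] [DecidableEq G] [MeasurableSpace Y] [MulAction G Y] [Finite P] [Finite Λ0]
  (hr : ∀ i, 0 < (r i).length) (g : S → G) (hg : Pres r g) (PY : Measure Y) [IsProbabilityMeasure PY]
  (L : Lab (SS g) Λ0) (lb : Y → Lb r Λ0 D) (hlb : Fm lb) (R m : ℕ)
  (sy : Psy r P (↥(ball (SS g) R) → Lb r Λ0 D)) (φ : I → Y → P) (H N n : ℕ) (hn : 2 ≤ n)
  {Ω : Type} [Finite Ω] [MeasurableSpace Ω] [DiscreteMeasurableSpace Ω] (Q : Measure Ω) [IsProbabilityMeasure Q]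
  (om : Ω → Fin n → Bag r P (↥(ball (SS g) R) → Lb r Λ0 D)) (M X : Ω → S → Equiv.Perm (Fin n))
  (M0 : (Fin n → Bag r P (↥(ball (SS g) R) → Lb r Λ0 D)) → S → Equiv.Perm (Fin n)) (yy : Ω → Fin n → Y)
  (hM : Mdl hr g PY sy (win lb (ball (SS g) R)) φ
    (fun y => Adm L (2 * ml r + 2) (fun h => (lb (h • y)).1) ∧ KT g L lb y) H N n Q om M X M0 yy)

private lemma p2m_fm {Ω' α : Type} [MeasurableSpace Ω'] [DiscreteMeasurableSpace Ω'] (f : Ω' → α) : Fm f :=
  fun _ => MeasurableSet.of_discrete

include hn hM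

theorem p2m : entc Q M (fun ω => (om ω, X ω)) ≤
    (Fintype.card S : ℝ) * (Real.log (n + 1) + Er r H N n * Real.log (n * n)) := by
  classical
  haveI : Nonempty (Fin n) := ⟨⟨0, by omega⟩⟩
  have hn1 : (1 : ℝ) ≤ n := by exact_mod_cast (by omega : 1 ≤ n)
  have h0 : 0 ≤ Real.log ((n : ℝ) * n) := Real.log_nonneg (by nlinarith)
  have h1 := entc_pi_le (P := Q) (ι := S) (κ := fun _ => Equiv.Perm (Fin n)) (f := fun s ω => M ω s)
    (fun s => p2m_fm _) (g := fun ω => (om ω, X ω)) (p2m_fm _)
  refine h1.trans ?_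
  have h2 : ∀ s : S, entc Q (fun ω => M ω s) (fun ω => (om ω, X ω)) ≤
      Real.log (n + 1) + Er r H N n * Real.log (n * n) := by
    intro s
    haveI : Nonempty (Equiv.Perm (Fin n)) := ⟨1⟩
    let D : Equiv.Perm (Fin n) → (Fin n → Fin n) := fun x v => x v
    have hD : Function.Injective D := fun x x' h => Equiv.ext (congrFun h)
    have h3 : (fun ω => M ω s) = fun ω => Function.invFun D (D (M ω s)) := by
      funext ω
      exact (Function.leftInverse_invFun hD (M ω s)).symm
    have h4 := entc_comp_left (P := Q) (f := fun ω => D (M ω s)) (g := fun ω => (om ω, X ω)) (p2m_fm _)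
      (p2m_fm _) (Function.invFun D)
    rw [← h3] at h4
    refine h4.trans ?_
    have h5 := entc_array (P := Q) (V := Fin n) (W := Fin n) (fun ω => D (M ω s)) (p2m_fm _)
      (fun ω => (om ω, X ω)) (p2m_fm _)
      (fun p v => if TT sy.dir s (src s (p.1 v)) then M0 p.1 s v else p.2 s v)
      (fun ω => {v | M ω s v ≠ (if TT sy.dir s (src s (om ω v)) then M0 (om ω) s v else X ω s v)}.ncard)
      (p2m_fm _) (fun ω => Set.ncard_le_card _) (Filter.Eventually.of_forall fun ω => le_refl _)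
    have e1 : Nat.card (Fin n) = n := by simp
    rw [e1] at h5
    have h6 := mul_le_mul_of_nonneg_right (hM.eM s) h0
    refine h5.trans ?_
    linarith
  calc ∑ s : S, entc Q (fun ω => M ω s) (fun ω => (om ω, X ω))
      ≤ ∑ s : S, (Real.log (n + 1) + Er r H N n * Real.log (n * n)) :=
        Finset.sum_le_sum fun s _ => h2 s
    _ = (Fintype.card S : ℝ) * (Real.log (n + 1) + Er r H N n * Real.log (n * n)) := by
        rw [Finset.sum_const, Finset.card_univ, nsmul_eq_mul]

end H33.HN
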