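import Pool.Agent.H33.HN.OmU
import Pool.Agent.H33.HN.EDet

/-! # HN.P2o : entropy of the bag patterns given labels, directions and the structure

PROOF. `edet` with the array `om`, `g ω := ((l, θ), (dd, X))`, `Bd ω := BB g (om ω) (X ω) m'`, `m' := R + 2 * ml r + 1`, `ok ω`: `Sup` and `hom` for all `v` (`hM.sup`, `hM.hom`), and `omu` (the labels `lb (yy ω v) = (.1, .2)` are determined by `g`). -/

set_option autoImplicit false
set_option synthInstance.maxSize 4000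

open MeasureTheory H31.BE

namespace H33.HN

variable {S I : Type} [Fintype S] [Fintype I] [DecidableEq S] [DecidableEq I] {r : Rl S I} {G Y P Λ0 : Type}
  {D : ℕ} [Group G] [DecidableEq G] [MeasurableSpace Y] [MulAction G Y] [Finite P] [Finite Λ0]
  (hr : ∀ i, 0 < (r i).length) (g : S → G) (hg : Pres r g) (PY : Measure Y) [IsProbabilityMeasure PY]
  (L : Lab (SS g) Λ0) (lb : Y → Lb r Λ0 D) (hlb : Fm lb) (R m : ℕ)
  (sy : Psy r P (↥(ball (SS g) R) → Lb r Λ0 D)) (φ : I → Y → P) (H N n : ℕ) (hn : 2 ≤ n)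
  {Ω : Type} [Finite Ω] [MeasurableSpace Ω] [DiscreteMeasurableSpace Ω] (Q : Measure Ω) [IsProbabilityMeasure Q]
  (om : Ω → Fin n → Bag r P (↥(ball (SS g) R) → Lb r Λ0 D)) (M X : Ω → S → Equiv.Perm (Fin n))
  (M0 : (Fin n → Bag r P (↥(ball (SS g) R) → Lb r Λ0 D)) → S → Equiv.Perm (Fin n)) (yy : Ω → Fin n → Y)
  (hM : Mdl hr g PY sy (win lb (ball (SS g) R)) φ
    (fun y => Adm L (2 * ml r + 2) (fun h => (lb (h • y)).1) ∧ KT g L lb y) H N n Q om M X M0 yy)

include hn hM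

theorem p2o (hpr : Prc g sy (win lb (ball (SS g) R)) φ) :
    entc Q om (fun ω => (((fun v => (lb (yy ω v)).1), (fun v => (lb (yy ω v)).2)),
      ((fun v i => sy.dir ((om ω v).1 (bc hr i))), X ω))) ≤
      Real.log (n + 1) + (∫ ω, ((BB g (om ω) (X ω) (R + 2 * ml r + 1)).ncard : ℝ) ∂Q) *
        Real.log (n * Nat.card (Bag r P (↥(ball (SS g) R) → Lb r Λ0 D))) := by
  have : Finite (↥(ball (SS g) R) → Lb r Λ0 D) := inferInstance
  have : Finite (Bag r P (↥(ball (SS g) R) → Lb r Λ0 D)) := inferInstance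
  refine edet Q n (by omega) om _ (fun ω => BB g (om ω) (X ω) (R + 2 * ml r + 1))
    (fun ω => (∀ v, Sup sy (om ω v)) ∧ ∀ v, om ω v = bgp g (win lb (ball (SS g) R)) φ (yy ω v)) ?_ ?_
  · filter_upwards [hM.sup, hM.hom] with ω h1 h2
    exact ⟨h1, h2⟩
  · rintro ω ω' ⟨h1, h2⟩ ⟨h1', h2'⟩ he hB hv
    simp only [Prod.mk.injEq] at he
    obtain ⟨⟨e1, e2⟩, e3, e4⟩ := he
    have hl : ∀ v, lb (yy ω v) = lb (yy ω' v) := fun v =>
      Prod.ext (congrFun e1 v) (congrFun e2 v)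
    rw [← e4] at hB
    exact omu hr g lb R sy φ hpr (om ω) (om ω') h1 h1' (yy ω) (yy ω') h2 h2' (X ω) hl
      (fun v i => congrFun (congrFun e3 v) i) (R + 2 * ml r + 1) le_rfl hB hv

end H33.HN
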