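import Pool.Agent.H33.HN.DecA
import Pool.Agent.H33.HN.EDet

/-! # HN.P2t : entropy of the second T-structure given the decoded structure (paper 4.5)

PROOF. `θ = (dk, hk)`: `entc θ σ ≤ entc dk σ + entc hk (dk, σ)` (`entc_chain`), `entc dk σ ≤ ent dk ≤ log (card (Fin n → I → Option (Ps r))) = n * log (card (I → Option (Ps r)))`. `entc hk (dk, σ)`: `edet` with `om := fun ω v => (lb (yy ω v)).2.2`, `g := (dk, σ)`, `Bd ω := BB g (om ω) (X ω) m`, `ok ω`: for all `v ∉ BB m`: `KF (σ ω) (dk ω) (hk ω) v` (`dec_kf`, almost everywhere). The determination: let `ω`, `ω'` with the same `σ`, `dk`, `Bd` and `hk = hk'` on `Bd`.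
Claim: for all `k`, `v`, `i`: `hk ω v i ≤ k` implies `hk ω v i = hk ω' v i`. Strong induction on `k`: `v ∈ Bd` clear. `v ∉ Bd`: if `dk v i = none` both are 0. If `dk v i = some c`: `hk v i = 1 + sup_q hk (ac σ (pg c q) v) q.1` and the same for `hk'` with the same `σ`; every `hk (ac σ (pg c q) v) q.1 < hk v i` (`Finset.le_sup`), so by induction equal to the value of `hk'`; `Finset.sup_congr`. `card (I → Fin D)`: `W := I → Fin D`. -/

set_option autoImplicit false
set_option synthInstance.maxSize 4000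

open MeasureTheory H31.BE

namespace H33.HN

/-- the heights are determined by the directions, the action and the heights on the bad set -/
private theorem P2t_det {S I : Type} [Fintype S] [Fintype I] [DecidableEq S] [DecidableEq I] {r : Rl S I} {V : Type}
    (σ : S → Equiv.Perm V) (dk : V → I → Option (Ps r)) (Bd : Set V) (h h' : V → I → ℕ)
    (k1 : ∀ v, v ∉ Bd → KF σ dk h v) (k2 : ∀ v, v ∉ Bd → KF σ dk h' v)
    (hB : ∀ v ∈ Bd, ∀ i, h v i = h' v i) :
    ∀ k v i, h v i ≤ k → h v i = h' v i := by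
  intro k
  induction k with
  | zero =>
    intro v i hk
    by_cases hv : v ∈ Bd
    · exact hB v hv i
    · obtain ⟨a1, a2⟩ := k1 v hv i
      obtain ⟨b1, b2⟩ := k2 v hv i
      cases hd : dk v i with
      | none => rw [a1 hd, b1 hd]
      | some c =>
        obtain ⟨-, a3⟩ := a2 c hd
        omega
  | succ k ih =>
    intro v i hk
    by_cases hv : v ∈ Bd
    · exact hB v hv i
    · obtain ⟨a1, a2⟩ := k1 v hv i
      obtain ⟨b1, b2⟩ := k2 v hv i
      cases hd : dk v i with
      | none => rw [a1 hd, b1 hd]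
      | some c =>
        obtain ⟨-, a3⟩ := a2 c hd
        obtain ⟨-, b3⟩ := b2 c hd
        rw [a3, b3]
        congr 1
        refine Finset.sup_congr rfl fun q hq => ?_
        have h5 : h (ac σ (pg c q) v) q.1 ≤
            (Finset.univ.filter fun q => Al c q).sup fun q => h (ac σ (pg c q) v) q.1 :=
          Finset.le_sup (f := fun q : Ps r => h (ac σ (pg c q) v) q.1) hq
        exact ih _ _ (by omega)

private theorem P2t_fm {Ω α : Type} [MeasurableSpace Ω] [DiscreteMeasurableSpace Ω] (f : Ω → α) :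
    Fm f := fun _ => MeasurableSet.of_discrete

variable {S I : Type} [Fintype S] [Fintype I] [DecidableEq S] [DecidableEq I] {r : Rl S I} {G Y P Λ0 : Type}
  {D : ℕ} [Group G] [DecidableEq G] [MeasurableSpace Y] [MulAction G Y] [Finite P] [Finite Λ0]
  (hr : ∀ i, 0 < (r i).length) (g : S → G) (hg : Pres r g) (PY : Measure Y) [IsProbabilityMeasure PY]
  (L : Lab (SS g) Λ0) (lb : Y → Lb r Λ0 D) (hlb : Fm lb) (R m : ℕ)
  (sy : Psy r P (↥(ball (SS g) R) → Lb r Λ0 D)) (φ : I → Y → P) (H N n : ℕ) (hn : 2 ≤ n)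
  {Ω : Type} [Finite Ω] [MeasurableSpace Ω] [DiscreteMeasurableSpace Ω] (Q : Measure Ω) [IsProbabilityMeasure Q]
  (om : Ω → Fin n → Bag r P (↥(ball (SS g) R) → Lb r Λ0 D)) (M X : Ω → S → Equiv.Perm (Fin n))
  (M0 : (Fin n → Bag r P (↥(ball (SS g) R) → Lb r Λ0 D)) → S → Equiv.Perm (Fin n)) (yy : Ω → Fin n → Y)
  (hM : Mdl hr g PY sy (win lb (ball (SS g) R)) φ
    (fun y => Adm L (2 * ml r + 2) (fun h => (lb (h • y)).1) ∧ KT g L lb y) H N n Q om M X M0 yy)
  (rp : G → FreeGroup S) (hrp : ∀ m h, h ∈ ball (SS g) m → (rp h).norm ≤ m ∧ FreeGroup.lift g (rp h) = h)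
  (σ : Ω → S → Equiv.Perm (Fin n))
  (hσ : ∀ᵐ ω ∂Q, ∀ v, v ∉ BB g (om ω) (X ω) (2 * L.C) → ∀ s,
    σ ω s v = sm g L rp (fun v => (lb (yy ω v)).1) (X ω) (s, true) v)

include hg hn hM hrp hσ

theorem p2t (hmR : m ≤ R) (hm : 2 * L.C + 2 * (L.C * (2 * ml r + 2)) ≤ m) :
    entc Q (fun ω => fun v => (lb (yy ω v)).2) σ ≤
      n * Real.log (Nat.card (I → Option (Ps r))) + Real.log (n + 1) +
      (∫ ω, ((BB g (om ω) (X ω) m).ncard : ℝ) ∂Q) * Real.log (n * Nat.card (I → Fin D)) := by
  classical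
  have hn1 : 1 ≤ n := by omega
  -- the two parts
  have e1 := entc_comp_left (P := Q) (f := fun ω => ((fun v => (lb (yy ω v)).2.2 : Fin n → I → Fin D),
    (fun v => (lb (yy ω v)).2.1 : Fin n → I → Option (Ps r)))) (g := σ) (P2t_fm _) (P2t_fm _)
    (fun p v => ((p.2 v, p.1 v) : (I → Option (Ps r)) × (I → Fin D)))
  have e2 : (fun ω => (fun p v => ((p.2 v, p.1 v) : (I → Option (Ps r)) × (I → Fin D)) :
      (Fin n → I → Fin D) × (Fin n → I → Option (Ps r)) → Fin n → (I → Option (Ps r)) × (I → Fin D))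
      ((fun v => (lb (yy ω v)).2.2 : Fin n → I → Fin D),
      (fun v => (lb (yy ω v)).2.1 : Fin n → I → Option (Ps r)))) =
      fun ω => fun v => (lb (yy ω v)).2 := rfl
  rw [e2] at e1
  have e3 := entc_chain (P := Q) (f := fun ω => (fun v => (lb (yy ω v)).2.2 : Fin n → I → Fin D))
    (g := fun ω => (fun v => (lb (yy ω v)).2.1 : Fin n → I → Option (Ps r))) (h := σ)
    (P2t_fm _) (P2t_fm _) (P2t_fm _)
  rw [e3] at e1
  have e4 : entc Q (fun ω => (fun v => (lb (yy ω v)).2.1 : Fin n → I → Option (Ps r))) σ ≤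
      n * Real.log (Nat.card (I → Option (Ps r))) := by
    refine (entc_le_ent (P := Q) (P2t_fm _) (P2t_fm _)).trans ?_
    refine (ent_le_log_card (P := Q) _ (P2t_fm _)).trans (le_of_eq ?_)
    rw [Nat.card_fun, Nat.card_fin, Nat.cast_pow, Real.log_pow]
  have e5 := edet Q n hn1 (fun ω => (fun v => (lb (yy ω v)).2.2 : Fin n → I → Fin D))
    (fun ω => ((fun v => (lb (yy ω v)).2.1 : Fin n → I → Option (Ps r)), σ ω))
    (fun ω => BB g (om ω) (X ω) m)
    (fun ω => ∀ v, v ∉ BB g (om ω) (X ω) m →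
      KF (σ ω) (fun u => (lb (yy ω u)).2.1) (fun u i => ((lb (yy ω u)).2.2 i : ℕ)) v)
    (by
      filter_upwards [hM.hom, hM.gd, hσ] with ω w1 w2 w3
      intro v hv
      exact dec_kf g lb R φ (om ω) (yy ω) w1 (X ω) L rp hrp (2 * L.C) le_rfl (fun v => (w2 v).1) (σ ω) w3 v m
        hmR hv hm (w2 v).2)
    (by
      intro ω ω' k1 k2 hg' hBd hval
      have hg1 : (fun v => (lb (yy ω v)).2.1 : Fin n → I → Option (Ps r)) = fun v => (lb (yy ω' v)).2.1 :=
        congrArg Prod.fst hg'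
      have hg2 : σ ω = σ ω' := congrArg Prod.snd hg'
      have k2' : ∀ v, v ∉ BB g (om ω) (X ω) m →
          KF (σ ω) (fun u => (lb (yy ω u)).2.1) (fun u i => ((lb (yy ω' u)).2.2 i : ℕ)) v := by
        intro v hv
        have h := k2 v (by
          have h' : BB g (om ω) (X ω) m = BB g (om ω') (X ω') m := hBd
          rw [← h']
          exact hv)
        rw [hg2, hg1]
        exact h
      have hdet := P2t_det (σ ω) (fun u => (lb (yy ω u)).2.1) (BB g (om ω) (X ω) m)
        (fun u i => ((lb (yy ω u)).2.2 i : ℕ)) (fun u i => ((lb (yy ω' u)).2.2 i : ℕ)) k1 k2'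
        (fun v hv i => by
          have h := congrFun (hval v hv) i
          exact congrArg Fin.val h)
      funext v i
      exact Fin.ext (hdet _ v i le_rfl))
  have e6 := add_le_add e4 e5
  refine e1.trans (e6.trans (le_of_eq ?_))
  ring

end H33.HN
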