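import Pool.Agent.H33.HN.DecA
import Pool.Agent.H31.BE.EntE

/-! # HN.P2x : entropy of the completed structure given the decoded structure and the labels

PROOF. Compare `p2x` in H33/BO/P2x. A family of permutations is a function of the array `v ↦ (s ↦ X ω s v)`; `entc_array` with `Y (σ, l) v s := ac σ (lv (cv (L.bw (ll g (s, true)) (l v)))) v` and `dec_X` outside of `BB m` (`m1 := 2 * L.C`, `hM.hom`, `hM.gd`, `hσ`; `cv` from `cv_ex`, choice). The type of the values is `S → Fin n`, `n ^ card S` elements. -/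

set_option autoImplicit false
set_option synthInstance.maxSize 4000

open MeasureTheory H31.BE

namespace H33.HN

private lemma p2x_fm {Ω' α : Type} [MeasurableSpace Ω'] [DiscreteMeasurableSpace Ω'] (f : Ω' → α) : Fm f :=
  fun _ => MeasurableSet.of_discrete

variable {S I : Type} [Fintype S] [Fintype I] [DecidableEq S] [DecidableEq I] {r : Rl S I} {G Y P Λ0 : Type}
  {D : ℕ} [Group G] [DecidableEq G] [MeasurableSpace Y] [MulAction G Y] [Finite P] [Finite Λ0]
  (hr : ∀ i, 0 < (r i).length) (g : S → G) (hg : Pres r g) (PY : Measure Y) [IsProbabilityMeasure PY]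
  (L : Lab (SS g) Λ0) (lb : Y → Lb r Λ0 D) (hlb : Fm lb) (R m : ℕ)
  (sy : Psy r P (↥(ball (SS g) R) → Lb r Λ0 D)) (φ : I → Y → P) (H N n : ℕ) (hn : 2 ≤ n)
  {Ω : Type} [Finite Ω] [MeasurableSpace Ω] [DiscreteMeasurableSpace Ω] (Q : Measure Ω) [IsProbabilityMeasure Q]
  (om : Ω → Fin n → Bag r P (↥(ball (SS g) R) → Lb r Λ0 D)) (M X : Ω → S → Equiv.Perm (Fin n))
  (M0 : (Fin n → Bag r P (↥(ball (SS g) R) → Lb r Λ0 D)) → S → Equiv.Perm (Fin n)) (yy : Ω → Fin n → Y)
  (hM : Mdl hr g PY sy (win lb (ball (SS g) R)) φ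
    (fun y => Adm L (2 * ml r + 2) (fun h => (lb (h • y)).1) ∧ KT g L lb y) H N n Q om M X M0 yy)
  (rp : G → FreeGroup S) (hrp : ∀ m h, h ∈ ball (SS g) m → (rp h).norm ≤ m ∧ FreeGroup.lift g (rp h) = h)
  (σ : Ω → S → Equiv.Perm (Fin n))
  (hσ : ∀ᵐ ω ∂Q, ∀ v, v ∉ BB g (om ω) (X ω) (2 * L.C) → ∀ s,
    σ ω s v = sm g L rp (fun v => (lb (yy ω v)).1) (X ω) (s, true) v)

include hg hn hM hrp hσ

theorem p2x (hmR : m ≤ R) (hm : 2 * L.C + 2 * (L.C * L.C) + 1 ≤ m) :
    entc Q X (fun ω => (σ ω, fun v => (lb (yy ω v)).1)) ≤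
      Real.log (n + 1) + (∫ ω, ((BB g (om ω) (X ω) m).ncard : ℝ) ∂Q) *
        Real.log (n * (n : ℝ) ^ Fintype.card S) := by
  classical
  haveI : Nonempty (Fin n) := ⟨⟨0, by omega⟩⟩
  haveI : Nonempty (S → Equiv.Perm (Fin n)) := ⟨fun _ => 1⟩
  let cv : List (H31.BE.Gn (SS g)) → List (S × Bool) := fun w => (cv_ex g w).choose
  have hcv : ∀ w, (cv w).map (ll g) = w := fun w => (cv_ex g w).choose_spec
  let D : (S → Equiv.Perm (Fin n)) → (Fin n → S → Fin n) := fun x v s => x s v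
  have hD : Function.Injective D := by
    intro x x' h
    funext s
    apply Equiv.ext
    intro v
    exact congrFun (congrFun h v) s
  have h1 : X = fun ω => Function.invFun D (D (X ω)) := by
    funext ω
    exact (Function.leftInverse_invFun hD (X ω)).symm
  have h2 := entc_comp_left (P := Q) (f := fun ω => D (X ω))
    (g := fun ω => (σ ω, fun v => (lb (yy ω v)).1)) (p2x_fm _) (p2x_fm _)
    (Function.invFun D)
  rw [← h1] at h2
  refine h2.trans ?_
  have h3 := entc_array (P := Q) (V := Fin n) (W := S → Fin n) (fun ω => D (X ω)) (p2x_fm _)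
    (fun ω => (σ ω, fun v => (lb (yy ω v)).1)) (p2x_fm _)
    (fun p v s => ac p.1 (lv (cv (L.bw (ll g (s, true)) (p.2 v)))) v)
    (fun ω => (BB g (om ω) (X ω) m).ncard) (p2x_fm _)
    (fun ω => Set.ncard_le_card _) ?_
  · have e1 : Nat.card (Fin n) = n := by simp
    have e2 : Nat.card (S → Fin n) = n ^ Fintype.card S := by
      rw [Nat.card_fun, e1, Nat.card_eq_fintype_card]
    rw [e1, e2] at h3
    push_cast at h3
    exact h3
  · filter_upwards [hM.hom, hM.gd, hσ] with ω h4 h5 h6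
    apply Set.ncard_le_ncard _ (Set.toFinite _)
    intro v hv
    by_contra hb
    apply hv
    funext s
    exact (dec_X g lb R φ (om ω) (yy ω) h4 (X ω) L rp hrp (2 * L.C) (le_refl _) (fun v => (h5 v).1) (σ ω) h6 v m
      hmR hb hm cv hcv s).symm

end H33.HN
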