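import Pool.Agent.H33.HN.P2s
import Pool.Agent.H33.HN.P2t
import Pool.Agent.H33.HN.P2x
import Pool.Agent.H33.HN.P2o
import Pool.Agent.H33.HN.P2m
import Pool.Agent.H33.HN.P2c
import Pool.Agent.H33.HN.ChD
import Pool.Agent.H33.HN.MdlA

/-! # HN.P2b : Part II for a fixed number of vertices (paper 4.6)

PROOF. Compare H33/BO/P2b (`P2b_num`). PARAMETERS: `m := 2 C + 2 C (2 ml r + 2) + 2 C C + 1 + ∑ j, 2 (C * (wd j).length)`, `R0 := m`, `m' := R + 2 ml r + 1`; `C1` from `p2c` for `m`, `C2` from `p2c` for `m'`. For given data take a model (`mdl` with `b := win lb (ball (SS g) R)`, `Fm` by `Fm.pi`, `good` as in the modules), `σ ω` from `sgp` (choice; for the `ω` of the almost sure set; `m1 = 2 L.C`; `Adm L 2` from `Adm L (2 ml r + 2)`: all fields are monotone). `chD` with `θ ω v := (lb (yy ω v)).2`, `d ω v i := sy.dir ((om ω v).1 (bc hr i))`.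
`ent d ≤ log (card (Fin n → I → Option (Ps r))) = n log (card (I → Option (Ps r)))`. Sum: `n F + (|S| - |I|) n log n - |S| n ≤ (|S| - |I|) n log n + |S| log (|Ps| + 1) n + (n δK + |I| B) log n + [n LO + log (n+1) + B log (n card (I → Fin D))] + [n ent + n entc + log (n+1) + B log (n card (J → A))] + n LO + log (n+1) + B log (n n^|S|) + log (n+1) + B' log (n card Bag) + |S| (log (n+1) + Er log (n n))`,
`LO = log card (I → Option (Ps r))`, `B ≤ C1 (n δL + Er)`, `B' ≤ C2 (n δL + Er)`. With `c := log (n + 1) ≥ 1`, `log (card (I → Fin D)) ≤ |I| log (D + 1)`, all terms are at most `C0 * ((δL + δK + Er / n) * (c + log (D + 1) + log (card Bag + 1)) + c / n)` after division by `n`. `CG = |S| + |S| log (|Ps| + 1) + 2 LO`. The constant `C0` depends only on `C1`, `C2`, `card (J → A)`, `|S|`, `|I|`. -/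

set_option autoImplicit false
set_option synthInstance.maxSize 4000

open MeasureTheory H31.BE

namespace H33.HN

/-- the final estimate -/
private lemma P2b_num {S I F e1 e2 CG δK δφ ε T c x n E BBi BBj lI lD lA lX lB lM C1 C2 CJ ln : ℝ} (hn : 0 < n)
    (hE : E = n * ε) (hcx : c = n * x) (hS : 0 ≤ S) (hI : 0 ≤ I) (hx : 0 ≤ x) (hcT : c ≤ T) (hε : 0 ≤ ε)
    (hδK : 0 ≤ δK) (hδφ : 0 ≤ δφ) (hC1 : 0 ≤ C1) (hC2 : 0 ≤ C2) (hCJ : 0 ≤ CJ) (hBi : 0 ≤ BBi) (hBj : 0 ≤ BBj)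
    (hT : 0 ≤ T) (hln : ln ≤ T)
    (tB : BBi ≤ C1 * (n * δφ + E)) (tB' : BBj ≤ C2 * (n * δφ + E))
    (hlI : lI ≤ I * T) (hlD : lD ≤ (I + 1) * T) (hlA : lA ≤ (1 + CJ) * T) (hlX : lX ≤ (S + 1) * T)
    (hlB : lB ≤ T) (hlM : lM ≤ 2 * T)
    (h : n * F ≤ n * (e1 + e2 + CG) + (4 + S) * c + n * δK * ln + BBi * lI + BBi * lD + BBi * lA +
      BBi * lX + BBj * lB + S * (E * lM)) :
    F ≤ e1 + e2 + CG + ((4 + S) + 1 + C1 * (2 * I + S + 3 + CJ) + C2 + 2 * S) *
      ((δφ + δK + ε) * T + x) := by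
  set K3 : ℝ := 2 * I + S + 3 + CJ with hK3
  have hK30 : 0 ≤ K3 := by positivity
  have b1 : BBi * lI + BBi * lD + BBi * lA + BBi * lX ≤ n * (C1 * (δφ + ε) * (K3 * T)) := by
    have h1 : lI + lD + lA + lX ≤ K3 * T := by
      have h2 : K3 * T = I * T + (I + 1) * T + (1 + CJ) * T + (S + 1) * T := by rw [hK3]; ring
      rw [h2]
      linarith
    have h2 : BBi * (lI + lD + lA + lX) ≤ BBi * (K3 * T) := mul_le_mul_of_nonneg_left h1 hBi
    have h3 : BBi * (K3 * T) ≤ C1 * (n * δφ + E) * (K3 * T) :=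
      mul_le_mul_of_nonneg_right tB (by positivity)
    have h4 : C1 * (n * δφ + E) * (K3 * T) = n * (C1 * (δφ + ε) * (K3 * T)) := by rw [hE]; ring
    have h5 : BBi * (lI + lD + lA + lX) = BBi * lI + BBi * lD + BBi * lA + BBi * lX := by ring
    linarith
  have b2 : BBj * lB ≤ n * (C2 * (δφ + ε) * T) := by
    have h2 : BBj * lB ≤ BBj * T := mul_le_mul_of_nonneg_left hlB hBj
    have h3 : BBj * T ≤ C2 * (n * δφ + E) * T := mul_le_mul_of_nonneg_right tB' hT
    have h4 : C2 * (n * δφ + E) * T = n * (C2 * (δφ + ε) * T) := by rw [hE]; ring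
    linarith
  have b3 : S * (E * lM) ≤ n * (2 * S * (ε * T)) := by
    have hE0 : 0 ≤ E := by rw [hE]; positivity
    have h1 : S * (E * lM) ≤ S * (E * (2 * T)) :=
      mul_le_mul_of_nonneg_left (mul_le_mul_of_nonneg_left hlM hE0) hS
    have h4 : S * (E * (2 * T)) = n * (2 * S * (ε * T)) := by rw [hE]; ring
    linarith
  have b4 : n * δK * ln ≤ n * (δK * T) := by
    have h1 : n * δK * ln ≤ n * δK * T := mul_le_mul_of_nonneg_left hln (by positivity)
    linarith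
  have b5 : (4 + S) * c = n * ((4 + S) * x) := by rw [hcx]; ring
  have key : n * F ≤ n * (e1 + e2 + CG + ((4 + S) * x + δK * T + C1 * (δφ + ε) * (K3 * T) +
      C2 * (δφ + ε) * T + 2 * S * (ε * T))) := by
    have h6 : n * (e1 + e2 + CG + ((4 + S) * x + δK * T + C1 * (δφ + ε) * (K3 * T) +
      C2 * (δφ + ε) * T + 2 * S * (ε * T))) = n * (e1 + e2 + CG) + n * ((4 + S) * x) + n * (δK * T) +
      n * (C1 * (δφ + ε) * (K3 * T)) + n * (C2 * (δφ + ε) * T) + n * (2 * S * (ε * T)) := by ring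
    rw [h6]
    linarith
  have key2 := le_of_mul_le_mul_left key hn
  refine key2.trans ?_
  have p1 : 0 ≤ (4 + S) * ((δφ + δK + ε) * T) := by positivity
  have p2 : 0 ≤ (δφ + ε) * T + x := by positivity
  have p3 : 0 ≤ C1 * K3 * (δK * T + x) := by positivity
  have p4 : 0 ≤ C2 * (δK * T + x) := by positivity
  have p5 : 0 ≤ 2 * S * ((δφ + δK) * T + x) := by positivity
  have q : ((4 + S) + 1 + C1 * K3 + C2 + 2 * S) * ((δφ + δK + ε) * T + x) =
      ((4 + S) * x + δK * T + C1 * (δφ + ε) * (K3 * T) + C2 * (δφ + ε) * T + 2 * S * (ε * T)) +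
      ((4 + S) * ((δφ + δK + ε) * T) + ((δφ + ε) * T + x) + C1 * K3 * (δK * T + x) +
        C2 * (δK * T + x) + 2 * S * ((δφ + δK) * T + x)) := by ring
  rw [q]
  linarith

private lemma P2b_sum {S I n F e1 e2 c BBi BBj lA lD lX lB E lM ln T S0 St S1 S2 S3 S4 S5 lP LO δK : ℝ}
    (h8 : n * F + (S - I) * (n * ln) - S * n ≤ T) (h7 : T ≤ S0 + St + S1 + S2 + S3 + S4 + S5)
    (h0 : S0 ≤ (S - I) * (n * ln) + (S * lP) * n + (n * δK + I * BBi) * ln)
    (ht : St ≤ n * LO + c + BBi * lD)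
    (h1 : S1 ≤ n * e1 + n * e2 + c + BBi * lA)
    (h2 : S2 ≤ n * LO) (h3 : S3 ≤ c + BBi * lX) (h4 : S4 ≤ c + BBj * lB) (h5 : S5 ≤ S * (c + E * lM)) :
    n * F ≤ n * (e1 + e2 + (S + S * lP + 2 * LO)) + (4 + S) * c + n * δK * ln + BBi * (I * ln) + BBi * lD +
      BBi * lA + BBi * lX + BBj * lB + S * (E * lM) := by
  have e1' : S * (c + E * lM) = S * c + S * (E * lM) := by ring
  have e2' : (n * δK + I * BBi) * ln = n * δK * ln + BBi * (I * ln) := by ring
  have e3' : n * (e1 + e2 + (S + S * lP + 2 * LO)) = n * e1 + n * e2 + S * n + (S * lP) * n + 2 * (n * LO) := by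
    ring
  have e4' : (4 + S) * c = 4 * c + S * c := by ring
  rw [e1'] at h5
  rw [e2'] at h0
  rw [e3', e4']
  linarith

private lemma P2b_fm {Ω α : Type} [MeasurableSpace Ω] [DiscreteMeasurableSpace Ω] (f : Ω → α) : Fm f :=
  fun _ => MeasurableSet.of_discrete

private lemma P2b_er {S I : Type} [Fintype S] [Fintype I] (r : Rl S I) (D N n : ℕ) : 0 ≤ Er r D N n := by
  unfold Er Bc
  positivity

private lemma P2b_log {x y : ℝ} (hx : 0 ≤ x) (hy : 1 ≤ y) (h : x ≤ y) : Real.log x ≤ Real.log y := by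
  rcases hx.eq_or_lt with h0 | h0
  · rw [← h0, Real.log_zero]
    exact Real.log_nonneg hy
  · exact Real.log_le_log h0 h

private lemma P2b_mul {n x y : ℝ} (hn : 1 ≤ n) (hx : 0 ≤ x) (hy : 1 ≤ y) (h : x ≤ y) :
    Real.log (n * x) ≤ Real.log (n + 1) + Real.log y := by
  rw [← Real.log_mul (by linarith) (by linarith)]
  refine P2b_log (by positivity) ?_ ?_
  · exact one_le_mul_of_one_le_of_one_le (by linarith) hy
  · exact mul_le_mul (by linarith) h hx (by linarith)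

private lemma P2b_adm {G Λ I' : Type} [Group G] [DecidableEq G] [Fintype I'] {S : I' → Finset G} (L : Lab S Λ)
    {N N' : ℕ} (hN : N' ≤ N) {t : G → Λ} (h : Adm L N t) (hb : ball S (L.C * N') ⊆ ball S (L.C * N)) :
    Adm L N' t :=
  ⟨h.a1, fun w w' h1 h2 h3 => h.a2 w w' (h1.trans hN) (h2.trans hN) h3,
    fun w h1 h2 => h.a3 w (h1.trans hN) h2, fun g hg h1 => h.a4 g (hb hg) h1⟩

theorem p2b {S I : Type} [Fintype S] [Fintype I] [DecidableEq S] [DecidableEq I] {r : Rl S I} {G : Type} [Group G]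
    [DecidableEq G] (hr : ∀ i, 0 < (r i).length) (g : S → G) (hg : Pres r g) (C : ℕ) {A J : Type} [Finite A]
    [Finite J] (wd : J → List (H31.BE.Gn (SS g))) :
    ∃ R0 : ℕ, ∀ R, R0 ≤ R → ∃ C0 : ℝ, 0 ≤ C0 ∧ ∀ (Λ0 : Type) [Finite Λ0] (L : Lab (SS g) Λ0) (_ : L.C = C)
      (D : ℕ) (Y : Type) [MeasurableSpace Y] [MulAction G Y] (PY : Measure Y) [IsProbabilityMeasure PY]
      (_ : Inv G PY) (lb : Y → Lb r Λ0 D) (_ : Fm lb)
      (_ : ∀ᵐ y ∂PY, Adm L (2 * ml r + 2) (fun h => (lb (h • y)).1) ∧ KT g L lb y) (pf : Λ0 → A)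
      (P : Type) [Finite P] (sy : Psy r P (↥(ball (SS g) R) → Lb r Λ0 D)) (φ : I → Y → P) (_ : ∀ i, Fm (φ i))
      (_ : Prc g sy (win lb (ball (SS g) R)) φ) (H : ℕ) (_ : ∀ p, sy.ht p ≤ H) (n N : ℕ) (_ : 2 ≤ n)
      (_ : ∀ s, Nat.card (Itf r s P (↥(ball (SS g) R) → Lb r Λ0 D)) ≤ N),
      Fn sy.dir (BO.law PY (bgp g (win lb (ball (SS g) R)) φ)) ≤ ent PY (fun y => pf (lb y).1) +
        entc PY (fun y => (lb y).1)
          (fun y => fun j : J => pf (lb (walk L (fun h => (lb (h • y)).1) (wd j) • y)).1) +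
        (Fintype.card S + Fintype.card S * Real.log (Fintype.card (Ps r) + 1) +
          2 * Real.log (Nat.card (I → Option (Ps r)))) +
        C0 * ((∑ i, PY.real {y | sy.dir (φ i y) = none} + ∑ i, PY.real {y | (lb y).2.1 i = none} +
            Er r H N n / n) * (Real.log (n + 1) + Real.log (D + 1) +
              Real.log (Nat.card (Bag r P (↥(ball (SS g) R) → Lb r Λ0 D)) + 1)) + Real.log (n + 1) / n) := by
  classical
  letI : Fintype J := Fintype.ofFinite J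
  set m : ℕ := 2 * C + 2 * (C * (2 * ml r + 2)) + (2 * (C * C) + 1) + ∑ j, 2 * (C * (wd j).length) with hm
  refine ⟨m, fun R hmR => ?_⟩
  obtain ⟨rp, hrp⟩ := rp_ex g
  choose cv hcv using cv_ex g
  obtain ⟨C1, hC1⟩ := p2c hr g hg m
  obtain ⟨C2, hC2⟩ := p2c hr g hg (R + 2 * ml r + 1)
  have hm1 : 2 * C + 2 * (C * (2 * ml r + 2)) ≤ m := by omega
  have hm2 : 2 * C + 2 * (C * C) + 1 ≤ m := by omega
  have hm3 : ∀ j, 2 * C + 2 * (C * (wd j).length) ≤ m := by
    intro j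
    have h1 : 2 * (C * (wd j).length) ≤ ∑ j, 2 * (C * (wd j).length) :=
      Finset.single_le_sum (f := fun j => 2 * (C * (wd j).length)) (fun _ _ => Nat.zero_le _)
        (Finset.mem_univ j)
    omega
  refine ⟨(4 + (Fintype.card S : ℝ)) + 1 + C1 * (2 * (Fintype.card I : ℝ) + Fintype.card S + 3 +
    |Real.log (Nat.card (J → A))|) + C2 + 2 * (Fintype.card S : ℝ), by positivity, ?_⟩
  intro Λ0 _ L hLC D Y _ _ PY _ hP lb hlb hgd pf P _ sy φ hφ hpr H hH n N hn hN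
  obtain ⟨y0⟩ : Nonempty Y := nonempty_of_isProbabilityMeasure PY
  haveI : Nonempty A := ⟨pf (lb y0).1⟩
  have hβ : Fm (win (G := G) lb (ball (SS g) R)) :=
    Fm.pi (f := fun (h : ↥(ball (SS g) R)) (y : Y) => lb ((h : G) • y)) fun h =>
      Fm.comp_measurable (hP h).measurable hlb
  obtain ⟨Ω, iΩ, iM, iD, Q, iQ, om, M, X, M0, yy, hM⟩ :=
    mdl hr g hg PY hP sy H hH (win lb (ball (SS g) R)) hβ φ hφ hpr _ hgd N hN n (by omega)
  subst hLC
  have hsub : ball (SS g) (L.C * 2) ⊆ ball (SS g) (L.C * (2 * ml r + 2)) := by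
    unfold ball
    exact Finset.pow_subset_pow_right (Finset.mem_insert_self _ _) (Nat.mul_le_mul_left _ (by omega))
  have hex : ∀ ω, (∀ v, om ω v = bgp g (win lb (ball (SS g) R)) φ (yy ω v)) →
      (∀ v, Adm L (2 * ml r + 2) (fun h => (lb (h • yy ω v)).1) ∧ KT g L lb (yy ω v)) →
      ∃ σ : S → Equiv.Perm (Fin n), ∀ v, v ∉ BB g (om ω) (X ω) (2 * L.C) → ∀ s,
        σ s v = sm g L rp (fun v => (lb (yy ω v)).1) (X ω) (s, true) v := fun ω h1 h2 =>
    sgp g lb R φ (om ω) (yy ω) h1 (X ω) Prod.fst L rp hrp (2 * L.C) le_rfl (by omega)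
      (fun v => P2b_adm L (by omega) (h2 v).1 hsub)
  obtain ⟨σ, hσ⟩ : ∃ σ : Ω → S → Equiv.Perm (Fin n), ∀ᵐ ω ∂Q, ∀ v, v ∉ BB g (om ω) (X ω) (2 * L.C) → ∀ s,
      σ ω s v = sm g L rp (fun v => (lb (yy ω v)).1) (X ω) (s, true) v := by
    refine ⟨fun ω => if h : ∃ σ : S → Equiv.Perm (Fin n), ∀ v, v ∉ BB g (om ω) (X ω) (2 * L.C) → ∀ s,
        σ s v = sm g L rp (fun v => (lb (yy ω v)).1) (X ω) (s, true) v then h.choose else 1, ?_⟩
    filter_upwards [hM.hom, hM.gd] with ω h1 h2 v hv s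
    have h3 := hex ω h1 h2
    have h4 : (if h : ∃ σ : S → Equiv.Perm (Fin n), ∀ v, v ∉ BB g (om ω) (X ω) (2 * L.C) → ∀ s,
        σ s v = sm g L rp (fun v => (lb (yy ω v)).1) (X ω) (s, true) v then h.choose else 1) = h3.choose :=
      dif_pos h3
    rw [h4]
    exact h3.choose_spec v hv s
  have s1 := p2s hr g hg PY L lb R m sy φ H N n hn Q om M X M0 yy hM rp hrp σ hσ hmR hm1
  have st := p2t hr g hg PY L lb R m sy φ H N n hn Q om M X M0 yy hM rp hrp σ hσ hmR hm1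
  have s2 := p2l hr g hg PY L lb R m sy φ H N n hn Q om M X M0 yy hM rp hrp σ hσ hP hφ hlb hmR cv hcv pf wd hm3
  have s3 := p2x hr g hg PY L lb R m sy φ H N n hn Q om M X M0 yy hM rp hrp σ hσ hmR hm2
  have s4 := p2o hr g PY L lb R sy φ H N n hn Q om M X M0 yy hM hpr
  have s5 := p2m hr g PY L lb R sy φ H N n hn Q om M X M0 yy hM
  have s6 := ent_le_log_card (P := Q) (fun ω => fun v i => sy.dir ((om ω v).1 (bc hr i))) (P2b_fm _)
  have s7 := chD Q σ (fun ω => fun v => (lb (yy ω v)).2) (fun ω => fun v => (lb (yy ω v)).1)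
    (fun ω => fun v i => sy.dir ((om ω v).1 (bc hr i))) X om M
  have s8 := hM.ent0
  have t1 := hC1 Y P (↥(ball (SS g) R) → Lb r Λ0 D) PY sy (win lb (ball (SS g) R)) φ _ H N n Ω Q om M X M0 yy hM
  have t2 := hC2 Y P (↥(ball (SS g) R) → Lb r Λ0 D) PY sy (win lb (ball (SS g) R)) φ _ H N n Ω Q om M X M0 yy hM
  have hn0 : (0 : ℝ) < n := by exact_mod_cast (by omega : 0 < n)
  have hn2 : (2 : ℝ) ≤ n := by exact_mod_cast hn
  have hlogn : Real.log n ≤ Real.log ((n : ℝ) + 1) := Real.log_le_log hn0 (by linarith)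
  have hc0 : 0 ≤ Real.log ((n : ℝ) + 1) := Real.log_nonneg (by linarith)
  have hc1 : 1 ≤ Real.log ((n : ℝ) + 1) := by
    rw [Real.le_log_iff_exp_le (by positivity)]
    have h1 : Real.exp 1 < 2.7182818286 := Real.exp_one_lt_d9
    linarith
  have hd0 : 0 ≤ Real.log ((D : ℝ) + 1) := Real.log_nonneg (by linarith [Nat.cast_nonneg (α := ℝ) D])
  have hb0 : 0 ≤ Real.log ((Nat.card (Bag r P (↥(ball (SS g) R) → Lb r Λ0 D)) : ℝ) + 1) :=
    Real.log_nonneg (by linarith [Nat.cast_nonneg (α := ℝ) (Nat.card (Bag r P (↥(ball (SS g) R) → Lb r Λ0 D)))])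
  rw [Nat.card_fun, Nat.card_eq_fintype_card (α := Fin n), Fintype.card_fin, Nat.cast_pow, Real.log_pow] at s6
  have hJA : (1 : ℝ) ≤ Nat.card (J → A) := by
    exact_mod_cast Nat.one_le_iff_ne_zero.mpr Nat.card_pos.ne'
  set c : ℝ := Real.log ((n : ℝ) + 1) with hc
  set T : ℝ := c + Real.log ((D : ℝ) + 1) +
    Real.log ((Nat.card (Bag r P (↥(ball (SS g) R) → Lb r Λ0 D)) : ℝ) + 1) with hT
  have hcT : c ≤ T := by rw [hT]; linarith
  have hT0 : 0 ≤ T := hc0.trans hcT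
  have hIc : (0 : ℝ) ≤ Fintype.card I := Nat.cast_nonneg _
  have hSc : (0 : ℝ) ≤ Fintype.card S := Nat.cast_nonneg _
  refine P2b_num (n := n) (E := Er r H N n) (c := c) (ln := Real.log n)
    (BBi := ∫ ω, ((BB g (om ω) (X ω) m).ncard : ℝ) ∂Q)
    (BBj := ∫ ω, ((BB g (om ω) (X ω) (R + 2 * ml r + 1)).ncard : ℝ) ∂Q)
    (lI := Fintype.card I * Real.log n) (lD := Real.log (n * Nat.card (I → Fin D)))
    (lA := Real.log (n * Nat.card (J → A))) (lX := Real.log (n * (n : ℝ) ^ Fintype.card S))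
    (lB := Real.log (n * Nat.card (Bag r P (↥(ball (SS g) R) → Lb r Λ0 D))))
    (lM := Real.log (n * n)) hn0 ?_ ?_ hSc hIc ?_ hcT ?_ ?_ ?_ (Nat.cast_nonneg C1) (Nat.cast_nonneg C2)
    (abs_nonneg _) ?_ ?_ hT0 (hlogn.trans hcT) t1 t2 ?_ ?_ ?_ ?_ ?_ ?_ ?_
  · field_simp
  · field_simp
  · positivity
  · have := P2b_er r H N n
    positivity
  · exact Finset.sum_nonneg fun _ _ => measureReal_nonneg
  · exact Finset.sum_nonneg fun _ _ => measureReal_nonneg
  · exact integral_nonneg fun _ => Nat.cast_nonneg _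
  · exact integral_nonneg fun _ => Nat.cast_nonneg _
  · exact mul_le_mul_of_nonneg_left (hlogn.trans hcT) hIc
  · have h1 : (Nat.card (I → Fin D) : ℝ) ≤ ((D : ℝ) + 1) ^ Fintype.card I := by
      rw [Nat.card_fun, Nat.card_eq_fintype_card (α := Fin D), Fintype.card_fin,
        Nat.card_eq_fintype_card (α := I), Nat.cast_pow]
      exact pow_le_pow_left₀ (Nat.cast_nonneg _) (by linarith) _
    have h2 := P2b_mul (n := n) (by linarith) (Nat.cast_nonneg _)
      (one_le_pow₀ (by linarith [Nat.cast_nonneg (α := ℝ) D])) h1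
    rw [Real.log_pow] at h2
    refine h2.trans ?_
    have h3 : Real.log ((D : ℝ) + 1) ≤ T := by rw [hT]; linarith
    have h4 := mul_le_mul_of_nonneg_left h3 hIc
    have h5 : ((Fintype.card I : ℝ) + 1) * T = T + Fintype.card I * T := by ring
    rw [h5]
    linarith
  · have h2 := P2b_mul (n := n) (by linarith) (Nat.cast_nonneg _) hJA le_rfl
    refine h2.trans ?_
    have h6 : Real.log (Nat.card (J → A)) ≤ |Real.log (Nat.card (J → A))| := le_abs_self _
    have h7 := mul_le_mul_of_nonneg_left (hc1.trans hcT) (abs_nonneg (Real.log (Nat.card (J → A) : ℝ)))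
    rw [mul_one] at h7
    rw [add_mul, one_mul]
    linarith
  · rw [← pow_succ', Real.log_pow]
    have h6 := mul_le_mul_of_nonneg_left (hlogn.trans hcT) (by linarith : (0 : ℝ) ≤ (Fintype.card S : ℝ) + 1)
    refine le_trans (le_of_eq ?_) h6
    push_cast
    ring
  · have h2 := P2b_mul (n := n) (x := Nat.card (Bag r P (↥(ball (SS g) R) → Lb r Λ0 D)))
      (y := (Nat.card (Bag r P (↥(ball (SS g) R) → Lb r Λ0 D)) : ℝ) + 1) (by linarith) (Nat.cast_nonneg _)
      (by linarith [Nat.cast_nonneg (α := ℝ) (Nat.card (Bag r P (↥(ball (SS g) R) → Lb r Λ0 D)))])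
      (by linarith)
    refine h2.trans ?_
    rw [hT]
    linarith
  · rw [Real.log_mul hn0.ne' hn0.ne']
    linarith
  · exact P2b_sum s8 s7 s1 st s2 s6 s3 s4 s5

end H33.HN
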