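import Pool.Agent.H33.HN.DecA
import Pool.Agent.H33.BO.ChB
import Pool.Agent.H33.HN.SupA

/-! # HN.P2l : labels: laws in the model, entropy of the labels given the decoded structure

PROOF. Compare H33/BO/P2l. The label of `v` is a function of `om ω v` (the component `2.1` at `h = 1 ∈ ball (SS g) R`): `lb (yy ω v) = (om ω v).2.1 ⟨1, _⟩` (`hM.hom`, `win`, `one_smul`). `lab_law`: `hM.law0` and `ent_law`-type computation: `Q.real {ω | f (lb (yy ω v)) = c} = PY.real {y | f (lb y) = c}` (sum of `law0` over the patterns `t` with `f (t.2.1 1) = c`; almost everywhere equality). 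
`p2l`: `chB` for the labels `l ω v = (lb (yy ω v)).1`, `σ`, `pf`, `Ψ ω v j = pf (lb (walk L _ (wd j) • yy ω v)).1`, `Yf p σ v j = p (ac σ (lv (cv (wd j))) v)`, `bb ω = (BB m).ncard`: for `v ∉ BB m` `dec_psi` (with `w = cv (wd j)`; `2 L.C + 2 (L.C * (cv (wd j)).length) ≤ m`, `(cv w).length = w.length`). `∑ v, ent (pf (l v)) = n * ent`, `∑ v, entc .. = n * entc ..`: `ent_law`, `entc_law` of `chB` file: `Ψ ω v` is a function of `om ω v` since the walk of `wd j`
stays in `ball (L.C * (wd j).length) ⊆ ball R` (`walk_congr`, `walk_mem_ball`), as in H33/BO/P2l. -/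

set_option autoImplicit false
set_option synthInstance.maxSize 4000

open MeasureTheory H31.BE

namespace H33.HN

section priv

variable {S I : Type} {r : Rl S I} {G P Λ : Type} [DecidableEq G]

/-- the label function of a bag pattern, extended by a default value -/
private def P2l_hd {B : Finset G} (l0 : Λ) (Φ : Bag r P (↥B → Λ)) (h : G) : Λ :=
  if hh : h ∈ B then Φ.2.1 ⟨h, hh⟩ else l0

private theorem P2l_hd_bgp {Y : Type} [Group G] [MulAction G Y] (g : S → G) (lb : Y → Λ) (B : Finset G)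
    (φ : I → Y → P) (l0 : Λ) (y : Y) (h : G) (hh : h ∈ B) :
    P2l_hd (r := r) l0 (bgp g (win lb B) φ y) h = lb (h • y) := by
  simp [P2l_hd, bgp, win, hh]

/-- transport of a law without measurability -/
private theorem P2l_law {Ω Y T : Type} [MeasurableSpace Ω] [DiscreteMeasurableSpace Ω] [MeasurableSpace Y]
    [Finite T] (Q : Measure Ω) [IsProbabilityMeasure Q] (P : Measure Y) [IsProbabilityMeasure P] (om : Ω → T)
    (Φ : Y → T) (h : ∀ t, Q.real {ω | om ω = t} = BO.law P Φ t) (p : T → Prop) :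
    Q.real {ω | p (om ω)} = P.real {y | p (Φ y)} := by
  classical
  cases nonempty_fintype T
  have hQ : ∀ q : T → Prop, Q.real {ω | q (om ω)} =
      ∑ t ∈ Finset.univ.filter (fun t => q t), BO.law P Φ t := by
    intro q
    have e : {ω | q (om ω)} = ⋃ t ∈ Finset.univ.filter (fun t => q t), {ω | om ω = t} := by
      ext ω
      simp
    rw [e, measureReal_biUnion_finset]
    · exact Finset.sum_congr rfl fun t _ => h t
    · intro a _ a' _ haa
      refine Set.disjoint_left.2 fun ω h1 h2 => haa ?_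
      exact h1.symm.trans h2
    · exact fun t _ => MeasurableSet.of_discrete
  have hP : ∀ q : T → Prop, P.real {y | q (Φ y)} ≤
      ∑ t ∈ Finset.univ.filter (fun t => q t), BO.law P Φ t := by
    intro q
    have e : {y | q (Φ y)} = ⋃ t ∈ Finset.univ.filter (fun t => q t), Φ ⁻¹' {t} := by
      ext y
      simp
    rw [e]
    exact measureReal_biUnion_finset_le _ _
  have h1 : P.real {y | p (Φ y)} ≤ Q.real {ω | p (om ω)} := by rw [hQ]; exact hP p
  have h2 : P.real {y | ¬ p (Φ y)} ≤ Q.real {ω | ¬ p (om ω)} := by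
    rw [hQ fun t => ¬ p t]; exact hP fun t => ¬ p t
  have h3 : Q.real {ω | p (om ω)} + Q.real {ω | ¬ p (om ω)} = 1 := by
    have := measureReal_add_measureReal_compl (μ := Q) (s := {ω | p (om ω)}) MeasurableSet.of_discrete
    rw [probReal_univ] at this
    exact this
  have h4 : 1 ≤ P.real {y | p (Φ y)} + P.real {y | ¬ p (Φ y)} := by
    have e : {y | p (Φ y)} ∪ {y | ¬ p (Φ y)} = Set.univ := by
      ext y
      simp [em]
    calc (1 : ℝ) = P.real Set.univ := by rw [probReal_univ]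
      _ = P.real ({y | p (Φ y)} ∪ {y | ¬ p (Φ y)}) := by rw [e]
      _ ≤ _ := measureReal_union_le _ _
  linarith

end priv

variable {S I : Type} [Fintype S] [Fintype I] [DecidableEq S] [DecidableEq I] {r : Rl S I} {G Y P Λ0 : Type}
  {D : ℕ} [Group G] [DecidableEq G] [MeasurableSpace Y] [MulAction G Y] [Finite P] [Finite Λ0]
  (hr : ∀ i, 0 < (r i).length) (g : S → G) (hg : Pres r g) (PY : Measure Y) [IsProbabilityMeasure PY]
  (L : Lab (SS g) Λ0) (lb : Y → Lb r Λ0 D) (hlb : Fm lb) (R m : ℕ)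
  (sy : Psy r P (↥(ball (SS g) R) → Lb r Λ0 D)) (φ : I → Y → P) (H N n : ℕ) (hn : 2 ≤ n)
  {Ω : Type} [Finite Ω] [MeasurableSpace Ω] [DiscreteMeasurableSpace Ω] (Q : Measure Ω) [IsProbabilityMeasure Q]
  (om : Ω → Fin n → Bag r P (↥(ball (SS g) R) → Lb r Λ0 D)) (M X : Ω → S → Equiv.Perm (Fin n))
  (M0 : (Fin n → Bag r P (↥(ball (SS g) R) → Lb r Λ0 D)) → S → Equiv.Perm (Fin n)) (yy : Ω → Fin n → Y)
  (hM : Mdl hr g PY sy (win lb (ball (SS g) R)) φ
    (fun y => Adm L (2 * ml r + 2) (fun h => (lb (h • y)).1) ∧ KT g L lb y) H N n Q om M X M0 yy)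

include hM

theorem lab_law {B : Type} [Finite B] (f : Lb r Λ0 D → B) (v : Fin n) (c : B) :
    Q.real {ω | f (lb (yy ω v)) = c} = PY.real {y | f (lb y) = c} := by
  classical
  obtain ⟨y0⟩ := nonempty_of_isProbabilityMeasure PY
  have h1 : ∀ y : Y, P2l_hd (r := r) (lb y0) (bgp g (win lb (ball (SS g) R)) φ y) 1 = lb y := by
    intro y
    rw [P2l_hd_bgp g lb (ball (SS g) R) φ (lb y0) y 1 (one_mem_ball R), one_smul]
  have h2 := P2l_law Q PY (fun ω => om ω v) (bgp g (win lb (ball (SS g) R)) φ) (hM.law0 v)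
    (fun Φ => f (P2l_hd (r := r) (lb y0) Φ 1) = c)
  have h3 : {y | f (P2l_hd (r := r) (lb y0) (bgp g (win lb (ball (SS g) R)) φ y) 1) = c} =
      {y | f (lb y) = c} := by
    ext y
    rw [Set.mem_setOf_eq, Set.mem_setOf_eq, h1]
  rw [← h3]
  refine Eq.trans ?_ h2
  apply measureReal_congr
  filter_upwards [hM.hom] with ω h
  apply propext
  show f (lb (yy ω v)) = c ↔ f (P2l_hd (r := r) (lb y0) (om ω v) 1) = c
  rw [h v, h1]

variable (rp : G → FreeGroup S) (hrp : ∀ m h, h ∈ ball (SS g) m → (rp h).norm ≤ m ∧ FreeGroup.lift g (rp h) = h)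
  (σ : Ω → S → Equiv.Perm (Fin n))
  (hσ : ∀ᵐ ω ∂Q, ∀ v, v ∉ BB g (om ω) (X ω) (2 * L.C) → ∀ s,
    σ ω s v = sm g L rp (fun v => (lb (yy ω v)).1) (X ω) (s, true) v)

include hg hn hM hrp hσ

theorem p2l {A J : Type} [Finite A] [Finite J] [Nonempty A] (hP : Inv G PY) (hφ : ∀ i, Fm (φ i)) (hlb : Fm lb)
    (hmR : m ≤ R) (cv : List (H31.BE.Gn (SS g)) → List (S × Bool)) (hcv : ∀ w, (cv w).map (ll g) = w)
    (pf : Λ0 → A) (wd : J → List (H31.BE.Gn (SS g))) (hw : ∀ j, 2 * L.C + 2 * (L.C * (wd j).length) ≤ m) :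
    entc Q (fun ω => fun v => (lb (yy ω v)).1) σ ≤
      n * ent PY (fun y => pf (lb y).1) +
      n * entc PY (fun y => (lb y).1)
        (fun y => fun j : J => pf (lb (walk L (fun h => (lb (h • y)).1) (wd j) • y)).1) +
      Real.log (n + 1) + (∫ ω, ((BB g (om ω) (X ω) m).ncard : ℝ) ∂Q) * Real.log (n * Nat.card (J → A)) := by
  classical
  have _ := hg
  obtain ⟨y0⟩ := nonempty_of_isProbabilityMeasure PY
  set l0 : Lb r Λ0 D := lb y0 with hl0
  set Bp : Y → Bag r P (↥(ball (SS g) R) → Lb r Λ0 D) := bgp g (win lb (ball (SS g) R)) φ with hBp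
  have hτ1 : ∀ (y : Y) (h : G), h ∈ ball (SS g) R → P2l_hd l0 (Bp y) h = lb (h • y) :=
    fun y h hh => P2l_hd_bgp g lb (ball (SS g) R) φ l0 y h hh
  set lbl : Bag r P (↥(ball (SS g) R) → Lb r Λ0 D) → Λ0 := fun Φ => (P2l_hd l0 Φ 1).1 with hlbl
  have hlb1 : ∀ y : Y, lbl (Bp y) = (lb y).1 := by
    intro y
    rw [hlbl]
    simp only
    rw [hτ1 y 1 (one_mem_ball R), one_smul]
  set ψ : Bag r P (↥(ball (SS g) R) → Lb r Λ0 D) → (J → A) :=
    fun Φ j => pf (P2l_hd l0 Φ (walk L (fun h => (P2l_hd l0 Φ h).1) (wd j))).1 with hψ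
  have hLR : ∀ j, L.C * (wd j).length ≤ R := fun j => by
    have := hw j
    have h2 : L.C * (wd j).length ≤ 2 * (L.C * (wd j).length) := by omega
    omega
  have hψ1 : ∀ y : Y, ψ (Bp y) =
      fun j : J => pf (lb (walk L (fun h => (lb (h • y)).1) (wd j) • y)).1 := by
    intro y
    funext j
    have hb : ∀ h ∈ ball (SS g) (L.C * (wd j).length), h ∈ ball (SS g) R :=
      fun h hh => ball_mono (hLR j) hh
    have h1 : walk L (fun h => (P2l_hd l0 (Bp y) h).1) (wd j) = walk L (fun h => (lb (h • y)).1) (wd j) :=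
      walk_congr L _ _ (wd j) le_rfl (fun h hh => by rw [hτ1 y h (hb h hh)])
    rw [hψ]
    simp only
    rw [h1, hτ1 y _ (hb _ (walk_mem_ball L _ (wd j) le_rfl))]
  -- measurability
  have hfo : ∀ v : Fin n, Fm (fun ω => om ω v) := fun v a => MeasurableSet.of_discrete
  have hG : ∀ h : G, Measurable (fun y : Y => h • y) := fun h => (hP h).measurable
  have hwin : Fm (win lb (ball (SS g) R)) := by
    apply Fm.pi (f := fun (h : ↥(ball (SS g) R)) (y : Y) => lb ((h : G) • y))
    intro h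
    exact Fm.comp_measurable (hG h) hlb
  have hbp : Fm Bp := fm_bgp g hG (win lb (ball (SS g) R)) hwin φ hφ
  -- the labels are determined by the patterns
  have hae : ∀ᵐ ω ∂Q, ∀ v, (lb (yy ω v)).1 = lbl (om ω v) := by
    filter_upwards [hM.hom] with ω h v
    rw [h v, ← hBp, hlb1]
  have hae2 : ∀ᵐ ω ∂Q, ∀ v,
      (fun j : J => pf (lb (walk L (fun h => (lb (h • yy ω v)).1) (wd j) • yy ω v)).1) = ψ (om ω v) := by
    filter_upwards [hM.hom] with ω h v
    rw [h v, ← hBp, hψ1]
  have key := BO.chB (A := A) (B := J → A) Q n (by omega) (fun ω v => (lb (yy ω v)).1) σ pf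
    (fun ω v => fun j : J => pf (lb (walk L (fun h => (lb (h • yy ω v)).1) (wd j) • yy ω v)).1)
    (fun p σ' v j => p (ac σ' (lv (cv (wd j))) v))
    (fun ω => (BB g (om ω) (X ω) m).ncard)
    (fun ω => by
      have := Set.ncard_le_card (BB g (om ω) (X ω) m)
      simpa using this)
    (by
      filter_upwards [hM.hom, hM.gd, hσ] with ω h hgd hs
      apply Set.ncard_le_ncard _ (Set.toFinite _)
      intro v hv
      by_contra hv'
      apply hv
      funext j
      have hlen : (cv (wd j)).length = (wd j).length := by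
        have := congrArg List.length (hcv (wd j))
        rwa [List.length_map] at this
      have h5 := dec_psi g lb R φ (om ω) (yy ω) h (X ω) L rp hrp (2 * L.C) le_rfl (fun v => (hgd v).1)
        (σ ω) hs v m hmR hv' (cv (wd j)) (by rw [hlen]; exact hw j)
      rw [hcv] at h5
      show pf (lb (walk L (fun h => (lb (h • yy ω v)).1) (wd j) • yy ω v)).1 =
        pf (lb (yy ω (ac (σ ω) (lv (cv (wd j))) v))).1
      rw [h5])
  have e1 : ∀ v : Fin n, ent Q (fun ω => pf (lb (yy ω v)).1) = ent PY (fun y => pf (lb y).1) := by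
    intro v
    have h1 : ent Q (fun ω => pf (lb (yy ω v)).1) = ent Q (fun ω => pf (lbl (om ω v))) := by
      apply ent_congr_ae
      filter_upwards [hae] with ω h
      rw [h v]
    rw [h1, BO.ent_law Q PY (fun ω => om ω v) Bp (hfo v) hbp (hM.law0 v) (fun Φ => pf (lbl Φ))]
    congr 1
    funext y
    rw [hlb1]
  have e2 : ∀ v : Fin n, entc Q (fun ω => (lb (yy ω v)).1)
      (fun ω => fun j : J => pf (lb (walk L (fun h => (lb (h • yy ω v)).1) (wd j) • yy ω v)).1) =
      entc PY (fun y => (lb y).1)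
        (fun y => fun j : J => pf (lb (walk L (fun h => (lb (h • y)).1) (wd j) • y)).1) := by
    intro v
    have h1 : entc Q (fun ω => (lb (yy ω v)).1)
        (fun ω => fun j : J => pf (lb (walk L (fun h => (lb (h • yy ω v)).1) (wd j) • yy ω v)).1) =
        entc Q (fun ω => lbl (om ω v)) (fun ω => ψ (om ω v)) := by
      apply entc_congr_ae
      · filter_upwards [hae] with ω h
        rw [h v]
      · filter_upwards [hae2] with ω h
        rw [h v]
    rw [h1, BO.entc_law Q PY (fun ω => om ω v) Bp (hfo v) hbp (hM.law0 v) lbl ψ]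
    congr 1
    · funext y
      rw [hlb1]
    · funext y
      rw [hψ1]
  have s1 : ∑ v : Fin n, ent Q (fun ω => pf (lb (yy ω v)).1) = n * ent PY (fun y => pf (lb y).1) := by
    rw [Finset.sum_congr rfl (fun v _ => e1 v)]
    simp
  have s2 : ∑ v : Fin n, entc Q (fun ω => (lb (yy ω v)).1)
      (fun ω => fun j : J => pf (lb (walk L (fun h => (lb (h • yy ω v)).1) (wd j) • yy ω v)).1) =
      n * entc PY (fun y => (lb y).1)
        (fun y => fun j : J => pf (lb (walk L (fun h => (lb (h • y)).1) (wd j) • y)).1) := by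
    rw [Finset.sum_congr rfl (fun v _ => e2 v)]
    simp
  rw [s1, s2] at key
  exact key

end H33.HN
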