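import Pool.Agent.H33.HN.DecA
import Pool.Agent.H33.HN.KcB
import Pool.Agent.H33.HN.P2l

/-! # HN.P2s : entropy of the decoded structure (paper 4.5)

PROOF. `kc` for `X := σ`, `dk ω u := (lb (yy ω u)).2.1`, `hk ω u i := ((lb (yy ω u)).2.2 i : ℕ)`, `Bd ω := BB g (om ω) (X ω) m`: for almost every `ω` and `v ∉ BB m`: `dec_rel`, `dec_kf` (`hM.hom`, `hM.gd`, `hσ`, `m1 := 2 * L.C`). `∫ #{v | dk ω v i = none} = ∑ v, Q.real {(lb (yy ω v)).2.1 i = none} = n * PY.real {y | (lb y).2.1 i = none}` (`lab_law` with `f l := decide (l.2.1 i = none)` or with values in `Prop`; the integral of a cardinality is the sum of the probabilities: finite space). -/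

set_option autoImplicit false
set_option synthInstance.maxSize 4000

open MeasureTheory H31.BE

namespace H33.HN

private lemma P2s_card {Ω : Type} [Finite Ω] [MeasurableSpace Ω] [DiscreteMeasurableSpace Ω]
    (Q : Measure Ω) [IsProbabilityMeasure Q] (n : ℕ) (A : Ω → Fin n → Prop) :
    ∫ ω, ({v | A ω v}.ncard : ℝ) ∂Q = ∑ v, Q.real {ω | A ω v} := by
  classical
  have h1 : ∀ ω, ({v | A ω v}.ncard : ℝ) =
      ∑ v, ({ω | A ω v}.indicator (fun _ => (1 : ℝ))) ω := by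
    intro ω
    rw [Set.ncard_eq_toFinset_card', Set.toFinset_ofPred, Finset.card_filter, Nat.cast_sum]
    refine Finset.sum_congr rfl fun v _ => ?_
    by_cases h : A ω v
    · rw [if_pos h, Set.indicator_of_mem (by exact h), Nat.cast_one]
    · rw [if_neg h, Set.indicator_of_notMem (by exact h), Nat.cast_zero]
  rw [integral_congr_ae (Filter.Eventually.of_forall h1),
    integral_finsetSum _ (fun v _ => Integrable.of_finite)]
  refine Finset.sum_congr rfl fun v _ => ?_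
  rw [integral_indicator (MeasurableSet.of_discrete), integral_const, smul_eq_mul, mul_one]
  simp [Measure.real]

variable {S I : Type} [Fintype S] [Fintype I] [DecidableEq S] [DecidableEq I] {r : Rl S I} {G Y P Λ0 : Type}
  {D : ℕ} [Group G] [DecidableEq G] [MeasurableSpace Y] [MulAction G Y] [Finite P] [Finite Λ0]
  (hr : ∀ i, 0 < (r i).length) (g : S → G) (hg : Pres r g) (PY : Measure Y) [IsProbabilityMeasure PY]
  (L : Lab (SS g) Λ0) (lb : Y → Lb r Λ0 D) (hlb : Fm lb) (R m : ℕ)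
  (sy : Psy r P (↥(ball (SS g) R) → Lb r Λ0 D)) (φ : I → Y → P) (H N n : ℕ) (hn : 2 ≤ n)
  {Ω : Type} [Finite Ω] [MeasurableSpace Ω] [DiscreteMeasurableSpace Ω] (Q : Measure Ω) [IsProbabilityMeasure Q]
  (om : Ω → Fin n → Bag r P (↥(ball (SS g) R) → Lb r Λ0 D)) (M X : Ω → S → Equiv.Perm (Fin n))
  (M0 : (Fin n → Bag r P (↥(ball (SS g) R) → Lb r Λ0 D)) → S → Equiv.Perm (Fin n)) (yy : Ω → Fin n → Y)
  (hM : Mdl hr g PY sy (win lb (ball (SS g) R)) φ
    (fun y => Adm L (2 * ml r + 2) (fun h => (lb (h • y)).1) ∧ KT g L lb y) H N n Q om M X M0 yy)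
  (rp : G → FreeGroup S) (hrp : ∀ m h, h ∈ ball (SS g) m → (rp h).norm ≤ m ∧ FreeGroup.lift g (rp h) = h)
  (σ : Ω → S → Equiv.Perm (Fin n))
  (hσ : ∀ᵐ ω ∂Q, ∀ v, v ∉ BB g (om ω) (X ω) (2 * L.C) → ∀ s,
    σ ω s v = sm g L rp (fun v => (lb (yy ω v)).1) (X ω) (s, true) v)

include hg hn hM hrp hσ

theorem p2s (hmR : m ≤ R) (hm : 2 * L.C + 2 * (L.C * (2 * ml r + 2)) ≤ m) :
    ent Q σ ≤ ((Fintype.card S : ℝ) - Fintype.card I) * (n * Real.log n) +
      (Fintype.card S * Real.log (Fintype.card (Ps r) + 1)) * n +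
      (n * ∑ i : I, PY.real {y | (lb y).2.1 i = none} +
        Fintype.card I * ∫ ω, ((BB g (om ω) (X ω) m).ncard : ℝ) ∂Q) * Real.log n := by
  classical
  have hG : ∀ᵐ ω ∂Q, ∀ v, v ∉ BB g (om ω) (X ω) m → (∀ i, ac (σ ω) (pv (r i)) v = v) ∧
      KF (σ ω) (fun u => (lb (yy ω u)).2.1) (fun u i => ((lb (yy ω u)).2.2 i : ℕ)) v := by
    filter_upwards [hM.hom, hM.gd, hσ] with ω h1 h2 h3 v hv
    refine ⟨fun i => ?_, ?_⟩
    · exact dec_rel g lb R φ (om ω) (yy ω) h1 (X ω) L rp hrp hg (2 * L.C) le_rfl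
        (fun v => (h2 v).1) (σ ω) h3 v m hmR hv hm i
    · exact dec_kf g lb R φ (om ω) (yy ω) h1 (X ω) L rp hrp (2 * L.C) le_rfl
        (fun v => (h2 v).1) (σ ω) h3 v m hmR hv hm (h2 v).2
  have h1 := kc r n (by omega) Q σ (fun ω u => (lb (yy ω u)).2.1)
    (fun ω u i => ((lb (yy ω u)).2.2 i : ℕ)) (fun ω => BB g (om ω) (X ω) m) hG
  have h2 : ∫ ω, ((∑ i : I, ({v | (lb (yy ω v)).2.1 i = none}.ncard : ℝ)) +
      Fintype.card I * ((BB g (om ω) (X ω) m).ncard : ℝ)) ∂Q =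
      n * ∑ i : I, PY.real {y | (lb y).2.1 i = none} +
        Fintype.card I * ∫ ω, ((BB g (om ω) (X ω) m).ncard : ℝ) ∂Q := by
    rw [integral_add Integrable.of_finite Integrable.of_finite, integral_const_mul,
      integral_finsetSum _ (fun i _ => Integrable.of_finite), Finset.mul_sum]
    congr 1
    refine Finset.sum_congr rfl fun i _ => ?_
    rw [P2s_card]
    have h3 : ∀ v, Q.real {ω | (lb (yy ω v)).2.1 i = none} =
        PY.real {y | (lb y).2.1 i = none} := fun v =>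
      lab_law hr g PY L lb R sy φ H N n Q om M X M0 yy hM (fun l => l.2.1 i) v none
    rw [Finset.sum_congr rfl fun v _ => h3 v, Finset.sum_const, Finset.card_univ,
      Fintype.card_fin, nsmul_eq_mul]
  rw [h2] at h1
  exact h1

end H33.HN
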