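import Pool.Agent.H33.HN.Fi
import Pool.Agent.H33.HN.FdC

/-! # HN.PcL : the entropy of the labels (paper 3.5)

PROOF. `fi` for `M := Bsh G` with `bern G ζ` (`inv_bern`), `W := Ps r → Sh`, `w m := wG g σ (tq qm m)`, `gs := g`, `a w0 t := Bf g rc w0 (fun h => β' (sf h t))` (`bf_lc`; note `a w0 (tq q y) = Bf g rc w0 (fun h => β' (tq q (h • y)))`, `tq_smul`), `b s := src s`, `b' s := tgt s` (`bf_match`: `fun h => β' (sf h (sf (g s) t)) = sf (g s) (fun h => β' (sf h t))`, `w (g s • m) = wG g σ (sf (g s) (tq qm m))`), `E s w0 := ¬ TH dS tS ln s (ws s w0)`; the forest condition is `hT` for `t := tq qm m`.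
The left side: `src s (a w0 (tq q y)) = If g rc s (ws s w0) ..` (`src_bf`) depends on `δ = ws s w0` only: group the sum over `w0` by `δ`: `∑ (δ, ¬ TH) PM.real {ws s (w m) = δ} * ent (If g rc s δ ..)`. The right side: `entc (q (y 1)) (a w0 ..) ≤ entc (q (y 1)) (β' (tq q y))` (the label of the bag is `β' (sf 1 (tq q y))`: `entc_anti`-type for a function of the condition) and `∑ PM.real = 1`.
Then for every `s`: `∑ (δ, ¬ TS) p_δ E_δ ≤ ∑ (δ, ¬ TH) p_δ E_δ + ∑ (δ, TH, ¬ TS) p_δ E_δ` with `E_δ := ent (If ..) ≤ log (card Itf) ≤ log (card Bag)` (`ent_le_log_card`; `Nat.card_prod`, `Nat.card_fun`: `card P ^ #{q | lp q = s} * card Λ ≤ card P ^ card (Ps r) * (card Λ * card Λ ^ card S)`, `P`, `Λ` nonempty: if one is empty there is no `y`: `β'` has a value, `rc` has a value if `Sh` is nonempty; if `Sh` is empty then all sums over `δ` with ... treat separately: `σ` gives a value of `Sh` if `I` is nonempty; if `I` is empty then `Ps r` is empty).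
`∑ s, ∑ (δ, TH, ¬ TS) p_δ ≤ ∑ s, ∑ (q, lp q = s), PM {dS (σ q.1 (tq qm ((gw (sc q))⁻¹ • m))) = none, ln q.1 = q} ≤ ∑ i, PM {dS (σ i (tq qm m)) = none}` (`TH` and not `TS`: there is `q` with `dS (δ q) = none` and `ln (tS (δ q)) = q`, `tS (δ q) = (sc q).1 = q.1` by `ht`; invariance; for every `i` only the position `q = ln i` counts). -/

set_option autoImplicit false
set_option synthInstance.maxSize 4000

open MeasureTheory H31.BE

namespace H33.HN

private theorem pcL_fib {Ω W Δ : Type} [MeasurableSpace Ω] (PM : Measure Ω) [IsProbabilityMeasure PM]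
    [Fintype W] [DecidableEq Δ] {w : Ω → W} (hw : Fm w) (φ : W → Δ) (δ : Δ) :
    PM.real {m | φ (w m) = δ} = ∑ w0 ∈ Finset.univ.filter (fun w0 => φ w0 = δ), PM.real {m | w m = w0} := by
  have h : {m | φ (w m) = δ} = ⋃ w0 ∈ Finset.univ.filter (fun w0 => φ w0 = δ), {m | w m = w0} := by
    ext m
    simp
  rw [h, measureReal_biUnion_finset]
  · intro a _ b _ hab
    rw [Function.onFun, Set.disjoint_left]
    intro m h1 h2
    exact hab (Eq.trans (Eq.symm h1) h2)
  · intro a _
    exact hw a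

private theorem pcL_group {Ω W Δ : Type} [MeasurableSpace Ω] (PM : Measure Ω) [IsProbabilityMeasure PM]
    [Fintype W] [Fintype Δ] {w : Ω → W} (hw : Fm w) (φ : W → Δ) (T : Δ → Prop) (e : Δ → ℝ) :
    (open Classical in ∑ w0, if ¬ T (φ w0) then PM.real {m | w m = w0} * e (φ w0) else 0) =
      (open Classical in ∑ δ, if T δ then 0 else PM.real {m | φ (w m) = δ} * e δ) := by
  classical
  rw [← Finset.sum_fiberwise_of_maps_to (s := Finset.univ) (t := Finset.univ) (g := φ)
    (fun _ _ => Finset.mem_univ _)]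
  refine Finset.sum_congr rfl fun δ _ => ?_
  by_cases hT : T δ
  · rw [if_pos hT]
    refine Finset.sum_eq_zero fun w0 hw0 => ?_
    rw [Finset.mem_filter] at hw0
    rw [hw0.2, if_neg (not_not.2 hT)]
  · rw [if_neg hT, pcL_fib PM hw φ δ, Finset.sum_mul]
    refine Finset.sum_congr rfl fun w0 hw0 => ?_
    rw [Finset.mem_filter] at hw0
    rw [hw0.2, if_pos hT]

/-- comparison of the sums over the interface shapes -/
private theorem pcL_cmp {Ω Δ : Type} [MeasurableSpace Ω] (PM : Measure Ω) [IsProbabilityMeasure PM]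
    [Fintype Δ] {w : Ω → Δ} (hw : Fm w) (T T' : Δ → Prop) (e : Δ → ℝ) (he : ∀ δ, 0 ≤ e δ) (L : ℝ)
    (hL : ∀ m, e (w m) ≤ L) :
    (open Classical in ∑ δ, if T δ then 0 else PM.real {m | w m = δ} * e δ) ≤
      (open Classical in ∑ δ, if T' δ then 0 else PM.real {m | w m = δ} * e δ) +
      PM.real {m | T' (w m) ∧ ¬ T (w m)} * L := by
  classical
  have h1 : PM.real {m | T' (w m) ∧ ¬ T (w m)} =
      ∑ δ, (if T' δ ∧ ¬ T δ then PM.real {m | w m = δ} else 0) := by
    have h2 := pcL_fib PM hw (fun δ => decide (T' δ ∧ ¬ T δ)) true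
    rw [Finset.sum_filter] at h2
    simp only [decide_eq_true_eq] at h2
    exact h2
  rw [h1, Finset.sum_mul, ← Finset.sum_add_distrib]
  refine Finset.sum_le_sum fun δ _ => ?_
  have hp : 0 ≤ PM.real {m | w m = δ} := measureReal_nonneg
  have hpe : PM.real {m | w m = δ} * e δ ≤ PM.real {m | w m = δ} * L := by
    by_cases hm : ∃ m, w m = δ
    · obtain ⟨m, rfl⟩ := hm
      exact mul_le_mul_of_nonneg_left (hL m) hp
    · have h0 : {m | w m = δ} = ∅ := by
        ext m
        simp only [Set.mem_ofPred_eq, Set.mem_empty_iff_false, iff_false]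
        exact fun h => hm ⟨m, h⟩
      rw [h0, measureReal_empty, zero_mul, zero_mul]
  by_cases hT : T δ
  · by_cases hT' : T' δ
    · simp [hT, hT']
    · simp only [hT, hT', if_true, if_false, not_true, and_false, zero_mul, add_zero]
      exact mul_nonneg hp (he δ)
  · by_cases hT' : T' δ
    · simpa [hT, hT'] using hpe
    · simp [hT, hT']

private theorem pcL_sc {S I : Type} {r : Rl S I} (c : Ps r) : (sc c).1 = c.1 := by
  unfold sc
  split_ifs
  · rfl
  · rfl

/-- at most one position of every relator counts -/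
private theorem pcL_cnt {S I : Type} [Fintype S] [Fintype I] [DecidableEq S] [DecidableEq I] {r : Rl S I}
    (ln : I → Ps r) (R : I → ℝ) (hR : ∀ i, 0 ≤ R i) :
    ∑ s : S, ∑ q : {q : Ps r // lp q = s}, (if ln q.1.1 = q.1 then R q.1.1 else 0) ≤ ∑ i, R i := by
  have h1 : ∑ s : S, ∑ q : {q : Ps r // lp q = s}, (if ln q.1.1 = q.1 then R q.1.1 else 0) =
      ∑ q : Ps r, (if ln q.1 = q then R q.1 else 0) := by
    rw [← Finset.sum_fiberwise_of_maps_to (s := Finset.univ) (t := Finset.univ) (g := fun q : Ps r => lp q)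
      (fun _ _ => Finset.mem_univ _)]
    refine Finset.sum_congr rfl fun s _ => ?_
    exact (Finset.sum_subtype (Finset.univ.filter fun q : Ps r => lp q = s) (p := fun q => lp q = s)
      (fun q => by simp) (fun q : Ps r => (if ln q.1 = q then R q.1 else 0))).symm
  rw [h1, Fintype.sum_sigma]
  refine Finset.sum_le_sum fun i _ => ?_
  by_cases h : ∃ j, ln i = ⟨i, j⟩
  · obtain ⟨j, hj⟩ := h
    rw [Finset.sum_eq_single_of_mem j (Finset.mem_univ _)]
    · show (if ln i = ⟨i, j⟩ then R i else 0) ≤ R i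
      rw [if_pos hj]
    · intro k _ hk
      rw [if_neg]
      intro h2
      apply hk
      have h3 : (⟨i, j⟩ : Ps r) = ⟨i, k⟩ := hj.symm.trans h2
      simpa using h3.symm
  · rw [Finset.sum_eq_zero]
    · exact hR i
    · intro k _
      rw [if_neg]
      exact fun h2 => h ⟨k, h2⟩

variable {S I : Type} [Fintype S] [Fintype I] [DecidableEq S] [DecidableEq I] {r : Rl S I} {G : Type} [Group G]
  [DecidableEq G] [Countable G] (g : S → G) (hg : Pres r g) (ν ζ : Measure ℝ) [IsProbabilityMeasure ν]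
  [IsProbabilityMeasure ζ] {P Sh Λ Am : Type} [Finite P] [Fintype Sh] [Finite Λ] [Finite Am]
  (dS : Sh → Option (Ps r)) (tS : Sh → I) (ln : I → Ps r) (shp : P → Sh) (rc : Sh → (G → Λ) → P)
  (hshp : ∀ x t, shp (rc x t) = x) (D : Finset G) (hrc : ∀ x, Lc D (rc x)) (qm : ℝ → Am) (hqm : Fm qm)
  (σ : I → (G → Am) → Sh) (hσ : ∀ i, Lc D (σ i))

omit [Fintype S] [Fintype Sh] in
/-- the probability that the completed structure has a T-edge and the structure has none -/
private theorem pcL_prob (hqm : Fm qm) (hσ : ∀ i, Lc D (σ i)) (ht : ∀ i t, tS (σ i t) = i) (s : S) :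
    (bern G ζ).real {m | TH dS tS ln s (ws s (wG g σ (tq qm m))) ∧ ¬ TS dS s (ws s (wG g σ (tq qm m)))} ≤
      ∑ q : {q : Ps r // lp q = s}, (if ln q.1.1 = q.1 then (bern G ζ).real {m | dS (σ q.1.1 (tq qm m)) = none}
        else 0) := by
  have hsub : {m | TH dS tS ln s (ws s (wG g σ (tq qm m))) ∧ ¬ TS dS s (ws s (wG g σ (tq qm m)))} ⊆
      ⋃ q ∈ (Finset.univ : Finset {q : Ps r // lp q = s}),
        {m : Bsh G | ln q.1.1 = q.1 ∧ dS (σ q.1.1 (tq qm ((FreeGroup.lift g (cw (sc q.1)))⁻¹ • m))) = none} := by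
    rintro m ⟨⟨q, hq⟩, h2⟩
    rw [Set.mem_iUnion₂]
    refine ⟨q, Finset.mem_univ _, ?_⟩
    have e1 : ws s (wG g σ (tq qm m)) q = σ q.1.1 (tq qm ((FreeGroup.lift g (cw (sc q.1)))⁻¹ • m)) := by
      unfold ws wG
      rw [tq_smul, pcL_sc]
    have e2 : dS (ws s (wG g σ (tq qm m)) q) = none := by
      by_contra h3
      obtain ⟨x, hx⟩ := Option.ne_none_iff_exists'.1 h3
      apply h2
      refine ⟨q, ?_⟩
      rw [hx, Option.getD_some] at hq
      rw [hx, hq]
    rw [e2, Option.getD_none, e1, ht] at hq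
    rw [e1] at e2
    exact ⟨hq, e2⟩
  refine (measureReal_mono hsub (measure_ne_top _ _)).trans ((measureReal_biUnion_finset_le _ _).trans ?_)
  refine Finset.sum_le_sum fun q _ => ?_
  split_ifs with hq
  · have h3 : {m : Bsh G | ln q.1.1 = q.1 ∧
        dS (σ q.1.1 (tq qm ((FreeGroup.lift g (cw (sc q.1)))⁻¹ • m))) = none} =
        (fun m : Bsh G => (FreeGroup.lift g (cw (sc q.1)))⁻¹ • m) ⁻¹' {m | dS (σ q.1.1 (tq qm m)) = none} := by
      ext m
      simp only [Set.mem_ofPred_eq, Set.mem_preimage]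
      exact ⟨fun h => h.2, fun h => ⟨hq, h⟩⟩
    have hms : MeasurableSet {m : Bsh G | dS (σ q.1.1 (tq qm m)) = none} := by
      have h4 := fm_lc qm hqm D (fun t => dS (σ q.1.1 t)) (fun t t' htt => by
        show dS _ = dS _
        rw [hσ _ t t' htt])
      exact h4 none
    rw [h3]
    exact le_of_eq ((inv_bern (G := G) ζ _).measureReal_preimage hms.nullMeasurableSet)
  · have h3 : {m : Bsh G | ln q.1.1 = q.1 ∧
        dS (σ q.1.1 (tq qm ((FreeGroup.lift g (cw (sc q.1)))⁻¹ • m))) = none} = ∅ := by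
      ext m
      simp only [Set.mem_ofPred_eq, Set.mem_empty_iff_false, iff_false]
      exact fun h => hq h.1
    rw [h3, measureReal_empty]

include hg hrc hqm hσ

theorem pcL (ht : ∀ i t, tS (σ i t) = i)
    (hT : ∀ (t : G → Am) (Ed : Finset (S × G)),
      (∀ e ∈ Ed, ¬ TH dS tS ln e.1 (ws e.1 (wG g σ (sf e.2 t)))) → Bd0 g Ed → Ed = ∅)
    {A : Type} [Finite A] (q : ℝ → A) (hq : Fm q) (β' : (G → A) → Λ) (D' : Finset G) (hβ' : Lc D' β') :
    ent ν q + (∑ s, ∑ δ : {q : Ps r // lp q = s} → Sh, (open Classical in if TS dS s δ then 0 else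
        (bern G ζ).real {m | ws s (wG g σ (tq qm m)) = δ} *
          ent (bern G ν) (fun y => If g rc s δ (fun h => β' (tq q (h • y)))))) ≤
      (∑ w0 : Ps r → Sh, (bern G ζ).real {m | wG g σ (tq qm m) = w0} *
        ent (bern G ν) (fun y => Bf g rc w0 (fun h => β' (tq q (h • y))))) +
      entc (bern G ν) (fun y => q (y 1)) (fun y => β' (tq q y)) +
      (∑ i, (bern G ζ).real {m | dS (σ i (tq qm m)) = none}) * Real.log (Nat.card (Bag r P Λ)) := by
  classical
  obtain ⟨D1, h1, hD1⟩ := bf_lc (r := r) g rc D hrc β' D' hβ'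
  obtain ⟨D2, -, hD2⟩ := wg_lc (r := r) g D σ hσ
  have hw : Fm (fun m : Bsh G => (wG g σ (tq qm m) : Ps r → Sh)) := fm_lc qm hqm D2 _ hD2
  have hab : ∀ (w0 : Ps r → Sh) (y : Bsh G), Bf g rc w0 (fun h => β' (sf h (tq q y))) =
      Bf g rc w0 (fun h => β' (tq q (h • y))) := by
    intro w0 y
    simp only [tq_smul]
  have hFa : ∀ w0 : Ps r → Sh, Fm (fun y : Bsh G => Bf g rc w0 (fun h => β' (tq q (h • y)))) := by
    intro w0
    have h2 := fm_lc q hq D1 _ (hD1 w0)
    simp only [hab] at h2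
    exact h2
  have hq1 : Fm (fun y : Bsh G => q (y 1)) := Fm.lab hq
  -- the forest inequality
  have key := fi ν q hq (bern G ζ) (inv_bern (G := G) ζ) (fun m : Bsh G => (wG g σ (tq qm m) : Ps r → Sh)) hw g
    (fun w0 (t : G → A) => Bf g rc w0 (fun h => β' (sf h t))) D1 h1 hD1
    (fun s => src s) (fun s => tgt s) (fun s w0 => ¬ TH dS tS ln s (ws s w0))
    (by
      intro m t s _
      have h2 := bf_match g hg rc σ s (tq qm m) (fun h => β' (sf h t))
      simp only [tq_smul, sf_sf]
      rw [h2]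
      rfl)
    (by
      intro m Ed hE hB
      refine hT (tq qm m) Ed ?_ hB
      intro e he
      have h2 := hE e he
      simp only [tq_smul] at h2
      exact h2)
  simp only [hab, src_bf] at key
  -- the right side
  have hR : (∑ w0 : Ps r → Sh, (bern G ζ).real {m | wG g σ (tq qm m) = w0} *
      (ent (bern G ν) (fun y => Bf g rc w0 (fun h => β' (tq q (h • y)))) +
        entc (bern G ν) (fun y => q (y 1)) (fun y => Bf g rc w0 (fun h => β' (tq q (h • y)))))) ≤
      (∑ w0 : Ps r → Sh, (bern G ζ).real {m | wG g σ (tq qm m) = w0} *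
        ent (bern G ν) (fun y => Bf g rc w0 (fun h => β' (tq q (h • y))))) +
      entc (bern G ν) (fun y => q (y 1)) (fun y => β' (tq q y)) := by
    have h3 : ∑ w0 : Ps r → Sh, (bern G ζ).real {m | wG g σ (tq qm m) = w0} = 1 := entF_sum hw
    calc _ ≤ ∑ w0 : Ps r → Sh, ((bern G ζ).real {m | wG g σ (tq qm m) = w0} *
          ent (bern G ν) (fun y => Bf g rc w0 (fun h => β' (tq q (h • y)))) +
          (bern G ζ).real {m | wG g σ (tq qm m) = w0} *
          entc (bern G ν) (fun y => q (y 1)) (fun y => β' (tq q y))) := by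
          refine Finset.sum_le_sum fun w0 _ => ?_
          rw [mul_add]
          refine add_le_add (le_refl _) (mul_le_mul_of_nonneg_left ?_ measureReal_nonneg)
          have h4 := entc_anti (P := bern G ν) hq1 (hFa w0) (fun Φ : Bag r P Λ => Φ.2.1)
          have h5 : ∀ y : Bsh G, (Bf g rc w0 (fun h => β' (tq q (h • y))) : Bag r P Λ).2.1 = β' (tq q y) := by
            intro y
            show β' (tq q ((1 : G) • y)) = β' (tq q y)
            rw [one_smul]
          simp only [h5] at h4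
          exact h4
      _ = _ := by rw [Finset.sum_add_distrib, ← Finset.sum_mul, h3, one_mul]
  -- the left side
  have hL : ∀ s : S, (∑ δ : {q : Ps r // lp q = s} → Sh, (if TS dS s δ then 0 else
        (bern G ζ).real {m | ws s (wG g σ (tq qm m)) = δ} *
          ent (bern G ν) (fun y => If g rc s δ (fun h => β' (tq q (h • y)))))) ≤
      (∑ w0 : Ps r → Sh, if ¬ TH dS tS ln s (ws s w0) then (bern G ζ).real {m | wG g σ (tq qm m) = w0} *
        ent (bern G ν) (fun y => If g rc s (ws s w0) (fun h => β' (tq q (h • y)))) else 0) +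
      (∑ q : {q : Ps r // lp q = s}, (if ln q.1.1 = q.1 then
        (bern G ζ).real {m | dS (σ q.1.1 (tq qm m)) = none} else 0)) * Real.log (Nat.card (Bag r P Λ)) := by
    intro s
    have h6 := pcL_group (bern G ζ) hw (fun w0 => ws s w0) (fun δ => TH dS tS ln s δ)
      (fun δ => ent (bern G ν) (fun y => If g rc s δ (fun h => β' (tq q (h • y)))))
    have h7 := pcL_cmp (bern G ζ) (hw.comp (fun w0 => ws s w0)) (fun δ => TS dS s δ)
      (fun δ => TH dS tS ln s δ)
      (fun δ => ent (bern G ν) (fun y => If g rc s δ (fun h => β' (tq q (h • y)))))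
      (fun δ => ent_nonneg _) (Real.log (Nat.card (Bag r P Λ))) (by
        intro m
        have h8 := ent_comp_le (P := bern G ν) (hFa (wG g σ (tq qm m))) (fun Φ : Bag r P Λ => src s Φ)
        simp only [src_bf] at h8
        exact h8.trans (ent_le_log_card _ (hFa _)))
    have h9 := pcL_prob g ζ dS tS ln D qm σ hqm hσ ht s
    rw [← h6] at h7
    refine h7.trans ?_
    exact add_le_add (le_refl _) (mul_le_mul_of_nonneg_right h9 (Real.log_natCast_nonneg _))
  have hC := pcL_cnt ln (fun i => (bern G ζ).real {m | dS (σ i (tq qm m)) = none}) (fun i => measureReal_nonneg)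
  have hS := Finset.sum_le_sum fun (s : S) (_ : s ∈ Finset.univ) => hL s
  rw [Finset.sum_add_distrib, ← Finset.sum_mul] at hS
  have hC' := mul_le_mul_of_nonneg_right hC (Real.log_natCast_nonneg (Nat.card (Bag r P Λ)))
  linarith

end H33.HN
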