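import Pool.Agent.H33.HN.Fi
import Pool.Agent.H33.HN.FdC

/-! # HN.PcX : the entropy of the shapes (paper 3.4)

PROOF. `fi` for `ν := ζ`, `q := qm`, `M := Unit` (the trivial action, `instMulActionUnit`-type: define it locally or use `PUnit` with the trivial action; `PM := Measure.dirac ()`), `W := Unit`, `gs := g`, `a _ t := wG g σ t` (values in `Ps r → Sh`, `Lc D1` by `wg_lc`), `b s := ws s`, `b' s := wt' s` (`ws_match`), `E s _ := Xs s`: `ent ζ qm + ∑ (s, Xs s), ent (ws s ∘ w) ≤ ent w + entc (qm (y 1)) w ≤ ent w + ent ζ qm` (`entc_le_ent`, `ent_lab`). `mk_eta`: for `p_δ ≥ 0`, `∑ p_δ = ε ≤ 1` over `J ≥ 1` elements: `∑ η p_δ ≤ ε log J + η ε ≤ ε log J + 1` (`η` concave, Jensen; or `∑ p_δ log (ε / (J p_δ)) ≤ ∑ p_δ (ε / (J p_δ) - 1) ≤ 0` with `log x ≤ x - 1`). If `J = 0` the sum is empty.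
`pcX`: for `Xs s`: `∑ δ, (if TS then 0 else η p_δ) ≤ ∑ δ, η p_δ = ent (ws s ∘ w)` (`η ≥ 0` on `[0, 1]`), for the other `s`: `mk_eta` with the `δ` with `¬ TS`. -/

set_option autoImplicit false
set_option synthInstance.maxSize 4000

open MeasureTheory H31.BE

namespace H33.HN

variable {S I : Type} [Fintype S] [Fintype I] [DecidableEq S] [DecidableEq I] {r : Rl S I} {G : Type} [Group G]
  [DecidableEq G] [Countable G] (g : S → G) (hg : Pres r g) (ζ : Measure ℝ)
  [IsProbabilityMeasure ζ] {Sh Am : Type} [Fintype Sh] [Finite Am]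
  (dS : Sh → Option (Ps r)) (D : Finset G) (qm : ℝ → Am) (hqm : Fm qm)
  (σ : I → (G → Am) → Sh) (hσ : ∀ i, Lc D (σ i))

omit [Fintype S] [Fintype I] [DecidableEq S] [DecidableEq I] in
theorem mk_eta {J : Type} [Fintype J] (p : J → ℝ) (hp : ∀ j, 0 ≤ p j) (T : J → Prop) (hs : ∑ j, p j ≤ 1) :
    (∑ j, (open Classical in if T j then 0 else Real.negMulLog (p j))) ≤
      1 + (∑ j, (open Classical in if T j then 0 else p j)) * Real.log (Nat.card J) := by
  classical
  have _h := hs
  rcases isEmpty_or_nonempty J with hE | hN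
  · simp
  have hN0 : (0 : ℝ) < (Nat.card J : ℝ) := by
    exact_mod_cast Nat.card_pos
  have key : ∀ j, (if T j then 0 else Real.negMulLog (p j)) ≤
      (if T j then 0 else p j) * Real.log (Nat.card J) + 1 / (Nat.card J : ℝ) := by
    intro j
    by_cases hT : T j
    · simp only [if_pos hT, zero_mul, zero_add]
      positivity
    · simp only [if_neg hT]
      rcases (hp j).eq_or_lt with h0 | h0
      · rw [← h0]
        simp only [Real.negMulLog_zero, zero_mul, zero_add]
        positivity
      · have hy : 0 < p j * (Nat.card J : ℝ) := mul_pos h0 hN0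
        have h1 := Real.one_sub_inv_le_log_of_pos hy
        have h2 : p j * (Nat.card J : ℝ) - 1 ≤
            p j * (Nat.card J : ℝ) * Real.log (p j * (Nat.card J : ℝ)) := by
          have h3 := mul_le_mul_of_nonneg_left h1 hy.le
          have h4 : p j * (Nat.card J : ℝ) * (1 - (p j * (Nat.card J : ℝ))⁻¹) = p j * (Nat.card J : ℝ) - 1 := by
            field_simp
          rw [h4] at h3
          exact h3
        rw [Real.log_mul h0.ne' hN0.ne'] at h2
        rw [Real.negMulLog]
        have h5 : -p j * Real.log (p j) - p j * Real.log (Nat.card J : ℝ) ≤ 1 / (Nat.card J : ℝ) := by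
          rw [le_div_iff₀ hN0]
          nlinarith [h2, hy]
        linarith
  calc (∑ j, (if T j then 0 else Real.negMulLog (p j)))
      ≤ ∑ j, ((if T j then 0 else p j) * Real.log (Nat.card J) + 1 / (Nat.card J : ℝ)) :=
        Finset.sum_le_sum fun j _ => key j
    _ = 1 + (∑ j, (if T j then 0 else p j)) * Real.log (Nat.card J) := by
        rw [Finset.sum_add_distrib, ← Finset.sum_mul, Finset.sum_const, Finset.card_univ,
          ← Nat.card_eq_fintype_card, nsmul_eq_mul, mul_one_div_cancel hN0.ne']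
        ring

include hg hqm hσ

theorem pcX (Xs : S → Prop) (hX : ∀ Ed : Finset (S × G), (∀ e ∈ Ed, Xs e.1) → Bd0 g Ed → Ed = ∅) :
    (∑ s, ∑ δ : {q : Ps r // lp q = s} → Sh, (open Classical in if TS dS s δ then 0 else
        Real.negMulLog ((bern G ζ).real {m | ws s (wG g σ (tq qm m)) = δ}))) ≤
      ent (bern G ζ) (fun m => (wG g σ (tq qm m) : Ps r → Sh)) +
      ∑ s, (open Classical in if Xs s then 0 else 1 +
        (bern G ζ).real {m | ¬ TS dS s (ws s (wG g σ (tq qm m)))} *
          Real.log (Nat.card ({q : Ps r // lp q = s} → Sh))) := by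
  classical
  obtain ⟨D1, h1, hL⟩ := wg_lc (r := r) g D σ hσ
  have hFm : Fm (fun y : Bsh G => (wG g σ (tq qm y) : Ps r → Sh)) :=
    fm_lc qm hqm D1 (fun t : G → Am => (wG g σ t : Ps r → Sh)) hL
  have hFq : Fm (fun y : Bsh G => qm (y 1)) := Fm.lab hqm
  have hPM : Inv G (Measure.dirac ()) := fun x =>
    ⟨measurable_of_finite _, Measure.map_dirac _⟩
  have hfi := fi (G := G) ζ qm hqm (M := Unit) (Measure.dirac ()) hPM (W := Unit) (AA := Ps r → Sh) (S := S)
    (fun m : Unit => m) (fun a => MeasurableSet.of_discrete) g (fun _ t => (wG g σ t : Ps r → Sh)) D1 h1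
    (fun _ => hL) (BB := fun s => {q : Ps r // lp q = s} → Sh) (fun s => ws s) (fun s => wt' s)
    (fun s _ => Xs s) (fun m t s _ => ws_match g hg σ s t) (fun _ Ed hEd hB => hX Ed hEd hB)
  simp only [Finset.univ_unique, Finset.sum_singleton] at hfi
  have hone : (Measure.dirac () : Measure Unit).real {_m : Unit | True} = 1 := by
    rw [Set.setOf_true]; simp
  rw [hone] at hfi
  simp only [one_mul] at hfi
  have hc : entc (bern G ζ) (fun y : Bsh G => qm (y 1)) (fun y => (wG g σ (tq qm y) : Ps r → Sh)) ≤ ent ζ qm := by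
    refine le_trans (entc_le_ent hFq hFm) (le_of_eq ?_)
    exact ent_lab (G := G) ζ hqm
  have hmain : ∑ s, (if Xs s then ent (bern G ζ) (fun y => ws s (wG g σ (tq qm y) : Ps r → Sh)) else 0) ≤
      ent (bern G ζ) (fun m => (wG g σ (tq qm m) : Ps r → Sh)) := by
    linarith
  have hFs : ∀ s : S, Fm (fun y : Bsh G => ws s (wG g σ (tq qm y) : Ps r → Sh)) := fun s => hFm.comp _
  have hterm : ∀ s : S, (∑ δ : {q : Ps r // lp q = s} → Sh, (if TS dS s δ then 0 else
        Real.negMulLog ((bern G ζ).real {m | ws s (wG g σ (tq qm m)) = δ}))) ≤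
      (if Xs s then ent (bern G ζ) (fun y => ws s (wG g σ (tq qm y) : Ps r → Sh)) else 0) +
      (if Xs s then 0 else 1 +
        (bern G ζ).real {m | ¬ TS dS s (ws s (wG g σ (tq qm m)))} *
          Real.log (Nat.card ({q : Ps r // lp q = s} → Sh))) := by
    intro s
    by_cases hs : Xs s
    · simp only [if_pos hs, add_zero]
      rw [ent_eq]
      refine Finset.sum_le_sum fun δ _ => ?_
      by_cases hT : TS dS s δ
      · rw [if_pos hT]
        exact Real.negMulLog_nonneg measureReal_nonneg measureReal_le_one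
      · rw [if_neg hT]
        exact le_of_eq rfl
    · simp only [if_neg hs, zero_add]
      have hsum : ∑ δ : {q : Ps r // lp q = s} → Sh,
          (bern G ζ).real {m | ws s (wG g σ (tq qm m)) = δ} = 1 := entF_sum (hFs s)
      have h2 := mk_eta (fun δ : {q : Ps r // lp q = s} → Sh =>
        (bern G ζ).real {m | ws s (wG g σ (tq qm m)) = δ}) (fun _ => measureReal_nonneg) (fun δ => TS dS s δ)
        hsum.le
      have h3 : (∑ δ : {q : Ps r // lp q = s} → Sh, (if TS dS s δ then 0 else
          (bern G ζ).real {m | ws s (wG g σ (tq qm m)) = δ})) =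
          (bern G ζ).real {m | ¬ TS dS s (ws s (wG g σ (tq qm m)))} := by
        have h4 : {m : Bsh G | ¬ TS dS s (ws s (wG g σ (tq qm m)))} =
            (fun m : Bsh G => ws s (wG g σ (tq qm m) : Ps r → Sh)) ⁻¹'
              ((Finset.univ.filter fun δ : {q : Ps r // lp q = s} → Sh => ¬ TS dS s δ : Finset _) : Set _) := by
          ext m; simp
        rw [h4, ← sum_measureReal_preimage_singleton _ (fun δ _ => hFs s δ), Finset.sum_filter]
        refine Finset.sum_congr rfl fun δ _ => ?_
        by_cases hT : TS dS s δ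
        · rw [if_pos hT, if_neg (not_not.2 hT)]
        · rw [if_neg hT, if_pos hT]
          rfl
      rw [← h3]
      exact h2
  calc _ ≤ ∑ s, ((if Xs s then ent (bern G ζ) (fun y => ws s (wG g σ (tq qm y) : Ps r → Sh)) else 0) +
      (if Xs s then 0 else 1 +
        (bern G ζ).real {m | ¬ TS dS s (ws s (wG g σ (tq qm m)))} *
          Real.log (Nat.card ({q : Ps r // lp q = s} → Sh)))) := Finset.sum_le_sum fun s _ => hterm s
    _ ≤ _ := by
        rw [Finset.sum_add_distrib]
        exact add_le_add hmain le_rfl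

end H33.HN
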