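import Pool.Agent.H33.HN.FdB
import Pool.Agent.H33.HN.PcX
import Pool.Agent.H33.HN.PcL
import Pool.Agent.H33.HN.CtF
import Pool.Agent.H33.HN.ApF
import Pool.Agent.H33.BO.PartI

/-! # HN.PartI : Part I (paper section 3): the lower bound for the functional

PROOF. Compare H33/BO/PartI. Let `ε > 0`. `fn_cont` for the law `p` of the bags with `β` gives `η0`; `n` from `ap_law`; `entc_small` for the type `A0` and `ε` gives `δ1`. `η := min δ1 (η0 / (n + 1))`. `apf` gives `A, q, pr, D', β'`, `β~ y := β' (tq q y)` (`Fm`: `fm_lc`). With `p'` = law of the bags with `β~`: `Fn p' ≤ Fn p + ε` (`ap_law`, `fn_cont`).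
`fdec` for `β~`: `Fn p' = ent w + ∑ .. - ∑ s, ∑ δ, (..)`; split the last sum: `(if TS then 0 else η_δ + p_δ E_δ) = (if TS then 0 else η_δ) + (if TS then 0 else p_δ E_δ)`; `pcX` and `pcL` give `ent ν q ≤ Fn p' + entc (q (y 1)) (β~ y) + (∑ s, ..) + (∑ i, ..) * log (card Bag)`.
`entc (q (y 1)) (β~ y) ≤ entc (q0 (y 1)) (β~ y) + ent ν q - ent ν q0` and `entc (q0 (y 1)) (β~ y) ≤ ε` (`entc_small` with `q' (β~ y)` and `q0 (y 1) = q' (β y)` a.e., which differ with probability at most `η ≤ δ1`), exactly as in the proof of H33/BO/PartI. So `ent ν q0 ≤ Fn p + 2 ε + ..` for every `ε > 0`. -/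

set_option autoImplicit false
set_option synthInstance.maxSize 4000

open MeasureTheory H31.BE

namespace H33.HN

variable {S I : Type} [Fintype S] [Fintype I] [DecidableEq S] [DecidableEq I] {r : Rl S I} {G : Type} [Group G]
  [DecidableEq G] [Countable G] (g : S → G) (hg : Pres r g) (ν ζ : Measure ℝ) [IsProbabilityMeasure ν]
  [IsProbabilityMeasure ζ] {P Sh Λ Am : Type} [Finite P] [Fintype Sh] [Finite Λ] [Finite Am]
  (dS : Sh → Option (Ps r)) (tS : Sh → I) (ln : I → Ps r) (shp : P → Sh) (rc : Sh → (G → Λ) → P)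
  (hshp : ∀ x t, shp (rc x t) = x) (D : Finset G) (hrc : ∀ x, Lc D (rc x)) (qm : ℝ → Am) (hqm : Fm qm)
  (σ : I → (G → Am) → Sh) (hσ : ∀ i, Lc D (σ i))

include hg hshp hrc hqm hσ

theorem partI (ht : ∀ i t, tS (σ i t) = i) (Xs : S → Prop)
    (hX : ∀ Ed : Finset (S × G), (∀ e ∈ Ed, Xs e.1) → Bd0 g Ed → Ed = ∅)
    (hT : ∀ (t : G → Am) (Ed : Finset (S × G)),
      (∀ e ∈ Ed, ¬ TH dS tS ln e.1 (ws e.1 (wG g σ (sf e.2 t)))) → Bd0 g Ed → Ed = ∅)
    (β : Bsh G → Λ) (hβ : Fm β) {A0 : Type} [Finite A0] (q0 : ℝ → A0) (hq0 : Fm q0) (q' : Λ → A0)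
    (hq' : ∀ᵐ y ∂(bern G ν), q' (β y) = q0 (y 1)) :
    ent ν q0 ≤ Fn (fun p : P => dS (shp p)) (BO.law ((bern G ν).prod (bern G ζ))
        (bgp g (fun z : Bsh G × Bsh G => β z.1)
          (fun i (z : Bsh G × Bsh G) => rc (σ i (tq qm z.2)) (fun h => β (h • z.1))))) +
      (∑ s, (open Classical in if Xs s then 0 else 1 +
        (bern G ζ).real {m | ¬ TS dS s (ws s (wG g σ (tq qm m)))} *
          Real.log (Nat.card ({q : Ps r // lp q = s} → Sh)))) +
      (∑ i, (bern G ζ).real {m | dS (σ i (tq qm m)) = none}) * Real.log (Nat.card (Bag r P Λ)) := by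
  classical
  refine le_of_forall_pos_le_add fun ε' hε' => ?_
  obtain ⟨ε, hεdef⟩ : ∃ ε : ℝ, ε = ε' / 2 := ⟨_, rfl⟩
  have hε : 0 < ε := by
    rw [hεdef]
    positivity
  obtain ⟨η0, hη0, hcont⟩ := fn_cont (r := r) (fun p : P => dS (shp p))
    (BO.law ((bern G ν).prod (bern G ζ)) (bgp g (fun z : Bsh G × Bsh G => β z.1)
      (fun i (z : Bsh G × Bsh G) => rc (σ i (tq qm z.2)) (fun h => β (h • z.1))))) ε hε
  obtain ⟨n, hn⟩ := ap_law (r := r) ν ζ g rc D hrc qm hqm σ hσ β hβ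
  obtain ⟨δ1, hδ1, hsm⟩ := entc_small A0 ε hε
  obtain ⟨η, hηdef⟩ : ∃ η : ℝ, η = min δ1 (η0 / (n + 1)) := ⟨_, rfl⟩
  have hn1 : (0 : ℝ) < (n : ℝ) + 1 := by positivity
  have hηpos : 0 < η := by
    rw [hηdef]
    exact lt_min hδ1 (by positivity)
  have hηδ : η ≤ δ1 := by
    rw [hηdef]
    exact min_le_left _ _
  have hnη : (n : ℝ) * η ≤ η0 := by
    have h1 : η ≤ η0 / (n + 1) := by
      rw [hηdef]
      exact min_le_right _ _
    have h2 : ((n : ℝ) + 1) * η ≤ η0 := by
      calc ((n : ℝ) + 1) * η ≤ ((n : ℝ) + 1) * (η0 / (n + 1)) := mul_le_mul_of_nonneg_left h1 hn1.le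
        _ = η0 := by field_simp
    linarith
  obtain ⟨A, hA, q, hq, pr, hpr, D', β', hβ', hη'⟩ := apf ν β hβ q0 hq0 η hηpos
  have hβm : Fm (fun y : Bsh G => β' (tq q y)) := fm_lc q hq D' β' hβ'
  have hlaw := hn A q hq D' β' hβ' η hη'
  have hFn := hcont _ (fun Φ => (hlaw Φ).trans hnη)
  have hdec := fdec g hg ν ζ dS shp rc hshp D hrc qm hqm σ hσ (fun y : Bsh G => β' (tq q y)) hβm
  have hX' := pcX g hg ζ dS D qm hqm σ hσ Xs hX
  have hL' := pcL g hg ν ζ dS tS ln rc D hrc qm hqm σ hσ ht hT q hq β' D' hβ'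
  -- the sum over the interface shapes
  have hsplit : (∑ s, ∑ δ : {q : Ps r // lp q = s} → Sh, (open Classical in if TS dS s δ then 0 else
        Real.negMulLog ((bern G ζ).real {m | ws s (wG g σ (tq qm m)) = δ}) +
        (bern G ζ).real {m | ws s (wG g σ (tq qm m)) = δ} *
          ent (bern G ν) (fun y => If g rc s δ (fun h => β' (tq q (h • y)))))) =
      (∑ s, ∑ δ : {q : Ps r // lp q = s} → Sh, (open Classical in if TS dS s δ then 0 else
        Real.negMulLog ((bern G ζ).real {m | ws s (wG g σ (tq qm m)) = δ}))) +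
      (∑ s, ∑ δ : {q : Ps r // lp q = s} → Sh, (open Classical in if TS dS s δ then 0 else
        (bern G ζ).real {m | ws s (wG g σ (tq qm m)) = δ} *
          ent (bern G ν) (fun y => If g rc s δ (fun h => β' (tq q (h • y)))))) := by
    rw [← Finset.sum_add_distrib]
    refine Finset.sum_congr rfl fun s _ => ?_
    rw [← Finset.sum_add_distrib]
    refine Finset.sum_congr rfl fun δ _ => ?_
    by_cases hTS : TS dS s δ
    · rw [if_pos hTS, if_pos hTS, if_pos hTS, add_zero]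
    · rw [if_neg hTS, if_neg hTS, if_neg hTS]
  rw [hsplit] at hdec
  -- the entropies of the labels
  have hlabq : Fm (fun y : Bsh G => q (y 1)) := Fm.lab (G := G) hq
  have hlabq0 : Fm (fun y : Bsh G => q0 (y 1)) := Fm.lab (G := G) hq0
  have hent : ent (bern G ν) (fun y : Bsh G => q (y 1)) = ent ν q := ent_lab (G := G) ν hq
  have hent0 : ent (bern G ν) (fun y : Bsh G => q0 (y 1)) = ent ν q0 := ent_lab (G := G) ν hq0
  have hII : entc (bern G ν) (fun y : Bsh G => q (y 1)) (fun y => β' (tq q y)) ≤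
      entc (bern G ν) (fun y : Bsh G => q0 (y 1)) (fun y => β' (tq q y)) + (ent ν q - ent ν q0) := by
    have a1 := entc_comp_left (P := bern G ν) (hlabq.prodMk hlabq0) hβm (Prod.fst : A × A0 → A)
    have a2 := entc_chain (P := bern G ν) hlabq hlabq0 hβm
    have a3 := entc_anti (P := bern G ν) hlabq (hlabq0.prodMk hβm) (Prod.fst : A0 × Λ → A0)
    have a4 : entc (bern G ν) (fun y : Bsh G => q (y 1)) (fun y => q0 (y 1)) = ent ν q - ent ν q0 := by
      unfold entc
      rw [hent0]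
      congr 1
      rw [← hent]
      have h1 := ent_inj (P := bern G ν) hlabq (fun a : A => (a, pr a)) (fun a b h => (Prod.mk.inj h).1)
      rw [← h1]
      congr 1
      funext y
      rw [hpr]
    simp only at a1 a3
    rw [a4] at a3
    linarith
  have hq'm : Fm (fun y : Bsh G => q' (β' (tq q y))) := hβm.comp q'
  have hsm' : entc (bern G ν) (fun y : Bsh G => q0 (y 1)) (fun y => β' (tq q y)) ≤ ε := by
    refine le_trans (entc_anti (P := bern G ν) hlabq0 hβm q') ?_
    refine hsm (Bsh G) (bern G ν) _ _ hlabq0 hq'm ?_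
    refine le_trans ?_ hηδ
    refine le_trans ?_ hη'
    have hmono : (bern G ν) {y : Bsh G | q0 (y 1) ≠ q' (β' (tq q y))} ≤
        (bern G ν) {y : Bsh G | β y ≠ β' (tq q y)} := by
      refine measure_mono_ae ?_
      filter_upwards [hq'] with y hy h1 h2
      apply h1
      rw [← h2, hy]
    exact ENNReal.toReal_mono (measure_ne_top _ _) hmono
  linarith

end H33.HN
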