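import Pool.Agent.H33.HN.Evs

/-! # HN.SgP : the decoded maps are permutations outside of the bad set

PROOF. `inv_two`: for `v ∉ BB m1` the words `[(s, !c), (s, c)]` and `[]` have the same product 1 in `G`, so by `a2` the walks agree (both are `1`), and `evs` gives `f` with `lift g f = 1`, `f.norm ≤ 2 L.C`, `evf .. v = ac X f v = v` (`bb_one`). `sgp`: for every `s` the map `v ↦ sm .. (s, true) v` is injective on the complement of `BB m1` (apply `sm .. (s, false)`), so it extends to a permutation of the finite set `V` (complements of a set and of its image have the same cardinality; as in Cmp4).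
`evp`: induction on `w`. `p :: w`: `u = evf w v = ac X f1 v` with `f1.norm ≤ L.C * w.length` (`evs`), `u ∉ BB m1` (`bb_mv`). `p = (s, true)`: `σ s u = sm (s, true) u`. `p = (s, false)`: `u' := sm .. (s, false) u = ac X (rp ..) u ∉ BB m1`, `σ s u' = sm .. (s, true) u' = u` (`inv_two` at `u`), so `(σ s)⁻¹ u = u'`. `lv_cons`, `ac σ (val (s, false)) = (σ s)⁻¹`. -/

set_option autoImplicit false
set_option synthInstance.maxSize 4000

open MeasureTheory H31.BE

namespace H33.HN

variable {S I : Type} [Fintype S] [DecidableEq S] {r : Rl S I} {G Y Λ P V : Type} [Group G] [DecidableEq G]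
  [MulAction G Y] (g : S → G) (lb : Y → Λ) (R : ℕ) (φ : I → Y → P)
  (om : V → Bag r P (↥(ball (SS g) R) → Λ)) (y : V → Y)
  (hom : ∀ v, om v = bgp g (win lb (ball (SS g) R)) φ (y v)) (X : S → Equiv.Perm V)

variable {Λ0 : Type} (pr : Λ → Λ0) (L : Lab (SS g) Λ0) (rp : G → FreeGroup S)
  (hrp : ∀ m h, h ∈ ball (SS g) m → (rp h).norm ≤ m ∧ FreeGroup.lift g (rp h) = h)

include hom hrp

theorem inv_two (v : V) (m1 : ℕ) (h1 : 2 * L.C ≤ m1) (hm : m1 ≤ R) (hv : v ∉ BB g om X m1)
    (ha : Adm L 2 (fun h => pr (lb (h • y v)))) (s : S) (c : Bool) :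
    sm g L rp (fun v => pr (lb (y v))) X (s, !c) (sm g L rp (fun v => pr (lb (y v))) X (s, c) v) = v := by
  have hlen : ([(s, !c), (s, c)] : List (S × Bool)).length = 2 := rfl
  obtain ⟨f, h2, h3, h4, _⟩ := evs g lb R φ om y hom X pr L rp hrp v [(s, !c), (s, c)] m1
    (by rw [hlen, Nat.mul_comm]; exact h1) hm hv
  rw [hlen] at h2
  have h5 : wprod (([(s, !c), (s, c)] : List (S × Bool)).map (ll g)) = wprod ([] : List (H31.BE.Gn (SS g))) := by
    cases c <;> simp [wprod, gv, ll]
  have h6 := ha.a2 _ [] (by simp) (by simp) h5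
  have h7 : FreeGroup.lift g f = 1 := by
    rw [h3, h6]
    rfl
  have h8 := bb_one g om X m1 f (by omega) h7 v hv
  rw [← h4] at h8
  exact h8

theorem sgp [Finite V] (m1 : ℕ) (h1 : 2 * L.C ≤ m1) (hm : m1 ≤ R)
    (ha : ∀ v, Adm L 2 (fun h => pr (lb (h • y v)))) :
    ∃ σ : S → Equiv.Perm V, ∀ v, v ∉ BB g om X m1 → ∀ s,
      σ s v = sm g L rp (fun v => pr (lb (y v))) X (s, true) v := by
  classical
  have key : ∀ s : S, ∃ τ : Equiv.Perm V, ∀ v, v ∉ BB g om X m1 →
      τ v = sm g L rp (fun v => pr (lb (y v))) X (s, true) v := by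
    intro s
    have hinj : Set.InjOn (fun v => sm g L rp (fun v => pr (lb (y v))) X (s, true) v) (BB g om X m1)ᶜ := by
      intro v hv w hw h
      have e1 := inv_two g lb R φ om y hom X pr L rp hrp v m1 h1 hm hv (ha v) s true
      have e2 := inv_two g lb R φ om y hom X pr L rp hrp w m1 h1 hm hw (ha w) s true
      have h' : sm g L rp (fun v => pr (lb (y v))) X (s, true) v =
        sm g L rp (fun v => pr (lb (y v))) X (s, true) w := h
      rw [h'] at e1
      exact e1.symm.trans e2
    let e := Equiv.Set.imageOfInjOn _ _ hinj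
    have := Fintype.ofFinite V
    refine ⟨e.extendSubtype, fun v hv => ?_⟩
    rw [Equiv.extendSubtype_apply_of_mem e v hv]
    rfl
  choose σ hσ using key
  exact ⟨σ, fun v hv s => hσ s v hv⟩

theorem evp (m1 : ℕ) (h1 : 2 * L.C ≤ m1) (ha : ∀ v, Adm L 2 (fun h => pr (lb (h • y v))))
    (σ : S → Equiv.Perm V) (hσ : ∀ v, v ∉ BB g om X m1 → ∀ s,
      σ s v = sm g L rp (fun v => pr (lb (y v))) X (s, true) v) (v : V) (w : List (S × Bool)) (m : ℕ)
    (hw : m1 + 2 * (L.C * w.length) ≤ m) (hm : m ≤ R) (hv : v ∉ BB g om X m) :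
    ac σ (lv w) v = evf (sm g L rp (fun v => pr (lb (y v))) X) w v := by
  induction w with
  | nil => exact congrFun (congrArg DFunLike.coe (map_one (ac σ))) v
  | cons p w ih =>
    have hlen : (p :: w).length = w.length + 1 := rfl
    rw [hlen] at hw
    have hw' : m1 + 2 * (L.C * w.length) ≤ m := by
      have : L.C * w.length ≤ L.C * (w.length + 1) := Nat.mul_le_mul_left _ (Nat.le_succ _)
      omega
    have ih' := ih hw'
    obtain ⟨f1, a1, _, a3, _⟩ := evs g lb R φ om y hom X pr L rp hrp v w m (by omega) hm hv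
    obtain ⟨f2, b1, _, b3, _⟩ := evs g lb R φ om y hom X pr L rp hrp v (p :: w) m
      (by rw [hlen]; omega) hm hv
    rw [hlen] at b1
    have hu : evf (sm g L rp (fun v => pr (lb (y v))) X) w v ∉ BB g om X m1 := by
      rw [a3]
      exact bb_mv g om X m m1 f1 (by omega) v hv
    have hu' : sm g L rp (fun v => pr (lb (y v))) X p (evf (sm g L rp (fun v => pr (lb (y v))) X) w v) ∉
        BB g om X m1 := by
      have e1 : sm g L rp (fun v => pr (lb (y v))) X p (evf (sm g L rp (fun v => pr (lb (y v))) X) w v) =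
        ac X f2 v := b3
      rw [e1]
      exact bb_mv g om X m m1 f2 (by omega) v hv
    have hstep : ac σ (lv (p :: w)) v = ac σ (val p) (evf (sm g L rp (fun v => pr (lb (y v))) X) w v) := by
      have e2 : lv (p :: w) = val p * lv w := by simp [lv]
      rw [e2, map_mul, Equiv.Perm.mul_apply, ih']
    rw [hstep]
    show ac σ (val p) (evf (sm g L rp (fun v => pr (lb (y v))) X) w v) =
      sm g L rp (fun v => pr (lb (y v))) X p (evf (sm g L rp (fun v => pr (lb (y v))) X) w v)
    generalize evf (sm g L rp (fun v => pr (lb (y v))) X) w v = u at hu hu'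
    obtain ⟨s, c⟩ := p
    cases c with
    | true =>
      have e3 : ac σ (val (s, true)) = σ s := by simp [val, ac]
      rw [e3]
      exact hσ u hu s
    | false =>
      have e3 : ac σ (val (s, false)) = (σ s)⁻¹ := by simp [val, ac]
      rw [e3, Equiv.Perm.inv_eq_iff_eq]
      have e4 := hσ _ hu' s
      have e5 := inv_two g lb R φ om y hom X pr L rp hrp u m1 h1 (by omega) hu (ha u) s false
      rw [e4]
      exact e5.symm

end H33.HN
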