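import Pool.Agent.H33.HN.DefsF

/-! # HN.ShA : Shapley shares: efficiency, independence of the ambient set, monotonicity

PROOF. `sh_eff`: `∑ g ∈ U, ∑ J ⊆ U.erase g, wt |J| u * f J = ∑ J ⊆ U, (u - |J|) * wt |J| u * f J` (exchange the sums: `J` occurs for the `g ∈ U \ J`) and `∑ g ∈ U, ∑ J ⊆ U.erase g, wt |J| u * f (insert g J) = ∑ K ⊆ U, |K| * wt (|K| - 1) u * f K` (`K = insert g J`, `g ∈ K`). `(u - k) * wt k u = k! (u - k)! / u!` for `k < u` and `k * wt (k - 1) u = k! (u - k)! / u!` for `1 ≤ k`: everything cancels except `K = ∅` (`u * wt 0 u = 1`) and `K = U` (`u * wt (u - 1) u = 1`). `U = ∅`: both sides are 0.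
`sh_ext`: add the elements of `U' \ U` one by one (`Finset.induction_on` for the difference, or induction on `U'.card`): for `x ∉ U`, `x ≠ g`: the powerset of `(insert x U).erase g = insert x (U.erase g)` consists of the `J` and `insert x J`, `J ⊆ U.erase g` (`Finset.sum_powerset_insert`), `f (insert x J) = f J`-type equalities by the hypothesis (`(insert x J) ∩ U0 = J ∩ U0` for `x ∉ U0`), and `wt j (u + 1) + wt (j + 1) (u + 1) = wt j u` for `j + 1 ≤ u` (`j! (u - j)! + (j + 1)! (u - 1 - j)! = j! (u - 1 - j)! (u + 1)`).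
`sh_zero`: every term is 0: `(insert g J) ∩ D = J ∩ D`. `sh_mono`, `sh_nonneg`: the weights are nonnegative. `sh_ge`: `∑ J ⊆ U.erase g, wt |J| u = ∑ j < u, choose (u - 1) j * j! (u - 1 - j)! / u! = ∑ j < u, (u - 1)! / u! = 1` (`Finset.sum_powerset_apply_card` or similar). `sh_tr`: the map `J ↦ J.image e` is a bijection of the powersets (`Finset.sum_bij` or `Finset.sum_image`, `Finset.powerset_image`), cardinalities and `insert` are preserved (`Finset.image_insert`). -/

set_option autoImplicit false
set_option synthInstance.maxSize 4000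

open MeasureTheory H31.BE

namespace H33.HN

variable {G : Type} [DecidableEq G]

private theorem ShA_nonneg (j u : ℕ) : 0 ≤ wt j u := by
  unfold wt
  positivity

private theorem ShA_notMem {U : Finset G} {g : G} {J : Finset G} (hJ : J ∈ (U.erase g).powerset) : g ∉ J :=
  fun h => (Finset.notMem_erase g U) (Finset.mem_powerset.1 hJ h)

private theorem ShA_coef (k u : ℕ) (hu : 0 < u) (hk : k ≤ u) :
    ((u : ℝ) - k) * wt k u - k * wt (k - 1) u = (if k = 0 then 1 else 0) - (if k = u then 1 else 0) := by
  have hf : (u.factorial : ℝ) ≠ 0 := by exact_mod_cast u.factorial_ne_zero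
  obtain ⟨v, rfl⟩ : ∃ v, u = v + 1 := ⟨u - 1, by omega⟩
  have e1 : ((v + 1).factorial : ℝ) = (v + 1) * v.factorial := by
    rw [Nat.factorial_succ]
    push_cast
    ring
  have hv : (v.factorial : ℝ) ≠ 0 := by exact_mod_cast v.factorial_ne_zero
  have hv1 : ((v : ℝ) + 1) ≠ 0 := by positivity
  unfold wt
  rcases Nat.eq_zero_or_pos k with h0 | h0
  · subst h0
    rw [if_pos rfl, if_neg (by omega), Nat.factorial_zero, e1]
    have e2 : v + 1 - 1 - 0 = v := by omega
    rw [e2]
    push_cast
    field_simp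
    ring
  · obtain ⟨j, rfl⟩ : ∃ j, k = j + 1 := ⟨k - 1, by omega⟩
    have e3 : v + 1 - 1 - (j + 1 - 1) = v - j := by omega
    have e4 : ((j + 1).factorial : ℝ) = (j + 1) * j.factorial := by
      rw [Nat.factorial_succ]
      push_cast
      ring
    rw [if_neg (by omega), e3, Nat.add_sub_cancel]
    by_cases h1 : j + 1 = v + 1
    · have h2 : j = v := by omega
      subst h2
      rw [if_pos rfl, Nat.sub_self, Nat.factorial_zero, e1]
      push_cast
      field_simp
      ring
    · rw [if_neg h1]
      obtain ⟨d, hd⟩ : ∃ d, v = j + 1 + d := ⟨v - (j + 1), by omega⟩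
      have e5 : v - (j + 1) = d := by omega
      have e9 : j + 1 - 1 = j := by omega
      have e6 : v - j = d + 1 := by omega
      have e7 : ((d + 1).factorial : ℝ) = (d + 1) * d.factorial := by
        rw [Nat.factorial_succ]
        push_cast
        ring
      rw [e5, e6, e7, e9, e4]
      have e8 : ((v + 1 : ℕ) : ℝ) - ((j + 1 : ℕ) : ℝ) = d + 1 := by
        rw [hd]
        push_cast
        ring
      rw [e8]
      push_cast
      ring

theorem sh_eff (U : Finset G) (f : Finset G → ℝ) : ∑ g ∈ U, sh U g f = f ∅ - f U := by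
  rcases U.eq_empty_or_nonempty with h0 | h0
  · subst h0
    simp
  have hu : 0 < U.card := h0.card_pos
  have hA : ∑ g ∈ U, ∑ J ∈ (U.erase g).powerset, wt J.card U.card * f J =
      ∑ J ∈ U.powerset, ((U.card : ℝ) - J.card) * wt J.card U.card * f J := by
    have h1 : ∑ g ∈ U, ∑ J ∈ (U.erase g).powerset, wt J.card U.card * f J =
        ∑ J ∈ U.powerset, ∑ g ∈ U \ J, wt J.card U.card * f J := by
      apply Finset.sum_comm'
      intro g J
      simp only [Finset.mem_powerset, Finset.mem_sdiff, Finset.subset_erase]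
      tauto
    rw [h1]
    refine Finset.sum_congr rfl fun J hJ => ?_
    have h2 := Finset.mem_powerset.1 hJ
    rw [Finset.sum_const, Finset.card_sdiff_of_subset h2, nsmul_eq_mul,
      Nat.cast_sub (Finset.card_le_card h2)]
    ring
  have hB : ∑ g ∈ U, ∑ J ∈ (U.erase g).powerset, wt J.card U.card * f (insert g J) =
      ∑ K ∈ U.powerset, (K.card : ℝ) * wt (K.card - 1) U.card * f K := by
    have h1 : ∀ g ∈ U, ∑ J ∈ (U.erase g).powerset, wt J.card U.card * f (insert g J) =
        ∑ K ∈ U.powerset.filter (fun K => g ∈ K), wt (K.card - 1) U.card * f K := by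
      intro g hg
      refine Finset.sum_nbij' (fun J => insert g J) (fun K => K.erase g) ?_ ?_ ?_ ?_ ?_
      · intro J hJ
        rw [Finset.mem_filter, Finset.mem_powerset]
        exact ⟨Finset.insert_subset hg ((Finset.mem_powerset.1 hJ).trans (Finset.erase_subset g U)),
          Finset.mem_insert_self g J⟩
      · intro K hK
        rw [Finset.mem_filter, Finset.mem_powerset] at hK
        rw [Finset.mem_powerset]
        exact Finset.erase_subset_erase g hK.1
      · intro J hJ
        exact Finset.erase_insert (ShA_notMem hJ)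
      · intro K hK
        rw [Finset.mem_filter] at hK
        exact Finset.insert_erase hK.2
      · intro J hJ
        rw [Finset.card_insert_of_notMem (ShA_notMem hJ), Nat.add_sub_cancel]
    rw [Finset.sum_congr rfl h1]
    have h2 : ∑ g ∈ U, ∑ K ∈ U.powerset.filter (fun K => g ∈ K), wt (K.card - 1) U.card * f K =
        ∑ K ∈ U.powerset, ∑ g ∈ K, wt (K.card - 1) U.card * f K := by
      apply Finset.sum_comm'
      intro g K
      simp only [Finset.mem_filter, Finset.mem_powerset]
      constructor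
      · rintro ⟨_, h3, h4⟩
        exact ⟨h4, h3⟩
      · rintro ⟨h3, h4⟩
        exact ⟨h4 h3, h4, h3⟩
    rw [h2]
    refine Finset.sum_congr rfl fun K _ => ?_
    rw [Finset.sum_const, nsmul_eq_mul]
    ring
  have hS : ∑ g ∈ U, sh U g f = ∑ g ∈ U, ∑ J ∈ (U.erase g).powerset, wt J.card U.card * f J -
      ∑ g ∈ U, ∑ J ∈ (U.erase g).powerset, wt J.card U.card * f (insert g J) := by
    unfold sh
    simp only [mul_sub, Finset.sum_sub_distrib]
  rw [hS, hA, hB, ← Finset.sum_sub_distrib]
  have hC : ∀ K ∈ U.powerset, ((U.card : ℝ) - K.card) * wt K.card U.card * f K -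
      (K.card : ℝ) * wt (K.card - 1) U.card * f K =
      (if K = ∅ then f K else 0) - (if K = U then f K else 0) := by
    intro K hK
    have h1 := Finset.mem_powerset.1 hK
    have h2 := ShA_coef K.card U.card hu (Finset.card_le_card h1)
    have h3 : (K.card = 0) ↔ K = ∅ := Finset.card_eq_zero
    have h4 : (K.card = U.card) ↔ K = U :=
      ⟨fun h => Finset.eq_of_subset_of_card_le h1 h.ge, fun h => by rw [h]⟩
    rw [← sub_mul, h2]
    simp only [h3, h4]
    split_ifs <;> ring
  rw [Finset.sum_congr rfl hC, Finset.sum_sub_distrib, Finset.sum_ite_eq', Finset.sum_ite_eq',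
    if_pos (Finset.empty_mem_powerset U), if_pos (Finset.mem_powerset.2 (Finset.Subset.refl U))]

private theorem ShA_wt (j u : ℕ) (h : j + 1 ≤ u) : wt j (u + 1) + wt (j + 1) (u + 1) = wt j u := by
  obtain ⟨d, rfl⟩ : ∃ d, u = j + 1 + d := ⟨u - (j + 1), by omega⟩
  unfold wt
  have e1 : j + 1 + d + 1 - 1 - j = d + 1 := by omega
  have e2 : j + 1 + d + 1 - 1 - (j + 1) = d := by omega
  have e3 : j + 1 + d - 1 - j = d := by omega
  have e4 : ((j + 1 + d + 1).factorial : ℝ) = (j + 1 + d + 1) * (j + 1 + d).factorial := by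
    rw [Nat.factorial_succ]
    push_cast
    ring
  have e5 : ((d + 1).factorial : ℝ) = (d + 1) * d.factorial := by
    rw [Nat.factorial_succ]
    push_cast
    ring
  have e6 : ((j + 1).factorial : ℝ) = (j + 1) * j.factorial := by
    rw [Nat.factorial_succ]
    push_cast
    ring
  rw [e1, e2, e3, e4, e5, e6]
  have h1 : ((j + 1 + d).factorial : ℝ) ≠ 0 := by exact_mod_cast (j + 1 + d).factorial_ne_zero
  have h2 : ((j : ℝ) + 1 + d + 1) ≠ 0 := by positivity
  field_simp
  ring

private theorem ShA_step (D U : Finset G) (hDU : D ⊆ U) (g : G) (hg : g ∈ D) (f : Finset G → ℝ)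
    (hf : ∀ J, f J = f (J ∩ D)) (x : G) (hx : x ∉ U) : sh (insert x U) g f = sh U g f := by
  have hxD : x ∉ D := fun h => hx (hDU h)
  have hgU : g ∈ U := hDU hg
  have hxg : x ≠ g := fun h => hx (h ▸ hgU)
  have h1 : (insert x U).erase g = insert x (U.erase g) := Finset.erase_insert_of_ne hxg
  have h2 : x ∉ U.erase g := fun h => hx (Finset.mem_of_mem_erase h)
  have hfx : ∀ J, f (insert x J) = f J := by
    intro J
    rw [hf (insert x J), hf J, Finset.insert_inter_of_notMem hxD]
  unfold sh
  rw [h1, Finset.sum_powerset_insert h2, ← Finset.sum_add_distrib]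
  refine Finset.sum_congr rfl fun J hJ => ?_
  have h3 : x ∉ J := fun h => h2 (Finset.mem_powerset.1 hJ h)
  have h4 : J.card + 1 ≤ U.card := by
    have h5 := Finset.card_le_card (Finset.mem_powerset.1 hJ)
    rw [Finset.card_erase_of_mem hgU] at h5
    have h6 : 0 < U.card := Finset.card_pos.2 ⟨g, hgU⟩
    omega
  rw [Finset.card_insert_of_notMem hx, Finset.card_insert_of_notMem h3, hfx, Finset.insert_comm, hfx,
    ← add_mul, ShA_wt _ _ h4]

theorem sh_ext (D U : Finset G) (hDU : D ⊆ U) (g : G) (hg : g ∈ D) (f : Finset G → ℝ)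
    (hf : ∀ J, f J = f (J ∩ D)) : sh U g f = sh D g f := by
  have key : ∀ E : Finset G, sh (E ∪ D) g f = sh D g f := by
    intro E
    induction E using Finset.induction_on with
    | empty => rw [Finset.empty_union]
    | insert x E _ ih =>
      rw [Finset.insert_union]
      by_cases h : x ∈ E ∪ D
      · rw [Finset.insert_eq_of_mem h, ih]
      · rw [ShA_step D (E ∪ D) Finset.subset_union_right g hg f hf x h, ih]
  have h := key U
  rwa [Finset.union_eq_left.2 hDU] at h

theorem sh_zero (D U : Finset G) (g : G) (hg : g ∉ D) (f : Finset G → ℝ)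
    (hf : ∀ J, f J = f (J ∩ D)) : sh U g f = 0 := by
  unfold sh
  refine Finset.sum_eq_zero fun J _ => ?_
  rw [hf (insert g J), Finset.insert_inter_of_notMem hg, ← hf J, sub_self, mul_zero]

theorem sh_mono (U : Finset G) (g : G) (f f' : Finset G → ℝ)
    (h : ∀ J, g ∉ J → f' J - f' (insert g J) ≤ f J - f (insert g J)) : sh U g f' ≤ sh U g f := by
  unfold sh
  exact Finset.sum_le_sum fun J hJ => mul_le_mul_of_nonneg_left (h J (ShA_notMem hJ)) (ShA_nonneg _ _)

theorem sh_nonneg (U : Finset G) (g : G) (f : Finset G → ℝ)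
    (h : ∀ J, g ∉ J → 0 ≤ f J - f (insert g J)) : 0 ≤ sh U g f := by
  unfold sh
  exact Finset.sum_nonneg fun J hJ => mul_nonneg (ShA_nonneg _ _) (h J (ShA_notMem hJ))

theorem sh_ge (U : Finset G) (g : G) (hg : g ∈ U) (f : Finset G → ℝ) (c : ℝ)
    (h : ∀ J, g ∉ J → c ≤ f J - f (insert g J)) : c ≤ sh U g f := by
  have h1 : ∑ J ∈ (U.erase g).powerset, wt J.card U.card = 1 := by
    rw [Finset.sum_powerset_apply_card (fun j => wt j U.card)]
    obtain ⟨m, hm⟩ : ∃ m, U.card = m + 1 := ⟨U.card - 1, by
      have h6 : 0 < U.card := Finset.card_pos.2 ⟨g, hg⟩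
      omega⟩
    rw [Finset.card_erase_of_mem hg, hm, Nat.add_sub_cancel]
    have h2 : ∀ j ∈ Finset.range (m + 1), m.choose j • wt j (m + 1) = 1 / ((m : ℝ) + 1) := by
      intro j hj
      have hjm : j ≤ m := Nat.lt_succ_iff.1 (Finset.mem_range.1 hj)
      have h3 : ((m.choose j : ℝ)) * j.factorial * (m - j).factorial = m.factorial := by
        exact_mod_cast Nat.choose_mul_factorial_mul_factorial hjm
      have h4 : ((m + 1).factorial : ℝ) = (m + 1) * m.factorial := by
        rw [Nat.factorial_succ]
        push_cast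
        ring
      have h5 : (m.factorial : ℝ) ≠ 0 := by exact_mod_cast m.factorial_ne_zero
      have h6 : ((m : ℝ) + 1) ≠ 0 := by positivity
      unfold wt
      rw [nsmul_eq_mul, Nat.add_sub_cancel, h4, ← mul_div_assoc, ← mul_assoc, h3]
      field_simp
    rw [Finset.sum_congr rfl h2, Finset.sum_const, Finset.card_range, nsmul_eq_mul]
    have h6 : ((m : ℝ) + 1) ≠ 0 := by positivity
    push_cast
    field_simp
  have h2 : c = ∑ J ∈ (U.erase g).powerset, wt J.card U.card * c := by
    rw [← Finset.sum_mul, h1, one_mul]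
  unfold sh
  rw [h2]
  exact Finset.sum_le_sum fun J hJ => mul_le_mul_of_nonneg_left (h J (ShA_notMem hJ)) (ShA_nonneg _ _)

theorem sh_tr (U : Finset G) (g : G) (f : Finset G → ℝ) (e : Equiv.Perm G) :
    sh U g (fun J => f (J.image e)) = sh (U.image e) (e g) f := by
  unfold sh
  refine Finset.sum_nbij' (fun J => J.image e) (fun K => K.image e.symm) ?_ ?_ ?_ ?_ ?_
  · intro J hJ
    have h1 := Finset.mem_powerset.1 hJ
    rw [Finset.mem_powerset]
    intro y hy
    obtain ⟨x, hx, rfl⟩ := Finset.mem_image.1 hy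
    have h2 := Finset.mem_erase.1 (h1 hx)
    exact Finset.mem_erase.2 ⟨fun h => h2.1 (e.injective h), Finset.mem_image_of_mem e h2.2⟩
  · intro K hK
    have h1 := Finset.mem_powerset.1 hK
    rw [Finset.mem_powerset]
    intro y hy
    obtain ⟨x, hx, rfl⟩ := Finset.mem_image.1 hy
    have h2 := Finset.mem_erase.1 (h1 hx)
    obtain ⟨z, hz, hzx⟩ := Finset.mem_image.1 h2.2
    subst hzx
    rw [Equiv.symm_apply_apply]
    exact Finset.mem_erase.2 ⟨fun h => h2.1 (by rw [h]), hz⟩
  · intro J _
    show (J.image e).image e.symm = J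
    rw [Finset.image_image, Equiv.symm_comp_self, Finset.image_id]
  · intro K _
    show (K.image e.symm).image e = K
    rw [Finset.image_image, Equiv.self_comp_symm, Finset.image_id]
  · intro J _
    rw [Finset.card_image_of_injective _ e.injective, Finset.card_image_of_injective _ e.injective]
    show _ * (f (J.image e) - f ((insert g J).image e)) = _
    rw [Finset.image_insert]

end H33.HN
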