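import Pool.Agent.H33.HN.DefsP
import Pool.Agent.H33.HN.Cmp0
import Pool.Agent.H33.HN.WrdA

/-! # HN.TrA : transport of patterns along a cell

PROOF. Let `c = (i, j)`, induction on `j` for the corner `(i, j)`. `j = 0`: `cw (i, 0) = 1` and the corner is `bc hr i`. `j + 1 < (r i).length`: let `c' = (i, j)`, `v_c' = ac X (cw c') v`, `v_c = ac X (cw c) v` with `c = nx c'` and `cw c = val (lp c', sg c') * cw c'` (as in `ac_nx`, the case without wrap). If `sg c' = true`: `v_c = X s v_c'`, `v_c' ∉ Mis` (`cw c'` has norm at most `ml r`): `tgt s (om v_c) = src s (om v_c')`, the component `⟨c', _⟩`: `(om v_c).1 (tc c') = (om v_c').1 (sc c')`, `tc c' = c`, `sc c' = c'`.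
If `sg c' = false`: `v_c' = X s v_c`, `v_c ∉ Mis` (`norm_cw`): `(om v_c').1 (tc c') = (om v_c).1 (sc c')`, `tc c' = c'`, `sc c' = c`. -/

set_option autoImplicit false
set_option synthInstance.maxSize 4000

open MeasureTheory H31.BE

namespace H33.HN

variable {S I : Type} [Fintype I] [DecidableEq S] {r : Rl S I} {P Λ V : Type}

theorem tra (hr : ∀ i, 0 < (r i).length) (om : V → Bag r P Λ) (X : S → Equiv.Perm V) (v : V)
    (hv : ∀ f : FreeGroup S, f.norm ≤ ml r → ac X f v ∉ Mis om X) (c : Ps r) :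
    (om (ac X (cw c) v)).1 c = (om v).1 (bc hr c.1) := by
  obtain ⟨i, ⟨j, hj⟩⟩ := c
  induction j with
  | zero =>
    have h : cw (⟨i, ⟨0, hj⟩⟩ : Ps r) = 1 := cw_base hr i
    rw [h, map_one]
    rfl
  | succ j ih =>
    have hj' : j < (r i).length := Nat.lt_of_succ_lt hj
    have ih' : (om (ac X (cw (⟨i, ⟨j, hj'⟩⟩ : Ps r)) v)).1 ⟨i, ⟨j, hj'⟩⟩ = (om v).1 (bc hr i) := ih hj'
    clear ih
    show (om (ac X (cw (⟨i, ⟨j + 1, hj⟩⟩ : Ps r)) v)).1 ⟨i, ⟨j + 1, hj⟩⟩ = (om v).1 (bc hr i)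
    have hnx : nx (⟨i, ⟨j, hj'⟩⟩ : Ps r) = ⟨i, ⟨j + 1, hj⟩⟩ := by
      unfold nx
      simp only [Nat.mod_eq_of_lt hj]
    have hcw : cw (⟨i, ⟨j + 1, hj⟩⟩ : Ps r) =
        val (lp (⟨i, ⟨j, hj'⟩⟩ : Ps r), sg (⟨i, ⟨j, hj'⟩⟩ : Ps r)) * cw (⟨i, ⟨j, hj'⟩⟩ : Ps r) := by
      have h : (r i).take (j + 1) = (r i).take j ++ [(r i).get ⟨j, hj'⟩] := by
        rw [List.take_succ_eq_append_getElem hj']
        rfl
      show pv ((r i).take (j + 1)) = _
      rw [h, pv_concat]
      rfl
    generalize hc' : (⟨i, ⟨j, hj'⟩⟩ : Ps r) = c' at ih' hnx hcw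
    generalize (⟨i, ⟨j + 1, hj⟩⟩ : Ps r) = c at hnx hcw ⊢
    have hstep : ac X (cw c) v = ac X (val (lp c', sg c')) (ac X (cw c') v) := by
      rw [hcw, map_mul]
      rfl
    have hb : (om v).1 (bc hr i) = (om (ac X (cw c') v)).1 c' := ih'.symm
    have key : (om (ac X (cw c) v)).1 c = (om (ac X (cw c') v)).1 c' := by
      cases hsg : sg c'
      · have hX : X (lp c') (ac X (cw c) v) = ac X (cw c') v := by
          rw [hstep, hsg]
          simp [val]
        have hm : ac X (cw c) v ∉ Mis om X := hv _ (norm_cw c)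
        have heq : tgt (lp c') (om (X (lp c') (ac X (cw c) v))) = src (lp c') (om (ac X (cw c) v)) := by
          by_contra h
          exact hm ⟨_, h⟩
        rw [hX] at heq
        have h2 : (om (ac X (cw c') v)).1 (tc c') = (om (ac X (cw c) v)).1 (sc c') :=
          congrFun (congrArg Prod.fst heq) ⟨c', rfl⟩
        have h3 : tc c' = c' := by simp [tc, hsg]
        have h4 : sc c' = c := by simp [sc, hsg, hnx]
        rw [h3, h4] at h2
        exact h2.symm
      · have hX : X (lp c') (ac X (cw c') v) = ac X (cw c) v := by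
          rw [hstep, hsg]
          simp [val]
        have hm : ac X (cw c') v ∉ Mis om X := hv _ (norm_cw c')
        have heq : tgt (lp c') (om (X (lp c') (ac X (cw c') v))) = src (lp c') (om (ac X (cw c') v)) := by
          by_contra h
          exact hm ⟨_, h⟩
        rw [hX] at heq
        have h2 : (om (ac X (cw c) v)).1 (tc c') = (om (ac X (cw c') v)).1 (sc c') :=
          congrFun (congrArg Prod.fst heq) ⟨c', rfl⟩
        have h3 : tc c' = c := by simp [tc, hsg, hnx]
        have h4 : sc c' = c' := by simp [sc, hsg]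
        rw [h3, h4] at h2
        exact h2
    rw [key, ← hb]

end H33.HN
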